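import Pool.Agent.Lib.MP_54db3e_nt.QbDefs

/-!
Working definitions for the proof (none of them occurs in the final statement).
-/

open scoped Classical

noncomputable section

namespace Pool.Agent.Lib.MP_54db3e_nt

instance fact5 : Fact (Nat.Prime 5) := ⟨by norm_num⟩
instance fact13 : Fact (Nat.Prime 13) := ⟨by norm_num⟩
instance fact29 : Fact (Nat.Prime 29) := ⟨by norm_num⟩
instance fact659 : Fact (Nat.Prime 659) := ⟨by norm_num⟩

abbrev F5 := ZMod 5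
abbrev M2 := Matrix (Fin 2) (Fin 2) ℤ_[5]
abbrev Om (l : ℕ) [Fact l.Prime] := PadicAlgCl l
abbrev Gl (l : ℕ) [Fact l.Prime] := PadicAlgCl l ≃ₐ[ℚ_[l]] PadicAlgCl l

/-! ### Abstract group with a 5-adic representation -/

section Grp

variable {G : Type} [Group G] (ρ : G →* M2)

/-- congruence of matrices modulo `5^n` -/
def MC (n : ℕ) (A B : M2) : Prop := ∀ i j, (5 : ℤ_[5]) ^ n ∣ A i j - B i j

theorem MC.refl (n : ℕ) (A : M2) : MC n A A := fun i j => by simp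
theorem MC.symm {n : ℕ} {A B : M2} (h : MC n A B) : MC n B A := fun i j => by
  have := (h i j).neg_right; simpa using this
theorem MC.trans {n : ℕ} {A B C : M2} (h : MC n A B) (h' : MC n B C) : MC n A C := fun i j => by
  have := (h i j).add (h' i j); simpa using this
theorem MC.mul {n : ℕ} {A B C D : M2} (h : MC n A B) (h' : MC n C D) : MC n (A * C) (B * D) :=
  fun i j => by
    have e : (A * C) i j - (B * D) i j = ((A i 0 - B i 0) * C 0 j + B i 0 * (C 0 j - D 0 j)) +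
        ((A i 1 - B i 1) * C 1 j + B i 1 * (C 1 j - D 1 j)) := by
      simp only [Matrix.mul_apply, Fin.sum_univ_two]; ring
    rw [e]
    exact (((h i 0).mul_right _).add ((h' 0 j).mul_left _)).add
      (((h i 1).mul_right _).add ((h' 1 j).mul_left _))
theorem MC.mono {n m : ℕ} {A B : M2} (h : MC n A B) (hm : m ≤ n) : MC m A B :=
  fun i j => (pow_dvd_pow _ hm).trans (h i j)
theorem MC.det {n : ℕ} {A B : M2} (h : MC n A B) : (5 : ℤ_[5]) ^ n ∣ A.det - B.det := by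
  have e : A.det - B.det = ((A 0 0 - B 0 0) * A 1 1 + B 0 0 * (A 1 1 - B 1 1)) -
      ((A 0 1 - B 0 1) * A 1 0 + B 0 1 * (A 1 0 - B 1 0)) := by
    simp only [Matrix.det_fin_two]; ring
  rw [e]
  exact (((h 0 0).mul_right _).add ((h 1 1).mul_left _)).sub
    (((h 0 1).mul_right _).add ((h 1 0).mul_left _))

theorem rho_mul_inv (g : G) : ρ g * ρ g⁻¹ = 1 := by rw [← map_mul, mul_inv_cancel, map_one]
theorem rho_inv_mul (g : G) : ρ g⁻¹ * ρ g = 1 := by rw [← map_mul, inv_mul_cancel, map_one]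
theorem isUnit_det_rho (g : G) : IsUnit (ρ g).det :=
  IsUnit.of_mul_eq_one (ρ g⁻¹).det (by rw [← Matrix.det_mul, rho_mul_inv, Matrix.det_one])

/-- `G_n`: the elements acting trivially modulo `5^n` -/
def lev (n : ℕ) : Subgroup G where
  carrier := {g | MC n (ρ g) 1}
  one_mem' := by simpa using MC.refl n 1
  mul_mem' := fun {a b} ha hb => by
    have := MC.mul ha hb
    simpa using this
  inv_mem' := fun {a} ha => by
    have := MC.mul (MC.refl n (ρ a⁻¹)) ha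
    rw [rho_inv_mul, mul_one] at this
    exact this.symm

theorem mem_lev {n : ℕ} {g : G} : g ∈ lev ρ n ↔ MC n (ρ g) 1 := Iff.rfl

instance lev_normal (n : ℕ) : (lev ρ n).Normal := ⟨fun a ha g => by
  have := MC.mul (MC.mul (MC.refl n (ρ g)) ha) (MC.refl n (ρ g⁻¹))
  rw [mul_one, rho_mul_inv] at this
  rw [mem_lev, map_mul, map_mul]
  exact this⟩

theorem lev_anti {n m : ℕ} (h : m ≤ n) : lev ρ n ≤ lev ρ m := fun _ hg => MC.mono hg h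

/-- `Z_n`: the elements acting modulo `5^n` by a scalar fourth root of unity -/
def zlev (n : ℕ) : Subgroup G where
  carrier := {g | ∃ c : ℤ_[5], c ^ 4 = 1 ∧ MC n (ρ g) (c • (1 : M2))}
  one_mem' := ⟨1, by simp, by simpa using MC.refl n 1⟩
  mul_mem' := fun {a b} ⟨c, hc, ha⟩ ⟨c', hc', hb⟩ => ⟨c * c', by rw [mul_pow, hc, hc', mul_one], by
    have := MC.mul ha hb
    simpa [smul_smul, mul_comm] using this⟩
  inv_mem' := fun {a} ⟨c, hc, ha⟩ => ⟨c ^ 3, by rw [← pow_mul, mul_comm, pow_mul, hc, one_pow], by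
    have := MC.mul (MC.mul (MC.refl n (ρ a⁻¹)) ha) (MC.refl n (c ^ 3 • (1 : M2)))
    rw [rho_inv_mul, one_mul, mul_assoc] at this
    have e : (c • (1 : M2)) * (c ^ 3 • (1 : M2)) = 1 := by
      rw [smul_mul_smul_comm, mul_one, ← pow_succ', hc, one_smul]
    rw [e, mul_one] at this
    exact this.symm⟩

theorem mem_zlev {n : ℕ} {g : G} :
    g ∈ zlev ρ n ↔ ∃ c : ℤ_[5], c ^ 4 = 1 ∧ MC n (ρ g) (c • (1 : M2)) := Iff.rfl

instance zlev_normal (n : ℕ) : (zlev ρ n).Normal := ⟨fun a ⟨c, hc, ha⟩ g => ⟨c, hc, by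
  have := MC.mul (MC.mul (MC.refl n (ρ g)) ha) (MC.refl n (ρ g⁻¹))
  rw [mul_smul_comm, mul_one, smul_mul_assoc, rho_mul_inv] at this
  rw [map_mul, map_mul]
  exact this⟩⟩

theorem lev_le_zlev (n : ℕ) : lev ρ n ≤ zlev ρ n := fun _ hg =>
  ⟨1, by simp, by rw [one_smul]; exact hg⟩
theorem zlev_anti {n m : ℕ} (h : m ≤ n) : zlev ρ n ≤ zlev ρ m :=
  fun _ ⟨c, hc, hg⟩ => ⟨c, hc, MC.mono hg h⟩

/-- `S_n`: trivial modulo 5 with determinant 1 modulo `5^n` -/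
def slev (n : ℕ) : Subgroup G where
  carrier := {g | g ∈ lev ρ 1 ∧ (5 : ℤ_[5]) ^ n ∣ (ρ g).det - 1}
  one_mem' := ⟨one_mem _, by simp⟩
  mul_mem' := fun {a b} ha hb => ⟨mul_mem ha.1 hb.1, by
    have e : (ρ (a * b)).det - 1 = ((ρ a).det - 1) * (ρ b).det + ((ρ b).det - 1) := by
      rw [map_mul, Matrix.det_mul]; ring
    rw [e]; exact (ha.2.mul_right _).add hb.2⟩
  inv_mem' := fun {a} ha => ⟨inv_mem ha.1, by
    have h1 : (ρ a).det * (ρ a⁻¹).det = 1 := by rw [← Matrix.det_mul, rho_mul_inv, Matrix.det_one]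
    have e : (ρ a⁻¹).det - 1 = -(((ρ a).det - 1) * (ρ a⁻¹).det) := by
      rw [sub_mul, h1]; ring
    rw [e]; exact (ha.2.mul_right _).neg_right⟩

theorem mem_slev {n : ℕ} {g : G} :
    g ∈ slev ρ n ↔ g ∈ lev ρ 1 ∧ (5 : ℤ_[5]) ^ n ∣ (ρ g).det - 1 := Iff.rfl

instance slev_normal (n : ℕ) : (slev ρ n).Normal := ⟨fun a ha g =>
  ⟨(lev_normal ρ 1).conj_mem a ha.1 g, by
    have h1 : (ρ g).det * (ρ g⁻¹).det = 1 := by rw [← Matrix.det_mul, rho_mul_inv, Matrix.det_one]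
    have e : (ρ (g * a * g⁻¹)).det = (ρ a).det := by
      rw [map_mul, map_mul, Matrix.det_mul, Matrix.det_mul, mul_right_comm, h1, one_mul]
    rw [e]; exact ha.2⟩⟩

/-- `Γ`: the elements that are diagonal modulo 5 -/
def gam : Subgroup G where
  carrier := {g | (5 : ℤ_[5]) ∣ ρ g 0 1 ∧ (5 : ℤ_[5]) ∣ ρ g 1 0}
  one_mem' := by simp
  mul_mem' := fun {a b} ha hb => by
    simp only [Set.mem_ofPred_eq, map_mul, Matrix.mul_apply, Fin.sum_univ_two]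
    exact ⟨(hb.1.mul_left _).add (ha.1.mul_right _), (ha.2.mul_right _).add (hb.2.mul_left _)⟩
  inv_mem' := fun {a} ha => by
    have h := rho_inv_mul ρ a
    have h00 := congrFun (congrFun h 0) 0
    have h01 := congrFun (congrFun h 0) 1
    have h10 := congrFun (congrFun h 1) 0
    have h11 := congrFun (congrFun h 1) 1
    have k := rho_mul_inv ρ a
    have k00 := congrFun (congrFun k 0) 0
    have k11 := congrFun (congrFun k 1) 1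
    simp only [Matrix.mul_apply, Fin.sum_univ_two, Matrix.one_apply] at h00 h01 h10 h11 k00 k11
    norm_num at h00 h01 h10 h11 k00 k11
    obtain ⟨⟨u, hu⟩, ⟨v, hv⟩⟩ := ha
    rw [hu] at h01 h11 k00
    rw [hv] at h00 h10 k11
    refine ⟨⟨ρ a⁻¹ 0 1 * ρ a⁻¹ 0 1 * v - ρ a⁻¹ 0 0 * u * ρ a⁻¹ 1 1, ?_⟩,
      ⟨ρ a⁻¹ 1 0 * ρ a⁻¹ 1 0 * u - ρ a⁻¹ 1 1 * v * ρ a⁻¹ 0 0, ?_⟩⟩
    · linear_combination ρ a⁻¹ 1 1 * h01 - ρ a⁻¹ 0 1 * k11
    · linear_combination ρ a⁻¹ 0 0 * h10 - ρ a⁻¹ 1 0 * k00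

theorem mem_gam {g : G} : g ∈ gam ρ ↔ (5 : ℤ_[5]) ∣ ρ g 0 1 ∧ (5 : ℤ_[5]) ∣ ρ g 1 0 := Iff.rfl

theorem zlev_le_gam {n : ℕ} (hn : 1 ≤ n) : zlev ρ n ≤ gam ρ := fun g ⟨c, _, hg⟩ => by
  have h := MC.mono hg hn
  have h01 := h 0 1
  have h10 := h 1 0
  simp at h01 h10
  exact ⟨h01, h10⟩

theorem lev_le_gam {n : ℕ} (hn : 1 ≤ n) : lev ρ n ≤ gam ρ :=
  (lev_le_zlev ρ n).trans (zlev_le_gam ρ hn)

/-- the characters `Φ₁`, `Φ₂`, `ω = Φ₁Φ₂` and `Φ₁/Φ₂` (meaningful on `gam ρ`) -/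
def ph1 (g : G) : F5 := PadicInt.toZMod (ρ g 0 0)
def ph2 (g : G) : F5 := PadicInt.toZMod (ρ g 1 1)
def om (g : G) : F5 := ph1 ρ g * ph2 ρ g
def rb (g : G) : F5 := ph1 ρ g * ph2 ρ g ^ 3

/-- the image of `gam ρ` is dense in the matrices that are diagonal and invertible modulo 5 -/
def Dens : Prop := ∀ A : M2, (5 : ℤ_[5]) ∣ A 0 1 → (5 : ℤ_[5]) ∣ A 1 0 → IsUnit (A 0 0) →
  IsUnit (A 1 1) → ∀ n, ∃ g, MC n (ρ g) A

/-- cocycles of weight `χ` on `B` -/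
def Coc (χ : G → F5) (B : Subgroup G) (c : G → F5) : Prop :=
  ∀ g ∈ B, ∀ h ∈ B, c (g * h) = c g * χ h + c h

/-- additive on `B` -/
def AddOn {A : Type} [Add A] (B : Subgroup G) (c : G → A) : Prop :=
  ∀ g ∈ B, ∀ h ∈ B, c (g * h) = c g + c h

/-- `c` vanishes on the intersection of `B` with a subgroup of the family `O` -/
def Cts (O : Subgroup G → Prop) (B : Subgroup G) (c : G → F5) : Prop :=
  ∃ U, O U ∧ ∀ g ∈ B, g ∈ U → c g = 0

/-- cocycles of `B` with values in the functions on `gam ρ` that are right invariant under `R`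
(extended by zero) -/
def ZC (B R : Subgroup G) : Submodule F5 (G → G → F5) where
  carrier := {c | (∀ g a, g ∉ B ∨ a ∉ gam ρ → c g a = 0) ∧
    (∀ g ∈ B, ∀ g' ∈ B, ∀ a ∈ gam ρ, c (g * g') a = c g (g' * a) + c g' a) ∧
    ∀ g a, ∀ z ∈ R, c g (a * z) = c g a}
  add_mem' := fun {c c'} h h' => ⟨fun g a hg => by simp [h.1 g a hg, h'.1 g a hg],
    fun g hg g' hg' a ha => by
      simp only [Pi.add_apply, h.2.1 g hg g' hg' a ha, h'.2.1 g hg g' hg' a ha]; ring,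
    fun g a z hz => by simp only [Pi.add_apply, h.2.2 g a z hz, h'.2.2 g a z hz]⟩
  zero_mem' := ⟨fun _ _ _ => rfl, fun _ _ _ _ _ _ => by simp, fun _ _ _ _ => rfl⟩
  smul_mem' := fun s c h => ⟨fun g a hg => by simp [h.1 g a hg],
    fun g hg g' hg' a ha => by
      simp only [Pi.smul_apply, smul_eq_mul, h.2.1 g hg g' hg' a ha]; ring,
    fun g a z hz => by simp only [Pi.smul_apply, h.2.2 g a z hz]⟩

/-- right translation -/
def rt (b : G) : (G → G → F5) →ₗ[F5] (G → G → F5) where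
  toFun c g a := c g (a * b)
  map_add' _ _ := rfl
  map_smul' _ _ := rfl

/-- local socle bound: continuous cocycles of weight `rb^j` on `D` span at most two dimensions -/
def LSH (O : Subgroup G → Prop) (D : Subgroup G) : Prop :=
  ∀ j : ℕ, j < 4 → ∃ c₁ c₂ : G → F5, ∀ c : G → F5, Coc (fun g => rb ρ g ^ j) D c → Cts O D c →
    ∃ s t : F5, ∀ g ∈ D, c g = s * c₁ g + t * c₂ g

/-- four pairs of elements with a tame relation modulo `U` -/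
def TameData (U : Subgroup G) (τ φ : Fin 4 → G) : Prop :=
  (∀ i, τ i ∈ lev ρ 1 ∧ φ i ∈ lev ρ 1 ∧ ¬ (25 : ℤ_[5]) ∣ (ρ (φ i)).det - 1 ∧
    ∃ Q : ℕ, Q % 25 = 21 ∧ φ i * τ i * (φ i)⁻¹ * (τ i ^ Q)⁻¹ ∈ U) ∧ τ 0 ∉ lev ρ 2

/-- conclusion of the surjectivity theorem -/
def StarC (O : Subgroup G → Prop) (D : Subgroup G) (UT : ℕ → Submodule F5 (G → F5)) : Prop :=
  ∀ m, 1 ≤ m → ∀ o : G → G → F5,
    (∀ a ∈ gam ρ, AddOn (D ⊓ lev ρ m) fun h => o h a) →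
    (∃ U, O U ∧ ∀ h ∈ D ⊓ lev ρ m, h ∈ U → ∀ a ∈ gam ρ, o h a = 0) →
    (∀ h ∈ D ⊓ lev ρ m, ∀ d ∈ D, ∀ a ∈ gam ρ, o h (d * a) = o (d⁻¹ * h * d) a) →
    (∀ h ∈ D ⊓ lev ρ m, ∀ a ∈ gam ρ, ∀ z ∈ zlev ρ m, o h (a * z) = o h a) →
    ∃ n, m ≤ n ∧ ∃ κ ∈ UT n, AddOn (lev ρ n) κ ∧
      (∀ z ∈ zlev ρ n, ∀ h ∈ lev ρ n, κ (z⁻¹ * h * z) = κ h) ∧
      ∀ h ∈ D ⊓ lev ρ n, ∀ a ∈ gam ρ, κ (a⁻¹ * h * a) = o h a

end Grp

/-! ### Galois theory and valuations -/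

/-- `U` contains the pointwise stabiliser of a finite set (it is open) -/
def OpnK {k Ω : Type} [Field k] [Field Ω] [Algebra k Ω] (U : Subgroup (Ω ≃ₐ[k] Ω)) : Prop :=
  ∃ s : Finset Ω, ∀ g : Ω ≃ₐ[k] Ω, (∀ x ∈ s, g x = x) → g ∈ U

abbrev Opn (U : Subgroup GQ) : Prop := OpnK U

/-- `x` is fixed by `B` -/
def Fx {k Ω : Type} [Field k] [Field Ω] [Algebra k Ω] (B : Subgroup (Ω ≃ₐ[k] Ω)) (x : Ω) : Prop :=
  ∀ g ∈ B, g x = x

/-- `g` is the restriction of `γ` along `ι` -/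
def Cmp {k Ω : Type} [Field k] [Field Ω] [Algebra k Ω] (ι : Qb →+* Ω) (g : GQ) (γ : Ω ≃ₐ[k] Ω) :
    Prop := ∀ x, ι (g x) = γ (ι x)

/-- the decomposition group of `ι` -/
def Dec {l : ℕ} [Fact l.Prime] (ι : Qb →+* Om l) : Subgroup GQ where
  carrier := {g | ∃ γ : Gl l, Cmp ι g γ}
  one_mem' := ⟨1, fun _ => rfl⟩
  mul_mem' := fun {a b} ⟨γ, h⟩ ⟨γ', h'⟩ => ⟨γ * γ', fun x => by
    rw [AlgEquiv.mul_apply, h, h', AlgEquiv.mul_apply]⟩
  inv_mem' := fun {a} ⟨γ, h⟩ => ⟨γ⁻¹, fun x => by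
    have := h (a⁻¹ x)
    rw [← AlgEquiv.mul_apply, mul_inv_cancel, AlgEquiv.one_apply] at this
    rw [this, ← AlgEquiv.mul_apply, inv_mul_cancel, AlgEquiv.one_apply]⟩

/-- `g` lies in the inertia group of `ι` for the fixed field of `U` -/
def Inert {l : ℕ} [Fact l.Prime] (ι : Qb →+* Om l) (U : Subgroup GQ) (g : GQ) : Prop :=
  ∀ x, Fx U x → ‖ι x‖ ≤ 1 → ‖ι (g x - x)‖ < 1

/-- algebraic units -/
def AUnit (y : Qb) : Prop := y ≠ 0 ∧ IsIntegral ℤ y ∧ IsIntegral ℤ y⁻¹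

/-- a power of `‖ι y‖` with exponent prime to 5 is an integral power of `l` -/
def NVal {l : ℕ} [Fact l.Prime] (ι : Qb →+* Om l) (y : Qb) : Prop :=
  ∃ m : ℕ, ¬ 5 ∣ m ∧ ∃ k : ℤ, ‖ι y‖ ^ m = (l : ℝ) ^ k

/-- the valuation of `x` at the prime of `F` given by `ι` is divisible by 5 -/
def N5 {l : ℕ} [Fact l.Prime] (F : IntermediateField ℚ Qb) (ι : Qb →+* Om l) (x : Qb) : Prop :=
  ∃ t ∈ F, t ≠ 0 ∧ ‖ι x‖ = ‖ι t‖ ^ 5

/-- the subgroup fixing all roots of unity of order dividing `5^n` -/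
def FixMu (n : ℕ) : Subgroup GQ where
  carrier := {g | ∀ ξ : Qb, ξ ^ 5 ^ n = 1 → g ξ = ξ}
  one_mem' := fun _ _ => rfl
  mul_mem' := fun {a b} ha hb ξ h => by rw [AlgEquiv.mul_apply, hb ξ h, ha ξ h]
  inv_mem' := fun {a} ha ξ h => by
    have := ha ξ h
    calc a⁻¹ ξ = a⁻¹ (a ξ) := by rw [this]
      _ = ξ := by rw [← AlgEquiv.mul_apply, inv_mul_cancel, AlgEquiv.one_apply]

/-- complex conjugations -/
def IsCC (c : GQ) : Prop := ∃ σ : Qb →+* ℂ, ∀ x, σ (c x) = (starRingEnd ℂ) (σ x)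

theorem pow_val_add {Ω : Type} [Monoid Ω] {z : Ω} (hz : z ^ 5 = 1) (s t : F5) :
    z ^ (s + t).val = z ^ s.val * z ^ t.val := by
  rw [← pow_add, ZMod.val_add, ← pow_eq_pow_mod _ hz]

theorem pow_val_mul {Ω : Type} [Monoid Ω] {z : Ω} (hz : z ^ 5 = 1) (s t : F5) :
    z ^ (s * t).val = (z ^ t.val) ^ s.val := by
  rw [← pow_mul, ZMod.val_mul, ← pow_eq_pow_mod _ hz, mul_comm]

/-- Kummer characters of algebraic units on the subgroup `B` -/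
def UTs (z : Qb) (hz : z ^ 5 = 1) (B : Subgroup GQ) : Submodule F5 (GQ → F5) where
  carrier := {κ | ∃ y, AUnit y ∧ ∀ h ∈ B, h y = z ^ (κ h).val * y}
  zero_mem' := ⟨1, ⟨one_ne_zero, isIntegral_one, by simpa using isIntegral_one⟩, fun h _ => by simp⟩
  add_mem' := fun {κ κ'} ⟨y, hy, h⟩ ⟨y', hy', h'⟩ => ⟨y * y',
    ⟨mul_ne_zero hy.1 hy'.1, hy.2.1.mul hy'.2.1, by rw [mul_inv]; exact hy.2.2.mul hy'.2.2⟩,
    fun g hg => by rw [map_mul, h g hg, h' g hg, Pi.add_apply, pow_val_add hz]; ring⟩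
  smul_mem' := fun s κ ⟨y, hy, h⟩ => ⟨y ^ s.val,
    ⟨pow_ne_zero _ hy.1, hy.2.1.pow _, by rw [← inv_pow]; exact hy.2.2.pow _⟩,
    fun g hg => by rw [map_pow, h g hg, Pi.smul_apply, smul_eq_mul, pow_val_mul hz, mul_pow]⟩

/-! ### The curve -/

/-- the integral model -/
def E0Z : WeierstrassCurve ℤ := ⟨0, 0, 1, 8175274, 50242716927⟩

/-- the curve over `ℚ` -/
def E0 : WeierstrassCurve ℚ := E0Z.map (Int.castRingHom ℚ)

section Div

variable {R : Type} [CommRing R] (A b x : R)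

def dF : R := 4 * x ^ 3 + 4 * A * x + b
def dT : R := 3 * x ^ 4 + 6 * A * x ^ 2 + 3 * b * x - A ^ 2
def dS : R := 2 * x ^ 6 + 10 * A * x ^ 4 + 10 * b * x ^ 3 - 10 * A ^ 2 * x ^ 2 - 2 * A * b * x
  - 2 * A ^ 3 - b ^ 2
def psi5 : R := dS A b x * dF A b x ^ 2 - dT A b x ^ 3
def phi5 : R := x * psi5 A b x ^ 2 -
  dF A b x * dS A b x * dT A b x * (psi5 A b x - dS A b x ^ 2)

end Div

/-- the `x`-coordinate (0 at the origin) -/
def xc {k : Type} [Field k] [Algebra ℚ k] : Pt E0 k → k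
  | .zero => 0
  | .some x _ _ => x

/-- the `y`-coordinate (0 at the origin) -/
def yc {k : Type} [Field k] [Algebra ℚ k] : Pt E0 k → k
  | .zero => 0
  | .some _ y _ => y

/-- the kernel of reduction -/
def E1 {l : ℕ} [Fact l.Prime] (P : Pt E0 (Om l)) : Prop := P = 0 ∨ 1 < ‖xc P‖

/-- the formal parameter `z = -x/y` -/
def zc {l : ℕ} [Fact l.Prime] (P : Pt E0 (Om l)) : Om l := -xc P / yc P

/-- the explicit algebraic numbers -/
structure Alg where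
  a : Qb
  r1 : Qb
  r2 : Qb
  z : Qb
  ha : a ^ 2 = 29
  hr1 : r1 ^ 2 = (7 - a) / 2
  hr2 : r2 ^ 2 = (7 + a) / 2
  hz : IsPrimitiveRoot z 5
  hrz : r1 * r2 = -(1 + 2 * (z + z ^ 4))

/-- the `x`-coordinate of `T₁` (of `T₂` for `-a`, `r₂`) -/
def xT {k : Type} [Field k] (a r : k) : k :=
  (-6844 + 1977 * a - (19111 + 11203 * a) / 10 * r) / 2

/-- the points of order 5 with the Galois action on them -/
structure Tor5 extends Alg where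
  T : Fin 2 → Pt E0 Qb
  T_ne : ∀ i, T i ≠ 0
  hx1 : xc (T 0) = xT a r1
  hx2 : xc (T 1) = xT (-a) r2
  five : ∀ i, 5 • T i = 0
  span : ∀ P : Pt E0 Qb, 5 • P = 0 → ∃ i j : ℕ, P = i • T 0 + j • T 1
  indep : ∀ i j : ℤ, i • T 0 + j • T 1 = 0 → (5 : ℤ) ∣ i ∧ (5 : ℤ) ∣ j
  diag : ∀ g : GQ, g a = a → ∃ u v : F5, act E0 g (T 0) = u.val • T 0 ∧
    act E0 g (T 1) = v.val • T 1 ∧ g z = z ^ (u * v).val ∧
    g r1 = (if u ^ 2 = 1 then r1 else -r1) ∧ g r2 = (if v ^ 2 = 1 then r2 else -r2)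
  anti : ∀ g : GQ, g a = -a → ∃ u v : ℕ, act E0 g (T 0) = u • T 1 ∧ act E0 g (T 1) = v • T 0

/-- compatible bases of the `5^n`-torsion and the 5-adic representation -/
structure Rep extends Tor5 where
  e : ℕ → Fin 2 → Pt E0 Qb
  e_zero : ∀ i, e 0 i = 0
  e_one : ∀ i, e 1 i = T i
  e_succ : ∀ n i, 5 • e (n + 1) i = e n i
  e_span : ∀ n (P : Pt E0 Qb), 5 ^ n • P = 0 → ∃ i j : ℕ, P = i • e n 0 + j • e n 1
  e_indep : ∀ n (i j : ℤ), i • e n 0 + j • e n 1 = 0 → (5 : ℤ) ^ n ∣ i ∧ (5 : ℤ) ^ n ∣ j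
  ρ : GQ →* M2
  hρ : ∀ (g : GQ) n j, act E0 g (e n j) = (PadicInt.toZModPow n (ρ g 0 j)).val • e n 0 +
    (PadicInt.toZModPow n (ρ g 1 j)).val • e n 1
  mem_lev : ∀ (g : GQ) n, g ∈ lev ρ n ↔ ∀ P : Pt E0 Qb, 5 ^ n • P = 0 → act E0 g P = P
  mem_gam : ∀ g : GQ, g ∈ gam ρ ↔ g a = a
  anti_gam : ∀ g : GQ, g ∉ gam ρ → (5 : ℤ_[5]) ∣ ρ g 0 0 ∧ (5 : ℤ_[5]) ∣ ρ g 1 1
  act_T1 : ∀ g ∈ gam ρ, act E0 g (T 0) = (ph1 ρ g).val • T 0
  act_T2 : ∀ g ∈ gam ρ, act E0 g (T 1) = (ph2 ρ g).val • T 1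
  act_z : ∀ g ∈ gam ρ, g z = z ^ (om ρ g).val
  act_r1 : ∀ g ∈ gam ρ, g r1 = if ph1 ρ g ^ 2 = 1 then r1 else -r1
  act_r2 : ∀ g ∈ gam ρ, g r2 = if ph2 ρ g ^ 2 = 1 then r2 else -r2
  act_zlev : ∀ (g : GQ) n (c : ℤ_[5]), MC n (ρ g) (c • (1 : M2)) → ∀ P : Pt E0 Qb, 5 ^ n • P = 0 →
    act E0 g P = (PadicInt.toZModPow n c).val • P
  opn_lev : ∀ n, Opn (lev ρ n)

/-- unit-type characters at level `n` -/
def Rep.UT (d : Rep) (n : ℕ) : Submodule F5 (GQ → F5) := UTs d.z d.hz.pow_eq_one (lev d.ρ n)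

/-- elementary unit-type homomorphisms at level `m` -/
def Elem (d : Rep) (m : ℕ) (f : GQ → Pt E0 Qb) : Prop :=
  ∃ (k : ℕ) (ξ y : Qb) (T : Pt E0 Qb), k ≤ m ∧ IsPrimitiveRoot ξ (5 ^ k) ∧ AUnit y ∧
    5 ^ k • T = 0 ∧ ∀ h ∈ lev d.ρ m, ∃ n : ℕ, h y = ξ ^ n * y ∧ f h = n • T

/-- the group generated by them -/
def TT (d : Rep) (m : ℕ) : AddSubgroup (GQ → Pt E0 Qb) := AddSubgroup.closure {f | Elem d m f}

/-- the invariant of the divisibility induction -/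
def Good (d : Rep) (m : ℕ) (f : GQ → Pt E0 Qb) : Prop :=
  f ∈ TT d m ∧ (∀ z ∈ zlev d.ρ m, ∀ h ∈ lev d.ρ m, f (z⁻¹ * h * z) = f h) ∧
    ∀ ι : Qb →+* Om 5, ∀ h ∈ Dec ι, h ∈ lev d.ρ m → E1 (pmap E0 ι (f h))

end Pool.Agent.Lib.MP_54db3e_nt
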