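import Mathlib

/-!
Step EXT: a compatible family of additive maps on `B ⊓ G` extends to a cocycle on `B` with values
in the functions on `Γ` that are invariant under right translation by `Z`.
-/

set_option autoImplicit false

namespace Pool.Agent.Lib.MP_54db3e_nt.H42

/-- Extension at the level of `G`. -/
theorem ext_level {Γ k : Type*} [Group Γ] [AddCommGroup k] (B G : Subgroup Γ) [G.Normal]
    (o : Γ → Γ → k)
    (hadd : ∀ h ∈ B, h ∈ G → ∀ h' ∈ B, h' ∈ G → ∀ a, o (h * h') a = o h a + o h' a)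
    (hB : ∀ d ∈ B, ∀ h ∈ B, h ∈ G → ∀ a, o h (d * a) = o (d⁻¹ * h * d) a)
    (hG : ∀ h ∈ B, h ∈ G → ∀ a, ∀ z ∈ G, o h (a * z) = o h a) :
    ∃ c : Γ → Γ ⧸ G → k,
      (∀ g ∈ B, ∀ g' ∈ B, ∀ x, c (g * g') x = c g ((g' : Γ ⧸ G) * x) + c g' x) ∧
      ∀ h ∈ B, h ∈ G → ∀ a : Γ, c h (a : Γ ⧸ G) = o h a := by
  let Bb : Subgroup (Γ ⧸ G) := B.map (QuotientGroup.mk' G)
  let r : Γ ⧸ G → Γ ⧸ G := fun x => (Quotient.mk (QuotientGroup.rightRel Bb) x).out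
  have hr : ∀ x, ∃ β ∈ B, (β : Γ ⧸ G) * r x = x := fun x => by
    have h : x * (r x)⁻¹ ∈ Bb :=
      QuotientGroup.rightRel_apply.1 (Quotient.mk_out (s := QuotientGroup.rightRel Bb) x)
    obtain ⟨β, hβ, e⟩ := h
    exact ⟨β, hβ, by rw [show (β : Γ ⧸ G) = x * (r x)⁻¹ from e, inv_mul_cancel_right]⟩
  have hrB : ∀ g ∈ B, ∀ x, r ((g : Γ ⧸ G) * x) = r x := fun g hg x => by
    refine congrArg Quotient.out (Quotient.sound (QuotientGroup.rightRel_apply.2 ?_))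
    exact ⟨g⁻¹, B.inv_mem hg, by simp⟩
  choose β hβ hβr using hr
  have hmem : ∀ g ∈ B, ∀ x, (β ((g : Γ ⧸ G) * x))⁻¹ * g * β x ∈ G := fun g hg x => by
    rw [← QuotientGroup.eq_one_iff, QuotientGroup.mk_mul, QuotientGroup.mk_mul,
      QuotientGroup.mk_inv]
    have h1 := hβr ((g : Γ ⧸ G) * x)
    rw [hrB g hg] at h1
    have h2 := hβr x
    apply mul_right_cancel (b := r x)
    rw [mul_assoc, h2, mul_assoc, inv_mul_eq_iff_eq_mul, one_mul, h1]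
  have hmemB : ∀ g ∈ B, ∀ x y, (β y)⁻¹ * g * β x ∈ B := fun g hg x y =>
    B.mul_mem (B.mul_mem (B.inv_mem (hβ y)) hg) (hβ x)
  refine ⟨fun g x => o ((β ((g : Γ ⧸ G) * x))⁻¹ * g * β x) (r x).out, ?_, ?_⟩
  · intro g hg g' hg' x
    simp only [hrB g' hg']
    rw [← hadd _ (hmemB g hg _ _) (hmem g hg _) _ (hmemB g' hg' _ _) (hmem g' hg' _),
      QuotientGroup.mk_mul, mul_assoc (g : Γ ⧸ G)]
    congr 1
    group
  · intro h hb hg a
    have h1 : (h : Γ ⧸ G) = 1 := (QuotientGroup.eq_one_iff h).2 hg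
    simp only [h1, one_mul]
    rw [← hB _ (hβ _) h hb hg]
    have h2 : a⁻¹ * (β (a : Γ ⧸ G) * (r a).out) ∈ G := by
      rw [← QuotientGroup.eq, QuotientGroup.mk_mul, QuotientGroup.out_eq', hβr]
    rw [← hG h hb hg a _ h2, mul_inv_cancel_left]

/-- Step EXT. The index of `G` in `Z` is invertible in the field `k`. -/
theorem EXT {Γ k : Type*} [Group Γ] [Field k] (B G Z : Subgroup Γ) [G.Normal] (hGZ : G ≤ Z)
    (hix : (G.relIndex Z : k) ≠ 0) (o : Γ → Γ → k)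
    (hadd : ∀ h ∈ B, h ∈ G → ∀ h' ∈ B, h' ∈ G → ∀ a, o (h * h') a = o h a + o h' a)
    (hB : ∀ d ∈ B, ∀ h ∈ B, h ∈ G → ∀ a, o h (d * a) = o (d⁻¹ * h * d) a)
    (hZ : ∀ h ∈ B, h ∈ G → ∀ a, ∀ z ∈ Z, o h (a * z) = o h a) :
    ∃ c : Γ → Γ → k,
      (∀ g ∈ B, ∀ g' ∈ B, ∀ a, c (g * g') a = c g (g' * a) + c g' a) ∧
      (∀ g a, ∀ z ∈ Z, c g (a * z) = c g a) ∧
      ∀ h ∈ B, h ∈ G → ∀ a, c h a = o h a := by
  obtain ⟨c, hc, hco⟩ := ext_level B G o hadd hB (fun h hb hg a z hz => hZ h hb hg a z (hGZ hz))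
  let Zb : Subgroup (Γ ⧸ G) := Z.map (QuotientGroup.mk' G)
  have hcard : G.relIndex Z = Nat.card Zb := by
    conv_lhs => rw [← QuotientGroup.ker_mk' G]
    exact Subgroup.relIndex_ker Z (QuotientGroup.mk' G)
  rw [hcard] at hix
  have : Finite Zb := Nat.finite_of_card_ne_zero (fun h => hix (by rw [h, Nat.cast_zero]))
  have := Fintype.ofFinite Zb
  refine ⟨fun g a => (Nat.card Zb : k)⁻¹ * ∑ t : Zb, c g ((a : Γ ⧸ G) * t), ?_, ?_, ?_⟩
  · intro g hg g' hg' a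
    simp only [hc g hg g' hg', Finset.sum_add_distrib, mul_add, QuotientGroup.mk_mul, mul_assoc]
  · intro g a z hz
    refine congrArg (fun s => (Nat.card Zb : k)⁻¹ * s) ?_
    refine Fintype.sum_equiv (Equiv.mulLeft (⟨(z : Γ ⧸ G), z, hz, rfl⟩ : Zb)) _ _ fun t => ?_
    simp [mul_assoc]
  · intro h hb hg a
    have h1 : ∀ t : Zb, c h ((a : Γ ⧸ G) * t) = o h a := by
      rintro ⟨_, z, hz, rfl⟩
      rw [← hZ h hb hg a z hz, ← hco h hb hg]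
      rfl
    simp only [h1, Finset.sum_const, Finset.card_univ, nsmul_eq_mul, ← Nat.card_eq_fintype_card]
    rw [inv_mul_cancel_left₀ hix]

end Pool.Agent.Lib.MP_54db3e_nt.H42
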