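import Mathlib

/-!
Step S1: a representation of a finite `p`-group over `ZMod p` whose invariants have dimension at
most `d` embeds in `d` copies of the regular representation; a stable subspace of small
codimension there contains all vectors fixed by a large subgroup.
-/

set_option autoImplicit false

namespace Pool.Agent.Lib.MP_54db3e_nt.H42

open Module

/-- A group whose elements act with `p`-power order on a finite nonzero `ZMod p`-space fixes a
nonzero vector. -/
theorem exists_fixed {p : ℕ} [Fact p.Prime] {H W : Type*} [Group H] [AddCommGroup W]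
    [Module (ZMod p) W] [Finite W] [Nontrivial W] (σ : Representation (ZMod p) H W)
    (hH : ∀ h, ∃ k, σ h ^ p ^ k = 1) : ∃ w, w ≠ 0 ∧ ∀ h, σ h w = w := by
  let R : Subgroup (W →ₗ[ZMod p] W)ˣ := σ.asGroupHom.range
  have hR : IsPGroup p R := by
    rintro ⟨_, h, rfl⟩
    obtain ⟨k, hk⟩ := hH h
    refine ⟨k, Subtype.ext (Units.ext ?_)⟩
    simpa [Representation.asGroupHom_apply] using hk
  have hc : p ∣ Nat.card W := by
    haveI : Module.Finite (ZMod p) W := Module.Finite.of_finite
    rw [Module.natCard_eq_pow_finrank (K := ZMod p) (V := W), Nat.card_zmod]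
    exact dvd_pow_self _ (Module.finrank_pos (R := ZMod p) (M := W)).ne'
  have h0 : (0 : W) ∈ MulAction.fixedPoints R W := fun r => smul_zero r
  obtain ⟨w, hw, hne⟩ := hR.exists_fixed_point_of_prime_dvd_card_of_fixed_point W hc h0
  refine ⟨w, hne.symm, fun h => ?_⟩
  have := hw ⟨σ.asGroupHom h, h, rfl⟩
  simpa [Subgroup.smul_def, Units.smul_def, Representation.asGroupHom_apply] using this

/-- A nonzero stable subspace of a representation of a finite `p`-group has a nonzero fixed
vector. -/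
theorem exists_fixed_mem {p : ℕ} [Fact p.Prime] {Q W : Type*} [Group Q] [Finite Q]
    (hQ : IsPGroup p Q) [AddCommGroup W] [Module (ZMod p) W] (σ : Representation (ZMod p) Q W)
    (S : Submodule (ZMod p) W) (hS : ∀ g, ∀ w ∈ S, σ g w ∈ S) {v : W} (hv : v ∈ S) (h0 : v ≠ 0) :
    ∃ w ∈ S, w ≠ 0 ∧ ∀ g, σ g w = w := by
  let T : Submodule (ZMod p) W := Submodule.span (ZMod p) (Set.range fun g => σ g v)
  have hT : ∀ g, T ≤ T.comap (σ g) := fun g => by
    refine Submodule.span_le.2 ?_
    rintro _ ⟨h, rfl⟩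
    refine Submodule.subset_span ⟨g * h, ?_⟩
    simp
  have hTS : T ≤ S := Submodule.span_le.2 (by rintro _ ⟨h, rfl⟩; exact hS h v hv)
  haveI : Module.Finite (ZMod p) T := Module.Finite.span_of_finite _ (Set.finite_range _)
  haveI : Finite T := Module.finite_of_finite (ZMod p)
  have hvT : v ∈ T := Submodule.subset_span ⟨1, by simp⟩
  haveI : Nontrivial T := ⟨⟨⟨v, hvT⟩, 0, fun h => h0 (congrArg Subtype.val h)⟩⟩
  obtain ⟨w, hw, hf⟩ := exists_fixed (σ.subrepresentation T hT) (fun h => by
    obtain ⟨k, hk⟩ := hQ h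
    exact ⟨k, by rw [← map_pow, hk, map_one]⟩)
  exact ⟨w, hTS w.2, fun h => hw (Subtype.ext h), fun g => congrArg Subtype.val (hf g)⟩

/-- Right translation on functions on a group. -/
def rt {k Q A : Type*} [Semiring k] [Group Q] [AddCommMonoid A] [Module k A] :
    Representation k Q (Q → A) where
  toFun h := { toFun := fun φ g => φ (g * h), map_add' := fun _ _ => rfl,
               map_smul' := fun _ _ => rfl }
  map_one' := by ext φ g; simp
  map_mul' h h' := by ext φ g; simp [mul_assoc]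

@[simp] theorem rt_apply {k Q A : Type*} [Semiring k] [Group Q] [AddCommMonoid A] [Module k A]
    (h : Q) (φ : Q → A) (g : Q) : rt (k := k) h φ g = φ (g * h) := rfl

/-- In the functions on `Q`, a subspace stable under `Q'` of codimension less than the order of
`Q'` contains every function fixed by `Q'`. -/
theorem mem_of_fixed_fun {p : ℕ} [Fact p.Prime] {Q A : Type*} [Group Q] [Finite Q]
    (hQ : IsPGroup p Q) [AddCommGroup A] [Module (ZMod p) A] [FiniteDimensional (ZMod p) A]
    (Q' : Subgroup Q) (U : Submodule (ZMod p) (Q → A))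
    (hU : ∀ g ∈ Q', ∀ φ ∈ U, rt (k := ZMod p) g φ ∈ U)
    (hd : finrank (ZMod p) (Q → A) < finrank (ZMod p) U + Nat.card Q')
    {φ : Q → A} (hφ : ∀ h ∈ Q', rt (k := ZMod p) h φ = φ) : φ ∈ U := by
  classical
  haveI := Fintype.ofFinite Q
  let ψ : Q → A := fun g => if g = (QuotientGroup.mk g : Q ⧸ Q').out then φ g else 0
  have hψ : ∑ h : Q', rt (k := ZMod p) (h : Q) ψ = φ := by
    funext g
    obtain ⟨h0, hh0⟩ := QuotientGroup.mk_out_eq_mul Q' g
    rw [Finset.sum_apply, Finset.sum_eq_single h0]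
    · have e : (QuotientGroup.mk (g * h0) : Q ⧸ Q') = QuotientGroup.mk g :=
        QuotientGroup.mk_mul_of_mem g h0.2
      have := congrFun (hφ h0 h0.2) g
      simp only [rt_apply] at this ⊢
      simp only [ψ, e, hh0, if_true, this]
    · intro h _ hne
      have e : (QuotientGroup.mk (g * h) : Q ⧸ Q') = QuotientGroup.mk g :=
        QuotientGroup.mk_mul_of_mem g h.2
      simp only [rt_apply, ψ, e, hh0]
      rw [if_neg]
      intro h1
      exact hne (Subtype.ext (mul_left_cancel h1))
    · intro h; exact absurd (Finset.mem_univ _) h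
  let α : (Q' → ZMod p) →ₗ[ZMod p] (Q → A) :=
    ∑ h : Q', (LinearMap.proj h).smulRight (rt (k := ZMod p) (h : Q)⁻¹ ψ)
  have hα : ∀ a, α a = ∑ h : Q', a h • rt (k := ZMod p) (h : Q)⁻¹ ψ := fun a => by
    simp [α, LinearMap.sum_apply]
  have hker : LinearMap.ker (U.mkQ ∘ₗ α) ≠ ⊥ := by
    apply LinearMap.ker_ne_bot_of_finrank_lt
    have := U.finrank_quotient_add_finrank
    rw [Module.finrank_fintype_fun_eq_card, ← Nat.card_eq_fintype_card]
    omega
  obtain ⟨a, ha, ha0⟩ := (Submodule.ne_bot_iff _).1 hker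
  have hst : ∀ g : Q', ∀ a ∈ LinearMap.ker (U.mkQ ∘ₗ α),
      rt (k := ZMod p) g a ∈ LinearMap.ker (U.mkQ ∘ₗ α) := by
    intro g a ha
    simp only [LinearMap.mem_ker, LinearMap.comp_apply, Submodule.mkQ_apply,
      Submodule.Quotient.mk_eq_zero] at ha ⊢
    have e : α (rt (k := ZMod p) g a) = rt (k := ZMod p) (g : Q) (α a) := by
      rw [hα, hα, map_sum]
      refine Fintype.sum_equiv (Equiv.mulRight g) _ _ (fun h => ?_)
      rw [map_smul, rt_apply, Equiv.coe_mulRight]
      congr 1
      funext x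
      simp [mul_assoc]
    rw [e]
    exact hU g g.2 _ ha
  obtain ⟨c, hc, hc0, hcf⟩ := exists_fixed_mem (hQ.to_subgroup Q') (rt (k := ZMod p)) _ hst ha ha0
  have hcc : ∀ h, c h = c 1 := fun h => by simpa using congrFun (hcf h) 1
  have hc1 : c 1 ≠ 0 := fun h => hc0 (funext fun g => (hcc g).trans h)
  simp only [LinearMap.mem_ker, LinearMap.comp_apply, Submodule.mkQ_apply,
    Submodule.Quotient.mk_eq_zero] at hc
  have e : α c = c 1 • φ := by
    rw [hα, ← hψ, Finset.smul_sum]
    refine Fintype.sum_equiv (Equiv.inv Q') _ _ (fun h => ?_)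
    rw [hcc h]
    simp
  rw [e] at hc
  exact (U.smul_mem_iff hc1).1 hc

/-- Step S1. `lam` is a linear map to a space `A` that is injective on the invariants. -/
theorem S1 {p : ℕ} [Fact p.Prime] {Q W A : Type*} [Group Q] [Finite Q] (hQ : IsPGroup p Q)
    [AddCommGroup W] [Module (ZMod p) W] [AddCommGroup A] [Module (ZMod p) A]
    [FiniteDimensional (ZMod p) A] (σ : Representation (ZMod p) Q W) (lam : W →ₗ[ZMod p] A)
    (hlam : ∀ w, (∀ g, σ g w = w) → lam w = 0 → w = 0)
    (U : Submodule (ZMod p) W) (hU : ∀ g, ∀ w ∈ U, σ g w ∈ U) (Q' : Subgroup Q)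
    (hd : Nat.card Q * finrank (ZMod p) A < finrank (ZMod p) U + Nat.card Q')
    {w : W} (hw : ∀ g ∈ Q', σ g w = w) : w ∈ U := by
  classical
  haveI := Fintype.ofFinite Q
  let ι : W →ₗ[ZMod p] (Q → A) := LinearMap.pi fun g => lam ∘ₗ σ g
  have hι : ∀ h v, ι (σ h v) = rt (k := ZMod p) h (ι v) := fun h v => by
    funext g; simp [ι]
  have hinj : Function.Injective ι := by
    rw [← LinearMap.ker_eq_bot, Submodule.eq_bot_iff]
    intro v hv
    by_contra h0
    obtain ⟨u, hu, hu0, huf⟩ := exists_fixed_mem hQ σ (LinearMap.ker ι) (fun g u hu => by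
      rw [LinearMap.mem_ker] at hu ⊢
      rw [hι, hu, map_zero]) hv h0
    refine hu0 (hlam u huf ?_)
    simpa [ι] using congrFun (LinearMap.mem_ker.1 hu) 1
  have h1 : ι w ∈ U.map ι := by
    refine mem_of_fixed_fun hQ Q' (U.map ι) ?_ ?_ (fun h hh => by rw [← hι, hw h hh])
    · rintro g - _ ⟨u, hu, rfl⟩
      exact ⟨σ g u, hU g u hu, hι g u⟩
    · rw [← (Submodule.equivMapOfInjective ι hinj U).finrank_eq, Module.finrank_pi_fintype]
      simpa [Nat.card_eq_fintype_card] using hd
  obtain ⟨u, hu, e⟩ := h1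
  exact hinj e ▸ hu

/-- Step S1 with a bound on the dimension of the invariants. -/
theorem S1' {p : ℕ} [Fact p.Prime] {Q W : Type*} [Group Q] [Finite Q] (hQ : IsPGroup p Q)
    [AddCommGroup W] [Module (ZMod p) W] (σ : Representation (ZMod p) Q W) (d : ℕ)
    [FiniteDimensional (ZMod p) σ.invariants] (hd0 : finrank (ZMod p) σ.invariants ≤ d)
    (U : Submodule (ZMod p) W) (hU : ∀ g, ∀ w ∈ U, σ g w ∈ U) (Q' : Subgroup Q)
    (hd : Nat.card Q * d < finrank (ZMod p) U + Nat.card Q')
    {w : W} (hw : ∀ g ∈ Q', σ g w = w) : w ∈ U := by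
  obtain ⟨lam, hlam⟩ := σ.invariants.subtype.exists_leftInverse_of_injective
    σ.invariants.ker_subtype
  refine S1 hQ σ lam (fun v hv h0 => ?_) U hU Q'
    (lt_of_le_of_lt (Nat.mul_le_mul_left _ hd0) hd) hw
  have := LinearMap.congr_fun hlam ⟨v, hv⟩
  simp only [LinearMap.comp_apply, Submodule.subtype_apply, h0, LinearMap.id_apply] at this
  exact (congrArg Subtype.val this).symm

end Pool.Agent.Lib.MP_54db3e_nt.H42
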