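import Pool.Agent.Lib.MP_54db3e_nt.H42S1

/-!
Step S2, first part: the socle series of a representation restricted to a subgroup `P`, the
linear forms by which `P` acts on its graded pieces, and words in the four basic operators.
-/

set_option autoImplicit false

namespace Pool.Agent.Lib.MP_54db3e_nt.H42

open Module

/-- Index set of matrix entries. -/
abbrev Ix : Type := Fin 2 × Fin 2

/-- A group `Γ` acting on an `F_5`-space `V`, a subgroup `P` whose elements act with order
dividing `5 ^ e`, and an additive surjection `M` from `P` to two by two matrices whose kernel acts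
by products of fifth powers. -/
structure Fil {Γ V : Type*} [Group Γ] [AddCommGroup V] [Module (ZMod 5) V]
    (ρ : Representation (ZMod 5) Γ V) (P : Subgroup Γ)
    (M : Γ → Matrix (Fin 2) (Fin 2) (ZMod 5)) (e : ℕ) : Prop where
  add : ∀ g ∈ P, ∀ h ∈ P, M (g * h) = M g + M h
  surj : ∀ A, ∃ g ∈ P, M g = A
  ker : ∀ g ∈ P, M g = 0 → ρ g ∈ Submonoid.closure {f | ∃ p ∈ P, f = ρ p ^ 5}
  pow : ∀ g ∈ P, ρ g ^ 5 ^ e = 1

variable {Γ V : Type*} [Group Γ] [AddCommGroup V] [Module (ZMod 5) V]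
  (ρ : Representation (ZMod 5) Γ V) (P : Subgroup Γ)

/-- The socle series. -/
def soc : ℕ → Submodule (ZMod 5) V
  | 0 => ⊥
  | n + 1 => ⨅ p : P, (soc n).comap (ρ p - 1)

variable {ρ P}

theorem mem_soc_succ {n : ℕ} {v : V} :
    v ∈ soc ρ P (n + 1) ↔ ∀ p ∈ P, (ρ p - 1) v ∈ soc ρ P n := by
  simp only [soc, Submodule.mem_iInf, Submodule.mem_comap, Subtype.forall]

theorem mem_soc_zero {v : V} : v ∈ soc ρ P 0 ↔ v = 0 := Submodule.mem_bot _

theorem mem_soc_one {v : V} : v ∈ soc ρ P 1 ↔ ∀ p ∈ P, ρ p v = v := by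
  simp [mem_soc_succ, mem_soc_zero, sub_eq_zero]

theorem soc_succ {n : ℕ} : ∀ {v : V}, v ∈ soc ρ P n → v ∈ soc ρ P (n + 1) := by
  induction n with
  | zero => intro v hv; rw [mem_soc_zero.1 hv]; exact Submodule.zero_mem _
  | succ n ih => exact fun hv => mem_soc_succ.2 fun p hp => ih (mem_soc_succ.1 hv p hp)

theorem soc_sub {n : ℕ} {v : V} (hv : v ∈ soc ρ P n) {p : Γ} (hp : p ∈ P) :
    (ρ p - 1) v ∈ soc ρ P n := mem_soc_succ.1 (soc_succ hv) p hp

theorem soc_act {n : ℕ} {v : V} (hv : v ∈ soc ρ P n) {p : Γ} (hp : p ∈ P) :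
    ρ p v ∈ soc ρ P n := by
  have := Submodule.add_mem _ (soc_sub hv hp) hv
  simpa using this

theorem sub_one_pow (f : V →ₗ[ZMod 5] V) (k : ℕ) : (f - 1) ^ 5 ^ k = f ^ 5 ^ k - 1 := by
  rcases subsingleton_or_nontrivial V with h | h
  · exact Subsingleton.elim _ _
  · haveI : Fact (Nat.Prime 5) := ⟨by norm_num⟩
    haveI : CharP (V →ₗ[ZMod 5] V) 5 :=
      charP_of_injective_algebraMap (algebraMap (ZMod 5) (Module.End (ZMod 5) V)).injective 5
    rw [sub_pow_char_pow_of_commute 5 k (Commute.one_right f), one_pow]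

variable {M : Γ → Matrix (Fin 2) (Fin 2) (ZMod 5)} {e : ℕ}

theorem Fil.exhaust [Module.Finite (ZMod 5) V] (F : Fil ρ P M e) (v : V) :
    ∃ n, v ∈ soc ρ P n := by
  haveI : Fact (Nat.Prime 5) := ⟨by norm_num⟩
  have hm : Monotone (soc ρ P) := monotone_nat_of_le_succ fun n v hv => soc_succ hv
  obtain ⟨n, hn⟩ := (monotone_stabilizes_iff_noetherian.2
    (inferInstance : IsNoetherian (ZMod 5) V)) ⟨soc ρ P, hm⟩
  refine ⟨n, ?_⟩
  by_contra hv
  haveI : Finite V := Module.finite_of_finite (ZMod 5)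
  haveI : Finite (V ⧸ soc ρ P n) := Finite.of_surjective _ (soc ρ P n).mkQ_surjective
  haveI : Nontrivial (V ⧸ soc ρ P n) :=
    ⟨⟨Submodule.Quotient.mk v, 0, fun h => hv ((Submodule.Quotient.mk_eq_zero _).1 h)⟩⟩
  have hst : ∀ g : P, soc ρ P n ≤ (soc ρ P n).comap ((ρ.comp P.subtype) g) :=
    fun g v hv => soc_act hv g.2
  obtain ⟨w, hw, hf⟩ := exists_fixed
    (Representation.quotient (ρ.comp P.subtype) (soc ρ P n) hst) (fun h => ⟨e, by
      rw [← map_pow]
      apply LinearMap.ext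
      intro w
      obtain ⟨w, rfl⟩ := (soc ρ P n).mkQ_surjective w
      simp [Representation.quotient, F.pow h h.2]⟩)
  obtain ⟨w, rfl⟩ := (soc ρ P n).mkQ_surjective w
  apply hw
  have h1 : w ∈ soc ρ P (n + 1) := mem_soc_succ.2 fun p hp => by
    have := hf ⟨p, hp⟩
    simp only [Representation.quotient, Submodule.mkQ_apply, MonoidHom.coe_mk, OneHom.coe_mk,
      Submodule.mapQ_apply] at this
    exact (Submodule.Quotient.eq _).1 this
  have h2 : soc ρ P n = soc ρ P (n + 1) := hn (n + 1) (Nat.le_succ n)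
  exact (Submodule.Quotient.mk_eq_zero _).2 (h2 ▸ h1)

theorem Fil.one (F : Fil ρ P M e) : M 1 = 0 := by
  have := F.add 1 P.one_mem 1 P.one_mem
  simpa using this

theorem Fil.inv (F : Fil ρ P M e) {g : Γ} (hg : g ∈ P) : M g⁻¹ = -M g := by
  have := F.add g hg g⁻¹ (P.inv_mem hg)
  rw [mul_inv_cancel, F.one] at this
  exact eq_neg_of_add_eq_zero_right this.symm

theorem Fil.npow (F : Fil ρ P M e) {g : Γ} (hg : g ∈ P) (k : ℕ) : M (g ^ k) = k • M g := by
  induction k with
  | zero => simpa using F.one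
  | succ k ih => rw [pow_succ, F.add _ (P.pow_mem hg k) _ hg, ih, succ_nsmul]

theorem Fil.ker3 (F : Fil ρ P M e) {g : Γ} (hg : g ∈ P) (h0 : M g = 0) {n : ℕ} {v : V}
    (hv : v ∈ soc ρ P (n + 3)) : (ρ g - 1) v ∈ soc ρ P n := by
  have key : ∀ f ∈ Submonoid.closure {f : V →ₗ[ZMod 5] V | ∃ p ∈ P, f = ρ p ^ 5},
      ∀ v ∈ soc ρ P (n + 3), (f - 1) v ∈ soc ρ P n := by
    intro f hf
    induction hf using Submonoid.closure_induction with
    | mem f hf =>
      obtain ⟨p, hp, rfl⟩ := hf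
      intro v hv
      have e5 := sub_one_pow (ρ p) 1
      rw [pow_one] at e5
      rw [← e5]
      have h3 := mem_soc_succ.1 (mem_soc_succ.1 (mem_soc_succ.1 hv p hp) p hp) p hp
      simpa only [pow_succ, pow_zero, one_mul, Module.End.mul_apply] using
        soc_sub (soc_sub h3 hp) hp
    | one => intro v _; simp
    | mul f f' _ _ h h' =>
      intro v hv
      have h1 := h' v hv
      have h2 : f' v ∈ soc ρ P (n + 3) := by
        have := Submodule.add_mem _ (soc_succ (soc_succ (soc_succ h1))) hv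
        simpa using this
      have := Submodule.add_mem _ (h _ h2) h1
      simpa using this
  exact key _ (F.ker g hg h0) v hv

theorem Fil.ker2 (F : Fil ρ P M e) {g : Γ} (hg : g ∈ P) (h0 : M g = 0) {n : ℕ} {v : V}
    (hv : v ∈ soc ρ P (n + 2)) : (ρ g - 1) v ∈ soc ρ P n := F.ker3 hg h0 (soc_succ hv)

theorem soc_mul {g h : Γ} (hg : g ∈ P) (hh : h ∈ P) {n : ℕ} {v : V}
    (hv : v ∈ soc ρ P (n + 2)) :
    (ρ (g * h) - 1) v - ((ρ g - 1) v + (ρ h - 1) v) ∈ soc ρ P n := by
  have := mem_soc_succ.1 (mem_soc_succ.1 hv h hh) g hg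
  convert this using 1
  simp only [map_mul, LinearMap.sub_apply, Module.End.mul_apply, Module.End.one_apply, map_sub]
  abel

/-- Chosen elements of `P` over the elementary matrices. -/
noncomputable def Fil.gen (F : Fil ρ P M e) (i : Ix) : Γ :=
  (F.surj (Matrix.single i.1 i.2 1)).choose

theorem Fil.gen_mem (F : Fil ρ P M e) (i : Ix) : F.gen i ∈ P :=
  (F.surj (Matrix.single i.1 i.2 1)).choose_spec.1

theorem Fil.gen_M (F : Fil ρ P M e) (i : Ix) : M (F.gen i) = Matrix.single i.1 i.2 1 :=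
  (F.surj (Matrix.single i.1 i.2 1)).choose_spec.2

/-- The basic operators. -/
noncomputable def Fil.b (F : Fil ρ P M e) (i : Ix) : V →ₗ[ZMod 5] V := ρ (F.gen i) - 1

/-- The linear form of a matrix in the basic operators. -/
noncomputable def Fil.lin (F : Fil ρ P M e) (A : Matrix (Fin 2) (Fin 2) (ZMod 5)) :
    V →ₗ[ZMod 5] V := ∑ i : Ix, A i.1 i.2 • F.b i

theorem Fil.b_mem (F : Fil ρ P M e) (i : Ix) {n : ℕ} {v : V} (hv : v ∈ soc ρ P (n + 1)) :
    F.b i v ∈ soc ρ P n := mem_soc_succ.1 hv _ (F.gen_mem i)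

theorem Fil.lin_apply (F : Fil ρ P M e) (A : Matrix (Fin 2) (Fin 2) (ZMod 5)) (v : V) :
    F.lin A v = ∑ i : Ix, A i.1 i.2 • F.b i v := by
  simp [Fil.lin, LinearMap.sum_apply]

theorem Fil.lin_mem (F : Fil ρ P M e) (A : Matrix (Fin 2) (Fin 2) (ZMod 5)) {n : ℕ} {v : V}
    (hv : v ∈ soc ρ P (n + 1)) : F.lin A v ∈ soc ρ P n := by
  rw [F.lin_apply]
  exact Submodule.sum_mem _ fun i _ => Submodule.smul_mem _ _ (F.b_mem i hv)

theorem Fil.lin_add (F : Fil ρ P M e) (A B : Matrix (Fin 2) (Fin 2) (ZMod 5)) (v : V) :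
    F.lin (A + B) v = F.lin A v + F.lin B v := by
  simp only [F.lin_apply, Matrix.add_apply, add_smul, Finset.sum_add_distrib]

theorem Fil.lin_smul (F : Fil ρ P M e) (c : ZMod 5) (A : Matrix (Fin 2) (Fin 2) (ZMod 5))
    (v : V) : F.lin (c • A) v = c • F.lin A v := by
  simp only [F.lin_apply, Matrix.smul_apply, smul_eq_mul, mul_smul, Finset.smul_sum]

theorem Fil.lin_single (F : Fil ρ P M e) (i : Ix) (v : V) :
    F.lin (Matrix.single i.1 i.2 1) v = F.b i v := by
  rw [F.lin_apply, Finset.sum_eq_single i]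
  · simp
  · intro j _ hj
    rw [Matrix.single_apply_of_ne, zero_smul]
    rintro ⟨h1, h2⟩
    exact hj (Prod.ext h1.symm h2.symm)
  · simp

/-- An element of `P` acts on the graded pieces by its linear form. -/
theorem Fil.act (F : Fil ρ P M e) {g : Γ} (hg : g ∈ P) {n : ℕ} {v : V}
    (hv : v ∈ soc ρ P (n + 2)) : (ρ g - 1) v - F.lin (M g) v ∈ soc ρ P n := by
  let Good : Γ → Prop := fun g => g ∈ P ∧ (ρ g - 1) v - F.lin (M g) v ∈ soc ρ P n
  have hmul : ∀ g h, Good g → Good h → Good (g * h) := by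
    rintro g h ⟨hg, h1⟩ ⟨hh, h2⟩
    refine ⟨P.mul_mem hg hh, ?_⟩
    have := Submodule.add_mem _ (soc_mul hg hh hv) (Submodule.add_mem _ h1 h2)
    convert this using 1
    rw [F.add g hg h hh, F.lin_add]
    abel
  have hker : ∀ g ∈ P, M g = 0 → Good g := fun g hg h0 => ⟨hg, by
    rw [h0, F.lin_apply]
    simpa using F.ker2 hg h0 hv⟩
  have hpow : ∀ g, Good g → ∀ k : ℕ, Good (g ^ k) := by
    intro g hg k
    induction k with
    | zero => rw [pow_zero]; exact hker 1 P.one_mem F.one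
    | succ k ih => rw [pow_succ]; exact hmul _ _ ih hg
  have hgen : ∀ i, Good (F.gen i) := fun i => ⟨F.gen_mem i, by
    rw [F.gen_M, F.lin_single]
    simp [Fil.b]⟩
  let u : Ix → Γ := fun i => F.gen i ^ (M g i.1 i.2).val
  have hu : ∀ i, Good (u i) := fun i => hpow _ (hgen i) _
  have huM : ∀ i, M (u i) = Matrix.single i.1 i.2 (M g i.1 i.2) := fun i => by
    simp only [u]
    rw [F.npow (F.gen_mem i), F.gen_M, ← Nat.cast_smul_eq_nsmul (ZMod 5), ZMod.natCast_zmod_val,
      Matrix.smul_single, smul_eq_mul, mul_one]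
  let g0 := u (0, 0) * u (0, 1) * u (1, 0) * u (1, 1)
  have h0 : Good g0 := hmul _ _ (hmul _ _ (hmul _ _ (hu _) (hu _)) (hu _)) (hu _)
  have hM0 : M g0 = M g := by
    simp only [g0]
    rw [F.add _ (hmul _ _ (hmul _ _ (hu _) (hu _)) (hu _)).1 _ (hu _).1,
      F.add _ (hmul _ _ (hu _) (hu _)).1 _ (hu _).1, F.add _ (hu _).1 _ (hu _).1,
      huM, huM, huM, huM]
    ext i j
    fin_cases i <;> fin_cases j <;> simp [Matrix.single]
  have h1 : Good (g * g0⁻¹) := hker _ (P.mul_mem hg (P.inv_mem h0.1)) (by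
    rw [F.add _ hg _ (P.inv_mem h0.1), F.inv h0.1, hM0, add_neg_cancel])
  have := (hmul _ _ h1 h0).2
  rwa [inv_mul_cancel_right] at this

theorem Fil.act2 (F : Fil ρ P M e) {g : Γ} (hg : g ∈ P) {v : V} (hv : v ∈ soc ρ P 2) :
    ρ g v = v + F.lin (M g) v := by
  have := mem_soc_zero.1 (F.act hg (n := 0) hv)
  simp only [LinearMap.sub_apply, Module.End.one_apply] at this
  rw [sub_eq_zero] at this
  rw [← this]; abel

theorem Fil.comm (F : Fil ρ P M e) (i j : Ix) {n : ℕ} {v : V} (hv : v ∈ soc ρ P (n + 3)) :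
    F.b i (F.b j v) - F.b j (F.b i v) ∈ soc ρ P n := by
  have hi := F.gen_mem i
  have hj := F.gen_mem j
  have hc : F.gen i * F.gen j * (F.gen j * F.gen i)⁻¹ ∈ P :=
    P.mul_mem (P.mul_mem hi hj) (P.inv_mem (P.mul_mem hj hi))
  have := F.ker3 hc (by
    rw [F.add _ (P.mul_mem hi hj) _ (P.inv_mem (P.mul_mem hj hi)), F.inv (P.mul_mem hj hi),
      F.add _ hi _ hj, F.add _ hj _ hi]
    abel) (soc_act hv (P.mul_mem hj hi))
  convert this using 1
  rw [LinearMap.sub_apply, ← Module.End.mul_apply (ρ _) (ρ _), ← map_mul, inv_mul_cancel_right]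
  simp only [Fil.b, map_mul, LinearMap.sub_apply, Module.End.mul_apply, Module.End.one_apply,
    map_sub]
  abel

/-- A word in the basic operators. -/
noncomputable def Fil.word (F : Fil ρ P M e) : List Ix → V → V
  | [], v => v
  | i :: l, v => F.b i (F.word l v)

theorem Fil.word_append (F : Fil ρ P M e) (l l' : List Ix) (v : V) :
    F.word (l ++ l') v = F.word l (F.word l' v) := by
  induction l with
  | nil => rfl
  | cons i l ih => simp only [List.cons_append, Fil.word, ih]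

theorem Fil.word_mem (F : Fil ρ P M e) (l : List Ix) :
    ∀ {n : ℕ} {v : V}, v ∈ soc ρ P (n + l.length) → F.word l v ∈ soc ρ P n := by
  induction l with
  | nil => exact fun hv => hv
  | cons i l ih =>
    intro n v hv
    refine F.b_mem i (ih ?_)
    rwa [List.length_cons, ← add_assoc, add_right_comm] at hv

theorem Fil.word_perm (F : Fil ρ P M e) {l l' : List Ix} (h : l.Perm l') :
    ∀ {n : ℕ} {v : V}, v ∈ soc ρ P (n + 1 + l.length) →
      F.word l v - F.word l' v ∈ soc ρ P n := by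
  induction h with
  | nil => intro n v _; simp [Fil.word]
  | cons i _ ih =>
    intro n v hv
    simp only [Fil.word, ← map_sub]
    refine F.b_mem i (ih ?_)
    rwa [List.length_cons, ← add_assoc, add_right_comm] at hv
  | swap i j l =>
    intro n v hv
    refine F.comm j i (F.word_mem l ?_)
    rwa [List.length_cons, List.length_cons,
      show n + 1 + (l.length + 1 + 1) = n + 3 + l.length by ring] at hv
  | trans h1 _ ih1 ih2 =>
    intro n v hv
    have := Submodule.add_mem _ (ih1 hv) (ih2 (h1.length_eq ▸ hv))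
    simpa using this

theorem Fil.word_eq (F : Fil ρ P M e) {l l' : List Ix} (h : l.Perm l') {v : V}
    (hv : v ∈ soc ρ P (1 + l.length)) : F.word l v = F.word l' v :=
  sub_eq_zero.1 (mem_soc_zero.1 (F.word_perm h (n := 0) (by simpa using hv)))

theorem Fil.word_replicate (F : Fil ρ P M e) (i : Ix) (k : ℕ) (v : V) :
    F.word (List.replicate k i) v = (F.b i ^ k) v := by
  induction k with
  | zero => rfl
  | succ k ih => rw [List.replicate_succ, Fil.word, ih, pow_succ', Module.End.mul_apply]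

theorem Fil.b_pow (F : Fil ρ P M e) (i : Ix) : F.b i ^ 5 ^ e = 0 := by
  rw [Fil.b, sub_one_pow, F.pow _ (F.gen_mem i), sub_self]

theorem Fil.drop (F : Fil ρ P M e) (k : ℕ) : ∀ {v : V}, v ∈ soc ρ P (k + 1) →
    (∀ l : List Ix, l.length = k → F.word l v = 0) → v ∈ soc ρ P k := by
  induction k with
  | zero => intro v _ h; exact mem_soc_zero.2 (h [] rfl)
  | succ k ih =>
    intro v hv h
    have hb : ∀ i, F.b i v ∈ soc ρ P k := fun i => ih (F.b_mem i hv) fun l hl => by
      have := h (l ++ [i]) (by simp [hl])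
      rwa [F.word_append] at this
    refine mem_soc_succ.2 fun p hp => ?_
    have h1 : F.lin (M p) v ∈ soc ρ P k := by
      rw [F.lin_apply]
      exact Submodule.sum_mem _ fun i _ => Submodule.smul_mem _ _ (hb i)
    have := Submodule.add_mem _ (F.act hp hv) h1
    rwa [sub_add_cancel] at this

end Pool.Agent.Lib.MP_54db3e_nt.H42
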