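import Pool.Agent.Lib.MP_54db3e_nt.H42S2a

/-!
Step S2, second part: the dimension count from one quadratic relation per functional, the Fox
relation of a tame pair, and the final bound.
-/

set_option autoImplicit false

namespace Pool.Agent.Lib.MP_54db3e_nt.H42

open Module

variable {Γ V : Type*} [Group Γ] [AddCommGroup V] [Module (ZMod 5) V]
  {ρ : Representation (ZMod 5) Γ V} {P : Subgroup Γ}
  {M : Γ → Matrix (Fin 2) (Fin 2) (ZMod 5)} {e : ℕ}

/-- Off-diagonal positions. -/
def off (u : Fin 2) : Ix := (u, u + 1)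

/-- Diagonal positions. -/
def dg (w : Fin 2) : Ix := (w, w)

/-- The functional `y` satisfies a nonzero relation of bidegree `(1,1)`. -/
def Fil.Rel (F : Fil ρ P M e) (y : V →ₗ[ZMod 5] ZMod 5) : Prop :=
  ∃ g : Fin 2 → Fin 2 → ZMod 5, (∃ u w, g u w ≠ 0) ∧
    ∀ v ∈ soc ρ P 3, ∑ u, ∑ w, g u w * y (F.b (off u) (F.b (dg w) v)) = 0

/-- The ordered word with given exponents. -/
def canon (α : Ix → ℕ) : List Ix :=
  List.replicate (α (0, 0)) (0, 0) ++ List.replicate (α (0, 1)) (0, 1) ++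
    List.replicate (α (1, 0)) (1, 0) ++ List.replicate (α (1, 1)) (1, 1)

theorem perm_canon (l : List Ix) : l.Perm (canon fun i => l.count i) := by
  rw [List.perm_iff_count]
  rintro ⟨i, j⟩
  fin_cases i <;> fin_cases j <;> simp [canon, List.count_replicate]

theorem Fil.vanish (F : Fil ρ P M e) (y : V →ₗ[ZMod 5] ZMod 5) (g : Fin 2 → Fin 2 → ZMod 5)
    {u w : Fin 2} (hg : g u w ≠ 0)
    (hrel : ∀ v ∈ soc ρ P 3, ∑ u, ∑ w, g u w * y (F.b (off u) (F.b (dg w) v)) = 0)
    {k : ℕ} {v : V} (hv : v ∈ soc ρ P (k + 1))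
    (hstd : ∀ α : Ix → ℕ, (∀ i, α i < 5 ^ e) → (α (off u) = 0 ∨ α (dg w) = 0) →
      y (F.word (canon α) v) = 0) :
    ∀ (m : ℕ) (l : List Ix), l.count (off u) + l.count (dg w) = m → l.length = k →
      y (F.word l v) = 0 := by
  haveI : Fact (Nat.Prime 5) := ⟨by norm_num⟩
  intro m
  induction m using Nat.strong_induction_on with
  | _ m ih =>
  intro l hm hl
  have hv' : v ∈ soc ρ P (1 + l.length) := by rwa [hl, add_comm]
  by_cases h1 : ∃ i, 5 ^ e ≤ l.count i
  · obtain ⟨i, hi⟩ := h1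
    obtain ⟨l', hl'⟩ := (List.replicate_sublist_iff.2 hi).exists_perm_append
    rw [F.word_eq hl' hv', F.word_append, F.word_replicate, F.b_pow]
    simp
  push Not at h1
  by_cases h2 : l.count (off u) = 0 ∨ l.count (dg w) = 0
  · rw [F.word_eq (perm_canon l) hv']
    exact hstd _ h1 h2
  push Not at h2
  have hne : ∀ a b, off a ≠ dg b := by decide
  have hu : off u ∈ l := List.count_pos_iff.1 (Nat.pos_of_ne_zero h2.1)
  have hw : dg w ∈ l.erase (off u) :=
    (List.mem_erase_of_ne (hne u w).symm).2 (List.count_pos_iff.1 (Nat.pos_of_ne_zero h2.2))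
  set l' := (l.erase (off u)).erase (dg w) with hl'
  have hp : l.Perm (off u :: dg w :: l') :=
    (List.perm_cons_erase hu).trans ((List.perm_cons_erase hw).cons _)
  have hlen : l'.length + 2 = k := by
    have := hp.length_eq
    simp only [List.length_cons] at this
    omega
  have hcnt : l'.count (off u) + l'.count (dg w) + 2 = m := by
    have c1 := hp.count_eq (off u)
    have c2 := hp.count_eq (dg w)
    rw [List.count_cons_self, List.count_cons_of_ne (hne u w).symm] at c1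
    rw [List.count_cons_of_ne (hne u w), List.count_cons_self] at c2
    omega
  have h3 : F.word l' v ∈ soc ρ P 3 := F.word_mem l' (by
    rwa [show 3 + l'.length = k + 1 by omega])
  have hoth : ∀ u' w', (u' ≠ u ∨ w' ≠ w) → y (F.b (off u') (F.b (dg w') (F.word l' v))) = 0 := by
    intro u' w' h
    refine ih _ ?_ (off u' :: dg w' :: l') rfl (by simp only [List.length_cons]; omega)
    have ho : ∀ a b, off a = off b ↔ a = b := by decide
    have hd : ∀ a b, dg a = dg b ↔ a = b := by decide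
    simp only [List.count_cons, beq_iff_eq, ho, hd, hne, (hne _ _).symm, if_false]
    rcases h with h | h
    · rw [if_neg h]; split_ifs <;> omega
    · rw [if_neg h]; split_ifs <;> omega
  have := hrel _ h3
  rw [Finset.sum_eq_single u, Finset.sum_eq_single w] at this
  · rw [F.word_eq hp hv']
    exact (mul_eq_zero.1 this).resolve_left hg
  · intro w' _ h; rw [hoth u w' (Or.inr h), mul_zero]
  · simp
  · intro u' _ h
    exact Finset.sum_eq_zero fun w' _ => by rw [hoth u' w' (Or.inl h), mul_zero]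
  · simp

theorem Fil.word_lin (F : Fil ρ P M e) (l : List Ix) (v : V) :
    (l.map F.b).prod v = F.word l v := by
  induction l with
  | nil => rfl
  | cons i l ih => rw [List.map_cons, List.prod_cons, Module.End.mul_apply, ih, Fil.word]

theorem card_zero_at (q : ℕ) (hq : 0 < q) (i : Ix) :
    (Finset.univ.filter fun α : Ix → Fin q => (α i : ℕ) = 0).card = q ^ 3 := by
  classical
  have : (Finset.univ.filter fun α : Ix → Fin q => (α i : ℕ) = 0) =
      Fintype.piFinset (Function.update (fun _ => Finset.univ) i {⟨0, hq⟩}) := by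
    ext α
    simp only [Finset.mem_filter, Finset.mem_univ, true_and, Fintype.mem_piFinset]
    constructor
    · intro h j
      by_cases hj : j = i
      · subst hj; simp [Fin.ext_iff, h]
      · simp [Function.update_of_ne hj]
    · intro h
      simpa [Fin.ext_iff] using h i
  rw [this, Fintype.card_piFinset]
  obtain ⟨a, b⟩ := i
  fin_cases a <;> fin_cases b <;>
    simp [Fintype.prod_prod_type, Fin.prod_univ_two, Function.update] <;> ring

/-- The dimension count. -/
theorem Fil.count [Module.Finite (ZMod 5) V] (F : Fil ρ P M e) {S : Type*} [Fintype S]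
    (y : S → V →ₗ[ZMod 5] ZMod 5)
    (hy : ∀ v, (∀ p ∈ P, ρ p v = v) → (∀ s, y s v = 0) → v = 0) (hrel : ∀ s, F.Rel (y s)) :
    finrank (ZMod 5) V ≤ Fintype.card S * (2 * (5 ^ e) ^ 3) := by
  classical
  haveI : Fact (Nat.Prime 5) := ⟨by norm_num⟩
  choose g hg hrel using hrel
  choose u w hg using hg
  let T : S → Finset (Ix → Fin (5 ^ e)) := fun s =>
    (Finset.univ.filter fun α => (α (off (u s)) : ℕ) = 0) ∪
      (Finset.univ.filter fun α => (α (dg (w s)) : ℕ) = 0)
  have hT : ∀ s, (T s).card ≤ 2 * (5 ^ e) ^ 3 := fun s => by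
    refine (Finset.card_union_le _ _).trans ?_
    rw [card_zero_at _ (by positivity), card_zero_at _ (by positivity), two_mul]
  let ev : V →ₗ[ZMod 5] ((Σ s, T s) → ZMod 5) :=
    LinearMap.pi fun t => y t.1 ∘ₗ ((canon fun i => (t.2.1 i : ℕ)).map F.b).prod
  have hinj : Function.Injective ev := by
    rw [← LinearMap.ker_eq_bot, Submodule.eq_bot_iff]
    intro v hv
    have key : ∀ k, v ∈ soc ρ P k → v = 0 := by
      intro k
      induction k with
      | zero => exact mem_soc_zero.1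
      | succ k ih =>
        intro hk
        refine ih (F.drop k hk fun l hl => hy _ (mem_soc_one.1 (F.word_mem l ?_)) fun s => ?_)
        · rwa [hl, add_comm]
        · refine F.vanish (y s) (g s) (hg s) (hrel s) hk (fun α h1 h2 => ?_) _ l rfl hl
          have := congrFun (LinearMap.mem_ker.1 hv) ⟨s, fun i => ⟨α i, h1 i⟩, by
            simpa [T] using h2⟩
          simpa [ev, F.word_lin] using this
    obtain ⟨k, hk⟩ := F.exhaust v
    exact key k hk
  refine (LinearMap.finrank_le_finrank_of_injective hinj).trans ?_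
  rw [Module.finrank_fintype_fun_eq_card, Fintype.card_sigma]
  simp only [Fintype.card_coe]
  exact (Finset.sum_le_card_nsmul _ _ _ fun s _ => hT s).trans (by simp)

/-- The Fox relation of `φ τ = τ ^ Q φ` in the first graded piece. -/
theorem Fil.fox [P.Normal] (F : Fil ρ P M e) (x : Γ → Γ → V →ₗ[ZMod 5] ZMod 5)
    (hxa : ∀ g a, ∀ p ∈ P, ∀ v, x g (a * p) v = x g a (ρ p v))
    (hxc : ∀ g g' a v, x (g * g') a v = x g (g' * a) v + x g' a v)
    {τ φ : Γ} (hτ : τ ∈ P) (hφ : φ ∈ P) {Q : ℕ} (hQ : (Q : ZMod 5) = 1)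
    (hrel : ∀ a v, x (φ * τ) a v = x (τ ^ Q * φ) a v) (a : Γ) {u : V} (hu : u ∈ soc ρ P 2) :
    x φ a (F.lin (M (a⁻¹ * τ * a)) u) = x τ a (F.lin (M (a⁻¹ * φ * a)) u) := by
  have hτ' : a⁻¹ * τ * a ∈ P := Subgroup.Normal.conj_mem' inferInstance τ hτ a
  have hφ' : a⁻¹ * φ * a ∈ P := Subgroup.Normal.conj_mem' inferInstance φ hφ a
  have h1 : ∀ b, x 1 b u = 0 := fun b => by
    have := hxc 1 1 b u
    simpa using this
  have hk : ∀ k : ℕ, 2 * x (τ ^ k) (φ * a) u = 2 * k * x τ a u +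
      k * (k - 1) * x τ a (F.lin (M (a⁻¹ * τ * a)) u) +
      2 * k * x τ a (F.lin (M (a⁻¹ * φ * a)) u) := by
    intro k
    induction k with
    | zero => simp [h1]
    | succ k ih =>
      have hp : (a⁻¹ * τ * a) ^ k * (a⁻¹ * φ * a) ∈ P := P.mul_mem (P.pow_mem hτ' k) hφ'
      have e1 : τ ^ k * (φ * a) = a * ((a⁻¹ * τ * a) ^ k * (a⁻¹ * φ * a)) := by
        have : (a⁻¹ * τ * a) ^ k = a⁻¹ * τ ^ k * a := by
          simpa using conj_pow (a := a⁻¹) (b := τ) (i := k)
        rw [this]; group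
      rw [pow_succ', hxc, e1, hxa _ _ _ hp, F.act2 hp hu, F.add _ (P.pow_mem hτ' k) _ hφ',
        F.npow hτ', F.lin_add, ← Nat.cast_smul_eq_nsmul (ZMod 5), F.lin_smul, mul_add, ih]
      simp only [map_add, map_smul, smul_eq_mul]
      push_cast
      ring
  have h2 := hk Q
  have h3 := hrel a u
  rw [hxc, hxc, show τ * a = a * (a⁻¹ * τ * a) by group, hxa _ _ _ hτ', F.act2 hτ' hu,
    map_add] at h3
  rw [hQ] at h2
  have h5 : (5 : ZMod 5) = 0 := rfl
  linear_combination h3 + 3 * h2 - (x (τ ^ Q) (φ * a) u - x τ a u -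
    x τ a (F.lin (M (a⁻¹ * φ * a)) u)) * h5

/-- Diagonal part. -/
def dpart (A : Matrix (Fin 2) (Fin 2) (ZMod 5)) : Matrix (Fin 2) (Fin 2) (ZMod 5) :=
  Matrix.of fun i j => if i = j then A i j else 0

/-- Off-diagonal part. -/
def opart (A : Matrix (Fin 2) (Fin 2) (ZMod 5)) : Matrix (Fin 2) (Fin 2) (ZMod 5) :=
  Matrix.of fun i j => if i = j then 0 else A i j

theorem Fil.lin_d (F : Fil ρ P M e) (A : Matrix (Fin 2) (Fin 2) (ZMod 5)) (v : V) :
    F.lin (dpart A) v = A 0 0 • F.b (dg 0) v + A 1 1 • F.b (dg 1) v := by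
  simp [F.lin_apply, Fintype.sum_prod_type, Fin.sum_univ_two, dpart, dg]

theorem Fil.lin_o (F : Fil ρ P M e) (A : Matrix (Fin 2) (Fin 2) (ZMod 5)) (v : V) :
    F.lin (opart A) v = A 0 1 • F.b (off 0) v + A 1 0 • F.b (off 1) v := by
  simp [F.lin_apply, Fintype.sum_prod_type, Fin.sum_univ_two, opart, off]

theorem Fil.lin_comm (F : Fil ρ P M e) (A B : Matrix (Fin 2) (Fin 2) (ZMod 5)) {v : V}
    (hv : v ∈ soc ρ P 3) : F.lin A (F.lin B v) = F.lin B (F.lin A v) := by
  have h : ∀ i j, F.b i (F.b j v) = F.b j (F.b i v) := fun i j =>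
    sub_eq_zero.1 (mem_soc_zero.1 (F.comm i j (n := 0) hv))
  simp only [F.lin_apply, map_sum, map_smul, Finset.smul_sum]
  rw [Finset.sum_comm]
  refine Finset.sum_congr rfl fun i _ => Finset.sum_congr rfl fun j _ => ?_
  rw [h, smul_comm]

/-- From the two halves of the Fox relation to the quadratic relations. -/
theorem Fil.rel_of_split (F : Fil ρ P M e) (yτ yφ : V →ₗ[ZMod 5] ZMod 5)
    (N A : Matrix (Fin 2) (Fin 2) (ZMod 5)) (c : ZMod 5) (hc : c ≠ 0)
    (hcomm : A * N - N * A = c • N) (htr : A.trace ≠ 0)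
    (hd : ∀ u ∈ soc ρ P 2, yφ (F.lin (dpart N) u) = yτ (F.lin (dpart A) u))
    (ho : ∀ u ∈ soc ρ P 2, yφ (F.lin (opart N) u) = yτ (F.lin (opart A) u)) :
    F.Rel yτ ∧ (N ≠ 0 → F.Rel yφ) := by
  haveI : Fact (Nat.Prime 5) := ⟨by norm_num⟩
  let g : Fin 2 → Fin 2 → ZMod 5 := fun u w => N u (u + 1) * A w w - A u (u + 1) * N w w
  have hexp : ∀ (y : V →ₗ[ZMod 5] ZMod 5) (v : V),
      ∑ u, ∑ w, g u w * y (F.b (off u) (F.b (dg w) v)) =
        y (F.lin (opart N) (F.lin (dpart A) v)) - y (F.lin (opart A) (F.lin (dpart N) v)) := by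
    intro y v
    simp only [F.lin_o, F.lin_d, map_add, map_smul, smul_eq_mul, Fin.sum_univ_two, g,
      show (0 : Fin 2) + 1 = 1 from rfl, show (1 : Fin 2) + 1 = 0 from rfl]
    ring
  have hg : N ≠ 0 → ∃ u w, g u w ≠ 0 := by
    intro hN
    by_contra h
    push Not at h
    have h00 := h 0 0
    have h01 := h 0 1
    have h10 := h 1 0
    have h11 := h 1 1
    simp only [g, show (0 : Fin 2) + 1 = 1 from rfl, show (1 : Fin 2) + 1 = 0 from rfl]
      at h00 h01 h10 h11
    have c00 := congrFun (congrFun hcomm 0) 0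
    have c01 := congrFun (congrFun hcomm 0) 1
    have c10 := congrFun (congrFun hcomm 1) 0
    have c11 := congrFun (congrFun hcomm 1) 1
    simp only [Matrix.sub_apply, Matrix.mul_apply, Fin.sum_univ_two, Matrix.smul_apply,
      smul_eq_mul] at c00 c01 c10 c11
    have n01 : N 0 1 = 0 := (mul_eq_zero.1 (by linear_combination h00 - h01 - c01 :
      c * N 0 1 = 0)).resolve_left hc
    have n10 : N 1 0 = 0 := (mul_eq_zero.1 (by linear_combination h11 - h10 - c10 :
      c * N 1 0 = 0)).resolve_left hc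
    rw [n01, n10] at c00 c11
    have n00 : N 0 0 = 0 := (mul_eq_zero.1 (by linear_combination -c00 :
      c * N 0 0 = 0)).resolve_left hc
    have n11 : N 1 1 = 0 := (mul_eq_zero.1 (by linear_combination -c11 :
      c * N 1 1 = 0)).resolve_left hc
    apply hN
    ext i j
    fin_cases i <;> fin_cases j <;> simp [n00, n01, n10, n11]
  refine ⟨?_, fun hN => ⟨g, hg hN, fun v hv => ?_⟩⟩
  · by_cases hN : N = 0
    · refine ⟨fun u w => if u = 0 then A w w else 0, ?_, fun v hv => ?_⟩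
      · by_contra h
        push Not at h
        have h0 := h 0 0
        have h1 := h 0 1
        simp only [if_true] at h0 h1
        exact htr (by simp [Matrix.trace, Fin.sum_univ_two, h0, h1])
      · have h1 := hd _ (F.b_mem (off 0) hv)
        have h2 : ∀ w, F.b (off 0) (F.b (dg w) v) = F.b (dg w) (F.b (off 0) v) := fun w =>
          sub_eq_zero.1 (mem_soc_zero.1 (F.comm _ _ (n := 0) hv))
        rw [hN, F.lin_d, F.lin_d] at h1
        simp only [Matrix.zero_apply, zero_smul, add_zero, map_zero, map_add, map_smul,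
          smul_eq_mul] at h1
        simp only [Fin.sum_univ_two, if_true, h2, show ¬ ((1 : Fin 2) = 0) by decide, if_false,
          zero_mul, add_zero]
        exact h1.symm
    · refine ⟨g, hg hN, fun v hv => ?_⟩
      rw [hexp, F.lin_comm (opart N) (dpart A) hv, ← hd _ (F.lin_mem _ hv),
        ← ho _ (F.lin_mem _ hv), F.lin_comm (opart N) (dpart N) hv, sub_self]
  · rw [hexp, ho _ (F.lin_mem _ hv), F.lin_comm (opart A) (dpart N) hv, hd _ (F.lin_mem _ hv),
      F.lin_comm (opart A) (dpart A) hv, sub_self]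

/-- Step S2. `x g a v` is the value at `(g, a)` of the cocycle `v`; `ι` indexes the tame data,
`A0` the chosen translates. -/
theorem S2 [Module.Finite (ZMod 5) V] [P.Normal] (F : Fil ρ P M e)
    (x : Γ → Γ → V →ₗ[ZMod 5] ZMod 5)
    (hxa : ∀ g a, ∀ p ∈ P, ∀ v, x g (a * p) v = x g a (ρ p v))
    (hxc : ∀ g g' a v, x (g * g') a v = x g (g' * a) v + x g' a v)
    (hconj : ∀ a, ∃ A B : Matrix (Fin 2) (Fin 2) (ZMod 5), A * B = 1 ∧
      ∀ g ∈ P, M (a⁻¹ * g * a) = B * M g * A)
    (a1 : Γ) (hflip : ∀ g ∈ P, ∀ i j, M (a1⁻¹ * g * a1) i j = if i = j then M g i j else -M g i j)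
    (hodd : ∀ v, (∀ p ∈ P, ρ p v = v) → ∀ g a, x g (a * a1) v = -x g a v)
    {ι : Type*} [Fintype ι] (τ φ : ι → Γ) (Q : ι → ℕ) (c : ι → ZMod 5)
    (hτ : ∀ i, τ i ∈ P) (hφ : ∀ i, φ i ∈ P) (hQ : ∀ i, (Q i : ZMod 5) = 1)
    (hrel : ∀ i a v, x (φ i * τ i) a v = x (τ i ^ Q i * φ i) a v)
    (hc : ∀ i, c i ≠ 0) (hcomm : ∀ i, M (φ i) * M (τ i) - M (τ i) * M (φ i) = c i • M (τ i))
    (htr : ∀ i, (M (φ i)).trace ≠ 0) (i0 : ι) (hN : M (τ i0) ≠ 0) (A0 : Finset Γ)
    (hdet : ∀ v, (∀ p ∈ P, ρ p v = v) → (∀ i, ∀ a ∈ A0, x (τ i) a v = 0) →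
      (∀ a ∈ A0, x (φ i0) a v = 0) → v = 0) :
    finrank (ZMod 5) V ≤ (Fintype.card ι + 1) * A0.card * (2 * (5 ^ e) ^ 3) := by
  have main : ∀ i a, F.Rel (x (τ i) a) ∧ (M (τ i) ≠ 0 → F.Rel (x (φ i) a)) := by
    intro i a
    obtain ⟨A, B, hAB, hM⟩ := hconj a
    have hτ' : a⁻¹ * τ i * a ∈ P := Subgroup.Normal.conj_mem' inferInstance _ (hτ i) a
    have hφ' : a⁻¹ * φ i * a ∈ P := Subgroup.Normal.conj_mem' inferInstance _ (hφ i) a
    have hs : ∀ g ∈ P, M g = dpart (M g) + opart (M g) ∧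
        M (a1⁻¹ * g * a1) = dpart (M g) + (-1 : ZMod 5) • opart (M g) := fun g hg => by
      constructor
      · ext i j; by_cases h : i = j <;> simp [dpart, opart, h]
      · ext i j; by_cases h : i = j <;> simp [dpart, opart, h, hflip g hg]
    have two : ∀ u ∈ soc ρ P 2,
        x (φ i) a (F.lin (dpart (M (a⁻¹ * τ i * a))) u) =
          x (τ i) a (F.lin (dpart (M (a⁻¹ * φ i * a))) u) ∧
        x (φ i) a (F.lin (opart (M (a⁻¹ * τ i * a))) u) =
          x (τ i) a (F.lin (opart (M (a⁻¹ * φ i * a))) u) := by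
      intro u hu
      have f1 := F.fox x hxa hxc (hτ i) (hφ i) (hQ i) (hrel i) a hu
      have f2 := F.fox x hxa hxc (hτ i) (hφ i) (hQ i) (hrel i) (a * a1) hu
      rw [hodd _ (mem_soc_one.1 (F.lin_mem _ hu)), hodd _ (mem_soc_one.1 (F.lin_mem _ hu)),
        show (a * a1)⁻¹ * τ i * (a * a1) = a1⁻¹ * (a⁻¹ * τ i * a) * a1 by group,
        show (a * a1)⁻¹ * φ i * (a * a1) = a1⁻¹ * (a⁻¹ * φ i * a) * a1 by group,
        (hs _ hτ').2, (hs _ hφ').2] at f2
      rw [(hs _ hτ').1, (hs _ hφ').1] at f1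
      simp only [F.lin_add, F.lin_smul, map_add, map_smul, smul_eq_mul] at f1 f2
      have h5 : (5 : ZMod 5) = 0 := rfl
      constructor
      · linear_combination 3 * f1 - 3 * f2 - (x (φ i) a (F.lin (dpart (M (a⁻¹ * τ i * a))) u) -
          x (τ i) a (F.lin (dpart (M (a⁻¹ * φ i * a))) u)) * h5
      · linear_combination 3 * f1 + 3 * f2 - (x (φ i) a (F.lin (opart (M (a⁻¹ * τ i * a))) u) -
          x (τ i) a (F.lin (opart (M (a⁻¹ * φ i * a))) u)) * h5
    have := F.rel_of_split (x (τ i) a) (x (φ i) a) (M (a⁻¹ * τ i * a)) (M (a⁻¹ * φ i * a)) (c i)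
      (hc i) (by
        rw [hM _ (hτ i), hM _ (hφ i)]
        have e1 : ∀ X Y : Matrix (Fin 2) (Fin 2) (ZMod 5),
            B * X * A * (B * Y * A) = B * (X * Y) * A := fun X Y => by
          calc B * X * A * (B * Y * A) = B * X * (A * B) * Y * A := by simp only [mul_assoc]
            _ = B * (X * Y) * A := by rw [hAB, mul_one]; simp only [mul_assoc]
        rw [e1, e1, ← sub_mul, ← mul_sub, hcomm i, mul_smul_comm, smul_mul_assoc])
      (by
        rw [hM _ (hφ i), Matrix.trace_mul_cycle, hAB, one_mul]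
        exact htr i)
      (fun u hu => (two u hu).1) (fun u hu => (two u hu).2)
    refine ⟨this.1, fun h => this.2 fun h0 => h ?_⟩
    rw [hM _ (hτ i)] at h0
    calc M (τ i) = (A * B) * M (τ i) * (A * B) := by rw [hAB, one_mul, mul_one]
      _ = A * (B * M (τ i) * A) * B := by simp only [mul_assoc]
      _ = 0 := by rw [h0, mul_zero, zero_mul]
  have := F.count (S := Option ι × A0)
    (fun s => match s.1 with
      | some i => x (τ i) s.2
      | none => x (φ i0) s.2)
    (fun v hv h => hdet v hv (fun i a ha => h (some i, ⟨a, ha⟩)) (fun a ha => h (none, ⟨a, ha⟩)))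
    (by
      rintro ⟨_ | i, a⟩
      · exact (main i0 a).2 hN
      · exact (main i a).1)
  simpa [Fintype.card_prod, Fintype.card_option] using this

end Pool.Agent.Lib.MP_54db3e_nt.H42
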