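import Mathlib

/-!
Step UC: units of relative norm one in a quadratic extension of number fields that are independent
modulo fifth powers, first for abstract number fields, then for fixed fields of open subgroups of
the absolute Galois group of the rationals.
-/

set_option autoImplicit false

namespace Pool.Agent.Lib.MP_54db3e_nt.H42

open Module NumberField

/-- A finitely generated abelian group of rank at least `r` has `r` elements independent modulo
multiples of five. -/
theorem indep_mod_five {A : Type*} [AddCommGroup A] [Module.Finite ℤ A] {r : ℕ}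
    (hr : r ≤ finrank ℤ A) :
    ∃ u : Fin r → A, ∀ (e : Fin r → ℤ) (t : A), ∑ i, e i • u i = (5 : ℤ) • t → ∀ i, 5 ∣ e i := by
  classical
  let T := Submodule.torsion ℤ A
  have h1 : finrank ℤ (A ⧸ T) = finrank ℤ A := finrank_quotient_eq_of_le_torsion le_rfl
  let b := Module.finBasis ℤ (A ⧸ T)
  let j : Fin r → Fin (finrank ℤ (A ⧸ T)) := Fin.castLE (h1 ▸ hr)
  have hj : Function.Injective j := Fin.castLE_injective _
  choose u hu using fun i => T.mkQ_surjective (b (j i))
  refine ⟨u, fun e t h i => ⟨b.repr (T.mkQ t) (j i), ?_⟩⟩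
  have h2 := congrArg (fun a => b.repr (T.mkQ a) (j i)) h
  simp only [map_sum, map_zsmul, hu, Basis.repr_self, Finsupp.coe_finsetSum, Finset.sum_apply,
    Finsupp.coe_smul, Pi.smul_apply, smul_eq_mul] at h2
  rw [Finset.sum_eq_single i] at h2
  · simpa using h2
  · intro k _ hk
    rw [Finsupp.single_eq_of_ne (fun h => hk (hj h).symm), mul_zero]
  · simp

/-- Units of relative norm one, independent modulo fifth powers. -/
theorem units_minus {K L : Type*} [Field K] [NumberField K] [Field L] [NumberField L]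
    (f : L →+* K) (σ : K →+* K) (hσ : ∀ x, σ (σ x) = x) (hfix : ∀ x, σ x = x → ∃ y, f y = x)
    {r : ℕ} (hr : r + Units.rank L ≤ Units.rank K) :
    ∃ u : Fin r → K, (∀ i, IsIntegral ℤ (u i) ∧ u i * σ (u i) = 1) ∧
      ∀ (e : Fin r → ℕ) (t : K), ∏ i, u i ^ e i = t ^ 5 → ∀ i, 5 ∣ e i := by
  let s0 : (𝓞 K)ˣ →* (𝓞 K)ˣ := Units.map (RingOfIntegers.mapRingHom σ).toMonoidHom
  let j0 : (𝓞 L)ˣ →* (𝓞 K)ˣ := Units.map (RingOfIntegers.mapRingHom f).toMonoidHom
  let val : (𝓞 K)ˣ →* K := (algebraMap (𝓞 K) K).toMonoidHom.comp (Units.coeHom _)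
  have hval : Function.Injective val := fun a b h =>
    Units.ext (RingOfIntegers.coe_injective h)
  have hs0 : ∀ a, val (s0 a) = σ (val a) := fun a => rfl
  let ν : Additive (𝓞 K)ˣ →ₗ[ℤ] Additive (𝓞 K)ˣ :=
    LinearMap.id + (MonoidHom.toAdditive s0).toIntLinearMap
  let j : Additive (𝓞 L)ˣ →ₗ[ℤ] Additive (𝓞 K)ˣ := (MonoidHom.toAdditive j0).toIntLinearMap
  have hν : ∀ a, val (Additive.toMul (ν a)) =
      val (Additive.toMul a) * σ (val (Additive.toMul a)) := fun a => by
    rw [← hs0, ← map_mul]; rfl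
  have hint : ∀ y : L, IsIntegral ℤ (f y) → IsIntegral ℤ y := fun y hy =>
    (isIntegral_algHom_iff f.toIntAlgHom f.injective).1 hy
  have hvi : ∀ a, IsIntegral ℤ (val a) := fun a => (a : 𝓞 K).2
  have hle : LinearMap.range ν ≤ LinearMap.range j := by
    rintro _ ⟨a, rfl⟩
    set w := Additive.toMul (ν a) with hw
    have h1 : σ (val w) = val w := by rw [hw, hν, map_mul, hσ, mul_comm]
    have h0 : val w * val w⁻¹ = 1 := by rw [← map_mul, mul_inv_cancel, map_one]
    obtain ⟨y, hy⟩ := hfix _ h1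
    have hy0 : y ≠ 0 := by
      rintro rfl
      rw [← hy, map_zero, zero_mul] at h0
      exact zero_ne_one h0
    have hy' : f y⁻¹ = val w⁻¹ := by
      rw [map_inv₀, hy]
      exact (eq_inv_of_mul_eq_one_right h0).symm
    let Y : (𝓞 L)ˣ := ⟨⟨y, hint y (hy ▸ hvi w)⟩, ⟨y⁻¹, hint _ (hy' ▸ hvi w⁻¹)⟩,
      RingOfIntegers.ext (mul_inv_cancel₀ hy0), RingOfIntegers.ext (inv_mul_cancel₀ hy0)⟩
    refine ⟨Additive.ofMul Y, ?_⟩
    apply Additive.toMul.injective
    exact hval hy
  have hrk : r ≤ finrank ℤ (LinearMap.ker ν) := by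
    have h1 := (LinearMap.ker ν).finrank_quotient_add_finrank
    rw [ν.quotKerEquivRange.finrank_eq, Units.finrank_eq] at h1
    have h2 : finrank ℤ (LinearMap.range ν) ≤ finrank ℤ (LinearMap.range j) :=
      Submodule.finrank_mono hle
    have h3 := j.finrank_range_le
    rw [Units.finrank_eq] at h3
    omega
  obtain ⟨u, hu⟩ := indep_mod_five hrk
  have hker : ∀ a : LinearMap.ker ν,
      val (Additive.toMul a.1) * σ (val (Additive.toMul a.1)) = 1 := fun a => by
    rw [← hν, LinearMap.mem_ker.1 a.2]; exact map_one val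
  refine ⟨fun i => val (Additive.toMul (u i).1), fun i => ⟨hvi _, hker _⟩, fun e t h i => ?_⟩
  let a : LinearMap.ker ν := ∑ i, (e i : ℤ) • u i
  have ha : val (Additive.toMul a.1) = t ^ 5 := by
    rw [← h]
    simp only [a, Submodule.coe_sum, natCast_zsmul, Submodule.coe_smul_of_tower, toMul_sum,
      toMul_nsmul, map_prod, map_pow]
  have ha' : val (Additive.toMul a.1) * val (Additive.toMul a.1)⁻¹ = 1 := by
    rw [← map_mul, mul_inv_cancel, map_one]
  have ht0 : t ≠ 0 := by
    rintro rfl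
    rw [ha] at ha'
    simp at ha'
  have hti : IsIntegral ℤ t := IsIntegral.of_pow (by norm_num : 0 < 5) (ha ▸ hvi _)
  have hti' : IsIntegral ℤ t⁻¹ := IsIntegral.of_pow (by norm_num : 0 < 5) (by
    rw [inv_pow, ← ha, ← eq_inv_of_mul_eq_one_right ha']
    exact hvi _)
  let T : (𝓞 K)ˣ := ⟨⟨t, hti⟩, ⟨t⁻¹, hti'⟩,
    RingOfIntegers.ext (mul_inv_cancel₀ ht0), RingOfIntegers.ext (inv_mul_cancel₀ ht0)⟩
  have hT : val T = t := rfl
  have hσt : σ t ≠ 0 := (map_ne_zero σ).2 ht0
  have hT' : val (T * (s0 T)⁻¹) = t * (σ t)⁻¹ := by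
    rw [map_mul, map_inv, hs0, hT]
  have hm : Additive.ofMul (T * (s0 T)⁻¹) ∈ LinearMap.ker ν := by
    rw [LinearMap.mem_ker]
    apply Additive.toMul.injective
    apply hval
    rw [hν, toMul_ofMul, hT', map_mul, map_inv₀, hσ, toMul_zero, map_one]
    field_simp
  have h2 := hu (fun i => 2 * e i) ⟨_, hm⟩ (by
    have e1 : ∑ i, (2 * (e i : ℤ)) • u i = (2 : ℤ) • a := by
      simp only [a, Finset.smul_sum, mul_smul]
    rw [e1]
    apply Subtype.ext
    apply Additive.toMul.injective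
    apply hval
    have hk := hker a
    rw [ha, map_pow] at hk
    simp only [Submodule.coe_smul, toMul_zsmul, map_zpow, ha, toMul_ofMul, hT']
    have : (σ t) ^ 5 = (t ^ 5)⁻¹ := eq_inv_of_mul_eq_one_right hk
    rw [zpow_ofNat, zpow_ofNat, mul_pow, inv_pow, this, inv_inv]
    ring) i
  omega

end Pool.Agent.Lib.MP_54db3e_nt.H42
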