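import Pool.Agent.Lib.MP_54db3e_nt.H42UC

/-!
Step UC for fixed fields of open subgroups `G ≤ H ≤ Z` of the Galois group of a Galois extension
of the rationals, `H` of index at most two in `Z` and `G` of index prime to five in `H`.
-/

set_option autoImplicit false

namespace Pool.Agent.Lib.MP_54db3e_nt.H42

open Module NumberField IntermediateField

variable {Ω : Type*} [Field Ω] [Algebra ℚ Ω] [IsGalois ℚ Ω]

theorem fixing_fixed {H : Subgroup (Ω ≃ₐ[ℚ] Ω)} (hH : IsOpen (H : Set (Ω ≃ₐ[ℚ] Ω))) :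
    (fixedField H).fixingSubgroup = H :=
  InfiniteGalois.fixingSubgroup_fixedField ⟨H, H.isClosed_of_isOpen hH⟩

theorem numberField_fixed {H : Subgroup (Ω ≃ₐ[ℚ] Ω)} (hH : IsOpen (H : Set (Ω ≃ₐ[ℚ] Ω))) :
    NumberField (fixedField H) := by
  have : CharZero Ω := charZero_of_injective_algebraMap (algebraMap ℚ Ω).injective
  have h : FiniteDimensional ℚ (fixedField H) :=
    (InfiniteGalois.isOpen_iff_finite _).1 (by rw [fixing_fixed hH]; exact hH)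
  exact { to_charZero := inferInstance
          to_finiteDimensional := by convert h; exact Subsingleton.elim _ _ }

theorem finrank_fixed {H : Subgroup (Ω ≃ₐ[ℚ] Ω)} (hH : IsOpen (H : Set (Ω ≃ₐ[ℚ] Ω))) :
    finrank ℚ (fixedField H) = H.index := by
  rw [finrank_eq_fixingSubgroup_index, fixing_fixed hH]

theorem places_fixed {H : Subgroup (Ω ≃ₐ[ℚ] Ω)} (hH : IsOpen (H : Set (Ω ≃ₐ[ℚ] Ω))) :
    haveI := numberField_fixed hH
    InfinitePlace.nrRealPlaces (fixedField H) + 2 * InfinitePlace.nrComplexPlaces (fixedField H) =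
      H.index := by
  have := numberField_fixed hH
  rw [← finrank_fixed hH]
  convert InfinitePlace.card_add_two_mul_card_eq_rank (fixedField H)
  exact Subsingleton.elim _ _

/-- Every complex embedding of a subfield extends, and complex conjugation is induced by an
element of the Galois group. -/
theorem exists_ext_conj (L : IntermediateField ℚ Ω) (ψ : L →+* ℂ) :
    ∃ (φ : Ω →+* ℂ) (c : Ω ≃ₐ[ℚ] Ω), (∀ x : L, φ x = ψ x) ∧
      ∀ x, φ (c x) = (starRingEnd ℂ) (φ x) := by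
  let _ := ψ.toAlgebra
  have : Algebra.IsAlgebraic L Ω := Algebra.IsAlgebraic.tower_top (K := ℚ) L
  let φ : Ω →ₐ[L] ℂ := IsAlgClosed.lift
  obtain ⟨σ, hσ⟩ := ComplexEmbedding.exists_comp_symm_eq_of_comp_eq (k := ℚ) φ.toRingHom
    ((starRingEnd ℂ).comp φ.toRingHom) (Subsingleton.elim _ _)
  exact ⟨φ.toRingHom, σ.symm, fun x => φ.commutes x, fun x => RingHom.congr_fun hσ x⟩

theorem two_mul_rank_of_no_conj {Z : Subgroup (Ω ≃ₐ[ℚ] Ω)} (hZ : IsOpen (Z : Set (Ω ≃ₐ[ℚ] Ω)))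
    (h : ∀ (φ : Ω →+* ℂ), ∀ c ∈ Z, ¬ ∀ x, φ (c x) = (starRingEnd ℂ) (φ x)) :
    haveI := numberField_fixed hZ
    2 * Fintype.card (InfinitePlace (fixedField Z)) = Z.index := by
  have := numberField_fixed hZ
  have hc : IsTotallyComplex (fixedField Z) := ⟨fun v => by
    rw [← InfinitePlace.not_isReal_iff_isComplex, ← InfinitePlace.mk_embedding v,
      InfinitePlace.isReal_mk_iff, ComplexEmbedding.isReal_iff]
    intro hr
    obtain ⟨φ, c, h1, h2⟩ := exists_ext_conj _ v.embedding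
    refine h φ c ?_ h2
    rw [← fixing_fixed hZ, IntermediateField.mem_fixingSubgroup_iff]
    intro x hx
    apply φ.injective
    rw [h2, h1 ⟨x, hx⟩]
    exact RingHom.congr_fun hr ⟨x, hx⟩⟩
  rw [InfinitePlace.card_eq_nrRealPlaces_add_nrComplexPlaces, ← places_fixed hZ,
    IsTotallyComplex.nrRealPlaces_eq_zero]
  simp

theorem card_of_all_conj {H : Subgroup (Ω ≃ₐ[ℚ] Ω)} (hH : IsOpen (H : Set (Ω ≃ₐ[ℚ] Ω)))
    (h : ∀ (φ : Ω →+* ℂ) (c : Ω ≃ₐ[ℚ] Ω), (∀ x, φ (c x) = (starRingEnd ℂ) (φ x)) → c ∈ H) :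
    haveI := numberField_fixed hH
    Fintype.card (InfinitePlace (fixedField H)) = H.index := by
  have := numberField_fixed hH
  have hc : IsTotallyReal (fixedField H) := ⟨fun v => by
    rw [← InfinitePlace.mk_embedding v, InfinitePlace.isReal_mk_iff, ComplexEmbedding.isReal_iff]
    obtain ⟨φ, c, h1, h2⟩ := exists_ext_conj _ v.embedding
    ext x
    have h3 : c x = x := x.2 ⟨c, h φ c h2⟩
    rw [ComplexEmbedding.conjugate_coe_eq, ← h1, ← h2, h3]⟩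
  rw [InfinitePlace.card_eq_nrRealPlaces_add_nrComplexPlaces, ← places_fixed hH,
    IsTotallyReal.nrComplexPlaces_eq_zero]

theorem card_places_bounds {H : Subgroup (Ω ≃ₐ[ℚ] Ω)} (hH : IsOpen (H : Set (Ω ≃ₐ[ℚ] Ω))) :
    haveI := numberField_fixed hH
    H.index ≤ 2 * Fintype.card (InfinitePlace (fixedField H)) ∧
      Fintype.card (InfinitePlace (fixedField H)) ≤ H.index := by
  have := numberField_fixed hH
  rw [InfinitePlace.card_eq_nrRealPlaces_add_nrComplexPlaces, ← places_fixed hH]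
  omega

omit [IsGalois ℚ Ω] in
/-- The norm from the fixed field of `G` to that of `H`. -/
theorem exists_norm {G H : Subgroup (Ω ≃ₐ[ℚ] Ω)} (hix : G.relIndex H ≠ 0) {t w : Ω} {n : ℕ}
    (ht : ∀ g ∈ G, g t = t) (hw : ∀ h ∈ H, h w = w) (e : w = t ^ n) :
    ∃ t' : Ω, (∀ h ∈ H, h t' = t') ∧ w ^ G.relIndex H = t' ^ n := by
  have : Finite (H ⧸ G.subgroupOf H) := Nat.finite_of_card_ne_zero hix
  have := Fintype.ofFinite (H ⧸ G.subgroupOf H)
  refine ⟨∏ q : H ⧸ G.subgroupOf H, (q.out : Ω ≃ₐ[ℚ] Ω) t, fun h hh => ?_, ?_⟩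
  · rw [map_prod]
    refine Fintype.prod_equiv (MulAction.toPerm (⟨h, hh⟩ : H)) _ _ fun q => ?_
    have h1 : (((⟨h, hh⟩ : H) • q).out)⁻¹ * (⟨h, hh⟩ * q.out) ∈ G.subgroupOf H := by
      rw [← QuotientGroup.eq, QuotientGroup.out_eq', ← smul_eq_mul,
        MulAction.Quotient.coe_smul_out]
    have h2 := ht _ (Subgroup.mem_subgroupOf.1 h1)
    have h3 := congrArg ((((⟨h, hh⟩ : H) • q).out : H) : Ω ≃ₐ[ℚ] Ω) h2
    rw [← AlgEquiv.mul_apply, Subgroup.coe_mul, Subgroup.coe_inv, mul_inv_cancel_left] at h3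
    exact h3
  · rw [← Finset.prod_pow]
    have h1 : ∀ q : H ⧸ G.subgroupOf H, ((q.out : Ω ≃ₐ[ℚ] Ω) t) ^ n = w := fun q => by
      rw [← map_pow, ← e, hw _ q.out.2]
    simp only [h1, Finset.prod_const, Finset.card_univ, ← Nat.card_eq_fintype_card]
    rfl

/-- Units fixed by `H`, inverted by `z0`, independent modulo fifth powers of `G`-fixed elements. -/
theorem units_gal {G H Z : Subgroup (Ω ≃ₐ[ℚ] Ω)} (hH : IsOpen (H : Set (Ω ≃ₐ[ℚ] Ω)))
    (hZ : IsOpen (Z : Set (Ω ≃ₐ[ℚ] Ω))) (hHZ : H ≤ Z) (hix : ¬ 5 ∣ G.relIndex H)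
    (z0 : Ω ≃ₐ[ℚ] Ω) (hz : ∀ z ∈ Z, z ∈ H ∨ z0⁻¹ * z ∈ H) (h2 : z0 * z0 ∈ H)
    (hn : ∀ h ∈ H, z0⁻¹ * h * z0 ∈ H) {r : ℕ}
    (hr : haveI := numberField_fixed hH
      haveI := numberField_fixed hZ
      r + Fintype.card (InfinitePlace (fixedField Z)) ≤
        Fintype.card (InfinitePlace (fixedField H))) :
    ∃ u : Fin r → Ω, (∀ i, IsIntegral ℤ (u i) ∧ u i * z0 (u i) = 1 ∧ ∀ h ∈ H, h (u i) = u i) ∧
      ∀ (e : Fin r → ℕ) (t : Ω), (∀ g ∈ G, g t = t) → ∏ i, u i ^ e i = t ^ 5 → ∀ i, 5 ∣ e i := by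
  have := numberField_fixed hH
  have := numberField_fixed hZ
  have hle : fixedField Z ≤ fixedField H := fun x hx h => hx ⟨h.1, hHZ h.2⟩
  have hst : ∀ x : fixedField H, z0 x ∈ fixedField H := fun x h => by
    have h1 : (z0⁻¹ * h.1 * z0) x = x := x.2 ⟨_, hn h.1 h.2⟩
    have h3 := congrArg z0 h1
    rw [← AlgEquiv.mul_apply, mul_assoc, mul_inv_cancel_left] at h3
    exact h3
  let σ : fixedField H →+* fixedField H :=
    (z0.toAlgHom.toRingHom.comp (fixedField H).subtype).codRestrict (fixedField H) hst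
  have hσ : ∀ x, ((σ x : fixedField H) : Ω) = z0 x := fun x => rfl
  let f : fixedField Z →+* fixedField H :=
    (fixedField Z).subtype.codRestrict (fixedField H) fun x => hle x.2
  obtain ⟨u, hu, hind⟩ := units_minus (r := r) f σ
    (fun x => Subtype.ext (x.2 ⟨_, h2⟩))
    (fun x hx => ⟨⟨x, fun z => by
      rcases hz z.1 z.2 with h | h
      · exact x.2 ⟨_, h⟩
      · have h1 : (z0⁻¹ * z.1) x = x := x.2 ⟨_, h⟩
        have h3 := congrArg z0 h1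
        rw [← AlgEquiv.mul_apply, mul_inv_cancel_left, ← hσ, hx] at h3
        exact h3⟩, rfl⟩)
    (by
      have : 0 < Fintype.card (InfinitePlace (fixedField Z)) := Fintype.card_pos
      unfold Units.rank
      omega)
  refine ⟨fun i => u i, fun i => ⟨map_isIntegral_int (algebraMap (fixedField H) Ω) (hu i).1,
    congrArg Subtype.val (hu i).2, fun h hh => (u i).2 ⟨h, hh⟩⟩, fun e t ht h i => ?_⟩
  obtain ⟨t', ht', e'⟩ := exists_norm (G := G) (H := H) (fun h => hix (h ▸ dvd_zero 5)) ht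
    (fun g hg => by
      rw [map_prod]
      exact Finset.prod_congr rfl fun i _ => by
        rw [map_pow, show g (u i) = u i from (u i).2 ⟨g, hg⟩]) h
  have := hind (fun i => e i * G.relIndex H) ⟨t', fun g => ht' g.1 g.2⟩ (Subtype.ext (by
    simp only [pow_mul, Finset.prod_pow]
    push_cast
    exact e')) i
  exact ((Nat.Prime.dvd_mul (by norm_num)).1 this).resolve_right hix

/-- Step UC: `Z` contains no complex conjugation. -/
theorem UC {G H Z : Subgroup (Ω ≃ₐ[ℚ] Ω)} (hH : IsOpen (H : Set (Ω ≃ₐ[ℚ] Ω)))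
    (hHZ : H ≤ Z) (hix : ¬ 5 ∣ G.relIndex H)
    (z0 : Ω ≃ₐ[ℚ] Ω) (hz : ∀ z ∈ Z, z ∈ H ∨ z0⁻¹ * z ∈ H) (h2 : z0 * z0 ∈ H)
    (hn : ∀ h ∈ H, z0⁻¹ * h * z0 ∈ H)
    (hc : ∀ (φ : Ω →+* ℂ), ∀ c ∈ Z, ¬ ∀ x, φ (c x) = (starRingEnd ℂ) (φ x)) {r : ℕ}
    (hr : 2 * r + Z.index ≤ H.index) :
    ∃ u : Fin r → Ω, (∀ i, IsIntegral ℤ (u i) ∧ u i * z0 (u i) = 1 ∧ ∀ h ∈ H, h (u i) = u i) ∧
      ∀ (e : Fin r → ℕ) (t : Ω), (∀ g ∈ G, g t = t) → ∏ i, u i ^ e i = t ^ 5 → ∀ i, 5 ∣ e i := by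
  have hZ : IsOpen (Z : Set (Ω ≃ₐ[ℚ] Ω)) := Subgroup.isOpen_mono hHZ hH
  refine units_gal hH hZ hHZ hix z0 hz h2 hn ?_
  have h3 := two_mul_rank_of_no_conj hZ hc
  have h4 := (card_places_bounds hH).1
  omega

/-- The unit count of step LOWER: `H` contains every complex conjugation. -/
theorem UC_real {G H Z : Subgroup (Ω ≃ₐ[ℚ] Ω)} (hH : IsOpen (H : Set (Ω ≃ₐ[ℚ] Ω)))
    (hHZ : H ≤ Z) (hix : ¬ 5 ∣ G.relIndex H)
    (z0 : Ω ≃ₐ[ℚ] Ω) (hz : ∀ z ∈ Z, z ∈ H ∨ z0⁻¹ * z ∈ H) (h2 : z0 * z0 ∈ H)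
    (hn : ∀ h ∈ H, z0⁻¹ * h * z0 ∈ H)
    (hc : ∀ (φ : Ω →+* ℂ) (c : Ω ≃ₐ[ℚ] Ω), (∀ x, φ (c x) = (starRingEnd ℂ) (φ x)) → c ∈ H)
    {r : ℕ} (hr : r + Z.index ≤ H.index) :
    ∃ u : Fin r → Ω, (∀ i, IsIntegral ℤ (u i) ∧ u i * z0 (u i) = 1 ∧ ∀ h ∈ H, h (u i) = u i) ∧
      ∀ (e : Fin r → ℕ) (t : Ω), (∀ g ∈ G, g t = t) → ∏ i, u i ^ e i = t ^ 5 → ∀ i, 5 ∣ e i := by
  have hZ : IsOpen (Z : Set (Ω ≃ₐ[ℚ] Ω)) := Subgroup.isOpen_mono hHZ hH
  refine units_gal hH hZ hHZ hix z0 hz h2 hn ?_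
  have h3 := card_of_all_conj hH hc
  have h4 := (card_places_bounds hZ).2
  omega

end Pool.Agent.Lib.MP_54db3e_nt.H42
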