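import Pool.Agent.Lib.MP_54db3e_nt.H79Quartic

/-!
The totally real quartic field of discriminant `4205` has class number one, and the class group of
the cyclic quartic field of conductor `145` is killed by two.
-/

namespace Pool.Agent.Lib.MP_54db3e_nt.H79

open Polynomial NumberField Module

instance : Fact (Nat.Prime 7) := ⟨by norm_num⟩

variable {K : Type*} [Field K]

section real
variable {r : K}

theorem minpoly_r [CharZero K] (hr : r ^ 4 - 7 * r ^ 2 + 5 = 0) :
    minpoly ℚ r = qr 5 0 (-7) 0 := by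
  have h := minpoly_qr (p := 3) (c0 := 5) (c1 := 0) (c2 := -7) (c3 := 0) (x := r)
    (qr_irreducible (by decide) (by decide)) (by push_cast; linear_combination hr)
  simpa using h

theorem indep_r [CharZero K] (hr : r ^ 4 - 7 * r ^ 2 + 5 = 0) :
    LinearIndependent ℚ ![1, r, r ^ 2, r ^ 3] := by
  refine Fintype.linearIndependent_iff.2 fun c hc i => ?_
  obtain ⟨h0, h1, h2, h3⟩ := indep_of_minpoly (x := r) (by rw [minpoly_r hr, qr_natDegree])
    (a := c 0) (b := c 1) (c := c 2) (d := c 3)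
    (by simpa [Fin.sum_univ_four, Algebra.smul_def] using hc)
  fin_cases i
  exacts [h0, h1, h2, h3]

variable [NumberField K]

theorem trace_norm_r (hK : finrank ℚ K = 4) (hr : r ^ 4 - 7 * r ^ 2 + 5 = 0) (a b c d : ℚ)
    {x : K} (hx : x = a + b * r + c * r ^ 2 + d * r ^ 3) :
    Algebra.trace ℚ K x = 4 * a + 14 * c ∧ Algebra.norm ℚ x =
      !![a, -5 * d, -5 * c, -5 * b - 35 * d; b, a, -5 * d, -5 * c;
        c, b + 7 * d, a + 7 * c, 7 * b + 44 * d; d, c, b + 7 * d, a + 7 * c].det := by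
  obtain ⟨h1, h2⟩ := trace_norm hK _ (indep_r hr) x
    !![a, -5 * d, -5 * c, -5 * b - 35 * d; b, a, -5 * d, -5 * c;
        c, b + 7 * d, a + 7 * c, 7 * b + 44 * d; d, c, b + 7 * d, a + 7 * c] fun j => by
    subst hx
    fin_cases j <;> simp [Fin.sum_univ_four, Algebra.smul_def] <;> grind
  refine ⟨h1.trans ?_, h2⟩
  simp [Matrix.trace, Fin.sum_univ_four]
  ring

theorem totallyReal_r (hK : finrank ℚ K = 4) (hr : r ^ 4 - 7 * r ^ 2 + 5 = 0) :
    IsTotallyReal K := by
  refine ⟨fun v => ?_⟩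
  rw [InfinitePlace.isReal_iff, ComplexEmbedding.isReal_iff]
  set φ := v.embedding
  have h1 : φ r ^ 4 - 7 * φ r ^ 2 + 5 = 0 := by
    simpa only [map_add, map_sub, map_mul, map_pow, map_ofNat, map_zero] using congrArg φ hr
  have h2 : (φ r).im = 0 := by
    have hre := congrArg Complex.re h1
    have him := congrArg Complex.im h1
    simp [pow_succ] at hre him
    generalize (φ r).re = x at hre him
    generalize (φ r).im = y at hre him
    by_contra hy
    have h3 : x * (2 * x ^ 2 - 2 * y ^ 2 - 7) = 0 :=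
      mul_left_cancel₀ hy (by linear_combination him / 2)
    rcases mul_eq_zero.1 h3 with h | h
    · subst h
      nlinarith [sq_nonneg y, sq_nonneg (y ^ 2)]
    · have h4 : x ^ 2 = y ^ 2 + 7 / 2 := by linarith
      nlinarith [sq_nonneg (x * y)]
  have h3 : starRingEnd ℂ (φ r) = φ r := Complex.conj_eq_iff_im.2 h2
  ext x
  obtain ⟨a, b, c, d, rfl⟩ := exists_coords hK _ (indep_r hr) x
  simp [h3]

theorem pid_r (hK : finrank ℚ K = 4) (hr : r ^ 4 - 7 * r ^ 2 + 5 = 0) :
    IsPrincipalIdealRing (𝓞 K) := by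
  have hw : ((1 + r + r ^ 2) / 2) ^ 4 + (-9 : ℤ) * ((1 + r + r ^ 2) / 2) ^ 3 +
      (25 : ℤ) * ((1 + r + r ^ 2) / 2) ^ 2 + (-25 : ℤ) * ((1 + r + r ^ 2) / 2) + (7 : ℤ) = 0 := by
    push_cast
    grind
  let R : 𝓞 K := ⟨r, isIntegral_of_qr 5 0 (-7) 0 (by push_cast; linear_combination hr)⟩
  let W : 𝓞 K := ⟨(1 + r + r ^ 2) / 2, isIntegral_of_qr _ _ _ _ hw⟩
  have eR : (R : K) = r := rfl
  have eW : (W : K) = (1 + r + r ^ 2) / 2 := rfl
  have hR : R ^ 4 - 7 * R ^ 2 + 5 = 0 := RingOfIntegers.ext (by push_cast; exact hr)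
  have hW : W ^ 4 + (-9 : ℤ) * W ^ 3 + (25 : ℤ) * W ^ 2 + (-25 : ℤ) * W + (7 : ℤ) = 0 :=
    RingOfIntegers.ext (by
      simp only [map_add, map_mul, map_pow, map_intCast, map_zero]
      exact hw)
  have t := fun a b c d x hx => (trace_norm_r hK hr a b c d (x := x) hx).1
  have hD := discr_le hK ![1, R, W, R * W]
    !![4, 0, 9, 7; 0, 14, 7, 46; 9, 7, 31, 46; 7, 46, 46, 181] (fun i j => by
      fin_cases i <;> fin_cases j <;> simp [eR, eW]
      all_goals first
        | (rw [t 1 0 0 0 _ (by push_cast; grind)]; norm_num)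
        | (rw [t 0 1 0 0 _ (by push_cast; grind)]; norm_num)
        | (rw [t 0 0 1 0 _ (by push_cast; grind)]; norm_num)
        | (rw [t (1 / 2) (1 / 2) (1 / 2) 0 _ (by push_cast; grind)]; norm_num)
        | (rw [t 0 (1 / 2) (1 / 2) (1 / 2) _ (by push_cast; grind)]; norm_num)
        | (rw [t (-5 / 2) 0 4 (1 / 2) _ (by push_cast; grind)]; norm_num)
        | (rw [t (-1) (1 / 2) (5 / 2) (1 / 2) _ (by push_cast; grind)]; norm_num)
        | (rw [t (-5 / 2) (-1) 4 (5 / 2) _ (by push_cast; grind)]; norm_num)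
        | (rw [t (-25 / 2) (-5 / 2) (33 / 2) 4 _ (by push_cast; grind)]; norm_num))
    (by rw [det4]; norm_num)
  have hD' : |discr K| ≤ 4205 := hD.trans (by rw [det4]; norm_num)
  rw [← classNumber_eq_one_iff, classNumber, Fintype.card_eq_one_iff]
  refine ⟨1, fun c => (pow_one c).symm.trans (pow_principal (N := 7) ?_ hK ?_ c)⟩
  · rw [nrComplexPlaces_eq_zero_iff.2 (totallyReal_r hK hr), pow_zero, one_mul]
    have : √|(discr K : ℝ)| < 65 := by
      rw [Real.sqrt_lt' (by norm_num)]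
      have : |(discr K : ℝ)| ≤ 4205 := by exact_mod_cast hD'
      linarith
    push_cast
    linarith
  intro P hP h0 hN
  obtain ⟨p, n, hp, hn, hc, hpP, hF, hq⟩ := exists_char P h0
  rw [hc] at hN
  have hp7 : p < 7 := lt_of_le_of_lt (Nat.le_self_pow hn.ne' p) hN
  have hn3 : n < 3 := (Nat.pow_lt_pow_iff_right one_lt_two).1
    (lt_of_le_of_lt (Nat.pow_le_pow_left hp.two_le n) (by omega))
  have hR' : R ^ 4 + (0 : ℤ) * R ^ 3 + (-7 : ℤ) * R ^ 2 + (0 : ℤ) * R + (5 : ℤ) = 0 := by
    push_cast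
    linear_combination hR
  interval_cases p
  · exact absurd hp (by norm_num)
  · exact absurd hp (by norm_num)
  · have := Nat.le_of_dvd hn ((hq W _ _ _ _ hW).2 (qr_irreducible (by decide) (by decide)))
    omega
  · have := Nat.le_of_dvd hn ((hq R _ _ _ _ hR').2 (qr_irreducible (by decide) (by decide)))
    omega
  · exact absurd hp (by norm_num)
  · obtain rfl : n = 1 := by interval_cases n <;> simp_all
    have h5 : (5 : 𝓞 K) ∈ P := by exact_mod_cast hpP
    have hRP : R ∈ P := by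
      have h1 : R * (7 * R ^ 2 - 6) ∈ P := by
        convert hF R using 1
        linear_combination (-R) * hR
      have h2 : R * (R * (R ^ 2 - 7)) ∈ P := by
        convert P.neg_mem h5 using 1
        linear_combination hR
      by_contra h
      have h3 := (hP.mem_or_mem h1).resolve_left h
      have h4 := (hP.mem_or_mem ((hP.mem_or_mem h2).resolve_left h)).resolve_left h
      refine hP.ne_top ((Ideal.eq_top_iff_one P).2 ?_)
      convert sub_mem (sub_mem (P.mul_mem_left 2 h3) (P.mul_mem_left 14 h4))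
        (P.mul_mem_left 17 h5) using 1
      ring
    have h6 : Ideal.absNorm (Ideal.span {R}) = 5 := absNorm_span R (by
      rw [(trace_norm_r hK hr 0 1 0 0 (by simp [eR])).2, det4]
      norm_num)
    rw [pow_one, eq_of_le_of_prime ((Ideal.span_singleton_le_iff_mem P).2 hRP) hP.ne_top
      (h6 ▸ hp)]
    exact ⟨R, rfl⟩
  · exact absurd hp (by norm_num)

end real

section cm
variable {g b : K}

theorem minpoly_b [CharZero K] (hg : g ^ 2 + g - 1 = 0) (hb : b ^ 2 = g * b - 22 - 7 * g) :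
    minpoly ℚ b = qr 281 36 36 1 := by
  have h := minpoly_qr (p := 3) (c0 := 281) (c1 := 36) (c2 := 36) (c3 := 1) (x := b)
    (qr_irreducible (by decide) (by decide)) (by push_cast; grind)
  simpa using h

theorem indep_b [CharZero K] (hg : g ^ 2 + g - 1 = 0) (hb : b ^ 2 = g * b - 22 - 7 * g) :
    LinearIndependent ℚ ![1, g, b, g * b] := by
  refine Fintype.linearIndependent_iff.2 fun c hc i => ?_
  simp [Fin.sum_univ_four, Algebra.smul_def] at hc
  obtain ⟨h0, h1, h2, h3⟩ := indep_of_minpoly (x := b) (by rw [minpoly_b hg hb, qr_natDegree])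
    (a := 22 * c 1 - 7 * c 0) (b := c 0 - 7 * c 2 + 22 * c 3) (c := c 1 + c 2) (d := c 3)
    (by push_cast; linear_combination (b - 7) * hc + ((c 1 : K) + c 3 * b) * hb)
  fin_cases i <;> simp <;> linarith

variable [NumberField K]

theorem trace_norm_b (hK : finrank ℚ K = 4) (hg : g ^ 2 + g - 1 = 0)
    (hb : b ^ 2 = g * b - 22 - 7 * g) (s t u v : ℚ)
    {x : K} (hx : x = s + t * g + u * b + v * (g * b)) :
    Algebra.trace ℚ K x = 4 * s - 2 * t - u + 3 * v ∧ Algebra.norm ℚ x =
      !![s, t, -22 * u - 7 * v, -7 * u - 15 * v; t, s - t, -7 * u - 15 * v, -15 * u + 8 * v;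
        u, v, s + v, t + u - v; v, u - v, t + u - v, s - t - u + 2 * v].det := by
  obtain ⟨h1, h2⟩ := trace_norm hK _ (indep_b hg hb) x
    !![s, t, -22 * u - 7 * v, -7 * u - 15 * v; t, s - t, -7 * u - 15 * v, -15 * u + 8 * v;
        u, v, s + v, t + u - v; v, u - v, t + u - v, s - t - u + 2 * v] fun j => by
    subst hx
    fin_cases j <;> simp [Fin.sum_univ_four, Algebra.smul_def] <;> grind
  refine ⟨h1.trans ?_, h2⟩
  simp [Matrix.trace, Fin.sum_univ_four]
  ring

theorem discr_b (hK : finrank ℚ K = 4) {G B : 𝓞 K} (hg : (G : K) ^ 2 + G - 1 = 0)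
    (hb : (B : K) ^ 2 = G * B - 22 - 7 * G) : |discr K| ≤ 105125 := by
  have t := fun s t u v x hx => (trace_norm_b hK hg hb s t u v (x := x) hx).1
  refine (discr_le hK ![1, G, B, G * B]
    !![4, -2, -1, 3; -2, 6, 3, -4; -1, 3, -71, -2; 3, -4, -2, -69] (fun i j => ?_)
    (by rw [det4]; norm_num)).trans (by rw [det4]; norm_num)
  fin_cases i <;> fin_cases j <;> simp
  all_goals first
    | (rw [t 1 0 0 0 _ (by push_cast; grind)]; norm_num)
    | (rw [t 0 1 0 0 _ (by push_cast; grind)]; norm_num)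
    | (rw [t 0 0 1 0 _ (by push_cast; grind)]; norm_num)
    | (rw [t 0 0 0 1 _ (by push_cast; grind)]; norm_num)
    | (rw [t 1 (-1) 0 0 _ (by push_cast; grind)]; norm_num)
    | (rw [t 0 0 1 (-1) _ (by push_cast; grind)]; norm_num)
    | (rw [t (-22) (-7) 0 1 _ (by push_cast; grind)]; norm_num)
    | (rw [t (-7) (-15) 1 (-1) _ (by push_cast; grind)]; norm_num)
    | (rw [t (-15) 8 (-1) 2 _ (by push_cast; grind)]; norm_num)

theorem absNorm_b (hK : finrank ℚ K = 4) {G B : 𝓞 K} (hG : G ^ 2 + G - 1 = 0)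
    (hB : B ^ 2 = G * B - 22 - 7 * G) (s t u v : ℤ) {x : 𝓞 K} {n : ℕ}
    (hx : x = s + t * G + u * B + v * (G * B))
    (h : !![(s : ℚ), t, -22 * u - 7 * v, -7 * u - 15 * v;
      t, s - t, -7 * u - 15 * v, -15 * u + 8 * v;
      u, v, s + v, t + u - v; v, u - v, t + u - v, s - t - u + 2 * v].det = n) :
    Ideal.absNorm (Ideal.span {x}) = n := by
  have hg : (G : K) ^ 2 + G - 1 = 0 := by exact_mod_cast congrArg (algebraMap (𝓞 K) K) hG
  have hb : (B : K) ^ 2 = G * B - 22 - 7 * G := by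
    simpa only [map_sub, map_mul, map_pow, map_ofNat] using congrArg (algebraMap (𝓞 K) K) hB
  refine absNorm_span x ?_
  rw [(trace_norm_b hK hg hb s t u v (by rw [hx]; simp)).2, h, Nat.abs_cast]

/-- The square of every prime of norm below fifty is principal. -/
theorem sq_small (hK : finrank ℚ K = 4) {G B : 𝓞 K} (hG : G ^ 2 + G - 1 = 0)
    (hB : B ^ 2 = G * B - 22 - 7 * G) (P : Ideal (𝓞 K)) (hP : P.IsPrime) (h0 : P ≠ ⊥)
    (hN : Ideal.absNorm P < 50) : (P ^ 2).IsPrincipal := by
  obtain ⟨p, n, hp, hn, hc, hpP, -, hq⟩ := exists_char P h0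
  obtain ⟨q1, q2⟩ := hq B 281 36 36 1 (by push_cast; grind)
  have N := fun s t u v x n hx h => absNorm_b hK hG hB s t u v (x := x) (n := n) hx h
  have hθ : (2 * B - G) * (2 * B - G) = -29 * (G + 3) := by grind
  have hN' := hc ▸ hN
  have hp50 : p < 50 := lt_of_le_of_lt (Nat.le_self_pow hn.ne' p) hN'
  have big : 8 ≤ p → n = 1 := fun h => by
    have : n < 2 := (Nat.pow_lt_pow_iff_right (by norm_num : 1 < 8)).1
      (lt_of_le_of_lt (Nat.pow_le_pow_left h n) (by omega))
    omega
  have inert : 3 ≤ p → ¬4 ∣ n := fun h h4 => by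
    have h5 : 3 ^ 4 ≤ p ^ n := (Nat.pow_le_pow_left h 4).trans
      (Nat.pow_le_pow_right hp.pos (Nat.le_of_dvd hn h4))
    omega
  have split : ∀ u a a' : 𝓞 K, u ∈ P → u * u = a' * a → a + a' = u - 1 →
      Ideal.absNorm (Ideal.span {a}) = 19 ^ 2 → Ideal.absNorm (Ideal.span {a'}) = 19 ^ 2 →
      (P ^ 2).IsPrincipal := fun u a a' hu h1 h2 n1 n2 => by
    rcases hP.mem_or_mem (h1 ▸ P.mul_mem_left u hu) with h | h
    · exact ⟨a', sq_principal hP.ne_top hu h a u a' (-1) 1 (-1) (by rw [h1, mul_comm]) rfl rfl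
        (by linear_combination h1 + a' * h2) (by norm_num) n2⟩
    · exact ⟨a, sq_principal hP.ne_top hu h a' u a (-1) 1 (-1) h1 rfl rfl
        (by linear_combination h1 + a * h2) (by norm_num) n1⟩
  by_cases h2 : p = 2
  · subst h2
    obtain ⟨k, rfl⟩ := q2 (qr_irreducible (by decide) (by decide))
    have hk : 4 * k < 6 := (Nat.pow_lt_pow_iff_right one_lt_two).1 (by omega)
    obtain rfl : k = 1 := by omega
    rw [eq_of_le_of_absNorm ((Ideal.span_singleton_le_iff_mem P).2 hpP) (by omega)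
      (by rw [Ideal.absNorm_span_natCast, RingOfIntegers.rank, hK, hc]),
      Ideal.span_singleton_pow]
    exact ⟨_, rfl⟩
  by_cases h5 : p = 5
  · subst h5
    have h : (5 : 𝓞 K) ∈ P := by exact_mod_cast hpP
    have hu : G + 3 ∈ P := hP.mem_of_pow_mem 2 (by
      convert P.mul_mem_left (G + 2) h using 1
      linear_combination hG)
    exact ⟨G + 3, sq_principal hP.ne_top hu
      ((hP.mem_or_mem (hθ ▸ P.mul_mem_left _ hu)).elim id id) (G + 3) (2 * B - G) (-29)
      (6 * (2 - G)) 0 1 rfl (mul_comm _ _) hθ (by grind) hp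
      (N 3 1 0 0 _ _ (by push_cast; ring) (by rw [det4]; norm_num))⟩
  by_cases h29 : p = 29
  · subst h29
    have h : (29 : 𝓞 K) ∈ P := by exact_mod_cast hpP
    have hv : 2 * B - G ∈ P := (hP.mem_or_mem (by
      rw [hθ, neg_mul]
      exact P.neg_mem (P.mul_mem_right _ h))).elim id id
    have h1 : (G - 5) * (G + 6) ∈ P := by
      convert P.neg_mem h using 1
      linear_combination hG
    rcases hP.mem_or_mem h1 with hu | hu
    · exact ⟨G - 5, sq_principal hP.ne_top hu hv (G - 5) (2 * B - G) ((G + 6) * (G + 3))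
        (4 + 2 * G) 0 1 rfl (mul_comm _ _) (by grind) (by grind) hp
        (N (-5) 1 0 0 _ _ (by push_cast; ring) (by rw [det4]; norm_num))⟩
    · exact ⟨G + 6, sq_principal hP.ne_top hu hv (G + 6) (2 * B - G) ((G - 5) * (G + 3))
        (51 + 3 * G) 0 22 rfl (mul_comm _ _) (by grind) (by grind) hp
        (N 6 1 0 0 _ _ (by push_cast; ring) (by rw [det4]; norm_num))⟩
  by_cases h19 : p = 19
  · subst h19
    have h : (19 : 𝓞 K) ∈ P := by exact_mod_cast hpP
    have h1 : (4 - G) * (G + 5) ∈ P := by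
      convert h using 1
      linear_combination -hG
    rcases hP.mem_or_mem h1 with hu | hu
    · exact split _ (G * B + 1) (2 - G - G * B) hu (by grind) (by ring)
        (N 1 0 0 1 _ _ (by push_cast; ring) (by rw [det4]; norm_num))
        (N 2 (-1) 0 (-1) _ _ (by push_cast; ring) (by rw [det4]; norm_num))
    · exact split _ (B + 2) (G - B + 2) hu (by grind) (by ring)
        (N 2 0 1 0 _ _ (by push_cast; ring) (by rw [det4]; norm_num))
        (N 2 1 (-1) 0 _ _ (by push_cast; ring) (by rw [det4]; norm_num))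
  exfalso
  by_cases h3 : p = 3
  · subst h3
    exact inert le_rfl (q2 (qr_irreducible (by decide) (by decide)))
  by_cases h7 : p = 7
  · subst h7
    exact inert (by norm_num) (q2 (qr_irreducible (by decide) (by decide +kernel)))
  clear hθ N split hc hpP hq q2 inert hN'
  interval_cases p <;> first
    | omega
    | (revert hp; norm_num; done)
    | (revert q1; rw [big (by norm_num)]; decide)

theorem class_sq (hK : finrank ℚ K = 4) (hg : g ^ 2 + g - 1 = 0)
    (hb : b ^ 2 = g * b - 22 - 7 * g) (c : ClassGroup (𝓞 K)) : c ^ 2 = 1 := by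
  let G : 𝓞 K := ⟨g, isIntegral_of_qr (-1) 1 0 1 (by push_cast; grind)⟩
  let B : 𝓞 K := ⟨b, isIntegral_of_qr 281 36 36 1 (by push_cast; grind)⟩
  have hG : G ^ 2 + G - 1 = 0 := RingOfIntegers.ext (by push_cast; exact hg)
  have hB : B ^ 2 = G * B - 22 - 7 * G := RingOfIntegers.ext (by push_cast; exact hb)
  refine pow_principal (N := 50) ?_ hK (sq_small hK hG hB) c
  have h1 : √|(discr K : ℝ)| ≤ 325 := by
    rw [Real.sqrt_le_left (by norm_num)]
    have : |(discr K : ℝ)| ≤ 105125 := by exact_mod_cast discr_b hK (G := G) (B := B) hg hb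
    linarith
  have h2 : InfinitePlace.nrComplexPlaces K ≤ 2 := by
    have := InfinitePlace.card_add_two_mul_card_eq_rank K
    omega
  have h3 : 4 / Real.pi ≤ 4 / 3.14 := by
    gcongr
    exact Real.pi_gt_d2.le
  have h4 : (4 / Real.pi) ^ InfinitePlace.nrComplexPlaces K ≤ (4 / 3.14) ^ 2 :=
    (pow_le_pow_left₀ (by positivity) h3 _).trans (pow_le_pow_right₀ (by norm_num) h2)
  refine lt_of_le_of_lt (mul_le_mul h4 (mul_le_mul_of_nonneg_left h1 (by norm_num))
    (by positivity) (by positivity)) (by norm_num)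

end cm

end Pool.Agent.Lib.MP_54db3e_nt.H79
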