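import Pool.Agent.Lib.MP_54db3e_nt.H79Quartic

/-!
From absolute values to ideals: an element of a number field whose class group is killed by two,
all of whose valuations are divisible by five, is a unit times a fifth power.
-/

namespace Pool.Agent.Lib.MP_54db3e_nt.H79

open NumberField Module UniqueFactorizationMonoid

variable {K : Type*} [Field K] [NumberField K] {Ω : Type*} [NormedField Ω] [IsUltrametricDist Ω]

theorem norm_le_one_of_isIntegral {x : Ω} (h : IsIntegral ℤ x) : ‖x‖ ≤ 1 := by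
  obtain ⟨f, hf, h0⟩ := h
  by_contra h1
  rw [not_le] at h1
  rw [Polynomial.eval₂_eq_sum_range, Finset.sum_range_succ, hf.coeff_natDegree, map_one, one_mul,
    add_eq_zero_iff_neg_eq] at h0
  rcases Nat.eq_zero_or_pos f.natDegree with h2 | h2
  · simp [h2] at h0
  have h3 : ‖x‖ ^ f.natDegree ≤ ‖x‖ ^ (f.natDegree - 1) := by
    rw [← norm_pow, ← h0, norm_neg]
    refine IsUltrametricDist.norm_sum_le_of_forall_le_of_nonneg (by positivity) fun i hi => ?_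
    rw [norm_mul, norm_pow]
    exact (mul_le_of_le_one_left (by positivity) (IsUltrametricDist.norm_intCast_le_one Ω _)).trans
      (pow_le_pow_right₀ h1.le (by have := Finset.mem_range.1 hi; omega))
  exact absurd h3 (not_le.2 (pow_lt_pow_right₀ h1 (by omega)))

omit [NumberField K] in
theorem norm_le_one (ι : K →+* Ω) (x : 𝓞 K) : ‖ι x‖ ≤ 1 :=
  norm_le_one_of_isIntegral (x.isIntegral_coe.map ι.toIntAlgHom)

/-- The prime ideal attached to an embedding. -/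
def prm (ι : K →+* Ω) : Ideal (𝓞 K) where
  carrier := {x | ‖ι x‖ < 1}
  zero_mem' := by simp
  add_mem' {x y} hx hy := by
    simp only [Set.mem_ofPred_eq, map_add] at hx hy ⊢
    exact (IsUltrametricDist.norm_add_le_max _ _).trans_lt (max_lt hx hy)
  smul_mem' c x hx := by
    simp only [Set.mem_ofPred_eq, smul_eq_mul, map_mul, norm_mul] at hx ⊢
    exact mul_lt_one_of_nonneg_of_lt_one_right (norm_le_one ι c) (norm_nonneg _) hx

omit [NumberField K] in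
theorem mem_prm {ι : K →+* Ω} {x : 𝓞 K} : x ∈ prm ι ↔ ‖ι x‖ < 1 := Iff.rfl

omit [NumberField K] in
theorem norm_eq_one {ι : K →+* Ω} {x : 𝓞 K} (h : x ∉ prm ι) : ‖ι x‖ = 1 :=
  le_antisymm (norm_le_one ι x) (not_lt.1 h)

instance prm_isPrime (ι : K →+* Ω) : (prm ι).IsPrime where
  ne_top' := by simp [Ideal.ne_top_iff_one, mem_prm]
  mem_or_mem' {x y} h := by
    by_contra h1
    rw [not_or] at h1
    simp [mem_prm, norm_eq_one h1.1, norm_eq_one h1.2] at h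

theorem exists_prm [IsAlgClosed Ω] [CharZero Ω] (P : Ideal (𝓞 K)) [hP : P.IsPrime] (h0 : P ≠ ⊥)
    {l : ℕ} (hl : l ∣ Ideal.absNorm P) (hΩ : ‖(l : Ω)‖ < 1) : ∃ ι : K →+* Ω, prm ι = P := by
  classical
  have h1 : (P : Set (𝓞 K)) ⊆
      ⋃ σ ∈ ((Finset.univ : Finset (K →ₐ[ℚ] Ω)) : Set (K →ₐ[ℚ] Ω)), prm (σ : K →+* Ω) := by
    intro x hx
    by_contra h2
    simp only [Finset.coe_univ, Set.mem_univ, Set.iUnion_true, Set.mem_iUnion, SetLike.mem_coe,
      not_exists] at h2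
    obtain ⟨m, hm⟩ := (Int.natCast_dvd_natCast.2 hl).trans (Ideal.absNorm_dvd_norm_of_mem hx)
    have h3 := congrArg norm (Algebra.norm_eq_prod_embeddings ℚ Ω (x : K))
    rw [norm_prod, Finset.prod_eq_one (f := fun σ : K →ₐ[ℚ] Ω => ‖σ x‖)
      fun σ _ => norm_eq_one (h2 σ), ← Algebra.coe_norm_int, hm] at h3
    simp only [Int.cast_mul, Int.cast_natCast, map_mul, map_natCast, map_intCast, norm_mul] at h3
    exact absurd h3 (mul_lt_one_of_nonneg_of_lt_one_left (norm_nonneg _) hΩ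
      (IsUltrametricDist.norm_intCast_le_one Ω m)).ne
  let σ0 : K →ₐ[ℚ] Ω := IsAlgClosed.lift
  obtain ⟨σ, -, h⟩ := (Ideal.subset_union_prime σ0 σ0 fun σ _ _ _ => prm_isPrime _).1 h1
  exact ⟨σ, ((hP.isMaximal h0).eq_of_le (prm_isPrime _).ne_top h).symm⟩

/-- The exponent of `P` in the principal ideal of `y`. -/
noncomputable def ord (P : Ideal (𝓞 K)) (y : 𝓞 K) : ℕ :=
  open Classical in (normalizedFactors (Ideal.span {y})).count P

theorem ord_mul (P : Ideal (𝓞 K)) {x y : 𝓞 K} (hx : x ≠ 0) (hy : y ≠ 0) :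
    ord P (x * y) = ord P x + ord P y := by
  rw [ord, ← Ideal.span_singleton_mul_span_singleton,
    normalizedFactors_mul (by simpa) (by simpa), Multiset.count_add]
  rfl

theorem ord_pow (P : Ideal (𝓞 K)) (x : 𝓞 K) (n : ℕ) : ord P (x ^ n) = n * ord P x := by
  rw [ord, ← Ideal.span_singleton_pow, normalizedFactors_pow, Multiset.count_nsmul]
  rfl

omit [NumberField K] in
theorem norm_le_of_le (ι : K →+* Ω) {y z : 𝓞 K} {I Q : Ideal (𝓞 K)} (hy : y ∈ I)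
    (hQ : prm ι ⊔ Q = ⊤) (hz : Ideal.span {z} = I * Q) : ‖ι y‖ ≤ ‖ι z‖ := by
  have h1 : ¬Q ≤ prm ι := fun h => (prm_isPrime ι).ne_top (by rw [← hQ, sup_eq_left.2 h])
  obtain ⟨q, hq, hq'⟩ := SetLike.not_le_iff_exists.1 h1
  obtain ⟨w, hw⟩ := Ideal.mem_span_singleton'.1 (hz ▸ Ideal.mul_mem_mul hy hq)
  have h2 := congrArg (fun t : 𝓞 K => ‖ι t‖) hw
  simp only [map_mul, norm_mul, norm_eq_one hq', mul_one] at h2
  rw [← h2]
  exact mul_le_of_le_one_left (norm_nonneg _) (norm_le_one ι w)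

theorem exists_norm_eq_pow (ι : K →+* Ω) (h0 : prm ι ≠ ⊥) :
    ∃ π : 𝓞 K, 0 < ‖ι π‖ ∧ ‖ι π‖ < 1 ∧ ∀ y : 𝓞 K, y ≠ 0 → ‖ι y‖ = ‖ι π‖ ^ ord (prm ι) y := by
  classical
  have hm := (prm_isPrime ι).isMaximal h0
  obtain ⟨π, h1, h2⟩ := Ideal.exists_mem_pow_notMem_pow_succ (prm ι) h0 hm.ne_top 1
  have hπ : π ≠ 0 := fun h => h2 (h ▸ zero_mem _)
  obtain ⟨Q', q1, q2⟩ := Ideal.eq_prime_pow_mul_coprime (I := Ideal.span {π}) (by simpa) (prm ι)
  rw [Ideal.count_normalizedFactors_eq ((Ideal.span_singleton_le_iff_mem _).2 h1)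
    (fun h => h2 ((Ideal.span_singleton_le_iff_mem _).1 h))] at q2
  rw [pow_one] at h1 q2
  refine ⟨π, by simpa using hπ, h1, fun y hy => ?_⟩
  obtain ⟨Q, q3, q4⟩ := Ideal.eq_prime_pow_mul_coprime (I := Ideal.span {y}) (by simpa) (prm ι)
  have q5 : Ideal.span {y} = prm ι ^ ord (prm ι) y * Q := by convert q4; rw [ord]
  rw [← norm_pow, ← map_pow, ← map_pow]
  apply le_antisymm
  · refine norm_le_of_le ι (I := prm ι ^ ord (prm ι) y) (Q := Q' ^ ord (prm ι) y) ?_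
      (Ideal.sup_pow_eq_top q1) (by rw [← Ideal.span_singleton_pow, q2, mul_pow])
    exact (Ideal.span_singleton_le_iff_mem _).1 (q5.le.trans Ideal.mul_le_left)
  · exact norm_le_of_le ι (Ideal.pow_mem_pow h1 _) q3 q5

theorem fifth_of_ord (hcl : ∀ c : ClassGroup (𝓞 K), c ^ 5 = 1 → c = 1) {y : 𝓞 K} (hy : y ≠ 0)
    (h : ∀ P : Ideal (𝓞 K), P.IsPrime → P ≠ ⊥ → 5 ∣ ord P y) :
    ∃ (u : (𝓞 K)ˣ) (t : 𝓞 K), y = u * t ^ 5 := by
  classical
  have h0 : Ideal.span {y} ≠ ⊥ := by simpa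
  obtain ⟨s, hs⟩ := Multiset.exists_smul_of_dvd_count (normalizedFactors (Ideal.span {y}))
    (k := 5) fun P hP => by
      have h1 := (Ideal.mem_normalizedFactors_iff h0).1 hP
      convert h P h1.1 fun h2 => h0 (le_bot_iff.1 (h2 ▸ h1.2))
      rw [ord]
  have h1 : Ideal.span {y} = s.prod ^ 5 := by
    rw [← Multiset.prod_nsmul, ← hs, Ideal.prod_normalizedFactors_eq_self h0]
  have h2 : s.prod ≠ 0 := fun h => h0 (by rw [h1, h]; simp)
  let J : nonZeroDivisors (Ideal (𝓞 K)) := ⟨s.prod, mem_nonZeroDivisors_of_ne_zero h2⟩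
  have h3 : ClassGroup.mk0 J ^ 5 = 1 := by
    rw [← map_pow, ClassGroup.mk0_eq_one_iff, SubmonoidClass.coe_pow, ← h1]
    exact ⟨y, rfl⟩
  obtain ⟨z, hz⟩ := (ClassGroup.mk0_eq_one_iff _).1 (hcl _ h3)
  rw [hz, Ideal.submodule_span_eq, Ideal.span_singleton_pow,
    Ideal.span_singleton_eq_span_singleton] at h1
  obtain ⟨u, hu⟩ := h1.symm
  exact ⟨u, z, by rw [← hu, mul_comm]⟩

theorem fifth_of_ord_or (hcl : ∀ c : ClassGroup (𝓞 K), c ^ 5 = 1 → c = 1) {I : Type*} (π : I → 𝓞 K)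
    (s : Finset I) : ∀ {y : 𝓞 K}, y ≠ 0 →
      (∀ P : Ideal (𝓞 K), P.IsPrime → P ≠ ⊥ → 5 ∣ ord P y ∨ ∃ i ∈ s, P ^ 2 = Ideal.span {π i}) →
      ∃ (b : I → ℕ) (u : (𝓞 K)ˣ) (t : 𝓞 K), t ≠ 0 ∧ y * ∏ i ∈ s, π i ^ b i = u * t ^ 5 := by
  classical
  induction s using Finset.induction_on with
  | empty =>
    intro y hy h
    obtain ⟨u, t, ht⟩ := fifth_of_ord hcl hy fun P h1 h2 => by simpa using h P h1 h2
    exact ⟨0, u, t, fun h0 => hy (by simp [ht, h0]), by simpa using ht⟩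
  | insert j s hj ih =>
    intro y hy h
    have key : ∃ k : ℕ, π j ^ k ≠ 0 ∧ ∀ P : Ideal (𝓞 K), P.IsPrime → P ≠ ⊥ →
        5 ∣ ord P (y * π j ^ k) ∨ ∃ i ∈ s, P ^ 2 = Ideal.span {π i} := by
      by_cases hQ : ∃ Q : Ideal (𝓞 K), Q.IsPrime ∧ Q ≠ ⊥ ∧ Q ^ 2 = Ideal.span {π j}
      · obtain ⟨Q, q1, q2, q3⟩ := hQ
        have hπ : π j ≠ 0 := fun h0 => q2 (pow_eq_zero_iff two_ne_zero |>.1 (by simpa [h0] using q3))
        have ho : ∀ P, ord P (π j) = if P = Q then 2 else 0 := fun P => by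
          rw [ord, ← q3, normalizedFactors_pow, normalizedFactors_irreducible
            (Ideal.prime_of_isPrime q2 q1).irreducible, normalize_eq, Multiset.count_nsmul,
            Multiset.count_singleton]
          split_ifs <;> rfl
        refine ⟨2 * ord Q y, pow_ne_zero _ hπ, fun P h1 h2 => ?_⟩
        rw [ord_mul _ hy (pow_ne_zero _ hπ), ord_pow, ho]
        split_ifs with h3
        · left
          subst h3
          omega
        · rcases h P h1 h2 with h4 | ⟨i, hi, h4⟩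
          · exact Or.inl (by simpa using h4)
          rcases Finset.mem_insert.1 hi with rfl | hi
          · refine absurd ?_ h3
            exact (h1.isMaximal h2).eq_of_le q1.ne_top
              (q1.le_of_pow_le ((h4.trans q3.symm).le.trans (Ideal.pow_le_self two_ne_zero)))
          · exact Or.inr ⟨i, hi, h4⟩
      · refine ⟨0, by simp, fun P h1 h2 => ?_⟩
        rcases h P h1 h2 with h4 | ⟨i, hi, h4⟩
        · exact Or.inl (by simpa using h4)
        rcases Finset.mem_insert.1 hi with rfl | hi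
        · exact absurd ⟨P, h1, h2, h4⟩ hQ
        · exact Or.inr ⟨i, hi, h4⟩
    obtain ⟨k, hk0, hk⟩ := key
    obtain ⟨b, u, t, ht0, ht⟩ := ih (mul_ne_zero hy hk0) hk
    refine ⟨Function.update b j k, u, t, ht0, ?_⟩
    rw [Finset.prod_insert hj, Function.update_self, ← mul_assoc, ← ht]
    congr 1
    exact Finset.prod_congr rfl fun i hi => by
      rw [Function.update_of_ne (ne_of_mem_of_not_mem hi hj)]

/-- The valuation of `x` at `ι` is divisible by five. -/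
def Div5 (ι : K →+* Ω) (x : K) : Prop := ∃ t : K, t ≠ 0 ∧ ‖ι x‖ = ‖ι t‖ ^ 5

theorem dvd_ord (ι : K →+* Ω) (h0 : prm ι ≠ ⊥) {a b : 𝓞 K}
    (ha : a ≠ 0) (hb : b ≠ 0) (h : Div5 ι ((a : K) / b)) : 5 ∣ ord (prm ι) (a * b ^ 4) := by
  obtain ⟨π, c0, c1, hc⟩ := exists_norm_eq_pow ι h0
  obtain ⟨t, ht, h⟩ := h
  obtain ⟨a', b', hb', rfl⟩ := IsFractionRing.div_surjective (A := 𝓞 K) t
  have ha' : a' ≠ 0 := fun h0 => ht (by simp [h0])
  rw [map_div₀, map_div₀, norm_div, norm_div, hc a ha, hc b hb, hc a' ha',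
    hc b' (nonZeroDivisors.ne_zero hb'), ← zpow_natCast, ← zpow_natCast ‖ι π‖,
    ← zpow_natCast ‖ι π‖, ← zpow_natCast ‖ι π‖, ← zpow_natCast, ← zpow_sub₀ c0.ne',
    ← zpow_sub₀ c0.ne', ← zpow_mul] at h
  have h2 := zpow_right_injective₀ c0 c1.ne h
  rw [ord_mul _ ha (pow_ne_zero _ hb), ord_pow]
  omega

/-- An element whose valuations are divisible by five outside primes with a given square. -/
theorem fifth_or (hcl : ∀ c : ClassGroup (𝓞 K), c ^ 5 = 1 → c = 1) {I : Type*} (π : I → 𝓞 K)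
    (s : Finset I) {x : K} (hx : x ≠ 0)
    (h : ∀ (l : ℕ) [Fact l.Prime] (ι : K →+* PadicAlgCl l),
      Div5 ι x ∨ ∃ i ∈ s, prm ι ^ 2 = Ideal.span {π i}) :
    ∃ (b : I → ℕ) (u : (𝓞 K)ˣ) (t : K), t ≠ 0 ∧
      x * ∏ i ∈ s, (π i : K) ^ b i = ((u : 𝓞 K) : K) * t ^ 5 := by
  obtain ⟨a, d, hd, rfl⟩ := IsFractionRing.div_surjective (A := 𝓞 K) x
  have hd0 := nonZeroDivisors.ne_zero hd
  have ha : a ≠ 0 := fun h0 => hx (by simp [h0])
  have hd1 : (d : K) ≠ 0 := by simpa using hd0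
  obtain ⟨b, u, t, ht0, ht⟩ := fifth_of_ord_or hcl π s (mul_ne_zero ha (pow_ne_zero 4 hd0))
    fun P h1 h2 => by
      obtain ⟨p, n, hp, hn, hc, -⟩ := exists_char P h2
      have := Fact.mk hp
      have h3 : ‖(p : PadicAlgCl p)‖ = (p : ℝ)⁻¹ := by
        rw [← Padic.norm_p, ← PadicAlgCl.norm_extends]
        simp
      obtain ⟨ι, rfl⟩ := exists_prm (Ω := PadicAlgCl p) P h2 (hc ▸ dvd_pow_self p hn.ne')
        (h3 ▸ inv_lt_one_of_one_lt₀ (by exact_mod_cast hp.one_lt))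
      exact (h p ι).imp_left (dvd_ord ι h2 ha hd0)
  refine ⟨b, u, t / d, div_ne_zero (by simpa using ht0) hd1, ?_⟩
  have h1 := congrArg (algebraMap (𝓞 K) K) ht
  simp only [map_mul, map_pow, map_prod] at h1
  rw [div_pow, ← mul_div_assoc, ← h1]
  field_simp

theorem fifth (hcl : ∀ c : ClassGroup (𝓞 K), c ^ 5 = 1 → c = 1) {x : K} (hx : x ≠ 0)
    (h : ∀ (l : ℕ) [Fact l.Prime] (ι : K →+* PadicAlgCl l), Div5 ι x) :
    ∃ (u : (𝓞 K)ˣ) (t : K), t ≠ 0 ∧ x = ((u : 𝓞 K) : K) * t ^ 5 := by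
  obtain ⟨b, u, t, h0, ht⟩ := fifth_or hcl (fun _ : Unit => 1) ∅ hx fun l _ ι => Or.inl (h l ι)
  exact ⟨u, t, h0, by simpa using ht⟩

theorem class_of_pid (h : IsPrincipalIdealRing (𝓞 K)) (c : ClassGroup (𝓞 K)) (_ : c ^ 5 = 1) :
    c = 1 :=
  Fintype.card_le_one_iff.1 (classNumber_eq_one_iff.2 h).le _ _

theorem eq_one_of_pow {G : Type*} [Monoid G] {k : ℕ} (hk : ¬5 ∣ k) (h : ∀ c : G, c ^ k = 1) (c : G)
    (h5 : c ^ 5 = 1) : c = 1 :=
  (pow_eq_one_iff_of_coprime ((Nat.Prime.coprime_iff_not_dvd Nat.prime_five).2 hk)).1 ⟨h5, h c⟩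

end Pool.Agent.Lib.MP_54db3e_nt.H79
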