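import Pool.Agent.Lib.MP_54db3e_nt.Stmt
import Pool.Agent.Lib.MP_54db3e_nt.H79Fifth

/-!
Subfields of the algebraic closure: extension and restriction of homomorphisms.
-/

open scoped Classical
open NumberField IntermediateField

noncomputable section

namespace Pool.Agent.Lib.MP_54db3e_nt.H79

theorem alg : Algebra.IsAlgebraic ℚ Qb := AlgebraicClosure.isAlgebraic ℚ

theorem gal : IsGalois ℚ Qb := by
  have := alg
  have : IsAlgClosure ℚ Qb := ⟨inferInstance, inferInstance⟩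
  exact {}

theorem exists_ext (F : IntermediateField ℚ Qb) {Ω : Type} [Field Ω] [IsAlgClosed Ω]
    (ι : F →+* Ω) : ∃ ι' : Qb →+* Ω, ι'.comp (algebraMap F Qb) = ι := by
  have := alg
  let := ι.toAlgebra
  let φ : Qb →ₐ[F] Ω := IsAlgClosed.lift
  exact ⟨φ, RingHom.ext φ.commutes⟩

theorem ext_adjoin {Ω : Type} [Field Ω] [CharZero Ω] (f g : Qb →+* Ω) {S : Set Qb} (h : ∀ z ∈ S, f z = g z)
    {x : Qb} (hx : x ∈ adjoin ℚ S) : f x = g x := by
  induction hx using adjoin_induction with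
  | mem x hx => exact h x hx
  | algebraMap x => simp
  | add x y _ _ h1 h2 => simp [h1, h2]
  | inv x _ h1 => simp [h1]
  | mul x y _ _ h1 h2 => simp [h1, h2]

theorem fix_adjoin (g : GQ) {r : Qb} (h : g r = r) {x : Qb} (hx : x ∈ ℚ⟮r⟯) : g x = x :=
  ext_adjoin (g : Qb →+* Qb) (RingHom.id _) (by simpa using h) hx

theorem mem_of_fixed {r x : Qb} (h : ∀ g : GQ, g r = r → g x = x) : x ∈ ℚ⟮r⟯ := by
  have := gal
  rw [← InfiniteGalois.fixedField_fixingSubgroup ℚ⟮r⟯, mem_fixedField_iff]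
  exact fun g hg => h g ((mem_fixingSubgroup_iff _ _).1 hg r (mem_adjoin_simple_self ℚ r))

/-- The restriction of an automorphism to a stable simple extension. -/
def res (g : GQ) {r : Qb} (h : g r ∈ ℚ⟮r⟯) : ℚ⟮r⟯ →+* ℚ⟮r⟯ :=
  ((g : Qb →+* Qb).comp (algebraMap ℚ⟮r⟯ Qb)).codRestrict ℚ⟮r⟯ fun x =>
    (adjoin_simple_le_iff (K := ℚ⟮r⟯.comap (g : Qb →ₐ[ℚ] Qb))).2 h x.2

theorem res_apply (g : GQ) {r : Qb} (h : g r ∈ ℚ⟮r⟯) (x : ℚ⟮r⟯) : (res g h x : Qb) = g x := rfl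

theorem fin_adjoin (r : Qb) : FiniteDimensional ℚ ℚ⟮r⟯ :=
  adjoin.finiteDimensional (alg.isAlgebraic r).isIntegral

theorem nf_adjoin (r : Qb) : NumberField ℚ⟮r⟯ := by
  have := fin_adjoin r
  exact {}

theorem finrank_adjoin {r : Qb} {c0 c1 c2 c3 : ℚ} (h : minpoly ℚ r = qr c0 c1 c2 c3) :
    Module.finrank ℚ ℚ⟮r⟯ = 4 := by
  rw [adjoin.finrank (alg.isAlgebraic r).isIntegral, h, qr_natDegree]

theorem div5_of {F : IntermediateField ℚ Qb} {l : ℕ} [Fact l.Prime] {ι : Qb →+* Om l} {x : F}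
    (h : N5 F ι x) : Div5 (ι.comp (algebraMap F Qb)) x := by
  obtain ⟨t, ht, h0, h3⟩ := h
  exact ⟨⟨t, ht⟩, fun h => h0 (congrArg Subtype.val h), h3⟩

end Pool.Agent.Lib.MP_54db3e_nt.H79
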