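import Mathlib

/-!
Explicit models of small extensions of the 5-adic numbers, and a counting lemma for units modulo
fifth powers.
-/

namespace Pool.Agent.Lib.MP_54db3e_nt.H79

open QuadraticAlgebra

/-- Evaluation of a quadratic algebra at a root. -/
def qev {A S : Type*} [CommRing A] [CommRing S] {a b : A} (f : A →+* S) (u : S)
    (hu : u * u = f a + f b * u) : QuadraticAlgebra A a b →+* S where
  toFun z := f z.re + f z.im * u
  map_one' := by simp
  map_zero' := by simp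
  map_add' x y := by simp; ring
  map_mul' x y := by
    simp only [re_mul, im_mul, map_add, map_mul]
    linear_combination -(f x.im * f y.im) * hu

theorem qev_apply {A S : Type*} [CommRing A] [CommRing S] {a b : A} (f : A →+* S) (u : S)
    (hu : u * u = f a + f b * u) (z : QuadraticAlgebra A a b) :
    qev f u hu z = f z.re + f z.im * u := rfl

/-- Change of coefficients. -/
def qmap {A A' : Type*} [CommRing A] [CommRing A'] {a b : A} {a' b' : A'} (f : A →+* A')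
    (ha : f a = a') (hb : f b = b') : QuadraticAlgebra A a b →+* QuadraticAlgebra A' a' b' where
  toFun z := ⟨f z.re, f z.im⟩
  map_one' := by ext <;> simp
  map_zero' := by ext <;> simp
  map_add' x y := by ext <;> simp
  map_mul' x y := by ext <;> simp [ha, hb]

theorem qmap_mk {A A' : Type*} [CommRing A] [CommRing A'] {a b : A} {a' b' : A'} (f : A →+* A')
    (ha : f a = a') (hb : f b = b') (x y : A) : qmap f ha hb ⟨x, y⟩ = ⟨f x, f y⟩ := rfl

theorem norm_eq_zero_of_qev {F S : Type*} [Field F] [CommRing S] [Nontrivial S] {a b : F}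
    (E : QuadraticAlgebra F a b →+* S) {z : QuadraticAlgebra F a b} (h : E z = 0) :
    z.norm = 0 := by
  by_contra h1
  exact ((isUnit_iff_norm_isUnit.2 (Ne.isUnit h1)).map E).ne_zero h

/-- A subgroup which contains the fifth powers and separates three elements consists of fifth
powers, when there are at most `125` classes modulo fifth powers. -/
theorem fifth_of_mem {U : Type*} [CommGroup U] (H : Subgroup U) (h5 : ∀ u, u ^ 5 ∈ H) (a b c : U)
    (hind : ∀ i j k : ℕ, i < 5 → j < 5 → k < 5 → a ^ i * b ^ j * c ^ k ∈ H →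
      i = 0 ∧ j = 0 ∧ k = 0)
    {I : Type*} [Fintype I] (hI : Fintype.card I ≤ 125) (f : I → U)
    (hf : ∀ u, ∃ e t, u = f e * t ^ 5) {u : U} (hu : u ∈ H) : ∃ t, u = t ^ 5 := by
  let R := (powMonoidHom 5 : U →* U).range
  have hR : R ≤ H := by
    rintro _ ⟨t, rfl⟩
    exact h5 t
  have hs : Function.Surjective fun e => (f e : U ⧸ R) := fun q => by
    obtain ⟨v, rfl⟩ := QuotientGroup.mk_surjective q
    obtain ⟨e, t, rfl⟩ := hf v
    exact ⟨e, (QuotientGroup.mk_mul_of_mem _ (show t ^ 5 ∈ R from ⟨t, rfl⟩)).symm⟩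
  have := Finite.of_surjective _ hs
  have h1 : R.index ≤ 125 :=
    (Nat.card_le_card_of_surjective _ hs).trans (by rwa [Nat.card_eq_fintype_card])
  have h0 : R.index ≠ 0 := Subgroup.index_ne_zero_of_finite
  have h2 := Subgroup.relIndex_mul_index hR
  have : Finite (U ⧸ H) := Nat.finite_of_card_ne_zero (right_ne_zero_of_mul (h2 ▸ h0))
  have key : ∀ (v : U) (i i' : Fin 5), ∃ t, (v ^ i.1)⁻¹ * v ^ i'.1 = v ^ (i' - i).1 * t ^ 5 := by
    intro v i i'
    rw [inv_mul_eq_div]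
    by_cases h : i ≤ i'
    · exact ⟨1, by rw [Fin.coe_sub_iff_le.2 h, one_pow, mul_one, pow_sub _ h, div_eq_mul_inv]⟩
    · refine ⟨v⁻¹, ?_⟩
      rw [Fin.coe_sub_iff_lt.2 (not_le.1 h), inv_pow, ← div_eq_mul_inv, div_eq_div_iff_mul_eq_mul,
        ← pow_add, ← pow_add]
      congr 1
      omega
  have hi : Function.Injective fun e : Fin 5 × Fin 5 × Fin 5 =>
      ((a ^ e.1.1 * b ^ e.2.1.1 * c ^ e.2.2.1 : U) : U ⧸ H) := by
    rintro ⟨i, j, k⟩ ⟨i', j', k'⟩ h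
    obtain ⟨t1, e1⟩ := key a i i'
    obtain ⟨t2, e2⟩ := key b j j'
    obtain ⟨t3, e3⟩ := key c k k'
    have h3 := QuotientGroup.eq.1 h
    have h4 : (a ^ i.1 * b ^ j.1 * c ^ k.1)⁻¹ * (a ^ i'.1 * b ^ j'.1 * c ^ k'.1) =
        a ^ (i' - i).1 * b ^ (j' - j).1 * c ^ (k' - k).1 * (t1 * t2 * t3) ^ 5 := by
      rw [mul_inv, mul_inv, mul_mul_mul_comm, mul_mul_mul_comm (a ^ i.1)⁻¹, e1, e2, e3, mul_pow,
        mul_pow, mul_mul_mul_comm (a ^ _), mul_mul_mul_comm]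
    simp only at h3
    rw [h4, H.mul_mem_cancel_right (h5 _)] at h3
    obtain ⟨k1, k2, k3⟩ := hind _ _ _ (Fin.is_lt _) (Fin.is_lt _) (Fin.is_lt _) h3
    rw [Fin.val_eq_zero_iff, sub_eq_zero] at k1 k2 k3
    rw [k1, k2, k3]
  have h3 : 125 ≤ H.index := by simpa [Subgroup.index] using Nat.card_le_card_of_injective _ hi
  have h4 : R.relIndex H = 1 := by
    have h5 := left_ne_zero_of_mul (h2 ▸ h0)
    by_contra h6
    have : 2 * 125 ≤ R.relIndex H * H.index := Nat.mul_le_mul (by omega) h3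
    omega
  obtain ⟨t, ht⟩ := Subgroup.relIndex_eq_one.1 h4 hu
  exact ⟨t, ht.symm⟩

section padic

variable {p : ℕ} [Fact p.Prime]

theorem norm_alg (x : ℚ_[p]) : ‖algebraMap ℚ_[p] (PadicAlgCl p) x‖ = ‖x‖ :=
  PadicAlgCl.norm_extends p x

/-- The integers of `ℚ_[p]` inside the algebraic closure. -/
noncomputable def zi (p : ℕ) [Fact p.Prime] : ℤ_[p] →+* PadicAlgCl p :=
  (algebraMap ℚ_[p] (PadicAlgCl p)).comp PadicInt.Coe.ringHom

theorem zi_apply (x : ℤ_[p]) : zi p x = algebraMap ℚ_[p] (PadicAlgCl p) x := rfl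

theorem norm_zi (x : ℤ_[p]) : ‖zi p x‖ = ‖x‖ := norm_alg _

theorem mem_adjoin_of_fixed {S : Set (PadicAlgCl p)} {y : PadicAlgCl p}
    (h : ∀ γ : PadicAlgCl p ≃ₐ[ℚ_[p]] PadicAlgCl p, (∀ x ∈ S, γ x = x) → γ y = y) :
    y ∈ IntermediateField.adjoin ℚ_[p] S := by
  have : IsGalois ℚ_[p] (PadicAlgCl p) := {}
  rw [← InfiniteGalois.fixedField_fixingSubgroup (IntermediateField.adjoin ℚ_[p] S),
    IntermediateField.mem_fixedField_iff]
  exact fun γ hγ => h γ fun x hx => (IntermediateField.mem_fixingSubgroup_iff _ _).1 hγ x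
    (IntermediateField.subset_adjoin _ _ hx)

theorem mem_of_mem_adjoin {z y : PadicAlgCl p} (R : Subring (PadicAlgCl p))
    (h1 : ∀ x : ℚ_[p], algebraMap _ _ x ∈ R) (h2 : z ∈ R)
    (hy : y ∈ IntermediateField.adjoin ℚ_[p] {z}) : y ∈ R := by
  rw [← IntermediateField.mem_toSubalgebra,
    IntermediateField.adjoin_simple_toSubalgebra_of_isAlgebraic
      (Algebra.IsAlgebraic.isAlgebraic z)] at hy
  exact Algebra.adjoin_le (S := { R with algebraMap_mem' := h1 }) (by simpa using h2) hy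

/-- Coordinates with respect to the powers of a uniformizer of a totally ramified extension. -/
theorem norm_coord_le {e : ℕ} {l : PadicAlgCl p} (hl : ‖l‖ ^ e = (p : ℝ)⁻¹) (β : Fin e → ℚ_[p])
    (i : Fin e) : ‖β i‖ * ‖l‖ ^ i.1 ≤ ‖∑ j, algebraMap _ _ (β j) * l ^ j.1‖ := by
  have hp : (1 : ℝ) < p := by exact_mod_cast (Fact.out : p.Prime).one_lt
  have he : 0 < e := i.pos
  have l0 : 0 < ‖l‖ := lt_of_le_of_ne (norm_nonneg _) fun h => by
    rw [← h, zero_pow he.ne'] at hl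
    exact (inv_pos.2 (by linarith)).ne hl
  have l1 : ‖l‖ ≠ 1 := fun h => by
    rw [h, one_pow] at hl
    exact (inv_lt_one_of_one_lt₀ hp).ne hl.symm
  obtain ⟨i0, -, h0⟩ := Finset.exists_max_image Finset.univ
    (fun j : Fin e => ‖β j‖ * ‖l‖ ^ j.1) ⟨i, Finset.mem_univ i⟩
  refine (h0 i (Finset.mem_univ i)).trans ?_
  by_cases hb : β i0 = 0
  · simp [hb]
  have hv : ∀ j, β j ≠ 0 → ‖β j‖ * ‖l‖ ^ j.1 = ‖l‖ ^ (e * (β j).valuation + j.1 : ℤ) := by
    intro j hj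
    rw [Padic.norm_eq_zpow_neg_valuation hj, zpow_add₀ l0.ne', zpow_mul, zpow_natCast,
      zpow_natCast, hl, inv_zpow']
  have hn : ∀ j, ‖algebraMap _ (PadicAlgCl p) (β j) * l ^ j.1‖ = ‖β j‖ * ‖l‖ ^ j.1 := fun j => by
    rw [norm_mul, norm_pow, norm_alg]
  have h1 : ‖∑ j ∈ Finset.univ.erase i0, algebraMap _ (PadicAlgCl p) (β j) * l ^ j.1‖ <
      ‖β i0‖ * ‖l‖ ^ i0.1 := by
    have hpos : 0 < ‖β i0‖ * ‖l‖ ^ i0.1 := mul_pos (norm_pos_iff.2 hb) (pow_pos l0 _)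
    rcases (Finset.univ.erase i0).eq_empty_or_nonempty with h | h
    · simpa [h] using hpos
    obtain ⟨j, hj, h2⟩ := IsUltrametricDist.exists_norm_finsetSum_le_of_nonempty h
      fun j => algebraMap _ (PadicAlgCl p) (β j) * l ^ j.1
    refine h2.trans_lt (lt_of_le_of_ne (hn j ▸ h0 j (Finset.mem_univ j)) fun h3 => ?_)
    rw [hn] at h3
    have hj0 : β j ≠ 0 := fun h4 => by simp [h4, hb, l0.ne'] at h3
    rw [hv j hj0, hv i0 hb] at h3
    have h4 := zpow_right_injective₀ l0 l1 h3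
    have h5 : (e : ℤ) ∣ (j.1 : ℤ) - i0.1 := ⟨(β i0).valuation - (β j).valuation, by linarith⟩
    have h6 := Int.eq_zero_of_abs_lt_dvd h5 (by have := j.2; have := i0.2; rw [abs_lt]; omega)
    exact (Finset.mem_erase.1 hj).1 (Fin.ext (by omega))
  rw [← Finset.add_sum_erase _ _ (Finset.mem_univ i0),
    IsUltrametricDist.norm_add_eq_max_of_norm_ne_norm (by rw [hn]; exact h1.ne'), hn]
  exact le_max_left _ _

theorem coord_int {e : ℕ} {l : PadicAlgCl p} (hl : ‖l‖ ^ e = (p : ℝ)⁻¹) (β : Fin e → ℚ_[p])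
    (h : ‖∑ j, algebraMap _ _ (β j) * l ^ j.1‖ ≤ 1) (i : Fin e) : ‖β i‖ ≤ 1 := by
  have hp : (1 : ℝ) < p := by exact_mod_cast (Fact.out : p.Prime).one_lt
  have h1 := (norm_coord_le hl β i).trans h
  have l1 : ‖l‖ < 1 := lt_of_pow_lt_pow_left₀ e zero_le_one (by
    rw [hl, one_pow]; exact inv_lt_one_of_one_lt₀ hp)
  have l0 : 0 < ‖l‖ := lt_of_le_of_ne (norm_nonneg _) fun h => by
    rw [← h, zero_pow i.pos.ne'] at hl
    exact (inv_pos.2 (by linarith)).ne hl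
  have h2 : (p : ℝ)⁻¹ < ‖l‖ ^ i.1 := hl ▸ pow_lt_pow_right_of_lt_one₀ l0 l1 i.2
  by_contra h3
  have h4 := (Padic.norm_le_pow_iff_norm_lt_pow_add_one (β i) 0).not.1 (by simpa using h3)
  simp only [zero_add, zpow_one, not_lt] at h4
  have h5 := mul_lt_mul_of_pos_left h2 (by linarith : (0 : ℝ) < p)
  rw [mul_inv_cancel₀ (by linarith)] at h5
  have h6 := mul_le_mul_of_nonneg_right h4 (pow_pos l0 i.1).le
  linarith

theorem coord_zero {e : ℕ} {l : PadicAlgCl p} (hl : ‖l‖ ^ e = (p : ℝ)⁻¹) (β : Fin e → ℚ_[p])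
    (h : ∑ j, algebraMap _ _ (β j) * l ^ j.1 = 0) (i : Fin e) : β i = 0 := by
  have h1 := norm_coord_le hl β i
  rw [h, _root_.norm_zero] at h1
  have hp : (0 : ℝ) < p := by exact_mod_cast (Fact.out : p.Prime).pos
  have l0 : 0 < ‖l‖ := lt_of_le_of_ne (norm_nonneg _) fun h => by
    rw [← h, zero_pow i.pos.ne'] at hl
    exact (inv_pos.2 hp).ne hl
  exact norm_le_zero_iff.1 (nonpos_of_mul_nonpos_left h1 (pow_pos l0 _))

theorem norm_eq_one_of_toZMod {x : ℤ_[p]} (h : PadicInt.toZMod x ≠ 0) : ‖x‖ = 1 := by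
  rw [← PadicInt.isUnit_iff, ← IsLocalRing.notMem_maximalIdeal, ← PadicInt.ker_toZMod]
  exact h

/-- Coordinates in an unramified quadratic extension. -/
theorem norm_coord_unram {δ : ℤ_[p]} {ρ : PadicAlgCl p} (hρ : ρ * ρ = zi p δ)
    (hδ : ∀ x : ZMod p, x * x ≠ PadicInt.toZMod δ) (α β : ℚ_[p]) :
    max ‖α‖ ‖β‖ ≤ ‖algebraMap _ _ α + algebraMap _ _ β * ρ‖ := by
  have d1 : ‖δ‖ = 1 := norm_eq_one_of_toZMod fun h => hδ 0 (by simp [h])
  have r1 : ‖ρ‖ = 1 := by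
    have h := congrArg Norm.norm hρ
    rw [norm_mul, norm_zi, d1] at h
    nlinarith [norm_nonneg ρ]
  have h1 : ‖algebraMap _ _ α - algebraMap _ _ β * ρ‖ ≤ max ‖α‖ ‖β‖ := by
    simpa [norm_alg, r1, sub_eq_add_neg] using IsUltrametricDist.norm_add_le_max
      (algebraMap _ (PadicAlgCl p) α) (-(algebraMap _ _ β * ρ))
  have h2 : ‖α * α - δ * (β * β)‖ = max ‖α‖ ‖β‖ * max ‖α‖ ‖β‖ := by
    have d2 : ‖(δ : ℚ_[p])‖ = 1 := d1
    rcases le_or_gt ‖α‖ ‖β‖ with h | h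
    · rw [max_eq_right h]
      by_cases hb : β = 0
      · simp_all
      let x : ℤ_[p] := ⟨α / β, by rw [norm_div]; exact div_le_one_of_le₀ h (norm_nonneg _)⟩
      have h3 : ‖x * x - δ‖ = 1 := norm_eq_one_of_toZMod (by
        rw [map_sub, map_mul]; exact sub_ne_zero.2 (hδ _))
      have h4 : α * α - δ * (β * β) = ((x * x - δ : ℤ_[p]) : ℚ_[p]) * (β * β) := by
        push_cast [x]
        field_simp
      rw [h4, norm_mul, PadicInt.padic_norm_e_of_padicInt, h3, one_mul, norm_mul]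
    · have h3 : ‖β‖ * ‖β‖ < ‖α‖ * ‖α‖ := mul_self_lt_mul_self (norm_nonneg _) h
      rw [max_eq_left h.le, sub_eq_add_neg, IsUltrametricDist.norm_add_eq_max_of_norm_ne_norm
        (by simpa [d2] using h3.ne')]
      simpa [d2] using h3.le
  have h3 : (algebraMap _ _ α + algebraMap _ _ β * ρ) * (algebraMap _ _ α - algebraMap _ _ β * ρ) =
      algebraMap _ (PadicAlgCl p) (α * α - δ * (β * β)) := by
    simp only [map_sub, map_mul, ← zi_apply, ← hρ]
    ring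
  have h4 := congrArg Norm.norm h3
  rw [norm_mul, norm_alg, h2] at h4
  rcases (le_max_of_le_left (norm_nonneg α) : 0 ≤ max ‖α‖ ‖β‖).eq_or_lt with h | h
  · exact h ▸ norm_nonneg _
  exact le_of_mul_le_mul_right (h4.ge.trans (mul_le_mul_of_nonneg_left h1 (norm_nonneg _))) h

/-- A fifth root in the quadratic extension of an integral element has integral coordinates. -/
theorem exists_root_quad {δ : ℤ_[p]} {ρ : PadicAlgCl p} (hρ : ρ * ρ = zi p δ + zi p 0 * ρ)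
    (hc : ∀ α β : ℚ_[p], ∀ c ∈ ({0, 1} : Set ℝ),
      ‖algebraMap _ _ α + algebraMap _ _ β * ρ‖ ≤ c → ‖α‖ ≤ c ∧ ‖β‖ ≤ c)
    (W : QuadraticAlgebra ℤ_[p] δ 0) {y : PadicAlgCl p}
    (hy : y ∈ IntermediateField.adjoin ℚ_[p] {ρ}) (h5 : y ^ 5 = qev (zi p) ρ hρ W)
    (h1 : ‖y‖ ≤ 1) : ∃ Y, Y ^ 5 = W := by
  obtain ⟨Z, rfl⟩ := mem_of_mem_adjoin
    (qev (a := (δ : ℚ_[p])) (b := 0) (algebraMap ℚ_[p] (PadicAlgCl p)) ρ
      (by simpa [zi_apply] using hρ)).range (fun x => ⟨⟨x, 0⟩, by simp [qev_apply]⟩)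
      ⟨⟨0, 1⟩, by simp [qev_apply]⟩ hy
  obtain ⟨k1, k2⟩ := hc Z.re Z.im 1 (by simp) h1
  refine ⟨⟨⟨Z.re, k1⟩, ⟨Z.im, k2⟩⟩, ?_⟩
  refine (injective_iff_map_eq_zero (qev (zi p) ρ hρ)).2 (fun z hz => ?_) (by rw [map_pow, ← h5]; rfl)
  obtain ⟨k3, k4⟩ := hc z.re z.im 0 (by simp) (norm_le_zero_iff.2 hz)
  ext
  · simpa using k3
  · simpa using k4

end padic

end Pool.Agent.Lib.MP_54db3e_nt.H79
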