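import Pool.Agent.Lib.MP_54db3e_nt.H79Class
import Pool.Agent.Lib.MP_54db3e_nt.H79Fifth
import Pool.Agent.Lib.MP_54db3e_nt.H79Loc

/-!
The odd weights: in the totally real quartic field of discriminant `4205`, an element of the minus
part with all valuations divisible by five, which is a fifth power at one place over `5` and at one
place over `659`, is a fifth power.
-/

namespace Pool.Agent.Lib.MP_54db3e_nt.H79

open NumberField Module IntermediateField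

instance : Fact (Nat.Prime 659) := ⟨by norm_num⟩
instance : Fact (Nat.Prime 5) := ⟨by norm_num⟩

variable {K : Type*} [Field K] [NumberField K]

omit [NumberField K] in
theorem char_eq {P : Ideal (𝓞 K)} (hP : P ≠ ⊤) {p l : ℕ} (hp : p.Prime) (hl : l.Prime)
    (h1 : (p : 𝓞 K) ∈ P) (h2 : (l : 𝓞 K) ∈ P) : p = l := by
  by_contra h
  obtain ⟨a, b, hab⟩ := ((Nat.coprime_primes hp hl).2 h).cast (R := 𝓞 K)
  exact hP ((Ideal.eq_top_iff_one P).2 (hab ▸ add_mem (P.mul_mem_left _ h1) (P.mul_mem_left _ h2)))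

theorem residue659 (hK : finrank ℚ K = 4) {R : 𝓞 K} (hr : (R : K) ^ 4 - 7 * (R : K) ^ 2 + 5 = 0)
    (P : Ideal (𝓞 K)) [hP : P.IsPrime] (h : (659 : 𝓞 K) ∈ P) {s : ℤ} (hs : s = 50 ∨ s = -50)
    (hq : R ^ 2 - s * R + 258 ∈ P) {z : 𝓞 K} (hz : z ∉ P) :
    Ideal.Quotient.mk P z ^ 434280 = 1 := by
  obtain ⟨p, n, hp, hn, hc, hpP, hF, -⟩ := exists_char P fun h0 => by simp [h0] at h
  obtain rfl : p = 659 := char_eq hP.ne_top hp Fact.out hpP (by exact_mod_cast h)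
  have h1 : Ideal.absNorm (Ideal.span {R ^ 2 - s * R + 258}) = 3528533125 := absNorm_span _ (by
    rw [(trace_norm_r hK hr 258 (-s) 1 0 (by simp [map_ofNat]; ring)).2, det4]
    rcases hs with rfl | rfl <;> norm_num)
  have h2 := Ideal.absNorm_dvd_absNorm_of_le ((Ideal.span_singleton_le_iff_mem P).2 hq)
  rw [hc, h1] at h2
  have h3 : n ≤ 2 := by
    by_contra h4
    exact absurd ((pow_dvd_pow 659 (by omega : 3 ≤ n)).trans h2) (by norm_num)
  have h4 : ∀ x, Ideal.Quotient.mk P x ^ 659 ^ n = Ideal.Quotient.mk P x := fun x => by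
    rw [← map_pow, Ideal.Quotient.eq]
    exact hF x
  have h5 : Ideal.Quotient.mk P z ^ (434280 + 1) = Ideal.Quotient.mk P z := by
    obtain rfl | rfl : n = 1 ∨ n = 2 := by omega
    · rw [show 434280 + 1 = 659 ^ 1 * 659 ^ 1 by norm_num, pow_mul, h4, h4]
    · rw [show 434280 + 1 = 659 ^ 2 by norm_num, h4]
  rw [pow_succ] at h5
  exact (mul_eq_right₀ (mt Ideal.Quotient.eq_zero_iff_mem.1 hz)).1 h5

/-- The units whose residue is a fifth power. -/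
noncomputable def res5 (P : Ideal (𝓞 K)) : Subgroup (𝓞 K)ˣ :=
  ((powMonoidHom 86856).comp
    ((Ideal.Quotient.mk P).toMonoidHom.comp (Units.coeHom (𝓞 K)))).ker

omit [NumberField K] in
theorem mem_res5 {P : Ideal (𝓞 K)} {u : (𝓞 K)ˣ} :
    u ∈ res5 P ↔ Ideal.Quotient.mk P u ^ 86856 = 1 := Iff.rfl

omit [NumberField K] in
theorem log659 {P : Ideal (𝓞 K)} [hP : P.IsPrime] (h : (659 : 𝓞 K) ∈ P) {R W : 𝓞 K} {s : ℤ}
    (hq : R ^ 2 - s * R + 258 ∈ P) (hW : 2 * W = 1 + R + R ^ 2) {a b c : (𝓞 K)ˣ}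
    (ha : (a : 𝓞 K) = 6 - R ^ 2) (hb : (b : 𝓞 K) = R - 1) (hc : (c : 𝓞 K) = W - 1) {i j k : ℕ}
    (hm : a ^ i * b ^ j * c ^ k ∈ res5 P) :
    QuadraticAlgebra.norm (((⟨264, -s⟩ : QuadraticAlgebra (ZMod 659) (-258) s) ^ 86856) ^ i *
      (⟨-1, 1⟩ ^ 86856) ^ j * (⟨200, 330 * (1 + s)⟩ ^ 86856) ^ k - 1) = 0 := by
  have h0 : ((659 : ℕ) : 𝓞 K ⧸ P) = 0 := by
    rw [← map_natCast (Ideal.Quotient.mk P), Ideal.Quotient.eq_zero_iff_mem]
    exact_mod_cast h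
  have : CharP (𝓞 K ⧸ P) 659 := (CharP.charP_iff_prime_eq_zero Fact.out).2 h0
  have h1 := Ideal.Quotient.eq_zero_iff_mem.2 hq
  have h2 := congrArg (Ideal.Quotient.mk P) hW
  simp only [map_add, map_sub, map_mul, map_pow, map_intCast, map_ofNat, map_one] at h1 h2
  push_cast at h0
  let E := qev (a := -258) (b := (s : ZMod 659)) (ZMod.castHom (dvd_refl 659) (𝓞 K ⧸ P))
    (Ideal.Quotient.mk P R) (by
      simp only [map_neg, map_ofNat, map_intCast]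
      linear_combination h1)
  refine norm_eq_zero_of_qev E ?_
  have e1 : E ⟨264, -s⟩ = Ideal.Quotient.mk P a := by
    simp only [E, qev_apply, ha, map_neg, map_ofNat, map_intCast, map_sub, map_pow]
    linear_combination h1
  have e2 : E ⟨-1, 1⟩ = Ideal.Quotient.mk P b := by
    simp only [E, qev_apply, hb, map_neg, map_one, map_sub]
    ring
  have e3 : E ⟨200, 330 * (1 + s)⟩ = Ideal.Quotient.mk P c := by
    simp only [E, qev_apply, hc, map_ofNat, map_intCast, map_sub, map_one, map_mul, map_add]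
    linear_combination -330 * h1 - 330 * h2 + (Ideal.Quotient.mk P W + 129) * h0
  rw [mem_res5] at hm
  simp only [Units.val_mul, Units.val_pow_eq_pow_val, map_mul, map_pow, mul_pow] at hm
  simp only [map_sub, map_mul, map_pow, map_one, e1, e2, e3, ← pow_mul]
  simp only [← pow_mul, mul_comm _ 86856] at hm
  rw [hm, sub_self]

theorem log_plus : ∀ i < 5, ∀ j < 5, ∀ k < 5, QuadraticAlgebra.norm
    (((⟨264, -(50 : ℤ)⟩ : QuadraticAlgebra (ZMod 659) (-258) (50 : ℤ)) ^ 86856) ^ i *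
      (⟨-1, 1⟩ ^ 86856) ^ j * (⟨200, 330 * (1 + (50 : ℤ))⟩ ^ 86856) ^ k - 1) = 0 →
    5 ∣ 3 * i + k := by
  have e : ∀ x : QuadraticAlgebra (ZMod 659) (-258) (50 : ℤ),
      x ^ 86856 = ((((x ^ 8) ^ 3) ^ 7) ^ 11) ^ 47 := fun x => by simp only [← pow_mul]
  rw [e, e, e]
  decide +kernel

theorem log_minus : ∀ i < 5, ∀ j < 5, ∀ k < 5, QuadraticAlgebra.norm
    (((⟨264, -(-50 : ℤ)⟩ : QuadraticAlgebra (ZMod 659) (-258) (-50 : ℤ)) ^ 86856) ^ i *
      (⟨-1, 1⟩ ^ 86856) ^ j * (⟨200, 330 * (1 + (-50 : ℤ))⟩ ^ 86856) ^ k - 1) = 0 →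
    5 ∣ 3 * i + 2 * j + k := by
  have e : ∀ x : QuadraticAlgebra (ZMod 659) (-258) (-50 : ℤ),
      x ^ 86856 = ((((x ^ 8) ^ 3) ^ 7) ^ 11) ^ 47 := fun x => by simp only [← pow_mul]
  rw [e, e, e]
  decide +kernel

/-- The units which are fifth powers in a given local field. -/
def loc5 (ι : K →+* PadicAlgCl 5) (L : IntermediateField ℚ_[5] (PadicAlgCl 5)) :
    Subgroup (𝓞 K)ˣ where
  carrier := {u | ∃ y ∈ L, y ^ 5 = ι (u : 𝓞 K)}
  one_mem' := ⟨1, one_mem _, by simp⟩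
  mul_mem' := by
    rintro u v ⟨y, hy, h⟩ ⟨y', hy', h'⟩
    exact ⟨y * y', mul_mem hy hy', by simp [mul_pow, h, h']⟩
  inv_mem' := by
    rintro u ⟨y, hy, h⟩
    refine ⟨y⁻¹, inv_mem hy, ?_⟩
    rw [inv_pow, h]
    exact (map_units_inv (ι.comp (algebraMap (𝓞 K) K)) u).symm

theorem pow5_add (A : Type*) [CommRing A] (h : (25 : A) = 0) (y z : A) :
    (y + 5 * z) ^ 5 = y ^ 5 := by
  linear_combination
    (y ^ 4 * z + 10 * y ^ 3 * z ^ 2 + 50 * y ^ 2 * z ^ 3 + 125 * y * z ^ 4 + 125 * z ^ 5) * h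

theorem zmod25 : ∀ x : ZMod 25, ∃ a : Fin 5, ∃ b : Fin 5, x = a.1 + 5 * b.1 := by decide

theorem exists_red (d : ZMod 25) (Y : QuadraticAlgebra (ZMod 25) d 0) :
    ∃ a b : Fin 5, Y ^ 5 = (⟨a.1, b.1⟩ : QuadraticAlgebra (ZMod 25) d 0) ^ 5 := by
  obtain ⟨a, a', h1⟩ := zmod25 Y.re
  obtain ⟨b, b', h2⟩ := zmod25 Y.im
  refine ⟨a, b, ?_⟩
  rw [← pow5_add _ (by ext <;> rfl) (⟨a.1, b.1⟩ : QuadraticAlgebra (ZMod 25) d 0) ⟨a'.1, b'.1⟩]
  congr 1
  ext <;> simp [h1, h2, QuadraticAlgebra.re_ofNat, QuadraticAlgebra.im_ofNat]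

theorem fin17 : ∀ i < 5, ∀ j < 5, ∀ k < 5, (∃ a b : Fin 5,
    (⟨a.1, b.1⟩ : QuadraticAlgebra (ZMod 25) 17 0) ^ 5 =
      ⟨6 - 17, 0⟩ ^ i * ⟨-1, 1⟩ ^ j * ⟨13 * (1 + 17) - 1, 13⟩ ^ k) → 5 ∣ 4 * j + 3 * k := by
  decide +kernel

theorem fin15 : ∀ i < 5, ∀ j < 5, ∀ k < 5, (∃ a b : Fin 5,
    (⟨a.1, b.1⟩ : QuadraticAlgebra (ZMod 25) 15 0) ^ 5 =
      ⟨6 - 15, 0⟩ ^ i * ⟨-1, 1⟩ ^ j * ⟨13 * (1 + 15) - 1, 13⟩ ^ k) → 5 ∣ j + k := by
  decide +kernel

theorem exists_delta {ρ : PadicAlgCl 5} (h : ρ ^ 4 - 7 * ρ ^ 2 + 5 = 0) :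
    ∃ δ : ℤ_[5], ρ * ρ = zi 5 δ ∧ δ ^ 2 - 7 * δ + 5 = 0 := by
  obtain ⟨z, hz, -⟩ := hensels_lemma (p := 5) (R := ℤ_[5])
    (F := Polynomial.X ^ 2 - 7 * Polynomial.X + 5) (a := 0) (by
      have h1 : ‖(7 : ℤ_[5])‖ = 1 := norm_eq_one_of_toZMod (by rw [map_ofNat]; decide)
      have h2 : ‖(5 : ℤ_[5])‖ < 1 := by simpa using PadicInt.norm_p (p := 5) ▸ by norm_num
      simpa [h1, map_ofNat] using h2)
  simp only [map_add, map_sub, map_mul, map_pow, Polynomial.aeval_X, map_ofNat] at hz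
  have h1 := congrArg (zi 5) hz
  simp only [map_add, map_sub, map_mul, map_pow, map_ofNat, map_zero] at h1
  have h2 : (ρ * ρ - zi 5 z) * (ρ * ρ - (7 - zi 5 z)) = 0 := by linear_combination h - h1
  rcases mul_eq_zero.1 h2 with h3 | h3
  · exact ⟨z, sub_eq_zero.1 h3, hz⟩
  · exact ⟨7 - z, by rw [map_sub, map_ofNat]; exact sub_eq_zero.1 h3, by linear_combination hz⟩

omit [NumberField K] in
theorem log5 (ι : K →+* PadicAlgCl 5) {R W : 𝓞 K} (hr : (R : K) ^ 4 - 7 * (R : K) ^ 2 + 5 = 0)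
    (hW : 2 * W = 1 + R + R ^ 2) {a b c : (𝓞 K)ˣ}
    (ha : (a : 𝓞 K) = 6 - R ^ 2) (hb : (b : 𝓞 K) = R - 1) (hc : (c : 𝓞 K) = W - 1) {i j k : ℕ}
    (hi : i < 5) (hj : j < 5) (hk : k < 5)
    (hm : a ^ i * b ^ j * c ^ k ∈ loc5 ι ℚ_[5]⟮ι R⟯) : 5 ∣ 4 * j + 3 * k ∨ 5 ∣ j + k := by
  obtain ⟨δ, h1, h2⟩ := exists_delta (ρ := ι R) (by
    simpa only [map_add, map_sub, map_mul, map_pow, map_ofNat, map_zero] using congrArg ι hr)
  obtain ⟨h, hh⟩ := (PadicInt.isUnit_iff.2 (norm_eq_one_of_toZMod (x := (2 : ℤ_[5]))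
    (by rw [map_ofNat]; decide))).exists_right_inv
  have hρ : ι R * ι R = zi 5 δ + zi 5 0 * ι R := by simp [h1]
  let ψ := ι.comp (algebraMap (𝓞 K) K)
  have e0 : ψ R = ι R := rfl
  have k1 := congrArg ψ hW
  have k2 := congrArg (zi 5) hh
  simp only [map_add, map_mul, map_pow, map_ofNat, map_one, e0] at k1 k2
  obtain ⟨y, hy, h5⟩ := hm
  have h6 : ‖y‖ ≤ 1 := le_of_pow_le_pow_left₀ (n := 5) (by norm_num) zero_le_one (by
    rw [← norm_pow, h5, one_pow]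
    exact norm_le_one ι _)
  have h7 : y ^ 5 = qev (zi 5) (ι R) hρ
      (⟨6 - δ, 0⟩ ^ i * ⟨-1, 1⟩ ^ j * ⟨h * (1 + δ) - 1, h⟩ ^ k) := by
    rw [h5]
    change ψ _ = _
    simp only [Units.val_mul, Units.val_pow_eq_pow_val, map_mul, map_pow, ha, hb, hc, qev_apply,
      map_sub, map_add, map_one, map_neg, map_zero, map_ofNat, e0, ← h1]
    congr 3
    · ring
    · ring
    · linear_combination zi 5 h * k1 - ψ W * k2
  have k3 := congrArg (PadicInt.toZModPow 2) h2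
  have k4 := congrArg (PadicInt.toZModPow 2) hh
  have k5 := congrArg PadicInt.toZMod h2
  simp only [map_add, map_sub, map_mul, map_pow, map_ofNat, map_zero, map_one] at k3 k4 k5
  have d1 : ∀ x : ZMod (5 ^ 2), x ^ 2 - 7 * x + 5 = 0 → x = 17 ∨ x = 15 := by decide
  have d2 : ∀ x : ZMod (5 ^ 2), 2 * x = 1 → x = 13 := by decide
  have d3 : ∀ x : ZMod 5, x ^ 2 - 7 * x + 5 = 0 → x = 0 ∨ ∀ z, z * z ≠ x := by decide
  obtain ⟨Y, hY⟩ := exists_root_quad hρ (fun α β c hc h8 => by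
    rcases d3 _ k5 with h9 | h9
    · have n1 : ‖δ‖ * ‖δ - 7‖ = (5 : ℝ)⁻¹ := by
        rw [← norm_mul, show δ * (δ - 7) = -((5 : ℕ) : ℤ_[5]) by push_cast; linear_combination h2,
          norm_neg, PadicInt.norm_p]
        rfl
      rw [norm_eq_one_of_toZMod (x := δ - 7) (by rw [map_sub, h9, map_ofNat]; decide),
        mul_one] at n1
      have n2 : ‖ι R‖ ^ 2 = ((5 : ℕ) : ℝ)⁻¹ := by
        rw [← norm_pow, sq, h1, norm_zi, n1]
        rfl
      rcases hc with rfl | rfl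
      · have := coord_zero n2 ![α, β] (by simpa using h8)
        exact ⟨norm_le_zero_iff.2 (this 0), norm_le_zero_iff.2 (this 1)⟩
      · have := coord_int n2 ![α, β] (by simpa using h8)
        exact ⟨this 0, this 1⟩
    · exact max_le_iff.1 ((norm_coord_unram h1 h9 α β).trans h8)) _ hy h7 h6
  rcases d1 _ k3 with h8 | h8
  · have h9 := congrArg (qmap (PadicInt.toZModPow 2) h8 (map_zero _)) hY
    simp only [map_mul, map_pow, qmap_mk, map_sub, map_add, map_one, map_neg, map_zero, map_ofNat,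
      h8, d2 _ k4] at h9
    obtain ⟨s, t, hst⟩ := exists_red 17 (qmap (PadicInt.toZModPow 2) h8 (map_zero _) Y)
    exact Or.inl (fin17 i hi j hj k hk ⟨s, t, hst.symm.trans h9⟩)
  · have h9 := congrArg (qmap (PadicInt.toZModPow 2) h8 (map_zero _)) hY
    simp only [map_mul, map_pow, qmap_mk, map_sub, map_add, map_one, map_neg, map_zero, map_ofNat,
      h8, d2 _ k4] at h9
    obtain ⟨s, t, hst⟩ := exists_red 15 (qmap (PadicInt.toZModPow 2) h8 (map_zero _) Y)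
    exact Or.inr (fin15 i hi j hj k hk ⟨s, t, hst.symm.trans h9⟩)

theorem units_cover (hK : finrank ℚ K = 4) [IsTotallyReal K] :
    ∃ f : (Fin (Units.rank K) → Fin 5) → (𝓞 K)ˣ, Fintype.card (Fin (Units.rank K) → Fin 5) ≤ 125 ∧
      ∀ u, ∃ e t, u = f e * t ^ 5 := by
  refine ⟨fun e => ∏ i, Units.fundSystem K i ^ (e i).1, ?_, fun u => ?_⟩
  · have h1 := InfinitePlace.card_add_two_mul_card_eq_rank K
    have h2 := InfinitePlace.card_eq_nrRealPlaces_add_nrComplexPlaces K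
    have h3 : Units.rank K ≤ 3 := by
      unfold Units.rank
      omega
    simpa using Nat.pow_le_pow_right (by norm_num : 0 < 5) h3
  obtain ⟨⟨⟨z, hz⟩, e⟩, rfl, -⟩ := Units.exist_unique_eq_mul_prod K u
  obtain ⟨n, hn, h1⟩ := isOfFinOrder_iff_pow_eq_one.1 hz
  obtain ⟨v⟩ : Nonempty (InfinitePlace K) := inferInstance
  let φ := (InfinitePlace.embedding_of_isReal (IsTotallyReal.isReal v)).comp (algebraMap (𝓞 K) K)
  have hφ : Function.Injective φ := fun a b h => FaithfulSMul.algebraMap_injective (𝓞 K) K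
    ((InfinitePlace.embedding_of_isReal (IsTotallyReal.isReal v)).injective h)
  have h2 : φ z ^ n = 1 := by rw [← map_pow, ← Units.val_pow_eq_pow_val, h1]; simp
  have h3 : z = z ^ 5 := by
    refine Units.ext (hφ ?_)
    rw [Units.val_pow_eq_pow_val, map_pow]
    rcases (pow_eq_one_iff_of_ne_zero hn.ne').1 h2 with h | ⟨h, -⟩ <;> rw [h] <;> norm_num
  refine ⟨fun i => ⟨(e i % 5).toNat, by omega⟩, z * ∏ i, Units.fundSystem K i ^ (e i / 5), ?_⟩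
  rw [mul_pow, ← h3, mul_left_comm, ← Finset.prod_pow, ← Finset.prod_mul_distrib]
  congr 1
  refine Finset.prod_congr rfl fun i _ => ?_
  rw [← zpow_natCast, ← zpow_natCast, ← zpow_mul, ← zpow_add]
  congr 1
  change e i = ((e i % 5).toNat : ℤ) + e i / 5 * (5 : ℕ)
  omega

/-- The end of the argument for the odd weights. -/
theorem go_end (hK : finrank ℚ K = 4) {r : K} (hr : r ^ 4 - 7 * r ^ 2 + 5 = 0) (τ : K →+* K)
    (hτ : τ r = -r) {Ω : Type*} [NormedField Ω] [IsUltrametricDist Ω] (h659 : ‖(659 : Ω)‖ < 1)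
    (ι9 : K →+* Ω) (ι5 : K →+* PadicAlgCl 5) {x : K} (hx0 : x ≠ 0)
    (hx : ∀ (l : ℕ) [Fact l.Prime] (ι : K →+* PadicAlgCl l), Div5 ι x)
    (hm : ∃ s, x * τ x = s ^ 5) (h5 : ∃ y ∈ ℚ_[5]⟮ι5 r⟯, y ^ 5 = ι5 x)
    (h9 : ∃ y : Ω, y ^ 5 = ι9 x ∧ ∀ t : K, ‖y * ι9 t‖ = 1 →
      ‖(y * ι9 t) ^ (659 ^ 8 - 1) - 1‖ < 1) : ∃ t, x = t ^ 5 := by
  obtain ⟨u, t, ht0, rfl⟩ := fifth (class_of_pid (pid_r hK hr)) hx0 hx
  suffices h : ∃ v, u = v ^ 5 by
    obtain ⟨v, rfl⟩ := h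
    exact ⟨(v : 𝓞 K) * t, by simp [mul_pow]⟩
  have hw : ((1 + r + r ^ 2) / 2) ^ 4 + (-9 : ℤ) * ((1 + r + r ^ 2) / 2) ^ 3 +
      (25 : ℤ) * ((1 + r + r ^ 2) / 2) ^ 2 + (-25 : ℤ) * ((1 + r + r ^ 2) / 2) + (7 : ℤ) = 0 := by
    push_cast
    grind
  let R : 𝓞 K := ⟨r, isIntegral_of_qr 5 0 (-7) 0 (by push_cast; linear_combination hr)⟩
  let W : 𝓞 K := ⟨(1 + r + r ^ 2) / 2, isIntegral_of_qr _ _ _ _ hw⟩
  have eR : (R : K) = r := rfl
  have eW : (W : K) = (1 + r + r ^ 2) / 2 := rfl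
  have hR : R ^ 4 - 7 * R ^ 2 + 5 = 0 := RingOfIntegers.ext (by
    simp only [map_add, map_sub, map_mul, map_pow, map_ofNat, map_zero]
    exact hr)
  have hW : 2 * W = 1 + R + R ^ 2 := RingOfIntegers.ext (by
    simp only [map_add, map_mul, map_pow, map_ofNat, map_one]
    change 2 * ((1 + r + r ^ 2) / 2) = 1 + r + r ^ 2
    ring)
  have hW' : W ^ 4 - 9 * W ^ 3 + 25 * W ^ 2 - 25 * W + 7 = 0 := RingOfIntegers.ext (by
    simp only [map_add, map_sub, map_mul, map_pow, map_ofNat, map_zero]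
    change ((1 + r + r ^ 2) / 2) ^ 4 - 9 * ((1 + r + r ^ 2) / 2) ^ 3 +
      25 * ((1 + r + r ^ 2) / 2) ^ 2 - 25 * ((1 + r + r ^ 2) / 2) + 7 = 0
    push_cast at hw
    linear_combination hw)
  let a := Units.mkOfMulEqOne (6 - R ^ 2) (1 - R ^ 2) (by linear_combination hR)
  let b := Units.mkOfMulEqOne (R - 1) (R ^ 3 + R ^ 2 - 6 * R - 6) (by linear_combination hR)
  let c := Units.mkOfMulEqOne (W - 1) (W ^ 3 - 8 * W ^ 2 + 17 * W - 8) (by linear_combination hW')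
  have m659 : ∀ ι : K →+* Ω, (659 : 𝓞 K) ∈ prm ι := fun ι => by
    rw [mem_prm, show ι ((659 : 𝓞 K) : K) = 659 from map_ofNat (ι.comp (algebraMap _ K)) 659]
    exact h659
  have nu : ∀ (ι : K →+* Ω) (v : (𝓞 K)ˣ), (v : 𝓞 K) ∉ prm ι := fun ι v h =>
    (prm_isPrime ι).ne_top (Ideal.eq_top_of_isUnit_mem _ h v.isUnit)
  obtain ⟨s, hs, q1⟩ : ∃ s : ℤ, (s = 50 ∨ s = -50) ∧ R ^ 2 - s * R + 258 ∈ prm ι9 := by
    have h : (R ^ 2 - (50 : ℤ) * R + 258) * (R ^ 2 - (-50 : ℤ) * R + 258) ∈ prm ι9 := by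
      convert (prm ι9).mul_mem_left (101 - 3 * R ^ 2) (m659 ι9) using 1
      push_cast
      linear_combination hR
    rcases (prm_isPrime ι9).mem_or_mem h with h | h
    exacts [⟨50, Or.inl rfl, h⟩, ⟨-50, Or.inr rfl, h⟩]
  have q2 : R ^ 2 - (-s : ℤ) * R + 258 ∈ prm (ι9.comp τ) := by
    rw [mem_prm] at q1 ⊢
    convert q1 using 2
    simp [eR, hτ, map_ofNat, sub_eq_add_neg]
  have hs' : -s = 50 ∨ -s = -50 := by omega
  have r1 := fun v => residue659 hK (R := R) hr _ (m659 ι9) hs q1 (nu ι9 v)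
  have r2 := fun v => residue659 hK (R := R) hr _ (m659 _) hs' q2 (nu (ι9.comp τ) v)
  have := totallyReal_r hK hr
  obtain ⟨f, hf1, hf2⟩ := units_cover hK
  have n1 : ‖ι9 (u : 𝓞 K)‖ = 1 := norm_eq_one (nu ι9 u)
  have u1 : u ∈ res5 (prm ι9) := by
    obtain ⟨y, hy, hy'⟩ := h9
    have k1 : (y * ι9 t⁻¹) ^ 5 = ι9 (u : 𝓞 K) := by
      rw [mul_pow, hy, ← map_pow, ← map_mul]
      congr 1
      field_simp
    have k2 : ‖y * ι9 t⁻¹‖ = 1 :=
      (pow_eq_one_iff_of_nonneg (norm_nonneg _) (by norm_num : 5 ≠ 0)).1 (by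
        rw [← norm_pow, k1, n1])
    have k3 := hy' _ k2
    rw [show 659 ^ 8 - 1 = 5 * (86856 * (5 * 16381115907566256 + 4)) by norm_num, pow_mul,
      k1] at k3
    have k4 : Ideal.Quotient.mk (prm ι9) u ^ (86856 * (5 * 16381115907566256 + 4)) = 1 := by
      rw [← map_pow, ← map_one (Ideal.Quotient.mk (prm ι9)), Ideal.Quotient.eq, mem_prm]
      simpa only [map_sub, map_pow, map_one] using k3
    have k5 : (Ideal.Quotient.mk (prm ι9) u ^ 86856) ^ 5 = 1 := by rw [← pow_mul]; exact r1 u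
    rw [pow_mul, pow_add, pow_mul, k5, one_pow, one_mul] at k4
    rw [mem_res5, ← k5, pow_succ _ 4, k4, one_mul]
  have u2 : u ∈ res5 (prm (ι9.comp τ)) := by
    obtain ⟨s', hs5⟩ := hm
    have hτt : τ t ≠ 0 := (map_ne_zero τ).2 ht0
    let U' : 𝓞 K := ⟨τ (u : 𝓞 K), (u : 𝓞 K).isIntegral_coe.map τ.toIntAlgHom⟩
    have k1 : (s' / (t * τ t)) ^ 5 = ((u * U' : 𝓞 K) : K) := by
      rw [div_pow, ← hs5, map_mul, map_pow]
      change _ = ((u : 𝓞 K) : K) * τ (u : 𝓞 K)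
      field_simp
    let S : 𝓞 K := ⟨s' / (t * τ t),
      IsIntegral.of_pow (by norm_num : 0 < 5) (k1 ▸ (u * U' : 𝓞 K).isIntegral_coe)⟩
    have k2 : S ^ 5 = u * U' := RingOfIntegers.ext k1
    have k3 : S ∉ prm ι9 := fun h => by
      have := k2 ▸ (prm ι9).pow_mem_of_mem h 5 (by norm_num)
      exact ((prm_isPrime ι9).mem_or_mem this).elim (nu ι9 u) (nu (ι9.comp τ) u)
    have k4 := residue659 hK (R := R) hr _ (m659 ι9) hs q1 k3
    rw [show 434280 = 5 * 86856 by norm_num, pow_mul, ← map_pow, k2, map_mul, mul_pow,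
      mem_res5.1 u1, one_mul, ← map_pow, ← map_one (Ideal.Quotient.mk (prm ι9)),
      Ideal.Quotient.eq, mem_prm] at k4
    rw [mem_res5, ← map_pow, ← map_one (Ideal.Quotient.mk (prm (ι9.comp τ))), Ideal.Quotient.eq,
      mem_prm]
    simp only [map_sub, map_pow, map_one, RingHom.comp_apply] at k4 ⊢
    exact k4
  have all : ∀ z : K, ι5 z ∈ ℚ_[5]⟮ι5 r⟯ := fun z => by
    obtain ⟨c0, c1, c2, c3, hc⟩ := exists_coords hK _ (indep_r hr) z
    have m := mem_adjoin_simple_self ℚ_[5] (ι5 r)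
    rw [hc]
    simp only [map_add, map_mul, map_ratCast, Matrix.cons_val, map_pow, map_one]
    exact add_mem (add_mem (add_mem (mul_mem (SubfieldClass.ratCast_mem _ _) (one_mem _))
      (mul_mem (SubfieldClass.ratCast_mem _ _) m))
      (mul_mem (SubfieldClass.ratCast_mem _ _) (pow_mem m _)))
      (mul_mem (SubfieldClass.ratCast_mem _ _) (pow_mem m _))
  refine fifth_of_mem (res5 (prm ι9) ⊓ res5 (prm (ι9.comp τ)) ⊓ loc5 ι5 ℚ_[5]⟮ι5 r⟯)
    (fun v => ⟨⟨?_, ?_⟩, ?_⟩) a b c (fun i j k hi hj hk ⟨⟨m1, m2⟩, m3⟩ => ?_) hf1 f hf2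
    ⟨⟨u1, u2⟩, ?_⟩
  · refine mem_res5.2 ?_
    rw [Units.val_pow_eq_pow_val, map_pow, ← pow_mul]
    exact r1 v
  · refine mem_res5.2 ?_
    rw [Units.val_pow_eq_pow_val, map_pow, ← pow_mul]
    exact r2 v
  · exact ⟨ι5 (v : 𝓞 K), all _, by simp⟩
  · have l3 := log5 ι5 (R := R) hr hW (a := a) (b := b) (c := c) rfl rfl rfl hi hj hk m3
    have l1 := log659 (m659 ι9) q1 hW (a := a) (b := b) (c := c) rfl rfl rfl m1
    have l2 := log659 (m659 _) q2 hW (a := a) (b := b) (c := c) rfl rfl rfl m2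
    rcases hs with rfl | rfl
    · have := log_plus i hi j hj k hk l1
      have := log_minus i hi j hj k hk l2
      omega
    · have := log_minus i hi j hj k hk l1
      have := log_plus i hi j hj k hk l2
      omega
  · obtain ⟨y, hy, hy'⟩ := h5
    have ht : ι5 t ≠ 0 := (map_ne_zero ι5).2 ht0
    refine ⟨y / ι5 t, div_mem hy (all t), ?_⟩
    rw [div_pow, hy', map_mul, map_pow]
    field_simp

end Pool.Agent.Lib.MP_54db3e_nt.H79
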