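import Mathlib

/-!
Tools for explicit quartic number fields: irreducibility by reduction, trace and norm from a
multiplication table, a bound for the discriminant, residue fields of small primes.
-/

namespace Pool.Agent.Lib.MP_54db3e_nt.H79

open Polynomial NumberField Module

/-- The monic quartic with the given lower coefficients. -/
noncomputable def qr {R : Type*} [CommRing R] (c0 c1 c2 c3 : R) : R[X] :=
  X ^ 4 + C c3 * X ^ 3 + C c2 * X ^ 2 + C c1 * X + C c0

theorem qr_monic {R : Type*} [CommRing R] (c0 c1 c2 c3 : R) : (qr c0 c1 c2 c3).Monic := by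
  nontriviality R
  unfold qr
  monicity!

theorem qr_natDegree {R : Type*} [CommRing R] [Nontrivial R] (c0 c1 c2 c3 : R) :
    (qr c0 c1 c2 c3).natDegree = 4 := by
  unfold qr
  compute_degree!

theorem qr_map {R S : Type*} [CommRing R] [CommRing S] (φ : R →+* S) (c0 c1 c2 c3 : R) :
    (qr c0 c1 c2 c3).map φ = qr (φ c0) (φ c1) (φ c2) (φ c3) := by
  simp [qr, Polynomial.map_add, Polynomial.map_mul, Polynomial.map_pow]

theorem qr_aeval {R S : Type*} [CommRing R] [CommRing S] [Algebra R S] (c0 c1 c2 c3 : R) (x : S) :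
    aeval x (qr c0 c1 c2 c3) = x ^ 4 + algebraMap R S c3 * x ^ 3 + algebraMap R S c2 * x ^ 2 +
      algebraMap R S c1 * x + algebraMap R S c0 := by
  simp [qr]

theorem qr_irreducible {F : Type*} [Field F] {c0 c1 c2 c3 : F}
    (h1 : ∀ x : F, x ^ 4 + c3 * x ^ 3 + c2 * x ^ 2 + c1 * x + c0 ≠ 0)
    (h2 : ∀ a b c d : F, ¬(a + c = c3 ∧ b + d + a * c = c2 ∧ a * d + b * c = c1 ∧ b * d = c0)) :
    Irreducible (qr c0 c1 c2 c3) := by
  have hd := qr_natDegree c0 c1 c2 c3
  rw [(qr_monic c0 c1 c2 c3).irreducible_iff_lt_natDegree_lt (fun h => by simp [h] at hd), hd]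
  rintro q hq hn ⟨s, hs⟩
  rw [Finset.mem_Ioc] at hn
  have hsm : s.Monic := hq.of_mul_monic_left (hs ▸ qr_monic c0 c1 c2 c3)
  have hdeg : q.natDegree + s.natDegree = 4 := by rw [← hq.natDegree_mul hsm, ← hs, hd]
  obtain h | h : q.natDegree = 1 ∨ q.natDegree = 2 := by omega
  · have h3 := congrArg (aeval (-q.coeff 0)) hs
    rw [qr_aeval, map_mul, hq.eq_X_add_C h] at h3
    simp at h3
    exact h1 (-q.coeff 0) (by linear_combination h3)
  · have e1 : q.coeff 2 = 1 := by rw [← h]; exact hq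
    have e2 : s.coeff 2 = 1 := by rw [← (by omega : s.natDegree = 2)]; exact hsm
    have e3 : q.coeff 3 = 0 := coeff_eq_zero_of_natDegree_lt (by omega)
    have e4 : s.coeff 3 = 0 := coeff_eq_zero_of_natDegree_lt (by omega)
    have k0 := congrArg (coeff · 0) hs
    have k1 := congrArg (coeff · 1) hs
    have k2 := congrArg (coeff · 2) hs
    have k3 := congrArg (coeff · 3) hs
    simp [qr, coeff_mul, Finset.Nat.antidiagonal_succ, coeff_X, coeff_C, e1, e2, e3, e4,
      coeff_X_pow] at k0 k1 k2 k3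
    exact h2 (q.coeff 1) (q.coeff 0) (s.coeff 1) (s.coeff 0)
      ⟨by linear_combination -k3, by linear_combination -k2, by linear_combination -k1,
        by linear_combination -k0⟩

theorem isIntegral_of_qr {K : Type*} [CommRing K] {x : K} (c0 c1 c2 c3 : ℤ)
    (h : x ^ 4 + c3 * x ^ 3 + c2 * x ^ 2 + c1 * x + c0 = 0) : IsIntegral ℤ x :=
  ⟨qr c0 c1 c2 c3, qr_monic _ _ _ _, by rw [← aeval_def, qr_aeval]; simpa using h⟩

theorem minpoly_qr {K : Type*} [Field K] [CharZero K] {x : K} {p : ℕ} [Fact p.Prime]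
    {c0 c1 c2 c3 : ℤ} (hi : Irreducible (qr (c0 : ZMod p) c1 c2 c3))
    (h : x ^ 4 + c3 * x ^ 3 + c2 * x ^ 2 + c1 * x + c0 = 0) :
    minpoly ℚ x = qr (c0 : ℚ) c1 c2 c3 := by
  have h1 : Irreducible (qr c0 c1 c2 c3) :=
    (qr_monic _ _ _ _).irreducible_of_irreducible_map (Int.castRingHom (ZMod p)) _
      (by rw [qr_map]; exact hi)
  have h2 := ((qr_monic c0 c1 c2 c3).irreducible_iff_irreducible_map_fraction_map (K := ℚ)).1 h1
  rw [qr_map] at h2
  exact (minpoly.eq_of_irreducible_of_monic h2 (by rw [qr_aeval]; simpa using h)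
    (qr_monic _ _ _ _)).symm

theorem indep_of_minpoly {K : Type*} [Field K] [CharZero K] {x : K}
    (h : (minpoly ℚ x).natDegree = 4) {a b c d : ℚ}
    (h0 : (a : K) + b * x + c * x ^ 2 + d * x ^ 3 = 0) : a = 0 ∧ b = 0 ∧ c = 0 ∧ d = 0 := by
  have h1 := Fintype.linearIndependent_iff.1 (linearIndependent_pow (K := ℚ) x)
  rw [h] at h1
  have h2 := h1 ![a, b, c, d] (by simpa [Fin.sum_univ_four, Algebra.smul_def] using h0)
  exact ⟨h2 0, h2 1, h2 2, h2 3⟩

theorem det4 {R : Type*} [CommRing R] (a b c d e f g h i j k l m n o p : R) :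
    !![a, b, c, d; e, f, g, h; i, j, k, l; m, n, o, p].det =
      a * (f * (k * p - l * o) - g * (j * p - l * n) + h * (j * o - k * n)) -
      b * (e * (k * p - l * o) - g * (i * p - l * m) + h * (i * o - k * m)) +
      c * (e * (j * p - l * n) - f * (i * p - l * m) + h * (i * n - j * m)) -
      d * (e * (j * o - k * n) - f * (i * o - k * m) + g * (i * n - j * m)) := by
  simp [Matrix.det_succ_row_zero, Fin.sum_univ_succ, Fin.succAbove]
  ring

variable {K : Type*} [Field K] [NumberField K]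

theorem trace_norm (hK : finrank ℚ K = 4) (e : Fin 4 → K) (he : LinearIndependent ℚ e) (x : K)
    (M : Matrix (Fin 4) (Fin 4) ℚ) (h : ∀ j, x * e j = ∑ i, M i j • e i) :
    Algebra.trace ℚ K x = M.trace ∧ Algebra.norm ℚ x = M.det := by
  let B := basisOfLinearIndependentOfCardEqFinrank he (by simp [hK])
  have hB : ∀ i, B i = e i := fun i => by simp [B]
  have h1 : Algebra.leftMulMatrix B x = M := by
    ext i j
    rw [Algebra.leftMulMatrix_eq_repr_mul, hB, h]
    simp only [← hB]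
    exact congrFun (B.repr_sum_self fun i => M i j) i
  rw [Algebra.trace_eq_matrix_trace B, Algebra.norm_eq_matrix_det B, h1]
  exact ⟨rfl, rfl⟩

theorem discr_le (hK : finrank ℚ K = 4) (e : Fin 4 → 𝓞 K) (T : Matrix (Fin 4) (Fin 4) ℤ)
    (h : ∀ i j, Algebra.trace ℚ K ((e i : K) * e j) = T i j) (hT : T.det ≠ 0) :
    |discr K| ≤ |T.det| := by
  let b : Basis (Fin 4) ℤ (𝓞 K) := (RingOfIntegers.basis K).reindex
    (Fintype.equivFinOfCardEq (by rw [← finrank_eq_card_chooseBasisIndex, RingOfIntegers.rank, hK]))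
  have h1 : Algebra.discr ℤ e = T.det := by
    rw [Algebra.discr_def]
    congr 1
    ext i j
    rw [Algebra.traceMatrix_apply, Algebra.traceForm_apply, ← Int.cast_inj (α := ℚ), ← h,
      Algebra.coe_trace_int]
    rfl
  have h2 := Algebra.discr_of_matrix_vecMul b (b.toMatrix e)
  rw [Basis.toMatrix_map_vecMul, h1, discr_eq_discr] at h2
  have h3 : (b.toMatrix e).det ≠ 0 := fun h0 => hT (by rw [h2, h0]; simp)
  rw [h2, abs_mul, abs_pow]
  exact le_mul_of_one_le_left (abs_nonneg _) (one_le_pow₀ (Int.one_le_abs h3))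

theorem absNorm_span (x : 𝓞 K) {n : ℕ} (h : |Algebra.norm ℚ (x : K)| = n) :
    Ideal.absNorm (Ideal.span {x}) = n := by
  rw [Ideal.absNorm_span_singleton, ← Int.natCast_inj, Int.natCast_natAbs, ← Int.cast_inj (α := ℚ),
    Int.cast_abs, Algebra.coe_norm_int, h, Int.cast_natCast]

theorem eq_of_le_of_absNorm {I P : Ideal (𝓞 K)} (h : I ≤ P) (h0 : Ideal.absNorm P ≠ 0)
    (hn : Ideal.absNorm I = Ideal.absNorm P) : P = I := by
  obtain ⟨J, rfl⟩ := Ideal.dvd_iff_le.2 h
  rw [map_mul] at hn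
  have h1 : Ideal.absNorm J = 1 := mul_left_cancel₀ h0 (by rw [hn, mul_one])
  rw [Ideal.absNorm_eq_one_iff.1 h1, Ideal.mul_top]

theorem eq_of_le_of_prime {I P : Ideal (𝓞 K)} (h : I ≤ P) (hP : P ≠ ⊤)
    (hn : (Ideal.absNorm I).Prime) : P = I := by
  have h1 := (Nat.dvd_prime hn).1 (Ideal.absNorm_dvd_absNorm_of_le h)
  have h2 := h1.resolve_left fun h => hP (Ideal.absNorm_eq_one_iff.1 h)
  exact eq_of_le_of_absNorm h (h2 ▸ hn.ne_zero) h2.symm

/-- The residue field of a nonzero prime. -/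
theorem exists_char (P : Ideal (𝓞 K)) [hP : P.IsPrime] (h0 : P ≠ ⊥) :
    ∃ p n : ℕ, p.Prime ∧ 0 < n ∧ Ideal.absNorm P = p ^ n ∧ (p : 𝓞 K) ∈ P ∧
      (∀ x : 𝓞 K, x ^ p ^ n - x ∈ P) ∧ ∀ (x : 𝓞 K) (c0 c1 c2 c3 : ℤ), x ^ 4 + c3 * x ^ 3 + c2 * x ^ 2 + c1 * x + c0 = 0 →
        (n = 1 → ∃ y : ZMod p, y ^ 4 + c3 * y ^ 3 + c2 * y ^ 2 + c1 * y + c0 = 0) ∧
        (Irreducible (qr (c0 : ZMod p) c1 c2 c3) → 4 ∣ n) := by
  have := hP.isMaximal h0
  let := Ideal.Quotient.field P
  have : Finite (𝓞 K ⧸ P) := Ideal.finiteQuotientOfFreeOfNeBot P h0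
  let := Fintype.ofFinite (𝓞 K ⧸ P)
  obtain ⟨p, hc, n, hp, hn⟩ := FiniteField.card' (𝓞 K ⧸ P)
  have := Fact.mk hp
  refine ⟨p, n, hp, n.2, by rw [Ideal.absNorm_apply, Submodule.cardQuot_apply,
    Nat.card_eq_fintype_card, hn], ?_, fun x => ?_, fun x c0 c1 c2 c3 hx => ?_⟩
  · rw [← Ideal.Quotient.eq_zero_iff_mem, map_natCast, CharP.cast_eq_zero]
  · rw [← Ideal.Quotient.eq_zero_iff_mem, map_sub, map_pow, ← hn, FiniteField.pow_card, sub_self]
  have h1 := congrArg (Ideal.Quotient.mk P) hx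
  simp only [map_add, map_mul, map_pow, map_intCast, map_zero] at h1
  constructor
  · intro h
    rw [h, pow_one] at hn
    let φ := (ZMod.ringEquivOfPrime (𝓞 K ⧸ P) hp hn).symm
    refine ⟨φ (Ideal.Quotient.mk P x), ?_⟩
    simpa only [map_add, map_mul, map_pow, map_intCast, map_zero] using congrArg φ h1
  · intro hi
    let := ZMod.algebra (𝓞 K ⧸ P) p
    have h2 := minpoly.eq_of_irreducible_of_monic hi (x := Ideal.Quotient.mk P x)
      (by rw [qr_aeval]; simpa only [map_intCast] using h1) (qr_monic _ _ _ _)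
    have h3 := minpoly.degree_dvd (K := ZMod p)
      (Algebra.IsIntegral.isIntegral (Ideal.Quotient.mk P x))
    have h4 := Module.card_eq_pow_finrank (K := ZMod p) (V := 𝓞 K ⧸ P)
    rw [hn, ZMod.card] at h4
    rw [← h2, qr_natDegree, ← Nat.pow_right_injective hp.two_le h4] at h3
    exact h3

/-- It is enough to treat the primes below the Minkowski bound. -/
theorem pow_principal {k N : ℕ}
    (hM : (4 / Real.pi) ^ InfinitePlace.nrComplexPlaces K * (24 / 256 * √|discr K|) < N)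
    (hK : finrank ℚ K = 4)
    (h : ∀ P : Ideal (𝓞 K), P.IsPrime → P ≠ ⊥ → Ideal.absNorm P < N → (P ^ k).IsPrincipal)
    (c : ClassGroup (𝓞 K)) : c ^ k = 1 := by
  obtain ⟨I, rfl, hI⟩ := exists_ideal_in_class_of_norm_le c
  rw [hK] at hI
  have hI' : Ideal.absNorm (I : Ideal (𝓞 K)) < N := by
    have : ((Nat.factorial 4 : ℕ) : ℝ) / ((4 : ℕ) : ℝ) ^ 4 = 24 / 256 := by
      norm_num [Nat.factorial]
    rw [this] at hI
    exact_mod_cast hI.trans_lt hM
  rw [← map_pow, ClassGroup.mk0_eq_one_iff, SubmonoidClass.coe_pow,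
    ← Ideal.mem_isPrincipalSubmonoid_iff,
    ← Ideal.prod_normalizedFactors_eq_self (nonZeroDivisors.coe_ne_zero I)]
  refine ((Ideal.isPrincipalSubmonoid (𝓞 K)).comap (powMonoidHom k)).multiset_prod_mem _
    fun J hJ => ?_
  have h0 := nonZeroDivisors.coe_ne_zero I
  have h1 := (Ideal.mem_normalizedFactors_iff h0).1 hJ
  refine h J h1.1 (fun h2 => h0 (le_bot_iff.1 (h2 ▸ h1.2))) (lt_of_le_of_lt ?_ hI')
  exact Nat.le_of_dvd (Ideal.absNorm_pos_of_nonZeroDivisors I)
    (Ideal.absNorm_dvd_absNorm_of_le h1.2)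

/-- A certificate that the square of a prime of degree one is principal. -/
theorem sq_principal {P : Ideal (𝓞 K)} (hP : P ≠ ⊤) {u v α : 𝓞 K} (hu : u ∈ P) (hv : v ∈ P)
    (a b c x y z : 𝓞 K) (h1 : u * u = a * α) (h2 : u * v = b * α) (h3 : v * v = c * α)
    (h4 : α = x * (u * u) + y * (u * v) + z * (v * v)) {p : ℕ} (hp : p.Prime)
    (hn : Ideal.absNorm (Ideal.span {α}) = p ^ 2) : P ^ 2 = Ideal.span {α} := by
  have h5 : Ideal.span {u, v} ^ 2 = Ideal.span {α} := by
    rw [sq, Ideal.span_pair_mul_span_pair]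
    apply le_antisymm
    · rw [Ideal.span_le]
      rintro w (rfl | rfl | rfl | rfl)
      exacts [Ideal.mem_span_singleton'.2 ⟨a, h1.symm⟩, Ideal.mem_span_singleton'.2 ⟨b, h2.symm⟩,
        Ideal.mem_span_singleton'.2 ⟨b, by rw [← h2, mul_comm]⟩,
        Ideal.mem_span_singleton'.2 ⟨c, h3.symm⟩]
    · rw [Ideal.span_singleton_le_iff_mem, h4]
      refine add_mem (add_mem ?_ ?_) ?_ <;>
        exact Ideal.mul_mem_left _ _ (Ideal.subset_span (by simp))
  rw [← h5, map_pow] at hn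
  rw [eq_of_le_of_prime (I := Ideal.span {u, v}) (Ideal.span_le.2 (by
    rintro w (rfl | rfl); exacts [hu, hv])) hP (Nat.pow_left_injective two_ne_zero hn ▸ hp), h5]

theorem exists_coords (hK : finrank ℚ K = 4) (e : Fin 4 → K) (he : LinearIndependent ℚ e)
    (x : K) : ∃ a b c d : ℚ, x = a * e 0 + b * e 1 + c * e 2 + d * e 3 := by
  let B := basisOfLinearIndependentOfCardEqFinrank he (by simp [hK])
  refine ⟨B.repr x 0, B.repr x 1, B.repr x 2, B.repr x 3, ?_⟩
  simpa [Fin.sum_univ_four, Algebra.smul_def, B] using (B.sum_repr x).symm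

end Pool.Agent.Lib.MP_54db3e_nt.H79
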