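import Pool.Agent.Lib.MP_54db3e_nt.H84Chart

open Metric WeierstrassCurve

namespace Pool.Agent.Lib.MP_54db3e_nt.H84
section CG5
open Affine

variable {F Ω : Type*} [NormedField F] [IsUltrametricDist F] [NormedField Ω] [IsUltrametricDist Ω]
  [NormedAlgebra F Ω]

lemma chi_add {ζ : Ω} (h : ζ ^ 5 = 1) (a b : ZMod 5) : ζ ^ (a + b).val = ζ ^ a.val * ζ ^ b.val := by
  rw [ZMod.val_add, ← pow_add, ← pow_eq_pow_mod _ h]

lemma chi_mul {ζ : Ω} (h : ζ ^ 5 = 1) (a b : ZMod 5) : ζ ^ (a * b).val = (ζ ^ a.val) ^ b.val := by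
  rw [ZMod.val_mul, ← pow_mul, ← pow_eq_pow_mod _ h]

lemma norm_root {ζ : Ω} (h : ζ ^ 5 = 1) : ‖ζ‖ = 1 := by
  have := congrArg norm h
  rw [norm_pow, norm_one] at this
  exact (pow_eq_one_iff_of_nonneg (norm_nonneg _) (by norm_num)).mp this

lemma norm_pow_sub_one {ζ : Ω} (h : ‖ζ‖ = 1) (n : ℕ) : ‖ζ ^ n - 1‖ ≤ ‖ζ - 1‖ := by
  induction n with
  | zero => simp
  | succ n ih =>
    rw [show ζ ^ (n + 1) - 1 = ζ * (ζ ^ n - 1) + (ζ - 1) by ring]
    exact nle (by rwa [norm_mul, h, one_mul]) le_rfl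

lemma norm_zeta {ζ : Ω} (h : IsPrimitiveRoot ζ 5) : ‖ζ - 1‖ ^ 4 ≤ ‖((5 : ℕ) : Ω)‖ := by
  have h1 : ‖ζ - 1‖ ≤ 1 := by
    rw [sub_eq_add_neg]; exact nle (norm_root h.pow_eq_one).le (by simp)
  have h2 : ‖(2 : Ω)‖ ≤ 1 := by simpa using IsUltrametricDist.norm_natCast_le_one Ω 2
  have hs := h.geom_sum_eq_zero (by norm_num)
  simp only [Finset.sum_range_succ, Finset.sum_range_zero] at hs
  have m : ∀ a b : Ω, ‖a‖ ≤ 1 → ‖b‖ ≤ 1 → ‖a * b‖ ≤ 1 := fun a b ha hb => by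
    rw [norm_mul]; exact mul_le_one₀ ha (norm_nonneg _) hb
  rw [← norm_pow, show (ζ - 1) ^ 4 = -(((5 : ℕ) : Ω) * (1 + (2 * (ζ - 1) + (2 * ((ζ - 1) * (ζ - 1)) +
    (ζ - 1) * ((ζ - 1) * (ζ - 1)))))) by push_cast; linear_combination hs, norm_neg, norm_mul]
  refine mul_le_of_le_one_right (norm_nonneg _) (nle (by simp) (nle (m _ _ h2 h1)
    (nle (m _ _ h2 (m _ _ h1 h1)) (m _ _ h1 (m _ _ h1 h1)))))

/-- Lagrange resolvents: a character that moves a small element far is a unit class. -/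
lemma lagrange_res {ζ : F} (hζ : IsPrimitiveRoot ζ 5) (h5 : ((5 : ℕ) : Ω) ≠ 0)
    (i : (Ω ≃ₐ[F] Ω) → ZMod 5) (Z : ZMod 5 → Ω) (hZ : ∀ σ k, σ (Z k) = Z (k + i σ))
    (h0 : ‖Z 0‖ < 1) (hfar : ‖algebraMap F Ω ζ - 1‖ ≤ ‖Z 1 - Z 0‖) :
    ∃ y : Ω, ‖y‖ = 1 ∧ ∀ σ : Ω ≃ₐ[F] Ω, σ y = algebraMap F Ω ζ ^ (i σ).val * y := by
  classical
  have : Fact (Nat.Prime 5) := ⟨by norm_num⟩
  have hζ' : IsPrimitiveRoot (algebraMap F Ω ζ) 5 := hζ.map_of_injective (algebraMap F Ω).injective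
  set e := algebraMap F Ω ζ with he
  have e5 := hζ'.pow_eq_one
  let c : ZMod 5 → Ω := fun j => ∑ k : ZMod 5, e ^ (-(j * k)).val * Z k
  have hc : ∀ (σ : Ω ≃ₐ[F] Ω) j, σ (c j) = e ^ (j * i σ).val * c j := by
    intro σ j
    simp only [c, map_sum, map_mul, map_pow, hZ, Finset.mul_sum]
    rw [← Equiv.sum_comp (Equiv.addRight (i σ)) (fun k => e ^ (j * i σ).val * (e ^ (-(j * k)).val * Z k))]
    refine Finset.sum_congr rfl fun k _ => ?_
    rw [he, AlgEquiv.commutes, ← he, ← mul_assoc, ← chi_add e5]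
    congr 3
    simp only [Equiv.coe_addRight]; ring
  have orth : ∀ a : ZMod 5, ∑ j : ZMod 5, e ^ (j * a).val = if a = 0 then ((5 : ℕ) : Ω) else 0 := by
    intro a
    split_ifs with ha
    · simp [ha]
    · rw [show ∑ j : ZMod 5, e ^ (j * a).val = ∑ j : ZMod 5, e ^ j.val from
        Equiv.sum_comp (Equiv.mulRight₀ a ha) (fun j => e ^ j.val)]
      have hs := hζ'.geom_sum_eq_zero (by norm_num)
      rw [← Fin.sum_univ_eq_sum_range] at hs
      exact hs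
  have inv : ∀ a : ZMod 5, ∑ j : ZMod 5, e ^ (j * a).val * c j = ((5 : ℕ) : Ω) * Z a := by
    intro a
    simp only [c, Finset.mul_sum]
    rw [Finset.sum_comm]
    have : ∀ k : ZMod 5, ∑ j : ZMod 5, e ^ (j * a).val * (e ^ (-(j * k)).val * Z k) =
        (if a - k = 0 then ((5 : ℕ) : Ω) else 0) * Z k := by
      intro k
      rw [← orth, Finset.sum_mul]
      refine Finset.sum_congr rfl fun j _ => ?_
      rw [← mul_assoc, ← chi_add e5]
      congr 3; ring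
    simp only [this, sub_eq_zero, ite_mul, zero_mul, Finset.sum_ite_eq, Finset.mem_univ, if_true]
  by_contra hno
  have dist : ∀ j j', j ≠ j' → c j' ≠ 0 → ‖c j‖ ≠ ‖c j'‖ := by
    intro j j' hj h' hn
    refine hno ⟨(c j / c j') ^ ((j - j')⁻¹).val, ?_, fun σ => ?_⟩
    · rw [norm_pow, norm_div, hn, div_self (norm_ne_zero_iff.mpr h'), one_pow]
    · have k : σ (c j / c j') = e ^ ((j - j') * i σ).val * (c j / c j') := by
        have e0 : e ^ (j' * i σ).val ≠ 0 := pow_ne_zero _ (hζ'.ne_zero (by norm_num))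
        rw [map_div₀, hc, hc, show j * i σ = (j - j') * i σ + j' * i σ by ring, chi_add e5]
        field_simp
      rw [map_pow, k, mul_pow, ← chi_mul e5]
      congr 3
      have := sub_ne_zero.mpr hj
      field_simp
  have s0 : ∑ j, c j = ((5 : ℕ) : Ω) * Z 0 := by simpa using inv 0
  have le : ∀ j, ‖c j‖ ≤ ‖((5 : ℕ) : Ω) * Z 0‖ := by
    obtain ⟨m, -, hm⟩ := Finset.exists_max_image Finset.univ (fun j => ‖c j‖) Finset.univ_nonempty
    intro j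
    refine (hm j (Finset.mem_univ _)).trans ?_
    rcases eq_or_ne (c m) 0 with h | h
    · rw [h, norm_zero]; exact norm_nonneg _
    rw [← s0, ← Finset.add_sum_erase _ _ (Finset.mem_univ m), nadd]
    refine Finset.sum_induction c (fun x => ‖x‖ < ‖c m‖) (fun _ _ => nlt)
      (by simpa using h) fun x hx => ?_
    exact lt_of_le_of_ne (hm x (Finset.mem_univ _)) (dist _ _ (Finset.ne_of_mem_erase hx) h)
  have s1 : ((5 : ℕ) : Ω) * (Z 1 - Z 0) = ∑ j, (e ^ j.val - 1) * c j := by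
    rw [mul_sub, ← inv 1, ← s0, ← Finset.sum_sub_distrib]
    refine Finset.sum_congr rfl fun j _ => by rw [mul_one]; ring
  have s2 : ‖((5 : ℕ) : Ω) * (Z 1 - Z 0)‖ ≤ ‖e - 1‖ * ‖((5 : ℕ) : Ω) * Z 0‖ := by
    rw [s1]
    refine Finset.sum_induction _ (fun x => ‖x‖ ≤ ‖e - 1‖ * ‖((5 : ℕ) : Ω) * Z 0‖) (fun _ _ => nle)
      (by rw [norm_zero]; positivity) fun j _ => ?_
    rw [norm_mul]
    exact mul_le_mul (norm_pow_sub_one (norm_root e5) _) (le j) (norm_nonneg _) (norm_nonneg _)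
  have p5 := norm_pos_iff.mpr h5
  have pe : 0 < ‖e - 1‖ := norm_pos_iff.mpr (sub_ne_zero.mpr (hζ'.ne_one (by norm_num)))
  rw [norm_mul, norm_mul] at s2
  have : ‖((5 : ℕ) : Ω)‖ * ‖e - 1‖ ≤ ‖((5 : ℕ) : Ω)‖ * (‖e - 1‖ * ‖Z 0‖) := by
    calc _ ≤ ‖((5 : ℕ) : Ω)‖ * ‖Z 1 - Z 0‖ := by gcongr
      _ ≤ _ := by linarith
  have := le_of_mul_le_mul_left this p5
  nlinarith

lemma exists_pow_one_unit [ProperSpace F] (h5 : ‖((5 : ℕ) : F)‖ < 1) {x : F} (hx : ‖x‖ = 1) :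
    ∃ n : ℕ, n % 5 = 1 ∧ ‖x ^ n - 1‖ < 1 := by
  have root : ∀ a : F, ‖a‖ = 1 → ‖a ^ 5 - 1‖ < 1 → ‖a - 1‖ < 1 := by
    intro a ha h
    have h2 : ‖(2 : F)‖ ≤ 1 := by simpa using IsUltrametricDist.norm_natCast_le_one F 2
    have m : ∀ a b : F, ‖a‖ ≤ 1 → ‖b‖ ≤ 1 → ‖a * b‖ ≤ 1 := fun a b ha hb => by
      rw [norm_mul]; exact mul_le_one₀ ha (norm_nonneg _) hb
    have : ‖(a - 1) ^ 5‖ < 1 := by
      rw [show (a - 1) ^ 5 = (a ^ 5 - 1) + ((5 : ℕ) : F) * (a + (-(2 * (a * a)) + (2 * (a * (a * a)) +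
        -(a * (a * (a * a)))))) by push_cast; ring]
      refine nlt h ?_
      rw [norm_mul]
      refine mul_lt_one_of_nonneg_of_lt_one_left (norm_nonneg _) h5 (nle ha.le (nle ?_ (nle ?_ ?_)))
      · rw [norm_neg]; exact m _ _ h2 (m _ _ ha.le ha.le)
      · exact m _ _ h2 (m _ _ ha.le (m _ _ ha.le ha.le))
      · rw [norm_neg]; exact m _ _ ha.le (m _ _ ha.le (m _ _ ha.le ha.le))
    rw [norm_pow] at this
    exact lt_of_pow_lt_pow_left₀ 5 zero_le_one (by simpa using this)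
  obtain ⟨a, -, φ, hφ, hlim⟩ := (isCompact_closedBall (0 : F) 1).tendsto_subseq
    (x := fun n => x ^ n) (fun n => by simp [hx])
  obtain ⟨N, hN⟩ := Metric.cauchySeq_iff.mp hlim.cauchySeq 1 one_pos
  have h1 := hN (N + 1) (Nat.le_succ N) N le_rfl
  obtain ⟨k, hk⟩ := Nat.exists_eq_add_of_lt (hφ (Nat.lt_succ_self N))
  simp only [Function.comp, dist_eq_norm] at h1
  rw [show φ (N + 1) = φ N + (k + 1) by omega, pow_add, ← mul_sub_one, norm_mul, norm_pow, hx,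
    one_pow, one_mul] at h1
  obtain ⟨b, e, he, hbe⟩ := Nat.exists_eq_pow_mul_and_not_dvd (Nat.succ_ne_zero k) 5 (by norm_num)
  have h2 : ‖x ^ e - 1‖ < 1 := by
    rw [show k + 1 = 5 ^ b * e from hbe] at h1
    clear hbe
    induction b with
    | zero => simpa using h1
    | succ b ih =>
      refine ih (root _ (by simp [hx]) ?_)
      rwa [← pow_mul, show 5 ^ b * e * 5 = 5 ^ (b + 1) * e by ring]
  refine ⟨e * e ^ 3, ?_, ?_⟩
  · have : e % 5 = 1 ∨ e % 5 = 2 ∨ e % 5 = 3 ∨ e % 5 = 4 := by omega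
    rcases this with h | h | h | h <;> simp [Nat.mul_mod, Nat.pow_mod, h]
  · rw [pow_mul]
    exact (norm_pow_sub_one (by simp [hx]) _).trans_lt h2

variable [DecidableEq F] [DecidableEq Ω] {R : Type*} [CommRing R] [Algebra R F] [Algebra R Ω]
  [IsScalarTower R F Ω] {W : Affine R}

lemma zc_map (σ : Ω ≃ₐ[F] Ω) (P : (W⁄Ω).Point) :
    zc _ (Point.map (σ : Ω →ₐ[F] Ω) P) = σ (zc _ P) := by
  rcases P with _ | ⟨x, y, h⟩
  · exact (map_zero σ).symm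
  · change σ x / (2 * σ y + algebraMap R Ω W.a₃) = σ (x / (2 * y + algebraMap R Ω W.a₃))
    rw [map_div₀, map_add, map_mul, map_ofNat, IsScalarTower.algebraMap_apply R F Ω, AlgEquiv.commutes]

lemma descend [IsGalois F Ω] (Q : (W⁄Ω).Point)
    (h : ∀ σ : Ω ≃ₐ[F] Ω, Point.map (σ : Ω →ₐ[F] Ω) Q = Q) :
    ∃ P : (W⁄F).Point, Point.baseChange F Ω P = Q := by
  rcases Q with _ | ⟨x, y, hq⟩
  · exact ⟨0, rfl⟩
  obtain ⟨x', rfl⟩ := (InfiniteGalois.mem_range_algebraMap_iff_fixed (k := F) x).mpr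
    fun σ => (Point.some.inj (h σ)).1
  obtain ⟨y', rfl⟩ := (InfiniteGalois.mem_range_algebraMap_iff_fixed (k := F) y).mpr
    fun σ => (Point.some.inj (h σ)).2
  exact ⟨.some x' y' ((W.baseChange_nonsingular (f := Algebra.ofId F Ω) (algebraMap F Ω).injective ..).mp hq), rfl⟩

lemma big_bc (P : (W⁄F).Point) : Big _ (Point.baseChange F Ω P) ↔ Big _ P := by
  rcases P with _ | ⟨x, y, h⟩
  · exact Iff.rfl
  · change 1 < ‖algebraMap F Ω x‖ ↔ 1 < ‖x‖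
    rw [norm_algebraMap']

/-- Every unit class is a Kummer class of the kernel of reduction. -/
theorem unit_class [ProperSpace F] [IsGalois F Ω] (hiso : ∀ (σ : Ω ≃ₐ[F] Ω) x, ‖σ x‖ = ‖x‖)
    (gF : Good (W⁄F)) (gΩ : Good (W⁄Ω)) (h50 : ((5 : ℕ) : F) ≠ 0) (h51 : ‖((5 : ℕ) : F)‖ < 1)
    {ζ : F} (hζ : IsPrimitiveRoot ζ 5) (T : E1 gF) (hT0 : T ≠ 0) (hT5 : 5 • T = 0)
    (hT : ∀ S ∈ E1 gΩ, 5 • S = 0 → ∃ k : ℕ, S = k • Point.baseChange F Ω (T : (W⁄F).Point))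
    (hdiv : ∀ P ∈ E1 gΩ, ∃ Q ∈ E1 gΩ, 5 • Q = P)
    (κ : (Ω ≃ₐ[F] Ω) → ZMod 5) (y : Ω) (hy : ‖y‖ = 1)
    (hκ : ∀ σ : Ω ≃ₐ[F] Ω, σ y = algebraMap F Ω ζ ^ (κ σ).val * y) :
    ∃ Q ∈ E1 gΩ, ∀ σ : Ω ≃ₐ[F] Ω, Point.map (σ : Ω →ₐ[F] Ω) Q - Q =
      (κ σ).val • Point.baseChange F Ω (T : (W⁄F).Point) := by
  classical
  have : Fact (Nat.Prime 5) := ⟨by norm_num⟩
  have hζ' : IsPrimitiveRoot (algebraMap F Ω ζ) 5 := hζ.map_of_injective (algebraMap F Ω).injective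
  have binj : Function.Injective (Point.baseChange (W' := W) F Ω) := Point.map_injective _
  set T' := Point.baseChange F Ω (T : (W⁄F).Point) with hT'
  have T'5 : 5 • T' = 0 := by
    rw [hT', ← map_nsmul, ← AddSubgroup.coe_nsmul, hT5]; rfl
  have T'0 : T' ≠ 0 := fun h => hT0 (Subtype.ext (binj h))
  have T'E : T' ∈ E1 gΩ := (big_bc _).mpr T.2
  have fixb : ∀ (σ : Ω ≃ₐ[F] Ω) (P : (W⁄F).Point),
      Point.map (σ : Ω →ₐ[F] Ω) (Point.baseChange F Ω P) = Point.baseChange F Ω P :=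
    fun σ P => Point.map_baseChange _ P
  have mapE : ∀ (σ : Ω ≃ₐ[F] Ω), ∀ Q ∈ E1 gΩ, Point.map (σ : Ω →ₐ[F] Ω) Q ∈ E1 gΩ := by
    rintro σ (_ | ⟨x, y, h⟩) hQ
    · exact hQ
    · change 1 < ‖σ x‖
      rw [hiso]; exact hQ
  have vmod : ∀ k : ℕ, ((k : ZMod 5)).val • T' = k • T' := fun k => by
    rw [ZMod.val_natCast, ← nsmul_eq_mod_nsmul _ T'5]
  have vadd : ∀ a b : ZMod 5, (a + b).val • T' = a.val • T' + b.val • T' := fun a b => by
    rw [ZMod.val_add, ← nsmul_eq_mod_nsmul _ T'5, add_smul]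
  have h5Ω : ‖((5 : ℕ) : Ω)‖ = ‖((5 : ℕ) : F)‖ := by rw [← map_natCast (algebraMap F Ω), norm_algebraMap']
  have h5Ω0 : ((5 : ℕ) : Ω) ≠ 0 := by rw [← norm_ne_zero_iff, h5Ω]; exact norm_ne_zero_iff.mpr h50
  let SA : Set ((Ω ≃ₐ[F] Ω) → ZMod 5) := {κ | ∃ Q ∈ E1 gΩ, ∀ σ : Ω ≃ₐ[F] Ω,
    Point.map (σ : Ω →ₐ[F] Ω) Q - Q = (κ σ).val • T'}
  let SB : Set ((Ω ≃ₐ[F] Ω) → ZMod 5) := {κ | ∃ y : Ω, ‖y‖ = 1 ∧ ∀ σ : Ω ≃ₐ[F] Ω,
    σ y = algebraMap F Ω ζ ^ (κ σ).val * y}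
  have hAB : SA ⊆ SB := by
    rintro i ⟨Q, hQ, hi⟩
    refine lagrange_res hζ h5Ω0 i (fun k => zc _ (Q + k.val • T')) (fun σ k => ?_) ?_ ?_
    · rw [← zc_map, map_add, map_nsmul, hT', fixb, ← hT', vadd, ← hi σ]
      congr 1; abel
    · have : zc _ Q ∈ ball (0 : Ω) 1 := by
        rcases Q with _ | ⟨x, y, h⟩
        · change (0 : Ω) ∈ _
          simp
        · have hx : 1 < ‖x‖ := hQ
          have k := normY' gΩ h.1 hx
          have : ‖x‖ < ‖2 * y + (W⁄Ω).a₃‖ := lt_of_pow_lt_pow_left₀ 2 (norm_nonneg _)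
            (by rw [k]; exact pow_lt_pow_right₀ hx (by norm_num))
          rw [mem_ball_zero_iff]
          change ‖x / (2 * y + (W⁄Ω).a₃)‖ < 1
          rwa [norm_div, div_lt_one (by linarith)]
      simpa using this
    · have k1 := (big_add _ gΩ.h2 gΩ.a1 gΩ.a2 gΩ.hA gΩ.hB _ _ ((E1 gΩ).add_mem hQ T'E)
        ((E1 gΩ).neg_mem hQ)).2.1
      rw [zc_neg gΩ.a1, ← sub_eq_add_neg, add_sub_cancel_left, ← sub_eq_add_neg] at k1
      have v1 : (1 : ZMod 5).val = 1 := rfl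
      simp only [v1, ZMod.val_zero, one_smul, zero_smul, add_zero]
      rw [← k1]
      have k2 := (zc_nsmul gΩ ⟨T', T'E⟩ 5).2
      have k3 : ((5 • (⟨T', T'E⟩ : E1 gΩ) : E1 gΩ) : (W⁄Ω).Point) = 0 := T'5
      rw [k3] at k2
      change ‖((5 : ℕ) : Ω) * zc _ T' - 0‖ ≤ ‖zc _ T'‖ ^ 5 at k2
      have z0 : 0 < ‖zc _ T'‖ := by
        rw [norm_pos_iff]
        intro h0
        clear_value T'
        rcases T' with _ | ⟨x, y, h'⟩
        · exact T'0 rfl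
        · have hx : 1 < ‖x‖ := T'E
          have k := normY' gΩ h'.1 hx
          rcases div_eq_zero_iff.mp (show x / (2 * y + (W⁄Ω).a₃) = 0 from h0) with h0 | h0
          · rw [h0, norm_zero] at hx; linarith
          · rw [h0, norm_zero] at k
            have : 0 < ‖x‖ ^ 3 := by positivity
            rw [← k] at this; simp at this
      rw [sub_zero, norm_mul, pow_succ] at k2
      exact le_of_pow_le_pow_left₀ (by norm_num : 4 ≠ 0) z0.le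
        ((norm_zeta hζ').trans (le_of_mul_le_mul_right k2 z0))
  have hζU : ‖ζ - 1‖ < 1 :=
    lt_of_pow_lt_pow_left₀ 4 zero_le_one (by simpa using (norm_zeta hζ).trans_lt h51)
  let ζU : Additive (U1 F) := Additive.ofMul ⟨Units.mk0 ζ (hζ.ne_zero (by norm_num)), hζU⟩
  have cE : Nat.card (nsmulAddMonoidHom (α := E1 gF) 5).ker = 5 := by
    have : (nsmulAddMonoidHom (α := E1 gF) 5).ker = AddSubgroup.zmultiples T := by
      refine le_antisymm (fun S hS => ?_) (AddSubgroup.zmultiples_le.mpr hT5)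
      have hS' : 5 • S = 0 := hS
      obtain ⟨k, hk⟩ := hT _ ((big_bc _).mpr S.2) (by
        rw [← map_nsmul, ← AddSubgroup.coe_nsmul, hS']; rfl)
      refine ⟨k, Subtype.ext (binj ?_)⟩
      rw [hk, hT', ← map_nsmul]; simp
    rw [this, Nat.card_zmultiples, addOrderOf_eq_prime hT5 hT0]
  have cU : Nat.card (nsmulAddMonoidHom (α := Additive (U1 F)) 5).ker = 5 := by
    have ext : ∀ u v : Additive (U1 F), ((u.toMul : Fˣ) : F) = (v.toMul : Fˣ) → u = v :=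
      fun u v h => Additive.toMul.injective (Subtype.ext (Units.ext h))
    have z5 : 5 • ζU = 0 := ext _ _ (by simpa [ζU] using hζ.pow_eq_one)
    have : (nsmulAddMonoidHom (α := Additive (U1 F)) 5).ker = AddSubgroup.zmultiples ζU := by
      refine le_antisymm (fun S hS => ?_) (AddSubgroup.zmultiples_le.mpr z5)
      have hS' : 5 • S = 0 := hS
      have h1 : ((S.toMul : Fˣ) : F) ^ 5 = 1 := by
        simpa using congrArg (fun u : Additive (U1 F) => ((u.toMul : Fˣ) : F)) hS'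
      obtain ⟨k, -, hk⟩ := hζ.eq_pow_of_pow_eq_one h1
      exact ⟨k, ext _ _ (by simpa [ζU] using hk)⟩
    rw [this, Nat.card_zmultiples, addOrderOf_eq_prime z5 (fun h => hζ.ne_one (by norm_num) (by
      simpa [ζU] using congrArg (fun u : Additive (U1 F) => ((u.toMul : Fˣ) : F)) h))]
  obtain ⟨hidx, hidx0⟩ := count_E1 gF h50 (cE.trans cU.symm) (by rw [cE]; norm_num)
  have hα : ∀ P : E1 gF, ∃ (i : SA) (Q : (W⁄Ω).Point), Q ∈ E1 gΩ ∧
      5 • Q = Point.baseChange F Ω (P : (W⁄F).Point) ∧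
      ∀ σ : Ω ≃ₐ[F] Ω, Point.map (σ : Ω →ₐ[F] Ω) Q - Q = (i.1 σ).val • T' := by
    intro P
    obtain ⟨Q, hQ, hQ5⟩ := hdiv _ ((big_bc _).mpr P.2)
    choose k hk using fun σ : Ω ≃ₐ[F] Ω => hT _ ((E1 gΩ).sub_mem (mapE σ Q hQ) hQ) (by
      rw [smul_sub, ← map_nsmul, hQ5, fixb, sub_self])
    have : ∀ σ : Ω ≃ₐ[F] Ω, Point.map (σ : Ω →ₐ[F] Ω) Q - Q = ((k σ : ZMod 5)).val • T' :=
      fun σ => by rw [vmod, hk]
    exact ⟨⟨fun σ => k σ, Q, hQ, this⟩, Q, hQ, hQ5, this⟩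
  choose α Qa hQa1 hQa2 hQa3 using hα
  have iA : Function.Injective fun q : E1 gF ⧸ (nsmulAddMonoidHom (α := E1 gF) 5).range => α q.out := by
    intro q q' h
    have h : α q.out = α q'.out := h
    obtain ⟨S, hS⟩ := descend (F := F) (Qa q'.out - Qa q.out) fun σ => by
      have a := hQa3 q.out σ
      rw [h, ← hQa3 q'.out σ] at a
      rw [map_sub, sub_eq_sub_iff_sub_eq_sub, a]
    have hSE : S ∈ E1 gF := (big_bc (Ω := Ω) S).mp (hS ▸ (E1 gΩ).sub_mem (hQa1 _) (hQa1 _))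
    rw [← q.out_eq', ← q'.out_eq', QuotientAddGroup.eq]
    refine ⟨⟨S, hSE⟩, Subtype.ext (binj ?_)⟩
    change Point.baseChange F Ω (5 • S) = _
    rw [map_nsmul, hS, smul_sub, hQa2, hQa2, neg_add_eq_sub, AddSubgroup.coe_sub, map_sub]
  have hβ : ∀ i : SB, ∃ (u : Additive (U1 F)) (w : Ω), w ^ 5 = algebraMap F Ω (u.toMul : Fˣ) ∧
      ∀ σ : Ω ≃ₐ[F] Ω, σ w = algebraMap F Ω ζ ^ (i.1 σ).val * w := by
    rintro ⟨i, w, hw, hi⟩
    obtain ⟨x, hx⟩ := (InfiniteGalois.mem_range_algebraMap_iff_fixed (k := F) (w ^ 5)).mpr fun σ => by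
      rw [map_pow, hi, mul_pow, ← pow_mul, mul_comm _ 5, pow_mul, hζ'.pow_eq_one, one_pow, one_mul]
    have hx1 : ‖x‖ = 1 := by rw [← norm_algebraMap' Ω, hx, norm_pow, hw, one_pow]
    obtain ⟨n, hn1, hn2⟩ := exists_pow_one_unit h51 hx1
    refine ⟨Additive.ofMul ⟨Units.mk0 (x ^ n) (pow_ne_zero _ (norm_ne_zero_iff.mp (by simp [hx1]))), hn2⟩,
      w ^ n, ?_, fun σ => ?_⟩
    · rw [← pow_mul, mul_comm, pow_mul, ← hx]; simp
    · rw [map_pow, hi, mul_pow, ← pow_mul, mul_comm _ n, pow_mul, pow_eq_pow_mod n hζ'.pow_eq_one, hn1, pow_one]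
  choose β wb hb1 hb2 using hβ
  have iB : Function.Injective fun i : SB =>
      (β i : Additive (U1 F) ⧸ (nsmulAddMonoidHom (α := Additive (U1 F)) 5).range) := by
    intro i j h
    obtain ⟨t, ht⟩ := QuotientAddGroup.eq.mp h
    have w0 : ∀ i, wb i ≠ 0 := fun i h0 => by
      have := hb1 i
      rw [h0, zero_pow (by norm_num), eq_comm, map_eq_zero] at this
      exact Units.ne_zero _ this
    have t0 : algebraMap F Ω (t.toMul : Fˣ) ≠ 0 := by simp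
    have ht' : ((t.toMul : Fˣ) : F) ^ 5 * ((β i).toMul : Fˣ) = ((β j).toMul : Fˣ) := by
      have : 5 • t + β i = β j := by rw [show 5 • t = -β i + β j from ht]; abel
      simpa using congrArg (fun u : Additive (U1 F) => ((u.toMul : Fˣ) : F)) this
    have h1 : (wb j / (algebraMap F Ω (t.toMul : Fˣ) * wb i)) ^ 5 = 1 := by
      rw [div_pow, mul_pow, hb1, hb1, ← map_pow, ← map_mul, ht', div_self (by simp)]
    obtain ⟨k, -, hk⟩ := hζ'.eq_pow_of_pow_eq_one h1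
    rw [eq_div_iff (mul_ne_zero t0 (w0 i))] at hk
    refine Subtype.ext (funext fun σ => ZMod.val_injective 5 ?_)
    refine hζ'.pow_inj (ZMod.val_lt _) (ZMod.val_lt _) (mul_right_cancel₀ (w0 j) ?_)
    rw [← hb2, ← hk, map_mul, map_mul, map_pow, AlgEquiv.commutes, AlgEquiv.commutes, hb2]
    ring
  have fU : Finite (Additive (U1 F) ⧸ (nsmulAddMonoidHom (α := Additive (U1 F)) 5).range) :=
    Nat.finite_of_card_ne_zero (fun h => hidx0 (hidx.trans h))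
  have fB : Finite SB := Finite.of_injective _ iB
  have fA : Finite SA := (Set.Finite.subset fB hAB)
  have c1 := Nat.card_le_card_of_injective _ iA
  have c2 := Nat.card_le_card_of_injective _ iB
  have : SA = SB := Set.eq_of_subset_of_ncard_le hAB (c2.trans (hidx.ge.trans c1)) fB
  exact (this ▸ (⟨y, hy, hκ⟩ : κ ∈ SB) : κ ∈ SA)

end CG5

end Pool.Agent.Lib.MP_54db3e_nt.H84
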