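import Pool.Agent.Lib.MP_54db3e_nt.H84CG

open Metric WeierstrassCurve Affine

namespace Pool.Agent.Lib.MP_54db3e_nt.H84

/-- A character with open kernel of an open subgroup fixing `ζ` is a Kummer character. -/
theorem kummer_of_open {K Ω : Type*} [Field K] [Field Ω] [Algebra K Ω] [IsGalois K Ω]
    (h5 : ((5 : ℕ) : Ω) ≠ 0) {e : Ω} (he : IsPrimitiveRoot e 5) (B V : Subgroup (Ω ≃ₐ[K] Ω))
    (hB : IsOpen (B : Set (Ω ≃ₐ[K] Ω))) (hV : IsOpen (V : Set (Ω ≃ₐ[K] Ω)))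
    (hfix : ∀ γ ∈ B, γ e = e) (κ : (Ω ≃ₐ[K] Ω) → ZMod 5)
    (hadd : ∀ γ ∈ B, ∀ δ ∈ B, κ (γ * δ) = κ γ + κ δ) (h0 : ∀ γ ∈ B, γ ∈ V → κ γ = 0) :
    ∃ y : Ω, y ≠ 0 ∧ ∀ γ ∈ B, γ y = e ^ (κ γ).val * y := by
  classical
  have : Fact (Nat.Prime 5) := ⟨by norm_num⟩
  have e5 := he.pow_eq_one
  have cadd : ∀ a b : ZMod 5, e ^ (a + b).val = e ^ a.val * e ^ b.val := fun a b => by
    rw [ZMod.val_add, ← pow_add, ← pow_eq_pow_mod _ e5]
  have cmul : ∀ a b : ZMod 5, e ^ (a * b).val = (e ^ a.val) ^ b.val := fun a b => by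
    rw [ZMod.val_mul, ← pow_mul, ← pow_eq_pow_mod _ e5]
  have k1 : κ 1 = 0 := h0 1 B.one_mem V.one_mem
  have kinv : ∀ γ ∈ B, κ γ⁻¹ = -κ γ := fun γ h => by
    have := hadd γ h γ⁻¹ (B.inv_mem h)
    rw [mul_inv_cancel, k1] at this
    linear_combination -this
  have kpow : ∀ γ ∈ B, ∀ n : ℕ, κ (γ ^ n) = n * κ γ := fun γ h n => by
    induction n with
    | zero => simpa using k1
    | succ n ih => rw [pow_succ, hadd _ (B.pow_mem h n) _ h, ih]; push_cast; ring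
  by_cases hz : ∀ γ ∈ B, κ γ = 0
  · exact ⟨1, one_ne_zero, fun γ h => by simp [hz γ h]⟩
  push Not at hz
  obtain ⟨s₀, hs₀, hs₀'⟩ := hz
  obtain ⟨s, hs, hs1⟩ : ∃ s ∈ B, κ s = 1 :=
    ⟨s₀ ^ ((κ s₀)⁻¹).val, B.pow_mem hs₀ _, by rw [kpow _ hs₀, ZMod.natCast_zmod_val, inv_mul_cancel₀ hs₀']⟩
  let H : Subgroup (Ω ≃ₐ[K] Ω) :=
    { carrier := {γ | γ ∈ B ∧ κ γ = 0}
      one_mem' := ⟨B.one_mem, k1⟩
      mul_mem' := fun {a b} ha hb => ⟨B.mul_mem ha.1 hb.1, by rw [hadd a ha.1 b hb.1, ha.2, hb.2, add_zero]⟩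
      inv_mem' := fun {a} ha => ⟨B.inv_mem ha.1, by rw [kinv a ha.1, ha.2, neg_zero]⟩ }
  have hH : IsOpen (H : Set (Ω ≃ₐ[K] Ω)) :=
    Subgroup.isOpen_mono (H₁ := B ⊓ V) (fun γ h => ⟨h.1, h0 γ h.1 h.2⟩) (hB.inter hV)
  have hcl := InfiniteGalois.fixingSubgroup_fixedField ⟨H, H.isClosed_of_isOpen hH⟩
  obtain ⟨z, hz, hsz⟩ : ∃ z ∈ IntermediateField.fixedField H, s z ≠ z := by
    by_contra hc
    push Not at hc
    have : s ∈ H := by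
      have h2 : s ∈ (IntermediateField.fixedField H).fixingSubgroup :=
        (IntermediateField.mem_fixingSubgroup_iff _ _).mpr hc
      exact hcl.le h2
    exact one_ne_zero (hs1.symm.trans this.2)
  let Z : ZMod 5 → Ω := fun k => (s ^ k.val) z
  have hZ : ∀ γ ∈ B, ∀ k, γ (Z k) = Z (k + κ γ) := by
    intro γ hγ k
    have hm : (s ^ (k + κ γ).val)⁻¹ * (γ * s ^ k.val) ∈ H := by
      refine ⟨B.mul_mem (B.inv_mem (B.pow_mem hs _)) (B.mul_mem hγ (B.pow_mem hs _)), ?_⟩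
      rw [hadd _ (B.inv_mem (B.pow_mem hs _)) _ (B.mul_mem hγ (B.pow_mem hs _)),
        kinv _ (B.pow_mem hs _), hadd _ hγ _ (B.pow_mem hs _), kpow _ hs, kpow _ hs, hs1]
      simp only [ZMod.natCast_zmod_val]; ring
    have := (IntermediateField.mem_fixedField_iff H z).mp hz _ hm
    have h2 := congrArg (s ^ (k + κ γ).val) this
    rw [← AlgEquiv.mul_apply, mul_inv_cancel_left] at h2
    exact h2
  let c : ZMod 5 → Ω := fun j => ∑ k : ZMod 5, e ^ (-(j * k)).val * Z k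
  have hc : ∀ γ ∈ B, ∀ j, γ (c j) = e ^ (j * κ γ).val * c j := by
    intro γ hγ j
    simp only [c, map_sum, map_mul, map_pow, hZ γ hγ, Finset.mul_sum, hfix γ hγ]
    rw [← Equiv.sum_comp (Equiv.addRight (κ γ))
      (fun k => e ^ (j * κ γ).val * (e ^ (-(j * k)).val * Z k))]
    refine Finset.sum_congr rfl fun k _ => ?_
    rw [← mul_assoc, ← cadd]
    congr 3
    simp only [Equiv.coe_addRight]; ring
  have orth : ∀ a : ZMod 5, ∑ j : ZMod 5, e ^ (j * a).val = if a = 0 then ((5 : ℕ) : Ω) else 0 := by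
    intro a
    split_ifs with ha
    · simp [ha]
    · rw [show ∑ j : ZMod 5, e ^ (j * a).val = ∑ j : ZMod 5, e ^ j.val from
        Equiv.sum_comp (Equiv.mulRight₀ a ha) (fun j => e ^ j.val)]
      have hs := he.geom_sum_eq_zero (by norm_num)
      rw [← Fin.sum_univ_eq_sum_range] at hs
      exact hs
  have inv : ∀ a : ZMod 5, ∑ j : ZMod 5, e ^ (j * a).val * c j = ((5 : ℕ) : Ω) * Z a := by
    intro a
    simp only [c, Finset.mul_sum]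
    rw [Finset.sum_comm]
    have : ∀ k : ZMod 5, ∑ j : ZMod 5, e ^ (j * a).val * (e ^ (-(j * k)).val * Z k) =
        (if a - k = 0 then ((5 : ℕ) : Ω) else 0) * Z k := by
      intro k
      rw [← orth, Finset.sum_mul]
      refine Finset.sum_congr rfl fun j _ => ?_
      rw [← mul_assoc, ← cadd]
      congr 3; ring
    simp only [this, sub_eq_zero, ite_mul, zero_mul, Finset.sum_ite_eq, Finset.mem_univ, if_true]
  obtain ⟨j, hj, hcj⟩ : ∃ j, j ≠ 0 ∧ c j ≠ 0 := by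
    by_contra hn
    push Not at hn
    have k : ∀ a : ZMod 5, ((5 : ℕ) : Ω) * Z a = c 0 := fun a => by
      rw [← inv, Finset.sum_eq_single 0 (fun j _ hj => by rw [hn j hj, mul_zero]) (by simp)]
      simp
    have := mul_left_cancel₀ h5 ((k 1).trans (k 0).symm)
    have v1 : (1 : ZMod 5).val = 1 := rfl
    exact hsz (by simpa [Z, v1] using this)
  refine ⟨c j ^ (j⁻¹).val, pow_ne_zero _ hcj, fun γ hγ => ?_⟩
  rw [map_pow, hc γ hγ, mul_pow, ← cmul]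
  congr 3
  field_simp

section
variable {Ω : Type*} [NormedField Ω] [IsUltrametricDist Ω]

lemma exists_root_norm [IsAlgClosed Ω] (h50 : ((5 : ℕ) : Ω) ≠ 0) (h51 : ‖((5 : ℕ) : Ω)‖ < 1) {e : Ω}
    (he : IsPrimitiveRoot e 5) (b : ℕ) :
    ∃ ξ : Ω, ξ ^ 5 ^ (b + 1) = 1 ∧ ‖ξ - 1‖ ^ (4 * 5 ^ b) = ‖((5 : ℕ) : Ω)‖ := by
  have h2 : ‖(2 : Ω)‖ ≤ 1 := by simpa using IsUltrametricDist.norm_natCast_le_one Ω 2
  have p5 := norm_pos_iff.mpr h50
  have m : ∀ a b : Ω, ‖a‖ ≤ 1 → ‖b‖ ≤ 1 → ‖a * b‖ ≤ 1 := fun a b ha hb => by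
    rw [norm_mul]; exact mul_le_one₀ ha (norm_nonneg _) hb
  have m' : ∀ a b : Ω, ‖a‖ ≤ 1 → ‖b‖ < 1 → ‖a * b‖ < 1 := fun a b ha hb => by
    rw [norm_mul]; exact mul_lt_one_of_nonneg_of_lt_one_right ha (norm_nonneg _) hb
  induction b with
  | zero =>
    refine ⟨e, by simpa using he.pow_eq_one, ?_⟩
    have h1 : ‖e - 1‖ < 1 :=
      lt_of_pow_lt_pow_left₀ 4 zero_le_one (by simpa using (norm_zeta he).trans_lt h51)
    have hs := he.geom_sum_eq_zero (by norm_num)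
    simp only [Finset.sum_range_succ, Finset.sum_range_zero] at hs
    rw [pow_zero, mul_one, ← norm_pow, show (e - 1) ^ 4 = -(((5 : ℕ) : Ω) * (1 + (2 * (e - 1) +
      (2 * ((e - 1) * (e - 1)) + (e - 1) * ((e - 1) * (e - 1)))))) by push_cast; linear_combination hs,
      norm_neg, norm_mul, nadd, norm_one, mul_one]
    rw [norm_one]
    exact nlt (m' _ _ h2 h1) (nlt (m' _ _ h2 (m' _ _ h1.le h1)) (m' _ _ h1.le (m' _ _ h1.le h1)))
  | succ b ih =>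
    obtain ⟨ξ, hξ, hn⟩ := ih
    obtain ⟨η, rfl⟩ := IsAlgClosed.exists_pow_nat_eq ξ (by norm_num : 0 < 5)
    refine ⟨η, by rw [pow_succ' 5, pow_mul]; exact hξ, ?_⟩
    have hη : ‖η‖ = 1 := by
      have := congrArg norm hξ
      rw [← pow_mul, norm_pow, norm_one] at this
      exact (pow_eq_one_iff_of_nonneg (norm_nonneg _) (by positivity)).mp this
    obtain ⟨t, rfl⟩ : ∃ t, η = 1 + t := ⟨η - 1, by ring⟩
    have ht : ‖t‖ ≤ 1 := by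
      rw [show t = (1 + t) + -1 by ring]; exact nle hη.le (by simp)
    rw [add_sub_cancel_left]
    have ex : (1 + t) ^ 5 - 1 = t ^ 5 + ((5 : ℕ) : Ω) * (t * (1 + (2 * t + (2 * (t * t) + t * (t * t))))) := by
      push_cast; ring
    have sm : ‖((5 : ℕ) : Ω) * (t * (1 + (2 * t + (2 * (t * t) + t * (t * t)))))‖ ≤ ‖((5 : ℕ) : Ω)‖ * ‖t‖ := by
      rw [norm_mul, norm_mul]
      gcongr
      exact mul_le_of_le_one_right (norm_nonneg _) (nle (by simp)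
        (nle (m _ _ h2 ht) (nle (m _ _ h2 (m _ _ ht ht)) (m _ _ ht (m _ _ ht ht)))))
    by_cases hb : ‖((5 : ℕ) : Ω)‖ * ‖t‖ < ‖t‖ ^ 5
    · rw [ex, nadd (by rw [norm_pow]; exact sm.trans_lt hb), norm_pow, ← pow_mul] at hn
      rw [← hn]; congr 1; ring
    · exfalso
      push Not at hb
      have a1 : ‖(1 + t) ^ 5 - 1‖ ≤ ‖((5 : ℕ) : Ω)‖ := by
        rw [ex]
        exact (nle (by rwa [norm_pow]) sm).trans (mul_le_of_le_one_right p5.le ht)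
      have a2 : ‖(1 + t) ^ 5 - 1‖ ^ (4 * 5 ^ b) ≤ ‖((5 : ℕ) : Ω)‖ ^ (4 * 5 ^ b) := by gcongr
      have a3 : 1 < 4 * 5 ^ b := by have := Nat.one_le_pow b 5 (by norm_num); omega
      exact absurd (hn.ge.trans a2) (not_le.mpr (pow_lt_self_of_lt_one₀ p5 h51 a3))

end

section
variable [Fact (Nat.Prime 5)] {Ω : Type*} [NormedField Ω] [IsUltrametricDist Ω] [NormedAlgebra ℚ_[5] Ω]
  [IsGalois ℚ_[5] Ω] [IsAlgClosed Ω]

lemma norm5 : ‖((5 : ℕ) : Ω)‖ = (5 : ℝ)⁻¹ := by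
  rw [← map_natCast (algebraMap ℚ_[5] Ω), norm_algebraMap', Padic.norm_p]
  norm_num

lemma norm_aut (γ : Ω ≃ₐ[ℚ_[5]] Ω) (x : Ω) : ‖γ x‖ = ‖x‖ := by
  rw [NormedAlgebra.norm_eq_spectralNorm ℚ_[5], NormedAlgebra.norm_eq_spectralNorm ℚ_[5] x]
  exact (spectralNorm_eq_of_equiv γ x).symm

lemma five_ne : ((5 : ℕ) : Ω) ≠ 0 := by
  rw [← norm_ne_zero_iff, norm5]; norm_num

lemma exists_pow_norm {y : Ω} (hy : y ≠ 0) :
    ∃ (n : ℕ) (a : ℤ), n ≠ 0 ∧ ‖y‖ ^ n = ‖((5 : ℕ) : Ω)‖ ^ a := by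
  have hi : IsIntegral ℚ_[5] y := Algebra.IsIntegral.isIntegral y
  have hd := minpoly.natDegree_pos hi
  have h0 := minpoly.coeff_zero_ne_zero hi hy
  refine ⟨(minpoly ℚ_[5] y).natDegree, ((minpoly ℚ_[5] y).coeff 0).valuation, hd.ne', ?_⟩
  rw [NormedAlgebra.norm_eq_spectralNorm ℚ_[5] y, spectralNorm.spectralNorm_eq_norm_coeff_zero_rpow, one_div,
    Real.rpow_inv_natCast_pow (norm_nonneg _) hd.ne', norm5, Padic.norm_eq_zpow_neg_valuation h0]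
  simp

/-- A Kummer generator can be replaced by a unit after adjoining roots of unity. -/
lemma unit_up {e : Ω} (he : IsPrimitiveRoot e 5) {y : Ω} (hy : y ≠ 0) :
    ∃ (b : ℕ) (w : Ω), ‖w‖ = 1 ∧
      ∀ (γ : Ω ≃ₐ[ℚ_[5]] Ω) (i : ℕ),
        (∀ ξ : Ω, ξ ^ 5 ^ b = 1 → γ ξ = ξ) → γ y = e ^ i * y → γ w = e ^ i * w := by
  obtain ⟨n, a, hn, h⟩ := exists_pow_norm hy
  obtain ⟨b, d, hd, rfl⟩ := Nat.exists_eq_pow_mul_and_not_dvd hn 5 (by norm_num)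
  have h50 : ((5 : ℕ) : Ω) ≠ 0 := five_ne
  obtain ⟨ξ, hξ, hξn⟩ := exists_root_norm h50 (by rw [norm5]; norm_num) he b
  have p : 0 < ‖ξ - 1‖ := by
    rcases (norm_nonneg (ξ - 1)).lt_or_eq with k | k
    · exact k
    · rw [← k, zero_pow (by positivity), eq_comm, norm_eq_zero] at hξn
      exact absurd hξn h50
  have k : ‖y‖ ^ d = ‖ξ - 1‖ ^ (4 * a) := by
    refine (pow_left_inj₀ (by positivity) (by positivity) (show 5 ^ b ≠ 0 by positivity)).mp ?_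
    rw [← pow_mul, mul_comm d, h, ← hξn, ← zpow_natCast, ← zpow_mul, ← zpow_natCast, ← zpow_mul]
    congr 1; push_cast; ring
  refine ⟨b + 1, (y ^ d / (ξ - 1) ^ (4 * a)) ^ d ^ 3, ?_, fun γ i hγ hi => ?_⟩
  · rw [norm_pow, norm_div, norm_pow, norm_zpow, k, div_self (by positivity), one_pow]
  · have hm : d * d ^ 3 % 5 = 1 := by
      have : d % 5 = 1 ∨ d % 5 = 2 ∨ d % 5 = 3 ∨ d % 5 = 4 := by omega
      rcases this with h | h | h | h <;> simp [Nat.mul_mod, Nat.pow_mod, h]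
    rw [map_pow, map_div₀, map_zpow₀, map_sub, map_one, hγ ξ hξ, map_pow, hi, mul_pow, mul_div_assoc,
      mul_pow, ← pow_mul, ← pow_mul, mul_comm i, pow_mul e, pow_eq_pow_mod _ he.pow_eq_one, hm, pow_one]

variable {R : Type*} [CommRing R] [Algebra R ℚ_[5]] [Algebra R Ω]
  [IsScalarTower R ℚ_[5] Ω] [DecidableEq Ω] {W : Affine R}

/-- The action of the local Galois group on points. -/
noncomputable abbrev act (γ : Ω ≃ₐ[ℚ_[5]] Ω) :
    (W⁄Ω).Point →+ (W⁄Ω).Point :=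
  Point.map (γ : Ω →ₐ[ℚ_[5]] Ω)

theorem unit_class_sub (g : Good (W⁄Ω)) {e : Ω} (he : IsPrimitiveRoot e 5)
    (T : (W⁄Ω).Point) (hTE : T ∈ E1 g) (hT0 : T ≠ 0) (hT5 : 5 • T = 0)
    (hT : ∀ S ∈ E1 g, 5 • S = 0 → ∃ k : ℕ, S = k • T) (hdiv : ∀ P ∈ E1 g, ∃ Q ∈ E1 g, 5 • Q = P)
    (B : Subgroup (Ω ≃ₐ[ℚ_[5]] Ω))
    (hB : IsOpen (B : Set (Ω ≃ₐ[ℚ_[5]] Ω)))
    (hBe : ∀ γ ∈ B, γ e = e) (hBT : ∀ γ ∈ B, act γ T = T)
    (κ : (Ω ≃ₐ[ℚ_[5]] Ω) → ZMod 5) (y : Ω) (hy : ‖y‖ = 1)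
    (hκ : ∀ γ ∈ B, γ y = e ^ (κ γ).val * y) :
    ∃ Q ∈ E1 g, ∀ γ ∈ B, act γ Q - Q = (κ γ).val • T := by
  classical
  let F := IntermediateField.fixedField B
  have hF : F.fixingSubgroup = B := InfiniteGalois.fixingSubgroup_fixedField ⟨B, B.isClosed_of_isOpen hB⟩
  have : FiniteDimensional ℚ_[5] F := (InfiniteGalois.isOpen_iff_finite F).mp (by rw [hF]; exact hB)
  let _ : NormedSpace ℚ_[5] F := ⟨fun a x => norm_smul_le a (x : Ω)⟩
  have : ProperSpace F := FiniteDimensional.proper ℚ_[5] F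
  let _ : NormedAlgebra F Ω := ⟨fun a x => (norm_mul (a : Ω) x).le⟩
  have : IsScalarTower R F Ω := IsScalarTower.of_algebraMap_eq fun _ => rfl
  have hr : ∀ σ : Ω ≃ₐ[F] Ω, σ.restrictScalars ℚ_[5] ∈ B := fun σ => by
    rw [← hF, IntermediateField.mem_fixingSubgroup_iff]
    exact fun x hx => σ.commutes ⟨x, hx⟩
  have hm : ∀ (σ : Ω ≃ₐ[F] Ω) (P : (W⁄Ω).Point),
      Point.map (σ : Ω →ₐ[F] Ω) P = act (σ.restrictScalars ℚ_[5]) P := by
    rintro σ (_ | _) <;> rfl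
  have ca : ∀ r : R, ((algebraMap R F r : F) : Ω) = algebraMap R Ω r :=
    fun _ => rfl
  have gF : Good (W⁄F) :=
    { h2 := g.h2
      a1 := Subtype.ext g.a1
      a2 := Subtype.ext g.a2
      hA := g.hA
      hB := g.hB }
  obtain ⟨T₀, rfl⟩ := descend (F := F) T fun σ => by rw [hm]; exact hBT _ (hr σ)
  let ζ : F := ⟨e, (IntermediateField.mem_fixedField_iff B e).mpr hBe⟩
  have hζ : IsPrimitiveRoot ζ 5 := IsPrimitiveRoot.of_map_of_injective (f := algebraMap F Ω)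
    he (algebraMap F _).injective
  have binj : Function.Injective (Point.baseChange (W' := W) F Ω) := Point.map_injective _
  obtain ⟨Q, hQ, h⟩ := unit_class (F := F) (Ω := Ω) (W := W) (fun σ x => norm_aut (σ.restrictScalars ℚ_[5]) x) gF g
    (fun h => five_ne (Ω := Ω) (congrArg Subtype.val h))
    (by change ‖((5 : ℕ) : Ω)‖ < 1; rw [norm5]; norm_num) hζ ⟨T₀, (big_bc _).mp hTE⟩
    (fun h => hT0 (by rw [show T₀ = 0 from congrArg Subtype.val h]; rfl))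
    (Subtype.ext (binj (by rw [AddSubgroup.coe_nsmul, map_nsmul]; exact hT5))) hT hdiv
    (fun σ => κ (σ.restrictScalars ℚ_[5])) y hy (fun σ => hκ _ (hr σ))
  refine ⟨Q, hQ, fun γ hγ => ?_⟩
  have := h (IntermediateField.fixingSubgroupEquiv F ⟨γ, hF.ge hγ⟩)
  rw [hm] at this
  exact this

/-- Coates-Greenberg: a locally constant cocycle with values in the `5`-power torsion of the kernel of
reduction becomes a coboundary higher up in a tower that contains all `5`-power roots of unity. -/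
theorem coates_greenberg (g : Good (W⁄Ω))
    (T : (W⁄Ω).Point) (hTE : T ∈ E1 g) (hT0 : T ≠ 0) (hT5 : 5 • T = 0)
    (hT : ∀ S ∈ E1 g, 5 • S = 0 → ∃ k : ℕ, S = k • T) (hdiv : ∀ P ∈ E1 g, ∃ Q ∈ E1 g, 5 • Q = P)
    (B : ℕ → Subgroup (Ω ≃ₐ[ℚ_[5]] Ω)) (hanti : Antitone B)
    (hB : ∀ m, IsOpen (B m : Set (Ω ≃ₐ[ℚ_[5]] Ω)))
    (hμ : ∀ m, ∀ γ ∈ B m, ∀ ξ : Ω, ξ ^ 5 ^ m = 1 → γ ξ = ξ)
    (hBT : ∀ γ ∈ B 1, act γ T = T) (k m : ℕ)
    (f : (Ω ≃ₐ[ℚ_[5]] Ω) → (W⁄Ω).Point)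
    (hcoc : ∀ γ ∈ B m, ∀ δ ∈ B m, f (γ * δ) = f γ + act γ (f δ))
    (hval : ∀ γ ∈ B m, f γ ∈ E1 g ∧ 5 ^ k • f γ = 0)
    (V : Subgroup (Ω ≃ₐ[ℚ_[5]] Ω))
    (hV : IsOpen (V : Set (Ω ≃ₐ[ℚ_[5]] Ω))) (h0 : ∀ γ ∈ B m, γ ∈ V → f γ = 0) :
    ∃ m', m ≤ m' ∧ ∃ Q ∈ E1 g, ∀ γ ∈ B m', f γ = act γ Q - Q := by
  classical
  have : NeZero ((5 : ℕ) : Ω) := ⟨five_ne⟩
  obtain ⟨e, he⟩ := HasEnoughRootsOfUnity.exists_primitiveRoot Ω 5
  have actE : ∀ γ, ∀ Q ∈ E1 g, act γ Q ∈ E1 g := by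
    rintro σ (_ | ⟨x, y, h⟩) hQ
    · exact hQ
    · change 1 < ‖σ x‖
      rw [norm_aut]; exact hQ
  have actmul : ∀ γ δ (Q : (W⁄Ω).Point), act (γ * δ) Q = act γ (act δ Q) := by
    rintro γ δ (_ | _) <;> rfl
  have stab : ∀ Q : (W⁄Ω).Point, ∃ U : Subgroup (Ω ≃ₐ[ℚ_[5]] Ω),
      IsOpen (U : Set (Ω ≃ₐ[ℚ_[5]] Ω)) ∧ ∀ γ ∈ U, act γ Q = Q := by
    rintro (_ | ⟨x, y, h⟩)
    · exact ⟨⊤, isOpen_univ, fun _ _ => rfl⟩
    · refine ⟨MulAction.stabilizer _ x ⊓ MulAction.stabilizer _ y,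
        (stabilizer_isOpen_of_isIntegral x).inter (stabilizer_isOpen_of_isIntegral y), fun γ hγ => ?_⟩
      rw [Point.map_some]
      simp only [Point.some.injEq]
      exact ⟨hγ.1, hγ.2⟩
  have vmod : ∀ k : ℕ, ((k : ZMod 5)).val • T = k • T := fun k => by
    rw [ZMod.val_natCast, ← nsmul_eq_mod_nsmul _ hT5]
  have vadd : ∀ a b : ZMod 5, (a + b).val • T = a.val • T + b.val • T := fun a b => by
    rw [ZMod.val_add, ← nsmul_eq_mod_nsmul _ hT5, add_smul]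
  have vinj : ∀ a b : ZMod 5, a.val • T = b.val • T → a = b := fun a b h => by
    have ho : addOrderOf T = 5 := addOrderOf_eq_prime hT5 hT0
    exact ZMod.val_injective 5 (nsmul_injOn_Iio_addOrderOf (by rw [ho]; exact ZMod.val_lt a)
      (by rw [ho]; exact ZMod.val_lt b) h)
  induction k generalizing f with
  | zero => exact ⟨m, le_rfl, 0, (E1 g).zero_mem, fun γ h => by simpa using (hval γ h).2⟩
  | succ k ih =>
    obtain ⟨m₁, hm₁, Q₁, hQ₁, h₁⟩ := ih (fun γ => 5 • f γ)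
      (fun γ hγ δ hδ => by rw [hcoc γ hγ δ hδ, smul_add, map_nsmul])
      (fun γ hγ => ⟨(E1 g).nsmul_mem (hval γ hγ).1 5, by rw [← mul_smul, ← pow_succ]; exact (hval γ hγ).2⟩)
      (fun γ hγ hv => by rw [h0 γ hγ hv, smul_zero])
    obtain ⟨Q₂, hQ₂, rfl⟩ := hdiv Q₁ hQ₁
    obtain ⟨U, hU, hUQ⟩ := stab Q₂
    set m₂ := max m₁ 1 with hm₂
    have l1 : B m₂ ≤ B m₁ := hanti (le_max_left _ _)
    have l2 : B m₂ ≤ B 1 := hanti (le_max_right _ _)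
    have l3 : B m₂ ≤ B m := l1.trans (hanti hm₁)
    have ex : ∀ γ, ∃ i : ZMod 5, γ ∈ B m₂ → f γ - (act γ Q₂ - Q₂) = i.val • T := by
      intro γ
      by_cases hγ : γ ∈ B m₂
      · obtain ⟨i, hi⟩ := hT _ ((E1 g).sub_mem (hval γ (l3 hγ)).1
          ((E1 g).sub_mem (actE γ _ hQ₂) hQ₂)) (by
            rw [smul_sub, smul_sub, ← map_nsmul, ← h₁ γ (l1 hγ), sub_self])
        exact ⟨i, fun _ => by rw [vmod, hi]⟩
      · exact ⟨0, fun h => absurd h hγ⟩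
    choose κ hκ using ex
    have hBe : ∀ γ ∈ B m₂, γ e = e := fun γ hγ => hμ 1 γ (l2 hγ) e (by simpa using he.pow_eq_one)
    obtain ⟨y, hy0, hy⟩ := kummer_of_open five_ne he (B m₂) (V ⊓ U) (hB _) (hV.inter hU) hBe κ
      (fun γ hγ δ hδ => vinj _ _ (by
        have := congrArg (act γ) (hκ δ hδ)
        rw [map_nsmul, hBT γ (l2 hγ), map_sub, map_sub] at this
        rw [vadd, ← this, ← hκ γ hγ, ← hκ _ ((B m₂).mul_mem hγ hδ), hcoc γ (l3 hγ) δ (l3 hδ), actmul]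
        abel))
      (fun γ hγ hv => vinj _ _ (by
        rw [← hκ γ hγ, h0 γ (l3 hγ) hv.1, hUQ γ hv.2]; simp))
    obtain ⟨b, w, hw, hwb⟩ := unit_up he hy0
    have l4 : B (max m₂ b) ≤ B m₂ := hanti (le_max_left _ _)
    obtain ⟨Q₃, hQ₃, h₃⟩ := unit_class_sub g he T hTE hT0 hT5 hT hdiv (B (max m₂ b)) (hB _)
      (fun γ h => hBe γ (l4 h)) (fun γ h => hBT γ (l2 (l4 h))) κ w hw
      (fun γ h => hwb γ _ (hμ b γ (hanti (le_max_right _ _) h)) (hy γ (l4 h)))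
    refine ⟨max m₂ b, hm₁.trans ((le_max_left _ _).trans (le_max_left _ _)), Q₂ + Q₃,
      (E1 g).add_mem hQ₂ hQ₃, fun γ h => ?_⟩
    have a := hκ γ (l4 h)
    rw [← h₃ γ h] at a
    rw [map_add, sub_eq_iff_eq_add.mp a]
    abel

end

end Pool.Agent.Lib.MP_54db3e_nt.H84
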