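import Mathlib

namespace Pool.Agent.Lib.MP_54db3e_nt.H84

open Metric

theorem surj_of_isometry {X : Type*} [MetricSpace X] [CompactSpace X] {g : X → X}
    (hg : Isometry g) : Function.Surjective g := by
  intro y
  by_contra hy
  have hcl : IsClosed (Set.range g) := (isCompact_range hg.continuous).isClosed
  obtain ⟨ε, hε, hb⟩ := Metric.isOpen_iff.mp hcl.isOpen_compl y hy
  have far : ∀ m k : ℕ, ε ≤ dist (g^[m] y) (g^[m + (k + 1)] y) := by
    intro m k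
    induction m with
    | zero =>
      by_contra hlt
      refine hb (a := g^[0 + (k + 1)] y) (by simpa [dist_comm] using hlt) ?_
      rw [zero_add, Function.iterate_succ_apply']
      exact ⟨_, rfl⟩
    | succ m ih =>
      rw [show m + 1 + (k + 1) = (m + (k + 1)) + 1 by ring, Function.iterate_succ_apply',
        Function.iterate_succ_apply', hg.dist_eq]
      exact ih
  obtain ⟨a, φ, hφ, hlim⟩ := CompactSpace.tendsto_subseq (fun n => g^[n] y)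
  obtain ⟨N, hN⟩ := Metric.cauchySeq_iff.mp hlim.cauchySeq ε hε
  have h1 := hN N le_rfl (N + 1) (Nat.le_succ N)
  obtain ⟨k, hk⟩ := Nat.exists_eq_add_of_lt (hφ (Nat.lt_succ_self N))
  have h2 := far (φ N) k
  simp only [Function.comp] at h1
  rw [show φ (N + 1) = φ N + (k + 1) by omega] at h1
  linarith

variable {F : Type*} [NormedField F] [IsUltrametricDist F] [ProperSpace F]

/-- An abelian group with an isometric chart onto the open unit ball in which multiplication by `p`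
scales the ball of radius `ρ` by `‖p‖`. -/
structure Chart (F : Type*) [NormedField F] (A : Type*) [AddCommGroup A] (p : ℕ) (ρ : ℝ) where
  z : A → F
  range_eq : Set.range z = ball 0 1
  iso : ∀ P Q, ‖z P - z Q‖ = ‖z (P - Q)‖
  inj : ∀ P, z P = 0 → P = 0
  mul : ∀ P, ‖z P‖ < ρ → ‖z (p • P)‖ = ‖(p : F)‖ * ‖z P‖

namespace Chart
variable {A A' : Type*} [AddCommGroup A] [AddCommGroup A'] {p : ℕ} {ρ : ℝ}

omit [IsUltrametricDist F] [ProperSpace F] in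
lemma z0 (c : Chart F A p ρ) : c.z 0 = 0 := by simpa using (c.iso 0 0).symm

omit [IsUltrametricDist F] [ProperSpace F] in
lemma zinj (c : Chart F A p ρ) : Function.Injective c.z := fun P Q h => by
  have := c.iso P Q
  rw [h, sub_self, norm_zero] at this
  exact sub_eq_zero.mp (c.inj _ (norm_eq_zero.mp this.symm))

def B (c : Chart F A p ρ) (r : ℝ) (hr : 0 < r) : AddSubgroup A where
  carrier := {P | ‖c.z P‖ < r}
  zero_mem' := by simpa [c.z0] using hr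
  neg_mem' {P} h := by
    have := c.iso 0 P
    rw [c.z0, zero_sub, zero_sub, norm_neg] at this
    change ‖c.z (-P)‖ < r
    rwa [← this]
  add_mem' {P Q} hP hQ := by
    have h1 := c.iso 0 Q
    rw [c.z0, zero_sub, zero_sub, norm_neg] at h1
    have h2 := c.iso P (-Q)
    rw [sub_neg_eq_add] at h2
    change ‖c.z (P + Q)‖ < r
    rw [← h2, sub_eq_add_neg]
    refine (IsUltrametricDist.norm_add_le_max _ _).trans_lt (max_lt hP ?_)
    rw [norm_neg, ← h1]; exact hQ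

omit [ProperSpace F] in
lemma rel (c : Chart F A p ρ) {r : ℝ} (hr : 0 < r) (P Q : A) :
    QuotientAddGroup.leftRel (c.B r hr) P Q ↔ ‖c.z Q - c.z P‖ < r := by
  rw [QuotientAddGroup.leftRel_apply, c.iso, neg_add_eq_sub]; rfl

omit [ProperSpace F] in
lemma index_eq (c : Chart F A p ρ) (c' : Chart F A' p ρ) {r : ℝ} (hr : 0 < r) :
    (c.B r hr).index = (c'.B r hr).index := by
  let e : A ≃ A' := (Equiv.ofInjective _ c.zinj).trans
    ((Equiv.setCongr (c.range_eq.trans c'.range_eq.symm)).trans (Equiv.ofInjective _ c'.zinj).symm)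
  have he : ∀ P, c'.z (e P) = c.z P := fun P => by
    simp [e, Equiv.apply_ofInjective_symm]
  exact Nat.card_congr (Quotient.congr e fun P Q => by rw [c.rel, c'.rel, he, he])

lemma index_ne (c : Chart F A p ρ) {r : ℝ} (hr : 0 < r) : (c.B r hr).index ≠ 0 := by
  classical
  have hK : IsCompact (ball (0 : F) 1) :=
    isCompact_of_isClosed_isBounded (IsUltrametricDist.isClosed_ball _ _) isBounded_ball
  obtain ⟨t, ht1, ht2, ht3⟩ := hK.finite_cover_balls hr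
  rw [← c.range_eq] at ht1 ht3
  have : Finite t := ht2
  choose g hg using fun x : t => ht1 x.2
  have : Finite (A ⧸ c.B r hr) := Finite.of_surjective (fun x : t => (g x : A ⧸ c.B r hr)) (by
    intro q
    obtain ⟨P, rfl⟩ := QuotientAddGroup.mk_surjective q
    obtain ⟨x, hx, hP⟩ := Set.mem_iUnion₂.mp (ht3 ⟨P, rfl⟩)
    refine ⟨⟨x, hx⟩, Quotient.sound ((c.rel hr _ _).mpr ?_)⟩
    rw [hg]; simpa [dist_eq_norm] using hP)
  exact AddSubgroup.index_ne_zero_of_finite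

lemma map_B (c : Chart F A p ρ) (hρ : 0 < ρ) (hρ1 : ρ ≤ 1) (hp : (p : F) ≠ 0) :
    (c.B ρ hρ).map (nsmulAddMonoidHom p) =
      c.B (‖(p : F)‖ * ρ) (mul_pos (norm_pos_iff.mpr hp) hρ) := by
  have hn : 0 < ‖(p : F)‖ := norm_pos_iff.mpr hp
  ext Q
  constructor
  · rintro ⟨P, hP, rfl⟩
    change ‖c.z (p • P)‖ < _
    rw [c.mul P hP]
    exact mul_lt_mul_of_pos_left hP hn
  · intro hQ
    have hK : IsCompact (ball (0 : F) ρ) :=
      isCompact_of_isClosed_isBounded (IsUltrametricDist.isClosed_ball _ _) isBounded_ball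
    have : CompactSpace (ball (0 : F) ρ) := isCompact_iff_compactSpace.mp hK
    have hs : ∀ x : ball (0 : F) ρ, ∃ P, c.z P = x := fun x => by
      have : (x : F) ∈ Set.range c.z := by rw [c.range_eq]; exact ball_subset_ball hρ1 x.2
      exact this
    choose s hs using hs
    have hsB : ∀ x, s x ∈ c.B ρ hρ := fun x => by
      change ‖c.z (s x)‖ < ρ
      rw [hs]; exact mem_ball_zero_iff.mp x.2
    let g : ball (0 : F) ρ → ball (0 : F) ρ := fun x => ⟨c.z (p • s x) / p, by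
      rw [mem_ball_zero_iff, norm_div, c.mul _ (hsB x), mul_div_cancel_left₀ _ hn.ne']
      exact hsB x⟩
    have hg : Isometry g := Isometry.of_dist_eq fun x y => by
      simp only [g, Subtype.dist_eq, dist_eq_norm]
      rw [← sub_div, norm_div, c.iso, ← smul_sub, c.mul _ ((c.B ρ hρ).sub_mem (hsB x) (hsB y)),
        mul_div_cancel_left₀ _ hn.ne', ← c.iso, hs, hs]
    obtain ⟨x, hx⟩ := surj_of_isometry hg ⟨c.z Q / p, by
      rw [mem_ball_zero_iff, norm_div, div_lt_iff₀' hn]; exact hQ⟩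
    refine ⟨s x, hsB x, c.zinj ?_⟩
    have := congrArg Subtype.val hx
    exact (div_left_inj' hp).mp this

lemma formula (c : Chart F A p ρ) (hρ : 0 < ρ) (hρ1 : ρ ≤ 1) (hp : (p : F) ≠ 0) :
    (c.B (‖(p : F)‖ * ρ) (mul_pos (norm_pos_iff.mpr hp) hρ)).index *
      Nat.card (nsmulAddMonoidHom (α := A) p).ker =
    (c.B ρ hρ).index * (nsmulAddMonoidHom (α := A) p).range.index := by
  have hbot : c.B ρ hρ ⊓ (nsmulAddMonoidHom (α := A) p).ker = ⊥ := by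
    rw [eq_bot_iff]
    rintro P ⟨h1, h2⟩
    have h3 := c.mul P h1
    have h4 : p • P = 0 := h2
    rw [h4, c.z0, norm_zero] at h3
    exact c.inj P (norm_eq_zero.mp ((mul_eq_zero.mp h3.symm).resolve_left (norm_ne_zero_iff.mpr hp)))
  rw [← c.map_B hρ hρ1 hp, AddSubgroup.index_map,
    ← AddSubgroup.relIndex_mul_index (le_sup_left : c.B ρ hρ ≤ c.B ρ hρ ⊔ (nsmulAddMonoidHom (α := A) p).ker),
    AddSubgroup.relIndex_sup_left, ← AddSubgroup.inf_relIndex_right, hbot, AddSubgroup.relIndex_bot_left]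
  ring

/-- `|A / pA| = |A' / pA'|`, and it is finite when the `p`-torsion is finite. -/
theorem count (c : Chart F A p ρ) (c' : Chart F A' p ρ) (hρ : 0 < ρ) (hρ1 : ρ ≤ 1) (hp : (p : F) ≠ 0)
    (hk : Nat.card (nsmulAddMonoidHom (α := A) p).ker = Nat.card (nsmulAddMonoidHom (α := A') p).ker)
    (hk0 : Nat.card (nsmulAddMonoidHom (α := A) p).ker ≠ 0) :
    (nsmulAddMonoidHom (α := A) p).range.index = (nsmulAddMonoidHom (α := A') p).range.index ∧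
      (nsmulAddMonoidHom (α := A) p).range.index ≠ 0 := by
  have h1 := c.formula hρ hρ1 hp
  have h2 := c'.formula hρ hρ1 hp
  rw [← c.index_eq c', ← c.index_eq c', ← hk, h1] at h2
  refine ⟨Nat.eq_of_mul_eq_mul_left (Nat.pos_of_ne_zero (c.index_ne hρ)) h2, fun h0 => ?_⟩
  rw [h0, mul_zero] at h1
  exact mul_ne_zero (c.index_ne _) hk0 h1

end Chart

open WeierstrassCurve

section
variable {F : Type*} [NormedField F] [IsUltrametricDist F]

lemma nadd {a b : F} (h : ‖b‖ < ‖a‖) : ‖a + b‖ = ‖a‖ := by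
  rw [IsUltrametricDist.norm_add_eq_max_of_norm_ne_norm h.ne', max_eq_left h.le]

lemma nlt {a b : F} {r : ℝ} (ha : ‖a‖ < r) (hb : ‖b‖ < r) : ‖a + b‖ < r :=
  (IsUltrametricDist.norm_add_le_max _ _).trans_lt (max_lt ha hb)

lemma nle {a b : F} {r : ℝ} (ha : ‖a‖ ≤ r) (hb : ‖b‖ ≤ r) : ‖a + b‖ ≤ r :=
  (IsUltrametricDist.norm_add_le_max _ _).trans (max_le ha hb)

lemma normY {x Y A B : F} (h2 : ‖(2 : F)‖ = 1) (hA : ‖A‖ ≤ 1) (hB : ‖B‖ ≤ 1)
    (h : Y ^ 2 = 4 * x ^ 3 + 4 * A * x + B) (hx : 1 < ‖x‖) : ‖Y‖ ^ 2 = ‖x‖ ^ 3 := by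
  have h4 : ‖(4 : F)‖ = 1 := by rw [show (4 : F) = 2 * 2 by norm_num, norm_mul, h2, one_mul]
  have hx3 : ‖x‖ < ‖x‖ ^ 3 := by nlinarith [mul_pos (sub_pos.mpr hx) (sub_pos.mpr hx)]
  have e : ‖4 * x ^ 3‖ = ‖x‖ ^ 3 := by rw [norm_mul, h4, one_mul, norm_pow]
  rw [← norm_pow, h, add_assoc, nadd, e]
  rw [e]
  refine nlt ?_ (by linarith)
  rw [norm_mul, norm_mul, h4, one_mul]
  nlinarith [norm_nonneg A]

/-- Three collinear points, two of them in the kernel of reduction. -/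
lemma core {x₁ x₂ x₃ L N A B : F} (h2 : ‖(2 : F)‖ = 1) (hA : ‖A‖ ≤ 1) (hB : ‖B‖ ≤ 1)
    (e1 : 4 * (x₁ + x₂ + x₃) = L ^ 2) (e2 : 4 * (x₁ * x₂ + x₁ * x₃ + x₂ * x₃) = 4 * A - 2 * L * N)
    (e3 : 4 * (x₁ * x₂ * x₃) = N ^ 2 - B) (h₁ : 1 < ‖x₁‖) (h₂ : 1 < ‖x₂‖) :
    1 < ‖x₃‖ ∧ ‖x₃ / (L * x₃ + N)‖ = ‖x₁ / (L * x₁ + N) + x₂ / (L * x₂ + N)‖ ∧
      ∀ r : ℝ, ‖x₁ / (L * x₁ + N)‖ ≤ r → ‖x₂ / (L * x₂ + N)‖ ≤ r →
        ‖x₁ / (L * x₁ + N) + x₂ / (L * x₂ + N) + x₃ / (L * x₃ + N)‖ ≤ r ^ 5 := by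
  have h4 : ‖(4 : F)‖ = 1 := by rw [show (4 : F) = 2 * 2 by norm_num, norm_mul, h2, one_mul]
  have h3 : ‖(3 : F)‖ ≤ 1 := by simpa using IsUltrametricDist.norm_natCast_le_one F 3
  have y1 := normY (Y := L * x₁ + N) h2 hA hB
    (by linear_combination -x₁ ^ 2 * e1 + x₁ * e2 - e3) h₁
  have y2 := normY (Y := L * x₂ + N) h2 hA hB
    (by linear_combination -x₂ ^ 2 * e1 + x₂ * e2 - e3) h₂
  have y3 := normY (x := x₃) (Y := L * x₃ + N) h2 hA hB
    (by linear_combination -x₃ ^ 2 * e1 + x₃ * e2 - e3)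
  have nL := norm_nonneg L
  have nN := norm_nonneg N
  have hLN : ‖L‖ < ‖N‖ := by
    by_contra hc
    push Not at hc
    have key : ∀ x : F, 1 < ‖x‖ → ‖L * x + N‖ ^ 2 = ‖x‖ ^ 3 → ‖L‖ ^ 2 = ‖x‖ := by
      intro x hx hy
      have hL : 0 < ‖L‖ := by
        by_contra h0
        have a : L = 0 := norm_eq_zero.mp (by linarith)
        have b : N = 0 := norm_eq_zero.mp (by linarith)
        rw [a, b] at hy
        simp only [zero_mul, add_zero, norm_zero] at hy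
        nlinarith [pow_pos (zero_lt_one.trans hx) 3]
      rw [nadd (by rw [norm_mul]; nlinarith), norm_mul] at hy
      have hx2 : 0 < ‖x‖ ^ 2 := by positivity
      exact mul_right_cancel₀ hx2.ne' (by linear_combination hy)
    have k1 := key _ h₁ y1
    have k2 := key _ h₂ y2
    have a3 : ‖x₁‖ * ‖x₂‖ * ‖x₃‖ ≤ ‖x₁‖ := by
      have := congrArg norm e3
      rw [norm_mul, h4, one_mul, norm_mul, norm_mul, sub_eq_add_neg] at this
      rw [this]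
      exact nle (by rw [norm_pow]; nlinarith) (by rw [norm_neg]; linarith)
    have a4 : ‖x₂‖ * ‖x₃‖ ≤ 1 := by nlinarith
    have a5 : ‖4 * (x₁ * x₂)‖ ≤ ‖x₁‖ := by
      rw [show 4 * (x₁ * x₂) = (4 * A + -(2 * L * N)) + (-(4 * (x₁ * x₃)) + -(4 * (x₂ * x₃))) by
        linear_combination e2]
      refine nle (nle ?_ ?_) (nle ?_ ?_)
      · rw [norm_mul, h4]; linarith
      · rw [norm_neg, norm_mul, norm_mul, h2]; nlinarith
      · rw [norm_neg, norm_mul, norm_mul, h4, ← k1, k2]; linarith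
      · rw [norm_neg, norm_mul, norm_mul, h4]; linarith
    rw [norm_mul, h4, norm_mul] at a5
    nlinarith
  have hN : 1 < ‖N‖ := by
    have a : ‖L * x₁ + N‖ < ‖N‖ * ‖x₁‖ := nlt (by rw [norm_mul]; nlinarith) (by nlinarith)
    by_contra hc
    have b : ‖L * x₁ + N‖ < ‖x₁‖ := by nlinarith
    have c : ‖L * x₁ + N‖ ^ 2 < ‖x₁‖ ^ 2 := by gcongr
    nlinarith
  generalize hY₁ : L * x₁ + N = Y₁ at *
  generalize hY₂ : L * x₂ + N = Y₂ at *
  generalize hY₃ : L * x₃ + N = Y₃ at *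
  replace hY₁ := hY₁.symm
  replace hY₂ := hY₂.symm
  replace hY₃ := hY₃.symm
  have hN0 : 0 < ‖N‖ := by linarith
  have pY : ‖Y₁‖ * ‖Y₂‖ * ‖Y₃‖ = ‖N‖ ^ 3 := by
    have e : 4 * (Y₁ * Y₂ * Y₃) = 4 * N ^ 3 + (4 * A * N * L ^ 2 + -(B * L ^ 3)) := by
      rw [hY₁, hY₂, hY₃]; linear_combination L ^ 3 * e3 + L ^ 2 * N * e2 + L * N ^ 2 * e1
    have e' : ‖4 * N ^ 3‖ = ‖N‖ ^ 3 := by rw [norm_mul, h4, one_mul, norm_pow]
    have := congrArg norm e
    rw [norm_mul, h4, one_mul, norm_mul, norm_mul, nadd, e'] at this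
    · exact this
    have q2 : ‖L‖ ^ 2 < ‖N‖ ^ 2 := by gcongr
    have q3 : ‖L‖ ^ 3 < ‖N‖ ^ 3 := by gcongr
    rw [e']
    refine nlt ?_ ?_
    · simp only [norm_mul, norm_pow, h4, one_mul]
      calc ‖A‖ * ‖N‖ * ‖L‖ ^ 2 ≤ 1 * ‖N‖ * ‖L‖ ^ 2 := by gcongr
        _ < ‖N‖ ^ 3 := by nlinarith
    · simp only [norm_neg, norm_mul, norm_pow]
      calc ‖B‖ * ‖L‖ ^ 3 ≤ 1 * ‖L‖ ^ 3 := by gcongr
        _ < ‖N‖ ^ 3 := by linarith
  have px : ‖x₁‖ * ‖x₂‖ * ‖x₃‖ = ‖N‖ ^ 2 := by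
    have := congrArg norm e3
    rw [norm_mul, h4, one_mul, norm_mul, norm_mul, sub_eq_add_neg,
      nadd (by rw [norm_neg, norm_pow]; nlinarith), norm_pow] at this
    exact this
  have hp : 0 < ‖Y₁‖ * ‖Y₂‖ * ‖Y₃‖ := by rw [pY]; positivity
  have n1 : Y₁ ≠ 0 := fun h => by simp [h] at hp
  have n2 : Y₂ ≠ 0 := fun h => by simp [h] at hp
  have n3 : Y₃ ≠ 0 := fun h => by simp [h] at hp
  have p1 := norm_pos_iff.mpr n1
  have p2 := norm_pos_iff.mpr n2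
  have p3 := norm_pos_iff.mpr n3
  have z1 : ‖x₁‖ < ‖Y₁‖ := lt_of_pow_lt_pow_left₀ 2 p1.le
    (by rw [y1]; exact pow_lt_pow_right₀ h₁ (by norm_num))
  have z2 : ‖x₂‖ < ‖Y₂‖ := lt_of_pow_lt_pow_left₀ 2 p2.le
    (by rw [y2]; exact pow_lt_pow_right₀ h₂ (by norm_num))
  have x3 : 0 < ‖x₃‖ := by
    rcases (norm_nonneg x₃).lt_or_eq with h | h
    · exact h
    · rw [← h] at px; nlinarith
  have big : ‖N‖ ^ 2 < ‖x₃‖ * (‖Y₁‖ * ‖Y₂‖) := by
    rw [← px]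
    have : ‖x₁‖ * ‖x₂‖ < ‖Y₁‖ * ‖Y₂‖ := by gcongr
    nlinarith
  have g1 : 1 < ‖x₃‖ := by
    by_contra hc
    push Not at hc
    have a : ‖Y₃‖ = ‖N‖ := by
      rw [hY₃, add_comm, nadd (by rw [norm_mul]; nlinarith)]
    rw [a] at pY
    have b : ‖Y₁‖ * ‖Y₂‖ = ‖N‖ ^ 2 := mul_right_cancel₀ hN0.ne' (by linear_combination pY)
    rw [b] at big
    nlinarith [pow_pos hN0 2]
  have e : x₁ / Y₁ + x₂ / Y₂ + x₃ / Y₃ =
      (8 * A * L * N + -(3 * B * L ^ 2)) / (4 * (Y₁ * Y₂ * Y₃)) := by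
    have h40 : (4 : F) ≠ 0 := fun h => by simp [h] at h4
    field_simp
    rw [hY₁, hY₂, hY₃]
    linear_combination 3 * L ^ 2 * e3 + 2 * L * N * e2 + N ^ 2 * e1
  have h8 : ‖(8 : F)‖ = 1 := by rw [show (8 : F) = 2 * 4 by norm_num, norm_mul, h2, h4, one_mul]
  have num : ‖8 * A * L * N + -(3 * B * L ^ 2)‖ ≤ ‖L‖ * ‖N‖ := by
    refine nle ?_ ?_
    · simp only [norm_mul, h8, one_mul]
      calc ‖A‖ * ‖L‖ * ‖N‖ ≤ 1 * ‖L‖ * ‖N‖ := by gcongr
        _ = _ := by ring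
    · simp only [norm_neg, norm_mul, norm_pow]
      calc ‖(3 : F)‖ * ‖B‖ * ‖L‖ ^ 2 ≤ 1 * 1 * ‖L‖ ^ 2 := by gcongr
        _ ≤ _ := by rw [one_mul, one_mul, sq]; gcongr
  have s1 : ‖x₁ / Y₁ + x₂ / Y₂ + x₃ / Y₃‖ ≤ ‖L‖ * ‖N‖ / ‖N‖ ^ 3 := by
    rw [e, norm_div, norm_mul, h4, one_mul, norm_mul, norm_mul, pY]
    gcongr
  have g2 : ‖x₃ / Y₃‖ = ‖x₁ / Y₁ + x₂ / Y₂‖ := by
    rw [show x₁ / Y₁ + x₂ / Y₂ = -(x₃ / Y₃) + (x₁ / Y₁ + x₂ / Y₂ + x₃ / Y₃) by ring, nadd, norm_neg]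
    refine s1.trans_lt ?_
    rw [norm_neg, norm_div, ← pY, div_lt_div_iff₀ hp p3]
    have : ‖L‖ * ‖N‖ < ‖N‖ ^ 2 := by rw [sq]; gcongr
    calc ‖L‖ * ‖N‖ * ‖Y₃‖ < ‖x₃‖ * (‖Y₁‖ * ‖Y₂‖) * ‖Y₃‖ := mul_lt_mul_of_pos_right (this.trans big) p3
      _ = _ := by ring
  refine ⟨g1, g2, fun r r1 r2 => s1.trans ?_⟩
  have r3 : ‖x₃ / Y₃‖ ≤ r := g2 ▸ nle r1 r2
  have sq1 : ∀ x Y : F, 1 < ‖x‖ → 0 < ‖Y‖ → ‖Y‖ ^ 2 = ‖x‖ ^ 3 → ‖x / Y‖ ^ 2 * ‖x‖ = 1 := by
    intro x Y hx hY h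
    rw [norm_div, div_pow, h]
    have : 0 < ‖x‖ := by linarith
    field_simp
  have q1 := sq1 _ _ h₁ p1 y1
  have q2 := sq1 _ _ h₂ p2 y2
  have q3 := sq1 _ _ g1 p3 (y3 g1)
  have pr : ‖L‖ * ‖N‖ / ‖N‖ ^ 3 = ‖L‖ * (‖x₁ / Y₁‖ * ‖x₂ / Y₂‖ * ‖x₃ / Y₃‖) ^ 2 := by
    have : ‖x₁ / Y₁‖ * ‖x₂ / Y₂‖ * ‖x₃ / Y₃‖ = ‖N‖ ^ 2 / ‖N‖ ^ 3 := by
      rw [← px, ← pY, norm_div, norm_div, norm_div]; field_simp
    rw [this]; field_simp
  have hL : ‖L‖ ^ 2 ≤ max (max ‖x₁‖ ‖x₂‖) ‖x₃‖ := by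
    rw [← norm_pow, ← e1, norm_mul, h4, one_mul]
    exact nle (nle ((le_max_left _ _).trans (le_max_left _ _))
      ((le_max_right _ _).trans (le_max_left _ _))) (le_max_right _ _)
  have fin : ∀ a b c X : ℝ, 0 ≤ a → 0 ≤ b → 0 ≤ c → a ≤ r → b ≤ r → c ≤ r → a ^ 2 * X = 1 →
      ‖L‖ ^ 2 ≤ X → ‖L‖ * (a * b * c) ^ 2 ≤ r ^ 5 := by
    intro a b c X ha hb hc ar br cr h hX
    have hr : 0 ≤ r := ha.trans ar
    have k : ‖L‖ * a ≤ 1 := by
      refine le_of_sq_le_sq ?_ zero_le_one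
      calc (‖L‖ * a) ^ 2 = a ^ 2 * ‖L‖ ^ 2 := by ring
        _ ≤ a ^ 2 * X := by gcongr
        _ = 1 ^ 2 := by rw [h, one_pow]
    calc ‖L‖ * (a * b * c) ^ 2 = (‖L‖ * a) * (a * b ^ 2 * c ^ 2) := by ring
      _ ≤ 1 * (r * r ^ 2 * r ^ 2) := by gcongr
      _ = r ^ 5 := by ring
  rw [pr]
  have m1 := norm_nonneg (x₁ / Y₁)
  have m2 := norm_nonneg (x₂ / Y₂)
  have m3 := norm_nonneg (x₃ / Y₃)
  rcases le_max_iff.mp hL with h | h
  · rcases le_max_iff.mp h with h | h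
    · exact fin _ _ _ _ m1 m2 m3 r1 r2 r3 q1 h
    · rw [mul_comm ‖x₁ / Y₁‖]; exact fin _ _ _ _ m2 m1 m3 r2 r1 r3 q2 h
  · rw [mul_comm _ ‖x₃ / Y₃‖, ← mul_assoc]; exact fin _ _ _ _ m3 m1 m2 r3 r1 r2 q3 h

variable [DecidableEq F] (W : WeierstrassCurve.Affine F)

/-- Membership in the kernel of reduction. -/
def Big : W.Point → Prop
  | .zero => True
  | .some x _ _ => 1 < ‖x‖

/-- The parameter `x / (2y + a₃)`. -/
noncomputable def zc : W.Point → F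
  | .zero => 0
  | .some x y _ => x / (2 * y + W.a₃)

theorem big_add (h2 : ‖(2 : F)‖ = 1) (ha1 : W.a₁ = 0) (ha2 : W.a₂ = 0) (hA : ‖W.a₄‖ ≤ 1)
    (hB : ‖W.a₃ ^ 2 + 4 * W.a₆‖ ≤ 1) (P Q : W.Point) (hP : Big W P) (hQ : Big W Q) :
    Big W (P + Q) ∧ ‖zc W (P + Q)‖ = ‖zc W P + zc W Q‖ ∧
      ∀ r : ℝ, ‖zc W P‖ ≤ r → ‖zc W Q‖ ≤ r → ‖zc W P + zc W Q - zc W (P + Q)‖ ≤ r ^ 5 := by
  rcases P with _ | ⟨x₁, y₁, h₁⟩
  · change Big W (0 + Q) ∧ ‖zc W (0 + Q)‖ = ‖0 + zc W Q‖ ∧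
      ∀ r : ℝ, ‖(0 : F)‖ ≤ r → _ → ‖0 + zc W Q - zc W (0 + Q)‖ ≤ r ^ 5
    simp only [zero_add, sub_self, norm_zero, true_and]
    exact ⟨hQ, fun r hr _ => by positivity⟩
  rcases Q with _ | ⟨x₂, y₂, h₂⟩
  · change Big W (_ + 0) ∧ ‖zc W (_ + 0)‖ = ‖_ + 0‖ ∧
      ∀ r : ℝ, _ → ‖(0 : F)‖ ≤ r → ‖_ + 0 - zc W (_ + 0)‖ ≤ r ^ 5
    simp only [add_zero, sub_self, norm_zero, true_and]
    exact ⟨hP, fun r _ hr => by positivity⟩
  by_cases hxy : x₁ = x₂ ∧ y₁ = W.negY x₂ y₂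
  · rw [Affine.Point.add_of_Y_eq hxy.1 hxy.2]
    refine ⟨trivial, ?_⟩
    obtain ⟨rfl, rfl⟩ := hxy
    simp only [zc, Affine.negY, ha1]
    rw [show 2 * (-y₂ - 0 * x₁ - W.a₃) + W.a₃ = -(2 * y₂ + W.a₃) by ring, div_neg, neg_add_cancel]
    refine ⟨rfl, fun r hr _ => ?_⟩
    have := (norm_nonneg _).trans hr
    simp only [sub_self, norm_zero]
    positivity
  have hpoly := Affine.addPolynomial_slope h₁.1 h₂.1 hxy
  rw [Affine.addPolynomial_eq, neg_inj, Cubic.prod_X_sub_C_eq, Cubic.toPoly_injective] at hpoly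
  set l := W.slope x₁ x₂ y₁ y₂ with hl
  have hline : y₂ = l * (x₂ - x₁) + y₁ := by
    by_cases hx : x₁ = x₂
    · rw [Affine.Y_eq_of_Y_ne h₁.1 h₂.1 hx (fun h => hxy ⟨hx, h⟩), hx]; ring
    · rw [hl, Affine.slope_of_X_ne hx]
      have := sub_ne_zero.mpr hx
      field_simp
      ring
  simp only [Cubic.mk.injEq, ha1, ha2] at hpoly
  obtain ⟨-, c1, c2, c3⟩ := hpoly
  obtain ⟨r1, r2, r3⟩ := core (x₁ := x₁) (x₂ := x₂) (x₃ := W.addX x₁ x₂ l) (L := 2 * l)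
    (N := 2 * y₁ - 2 * l * x₁ + W.a₃) h2 hA hB (by linear_combination 4 * c1)
    (by linear_combination -4 * c2) (by linear_combination 4 * c3) hP hQ
  rw [Affine.Point.add_some hxy]
  refine ⟨r1, ?_⟩
  simp only [zc]
  rw [show 2 * y₁ + W.a₃ = 2 * l * x₁ + (2 * y₁ - 2 * l * x₁ + W.a₃) by ring,
    show 2 * y₂ + W.a₃ = 2 * l * x₂ + (2 * y₁ - 2 * l * x₁ + W.a₃) by rw [hline]; ring,
    show 2 * W.addY x₁ x₂ y₁ l + W.a₃ =
      -(2 * l * W.addX x₁ x₂ l + (2 * y₁ - 2 * l * x₁ + W.a₃)) by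
        simp only [Affine.addY, Affine.negY, Affine.negAddY, ha1]; ring, div_neg, norm_neg, sub_neg_eq_add]
  exact ⟨r2, r3⟩

variable {W}

theorem zc_neg (ha1 : W.a₁ = 0) (P : W.Point) : zc W (-P) = -zc W P := by
  rcases P with _ | ⟨x, y, h⟩
  · change (0 : F) = -0
    simp
  · change x / (2 * W.negY x y + W.a₃) = -(x / (2 * y + W.a₃))
    rw [show 2 * W.negY x y + W.a₃ = -(2 * y + W.a₃) by simp only [Affine.negY, ha1]; ring, div_neg]

/-- Hypotheses on the model. -/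
structure Good (W : WeierstrassCurve.Affine F) : Prop where
  h2 : ‖(2 : F)‖ = 1
  a1 : W.a₁ = 0
  a2 : W.a₂ = 0
  hA : ‖W.a₄‖ ≤ 1
  hB : ‖W.a₃ ^ 2 + 4 * W.a₆‖ ≤ 1

/-- The kernel of reduction. -/
def E1 (g : Good W) : AddSubgroup W.Point where
  carrier := {P | Big W P}
  zero_mem' := trivial
  add_mem' hP hQ := (big_add W g.h2 g.a1 g.a2 g.hA g.hB _ _ hP hQ).1
  neg_mem' {P} h := by rcases P with _ | ⟨x, y, h'⟩ <;> exact h

theorem normY' (g : Good W) {x y : F} (h : W.Equation x y) (hx : 1 < ‖x‖) :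
    ‖2 * y + W.a₃‖ ^ 2 = ‖x‖ ^ 3 := by
  rw [Affine.equation_iff, g.a1, g.a2] at h
  exact normY g.h2 g.hA g.hB (by linear_combination 4 * h) hx

theorem zc_nsmul (g : Good W) (P : E1 g) (n : ℕ) :
    ‖zc W (n • P : E1 g)‖ ≤ ‖zc W P‖ ∧ ‖n * zc W P - zc W (n • P : E1 g)‖ ≤ ‖zc W P‖ ^ 5 := by
  induction n with
  | zero =>
    simp only [zero_smul, Nat.cast_zero, zero_mul]
    change ‖(0 : F)‖ ≤ _ ∧ ‖0 - (0 : F)‖ ≤ _
    simp
  | succ n ih =>
    obtain ⟨-, k1, k2⟩ := big_add W g.h2 g.a1 g.a2 g.hA g.hB _ _ (n • P).2 P.2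
    rw [succ_nsmul, AddSubgroup.coe_add]
    refine ⟨k1 ▸ nle ih.1 le_rfl, ?_⟩
    rw [show ((n + 1 : ℕ) : F) * zc W P - zc W ((n • P : E1 g) + P) = (n * zc W P - zc W (n • P : E1 g)) +
      (zc W (n • P : E1 g) + zc W P - zc W ((n • P : E1 g) + P)) by push_cast; ring]
    exact nle ih.2 (k2 _ ih.1 le_rfl)

/-- The chart on the kernel of reduction. -/
noncomputable def chartE [ProperSpace F] (g : Good W) (p : ℕ) (ρ : ℝ) (hρ : ρ ^ 4 ≤ ‖(p : F)‖) :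
    Chart F (E1 g) p ρ where
  z P := zc W P
  range_eq := by
    have h4 : ‖(4 : F)‖ = 1 := by rw [show (4 : F) = 2 * 2 by norm_num, norm_mul, g.h2, one_mul]
    have h20 : (2 : F) ≠ 0 := fun h => by simpa [h] using g.h2
    ext t
    rw [mem_ball_zero_iff]
    constructor
    · rintro ⟨⟨P, hP⟩, rfl⟩
      rcases P with _ | ⟨x, y, h⟩
      · change ‖(0 : F)‖ < 1
        simp
      · have hx : 1 < ‖x‖ := hP
        have k := normY' g h.1 hx
        have : ‖x‖ < ‖2 * y + W.a₃‖ := lt_of_pow_lt_pow_left₀ 2 (norm_nonneg _)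
          (by rw [k]; exact pow_lt_pow_right₀ hx (by norm_num))
        change ‖x / (2 * y + W.a₃)‖ < 1
        rw [norm_div, div_lt_one (by linarith)]
        exact this
    · intro ht
      rcases eq_or_ne t 0 with rfl | ht0
      · exact ⟨0, rfl⟩
      have tp := norm_pos_iff.mpr ht0
      have t3 : ‖t‖ ^ 3 < 1 := pow_lt_one₀ tp.le ht (by norm_num)
      set B := W.a₃ ^ 2 + 4 * W.a₆ with hBdef
      have small : ∀ u v : F, ‖u‖ ≤ ‖t‖ ^ 3 → ‖v‖ ≤ ‖t‖ ^ 3 →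
          ‖(u - 4 * W.a₄ * t * u ^ 2 - B * u ^ 3) - (v - 4 * W.a₄ * t * v ^ 2 - B * v ^ 3)‖ = ‖u - v‖ := by
        intro u v hu hv
        have hu1 : ‖u‖ < 1 := hu.trans_lt t3
        have hv1 : ‖v‖ < 1 := hv.trans_lt t3
        rw [show (u - 4 * W.a₄ * t * u ^ 2 - B * u ^ 3) - (v - 4 * W.a₄ * t * v ^ 2 - B * v ^ 3) =
          (u - v) * (1 + (-(4 * W.a₄ * t * (u + v)) + -(B * (u * u + (u * v + v * v))))) by ring,
          norm_mul, nadd, norm_one, mul_one]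
        rw [norm_one]
        have m : ∀ a b : F, ‖a‖ ≤ 1 → ‖b‖ < 1 → ‖a * b‖ < 1 := fun a b ha hb => by
          rw [norm_mul]; exact mul_lt_one_of_nonneg_of_lt_one_right ha (norm_nonneg _) hb
        refine nlt ?_ ?_ <;> rw [norm_neg]
        · refine m _ _ ?_ (nlt hu1 hv1)
          rw [norm_mul, norm_mul, h4, one_mul]
          exact mul_le_one₀ g.hA tp.le ht.le
        · exact m _ _ g.hB (nlt (m _ _ hu1.le hu1) (nlt (m _ _ hu1.le hv1) (m _ _ hv1.le hv1)))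
      have : CompactSpace (closedBall (0 : F) (‖t‖ ^ 3)) :=
        isCompact_iff_compactSpace.mp (isCompact_closedBall _ _)
      have nrm : ∀ u : F, ‖u‖ ≤ ‖t‖ ^ 3 → ‖u - 4 * W.a₄ * t * u ^ 2 - B * u ^ 3‖ = ‖u‖ := fun u hu => by
        simpa using small u 0 hu (by simp)
      let f : closedBall (0 : F) (‖t‖ ^ 3) → closedBall (0 : F) (‖t‖ ^ 3) := fun u =>
        ⟨u - 4 * W.a₄ * t * u ^ 2 - B * u ^ 3, by
          have := mem_closedBall_zero_iff.mp u.2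
          rw [mem_closedBall_zero_iff, nrm _ this]; exact this⟩
      have hf : Isometry f := Isometry.of_dist_eq fun u v => by
        simp only [f, Subtype.dist_eq, dist_eq_norm]
        exact small _ _ (mem_closedBall_zero_iff.mp u.2) (mem_closedBall_zero_iff.mp v.2)
      obtain ⟨⟨w, hw⟩, hw2⟩ := surj_of_isometry hf ⟨4 * t ^ 3, by
        rw [mem_closedBall_zero_iff, norm_mul, h4, one_mul, norm_pow]⟩
      have hw3 : w - 4 * W.a₄ * t * w ^ 2 - B * w ^ 3 = 4 * t ^ 3 := congrArg Subtype.val hw2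
      have hw4 : ‖w‖ = ‖t‖ ^ 3 := by
        rw [← nrm w (mem_closedBall_zero_iff.mp hw), hw3, norm_mul, h4, one_mul, norm_pow]
      have hw0 : w ≠ 0 := norm_pos_iff.mp (by rw [hw4]; positivity)
      have hY : 2 * ((1 / w - W.a₃) / 2) + W.a₃ = 1 / w := by field_simp; ring
      have hns : W.Nonsingular (t / w) ((1 / w - W.a₃) / 2) := by
        rw [Affine.nonsingular_iff', Affine.equation_iff, g.a1, g.a2]
        refine ⟨?_, Or.inr ?_⟩
        · rw [hBdef] at hw3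
          field_simp
          linear_combination hw3
        · rw [zero_mul, add_zero, hY]
          exact one_div_ne_zero hw0
      refine ⟨⟨.some _ _ hns, ?_⟩, ?_⟩
      · change 1 < ‖t / w‖
        rw [norm_div, hw4, one_lt_div (by positivity)]
        exact pow_lt_self_of_lt_one₀ tp ht (by norm_num)
      · change t / w / (2 * ((1 / w - W.a₃) / 2) + W.a₃) = t
        rw [hY]; field_simp
  iso P Q := by
    have := (big_add W g.h2 g.a1 g.a2 g.hA g.hB _ _ P.2 (-Q).2).2.1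
    rw [sub_eq_add_neg P, AddSubgroup.coe_add, this, AddSubgroup.coe_neg, zc_neg g.a1, sub_eq_add_neg]
  inj := by
    rintro ⟨P, hP⟩ h
    rcases P with _ | ⟨x, y, h'⟩
    · rfl
    · exfalso
      have hx : 1 < ‖x‖ := hP
      have k := normY' g h'.1 hx
      rcases div_eq_zero_iff.mp (show x / (2 * y + W.a₃) = 0 from h) with h0 | h0
      · rw [h0, norm_zero] at hx; linarith
      · rw [h0, norm_zero] at k
        have : 0 < ‖x‖ ^ 3 := by positivity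
        rw [← k] at this; simp at this
  mul P hP := by
    obtain ⟨-, k⟩ := zc_nsmul g P p
    rcases eq_or_ne (zc W P) 0 with h0 | h0
    · rw [h0] at k ⊢
      simpa using k
    have zp := norm_pos_iff.mpr h0
    have : ‖zc W P‖ ^ 5 < ‖(p : F) * zc W P‖ := by
      rw [norm_mul, pow_succ]
      gcongr
      exact lt_of_lt_of_le (by gcongr) hρ
    rw [show zc W (p • P : E1 g) = p * zc W P + -(p * zc W P - zc W (p • P : E1 g)) by ring, nadd, norm_mul]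
    rw [norm_neg]; exact k.trans_lt this

/-- The one-units. -/
def U1 (F : Type*) [NormedField F] [IsUltrametricDist F] : Subgroup Fˣ where
  carrier := {u | ‖(u : F) - 1‖ < 1}
  one_mem' := by simp
  mul_mem' {u v} hu hv := by
    have hu' : ‖(u : F) - 1‖ < 1 := hu
    have hv' : ‖(v : F) - 1‖ < 1 := hv
    change ‖((u * v : Fˣ) : F) - 1‖ < 1
    rw [show ((u * v : Fˣ) : F) - 1 = (u - 1) * (v - 1) + ((u - 1) + (v - 1)) by push_cast; ring]
    exact nlt (by rw [norm_mul]; exact mul_lt_one_of_nonneg_of_lt_one_left (norm_nonneg _) hu' hv'.le) (nlt hu' hv')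
  inv_mem' {u} hu := by
    have hu' : ‖(u : F) - 1‖ < 1 := hu
    have h1 : ‖(u : F)‖ = 1 := by
      rw [show (u : F) = 1 + (u - 1) by ring, nadd (by rwa [norm_one]), norm_one]
    change ‖((u⁻¹ : Fˣ) : F) - 1‖ < 1
    rw [show ((u⁻¹ : Fˣ) : F) - 1 = -((u - 1) / u) by have := u.ne_zero; push_cast; field_simp; ring,
      norm_neg, norm_div, h1, div_one]
    exact hu'

theorem U1.norm (u : U1 F) : ‖((u : Fˣ) : F)‖ = 1 := by
  have hu' : ‖((u : Fˣ) : F) - 1‖ < 1 := u.2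
  rw [show ((u : Fˣ) : F) = 1 + (((u : Fˣ) : F) - 1) by ring, nadd (by rwa [norm_one]), norm_one]

/-- The chart on the one-units. -/
noncomputable def chartU (ρ : ℝ) (hρ : ρ ^ 4 ≤ ‖((5 : ℕ) : F)‖) : Chart F (Additive (U1 F)) 5 ρ where
  z u := ((u.toMul : Fˣ) : F) - 1
  range_eq := by
    ext t
    rw [mem_ball_zero_iff]
    constructor
    · rintro ⟨u, rfl⟩; exact u.toMul.2
    · intro ht
      have h : 1 + t ≠ 0 := norm_pos_iff.mp (by rw [nadd (by rwa [norm_one]), norm_one]; exact one_pos)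
      exact ⟨Additive.ofMul ⟨Units.mk0 _ h, by change ‖1 + t - 1‖ < 1; simpa using ht⟩, by simp⟩
  iso u v := by
    have hv := (v.toMul : Fˣ).ne_zero
    rw [show (((u - v).toMul : Fˣ) : F) - 1 = (((u.toMul : Fˣ) : F) - 1 - (((v.toMul : Fˣ) : F) - 1)) / (v.toMul : Fˣ) by
      simp only [toMul_sub, Subgroup.coe_div, Units.val_div_eq_div_val]; field_simp; ring,
      norm_div, U1.norm, div_one]
  inj u h := by
    apply Additive.toMul.injective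
    apply Subtype.ext
    apply Units.ext
    simpa [sub_eq_zero] using h
  mul u hu := by
    have h1 : ‖((u.toMul : Fˣ) : F) - 1‖ < 1 := u.toMul.2
    simp only [toMul_nsmul, Subgroup.coe_pow, Units.val_pow_eq_pow_val]
    generalize ((u.toMul : Fˣ) : F) = a at *
    obtain ⟨t, rfl⟩ : ∃ t, a = 1 + t := ⟨a - 1, by ring⟩
    simp only [add_sub_cancel_left] at *
    have h2 : ‖(2 : F)‖ ≤ 1 := by simpa using IsUltrametricDist.norm_natCast_le_one F 2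
    have h4 : ‖t‖ ^ 4 < ‖((5 : ℕ) : F)‖ := lt_of_lt_of_le (by gcongr) hρ
    have m : ∀ a b : F, ‖a‖ ≤ 1 → ‖b‖ < 1 → ‖a * b‖ < 1 := fun a b ha hb => by
      rw [norm_mul]; exact mul_lt_one_of_nonneg_of_lt_one_right ha (norm_nonneg _) hb
    have k : ‖1 + (2 * t + (2 * (t * t) + t * (t * t)))‖ = 1 := by
      rw [nadd, norm_one]
      rw [norm_one]
      exact nlt (m _ _ h2 h1) (nlt (m _ _ h2 (m _ _ h1.le h1)) (m _ _ h1.le (m _ _ h1.le h1)))
    rw [show (1 + t) ^ 5 - 1 = (((5 : ℕ) : F) * (1 + (2 * t + (2 * (t * t) + t * (t * t)))) + t ^ 4) * t by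
      push_cast; ring, norm_mul, nadd, norm_mul, k, mul_one]
    rw [norm_mul, k, mul_one, norm_pow]; exact h4

/-- `|E₁(F)/5| = |U¹(F)/5|` once both groups have the same finite `5`-torsion. -/
theorem count_E1 [ProperSpace F] (g : Good W) (h5 : ((5 : ℕ) : F) ≠ 0)
    (hk : Nat.card (nsmulAddMonoidHom (α := E1 g) 5).ker =
      Nat.card (nsmulAddMonoidHom (α := Additive (U1 F)) 5).ker)
    (hk0 : Nat.card (nsmulAddMonoidHom (α := E1 g) 5).ker ≠ 0) :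
    (nsmulAddMonoidHom (α := E1 g) 5).range.index =
      (nsmulAddMonoidHom (α := Additive (U1 F)) 5).range.index ∧
      (nsmulAddMonoidHom (α := E1 g) 5).range.index ≠ 0 := by
  have n0 := norm_pos_iff.mpr h5
  have n1 := IsUltrametricDist.norm_natCast_le_one F 5
  have hρ : ‖((5 : ℕ) : F)‖ ^ 4 ≤ ‖((5 : ℕ) : F)‖ := pow_le_of_le_one n0.le n1 (by norm_num)
  exact Chart.count (chartE g 5 _ hρ) (chartU _ hρ) n0 n1 h5 hk hk0

end

end Pool.Agent.Lib.MP_54db3e_nt.H84
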