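import Mathlib

namespace Pool.Agent.Lib.MP_54db3e_nt.H84

/-- A nonzero element killed by a prime `p` is seen by a homomorphism into any divisible group
that has an element of order `p`. -/
theorem exists_hom_ne_zero {S A : Type*} [AddCommGroup S] [AddCommGroup A] [DivisibleBy A ℤ]
    {p : ℕ} (hp : p.Prime) {a : A} (ha0 : a ≠ 0) (ha : (p : ℤ) • a = 0)
    {s : S} (hs0 : s ≠ 0) (hs : (p : ℤ) • s = 0) : ∃ x : S →+ A, x s ≠ 0 := by
  have hB : Module.Baer ℤ A := Module.Baer.of_divisible A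
  let f : ℤ →ₗ[ℤ] S := LinearMap.toSpanSingleton ℤ S s
  let g : ℤ →ₗ[ℤ] A := LinearMap.toSpanSingleton ℤ A a
  have hker : LinearMap.ker f ≤ LinearMap.ker g := by
    intro n hn
    have hn' : n • s = 0 := hn
    have hd : (p : ℤ) ∣ n := by
      by_contra hnd
      have hc : IsCoprime (p : ℤ) n :=
        (Nat.prime_iff_prime_int.mp hp).coprime_iff_not_dvd.mpr hnd
      obtain ⟨u, v, huv⟩ := hc
      apply hs0
      calc s = (u * p + v * n) • s := by rw [huv, one_smul]
        _ = 0 := by rw [add_smul, mul_smul, mul_smul, hs, hn', smul_zero, smul_zero, add_zero]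
    obtain ⟨c, rfl⟩ := hd
    change ((p : ℤ) * c) • a = 0
    rw [mul_comm, mul_smul, ha, smul_zero]
  obtain ⟨x, hx⟩ := hB.extension_property ((LinearMap.ker f).liftQ f le_rfl)
    (by rw [← LinearMap.ker_eq_bot]; exact Submodule.ker_liftQ_eq_bot _ _ _ le_rfl)
    ((LinearMap.ker f).liftQ g hker)
  refine ⟨x.toAddMonoidHom, ?_⟩
  have := LinearMap.congr_fun hx (Submodule.Quotient.mk 1)
  simp only [LinearMap.comp_apply, Submodule.liftQ_apply, f, g, LinearMap.toSpanSingleton_apply,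
    one_smul] at this
  change x s ≠ 0
  rw [this]; exact ha0

/-- NFG, abstract form.  `g j` are the finitely many functionals `s ↦ x_i (h⁻¹ s)`.  If every `x` is,
up to a functional killed by a power of `p`, one that vanishes at each point of `T` where all `g j`
vanish, then `T` is finite. -/
theorem nfg {S A J : Type*} [AddCommGroup S] [AddCommGroup A] [DivisibleBy A ℤ] [Finite J]
    {p : ℕ} (hp : p.Prime) {a : A} (ha0 : a ≠ 0) (ha : (p : ℤ) • a = 0)
    (hfin : {b : A | (p : ℤ) • b = 0}.Finite)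
    (T : AddSubgroup S) (hT : ∀ s ∈ T, (p : ℤ) • s = 0)
    (hdiv : ∀ s ∈ T, ∀ k : ℕ, ∃ t, s = (p : ℤ) ^ k • t)
    (g : J → S →+ A)
    (hgen : ∀ x : S →+ A, ∃ (y : S →+ A) (k : ℕ), (p : ℤ) ^ k • (x - y) = 0 ∧
      ∀ s ∈ T, (∀ j, g j s = 0) → y s = 0) : (T : Set S).Finite := by
  have key : ∀ s ∈ T, (∀ j, g j s = 0) → s = 0 := by
    intro s hs hg
    by_contra hs0
    obtain ⟨x, hx⟩ := exists_hom_ne_zero hp ha0 ha hs0 (hT s hs)
    obtain ⟨y, k, hk, hy⟩ := hgen x
    obtain ⟨t, ht⟩ := hdiv s hs k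
    have h1 : (x - y) s = 0 := by
      rw [ht, map_zsmul]
      exact DFunLike.congr_fun hk t
    rw [AddMonoidHom.sub_apply, hy s hs hg, sub_zero] at h1
    exact hx h1
  refine Set.Finite.of_finite_image (f := fun s j => g j s) ?_ ?_
  · refine (Set.Finite.pi' (fun _ : J => hfin)).subset ?_
    rintro _ ⟨s, hs, rfl⟩ j
    change (p : ℤ) • g j s = 0
    rw [← map_zsmul, hT s hs, map_zero]
  · intro s hs t ht hst
    rw [← sub_eq_zero]
    refine key _ (T.sub_mem hs ht) fun j => ?_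
    rw [map_sub, sub_eq_zero]
    exact congrFun hst j

end Pool.Agent.Lib.MP_54db3e_nt.H84
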