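import Mathlib

namespace Pool.Agent.Lib.MP_54db3e_nt.H84

variable {G E : Type*} [Group G] [AddCommGroup E] [DistribMulAction G E]

omit [DistribMulAction G E] in
/-- Averaging over `Z/B`: keeps `5 f' = f`, makes `f'` invariant under conjugation by `Z`. -/
theorem average (B Z : Subgroup G) [B.Normal] (R : Finset G) (hRZ : ∀ r ∈ R, r ∈ Z)
    (f f' : G → E) (hadd : ∀ g ∈ B, ∀ h ∈ B, f' (g * h) = f' g + f' h)
    (h5 : ∀ h ∈ B, (5 : ℤ) • f' h = f h) (hinv : ∀ z ∈ Z, ∀ h ∈ B, f (z⁻¹ * h * z) = f h)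
    (u : ℤ) (hu : ∀ h ∈ B, (u * R.card) • f h = f h) :
    let F : G → E := fun h => u • ∑ r : R, f' ((r : G) * h * (r : G)⁻¹)
    (∀ h ∈ B, (5 : ℤ) • F h = f h) ∧ (∀ g ∈ B, ∀ h ∈ B, F (g * h) = F g + F h) ∧
      ∀ z ∈ Z, (∃ e : R ≃ R, ∀ r : R, ∃ b ∈ B, (r : G) * z⁻¹ = b * (e r : G)) →
        ∀ h ∈ B, F (z⁻¹ * h * z) = F h := by
  intro F
  have hn : ∀ (r : G) h, h ∈ B → r * h * r⁻¹ ∈ B := fun r h hh => Subgroup.Normal.conj_mem ‹_› h hh r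
  have h1 : f' 1 = 0 := by simpa using hadd 1 B.one_mem 1 B.one_mem
  have hconj : ∀ b ∈ B, ∀ h ∈ B, f' (b * h * b⁻¹) = f' h := by
    intro b hb h hh
    have h2 := hadd b hb b⁻¹ (B.inv_mem hb)
    rw [mul_inv_cancel, h1] at h2
    rw [hadd _ (B.mul_mem hb hh) _ (B.inv_mem hb), hadd _ hb _ hh, add_right_comm, ← h2, zero_add]
  refine ⟨fun h hh => ?_, fun g hg h hh => ?_, fun z _ ⟨e, he⟩ h hh => ?_⟩
  · simp only [F]
    rw [smul_comm, Finset.smul_sum]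
    have : ∀ r : R, (5 : ℤ) • f' ((r : G) * h * (r : G)⁻¹) = f h := fun r => by
      rw [h5 _ (hn _ _ hh)]
      simpa using hinv (r : G)⁻¹ (Z.inv_mem (hRZ _ r.2)) h hh
    simp only [this, Finset.sum_const, Finset.card_univ, Fintype.card_coe]
    rw [← natCast_zsmul, ← mul_smul, hu h hh]
  · simp only [F]
    rw [← smul_add, ← Finset.sum_add_distrib]
    congr 1
    refine Finset.sum_congr rfl fun r _ => ?_
    rw [← hadd _ (hn _ _ hg) _ (hn _ _ hh)]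
    congr 1; group
  · simp only [F]
    congr 1
    rw [← Equiv.sum_comp e (fun r : R => f' ((r : G) * h * (r : G)⁻¹))]
    refine Finset.sum_congr rfl fun r _ => ?_
    obtain ⟨b, hb, hbe⟩ := he r
    have : (r : G) * (z⁻¹ * h * z) * (r : G)⁻¹ = b * ((e r : G) * h * (e r : G)⁻¹) * b⁻¹ := by
      calc (r : G) * (z⁻¹ * h * z) * (r : G)⁻¹ = ((r : G) * z⁻¹) * h * ((r : G) * z⁻¹)⁻¹ := by group
        _ = _ := by rw [hbe]; group
    rw [this, hconj b hb _ (hn _ _ hh)]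

/-- The obstruction family of section 4, defined without dividing by `Φ₁(a)`. -/
theorem obstruction (Γ D B Z : Subgroup G) [B.Normal] (hD : D ≤ Γ) (hZ : Z ≤ Γ)
    (C : AddSubgroup E) (hC : ∀ d ∈ D, ∀ c ∈ C, d • c ∈ C) (T : E) (hT : (5 : ℕ) • T = 0)
    (huniq : ∀ a ∈ Γ, ∀ i : ZMod 5, a • (i.val • T) ∈ C → i = 0)
    (hex : ∀ a ∈ Γ, ∀ P : E, (5 : ℤ) • P ∈ C → ∃ i : ZMod 5, P - a • (i.val • T) ∈ C)
    (f : G → E) (hadd : ∀ g ∈ B, ∀ h ∈ B, f (g * h) = f g + f h)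
    (hinv : ∀ z ∈ Z, ∀ h ∈ B, f (z⁻¹ * h * z) = f h)
    (hscal : ∀ z ∈ Z, ∃ c : ℤ, (∀ h ∈ B, z • f h = c • f h) ∧ z • T = c • T)
    (hloc : ∀ a ∈ Γ, ∀ h ∈ D, h ∈ B → a • ((5 : ℤ) • f (a⁻¹ * h * a)) ∈ C) :
    ∃ o : G → G → ZMod 5,
      (∀ a ∈ Γ, ∀ h ∈ D, h ∈ B → a • (f (a⁻¹ * h * a) - (o h a).val • T) ∈ C) ∧
      (∀ a ∈ Γ, ∀ g ∈ D, g ∈ B → ∀ h ∈ D, h ∈ B → o (g * h) a = o g a + o h a) ∧
      (∀ a ∈ Γ, ∀ d ∈ D, ∀ h ∈ D, h ∈ B → o h (d * a) = o (d⁻¹ * h * d) a) ∧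
      (∀ a ∈ Γ, ∀ z ∈ Z, ∀ h ∈ D, h ∈ B → o h (a * z) = o h a) := by
  classical
  have hn : ∀ (r : G) h, h ∈ B → r⁻¹ * h * r ∈ B := fun r h hh => by
    simpa using Subgroup.Normal.conj_mem ‹_› h hh r⁻¹
  have vadd : ∀ i j : ZMod 5, (i + j).val • T = i.val • T + j.val • T := by
    intro i j
    rw [ZMod.val_add, ← add_smul]
    conv_rhs => rw [← Nat.mod_add_div (i.val + j.val) 5, add_smul, mul_comm, mul_smul, hT, smul_zero, add_zero]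
  have uq : ∀ a ∈ Γ, ∀ (P : E) (i j : ZMod 5), a • (P - i.val • T) ∈ C → a • (P - j.val • T) ∈ C → i = j := by
    intro a ha P i j hi hj
    have h1 := C.sub_mem hj hi
    have h2 : a • (P - j.val • T) - a • (P - i.val • T) = a • ((i - j).val • T) := by
      rw [← smul_sub]; congr 1
      have := vadd (i - j) j
      rw [sub_add_cancel] at this
      rw [this]; abel
    rw [h2] at h1
    exact sub_eq_zero.mp (huniq a ha _ h1)
  have ex : ∀ h a : G, ∃ i : ZMod 5, a ∈ Γ → h ∈ D → h ∈ B →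
      a • (f (a⁻¹ * h * a) - i.val • T) ∈ C := by
    intro h a
    by_cases hc : a ∈ Γ ∧ h ∈ D ∧ h ∈ B
    · obtain ⟨i, hi⟩ := hex a hc.1 (a • f (a⁻¹ * h * a)) (by
        rw [← smul_comm]; exact hloc a hc.1 h hc.2.1 hc.2.2)
      exact ⟨i, fun _ _ _ => by rwa [smul_sub]⟩
    · exact ⟨0, fun h1 h2 h3 => absurd ⟨h1, h2, h3⟩ hc⟩
  choose o ho using ex
  refine ⟨o, fun a ha h h1 h2 => ho h a ha h1 h2, ?_, ?_, ?_⟩
  · intro a ha g g1 g2 h h1 h2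
    refine uq a ha _ _ _ (ho _ a ha (D.mul_mem g1 h1) (B.mul_mem g2 h2)) ?_
    have e : a⁻¹ * (g * h) * a = (a⁻¹ * g * a) * (a⁻¹ * h * a) := by group
    rw [e, hadd _ (hn _ _ g2) _ (hn _ _ h2), vadd, add_sub_add_comm, smul_add]
    exact C.add_mem (ho g a ha g1 g2) (ho h a ha h1 h2)
  · intro a ha d hd h h1 h2
    refine uq (d * a) (Γ.mul_mem (hD hd) ha) _ _ _ (ho h _ (Γ.mul_mem (hD hd) ha) h1 h2) ?_
    have e : (d * a)⁻¹ * h * (d * a) = a⁻¹ * (d⁻¹ * h * d) * a := by group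
    rw [e, mul_smul]
    exact hC d hd _ (ho _ a ha (D.mul_mem (D.mul_mem (D.inv_mem hd) h1) hd) (hn _ _ h2))
  · intro a ha z hz h h1 h2
    refine uq (a * z) (Γ.mul_mem ha (hZ hz)) _ _ _ (ho h _ (Γ.mul_mem ha (hZ hz)) h1 h2) ?_
    have e : (a * z)⁻¹ * h * (a * z) = z⁻¹ * (a⁻¹ * h * a) * z := by group
    obtain ⟨c, hc1, hc2⟩ := hscal z hz
    rw [e, hinv z hz _ (hn _ _ h2), mul_smul, smul_sub, hc1 _ (hn _ _ h2), smul_comm z, hc2,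
      smul_comm _ c, ← smul_sub, smul_comm a c]
    exact C.zsmul_mem (ho h a ha h1 h2) c

end Pool.Agent.Lib.MP_54db3e_nt.H84
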