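import Mathlib

/-!
Definitions used by the statement, part 1: the Iwasawa algebra of a topological group, discrete
modules, and the conjugation action on functions on a normal subgroup.
-/

noncomputable section

namespace Pool.Agent.Lib.MP_54db3e_nt

/-- The inverse limit of rings `A i` along transition maps `f i j`, as the subring of compatible
families in the product. -/
def invLim {I : Type} (A : I → Type) [∀ i, Ring (A i)] (r : I → I → Prop)
    (f : ∀ i j, r i j → A i →+* A j) : Subring (∀ i, A i) where
  carrier := {l | ∀ i j (h : r i j), f i j h (l i) = l j}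
  mul_mem' := fun {a b} ha hb i j h => by
    rw [Pi.mul_apply, map_mul, ha i j h, hb i j h, Pi.mul_apply]
  one_mem' := fun i j h => by rw [Pi.one_apply, map_one, Pi.one_apply]
  add_mem' := fun {a b} ha hb i j h => by
    rw [Pi.add_apply, map_add, ha i j h, hb i j h, Pi.add_apply]
  zero_mem' := fun i j h => by rw [Pi.zero_apply, map_zero, Pi.zero_apply]
  neg_mem' := fun {a} ha i j h => by rw [Pi.neg_apply, map_neg, ha i j h, Pi.neg_apply]

section Iwasawa

variable (p : ℕ) [Fact p.Prime] (G : Type) [Group G] [TopologicalSpace G]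

/-- The projection `G/U → G/V` for `U ≤ V`. -/
def projQ (U V : OpenNormalSubgroup G) (h : U.toSubgroup ≤ V.toSubgroup) :
    G ⧸ U.toSubgroup →* G ⧸ V.toSubgroup :=
  QuotientGroup.map U.toSubgroup V.toSubgroup (MonoidHom.id G) h

/-- The Iwasawa algebra `Λ(G) = ℤ_p[[G]]`: the inverse limit of the group rings `ℤ_p[G/U]` over
the open normal subgroups `U` of `G`. -/
def Lam : Type :=
  invLim (fun U : OpenNormalSubgroup G => MonoidAlgebra ℤ_[p] (G ⧸ U.toSubgroup))
    (fun U V => U.toSubgroup ≤ V.toSubgroup)
    fun U V h => MonoidAlgebra.mapDomainRingHom ℤ_[p] (projQ G U V h)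

instance lamRing : Ring (Lam p G) := Subring.toRing _

/-- `S` is a discrete `G`-module: every element is fixed by an open normal subgroup. -/
class IsDiscreteMod (S : Type) [AddCommGroup S] [DistribMulAction G S] : Prop where
  fix : ∀ s : S, ∃ U : OpenNormalSubgroup G, ∀ g ∈ U.toSubgroup, g • s = s

variable {p G} {S T : Type} [AddCommGroup S] [DistribMulAction G S] [AddCommGroup T]
  [Module ℤ_[p] T]

/-- `∑ a_h • x (h⁻¹ s)` for an element `∑ a_h h` of `ℤ_p[G/U]`. -/
def evalAt (U : OpenNormalSubgroup G) (l : MonoidAlgebra ℤ_[p] (G ⧸ U.toSubgroup))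
    (x : S →+ T) (s : S) : T :=
  l.coeff.sum fun h a => a • x ((Quotient.out h : G)⁻¹ • s)

/-- The value `(l • x)(s) = ∑ a_h • x (h⁻¹ s)`, where `∑ a_h h` is the component of `l` at an open
normal subgroup fixing `s` (the value does not depend on that subgroup, `evalAt_indep`). -/
def evalDual [hS : IsDiscreteMod G S] (l : Lam p G) (x : S →+ T) (s : S) : T :=
  evalAt (hS.fix s).choose (l.1 (hS.fix s).choose) x s

end Iwasawa

section Conj

variable {Γ : Type} [Group Γ] (N : Subgroup Γ) (M : Type)

/-- Functions on the subgroup `N` with values in `M`. -/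
def Fn : Type := N → M

variable [AddCommGroup M]

instance fnGroup : AddCommGroup (Fn N M) := Pi.addCommGroup

variable [DistribMulAction Γ M] [hN : N.Normal]

/-- The conjugation action `(g f)(n) = g (f (g⁻¹ n g))` on functions on a normal subgroup. -/
instance conjSMul : SMul Γ (Fn N M) :=
  ⟨fun g f n => g • f ⟨g⁻¹ * n.1 * g, hN.conj_mem' n.1 n.2 g⟩⟩

theorem conj_one_smul (f : Fn N M) : (1 : Γ) • f = f :=
  funext fun n => (one_smul Γ _).trans (congrArg f (Subtype.ext (by simp)))

theorem conj_mul_smul (g h : Γ) (f : Fn N M) : (g * h) • f = g • h • f :=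
  funext fun n => (mul_smul g h _).trans
    (congrArg (fun m => g • h • f m) (Subtype.ext (by simp [mul_assoc])))

theorem conj_smul_zero (g : Γ) : g • (0 : Fn N M) = 0 := funext fun _ => smul_zero g

theorem conj_smul_add (g : Γ) (f f' : Fn N M) : g • (f + f') = g • f + g • f' :=
  funext fun _ => smul_add g _ _

instance conjAction : DistribMulAction Γ (Fn N M) where
  toSMul := conjSMul N M
  one_smul := conj_one_smul N M
  mul_smul := conj_mul_smul N M
  smul_zero := conj_smul_zero N M
  smul_add := conj_smul_add N M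

end Conj

/-- The subgroup `S` of a `Γ`-module is stable, `N` acts trivially on it, and each element is
fixed by an open normal subgroup. -/
class IsStable {Γ V : Type} [Group Γ] [TopologicalSpace Γ] [AddCommGroup V] [DistribMulAction Γ V]
    (N : Subgroup Γ) (S : AddSubgroup V) : Prop where
  mem : ∀ (g : Γ) (f : S), g • f.1 ∈ S
  triv : ∀ g ∈ N, ∀ f : S, g • f.1 = f.1
  disc : ∀ f : S, ∃ U : OpenNormalSubgroup Γ, ∀ g ∈ U.toSubgroup, g • f.1 = f.1

end Pool.Agent.Lib.MP_54db3e_nt
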