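import Pool.Agent.Lib.MP_54db3e_nt.IwDefs

/-!
Lemmas on `evalAt`, `evalDual` and the action of a quotient.
-/

noncomputable section

namespace Pool.Agent.Lib.MP_54db3e_nt

section Iwasawa

variable {p : ℕ} [Fact p.Prime] {G : Type} [Group G] [TopologicalSpace G]
  {S T : Type} [AddCommGroup S] [DistribMulAction G S] [AddCommGroup T] [Module ℤ_[p] T]

theorem evalAt_zero (U : OpenNormalSubgroup G) (x : S →+ T) (s : S) :
    evalAt (p := p) U 0 x s = 0 := by
  rw [evalAt, MonoidAlgebra.coeff_zero, Finsupp.sum_zero_index]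

theorem evalAt_add (U : OpenNormalSubgroup G) (l m : MonoidAlgebra ℤ_[p] (G ⧸ U.toSubgroup))
    (x : S →+ T) (s : S) : evalAt U (l + m) x s = evalAt U l x s + evalAt U m x s := by
  rw [evalAt, MonoidAlgebra.coeff_add]
  exact Finsupp.sum_add_index' (fun _ => zero_smul _ _) (fun _ _ _ => add_smul _ _ _)

theorem evalAt_single (U : OpenNormalSubgroup G) (h : G ⧸ U.toSubgroup) (a : ℤ_[p])
    (x : S →+ T) (s : S) :
    evalAt U (MonoidAlgebra.single h a) x s = a • x ((Quotient.out h : G)⁻¹ • s) := by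
  rw [evalAt, MonoidAlgebra.coeff_single]
  exact Finsupp.sum_single_index (zero_smul _ _)

theorem fix_smul (U : OpenNormalSubgroup G) {s : S} (hU : ∀ g ∈ U.toSubgroup, g • s = s) (k : G) :
    ∀ g ∈ U.toSubgroup, g • k • s = k • s := by
  intro g hg
  have h1 : k⁻¹ * g * k⁻¹⁻¹ ∈ U.toSubgroup := U.isNormal'.conj_mem g hg k⁻¹
  calc g • k • s = k • (k⁻¹ * g * k⁻¹⁻¹) • s := by
        rw [smul_smul, smul_smul]; congr 1; group
    _ = k • s := by rw [hU _ h1]

theorem out_inv_smul (U : OpenNormalSubgroup G) {s : S} (hU : ∀ g ∈ U.toSubgroup, g • s = s)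
    (k : G) : (Quotient.out (QuotientGroup.mk k : G ⧸ U.toSubgroup) : G)⁻¹ • s = k⁻¹ • s := by
  obtain ⟨u, hu⟩ := QuotientGroup.mk_out_eq_mul U.toSubgroup k
  rw [hu, mul_inv_rev, mul_smul]
  exact fix_smul U hU k⁻¹ _ (U.toSubgroup.inv_mem u.2)

theorem evalAt_map {U V : OpenNormalSubgroup G} (h : U.toSubgroup ≤ V.toSubgroup)
    (m : MonoidAlgebra ℤ_[p] (G ⧸ U.toSubgroup)) (x : S →+ T) {s : S}
    (hV : ∀ g ∈ V.toSubgroup, g • s = s) :
    evalAt V (MonoidAlgebra.mapDomainRingHom ℤ_[p] (projQ G U V h) m) x s = evalAt U m x s := by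
  induction m using MonoidAlgebra.induction_linear with
  | zero => rw [map_zero, evalAt_zero, evalAt_zero]
  | add a b ha hb => rw [map_add, evalAt_add, evalAt_add, ha, hb]
  | single k a =>
    rw [MonoidAlgebra.mapDomainRingHom_apply, MonoidAlgebra.mapDomain_single, evalAt_single,
      evalAt_single]
    have h1 : projQ G U V h k = QuotientGroup.mk (Quotient.out k : G) := by
      conv_lhs => rw [← QuotientGroup.out_eq' k]
      rfl
    rw [h1, out_inv_smul V hV]

theorem evalAt_indep (l : Lam p G) (x : S →+ T) (s : S) (U V : OpenNormalSubgroup G)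
    (hU : ∀ g ∈ U.toSubgroup, g • s = s) (hV : ∀ g ∈ V.toSubgroup, g • s = s) :
    evalAt U (l.1 U) x s = evalAt V (l.1 V) x s := by
  have h1 : (U ⊓ V).toSubgroup ≤ U.toSubgroup := fun _ hg => hg.1
  have h2 : (U ⊓ V).toSubgroup ≤ V.toSubgroup := fun _ hg => hg.2
  have e1 := l.2 (U ⊓ V) U h1
  have e2 := l.2 (U ⊓ V) V h2
  beta_reduce at e1 e2
  rw [← e1, ← e2, evalAt_map h1 _ x hU, evalAt_map h2 _ x hV]

theorem evalAt_add_pt (U : OpenNormalSubgroup G) (l : MonoidAlgebra ℤ_[p] (G ⧸ U.toSubgroup))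
    (x : S →+ T) (s t : S) : evalAt U l x (s + t) = evalAt U l x s + evalAt U l x t := by
  simp only [evalAt, smul_add, map_add, Finsupp.sum_add]

theorem evalAt_add_hom (U : OpenNormalSubgroup G) (l : MonoidAlgebra ℤ_[p] (G ⧸ U.toSubgroup))
    (x y : S →+ T) (s : S) : evalAt U l (x + y) s = evalAt U l x s + evalAt U l y s := by
  simp only [evalAt, AddMonoidHom.add_apply, smul_add, Finsupp.sum_add]

theorem evalAt_mul (U : OpenNormalSubgroup G) (l m : MonoidAlgebra ℤ_[p] (G ⧸ U.toSubgroup))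
    (x y : S →+ T) {s : S} (hU : ∀ g ∈ U.toSubgroup, g • s = s)
    (hy : ∀ k : G, y (k • s) = evalAt U m x (k • s)) :
    evalAt U (l * m) x s = evalAt U l y s := by
  induction l using MonoidAlgebra.induction_linear with
  | zero => rw [zero_mul, evalAt_zero, evalAt_zero]
  | add a b ha hb => rw [add_mul, evalAt_add, evalAt_add, ha, hb]
  | single h a =>
    rw [evalAt_single, hy]
    clear hy
    induction m using MonoidAlgebra.induction_linear with
    | zero => rw [mul_zero, evalAt_zero, evalAt_zero, smul_zero]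
    | add b c hb hc => rw [mul_add, evalAt_add, evalAt_add, hb, hc, smul_add]
    | single k b =>
      have h1 : h * k = QuotientGroup.mk ((Quotient.out h : G) * (Quotient.out k : G)) := by
        rw [QuotientGroup.mk_mul, QuotientGroup.out_eq', QuotientGroup.out_eq']
      rw [MonoidAlgebra.single_mul_single, evalAt_single, evalAt_single, h1, out_inv_smul U hU,
        mul_inv_rev, mul_smul, mul_smul]

variable [hS : IsDiscreteMod G S]

theorem evalDual_eq (l : Lam p G) (x : S →+ T) {s : S} (U : OpenNormalSubgroup G)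
    (hU : ∀ g ∈ U.toSubgroup, g • s = s) : evalDual l x s = evalAt U (l.1 U) x s :=
  evalAt_indep l x s _ U (hS.fix s).choose_spec hU

theorem evalDual_add_pt (l : Lam p G) (x : S →+ T) (s t : S) :
    evalDual l x (s + t) = evalDual l x s + evalDual l x t := by
  obtain ⟨U, hU⟩ := hS.fix s
  obtain ⟨V, hV⟩ := hS.fix t
  have h1 : ∀ g ∈ (U ⊓ V).toSubgroup, g • s = s := fun g hg => hU g hg.1
  have h2 : ∀ g ∈ (U ⊓ V).toSubgroup, g • t = t := fun g hg => hV g hg.2
  rw [evalDual_eq l x (U ⊓ V) (fun g hg => by rw [smul_add, h1 g hg, h2 g hg]),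
    evalDual_eq l x _ h1, evalDual_eq l x _ h2, evalAt_add_pt]

theorem evalDual_one (x : S →+ T) (s : S) : evalDual (1 : Lam p G) x s = x s := by
  obtain ⟨U, hU⟩ := hS.fix s
  refine (evalDual_eq 1 x U hU).trans ?_
  change evalAt U (MonoidAlgebra.single (QuotientGroup.mk 1) 1) x s = _
  rw [evalAt_single, out_inv_smul U hU, inv_one, one_smul, one_smul]

theorem evalDual_mul (l m : Lam p G) (x y : S →+ T) (hy : ∀ s, y s = evalDual m x s) (s : S) :
    evalDual (l * m) x s = evalDual l y s := by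
  obtain ⟨U, hU⟩ := hS.fix s
  refine (evalDual_eq (l * m) x U hU).trans (Eq.trans ?_ (evalDual_eq l _ U hU).symm)
  exact evalAt_mul U (l.1 U) (m.1 U) x y hU
    fun k => (hy _).trans (evalDual_eq m x U (fix_smul U hU k))

end Iwasawa

section Quot

variable {Γ V : Type} [Group Γ] [TopologicalSpace Γ] [AddCommGroup V] [DistribMulAction Γ V]
  (N : Subgroup Γ) [N.Normal] (S : AddSubgroup V) [hS : IsStable N S] (H : Subgroup Γ)

omit [N.Normal] in
theorem out_smul (g : H) (f : S) :
    (Quotient.out (QuotientGroup.mk g : H ⧸ N.subgroupOf H) : H).1 • f.1 = g.1 • f.1 := by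
  obtain ⟨u, hu⟩ := QuotientGroup.mk_out_eq_mul (N.subgroupOf H) g
  rw [hu, Subgroup.coe_mul, mul_smul, hS.triv _ (Subgroup.mem_subgroupOf.1 u.2)]

theorem out_one_smul (f : S) : (Quotient.out (1 : H ⧸ N.subgroupOf H) : H).1 • f.1 = f.1 :=
  (out_smul N S H 1 f).trans (one_smul Γ _)

theorem out_mul_smul (a b : H ⧸ N.subgroupOf H) (f : S) :
    (Quotient.out (a * b) : H).1 • f.1 =
      (Quotient.out a : H).1 • (Quotient.out b : H).1 • f.1 := by
  have h1 : a * b = QuotientGroup.mk ((Quotient.out a : H) * (Quotient.out b : H)) := by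
    rw [QuotientGroup.mk_mul, QuotientGroup.out_eq', QuotientGroup.out_eq']
  rw [h1, out_smul, Subgroup.coe_mul, mul_smul]

theorem out_disc [IsTopologicalGroup Γ] (f : S) :
    ∃ U : OpenNormalSubgroup (H ⧸ N.subgroupOf H), ∀ a ∈ U.toSubgroup,
      (Quotient.out a : H).1 • f.1 = f.1 := by
  obtain ⟨U, hU⟩ := hS.disc f
  refine ⟨⟨⟨(U.toSubgroup.subgroupOf H).map (QuotientGroup.mk' _), ?_⟩,
    (U.isNormal'.subgroupOf _).map _ (QuotientGroup.mk'_surjective _)⟩, ?_⟩
  · exact QuotientGroup.isOpenMap_coe _ (U.isOpen.preimage continuous_subtype_val)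
  · rintro _ ⟨g, hg, rfl⟩
    exact (out_smul N S H g f).trans (hU g.1 hg)

end Quot

end Pool.Agent.Lib.MP_54db3e_nt
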