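import Pool.Agent.Lib.MP_54db3e_nt.IwLem

/-!
Definitions used by the statement, part 2: the dual of a discrete `G`-module as a module over the
Iwasawa algebra, the `p`-primary submodule, and the action of a quotient `H/(H ∩ N)`.
-/

noncomputable section

namespace Pool.Agent.Lib.MP_54db3e_nt

section Iwasawa

variable {p : ℕ} [Fact p.Prime] {G : Type} [Group G] [TopologicalSpace G]
  {S T : Type} [AddCommGroup S] [DistribMulAction G S] [AddCommGroup T] [Module ℤ_[p] T]
  [IsDiscreteMod G S]

theorem dual_add_pt (l : Lam p G) (x : S →+ T) (s t : S) :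
    evalDual l x (s + t) = evalDual l x s + evalDual l x t := evalDual_add_pt l x s t

/-- The action of the Iwasawa algebra on `Hom(S, T)`. -/
instance dualSMul : SMul (Lam p G) (S →+ T) :=
  ⟨fun l x => AddMonoidHom.mk' (evalDual l x) (dual_add_pt l x)⟩

theorem dual_smul_add (l : Lam p G) (x y : S →+ T) : l • (x + y) = l • x + l • y :=
  AddMonoidHom.ext fun s => evalAt_add_hom _ _ x y s

theorem dual_add_smul (l m : Lam p G) (x : S →+ T) : (l + m) • x = l • x + m • x :=
  AddMonoidHom.ext fun s => evalAt_add _ _ _ x s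

theorem dual_mul_smul (l m : Lam p G) (x : S →+ T) : (l * m) • x = l • m • x :=
  AddMonoidHom.ext (evalDual_mul l m x _ fun _ => rfl)

theorem dual_one_smul (x : S →+ T) : (1 : Lam p G) • x = x :=
  AddMonoidHom.ext (evalDual_one x)

instance dualModule : Module (Lam p G) (S →+ T) :=
  Module.ofMinimalAxioms dual_smul_add dual_add_smul dual_mul_smul dual_one_smul

/-- The `p`-primary submodule `X(p)` of a module `X`. -/
def pPrimary (p : ℕ) (R X : Type) [Ring R] [AddCommGroup X] [Module R X] : Submodule R X where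
  carrier := {x | ∃ k : ℕ, p ^ k • x = 0}
  add_mem' := fun {x y} ⟨k, hk⟩ ⟨m, hm⟩ => ⟨k + m, by
    rw [smul_add, pow_add, mul_smul, mul_smul, hm, smul_zero, add_zero, smul_comm, hk, smul_zero]⟩
  zero_mem' := ⟨0, smul_zero _⟩
  smul_mem' := fun l x ⟨k, hk⟩ => ⟨k, by rw [smul_comm, hk, smul_zero]⟩

variable (p G S)

/-- `X/X(p)` is finitely generated over `Λ(G)`, for `X = Hom(S, ℚ_p/ℤ_p)` the Pontryagin dual of
the discrete `G`-module `S`. -/
def DualFinGen : Prop :=
  Module.Finite (Lam p G) ((S →+ ℚ_[p] ⧸ (1 : Submodule ℤ_[p] ℚ_[p])) ⧸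
    pPrimary p (Lam p G) (S →+ ℚ_[p] ⧸ (1 : Submodule ℤ_[p] ℚ_[p])))

end Iwasawa

section Quot

variable {Γ V : Type} [Group Γ] [TopologicalSpace Γ] [AddCommGroup V] [DistribMulAction Γ V]
  (N : Subgroup Γ) (S : AddSubgroup V) [hS : IsStable N S] (H : Subgroup Γ)

/-- A class of `H/(H ∩ N)` acts on `S` through a representative. -/
instance quotSMul : SMul (H ⧸ N.subgroupOf H) S :=
  ⟨fun a f => ⟨(Quotient.out a : H).1 • f.1, hS.mem _ f⟩⟩

theorem quot_smul_zero (a : H ⧸ N.subgroupOf H) : a • (0 : S) = 0 :=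
  Subtype.ext (smul_zero (Quotient.out a : H).1)

theorem quot_smul_add (a : H ⧸ N.subgroupOf H) (f f' : S) : a • (f + f') = a • f + a • f' :=
  Subtype.ext (smul_add (Quotient.out a : H).1 f.1 f'.1)

variable [N.Normal]

theorem quot_one_smul (f : S) : (1 : H ⧸ N.subgroupOf H) • f = f :=
  Subtype.ext (out_one_smul N S H f)

theorem quot_mul_smul (a b : H ⧸ N.subgroupOf H) (f : S) : (a * b) • f = a • b • f :=
  Subtype.ext (out_mul_smul N S H a b f)

instance quotAction : DistribMulAction (H ⧸ N.subgroupOf H) S where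
  toSMul := quotSMul N S H
  one_smul := quot_one_smul N S H
  mul_smul := quot_mul_smul N S H
  smul_zero := quot_smul_zero N S H
  smul_add := quot_smul_add N S H

instance quotDiscrete [IsTopologicalGroup Γ] : IsDiscreteMod (H ⧸ N.subgroupOf H) S :=
  ⟨fun f => (out_disc N S H f).imp fun _ h a ha => Subtype.ext (h a ha)⟩

end Quot

end Pool.Agent.Lib.MP_54db3e_nt
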