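import Pool.Agent.Lib.MP_54db3e_nt.Stmt

/-!
Density of the image from the generators.
-/

open scoped Classical

noncomputable section

namespace Pool.Agent.Lib.MP_54db3e_nt

namespace TBig

abbrev MF := Matrix (Fin 2) (Fin 2) F5

theorem mc_iff {n : ℕ} {A B : M2} : MC n A B ↔ ∃ C : M2, A = B + (5 : ℤ_[5]) ^ n • C := by
  constructor
  · intro h
    choose C hC using h
    refine ⟨Matrix.of C, ?_⟩
    ext i j
    simp only [Matrix.add_apply, Matrix.smul_apply, Matrix.of_apply, smul_eq_mul]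
    rw [← hC i j]; ring
  · rintro ⟨C, rfl⟩ i j
    exact ⟨C i j, by simp⟩

theorem dvd_iff (x : ℤ_[5]) : (5 : ℤ_[5]) ∣ x ↔ PadicInt.toZMod x = 0 := by
  rw [← RingHom.mem_ker, PadicInt.ker_toZMod, PadicInt.maximalIdeal_eq_span_p,
    Ideal.mem_span_singleton]
  rfl

/-- reduction modulo five -/
def red : M2 →+* MF := (PadicInt.toZMod (p := 5)).mapMatrix

theorem red_apply (A : M2) (i j : Fin 2) : red A i j = PadicInt.toZMod (A i j) := rfl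

theorem mc_one_iff {A B : M2} : MC 1 A B ↔ red A = red B := by
  constructor
  · intro h
    ext i j
    have := h i j
    rw [pow_one, dvd_iff, map_sub, sub_eq_zero] at this
    exact this
  · intro h i j
    rw [pow_one, dvd_iff, map_sub, sub_eq_zero]
    exact congrFun (congrFun h i) j

variable {G : Type} [Group G] (ρ : G →* M2)

/-- `1 + 5^k X` is attained modulo `5^(k+1)` -/
def R (k : ℕ) (X : M2) : Prop := ∃ g, MC (k + 1) (ρ g) (1 + (5 : ℤ_[5]) ^ k • X)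

theorem R.congr {k : ℕ} {X Y : M2} (h : R ρ k X) (hXY : MC 1 X Y) : R ρ k Y := by
  obtain ⟨g, hg⟩ := h
  obtain ⟨C, rfl⟩ := mc_iff.mp hXY
  refine ⟨g, hg.trans (mc_iff.mpr ⟨C, ?_⟩)⟩
  rw [smul_add, smul_smul, ← pow_add, add_assoc]

theorem R.zero (k : ℕ) : R ρ k 0 := ⟨1, by simpa using MC.refl _ 1⟩

theorem R.add {X Y : M2} (h : R ρ 1 X) (h' : R ρ 1 Y) : R ρ 1 (X + Y) := by
  obtain ⟨g, hg⟩ := h
  obtain ⟨g', hg'⟩ := h'
  refine ⟨g * g', ?_⟩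
  rw [map_mul]
  refine (hg.mul hg').trans (mc_iff.mpr ⟨X * Y, ?_⟩)
  simp only [mul_add, add_mul, one_mul, mul_one, smul_add, smul_mul_smul_comm, ← pow_add]
  abel

theorem R.conj {k : ℕ} {X : M2} (h : R ρ k X) (a : G) : R ρ k (ρ a * X * ρ a⁻¹) := by
  obtain ⟨g, hg⟩ := h
  refine ⟨a * g * a⁻¹, ?_⟩
  have := ((MC.refl _ (ρ a)).mul hg).mul (MC.refl _ (ρ a⁻¹))
  rw [map_mul, map_mul]
  convert this using 1
  rw [mul_add, add_mul, mul_one, rho_mul_inv, mul_smul_comm, smul_mul_assoc]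

theorem pow_five (c : ℤ_[5]) (Z : M2) : (1 + c • Z) ^ 5 = 1 + (5 * c) • Z + (10 * c ^ 2) • Z ^ 2 +
    (10 * c ^ 3) • Z ^ 3 + (5 * c ^ 4) • Z ^ 4 + c ^ 5 • Z ^ 5 := by
  have e : ∀ W : M2, (1 + W) ^ 5 = 1 + 5 • W + 10 • W ^ 2 + 10 • W ^ 3 + 5 • W ^ 4 + W ^ 5 := by
    intro W
    noncomm_ring
  rw [e]
  simp only [smul_pow, ← Nat.cast_smul_eq_nsmul ℤ_[5], smul_smul]
  norm_num

theorem R.succ {k : ℕ} {X : M2} (h : R ρ (k + 1) X) : R ρ (k + 2) X := by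
  obtain ⟨g, hg⟩ := h
  obtain ⟨C, hC⟩ := mc_iff.mp hg
  have e : ρ g = 1 + (5 : ℤ_[5]) ^ (k + 1) • (X + (5 : ℤ_[5]) • C) := by
    rw [hC, smul_add, smul_smul, ← pow_succ, add_assoc]
  refine ⟨g ^ 5, ?_⟩
  rw [map_pow, e, pow_five]
  set Z := X + (5 : ℤ_[5]) • C with hZ
  refine mc_iff.mpr ⟨C + (2 * 5 ^ k : ℤ_[5]) • Z ^ 2 + (2 * 5 ^ (2 * k + 1) : ℤ_[5]) • Z ^ 3 +
    (5 ^ (3 * k + 2) : ℤ_[5]) • Z ^ 4 + (5 ^ (4 * k + 2) : ℤ_[5]) • Z ^ 5, ?_⟩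
  generalize Z ^ 2 = Z2
  generalize Z ^ 3 = Z3
  generalize Z ^ 4 = Z4
  generalize Z ^ 5 = Z5
  rw [hZ]
  ext i j
  simp only [Matrix.add_apply, Matrix.smul_apply, smul_eq_mul]
  ring

/-- the reductions of the attained matrices at the first level -/
def V (Y : MF) : Prop := ∃ X : M2, red X = Y ∧ R ρ 1 X

theorem V.zero : V ρ 0 := ⟨0, map_zero _, R.zero ρ 1⟩

theorem V.add {X Y : MF} (h : V ρ X) (h' : V ρ Y) : V ρ (X + Y) := by
  obtain ⟨A, rfl, hA⟩ := h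
  obtain ⟨B, rfl, hB⟩ := h'
  exact ⟨A + B, map_add _ _ _, hA.add ρ hB⟩

theorem V.smul {X : MF} (h : V ρ X) (c : F5) : V ρ (c • X) := by
  have : ∀ n : ℕ, V ρ ((n : F5) • X) := by
    intro n
    induction n with
    | zero => simpa using V.zero ρ
    | succ n ih => rw [Nat.cast_succ, add_smul, one_smul]; exact ih.add ρ h
  simpa using this c.val

theorem V.conj {X Y : MF} (h : V ρ X) (a : G) (e : Y * red (ρ a) = red (ρ a) * X) : V ρ Y := by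
  obtain ⟨A, rfl, hA⟩ := h
  refine ⟨_, ?_, hA.conj ρ a⟩
  rw [map_mul, map_mul, ← e, mul_assoc, ← map_mul, rho_mul_inv, map_one, mul_one]

theorem V.of_eq {X Y : MF} (h : V ρ X) (e : X = Y) : V ρ Y := e ▸ h

theorem V.lev {g : G} (hg : g ∈ lev ρ 1) :
    ∃ X : M2, ρ g = 1 + (5 : ℤ_[5]) • X ∧ V ρ (red X) := by
  obtain ⟨X, hX⟩ := mc_iff.mp hg
  exact ⟨X, by simpa using hX, X, rfl, g, hX ▸ MC.refl _ _⟩

theorem parts {a : G} (ha : red (ρ a) = !![2, 0; 0, 1]) {x y z w : F5} (h : V ρ !![x, y; z, w]) :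
    V ρ !![0, y; 0, 0] ∧ V ρ !![0, 0; z, 0] ∧ V ρ !![x, 0; 0, w] := by
  have h5 : (5 : F5) = 0 := rfl
  have c : ∀ x y z w : F5, V ρ !![x, y; z, w] → V ρ !![x, 2 * y; 3 * z, w] := by
    intro x y z w h
    refine h.conj ρ a ?_
    rw [ha]
    ext i j
    fin_cases i <;> fin_cases j <;> simp [Matrix.mul_apply, Fin.sum_univ_two]
    · ring
    · linear_combination z * h5
  have h1 := c _ _ _ _ h
  have h2 := c _ _ _ _ h1
  have h3 := c _ _ _ _ h2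
  refine ⟨(((h.smul ρ 4).add ρ (h1.smul ρ 2)).add ρ ((h2.smul ρ 1).add ρ (h3.smul ρ 3))).of_eq ρ ?_,
    (((h.smul ρ 4).add ρ (h1.smul ρ 3)).add ρ ((h2.smul ρ 1).add ρ (h3.smul ρ 2))).of_eq ρ ?_,
    (((h.smul ρ 4).add ρ (h1.smul ρ 4)).add ρ ((h2.smul ρ 4).add ρ (h3.smul ρ 4))).of_eq ρ ?_⟩
  all_goals
    clear h3 h2 h1 h c
    ext i j
    fin_cases i <;> fin_cases j <;> simp <;> revert x y z w <;> decide

theorem all_one
    (h1 : ∀ u v : F5, u ≠ 0 → v ≠ 0 → ∃ g ∈ gam ρ, ph1 ρ g = u ∧ ph2 ρ g = v)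
    (h2 : ∃ s, (5 : ℤ_[5]) ∣ ρ s 0 0 ∧ (5 : ℤ_[5]) ∣ ρ s 1 1)
    (h3 : ∃ τ ∈ lev ρ 1, ¬ (25 : ℤ_[5]) ∣ ρ τ 0 1 ∨ ¬ (25 : ℤ_[5]) ∣ ρ τ 1 0)
    (h4 : ∃ g ∈ lev ρ 1, (25 : ℤ_[5]) ∣ ρ g 0 0 - 1 ∧ (25 : ℤ_[5]) ∣ ρ g 0 1 ∧
      ¬ (25 : ℤ_[5]) ∣ ρ g 1 1 - 1) (X : M2) : R ρ 1 X := by
  have d25 : ∀ x : ℤ_[5], (25 : ℤ_[5]) ∣ 5 * x ↔ PadicInt.toZMod x = 0 := by
    intro x
    rw [← dvd_iff, show (25 : ℤ_[5]) = 5 * 5 by norm_num]
    exact mul_dvd_mul_iff_left (by norm_num)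
  obtain ⟨a, ha, ha1, ha2⟩ := h1 2 1 (by decide) (by decide)
  have hred : red (ρ a) = !![2, 0; 0, 1] := by
    ext i j
    fin_cases i <;> fin_cases j
    · exact ha1
    · exact (dvd_iff _).mp ha.1
    · exact (dvd_iff _).mp ha.2
    · exact ha2
  obtain ⟨s, hs1, hs2⟩ := h2
  obtain ⟨p, q, hs⟩ : ∃ p q : F5, red (ρ s) = !![0, p; q, 0] := by
    refine ⟨red (ρ s) 0 1, red (ρ s) 1 0, ?_⟩
    ext i j
    fin_cases i <;> fin_cases j
    · exact (dvd_iff _).mp hs1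
    · rfl
    · rfl
    · exact (dvd_iff _).mp hs2
  have hpq : p ≠ 0 ∧ q ≠ 0 := by
    have e : red (ρ s) * red (ρ s⁻¹) = 1 := by rw [← map_mul, rho_mul_inv, map_one]
    have e2 := congrArg Matrix.det e
    rw [Matrix.det_mul, Matrix.det_one, hs] at e2
    constructor
    · rintro rfl; simp at e2
    · rintro rfl; simp at e2
  have swap : ∀ x y z w : F5, V ρ !![x, y; z, w] → V ρ !![w, p * z / q; q * y / p, x] := by
    intro x y z w h
    refine h.conj ρ s ?_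
    rw [hs]
    have hp := hpq.1
    have hq := hpq.2
    ext i j
    fin_cases i <;> fin_cases j <;> simp [Matrix.mul_apply, Fin.sum_univ_two] <;> field_simp
  have s01 : ∀ y : F5, y ≠ 0 → V ρ !![0, y; 0, 0] → V ρ !![0, 1; 0, 0] := fun y hy h =>
    (h.smul ρ y⁻¹).of_eq ρ (by ext i j; fin_cases i <;> fin_cases j <;> simp [hy])
  have s10 : ∀ y : F5, y ≠ 0 → V ρ !![0, 0; y, 0] → V ρ !![0, 0; 1, 0] := fun y hy h =>
    (h.smul ρ y⁻¹).of_eq ρ (by ext i j; fin_cases i <;> fin_cases j <;> simp [hy])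
  have s11 : ∀ y : F5, y ≠ 0 → V ρ !![0, 0; 0, y] → V ρ !![0, 0; 0, 1] := fun y hy h =>
    (h.smul ρ y⁻¹).of_eq ρ (by ext i j; fin_cases i <;> fin_cases j <;> simp [hy])
  have off : V ρ !![0, 1; 0, 0] ∧ V ρ !![0, 0; 1, 0] := by
    obtain ⟨τ, hτ, hτ2⟩ := h3
    obtain ⟨Y, hY, hV⟩ := V.lev ρ hτ
    rw [Matrix.eta_fin_two (red Y)] at hV
    obtain ⟨k1, k2, -⟩ := parts ρ hred hV
    rcases hτ2 with k | k
    · have hne : red Y 0 1 ≠ 0 := fun h0 => k (by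
        rw [hY]; simpa using (d25 _).mpr h0)
      have e1 := s01 _ hne k1
      refine ⟨e1, s10 (q * 1 / p) (by simp [hpq.1, hpq.2]) ((swap _ _ _ _ e1).of_eq ρ (by simp))⟩
    · have hne : red Y 1 0 ≠ 0 := fun h0 => k (by
        rw [hY]; simpa using (d25 _).mpr h0)
      have e1 := s10 _ hne k2
      refine ⟨s01 (p * 1 / q) (by simp [hpq.1, hpq.2]) ((swap _ _ _ _ e1).of_eq ρ (by simp)), e1⟩
  have dia : V ρ !![0, 0; 0, 1] := by
    obtain ⟨g, hg, k1, -, k3⟩ := h4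
    obtain ⟨Y, hY, hV⟩ := V.lev ρ hg
    rw [Matrix.eta_fin_two (red Y)] at hV
    obtain ⟨-, -, k⟩ := parts ρ hred hV
    have h0 : red Y 0 0 = 0 := (d25 _).mp (by rw [hY] at k1; simpa using k1)
    have hne : red Y 1 1 ≠ 0 := fun h0 => k3 (by
      rw [hY]; simpa using (d25 _).mpr h0)
    rw [h0] at k
    exact s11 _ hne k
  have dia' : V ρ !![1, 0; 0, 0] := (swap _ _ _ _ dia).of_eq ρ (by simp)
  have hX : V ρ (red X) :=
    (((dia'.smul ρ (red X 0 0)).add ρ (off.1.smul ρ (red X 0 1))).add ρ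
      ((off.2.smul ρ (red X 1 0)).add ρ (dia.smul ρ (red X 1 1)))).of_eq ρ (by
        ext i j; fin_cases i <;> fin_cases j <;> simp)
  obtain ⟨A, hA, hR⟩ := hX
  exact hR.congr ρ (mc_one_iff.mpr hA)

end TBig

open TBig in
theorem bigS : BigS := by
  intro G _ ρ h1 h2 h3 h4 A a01 a10 a00 a11 n
  have hall : ∀ k (X : M2), R ρ (k + 1) X := by
    intro k X
    induction k with
    | zero => exact all_one ρ h1 h2 h3 h4 X
    | succ k ih => exact ih.succ ρ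
  have main : ∀ k, ∃ g, MC (k + 1) (ρ g) A := by
    intro k
    induction k with
    | zero =>
      obtain ⟨g, hg, e1, e2⟩ := h1 (PadicInt.toZMod (A 0 0)) (PadicInt.toZMod (A 1 1))
        (a00.map _).ne_zero (a11.map _).ne_zero
      refine ⟨g, mc_one_iff.mpr ?_⟩
      ext i j
      fin_cases i <;> fin_cases j
      · exact e1
      · exact ((dvd_iff _).mp hg.1).trans ((dvd_iff _).mp a01).symm
      · exact ((dvd_iff _).mp hg.2).trans ((dvd_iff _).mp a10).symm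
      · exact e2
    | succ k ih =>
      obtain ⟨g, hg⟩ := ih
      obtain ⟨C, hC⟩ := mc_iff.mp hg.symm
      obtain ⟨h, hh⟩ := hall k (ρ g⁻¹ * C)
      refine ⟨g * h, ?_⟩
      have := (MC.refl _ (ρ g)).mul hh
      rw [map_mul]
      convert this using 1
      rw [hC, mul_add, mul_one, mul_smul_comm, ← mul_assoc, rho_mul_inv, one_mul]
  obtain ⟨g, hg⟩ := main n
  exact ⟨g, hg.mono (Nat.le_succ n)⟩

end Pool.Agent.Lib.MP_54db3e_nt
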