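import Pool.Agent.Lib.MP_54db3e_nt.Stmt

open scoped Classical

noncomputable section

namespace Pool.Agent.Lib.MP_54db3e_nt

namespace TC5

theorem n5 : ‖(5 : Om 5)‖ = 5⁻¹ := by
  have h : ‖((5 : ℕ) : ℚ_[5])‖ = ((5 : ℕ) : ℝ)⁻¹ := Padic.norm_p
  rw [← norm_algebraMap' (Om 5), map_natCast] at h
  exact_mod_cast h

theorem nunit (n : ℕ) (h : Nat.Coprime 5 n) : ‖(n : Om 5)‖ = 1 := by
  have h1 : ‖(n : ℚ_[5])‖ = 1 := Padic.norm_natCast_eq_one_iff.mpr h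
  rwa [← norm_algebraMap' (Om 5), map_natCast] at h1

theorem nle (n : ℕ) : ‖(n : Om 5)‖ ≤ 1 := IsUltrametricDist.norm_natCast_le_one (Om 5) n

theorem add_lt {x y : Om 5} (h : ‖y‖ < ‖x‖) : ‖x + y‖ = ‖x‖ := by
  rw [IsUltrametricDist.norm_add_eq_max_of_norm_ne_norm h.ne', max_eq_left h.le]

theorem add_le {x y : Om 5} {c : ℝ} (hx : ‖x‖ ≤ c) (hy : ‖y‖ ≤ c) : ‖x + y‖ ≤ c :=
  (IsUltrametricDist.norm_add_le_max x y).trans (max_le hx hy)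

theorem n2 : ‖(2 : Om 5)‖ = 1 := by exact_mod_cast nunit 2 (by norm_num)
theorem n4 : ‖(4 : Om 5)‖ = 1 := by exact_mod_cast nunit 4 (by norm_num)
theorem n6 : ‖(6 : Om 5)‖ = 1 := by exact_mod_cast nunit 6 (by norm_num)
theorem n10 : ‖(10 : Om 5)‖ = 5⁻¹ := by
  rw [show (10 : Om 5) = 2 * 5 by norm_num, norm_mul, n2, n5, one_mul]
theorem n20 : ‖(20 : Om 5)‖ = 5⁻¹ := by
  rw [show (20 : Om 5) = 4 * 5 by norm_num, norm_mul, n4, n5, one_mul]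

theorem prod3 {α : Om 5} (h : α ^ 2 = 29) : ‖α - 3‖ * ‖-α - 3‖ = 5⁻¹ := by
  rw [← norm_mul, show (α - 3) * (-α - 3) = -20 by linear_combination -h, norm_neg, n20]

theorem alt {α : Om 5} (h : α ^ 2 = 29) : ‖α - 3‖ < 1 ∨ ‖-α - 3‖ < 1 := by
  by_contra hc
  push Not at hc
  have := prod3 h
  nlinarith [hc.1, hc.2]

theorem other {α : Om 5} (h3 : ‖α - 3‖ < 1) : ‖-α - 3‖ = 1 := by
  rw [show -α - 3 = -(6 + (α - 3)) by ring, norm_neg, add_lt (by rwa [n6]), n6]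

theorem close {α : Om 5} (h : α ^ 2 = 29) (h3 : ‖α - 3‖ < 1) : ‖α - 3‖ = 5⁻¹ := by
  have := prod3 h
  rwa [other h3, mul_one] at this

theorem sq2 {α r : Om 5} (h3 : ‖α - 3‖ < 1) (hr : r ^ 2 = (7 - α) / 2) : ‖r ^ 2 - 2‖ < 1 := by
  rw [hr, show (7 - α) / 2 - 2 = -(α - 3) / 2 by ring, norm_div, norm_neg, n2, div_one]
  exact h3

theorem nr1 {α r : Om 5} (h3 : ‖α - 3‖ < 1) (hr : r ^ 2 = (7 - α) / 2) : ‖r‖ = 1 := by
  have h : ‖r ^ 2‖ = 1 := by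
    rw [show r ^ 2 = 2 + (r ^ 2 - 2) by ring, add_lt (by rw [n2]; exact sq2 h3 hr), n2]
  rw [norm_pow] at h
  exact (pow_eq_one_iff_of_nonneg (norm_nonneg _) two_ne_zero).1 h

theorem nr2 {α r : Om 5} (h : α ^ 2 = 29) (h3 : ‖α - 3‖ < 1) (hr : r ^ 2 = (7 + α) / 2) :
    ‖r‖ ^ 2 = 5⁻¹ := by
  have h1 : ‖7 - α‖ = 1 := by
    rw [show 7 - α = 4 + -(α - 3) by ring, add_lt (by rwa [norm_neg, n4]), n4]
  have h2 : ‖7 - α‖ * ‖7 + α‖ = 5⁻¹ := by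
    rw [← norm_mul, show (7 - α) * (7 + α) = 20 by linear_combination -h, n20]
  rw [← norm_pow, hr, norm_div, n2, div_one, ← h2, h1, one_mul]

theorem nx1 {α r : Om 5} (h : α ^ 2 = 29) (h3 : ‖α - 3‖ < 1) (hr : r ^ 2 = (7 - α) / 2) :
    ‖xT α r‖ ≤ 1 := by
  have e : xT α r = (-((913 : ℕ) : Om 5) + ((1977 : ℕ) : Om 5) * (α - 3) +
      -((((5272 : ℕ) : Om 5) + ((11203 : ℕ) : Om 5) * (α - 3) / 10) * r)) / 2 := by
    unfold xT; push_cast; ring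
  rw [e, norm_div, n2, div_one]
  refine add_le (add_le (by rw [norm_neg]; exact nle _) ?_) ?_
  · rw [norm_mul]; exact mul_le_one₀ (nle _) (norm_nonneg _) h3.le
  · rw [norm_neg, norm_mul, nr1 h3 hr, mul_one]
    refine add_le (nle _) ?_
    rw [norm_div, norm_mul, close h h3, n10, mul_div_assoc, div_self (by norm_num), mul_one]
    exact nle _

theorem nx2 {α r : Om 5} (h : α ^ 2 = 29) (h3 : ‖α - 3‖ < 1) (hr : r ^ 2 = (7 + α) / 2) :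
    1 < ‖xT (-α) r‖ := by
  have e : xT (-α) r = ((((14498 : ℕ) : Om 5) + ((11203 : ℕ) : Om 5) * (α - 3)) / 10 * r +
      -(((12775 : ℕ) : Om 5) + ((1977 : ℕ) : Om 5) * (α - 3))) / 2 := by
    unfold xT; push_cast; ring
  have u : ‖((14498 : ℕ) : Om 5)‖ = 1 := nunit _ (by norm_num)
  have s : ∀ n : ℕ, ‖(n : Om 5) * (α - 3)‖ < 1 := fun n => by
    rw [norm_mul]; exact mul_lt_one_of_nonneg_of_lt_one_right (nle _) (norm_nonneg _) h3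
  have h1 : ‖(((14498 : ℕ) : Om 5) + ((11203 : ℕ) : Om 5) * (α - 3)) / 10 * r‖ = 5 * ‖r‖ := by
    rw [norm_mul, norm_div, add_lt (by rw [u]; exact s _), u, n10]; norm_num
  have h2 : 1 < 5 * ‖r‖ := by
    have := nr2 h h3 hr
    have h0 := norm_nonneg r
    nlinarith
  rw [e, norm_div, n2, div_one, add_lt, h1]
  · exact h2
  · rw [h1, norm_neg]
    exact (add_le (nle _) (s _).le).trans_lt h2

theorem moves {x : Om 5} (h : ∀ y : ℚ_[5], algebraMap ℚ_[5] (Om 5) y ≠ x) :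
    ∃ γ : Gl 5, γ x ≠ x := by
  by_contra hc
  push Not at hc
  obtain ⟨y, hy⟩ := (InfiniteGalois.mem_range_algebraMap_iff_fixed (k := ℚ_[5]) x).2 hc
  exact h y hy

theorem moves_ram {x : Om 5} (h : ‖x‖ ^ 2 = 5⁻¹) : ∃ γ : Gl 5, γ x ≠ x := by
  refine moves fun y hy => ?_
  rw [← hy, norm_algebraMap'] at h
  have y0 : y ≠ 0 := by rintro rfl; norm_num at h
  rw [Padic.norm_eq_zpow_neg_valuation y0, ← zpow_natCast, ← zpow_mul, ← zpow_neg_one] at h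
  have := zpow_right_injective₀ (a := (5 : ℝ)) (by norm_num) (by norm_num) (by exact_mod_cast h)
  omega

theorem moves_unit {x : Om 5} (h1 : ‖x‖ = 1) (h : ‖x ^ 2 - 2‖ < 1) : ∃ γ : Gl 5, γ x ≠ x := by
  refine moves fun y hy => ?_
  rw [← hy, norm_algebraMap'] at h1
  rw [← hy, ← map_pow, ← map_ofNat (algebraMap ℚ_[5] (Om 5)) 2, ← map_sub, norm_algebraMap'] at h
  let w : ℤ_[5] := ⟨y, h1.le⟩
  have h2 : ‖w ^ 2 - 2‖ < 1 := by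
    rw [PadicInt.norm_def]; push_cast; exact h
  have h3 : PadicInt.toZMod (w ^ 2 - 2) = 0 := by
    rw [← RingHom.mem_ker, PadicInt.ker_toZMod, IsLocalRing.mem_maximalIdeal, PadicInt.mem_nonunits]
    exact h2
  rw [map_sub, map_pow, map_ofNat] at h3
  generalize PadicInt.toZMod w = t at h3
  revert t; decide

theorem xc_pmap {k k' : Type} [Field k] [Algebra ℚ k] [Field k'] [Algebra ℚ k'] (f : k →+* k')
    (P : Pt E0 k) : xc (pmap E0 f P) = f (xc P) := by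
  cases P with
  | zero => exact (map_zero f).symm
  | some x y h => rfl

theorem yc_pmap {k k' : Type} [Field k] [Algebra ℚ k] [Field k'] [Algebra ℚ k'] (f : k →+* k')
    (P : Pt E0 k) : yc (pmap E0 f P) = f (yc P) := by
  cases P with
  | zero => exact (map_zero f).symm
  | some x y h => rfl

theorem pmap_inj {k k' : Type} [Field k] [Algebra ℚ k] [Field k'] [Algebra ℚ k'] (f : k →+* k') :
    Function.Injective (pmap E0 f) := WeierstrassCurve.Affine.Point.map_injective _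

theorem pmap_ne {k k' : Type} [Field k] [Algebra ℚ k] [Field k'] [Algebra ℚ k'] (f : k →+* k')
    {P : Pt E0 k} (h : P ≠ 0) : pmap E0 f P ≠ 0 := fun e => h (pmap_inj f (e.trans (map_zero _).symm))

/-- the kernel of reduction as a subgroup -/
def K1 (h : E1S) : AddSubgroup (Pt E0 (Om 5)) :=
  AddSubgroup.ofSub {P | E1 P} ⟨0, Or.inl rfl⟩ fun P hP Q hQ => by
    rw [← sub_eq_add_neg]; exact h.1 P Q hP hQ

theorem mem_K1 (h : E1S) {P : Pt E0 (Om 5)} : P ∈ K1 h ↔ E1 P := Iff.rfl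

theorem part3 (hE1 : E1S) (d : Rep) (ι : Qb →+* Om 5) (h3 : ‖ι d.a - 3‖ < 1) :
    ¬ E1 (pmap E0 ι (d.T 0)) ∧ E1 (pmap E0 ι (d.T 1)) ∧
    ∀ P : Pt E0 Qb, 5 • P = 0 → (E1 (pmap E0 ι P) ↔ ∃ j : ℕ, P = j • d.T 1) := by
  have ha : ι d.a ^ 2 = 29 := by rw [← map_pow, d.ha, map_ofNat]
  have h1 : ι d.r1 ^ 2 = (7 - ι d.a) / 2 := by
    rw [← map_pow, d.hr1, map_div₀, map_sub, map_ofNat, map_ofNat]
  have h2 : ι d.r2 ^ 2 = (7 + ι d.a) / 2 := by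
    rw [← map_pow, d.hr2, map_div₀, map_add, map_ofNat, map_ofNat]
  have hx : ∀ a r : Qb, ι (xT a r) = xT (ι a) (ι r) := fun a r => by
    simp only [xT, map_div₀, map_sub, map_add, map_mul, map_neg, map_ofNat]
  have A : ¬ E1 (pmap E0 ι (d.T 0)) := by
    rintro (h | h)
    · exact pmap_ne ι (d.T_ne 0) h
    · rw [xc_pmap, d.hx1, hx] at h
      exact absurd (nx1 ha h3 h1) (not_le.2 h)
  have B : E1 (pmap E0 ι (d.T 1)) := Or.inr (by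
    rw [xc_pmap, d.hx2, hx, map_neg]; exact nx2 ha h3 h2)
  have C : ∀ j : ℕ, pmap E0 ι (j • d.T 1) ∈ K1 hE1 := fun j => by
    rw [map_nsmul]; exact (K1 hE1).nsmul_mem B j
  refine ⟨A, B, fun P hP => ⟨fun h => ?_, ?_⟩⟩
  · obtain ⟨i, j, rfl⟩ := d.span P hP
    have h4 : pmap E0 ι (i • d.T 0) ∈ K1 hE1 := by
      have := (K1 hE1).sub_mem h (C j)
      rwa [← map_sub, add_sub_cancel_right] at this
    have h5 : ∀ n : ℕ, n • d.T 0 = (n % 5) • d.T 0 := fun n => by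
      conv_lhs => rw [← Nat.mod_add_div n 5, add_nsmul, mul_nsmul, d.five 0, nsmul_zero, add_zero]
    by_cases hi : i % 5 = 0
    · exact ⟨j, by rw [h5, hi, zero_nsmul, zero_add]⟩
    · exfalso
      have h6 := (K1 hE1).nsmul_mem h4 (i ^ 3)
      rw [← map_nsmul, ← mul_nsmul, h5] at h6
      have h7 : i * i ^ 3 % 5 = 1 := by
        have : i % 5 = 1 ∨ i % 5 = 2 ∨ i % 5 = 3 ∨ i % 5 = 4 := by omega
        rcases this with e | e | e | e <;> simp [Nat.mul_mod, Nat.pow_mod, e]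
      rw [h7, one_nsmul] at h6
      exact A h6
  · rintro ⟨j, rfl⟩
    exact C j

theorem gen (S : F5 → F5 → Prop) (hm : ∀ a b c e, S a b → S c e → S (a * c) (b * e))
    (h0 : ∀ a b, S a b → a ≠ 0 ∧ b ≠ 0) (h1 : ∃ a b, S a b ∧ a ^ 2 ≠ 1)
    (h2 : ∃ a b, S a b ∧ b ^ 2 ≠ 1) (h3 : ∃ a b, S a b ∧ ¬ (a ^ 2 = 1 ↔ b ^ 2 = 1)) :
    ∀ u v, u ≠ 0 → v ≠ 0 → S u v := by
  have hp : ∀ a b, S a b → ∀ n : ℕ, S (a ^ (n + 1)) (b ^ (n + 1)) := fun a b h n => by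
    induction n with
    | zero => simpa using h
    | succ n ih => rw [pow_succ, pow_succ b]; exact hm _ _ _ _ ih h
  have ns : ∀ a b : F5, a ≠ 0 → b ≠ 0 → a ^ 2 ≠ 1 → b ^ 2 ≠ 1 → (a * b) ^ 2 = 1 := by decide
  have sn : ∀ a b : F5, a ^ 2 = 1 → b ^ 2 ≠ 1 → (a * b) ^ 2 ≠ 1 := by decide
  have key : (∃ a b, S a b ∧ a ^ 2 ≠ 1 ∧ b ^ 2 = 1) ∧ ∃ a b, S a b ∧ a ^ 2 = 1 ∧ b ^ 2 ≠ 1 := by
    obtain ⟨a, b, s, h⟩ := h3
    by_cases ha : a ^ 2 = 1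
    · have hb : b ^ 2 ≠ 1 := fun hb => h (iff_of_true ha hb)
      refine ⟨?_, a, b, s, ha, hb⟩
      obtain ⟨c, e, s', hc⟩ := h1
      by_cases he : e ^ 2 = 1
      · exact ⟨c, e, s', hc, he⟩
      · exact ⟨_, _, hm _ _ _ _ s s', sn _ _ ha hc, ns _ _ (h0 _ _ s).2 (h0 _ _ s').2 hb he⟩
    · have hb : b ^ 2 = 1 := by_contra fun hb => h (iff_of_false ha hb)
      refine ⟨⟨a, b, s, ha, hb⟩, ?_⟩
      obtain ⟨c, e, s', he⟩ := h2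
      by_cases hc : c ^ 2 = 1
      · exact ⟨c, e, s', hc, he⟩
      · exact ⟨_, _, hm _ _ _ _ s s', ns _ _ (h0 _ _ s).1 (h0 _ _ s').1 ha hc, sn _ _ hb he⟩
  obtain ⟨⟨a, b, s, ha, hb⟩, c, e, s', hc, he⟩ := key
  have fin : ∀ a : F5, a ≠ 0 → a ^ 2 ≠ 1 → ∀ b : F5, b ^ 2 = 1 → ∀ c : F5, c ^ 2 = 1 →
      ∀ e : F5, e ≠ 0 → e ^ 2 ≠ 1 → ∀ u : F5, u ≠ 0 → ∀ v : F5, v ≠ 0 → ∃ i j : Fin 4,
      a ^ (i.val + 1) * c ^ (j.val + 1) = u ∧ b ^ (i.val + 1) * e ^ (j.val + 1) = v := by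
    decide +kernel
  intro u v hu hv
  obtain ⟨i, j, rfl, rfl⟩ := fin a (h0 _ _ s).1 ha b hb c hc e (h0 _ _ s').2 he u hu v hv
  exact hm _ _ _ _ (hp _ _ s i) (hp _ _ s' j)

theorem part4 (hCh : ChS) (hEmb : EmbS) (hIdx : IdxS) (d : Rep) (ι : Qb →+* Om 5) :
    Dec ι ≤ gam d.ρ ∧
    ∀ u v : F5, u ≠ 0 → v ≠ 0 → ∃ g ∈ Dec ι, ph1 d.ρ g = u ∧ ph2 d.ρ g = v := by
  have ha : ι d.a ^ 2 = 29 := by rw [← map_pow, d.ha, map_ofNat]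
  have h1 : ι d.r1 ^ 2 = (7 - ι d.a) / 2 := by
    rw [← map_pow, d.hr1, map_div₀, map_sub, map_ofNat, map_ofNat]
  have h2 : ι d.r2 ^ 2 = (7 + ι d.a) / 2 := by
    rw [← map_pow, d.hr2, map_div₀, map_add, map_ofNat, map_ofNat]
  have hD : Dec ι ≤ gam d.ρ := by
    rintro g ⟨γ, hγ⟩
    rw [d.mem_gam]
    refine ((hIdx d).2.2.2.2 g).resolve_right fun hg => ?_
    have e : ‖-ι d.a - 3‖ = ‖ι d.a - 3‖ := by
      rw [← hEmb.2.2.2.1 5 γ (ι d.a - 3), map_sub, ← hγ, hg, map_neg, map_ofNat]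
    rcases alt ha with h | h
    · rw [other h] at e; exact h.ne e.symm
    · have := other h
      rw [neg_neg, ← e] at this
      exact h.ne this
  refine ⟨hD, ?_⟩
  obtain ⟨res, hres, -, -⟩ := hEmb.2.2.1 5 ι
  have hm : (∃ γ : Gl 5, γ (ι d.r1) ≠ ι d.r1) ∧ (∃ γ : Gl 5, γ (ι d.r2) ≠ ι d.r2) ∧
      ∃ γ : Gl 5, γ (ι d.r1 * ι d.r2) ≠ ι d.r1 * ι d.r2 := by
    rcases alt ha with h | h
    · exact ⟨moves_unit (nr1 h h1) (sq2 h h1), moves_ram (nr2 ha h h2),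
        moves_ram (by rw [norm_mul, nr1 h h1, one_mul, nr2 ha h h2])⟩
    · have ha' : (-ι d.a) ^ 2 = 29 := by rw [neg_sq, ha]
      have h1' : ι d.r1 ^ 2 = (7 + -ι d.a) / 2 := by rw [h1, sub_eq_add_neg]
      have h2' : ι d.r2 ^ 2 = (7 - -ι d.a) / 2 := by rw [h2, sub_neg_eq_add]
      exact ⟨moves_ram (nr2 ha' h h1'), moves_unit (nr1 h h2') (sq2 h h2'),
        moves_ram (by rw [norm_mul, nr1 h h2', mul_one, nr2 ha' h h1'])⟩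
  have hin : ∀ γ, res γ ∈ Dec ι := fun γ => ⟨γ, hres γ⟩
  have r1 : ∀ γ : Gl 5, γ (ι d.r1) = if ph1 d.ρ (res γ) ^ 2 = 1 then ι d.r1 else -ι d.r1 :=
    fun γ => by
      rw [← hres γ, d.act_r1 _ (hD (hin γ))]
      split_ifs <;> simp
  have r2 : ∀ γ : Gl 5, γ (ι d.r2) = if ph2 d.ρ (res γ) ^ 2 = 1 then ι d.r2 else -ι d.r2 :=
    fun γ => by
      rw [← hres γ, d.act_r2 _ (hD (hin γ))]
      split_ifs <;> simp
  obtain ⟨⟨γ₁, g1⟩, ⟨γ₂, g2⟩, γ₃, g3⟩ := hm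
  refine gen (fun u v => ∃ g ∈ Dec ι, ph1 d.ρ g = u ∧ ph2 d.ρ g = v) ?_ ?_ ?_ ?_ ?_
  · rintro _ _ _ _ ⟨g, hg, rfl, rfl⟩ ⟨h, hh, rfl, rfl⟩
    exact ⟨g * h, mul_mem hg hh, (hCh GQ d.ρ).1 g (hD hg) h (hD hh)⟩
  · rintro _ _ ⟨g, hg, rfl, rfl⟩
    exact (hCh GQ d.ρ).2.1 g (hD hg)
  · exact ⟨_, _, ⟨res γ₁, hin _, rfl, rfl⟩, fun h => g1 (by rw [r1, if_pos h])⟩
  · exact ⟨_, _, ⟨res γ₂, hin _, rfl, rfl⟩, fun h => g2 (by rw [r2, if_pos h])⟩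
  · refine ⟨_, _, ⟨res γ₃, hin _, rfl, rfl⟩, fun h => g3 ?_⟩
    rw [map_mul, r1, r2]
    by_cases e : ph1 d.ρ (res γ₃) ^ 2 = 1
    · rw [if_pos e, if_pos (h.1 e)]
    · rw [if_neg e, if_neg fun e' => e (h.2 e'), neg_mul_neg]

end TC5

open TC5 in
theorem c5S (hCh : ChS) (hEmb : EmbS) (hE1 : E1S) (hDiv : DivS) (hRep : RepS) (hIdx : IdxS) :
    C5S := by
  have p2 : ∀ (d : Rep) (ι : Qb →+* Om 5), ‖ι d.a - 3‖ < 1 ∨ ‖ι (-d.a) - 3‖ < 1 := fun d ι => by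
    rw [map_neg]; exact alt (by rw [← map_pow, d.ha, map_ofNat])
  have p1 : ∀ d : Rep, ∃ ι : Qb →+* Om 5, ‖ι d.a - 3‖ < 1 := fun d => by
    obtain ⟨ι⟩ := hEmb.1 5
    rcases p2 d ι with h | h
    · exact ⟨ι, h⟩
    · obtain ⟨s, hs⟩ := (hIdx d).2.2.2.1
      exact ⟨ι.comp (s : Qb →+* Qb), by rw [← hs] at h; exact h⟩
  refine ⟨p1, p2, part3 hE1, part4 hCh hEmb hIdx, ?_⟩
  obtain ⟨d⟩ := hRep
  obtain ⟨ι, h⟩ := p1 d
  obtain ⟨-, B, C⟩ := part3 hE1 d ι h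
  refine ⟨pmap E0 ι (d.T 1), pmap_ne ι (d.T_ne 1), B, by rw [← map_nsmul, d.five, map_zero],
    fun T hT h5 => ?_⟩
  obtain ⟨T₀, h0, rfl⟩ := hDiv.2.2.1 (Om 5) ι 1 T (by rwa [pow_one])
  obtain ⟨j, rfl⟩ := (C T₀ (by rwa [pow_one] at h0)).1 hT
  exact ⟨j, map_nsmul _ _ _⟩

end Pool.Agent.Lib.MP_54db3e_nt
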