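import Pool.Agent.Lib.MP_54db3e_nt.Stmt
import Pool.Agent.Lib.MP_54db3e_nt.H84CGFull

open scoped Classical
open WeierstrassCurve

noncomputable section

namespace Pool.Agent.Lib.MP_54db3e_nt

namespace TCg

theorem isOpen_of_opn {k Ω : Type} [Field k] [Field Ω] [Algebra k Ω] [Algebra.IsAlgebraic k Ω]
    {U : Subgroup (Ω ≃ₐ[k] Ω)} (h : OpnK U) : IsOpen (U : Set (Ω ≃ₐ[k] Ω)) := by
  obtain ⟨s, hs⟩ := h
  refine Subgroup.isOpen_mono (H₁ := ⨅ x ∈ s, MulAction.stabilizer (Ω ≃ₐ[k] Ω) x)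
    (fun g hg => hs g fun x hx => ?_) ?_
  · exact (Subgroup.mem_iInf.mp (Subgroup.mem_iInf.mp hg x) hx)
  · simp only [Subgroup.coe_iInf]
    exact isOpen_biInter_finset fun x _ => stabilizer_isOpen_of_isIntegral x

theorem norm_nat_le (l : ℕ) [Fact l.Prime] (n : ℕ) : ‖(n : Om l)‖ ≤ 1 :=
  IsUltrametricDist.norm_natCast_le_one (Om l) n

theorem good5 : H84.Good (E0.toAffine.baseChange (Om 5)) where
  h2 := by
    have h : ‖((2 : ℕ) : ℚ_[5])‖ = 1 := Padic.norm_natCast_eq_one_iff.mpr (by norm_num)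
    rw [← norm_algebraMap' (Om 5), map_natCast] at h
    exact_mod_cast h
  a1 := by simp [E0, E0Z]
  a2 := by simp [E0, E0Z]
  hA := by
    have : (E0.toAffine.baseChange (Om 5)).a₄ = ((8175274 : ℕ) : Om 5) := by simp [E0, E0Z]
    rw [this]; exact norm_nat_le 5 _
  hB := by
    have : (E0.toAffine.baseChange (Om 5)).a₃ ^ 2 + 4 * (E0.toAffine.baseChange (Om 5)).a₆ =
        ((200970867709 : ℕ) : Om 5) := by simp [E0, E0Z]; norm_num
    rw [this]; exact norm_nat_le 5 _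

theorem mem_E1 (P : Pt E0 (Om 5)) : P ∈ H84.E1 good5 ↔ E1 P := by
  rcases P with _ | ⟨x, y, h⟩
  · exact ⟨fun _ => Or.inl rfl, fun _ => trivial⟩
  · exact ⟨fun h => Or.inr h, fun h' => h'.resolve_left (Affine.Point.some_ne_zero h)⟩

theorem act_eq (γ : Gl 5) (P : Pt E0 (Om 5)) :
    H84.act (W := E0.toAffine) γ P = pmap E0 (γ : Om 5 →+* Om 5) P := by
  rcases P with _ | _ <;> rfl

theorem e1 : E1S := by
  refine ⟨fun P Q hP hQ => (mem_E1 _).mp ((H84.E1 good5).sub_mem ((mem_E1 _).mpr hP)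
    ((mem_E1 _).mpr hQ)), fun γ P hP => ?_⟩
  rcases P with _ | ⟨x, y, h⟩
  · exact Or.inl rfl
  · refine Or.inr ?_
    change 1 < ‖γ x‖
    rw [H84.norm_aut]
    exact hP.resolve_left (Affine.Point.some_ne_zero h)

end TCg

open TCg

theorem cg1S (h15 : E15S) : Cg1S := by
  intro Λ hΛ z T₀ hz hfz h0 hE h5 hT hfT y κ hy hκ
  obtain ⟨Q, hQ, h⟩ := H84.unit_class_sub (W := E0.toAffine) good5 hz T₀ ((mem_E1 _).mpr hE) h0 h5
    (fun S hS => hT S ((mem_E1 _).mp hS))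
    (fun P hP => by
      obtain ⟨Q, hQ, e⟩ := h15.2.2.2 P ((mem_E1 _).mp hP)
      exact ⟨Q, (mem_E1 _).mpr hQ, e⟩)
    Λ (isOpen_of_opn hΛ) hfz (fun γ hγ => by rw [act_eq]; exact hfT γ hγ) κ y hy hκ
  exact ⟨Q, (mem_E1 _).mp hQ, fun γ hγ => by rw [← act_eq]; exact (h γ hγ).symm⟩

theorem cgS (h15 : E15S) (hc : C5S) : CgS := by
  intro Λ hanti hop hfix hμ k m hm f hadd hval ⟨U, hU, h0⟩
  obtain ⟨T₀, hT0, hE, h5, hT⟩ := hc.2.2.2.2
  have hle : Λ (max m k) ≤ Λ m := hanti (le_max_left _ _)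
  obtain ⟨m', hm', Q, hQ, h⟩ := H84.coates_greenberg (W := E0.toAffine) good5 T₀ ((mem_E1 _).mpr hE)
    hT0 h5 (fun S hS => hT S ((mem_E1 _).mp hS))
    (fun P hP => by
      obtain ⟨Q, hQ, e⟩ := h15.2.2.2 P ((mem_E1 _).mp hP)
      exact ⟨Q, (mem_E1 _).mpr hQ, e⟩)
    Λ hanti (fun n => isOpen_of_opn (hop n))
    (fun n γ hγ ξ hξ => by
      rcases Nat.eq_zero_or_pos n with rfl | hn
      · rw [pow_zero, pow_one] at hξ; rw [hξ, map_one]
      · exact hμ n hn γ hγ ξ hξ)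
    (fun γ hγ => by rw [act_eq]; exact hfix 1 γ hγ T₀ (by rw [pow_one]; exact h5)) k (max m k) f
    (fun γ hγ δ hδ => by
      rw [act_eq, hfix _ γ hγ, hadd γ (hle hγ) δ (hle hδ)]
      obtain ⟨c, hc⟩ := Nat.exists_eq_add_of_le (le_max_right m k)
      rw [hc, pow_add, mul_comm, mul_smul, (hval δ (hle hδ)).2, smul_zero])
    (fun γ hγ => ⟨(mem_E1 _).mpr (hval γ (hle hγ)).1, (hval γ (hle hγ)).2⟩) U (isOpen_of_opn hU)
    (fun γ hγ => h0 γ (hle hγ))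
  exact ⟨m', (le_max_left _ _).trans hm', Q, (mem_E1 _).mp hQ, fun γ hγ => by
    rw [← act_eq]; exact h γ hγ⟩

end Pool.Agent.Lib.MP_54db3e_nt
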