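import Pool.Agent.Lib.MP_54db3e_nt.Stmt

/-! The diagonal characters and the filtration by levels. -/

open scoped Classical

namespace Pool.Agent.Lib.MP_54db3e_nt

namespace TCh

theorem dvd_iff (x : ℤ_[5]) : (5 : ℤ_[5]) ∣ x ↔ PadicInt.toZMod x = 0 := by
  rw [← RingHom.mem_ker, PadicInt.ker_toZMod, PadicInt.maximalIdeal_eq_span_p,
    Ideal.mem_span_singleton, Nat.cast_ofNat]

theorem mc_iff (n : ℕ) (A : M2) : MC n A 1 ↔ ∃ N : M2, A = 1 + (5 : ℤ_[5]) ^ n • N := by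
  constructor
  · intro h
    choose N hN using h
    refine ⟨Matrix.of N, ?_⟩
    ext i j
    rw [Matrix.add_apply, Matrix.smul_apply, Matrix.of_apply, smul_eq_mul, ← hN]
    ring
  · rintro ⟨N, rfl⟩ i j
    exact ⟨N i j, by rw [Matrix.add_apply, Matrix.smul_apply, smul_eq_mul]; ring⟩

theorem pow_five (s : ℤ_[5]) (N : M2) : (1 + (s * 5) • N) ^ 5 = 1 + (s * 5 * 5) •
    (N + (10 * s) • (N * N) + (50 * s ^ 2) • (N * (N * N)) + (125 * s ^ 3) • (N * (N * (N * N))) +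
      (125 * s ^ 4) • (N * (N * (N * (N * N))))) := by
  have e : ∀ A : M2, A ^ 5 = A * (A * (A * (A * A))) := fun A => by
    simp only [pow_succ', pow_zero, mul_one]
  rw [e]
  simp only [one_mul, mul_one, add_mul, mul_add, smul_mul_assoc, mul_smul_comm]
  module

theorem mc_pow {n : ℕ} {A : M2} (h : MC (n + 1) A 1) : MC (n + 2) (A ^ 5) 1 := by
  obtain ⟨N, rfl⟩ := (mc_iff _ _).1 h
  exact (mc_iff _ _).2 ⟨_, by
    rw [pow_succ (5 : ℤ_[5]) n, pow_five, pow_succ (5 : ℤ_[5]) (n + 1), pow_succ (5 : ℤ_[5]) n]⟩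

variable {G : Type} [Group G] (ρ : G →* M2)

theorem mul (g : G) (hg : g ∈ gam ρ) (h : G) :
    ph1 ρ (g * h) = ph1 ρ g * ph1 ρ h ∧ ph2 ρ (g * h) = ph2 ρ g * ph2 ρ h := by
  have h1 := (dvd_iff _).1 hg.1
  have h2 := (dvd_iff _).1 hg.2
  simp only [ph1, ph2, map_mul, Matrix.mul_apply, Fin.sum_univ_two, map_add, h1, h2, zero_mul,
    add_zero, zero_add, and_self]

theorem one : ph1 ρ 1 = 1 ∧ ph2 ρ 1 = 1 := by simp [ph1, ph2]

theorem ne (g : G) (hg : g ∈ gam ρ) : ph1 ρ g ≠ 0 ∧ ph2 ρ g ≠ 0 := by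
  have h := mul ρ g hg g⁻¹
  rw [mul_inv_cancel, (one ρ).1, (one ρ).2] at h
  exact ⟨left_ne_zero_of_mul_eq_one h.1.symm, left_ne_zero_of_mul_eq_one h.2.symm⟩

theorem lev_iff (g : G) : g ∈ lev ρ 1 ↔ g ∈ gam ρ ∧ ph1 ρ g = 1 ∧ ph2 ρ g = 1 := by
  rw [mem_lev, mem_gam]
  simp only [MC, pow_one, Fin.forall_fin_two, dvd_iff, map_sub, ph1, ph2, Matrix.one_apply_eq,
    map_one, sub_eq_zero]
  simp only [ne_eq, zero_ne_one, one_ne_zero, not_false_eq_true, Matrix.one_apply_ne, map_zero]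
  tauto

theorem pow (g : G) (hg : g ∈ gam ρ) (k : ℕ) :
    ph1 ρ (g ^ k) = ph1 ρ g ^ k ∧ ph2 ρ (g ^ k) = ph2 ρ g ^ k := by
  induction k with
  | zero => simpa using one ρ
  | succ k ih =>
    rw [pow_succ', pow_succ', pow_succ', (mul ρ g hg _).1, (mul ρ g hg _).2, ih.1, ih.2]
    exact ⟨rfl, rfl⟩

theorem fermat : ∀ x : F5, x ≠ 0 → x ^ 4 = 1 := by decide

end TCh

theorem chS : ChS := by
  intro G _ ρ
  refine ⟨fun g hg h _ => TCh.mul ρ g hg h, TCh.ne ρ, TCh.lev_iff ρ, fun g hg => ?_,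
    fun n hn z hz => ?_, fun n g hg => ?_⟩
  · exact (TCh.lev_iff ρ _).2 ⟨pow_mem hg 4,
      (TCh.pow ρ g hg 4).1.trans (TCh.fermat _ (TCh.ne ρ g hg).1),
      (TCh.pow ρ g hg 4).2.trans (TCh.fermat _ (TCh.ne ρ g hg).2)⟩
  · obtain ⟨c, hc, hz⟩ := hz
    have h := MC.mono hz hn
    have h0 := h 0 0
    have h1 := h 1 1
    simp only [pow_one, TCh.dvd_iff, map_sub, Matrix.smul_apply, Matrix.one_apply_eq, smul_eq_mul,
      mul_one, sub_eq_zero] at h0 h1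
    have h2 := congrArg PadicInt.toZMod hc
    rw [map_pow, map_one] at h2
    refine ⟨h0.trans h1.symm, ?_⟩
    rw [rb, ph1, ph2, h0, h1, ← pow_succ', h2]
  · induction n with
    | zero => simpa using hg
    | succ n ih =>
      rw [pow_succ, pow_mul, mem_lev, map_pow]
      exact TCh.mc_pow ih

end Pool.Agent.Lib.MP_54db3e_nt
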