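import Pool.Agent.Lib.MP_54db3e_nt.Stmt

/-! A cocycle vanishing on a subgroup of index prime to 5 is a coboundary. -/

open scoped Classical

namespace Pool.Agent.Lib.MP_54db3e_nt

theorem cobS : CobS := by
  intro G _ B N χ c hNB hi hχ hN hc h0
  have hfin : Finite (B ⧸ N.subgroupOf B) :=
    Nat.finite_of_card_ne_zero fun h => hi (by
      rw [Subgroup.relIndex, Subgroup.index, h]; exact dvd_zero 5)
  have := Fintype.ofFinite (B ⧸ N.subgroupOf B)
  have hne : ∀ g ∈ B, χ g ≠ 0 := fun g hg => by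
    have h := hχ g hg g⁻¹ (inv_mem hg)
    rw [mul_inv_cancel, hN 1 (one_mem _)] at h
    exact left_ne_zero_of_mul_eq_one h.symm
  let e : B → F5 := fun g => c g / χ g
  have he : ∀ g h : B, e (g * h) = e g + (χ g)⁻¹ * e h := fun g h => by
    have h1 := hne g g.2
    have h2 := hne h h.2
    simp only [e, Subgroup.coe_mul, hc g g.2 h h.2, hχ g g.2 h h.2]
    field_simp
  have hq : ∀ x y : B, (x : B ⧸ N.subgroupOf B) = y → e x = e y := fun x y h => by
    have h1 : ((x⁻¹ * y : B) : G) ∈ N := Subgroup.mem_subgroupOf.1 (QuotientGroup.eq.1 h)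
    have h2 := he x (x⁻¹ * y)
    rw [mul_inv_cancel_left] at h2
    rw [h2]
    simp only [e, h0 _ h1, zero_div, mul_zero, add_zero]
  have hm : ((Fintype.card (B ⧸ N.subgroupOf B) : ℕ) : F5) ≠ 0 := fun h => hi (by
    rw [Subgroup.relIndex, Subgroup.index, Nat.card_eq_fintype_card]
    exact (ZMod.natCast_eq_zero_iff _ _).1 h)
  refine ⟨(∑ q : B ⧸ N.subgroupOf B, e q.out) / (Fintype.card (B ⧸ N.subgroupOf B) : ℕ),
    fun g hg => ?_⟩
  have h1 : ∑ q : B ⧸ N.subgroupOf B, e ((⟨g, hg⟩ : B) • q).out =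
      ∑ q : B ⧸ N.subgroupOf B, e q.out :=
    Equiv.sum_comp (MulAction.toPerm (⟨g, hg⟩ : B)) fun q : B ⧸ N.subgroupOf B => e q.out
  have h2 : ∀ q : B ⧸ N.subgroupOf B, e ((⟨g, hg⟩ : B) • q).out =
      c g / χ g + (χ g)⁻¹ * e q.out := fun q => by
    rw [hq _ ((⟨g, hg⟩ : B) * q.out), he]
    rw [QuotientGroup.out_eq', ← smul_eq_mul, ← MulAction.Quotient.smul_coe, QuotientGroup.out_eq']
  simp only [h2, Finset.sum_add_distrib, Finset.sum_const, Finset.card_univ, nsmul_eq_mul,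
    ← Finset.mul_sum] at h1
  have h3 := hne g hg
  field_simp
  field_simp at h1
  linear_combination h1

end Pool.Agent.Lib.MP_54db3e_nt
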