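import Pool.Agent.Lib.MP_54db3e_nt.THq

/-!
The determinant and the cyclotomic character have the same kernels on the first level.
-/

open scoped Classical

noncomputable section

namespace Pool.Agent.Lib.MP_54db3e_nt

namespace TCyc

theorem dvd_pow_iff (n : ℕ) (x : ℤ_[5]) : (5 : ℤ_[5]) ^ n ∣ x ↔ PadicInt.toZModPow n x = 0 := by
  rw [← RingHom.mem_ker, PadicInt.ker_toZModPow, Ideal.mem_span_singleton, Nat.cast_ofNat]

theorem dvd_iff (x : ℤ_[5]) : (5 : ℤ_[5]) ∣ x ↔ PadicInt.toZMod x = 0 := by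
  rw [← RingHom.mem_ker, PadicInt.ker_toZMod, PadicInt.maximalIdeal_eq_span_p,
    Ideal.mem_span_singleton, Nat.cast_ofNat]

theorem to5 : PadicInt.toZMod (5 : ℤ_[5]) = 0 := (dvd_iff _).1 dvd_rfl

theorem prime5 : Prime (5 : ℤ_[5]) := by
  have := PadicInt.prime_p (p := 5)
  rwa [Nat.cast_ofNat] at this

theorem fermat {x : ℤ_[5]} (h : IsUnit x) : (5 : ℤ_[5]) ∣ x ^ 4 - 1 := by
  have h1 : ∀ w : F5, w ≠ 0 → w ^ 4 - 1 = 0 := by decide
  rw [dvd_iff, map_sub, map_pow, map_one]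
  exact h1 _ (h.map PadicInt.toZMod).ne_zero

theorem binom (y : ℤ_[5]) (k : ℕ) : ∃ c, (1 + y) ^ k = 1 + k * y + y ^ 2 * c := by
  induction k with
  | zero => exact ⟨0, by simp⟩
  | succ k ih =>
    obtain ⟨c, hc⟩ := ih
    exact ⟨k + c + y * c, by rw [pow_succ, hc]; push_cast; ring⟩

theorem lte (b : ℤ_[5]) (n : ℕ) : ∃ c, (1 + 5 * b) ^ 5 ^ n = 1 + 5 ^ (n + 1) * (b + 5 * c) := by
  induction n with
  | zero => exact ⟨0, by simp⟩
  | succ n ih =>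
    obtain ⟨c, hc⟩ := ih
    refine ⟨c + (2 * 5 ^ n * (b + 5 * c) ^ 2 + 2 * (5 ^ n) ^ 2 * 5 * (b + 5 * c) ^ 3 +
      (5 ^ n) ^ 3 * 25 * (b + 5 * c) ^ 4 + (5 ^ n) ^ 4 * 25 * (b + 5 * c) ^ 5), ?_⟩
    rw [pow_succ 5 n, pow_mul, hc, pow_succ, pow_succ (5 : ℤ_[5]) (n + 1), pow_succ (5 : ℤ_[5]) n]
    ring

theorem cancel {x : ℤ_[5]} {k n : ℕ} (hx : (5 : ℤ_[5]) ∣ x - 1) (hk : ¬ 5 ∣ k)
    (h : (5 : ℤ_[5]) ^ n ∣ x ^ k - 1) : (5 : ℤ_[5]) ^ n ∣ x - 1 := by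
  obtain ⟨b, hb⟩ := hx
  obtain ⟨c, hc⟩ := binom (x - 1) k
  have e : x ^ k - 1 = (k + 5 * (b * c)) * (x - 1) := by
    rw [add_sub_cancel] at hc
    rw [hc]
    linear_combination (x - 1) * c * hb
  rw [e] at h
  refine prime5.pow_dvd_of_dvd_mul_left n (fun h5 => hk ?_) h
  rw [dvd_iff, map_add, map_mul, to5, zero_mul, add_zero, map_natCast] at h5
  exact (ZMod.natCast_eq_zero_iff k 5).1 h5

theorem mul_one_dvd {a x y : ℤ_[5]} (hx : a ∣ x - 1) (hy : a ∣ y - 1) : a ∣ x * y - 1 := by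
  have e : x * y - 1 = (x - 1) * y + (y - 1) := by ring
  rw [e]
  exact (hx.mul_right _).add hy

theorem pow_one_dvd {a x : ℤ_[5]} (hx : a ∣ x - 1) (k : ℕ) : a ∣ x ^ k - 1 :=
  hx.trans (sub_one_dvd_pow_sub_one x k)

/-- the logarithm of a multiplicative function at level `n + 1` -/
theorem exists_log (P : GQ → ℤ_[5]) (hP : ∀ g h, P (g * h) = P g * P h) (n : ℕ)
    (h : ∀ g, (5 : ℤ_[5]) ^ (n + 1) ∣ P g - 1) :
    ∃ q : GQ → ℤ_[5], (∀ g, P g = 1 + 5 ^ (n + 1) * q g) ∧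
      AddOn ⊤ (fun g => PadicInt.toZMod (q g)) ∧
      ∀ g, (5 : ℤ_[5]) ^ (n + 2) ∣ P g - 1 ↔ PadicInt.toZMod (q g) = 0 := by
  choose q hq using h
  have h5 : (5 : ℤ_[5]) ^ (n + 1) ≠ 0 := pow_ne_zero _ prime5.ne_zero
  refine ⟨q, fun g => by rw [← hq]; ring, fun g _ h _ => ?_, fun g => ?_⟩
  · have e : q (g * h) = q g + q h + 5 * (5 ^ n * q g * q h) := by
      refine mul_left_cancel₀ h5 ?_
      rw [← hq, hP, eq_add_of_sub_eq (hq g), eq_add_of_sub_eq (hq h)]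
      ring
    simp only [e, map_add, map_mul, to5, zero_mul, add_zero]
  · rw [hq, pow_succ _ (n + 1), mul_dvd_mul_iff_left h5, dvd_iff]

/-- the cyclotomic character -/
def chi (g : GQ) : ℤ_[5] := (cyclotomicCharacter Qb 5 (MulSemiringAction.toRingAut GQ Qb g)).val

theorem chi_mul (g h : GQ) : chi (g * h) = chi g * chi h := by
  simp only [chi, map_mul, Units.val_mul]

theorem chi_unit (g : GQ) : IsUnit (chi g) := Units.isUnit _

theorem chi_spec (g : GQ) (n : ℕ) (t : Qb) (ht : t ^ 5 ^ n = 1) :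
    g t = t ^ (PadicInt.toZModPow n (chi g)).val :=
  cyclotomicCharacter.spec 5 (MulSemiringAction.toRingAut GQ Qb g) t ht

theorem chi_eq {g : GQ} {n k : ℕ} {ξ : Qb} (hξ : IsPrimitiveRoot ξ (5 ^ n)) (h : g ξ = ξ ^ k) :
    (5 : ℤ_[5]) ^ n ∣ chi g - k := by
  rw [chi_spec g n ξ hξ.pow_eq_one, pow_eq_pow_mod k hξ.pow_eq_one] at h
  have e := hξ.pow_inj (ZMod.val_lt _) (Nat.mod_lt _ (by positivity)) h
  rw [dvd_pow_iff, map_sub, map_natCast, sub_eq_zero]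
  apply ZMod.val_injective
  rw [e, ZMod.val_natCast]

theorem mem_fixMu (g : GQ) (n : ℕ) : g ∈ FixMu n ↔ (5 : ℤ_[5]) ^ n ∣ chi g - 1 := by
  constructor
  · intro h
    obtain ⟨ξ, hξ⟩ := HasEnoughRootsOfUnity.exists_primitiveRoot Qb (5 ^ n)
    simpa using chi_eq (k := 1) hξ (by rw [pow_one]; exact h ξ hξ.pow_eq_one)
  · intro h ξ hξ
    rw [dvd_pow_iff, map_sub, sub_eq_zero] at h
    rw [chi_spec g n ξ hξ, h, map_one, ← Nat.cast_one, ZMod.val_natCast, ← pow_eq_pow_mod _ hξ,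
      pow_one]

theorem not_six {x : ℤ_[5]} (h : (5 : ℤ_[5]) ^ 2 ∣ x - 6) : ¬ (5 : ℤ_[5]) ^ 2 ∣ x ^ 4 - 1 := by
  intro h1
  rw [dvd_pow_iff, map_sub, sub_eq_zero] at h
  rw [dvd_pow_iff, map_sub, map_pow, h, map_one, map_ofNat] at h1
  revert h1
  decide

theorem det_lev (d : Rep) {n : ℕ} {g : GQ} (h : g ∈ lev d.ρ n) :
    (5 : ℤ_[5]) ^ n ∣ (d.ρ g).det - 1 := by
  simpa using MC.det h

theorem exists_exp (hHq : HqS) (d : Rep) (n : ℕ) :
    ∃ u : ℕ, ∀ g, (5 : ℤ_[5]) ^ (n + 1) ∣ (d.ρ g).det ^ 4 * (chi g ^ 4) ^ u - 1 := by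
  obtain ⟨b, hb, ab, zb⟩ := exists_log (fun g => chi g ^ 4) (fun g h => by rw [chi_mul, mul_pow]) 0
    (fun g => by simpa using fermat (chi_unit g))
  obtain ⟨ξ, hξ⟩ := HasEnoughRootsOfUnity.exists_primitiveRoot Qb (5 ^ 2)
  obtain ⟨g₀, hg₀⟩ := THq.exists_pow (k := 6) (by norm_num) hξ (by norm_num)
  have hne : PadicInt.toZMod (b g₀) ≠ 0 := fun e =>
    not_six (by simpa using chi_eq hξ hg₀) ((zb g₀).2 e)
  induction n with
  | zero => exact ⟨0, fun g => by simpa using fermat (isUnit_det_rho d.ρ g)⟩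
  | succ n ih =>
    obtain ⟨u, hu⟩ := ih
    obtain ⟨q, hq, aq, zq⟩ := exists_log (fun g => (d.ρ g).det ^ 4 * (chi g ^ 4) ^ u)
      (fun g h => by rw [chi_mul, map_mul, Matrix.det_mul]; ring) n hu
    obtain ⟨s, hs⟩ := hHq d (n + 2) _ _ ab aq (fun g hg => by
      have h1 := pow_one_dvd ((mem_fixMu g _).1 hg.2) 4
      exact ⟨(zb g).1 ((pow_dvd_pow _ (by omega)).trans h1),
        (zq g).1 (mul_one_dvd (pow_one_dvd (det_lev d hg.1) 4) (pow_one_dvd h1 u))⟩) ⟨g₀, hne⟩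
    refine ⟨u + 5 ^ n * (-s).val, fun g => ?_⟩
    obtain ⟨c, hc⟩ := lte (b g) n
    obtain ⟨c', hc'⟩ := binom (5 ^ (n + 1) * (b g + 5 * c)) (-s).val
    have h1 : (5 : ℤ_[5]) ∣ q g + (-s).val * b g := by
      rw [dvd_iff, map_add, map_mul, map_natCast, ZMod.natCast_val, ZMod.cast_id', id_eq, hs g]
      ring
    obtain ⟨e, he⟩ := h1
    have h2 := hb g
    have h3 := hq g
    simp only [zero_add, pow_one] at h2 h3
    rw [pow_add (chi g ^ 4), ← mul_assoc, h3, pow_mul (chi g ^ 4), h2, hc, hc']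
    refine ⟨e + (-s).val * c + 5 ^ n * (b g + 5 * c) ^ 2 * c' + 5 ^ n * q g *
      ((-s).val * (b g + 5 * c) + 5 ^ (n + 1) * (b g + 5 * c) ^ 2 * c'), ?_⟩
    linear_combination 5 ^ (n + 1) * he

end TCyc

open TCyc in
theorem cycS (hCh : ChS) (hDens : DensS) (hHq : HqS) : CycS := by
  intro d n hn
  obtain ⟨u, hu⟩ := exists_exp hHq d n
  have hB : ∀ g, (5 : ℤ_[5]) ∣ chi g ^ 4 - 1 := fun g => fermat (chi_unit g)
  have h5 : ¬ 5 ∣ u := by
    rintro ⟨k, rfl⟩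
    obtain ⟨g, hg⟩ := hDens d !![6, 0; 0, 1] (by simp) (by simp) (by
      simp only [Matrix.of_apply, Matrix.cons_val', Matrix.cons_val_zero]
      by_contra h
      have h1 : (6 : ℤ_[5]) ∈ RingHom.ker (PadicInt.toZMod (p := 5)) := by
        rw [PadicInt.ker_toZMod]
        exact h
      rw [RingHom.mem_ker] at h1
      rw [map_ofNat] at h1
      revert h1
      decide) (by simp) 2
    have h1 := hg.det
    rw [Matrix.det_fin_two_of] at h1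
    refine not_six (x := (d.ρ g).det) (by simpa using h1) ?_
    obtain ⟨b, hb⟩ := hB g
    obtain ⟨c, hc⟩ := lte b 1
    have h2 : (5 : ℤ_[5]) ^ 2 ∣ (chi g ^ 4) ^ (5 * k) - 1 := by
      rw [pow_mul]
      refine pow_one_dvd ⟨b + 5 * c, ?_⟩ k
      rw [eq_add_of_sub_eq' hb]
      linear_combination hc
    have h3 := (pow_dvd_pow (5 : ℤ_[5]) (by omega : 2 ≤ n + 1)).trans (hu g)
    have e : (d.ρ g).det ^ 4 - 1 = ((d.ρ g).det ^ 4 * (chi g ^ 4) ^ (5 * k) - 1) -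
      (d.ρ g).det ^ 4 * ((chi g ^ 4) ^ (5 * k) - 1) := by ring
    rw [e]
    exact h3.sub (h2.mul_left _)
  have hu' : ∀ g, (5 : ℤ_[5]) ^ n ∣ (d.ρ g).det ^ 4 * (chi g ^ 4) ^ u - 1 := fun g =>
    (pow_dvd_pow _ (Nat.le_succ n)).trans (hu g)
  have key : slev d.ρ n = lev d.ρ 1 ⊓ FixMu n := by
    ext g
    rw [mem_slev, Subgroup.mem_inf, mem_fixMu]
    refine and_congr_right fun hg => ⟨fun h => ?_, fun h => ?_⟩
    · obtain ⟨h1, h2, h3⟩ := ((hCh GQ d.ρ).2.2.1 g).1 hg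
      have h4 : g d.z = d.z ^ 1 := by
        rw [d.act_z g h1, om, h2, h3, mul_one, ZMod.val_one]
      have h6 := chi_eq (n := 1) (by simpa using d.hz) h4
      refine cancel (k := 4 * u) (by simpa using h6) (by omega) ?_
      have e : chi g ^ (4 * u) - 1 = ((d.ρ g).det ^ 4 * (chi g ^ 4) ^ u - 1) -
        ((d.ρ g).det ^ 4 - 1) * (chi g ^ 4) ^ u := by ring
      rw [e]
      exact (hu' g).sub ((pow_one_dvd h 4).mul_right _)
    · refine cancel (k := 4) (by simpa using det_lev d hg) (by omega) ?_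
      have e : (d.ρ g).det ^ 4 - 1 = ((d.ρ g).det ^ 4 * (chi g ^ 4) ^ u - 1) -
        (d.ρ g).det ^ 4 * ((chi g ^ 4) ^ u - 1) := by ring
      rw [e]
      exact (hu' g).sub ((pow_one_dvd (pow_one_dvd h 4) u).mul_left _)
  refine ⟨key, fun g hg => ?_⟩
  have h1 : g ∈ slev d.ρ n := ⟨lev_anti _ hn hg, det_lev d hg⟩
  rw [key] at h1
  exact h1.2

end Pool.Agent.Lib.MP_54db3e_nt
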