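import Pool.Agent.Lib.MP_54db3e_nt.Stmt

open scoped Classical NumberField Pointwise
open IntermediateField IsDedekindDomain

noncomputable section

namespace Pool.Agent.Lib.MP_54db3e_nt

namespace TCycl

instance galQ : IsGalois ℚ Qb :=
  @IsAlgClosure.isGalois ℚ Qb _ _ _ (AlgebraicClosure.instIsAlgClosure ℚ) _

variable {l : ℕ} [Fact l.Prime]

theorem add_lt1 {x y : Om l} (hx : ‖x‖ < 1) (hy : ‖y‖ < 1) : ‖x + y‖ < 1 :=
  (IsUltrametricDist.norm_add_le_max x y).trans_lt (max_lt hx hy)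

theorem add_le1 {x y : Om l} (hx : ‖x‖ ≤ 1) (hy : ‖y‖ ≤ 1) : ‖x + y‖ ≤ 1 :=
  (IsUltrametricDist.norm_add_le_max x y).trans (max_le hx hy)

theorem norm_l : ‖(l : Om l)‖ = (l : ℝ)⁻¹ := by
  have h : ‖(l : ℚ_[l])‖ = (l : ℝ)⁻¹ := Padic.norm_p
  rwa [← norm_algebraMap' (Om l), map_natCast] at h

theorem l_gt : (1 : ℝ) < l := by exact_mod_cast (Fact.out : l.Prime).one_lt

theorem integral_le (y : Om l) (hy : IsIntegral ℤ y) : ‖y‖ ≤ 1 := by
  have h2 : IsIntegral (Valued.v : Valuation (Om l) NNReal).integer y := hy.tower_top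
  have := (Valuation.integer.integers _).mem_of_integral h2
  rw [Valuation.mem_integer_iff, PadicAlgCl.valuation_def] at this
  exact this

section NF

variable {F : Type} [Field F] [NumberField F] (j : F →+* Om l)

theorem int_le (x : 𝓞 F) : ‖j x‖ ≤ 1 :=
  integral_le _ (map_isIntegral_int j x.isIntegral_coe)

/-- the prime of the embedding -/
def PP : Ideal (𝓞 F) where
  carrier := {x | ‖j x‖ < 1}
  zero_mem' := by simp
  add_mem' := fun {a b} ha hb => by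
    simp only [Set.mem_ofPred_eq, map_add] at *
    exact add_lt1 ha hb
  smul_mem' := fun c x hx => by
    simp only [Set.mem_ofPred_eq, smul_eq_mul, map_mul, norm_mul] at *
    exact mul_lt_one_of_nonneg_of_lt_one_right (int_le j c) (norm_nonneg _) hx

theorem mem_PP {x : 𝓞 F} : x ∈ PP j ↔ ‖j x‖ < 1 := Iff.rfl

theorem eq_one_of_notMem {x : 𝓞 F} (h : x ∉ PP j) : ‖j x‖ = 1 :=
  le_antisymm (int_le j x) (not_lt.1 h)

instance PP_prime : (PP j).IsPrime where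
  ne_top' := by
    rw [Ideal.ne_top_iff_one, mem_PP]; simp
  mem_or_mem' := fun {a b} h => by
    by_contra hc
    push Not at hc
    have := (mem_PP j).1 h
    simp only [map_mul, norm_mul] at this
    rw [eq_one_of_notMem j hc.1, eq_one_of_notMem j hc.2] at this
    simp at this

theorem l_mem : (l : 𝓞 F) ∈ PP j := by
  rw [mem_PP]
  simp only [map_natCast]
  rw [norm_l]
  exact inv_lt_one_of_one_lt₀ l_gt

theorem l_ne : (l : 𝓞 F) ≠ 0 := by exact_mod_cast (Fact.out : l.Prime).ne_zero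

theorem PP_ne : PP j ≠ ⊥ := fun h => l_ne (l := l) (F := F) (by
  have := l_mem j
  rwa [h, Ideal.mem_bot] at this)

instance PP_max : (PP j).IsMaximal := (PP_prime j).isMaximal (PP_ne j)

instance PP_over : (PP j).LiesOver (Ideal.span {(l : ℤ)}) := by
  have hp : (Ideal.span {(l : ℤ)}).IsMaximal := Int.ideal_span_isMaximal_of_prime l
  refine ⟨hp.eq_of_le (Ideal.IsPrime.ne_top inferInstance) ?_⟩
  rw [Ideal.span_singleton_le_iff_mem, Ideal.under_def, Ideal.mem_comap, map_natCast]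
  exact l_mem j

/-- the place of the embedding -/
def ww : HeightOneSpectrum (𝓞 F) := ⟨PP j, PP_prime j, PP_ne j⟩

theorem loc (x : F) (hx : ‖j x‖ ≤ 1) : ∃ a s : 𝓞 F, ‖j s‖ = 1 ∧ x * s = a := by
  obtain ⟨n, d, h | h⟩ := (ww j).exists_primeCompl_mul_eq_or_mul_eq x
  · exact ⟨n, d, eq_one_of_notMem j d.2, h⟩
  · refine ⟨d, n, le_antisymm (int_le j n) ?_, h⟩
    have h1 : ‖j (d : 𝓞 F)‖ = 1 := eq_one_of_notMem j d.2
    have h2 : ‖j x‖ * ‖j n‖ = 1 := by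
      rw [← norm_mul, ← map_mul, ← h1]; exact congrArg (fun t => ‖j t‖) h
    nlinarith [norm_nonneg (j x), norm_nonneg (j n)]

theorem le_of_val (x : F) (hx : (ww j).valuation F x ≤ 1) : ‖j x‖ ≤ 1 := by
  obtain ⟨n, d, h⟩ := (ww j).exists_primeCompl_mul_eq_of_integer x hx
  have h1 : ‖j (d : 𝓞 F)‖ = 1 := eq_one_of_notMem j d.2
  have h2 : ‖j x‖ * ‖j (d : 𝓞 F)‖ = ‖j n‖ := by
    rw [← norm_mul, ← map_mul]; exact congrArg (fun t => ‖j t‖) h
  rw [h1, mul_one] at h2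
  rw [h2]; exact int_le j n

theorem eq_of_val (x : F) (hx : (ww j).valuation F x = 1) : ‖j x‖ = 1 := by
  have h0 : x ≠ 0 := by rintro rfl; simp at hx
  have h1 := le_of_val j x hx.le
  have h2 := le_of_val j x⁻¹ (by rw [map_inv₀, hx, inv_one])
  rw [map_inv₀, norm_inv] at h2
  have h3 : 0 < ‖j x‖ := norm_pos_iff.2 ((map_ne_zero j).2 h0)
  exact le_antisymm h1 ((inv_le_one₀ h3).1 h2)

theorem val_l : (ww j).valuation F (l : F) = WithZero.exp (-((PP j).ramificationIdx ℤ : ℤ)) := by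
  have h0 : (Ideal.span {(l : ℤ)}).map (algebraMap ℤ (𝓞 F)) = Ideal.span {(l : 𝓞 F)} := by
    rw [Ideal.map_span, Set.image_singleton, map_natCast]
  rw [Ideal.IsDedekindDomain.ramificationIdx_eq_multiplicity (Ideal.span {(l : ℤ)}) (PP j)
    (by rw [h0, Ne, Ideal.span_singleton_eq_bot]; exact l_ne), h0,
    ← map_natCast (algebraMap (𝓞 F) F), HeightOneSpectrum.valuation_of_algebraMap,
    HeightOneSpectrum.intValuation_eq_exp_neg_multiplicity _ l_ne]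
  rfl

theorem pow_ram (z : F) (hz : z ≠ 0) :
    ∃ k : ℤ, ‖j z‖ ^ (PP j).ramificationIdx ℤ = (l : ℝ) ^ k := by
  have h0 : (ww j).valuation F z ≠ 0 := (Valuation.ne_zero_iff _).2 hz
  refine ⟨WithZero.log ((ww j).valuation F z), ?_⟩
  set k := WithZero.log ((ww j).valuation F z) with hk
  have h1 : (ww j).valuation F z = WithZero.exp k := (WithZero.exp_log h0).symm
  have h2 := eq_of_val j (z ^ (PP j).ramificationIdx ℤ * (l : F) ^ k) (by
    rw [map_mul, map_pow, map_zpow₀, val_l, h1, ← WithZero.exp_nsmul, ← WithZero.exp_zsmul,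
      ← WithZero.exp_add, ← WithZero.exp_zero]
    congr 1
    simp only [nsmul_eq_mul, smul_eq_mul]; ring)
  rw [map_mul, map_pow, map_zpow₀, map_natCast, norm_mul, norm_pow, norm_zpow, norm_l, inv_zpow,
    mul_inv_eq_one₀ (zpow_ne_zero _ (lt_trans one_pos l_gt).ne')] at h2
  exact h2

variable [IsGalois ℚ F]

theorem smul_coe (σ : F ≃ₐ[ℚ] F) (x : 𝓞 F) : ((σ • x : 𝓞 F) : F) = σ x := rfl

theorem inert_of_mem (σ : F ≃ₐ[ℚ] F) (h : σ ∈ (PP j).inertia (F ≃ₐ[ℚ] F)) (x : F)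
    (hx : ‖j x‖ ≤ 1) : ‖j (σ x - x)‖ < 1 := by
  have h' : ∀ y : 𝓞 F, ‖j (σ y) - j y‖ < 1 := fun y => by
    have := (mem_PP j).1 (h y)
    simpa only [map_sub, smul_coe] using this
  obtain ⟨a, s, hs, e⟩ := loc j x hx
  have hs' : ‖j (σ s)‖ = 1 := by
    have := IsUltrametricDist.norm_add_eq_max_of_norm_ne_norm
      (x := j (σ s) - j s) (y := j s) (by rw [hs]; exact (h' s).ne)
    rw [sub_add_cancel, hs, max_eq_right (h' s).le] at this
    exact this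
  have e' : σ x * σ s = σ a := by rw [← map_mul, e]
  have k : j (σ x - x) * j (σ s) = (j (σ a) - j a) + j x * -(j (σ s) - j s) := by
    rw [← e', ← e]; simp only [map_mul, map_sub]; ring
  have k' : ‖j (σ x - x)‖ = ‖(j (σ a) - j a) + j x * -(j (σ s) - j s)‖ := by
    rw [← k, norm_mul, hs', mul_one]
  rw [k']
  refine add_lt1 (h' a) ?_
  rw [norm_mul, norm_neg]
  exact mul_lt_one_of_nonneg_of_lt_one_right hx (norm_nonneg _) (h' s)

theorem mem_stab (σ : F ≃ₐ[ℚ] F) (h : ∀ x, ‖j (σ x)‖ = ‖j x‖) :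
    σ ∈ MulAction.stabilizer (F ≃ₐ[ℚ] F) (PP j) := by
  rw [MulAction.mem_stabilizer_iff]
  ext x
  rw [Ideal.mem_pointwise_smul_iff_inv_smul_mem, mem_PP, mem_PP, smul_coe, ← h (σ⁻¹ x),
    ← AlgEquiv.mul_apply, mul_inv_cancel, AlgEquiv.one_apply]

attribute [local instance] Ideal.Quotient.field in
theorem cyc {B : Type} [Group B] (r : B →* (F ≃ₐ[ℚ] F)) (h : ∀ g x, ‖j (r g x)‖ = ‖j x‖) :
    ∃ g₀ : B, ∀ g : B, ∃ k : ℕ, r (g * (g₀ ^ k)⁻¹) ∈ (PP j).inertia (F ≃ₐ[ℚ] F) := by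
  have hp : (Ideal.span {(l : ℤ)}).IsMaximal := Int.ideal_span_isMaximal_of_prime l
  have : Finite (𝓞 F ⧸ PP j) := Ring.HasFiniteQuotients.finiteQuotient (PP_ne j)
  let r' : B →* MulAction.stabilizer (F ≃ₐ[ℚ] F) (PP j) :=
    r.codRestrict _ fun g => mem_stab j (r g) (h g)
  let ψ := (Ideal.Quotient.stabilizerHom (PP j) (Ideal.span {(l : ℤ)}) (F ≃ₐ[ℚ] F)).comp r'
  obtain ⟨⟨_, g₀, rfl⟩, hg⟩ := IsCyclic.exists_monoid_generator (α := ψ.range)
  refine ⟨g₀, fun g => ?_⟩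
  obtain ⟨k, hk⟩ := hg ⟨ψ g, g, rfl⟩
  refine ⟨k, ?_⟩
  have hk' : ψ g₀ ^ k = ψ g := congrArg Subtype.val hk
  have h1 : r' (g * (g₀ ^ k)⁻¹) ∈
      (Ideal.Quotient.stabilizerHom (PP j) (Ideal.span {(l : ℤ)}) (F ≃ₐ[ℚ] F)).ker := by
    change ψ (g * (g₀ ^ k)⁻¹) = 1
    rw [map_mul, map_inv, map_pow, hk', mul_inv_cancel]
  rw [Ideal.Quotient.ker_stabilizerHom] at h1
  exact h1

theorem card_inertia : Nat.card ((PP j).inertia (F ≃ₐ[ℚ] F)) = (PP j).ramificationIdx ℤ := by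
  have hp : (Ideal.span {(l : ℤ)}).IsMaximal := Int.ideal_span_isMaximal_of_prime l
  have : Finite (ℤ ⧸ Ideal.span {(l : ℤ)}) := Ring.HasFiniteQuotients.finiteQuotient (by
    rw [Ne, Ideal.span_singleton_eq_bot]; exact_mod_cast (Fact.out : l.Prime).ne_zero)
  rw [Ideal.card_inertia_eq_ramificationIdxIn (Ideal.span {(l : ℤ)}) (PP j),
    Ideal.ramificationIdxIn_eq_ramificationIdx (Ideal.span {(l : ℤ)}) (PP j) (F ≃ₐ[ℚ] F)]

theorem ram (H : Subgroup (F ≃ₐ[ℚ] F)) (hH : H ≤ (PP j).inertia (F ≃ₐ[ℚ] F)) (y : F) (hy : y ≠ 0)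
    (hfix : ∀ σ ∈ H, σ y = y) :
    ∃ k : ℤ, ‖j y‖ ^ H.relIndex ((PP j).inertia (F ≃ₐ[ℚ] F)) = (l : ℝ) ^ k := by
  let E : IntermediateField ℚ F := FixedPoints.intermediateField H
  let j' : E →+* Om l := j.comp (algebraMap E F)
  have : IsGaloisGroup H E F := IsGaloisGroup.subgroup _ ℚ F H
  have : IsGaloisGroup H (𝓞 E) (𝓞 F) := IsGaloisGroup.of_isFractionRing H (𝓞 E) (𝓞 F) E F
  have hov : (PP j).LiesOver (PP j') := ⟨by ext x; rfl⟩
  have : Finite (𝓞 E ⧸ PP j') := Ring.HasFiniteQuotients.finiteQuotient (PP_ne j')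
  have h1 : Nat.card ((PP j).inertia H) = (PP j).ramificationIdx (𝓞 E) := by
    rw [Ideal.card_inertia_eq_ramificationIdxIn (PP j') (PP j),
      Ideal.ramificationIdxIn_eq_ramificationIdx (PP j') (PP j) H]
  have h2 : (PP j).inertia H = ⊤ := by
    rw [eq_top_iff]; exact fun σ _ => hH σ.2
  rw [h2, Subgroup.card_top] at h1
  have h3 := Ideal.ramificationIdx_tower (R := ℤ) (PP j') (PP j)
  rw [← h1, ← card_inertia] at h3
  have h4 := (H.subgroupOf ((PP j).inertia (F ≃ₐ[ℚ] F))).index_mul_card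
  rw [Nat.card_congr (Subgroup.subgroupOfEquivOfLe hH).toEquiv, h3] at h4
  have h5 : H.relIndex ((PP j).inertia (F ≃ₐ[ℚ] F)) = (PP j').ramificationIdx ℤ :=
    Nat.eq_of_mul_eq_mul_right Nat.card_pos h4
  rw [h5]
  exact pow_ram j' ⟨y, fun σ => hfix σ σ.2⟩ (fun h => hy (congrArg Subtype.val h))

end NF

theorem inert_le {ι : Qb →+* Om l} {U : Subgroup GQ} {g : GQ} (hg : Inert ι U g) {x : Qb}
    (hx : Fx U x) (h : ‖ι x‖ ≤ 1) : ‖ι (g x)‖ ≤ 1 := by
  have := add_le1 (hg x hx h).le h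
  rwa [← map_add, sub_add_cancel] at this

theorem fx_conj {U : Subgroup GQ} (hU : U.Normal) (h : GQ) {x : Qb} (hx : Fx U x) :
    Fx U (h x) := fun u hu => by
  have := hx _ (hU.conj_mem' u hu h)
  rw [AlgEquiv.mul_apply, AlgEquiv.mul_apply] at this
  have e := congrArg h this
  rwa [← AlgEquiv.mul_apply h, mul_inv_cancel, AlgEquiv.one_apply] at e

theorem restr (k Ω : Type) [Field k] [Field Ω] [Algebra k Ω] [IsGalois k Ω]
    (N : IntermediateField k Ω) [IsGalois k N] : ∃ r : (Ω ≃ₐ[k] Ω) →* (N ≃ₐ[k] N),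
    Function.Surjective r ∧ ∀ g x, N.val.toRingHom (r g x) = g (N.val.toRingHom x) :=
  ⟨AlgEquiv.restrictNormalHom N, AlgEquiv.restrictNormalHom_surjective Ω,
    fun g x => AlgEquiv.restrictNormalHom_apply N g x⟩

/-- a finite Galois model of the fixed field -/
def Mod (U : Subgroup GQ) : Prop := ∃ (F : Type) (_ : Field F) (_ : NumberField F)
  (_ : IsGalois ℚ F) (e : F →+* Qb) (r : GQ →* (F ≃ₐ[ℚ] F)), Function.Surjective r ∧
    (∀ g x, e (r g x) = g (e x)) ∧ ∀ x, Fx U x → ∃ y, e y = x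

theorem mod_of (U : Subgroup GQ) (F : Type) [Field F] [CharZero F] [A : Algebra ℚ F]
    (h1 : FiniteDimensional ℚ F) (h2 : IsGalois ℚ F) (e : F →+* Qb) (r : GQ →* (F ≃ₐ[ℚ] F))
    (h3 : Function.Surjective r) (h4 : ∀ g x, e (r g x) = g (e x))
    (h5 : ∀ x, Fx U x → ∃ y, e y = x) : Mod U := by
  obtain rfl : A = DivisionRing.toRatAlgebra := Subsingleton.elim _ _
  exact ⟨F, _, ⟨⟩, h2, e, r, h3, h4, h5⟩

theorem mod (hFg : FgS) (U : Subgroup GQ) (hU : U.Normal) (hO : Opn U) : Mod U := by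
  obtain ⟨hfin, -, -, -, hgal, -⟩ := (hFg ℚ Qb).1 U hO
  obtain ⟨r, h3, h4⟩ := @restr ℚ Qb _ _ _ _ (fixedField U) (hgal hU)
  exact @mod_of U (fixedField U) _ _ _ hfin (hgal hU) _ r h3 h4
    fun x hx => ⟨⟨x, (mem_fixedField_iff U x).2 hx⟩, rfl⟩

theorem inert_res (ι : Qb →+* Om l) (U : Subgroup GQ) {F : Type} [Field F] [NumberField F]
    [IsGalois ℚ F] (e : F →+* Qb) (r : GQ →* (F ≃ₐ[ℚ] F)) (h4 : ∀ g x, e (r g x) = g (e x))
    (h5 : ∀ x, Fx U x → ∃ y, e y = x) (g : GQ)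
    (h : r g ∈ (PP (ι.comp e)).inertia (F ≃ₐ[ℚ] F)) : Inert ι U g := fun x hx hx1 => by
  obtain ⟨y, rfl⟩ := h5 x hx
  have := inert_of_mem _ _ h y hx1
  rwa [RingHom.comp_apply, map_sub, h4] at this

end TCycl

open TCycl in
theorem cyclS (hFg : FgS) (hEmb : EmbS) : CyclS := by
  intro l _ ι U hU hO
  refine ⟨fun B hB => ?_, fun g hg x hx => ?_, fun g h hg hh x hx hx1 => ?_⟩
  · obtain ⟨F, _, _, _, e, r, -, h4, h5⟩ := mod hFg U hU hO
    obtain ⟨g₀, hg₀⟩ := cyc (ι.comp e) (r.comp B.subtype) (fun g x => by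
      obtain ⟨γ, hγ⟩ := hB g.2
      rw [RingHom.comp_apply, RingHom.comp_apply, ← hEmb.2.2.2.1 l γ (ι (e x)), ← hγ,
        MonoidHom.comp_apply, h4]
      rfl)
    refine ⟨g₀, g₀.2, fun g hg => ?_⟩
    obtain ⟨k, hk⟩ := hg₀ ⟨g, hg⟩
    exact ⟨k, inert_res ι U e r h4 h5 _ hk⟩
  · rcases eq_or_ne x 0 with rfl | h0
    · rw [map_zero]
    obtain ⟨m, hm, k, hk⟩ := hEmb.2.2.2.2.1 l (ι x) ((map_ne_zero ι).2 h0)
    have hl : ((l : ℝ) ^ k) ≠ 0 := zpow_ne_zero _ (lt_trans one_pos l_gt).ne'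
    have nrm : ∀ t : Qb, ‖ι (t ^ m * (l : Qb) ^ k)‖ = ‖ι t‖ ^ m * ((l : ℝ) ^ k)⁻¹ := fun t => by
      rw [map_mul, map_pow, map_zpow₀, map_natCast, norm_mul, norm_pow, norm_zpow, norm_l, inv_zpow]
    have act : ∀ (u : GQ) (t : Qb), u (t ^ m * (l : Qb) ^ k) = u t ^ m * (l : Qb) ^ k :=
      fun u t => by rw [map_mul, map_pow, map_zpow₀, map_natCast]
    have f1 : Fx U (x ^ m * (l : Qb) ^ k) := fun u hu => by rw [act, hx u hu]
    have n1 : ‖ι (x ^ m * (l : Qb) ^ k)‖ = 1 := by rw [nrm, hk, mul_inv_cancel₀ hl]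
    have h1 := hg _ f1 n1.le
    rw [map_sub] at h1
    have h2 := IsUltrametricDist.norm_add_eq_max_of_norm_ne_norm
      (x := ι (g (x ^ m * (l : Qb) ^ k)) - ι (x ^ m * (l : Qb) ^ k))
      (y := ι (x ^ m * (l : Qb) ^ k)) (by rw [n1]; exact h1.ne)
    rw [sub_add_cancel, n1, max_eq_right h1.le, act, nrm, mul_inv_eq_one₀ hl, ← hk] at h2
    exact (pow_left_inj₀ (norm_nonneg _) (norm_nonneg _) hm.ne').1 h2
  · have := add_lt1 (hg _ (fx_conj hU h hx) (inert_le hh hx hx1)) (hh x hx hx1)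
    rwa [← map_add, sub_add_sub_cancel] at this

end Pool.Agent.Lib.MP_54db3e_nt
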