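import Pool.Agent.Lib.MP_54db3e_nt.Stmt

/-!
The image of the Galois representation is dense in the matrices that are diagonal modulo 5.
-/

open scoped Classical

namespace Pool.Agent.Lib.MP_54db3e_nt

namespace TDens

theorem rel_pow {G : Type*} [Group G] (U : Subgroup G) [U.Normal] {τ φ : G} {l : ℕ}
    (h : φ * τ * φ⁻¹ * (τ ^ l)⁻¹ ∈ U) (k : ℕ) : φ ^ k * τ * (φ ^ k)⁻¹ * (τ ^ l ^ k)⁻¹ ∈ U := by
  rw [← QuotientGroup.eq_one_iff] at h ⊢
  simp only [QuotientGroup.mk_mul, QuotientGroup.mk_inv, QuotientGroup.mk_pow, mul_inv_eq_one] at h ⊢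
  induction k with
  | zero => simp
  | succ k ih =>
    rw [pow_succ l, pow_mul, ← ih, conj_pow, ← h]
    group

end TDens

theorem densS (hCh : ChS) (hOff : OffS) (hBig : BigS) (hT : TameS) (hIdx : IdxS) (hC5 : C5S)
    (hNq : NqS) (hI5 : I5S) (hE : EmbS) : DensS := by
  intro d
  refine hBig GQ d.ρ (fun u v hu hv => ?_) ?_ ?_ (hI5 d)
  · obtain ⟨ι, -⟩ := hC5.1 d
    obtain ⟨h1, h2⟩ := hC5.2.2.2.1 d ι
    obtain ⟨g, hg, h⟩ := h2 u v hu hv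
    exact ⟨g, h1 hg, h⟩
  · obtain ⟨s, hs⟩ := (hIdx d).2.2.2.1
    refine ⟨s, d.anti_gam s fun h => ?_⟩
    rw [d.mem_gam, hs] at h
    have h0 : d.a = 0 := by linear_combination (-1 / 2 : Qb) * h
    have := d.ha
    rw [h0] at this
    norm_num at this
  · obtain ⟨ι⟩ := hE.1 659
    have h32 : lev d.ρ 3 ≤ lev d.ρ 2 := lev_anti d.ρ (by norm_num)
    obtain ⟨τ, φ, t1, -, t2, -, t4⟩ := hT 659 (by norm_num) ι (lev d.ρ 3) (lev d.ρ 1) inferInstance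
      (d.opn_lev 3) inferInstance (lev_anti d.ρ (by norm_num))
      fun g hg => ⟨2, (hCh GQ d.ρ).2.2.2.2.2 2 g hg⟩
    refine ⟨τ, t1, hOff GQ d.ρ τ (φ ^ 8) (659 ^ 8) t1 ((hIdx d).2.2.1 φ) (by norm_num)
      (TDens.rel_pow _ t4 8) fun h => ?_⟩
    obtain ⟨g, g1, g2, g3⟩ := hNq d ι (lev d.ρ 3) inferInstance (d.opn_lev 3) h32
    obtain ⟨i, hi⟩ := t2 g g1 g2
    have := mul_mem (h32 hi) (pow_mem h i)
    rw [inv_mul_cancel_right] at this
    exact g3 this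

end Pool.Agent.Lib.MP_54db3e_nt
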