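import Pool.Agent.Lib.MP_54db3e_nt.TRed1

/-! Divisibility by 5, the number of points of order 5, algebraicity of torsion. -/

open scoped Classical

noncomputable section

namespace Pool.Agent.Lib.MP_54db3e_nt

namespace TDiv

open TRed Polynomial

section Top

variable {R : Type} [CommRing R]

/-- Degree at most `n` with coefficient `c` in degree `n`. -/
def Top (p : R[X]) (n : ℕ) (c : R) : Prop := p.natDegree ≤ n ∧ p.coeff n = c

theorem Top.mul {p q : R[X]} {m n : ℕ} {c d : R} (h : Top p m c) (h' : Top q n d) :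
    Top (p * q) (m + n) (c * d) :=
  ⟨natDegree_mul_le_of_le h.1 h'.1, by rw [coeff_mul_add_eq_of_natDegree_le h.1 h'.1, h.2, h'.2]⟩

theorem Top.pow {p : R[X]} {m : ℕ} {c : R} (h : Top p m c) (n : ℕ) : Top (p ^ n) (n * m) (c ^ n) :=
  ⟨natDegree_pow_le_of_le n h.1, by rw [coeff_pow_of_natDegree_le h.1, h.2]⟩

theorem Top.sub {p q : R[X]} {n : ℕ} {c d : R} (h : Top p n c) (h' : Top q n d) :
    Top (p - q) n (c - d) :=
  ⟨(natDegree_sub_le _ _).trans (max_le h.1 h'.1), by rw [coeff_sub, h.2, h'.2]⟩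

theorem Top.up {p : R[X]} {n : ℕ} {c : R} (h : Top p n c) : Top p (n + 1) 0 :=
  ⟨h.1.trans (Nat.le_succ n), coeff_eq_zero_of_natDegree_lt (Nat.lt_succ_of_le h.1)⟩

theorem top_X : Top (X : R[X]) 1 1 := ⟨natDegree_X_le, coeff_X_one⟩

theorem top_C (c : R) : Top (C c) 0 c := ⟨(natDegree_C c).le, coeff_C_zero⟩

variable (A b : R)

theorem top_dF : Top (dF (C A) (C b) X) 3 4 := by
  unfold dF Top
  constructor
  · compute_degree
  · compute_degree!

theorem top_dT : Top (dT (C A) (C b) X) 4 3 := by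
  unfold dT Top
  constructor
  · compute_degree
  · compute_degree!

theorem top_dS : Top (dS (C A) (C b) X) 6 2 := by
  unfold dS Top
  constructor
  · compute_degree
  · compute_degree!

theorem top_psi : Top (psi5 (C A) (C b) X) 12 5 := by
  have := ((top_dS A b).mul ((top_dF A b).pow 2)).sub ((top_dT A b).pow 3)
  norm_num at this
  exact this

theorem top_phi : Top (phi5 (C A) (C b) X) 25 1 := by
  have := (top_X.mul ((top_psi A b).pow 2)).sub ((((top_dF A b).mul (top_dS A b)).mul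
    (top_dT A b)).mul ((top_psi A b).sub ((top_dS A b).pow 2)))
  norm_num at this
  exact this

/-- The equation of the fifth parts of a point with first coordinate `q`. -/
def FF (A b q : R) : R[X] := phi5 (C A) (C b) X - C q * psi5 (C A) (C b) X ^ 2

theorem top_FF (q : R) : Top (FF A b q) 25 1 := by
  have := (top_phi A b).sub ((top_C q).mul ((top_psi A b).pow 2)).up
  rwa [sub_zero] at this

theorem eval_psi {S : Type} [CommRing S] (f : R →+* S) (x : S) :
    ((psi5 (C A) (C b) X).map f).eval x = psi5 (f A) (f b) x := by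
  have := map_psi5 (eval₂RingHom f x) (C A) (C b) X
  simpa only [coe_eval₂RingHom, eval₂_C, eval₂_X, eval_map] using this

theorem eval_FF {S : Type} [CommRing S] (f : R →+* S) (q : R) (x : S) :
    ((FF A b q).map f).eval x = phi5 (f A) (f b) x - f q * psi5 (f A) (f b) x ^ 2 := by
  have := map_phi5 (eval₂RingHom f x) (C A) (C b) X
  simp only [coe_eval₂RingHom, eval₂_C, eval₂_X] at this
  rw [← eval_psi, ← this, FF, Polynomial.map_sub, Polynomial.map_mul, Polynomial.map_pow, map_C,
    eval_sub, eval_mul, eval_pow, eval_C, eval_map]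

theorem Top.ne {p : R[X]} {n : ℕ} {c : R} (h : Top p n c) (hc : c ≠ 0) : p ≠ 0 := by
  rintro rfl
  exact hc (h.2.symm.trans (coeff_zero n))

end Top

variable {k : Type} [Field k] [Algebra ℚ k]

theorem five_ne : (5 : k) ≠ 0 := by
  have : CharZero k := algebraRat.charZero k
  norm_num

theorem exists_xc [IsAlgClosed k] (x : k) : ∃ P : Pt E0 k, P ≠ 0 ∧ xc P = x := by
  have : CharZero k := algebraRat.charZero k
  obtain ⟨z, hz⟩ := IsAlgClosed.exists_pow_nat_eq
    (1 + 4 * (x ^ 3 + 8175274 * x + 50242716927)) two_pos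
  exact exists_pt (y := (z - 1) / 2) (by linear_combination hz / 4)

theorem div5 (hE : Ec5S) [IsAlgClosed k] (Q : Pt E0 k) : ∃ P, 5 • P = Q := by
  by_cases hQ : Q = 0
  · exact ⟨0, by rw [hQ, smul_zero]⟩
  have ht := top_FF (8175274 : k) 200970867709 (xc Q)
  obtain ⟨x, hx⟩ := IsAlgClosed.exists_root (FF (8175274 : k) 200970867709 (xc Q)) (fun h => by
    have := le_degree_of_ne_zero (ht.2.trans_ne one_ne_zero)
    rw [h] at this
    exact absurd this (by decide))
  have h0 := eval_FF (8175274 : k) 200970867709 (RingHom.id k) (xc Q) x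
  rw [Polynomial.map_id, hx.eq_zero] at h0
  simp only [RingHom.id_apply] at h0
  obtain ⟨P, hP, rfl⟩ := exists_xc x
  obtain ⟨h1, h2, h3⟩ := hE k P hP
  have h4 : 5 • P ≠ 0 := fun h => h3 h (by rw [h1.1 h] at h0; linear_combination -h0)
  have h5 : xc (5 • P) = xc Q :=
    mul_right_cancel₀ (pow_ne_zero 2 fun h => h4 (h1.2 h)) (by rw [h2 h4]; linear_combination -h0)
  rcases eq_or_neg h4 hQ h5 with h | h
  · exact ⟨P, h⟩
  · exact ⟨-P, by rw [smul_neg, h, neg_neg]⟩

theorem card5 (hE : Ec5S) :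
    {P : Pt E0 k | 5 • P = 0}.Finite ∧ {P : Pt E0 k | 5 • P = 0}.ncard ≤ 25 := by
  have ht := top_psi (8175274 : k) 200970867709
  set p := psi5 (C (8175274 : k)) (C 200970867709) X with hp
  let f : k → Pt E0 k := fun x => if h : ∃ P : Pt E0 k, P ≠ 0 ∧ xc P = x then h.choose else 0
  let T : Finset (Pt E0 k) :=
    insert 0 (p.roots.toFinset.image f ∪ p.roots.toFinset.image fun x => -f x)
  have hc : p.roots.toFinset.card ≤ 12 :=
    (Multiset.toFinset_card_le _).trans ((card_roots' p).trans ht.1)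
  have hT : T.card ≤ 25 := by
    have h1 := Finset.card_insert_le (0 : Pt E0 k)
      (p.roots.toFinset.image f ∪ p.roots.toFinset.image fun x => -f x)
    have h2 := Finset.card_union_le (p.roots.toFinset.image f)
      (p.roots.toFinset.image fun x => -f x)
    have h3 := Finset.card_image_le (s := p.roots.toFinset) (f := f)
    have h4 := Finset.card_image_le (s := p.roots.toFinset) (f := fun x => -f x)
    simp only [T]
    omega
  have hs : {P : Pt E0 k | 5 • P = 0} ⊆ (T : Set (Pt E0 k)) := by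
    intro P h5
    by_cases hP : P = 0
    · exact Finset.mem_coe.2 (hP ▸ Finset.mem_insert_self _ _)
    have h0 := eval_psi (8175274 : k) 200970867709 (RingHom.id k) (xc P)
    rw [Polynomial.map_id] at h0
    have hr : xc P ∈ p.roots.toFinset := by
      rw [Multiset.mem_toFinset, mem_roots (ht.ne five_ne)]
      exact h0.trans ((hE k P hP).1.1 h5)
    have he : ∃ Q : Pt E0 k, Q ≠ 0 ∧ xc Q = xc P := ⟨P, hP, rfl⟩
    have hf : f (xc P) = he.choose := dif_pos he
    refine Finset.mem_coe.2 (Finset.mem_insert_of_mem (Finset.mem_union.2 ?_))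
    rcases eq_or_neg hP he.choose_spec.1 he.choose_spec.2.symm with h | h
    · exact Or.inl (Finset.mem_image.2 ⟨_, hr, hf.trans h.symm⟩)
    · exact Or.inr (Finset.mem_image.2 ⟨_, hr, by rw [hf]; exact h.symm⟩)
  refine ⟨T.finite_toSet.subset hs, (Set.ncard_le_ncard hs T.finite_toSet).trans ?_⟩
  rwa [Set.ncard_coe_finset]

theorem descend (hE : Ec5S) (ι : Qb →+* k) (T : Pt E0 k) (S : Pt E0 Qb)
    (h : pmap E0 ι S = 5 • T) : ∃ T₀, pmap E0 ι T₀ = T := by
  by_cases hT : T = 0
  · exact ⟨0, by rw [hT, map_zero]⟩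
  obtain ⟨h1, h2, -⟩ := hE k T hT
  have hx : xc T ∈ ι.range := by
    by_cases h5 : 5 • T = 0
    · refine (IsAlgClosed.splits _).mem_range_of_isRoot
        ((top_psi (8175274 : Qb) 200970867709).ne five_ne) ?_
      rw [IsRoot, eval_psi, map_ofNat, map_ofNat]
      exact h1.1 h5
    · refine (IsAlgClosed.splits _).mem_range_of_isRoot
        ((top_FF (8175274 : Qb) 200970867709 (xc S)).ne one_ne_zero) ?_
      rw [IsRoot, eval_FF, map_ofNat, map_ofNat, ← xc_pmap, h, h2 h5, sub_self]
  obtain ⟨x, hx⟩ := hx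
  obtain ⟨P, hP, rfl⟩ := exists_xc x
  rw [← xc_pmap] at hx
  have hP' : pmap E0 ι P ≠ 0 := fun h0 => hP (pmap_inj ι (h0.trans (map_zero _).symm))
  rcases eq_or_neg hP' hT hx with h3 | h3
  · exact ⟨P, h3⟩
  · exact ⟨-P, by rw [map_neg, h3, neg_neg]⟩

theorem tors (hE : Ec5S) (ι : Qb →+* k) (n : ℕ) :
    ∀ T : Pt E0 k, 5 ^ n • T = 0 → ∃ T₀, pmap E0 ι T₀ = T := by
  induction n with
  | zero => intro T hT; exact ⟨0, by rw [map_zero, ← hT, pow_zero, one_smul]⟩
  | succ n ih =>
    intro T hT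
    rw [pow_succ, mul_smul] at hT
    obtain ⟨S, hS⟩ := ih _ hT
    exact descend hE ι T S hS

end TDiv

open TRed TDiv in
theorem divS (hE : Ec5S) : DivS := by
  refine ⟨fun k _ _ _ Q => div5 hE Q, fun k _ _ => card5 hE, fun k _ _ ι n T hT => ?_,
    fun k _ _ _ x => exists_xc x⟩
  obtain ⟨T₀, h⟩ := tors hE ι n T hT
  exact ⟨T₀, pmap_inj ι (by rw [map_nsmul, h, hT, map_zero]), h⟩

end Pool.Agent.Lib.MP_54db3e_nt
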