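import Pool.Agent.Lib.MP_54db3e_nt.TCg
import Pool.Agent.Lib.MP_54db3e_nt.H84Step

open scoped Classical
open WeierstrassCurve

noncomputable section

namespace Pool.Agent.Lib.MP_54db3e_nt

namespace TDivQ

instance galQ : IsGalois ℚ Qb :=
  @IsAlgClosure.isGalois ℚ Qb _ _ _ (AlgebraicClosure.instIsAlgClosure ℚ) _

instance galAct : DistribMulAction GQ (Pt E0 Qb) where
  smul g P := act E0 g P
  one_smul P := by rcases P with _ | _ <;> rfl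
  mul_smul g h P := by rcases P with _ | _ <;> rfl
  smul_zero g := map_zero (act E0 g)
  smul_add g := map_add (act E0 g)

theorem smul_def (g : GQ) (P : Pt E0 Qb) : g • P = act E0 g P := rfl

/-- the points whose image lies in the kernel of reduction -/
def CC (ι : Qb →+* Om 5) : AddSubgroup (Pt E0 Qb) := (H84.E1 TCg.good5).comap (pmap E0 ι)

theorem mem_CC (ι : Qb →+* Om 5) (P : Pt E0 Qb) : P ∈ CC ι ↔ E1 (pmap E0 ι P) := TCg.mem_E1 _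

theorem pmap_comp {k : Type} [Field k] [Algebra ℚ k] (ι ι' : Qb →+* k) (g : GQ)
    (h : ∀ x, ι' x = ι (g x)) (P : Pt E0 Qb) : pmap E0 ι' P = pmap E0 ι (g • P) := by
  rcases P with _ | ⟨x, y, hP⟩
  · rfl
  · change Affine.Point.some (ι' x) (ι' y) _ = Affine.Point.some (ι (g x)) (ι (g y)) _
    simp only [h]

theorem CC_dec (ι : Qb →+* Om 5) : ∀ d ∈ Dec ι, ∀ c ∈ CC ι, d • c ∈ CC ι := by
  rintro d ⟨γ, hγ⟩ c hc
  rw [mem_CC] at hc ⊢
  have e : pmap E0 ι (d • c) = pmap E0 (γ : Om 5 →+* Om 5) (pmap E0 ι c) := by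
    rcases c with _ | ⟨x, y, hP⟩
    · rfl
    · change Affine.Point.some (ι (d x)) (ι (d y)) _ = Affine.Point.some (γ (ι x)) (γ (ι y)) _
      simp only [hγ x, hγ y]
  rw [e]
  exact TCg.e1.2 γ _ hc

/-- the local condition at all primes above 5, read at one embedding -/
theorem loc_iff (hE : EmbS) (ι : Qb →+* Om 5) (B : Subgroup GQ) [hB : B.Normal]
    (f : GQ → Pt E0 Qb) :
    (∀ ι' : Qb →+* Om 5, ∀ h ∈ Dec ι', h ∈ B → E1 (pmap E0 ι' (f h))) ↔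
      ∀ g : GQ, ∀ h ∈ Dec ι, h ∈ B → g • f (g⁻¹ * h * g) ∈ CC ι := by
  constructor
  · rintro H g h ⟨γ, hγ⟩ hb
    rw [mem_CC, ← pmap_comp ι (ι.comp (g : Qb →+* Qb)) g (fun _ => rfl)]
    refine H _ _ ⟨γ, fun x => ?_⟩ (hB.conj_mem' h hb g)
    change ι (g ((g⁻¹ * h * g) x)) = γ (ι (g x))
    rw [← hγ, ← AlgEquiv.mul_apply, ← AlgEquiv.mul_apply]
    congr 2; group
  · rintro H ι' h ⟨γ, hγ⟩ hb
    obtain ⟨g, hg⟩ := hE.2.1 (Om 5) ι ι'
    have := H g (g * h * g⁻¹) ⟨γ, fun x => by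
      have := hγ (g⁻¹ x)
      rw [hg, hg, ← AlgEquiv.mul_apply g g⁻¹, mul_inv_cancel] at this
      exact this⟩ (hB.conj_mem h hb g)
    rw [mem_CC, ← pmap_comp ι ι' g hg, show g⁻¹ * (g * h * g⁻¹) * g = h by group] at this
    exact this

theorem near (h15 : E15S) (hD : DivS) (ι : Qb →+* Om 5) (P : Pt E0 Qb) (h : (5 : ℤ) • P ∈ CC ι) :
    ∃ T : Pt E0 Qb, 5 • T = 0 ∧ P - T ∈ CC ι := by
  obtain ⟨R, hR, e⟩ := h15.2.2.2 _ ((mem_CC _ _).mp h)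
  obtain ⟨T, hT, e'⟩ := hD.2.2.1 (Om 5) ι 1 (pmap E0 ι P - R) (by
    rw [pow_one, smul_sub, e, ← map_nsmul, sub_eq_zero]
    exact congrArg _ (natCast_zsmul P 5).symm)
  refine ⟨T, by rwa [pow_one] at hT, ?_⟩
  rw [mem_CC, map_sub, e', sub_sub_cancel]
  exact hR

theorem elem_mem (d : Rep) {n : ℕ} (hn : 1 ≤ n) {κ : GQ → F5} (hκ : κ ∈ d.UT n) {T : Pt E0 Qb}
    (hT : 5 • T = 0) : (fun h => (κ h).val • T) ∈ TT d n := by
  obtain ⟨y, hy, h⟩ := hκ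
  exact AddSubgroup.subset_closure ⟨1, d.z, y, T, hn, by rw [pow_one]; exact d.hz, hy,
    by rw [pow_one]; exact hT, fun g hg => ⟨_, h g hg, rfl⟩⟩

/-- one half of the correction -/
theorem half (hF : FgS) (h15 : E15S) (hD : DivS) (hT : TtS) (d : Rep) (ι : Qb →+* Om 5)
    (hdec : Dec ι ≤ gam d.ρ) (hS : StarC d.ρ Opn (Dec ι) d.UT) (M : ℕ) (hM : 1 ≤ M) (T : Pt E0 Qb)
    (h5 : 5 • T = 0) (huniq : ∀ a ∈ gam d.ρ, ∀ i : ZMod 5, a • (i.val • T) ∈ CC ι → i = 0)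
    (hex : ∀ a ∈ gam d.ρ, ∀ P : Pt E0 Qb, 5 • P = 0 → ∃ i : ℕ, P - a • (i • T) ∈ CC ι)
    (f : GQ → Pt E0 Qb) (hf : f ∈ TT d M)
    (hinv : ∀ z ∈ zlev d.ρ M, ∀ h ∈ lev d.ρ M, f (z⁻¹ * h * z) = f h)
    (hloc : ∀ a ∈ gam d.ρ, ∀ h ∈ Dec ι, h ∈ lev d.ρ M → a • ((5 : ℤ) • f (a⁻¹ * h * a)) ∈ CC ι) :
    ∃ n, M ≤ n ∧ ∃ κ ∈ d.UT n, (∀ z ∈ zlev d.ρ n, ∀ h ∈ lev d.ρ n, κ (z⁻¹ * h * z) = κ h) ∧
      ∀ a ∈ gam d.ρ, ∀ h ∈ Dec ι, h ∈ lev d.ρ n →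
        a • (f (a⁻¹ * h * a) - (κ (a⁻¹ * h * a)).val • T) ∈ CC ι := by
  obtain ⟨hadd, hkill, ⟨U, hU, hU0⟩, -⟩ := hT d M hM f hf
  obtain ⟨o, o1, o2, o3, o4⟩ := H84.obstruction (gam d.ρ) (Dec ι) (lev d.ρ M) (zlev d.ρ M) hdec
    (zlev_le_gam d.ρ hM) (CC ι) (CC_dec ι) T h5 huniq
    (fun a ha P hP => by
      obtain ⟨T', hT', e⟩ := near h15 hD ι P hP
      obtain ⟨i, hi⟩ := hex a ha T' hT'
      refine ⟨i, ?_⟩
      rw [ZMod.val_natCast, ← nsmul_eq_mod_nsmul _ h5]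
      have := (CC ι).add_mem e hi
      rwa [sub_add_sub_cancel] at this)
    f hadd hinv
    (fun z ⟨c, _, hz⟩ => ⟨((PadicInt.toZModPow M c).val : ℕ), fun h hh => by
      rw [natCast_zsmul]; exact d.act_zlev z M c hz _ (hkill h hh), by
      rw [natCast_zsmul]
      refine d.act_zlev z M c hz _ ?_
      obtain ⟨k, rfl⟩ := Nat.exists_eq_add_of_le' hM
      rw [pow_succ, mul_smul, h5, smul_zero]⟩) hloc
  obtain ⟨n, hn, κ, hκ, -, k2, k3⟩ := hS M hM o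
    (fun a ha g hg h hh => o2 a ha g hg.1 hg.2 h hh.1 hh.2)
    ⟨U.normalCore, ((hF ℚ Qb).1 U hU).2.2.2.2.2, fun h hh hu a ha => by
      have := o1 a ha h hh.1 hh.2
      rw [hU0 _ ((lev_normal d.ρ M).conj_mem' h hh.2 a)
        (U.normalCore_le ((Subgroup.normalCore_normal U).conj_mem' h hu a)), zero_sub, smul_neg,
        neg_mem_iff] at this
      exact huniq a ha _ this⟩
    (fun h hh e he a ha => o3 a ha e he h hh.1 hh.2)
    (fun h hh a ha z hz => o4 a ha z hz h hh.1 hh.2)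
  refine ⟨n, hn, κ, hκ, k2, fun a ha h h1 h2 => ?_⟩
  rw [k3 h ⟨h1, h2⟩ a ha]
  exact o1 a ha h h1 (lev_anti d.ρ hn h2)

/-- averaging over `Z/B` of order four -/
theorem avg {G E : Type} [Group G] [AddCommGroup E] (B : Subgroup G) [hB : B.Normal] (z₀ : G)
    (h4 : z₀ ^ 4 ∈ B) (f : G → E) (hadd : AddOn B f) (z : G) (k : ℕ) (hz : z * (z₀ ^ k)⁻¹ ∈ B)
    (h : G) (hh : h ∈ B) :
    ∑ i ∈ Finset.range 4, f ((z₀ ^ i)⁻¹ * (z⁻¹ * h * z) * z₀ ^ i) =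
      ∑ i ∈ Finset.range 4, f ((z₀ ^ i)⁻¹ * h * z₀ ^ i) := by
  have h1 : f 1 = 0 := by simpa using hadd 1 B.one_mem 1 B.one_mem
  have hconj : ∀ b ∈ B, ∀ h ∈ B, f (b⁻¹ * h * b) = f h := by
    intro b hb h hh
    have h2 := hadd b⁻¹ (B.inv_mem hb) b hb
    rw [inv_mul_cancel, h1] at h2
    rw [hadd _ (B.mul_mem (B.inv_mem hb) hh) _ hb, hadd _ (B.inv_mem hb) _ hh, add_right_comm, ← h2,
      zero_add]
  have key : ∀ x y : G, x * y⁻¹ ∈ B → f (x⁻¹ * h * x) = f (y⁻¹ * h * y) := fun x y hxy => by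
    rw [← hconj _ (hB.conj_mem' _ hxy y) _ (hB.conj_mem' h hh y)]
    congr 1; group
  have e1 : ∀ i : ℕ, f ((z₀ ^ i)⁻¹ * (z⁻¹ * h * z) * z₀ ^ i) =
      f ((z₀ ^ (k + i))⁻¹ * h * z₀ ^ (k + i)) := fun i => by
    rw [← key (z * z₀ ^ i) _ (by
      rw [show z * z₀ ^ i * (z₀ ^ (k + i))⁻¹ = z * (z₀ ^ k)⁻¹ by group]; exact hz)]
    congr 1; group
  simp only [e1]
  clear e1 hz
  induction k with
  | zero => simp only [zero_add]
  | succ k ih =>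
    rw [← ih]
    have := key (z₀ ^ (k + 1 + 3)) (z₀ ^ (k + 0)) (by
      rw [show z₀ ^ (k + 1 + 3) * (z₀ ^ (k + 0))⁻¹ = z₀ ^ 4 by group]; exact h4)
    simp only [Finset.sum_range_succ, Finset.sum_range_zero, this]
    simp only [add_assoc, add_zero, zero_add, Nat.reduceAdd]
    abel

end TDivQ

open TDivQ

theorem divQS (hF : FgS) (hE : EmbS) (hG : GrpS) (hD : DivS) (h15 : E15S) (hI : IdxS) (hC : C5S)
    (hDe : DensS) (hT : TtS) (hS : StarQS) : DivQS := by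
  intro d m hm f ⟨f1, f2, f3⟩
  obtain ⟨ι, hι⟩ := hC.1 d
  obtain ⟨-, c2, c3⟩ := hC.2.2.1 d ι hι
  have hdec := (hC.2.2.2.1 d ι).1
  obtain ⟨-, -, -, ⟨s, hs⟩, hpm⟩ := hI d
  have hM : 1 ≤ m + 1 := by omega
  obtain ⟨-, fkill, -, -, -, -, f', hf', e5⟩ := hT d m hm f f1
  obtain ⟨-, -, -, ⟨z₀, c, hc, hz₀, hz⟩, -⟩ := hG GQ d.ρ (hDe d) (m + 1) hM
  have c4 : c ^ 4 = 1 := by rw [show c ^ 4 = (c ^ 2) ^ 2 by ring, hc]; norm_num
  have z0 : z₀ ∈ zlev d.ρ (m + 1) := ⟨c, c4, hz₀⟩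
  have z4 : z₀ ^ 4 ∈ lev d.ρ (m + 1) := by
    have := MC.mul (MC.mul (MC.mul hz₀ hz₀) hz₀) hz₀
    simp only [smul_mul_smul_comm, mul_one] at this
    rw [show c * c * c * c = c ^ 4 by ring, c4, one_smul, ← map_mul, ← map_mul, ← map_mul,
      show z₀ * z₀ * z₀ * z₀ = z₀ ^ 4 by simp only [pow_succ, pow_zero, one_mul]] at this
    exact this
  obtain ⟨u, v, huv⟩ : IsCoprime (4 : ℤ) (5 ^ m) :=
    (Int.isCoprime_iff_gcd_eq_one.mpr (by norm_num)).pow_right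
  obtain ⟨fadd, -, -, fconj, -⟩ := hT d (m + 1) hM f' hf'
  let F : GQ → Pt E0 Qb := fun h => u • ∑ i ∈ Finset.range 4, f' ((z₀ ^ i)⁻¹ * h * z₀ ^ i)
  have F1 : F ∈ TT d (m + 1) := by
    have := (TT d (m + 1)).zsmul_mem (AddSubgroup.sum_mem _
      fun i (_ : i ∈ Finset.range 4) => (fconj (z₀ ^ i)).1) u
    convert this using 1
    funext h
    simp only [F, Pi.smul_apply, Finset.sum_apply]
  have F2 : ∀ z ∈ zlev d.ρ (m + 1), ∀ h ∈ lev d.ρ (m + 1), F (z⁻¹ * h * z) = F h := by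
    intro z hz' h hh
    obtain ⟨k, -, hk⟩ := hz z hz'
    simp only [F]
    rw [avg _ z₀ z4 f' fadd z k hk h hh]
  have F5 : ∀ h ∈ lev d.ρ (m + 1), 5 • F h = f h := by
    intro h hh
    have hh' := lev_anti d.ρ (Nat.le_succ m) hh
    have : ∀ i : ℕ, 5 • f' ((z₀ ^ i)⁻¹ * h * z₀ ^ i) = f h := fun i => by
      rw [e5 _ ((lev_normal d.ρ _).conj_mem' h hh _)]
      exact f2 _ (zlev_anti d.ρ (Nat.le_succ m) (pow_mem z0 i)) h hh'
    simp only [F]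
    rw [smul_comm, Finset.smul_sum]
    simp only [this, Finset.sum_const, Finset.card_range]
    have k0 : ((5 : ℤ) ^ m) • f h = 0 := by
      rw [← fkill h hh', ← natCast_zsmul]; norm_num
    calc u • 4 • f h = (u * 4) • f h + v • ((5 : ℤ) ^ m) • f h := by
          rw [k0, smul_zero, add_zero, mul_smul]; norm_cast
      _ = f h := by rw [← mul_smul, ← add_smul, huv, one_smul]
  have Floc : ∀ g : GQ, ∀ h ∈ Dec ι, h ∈ lev d.ρ (m + 1) →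
      g • ((5 : ℤ) • F (g⁻¹ * h * g)) ∈ CC ι := by
    intro g h h1 h2
    have := (loc_iff hE ι _ f).mp f3 g h h1 (lev_anti d.ρ (Nat.le_succ m) h2)
    rw [← F5 _ ((lev_normal d.ρ _).conj_mem' h h2 g)] at this
    exact_mod_cast this
  have T2C : d.T 1 ∈ CC ι := (mem_CC _ _).mpr c2
  have gT2 : ∀ a ∈ gam d.ρ, ∃ k : ℕ, a • d.T 1 = k • d.T 1 := fun a ha => ⟨_, d.act_T2 a ha⟩
  have aneg : ∀ a ∈ gam d.ρ, (a * s) d.a = -d.a := fun a ha => by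
    rw [AlgEquiv.mul_apply, hs, map_neg, (d.mem_gam a).mp ha]
  have ineg : ∀ g : GQ, g d.a = -d.a → g⁻¹ d.a = -d.a := fun g hg => by
    have := congrArg (g⁻¹ : GQ) hg
    rw [← AlgEquiv.mul_apply, inv_mul_cancel, AlgEquiv.one_apply, map_neg] at this
    exact (neg_eq_iff_eq_neg.mp this.symm)
  have five : ∀ (g : GQ) (P : Pt E0 Qb), 5 • P = 0 → 5 • g • P = 0 := fun g P h => by
    rw [smul_comm, h, smul_zero]
  have val0 : ∀ i : ZMod 5, (5 : ℤ) ∣ (i.val : ℤ) → i = 0 := fun i h => by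
    rw [← ZMod.natCast_zmod_val i]
    exact (ZMod.natCast_eq_zero_iff _ _).mpr (by exact_mod_cast h)
  have fiven : ∀ (k : ℕ) (P : Pt E0 Qb), 5 • P = 0 → 5 • k • P = 0 := fun g P h => by
    rw [smul_comm, h, smul_zero]
  obtain ⟨n₁, hn₁, κ₁, k1, k2, k3⟩ := half hF h15 hD hT d ι hdec (hS d ι hι) (m + 1) hM (d.T 0)
    (d.five 0)
    (fun a ha i hi => by
      obtain ⟨j, hj⟩ := (c3 _ (five _ _ (fiven _ _ (d.five 0)))).mp ((mem_CC _ _).mp hi)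
      obtain ⟨k, hk⟩ := gT2 a⁻¹ (inv_mem ha)
      rw [smul_eq_iff_eq_inv_smul, smul_comm, hk, ← mul_smul] at hj
      refine val0 i (d.indep i.val (-((j * k : ℕ) : ℤ)) ?_).1
      rw [neg_smul, natCast_zsmul, natCast_zsmul, hj, add_neg_cancel])
    (fun a ha P hP => by
      obtain ⟨i, j, e⟩ := d.span _ (five a⁻¹ P hP)
      obtain ⟨k, hk⟩ := gT2 a ha
      rw [inv_smul_eq_iff, smul_add] at e
      refine ⟨i, ?_⟩
      rw [e, add_sub_cancel_left, smul_comm, hk]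
      exact (CC ι).nsmul_mem ((CC ι).nsmul_mem T2C k) j)
    F F1 F2 (fun a _ => Floc a)
  obtain ⟨n₂, hn₂, κ₂, l1, l2, l3⟩ := half hF h15 hD hT d ι hdec (hS d ι hι) (m + 1) hM (s • d.T 1)
    (five _ _ (d.five 1))
    (fun a ha i hi => by
      obtain ⟨j, hj⟩ := (c3 _ (five _ _ (fiven _ _ (five _ _ (d.five 1))))).mp ((mem_CC _ _).mp hi)
      obtain ⟨-, k, -, hk⟩ := d.anti _ (ineg _ (aneg a ha))
      rw [← smul_def] at hk
      rw [← smul_comm s, ← mul_smul, smul_eq_iff_eq_inv_smul, smul_comm, hk, ← mul_smul] at hj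
      refine val0 i (d.indep (-((j * k : ℕ) : ℤ)) i.val ?_).2
      rw [neg_smul, natCast_zsmul, natCast_zsmul, hj, neg_add_cancel])
    (fun a ha P hP => by
      obtain ⟨i, j, e⟩ := d.span _ (five (a * s)⁻¹ P hP)
      obtain ⟨k, -, hk, -⟩ := d.anti _ (aneg a ha)
      rw [← smul_def] at hk
      rw [inv_smul_eq_iff, smul_add] at e
      refine ⟨j, ?_⟩
      rw [e, ← smul_comm s, ← mul_smul, add_sub_cancel_right, smul_comm, hk]
      exact (CC ι).nsmul_mem ((CC ι).nsmul_mem T2C k) i)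
    (fun h => s • F (s⁻¹ * h * s)) ((hT d (m + 1) hM F F1).2.2.2.1 s).2
    (fun z hz' h hh => by
      have := F2 _ ((zlev_normal d.ρ _).conj_mem' z hz' s) _ ((lev_normal d.ρ _).conj_mem' h hh s)
      change s • F _ = s • F _
      rw [← this]
      congr 2; group)
    (fun a _ h h1 h2 => by
      have := Floc (a * s) h h1 h2
      rw [mul_smul, smul_comm s] at this
      change a • (5 : ℤ) • s • F _ ∈ _
      rwa [show s⁻¹ * (a⁻¹ * h * a) * s = (a * s)⁻¹ * h * (a * s) by group])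
  have m1 : n₁ ≤ max n₁ n₂ := le_max_left _ _
  have m2 : n₂ ≤ max n₁ n₂ := le_max_right _ _
  have m0 : m + 1 ≤ max n₁ n₂ := hn₁.trans m1
  refine ⟨max n₁ n₂, by omega, fun h => F h - (κ₁ h).val • d.T 0 -
    (κ₂ (s⁻¹⁻¹ * h * s⁻¹)).val • d.T 1, ⟨?_, fun z hz' h hh => ?_, ?_⟩, fun h hh => ?_⟩
  · have a1 := (hT d _ hM F F1).2.2.2.2.1 _ m0
    have a2 := (hT d _ (hM.trans hn₁) _ (elem_mem d (hM.trans hn₁) k1 (d.five 0))).2.2.2.2.1 _ m1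
    have a3 := (hT d _ (hM.trans hn₂) _ ((hT d _ (hM.trans hn₂) _
      (elem_mem d (hM.trans hn₂) l1 (d.five 1))).2.2.2.1 s⁻¹).1).2.2.2.2.1 _ m2
    exact (TT d _).sub_mem ((TT d _).sub_mem a1 a2) a3
  · have := l2 _ ((zlev_normal d.ρ _).conj_mem' z (zlev_anti d.ρ m2 hz') s⁻¹) _
      ((lev_normal d.ρ _).conj_mem' h (lev_anti d.ρ m2 hh) s⁻¹)
    change F _ - _ - _ = F _ - _ - _
    rw [F2 z (zlev_anti d.ρ m0 hz') h (lev_anti d.ρ m0 hh),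
      k2 z (zlev_anti d.ρ m1 hz') h (lev_anti d.ρ m1 hh), ← this]
    congr 4; group
  · refine (loc_iff hE ι _ _).mpr fun g h h1 h2 => ?_
    rcases hpm g with hg | hg
    · have ha := (d.mem_gam g).mpr hg
      obtain ⟨k, hk⟩ := gT2 g ha
      rw [smul_sub, smul_comm g _ (d.T 1), hk]
      exact (CC ι).sub_mem (k3 g ha h h1 (lev_anti d.ρ m1 h2))
        ((CC ι).nsmul_mem ((CC ι).nsmul_mem T2C k) _)
    · have ha : g * s⁻¹ ∈ gam d.ρ := (d.mem_gam _).mpr (by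
        rw [AlgEquiv.mul_apply, ineg s hs, map_neg, hg, neg_neg])
      obtain ⟨k, -, hk, -⟩ := d.anti g hg
      rw [← smul_def] at hk
      have := l3 _ ha h h1 (lev_anti d.ρ m2 h2)
      rw [← smul_comm s, ← smul_sub, ← mul_smul, inv_mul_cancel_right,
        show s⁻¹ * ((g * s⁻¹)⁻¹ * h * (g * s⁻¹)) * s = g⁻¹ * h * g by group,
        show (g * s⁻¹)⁻¹ * h * (g * s⁻¹) = s⁻¹⁻¹ * (g⁻¹ * h * g) * s⁻¹ by group] at this
      rw [sub_right_comm, smul_sub, smul_comm g _ (d.T 0), hk]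
      exact (CC ι).sub_mem this ((CC ι).nsmul_mem ((CC ι).nsmul_mem T2C k) _)
  · rw [smul_sub, smul_sub, fiven _ _ (d.five 0), fiven _ _ (d.five 1), sub_zero, sub_zero,
      F5 h (lev_anti d.ρ m0 hh)]

end Pool.Agent.Lib.MP_54db3e_nt
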