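import Pool.Agent.Lib.MP_54db3e_nt.TE1

/-!
Multiplication by 5 on the kernel of reduction at 5.
-/

open scoped Classical

namespace Pool.Agent.Lib.MP_54db3e_nt

namespace TE15

section Ring

variable {R S : Type} [CommRing R] [CommRing S]

theorem map_psi5 (f : R →+* S) (A b x : R) : f (psi5 A b x) = psi5 (f A) (f b) (f x) := by
  simp only [psi5, dS, dF, dT, map_sub, map_add, map_mul, map_pow, map_ofNat]

theorem map_phi5 (f : R →+* S) (A b x : R) : f (phi5 A b x) = phi5 (f A) (f b) (f x) := by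
  simp only [phi5, psi5, dS, dF, dT, map_sub, map_add, map_mul, map_pow, map_ofNat]

theorem dF_hom (A b x : R) (u : R) (h : x * u = 1) :
    dF A b x = x ^ 3 * dF (A * u ^ 2) (b * u ^ 3) 1 := by
  have h2 : x ^ 2 * u ^ 2 = 1 := by rw [← mul_pow, h, one_pow]
  have h3 : x ^ 3 * u ^ 3 = 1 := by rw [← mul_pow, h, one_pow]
  simp only [dF]
  linear_combination (-4 * A * x) * h2 - b * h3

theorem dT_hom (A b x : R) (u : R) (h : x * u = 1) :
    dT A b x = x ^ 4 * dT (A * u ^ 2) (b * u ^ 3) 1 := by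
  have h2 : x ^ 2 * u ^ 2 = 1 := by rw [← mul_pow, h, one_pow]
  have h3 : x ^ 3 * u ^ 3 = 1 := by rw [← mul_pow, h, one_pow]
  have h4 : x ^ 4 * u ^ 4 = 1 := by rw [← mul_pow, h, one_pow]
  simp only [dT]
  linear_combination (-6 * A * x ^ 2) * h2 - 3 * b * x * h3 + A ^ 2 * h4

theorem dS_hom (A b x : R) (u : R) (h : x * u = 1) :
    dS A b x = x ^ 6 * dS (A * u ^ 2) (b * u ^ 3) 1 := by
  have h2 : x ^ 2 * u ^ 2 = 1 := by rw [← mul_pow, h, one_pow]
  have h3 : x ^ 3 * u ^ 3 = 1 := by rw [← mul_pow, h, one_pow]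
  have h4 : x ^ 4 * u ^ 4 = 1 := by rw [← mul_pow, h, one_pow]
  have h5 : x ^ 5 * u ^ 5 = 1 := by rw [← mul_pow, h, one_pow]
  have h6 : x ^ 6 * u ^ 6 = 1 := by rw [← mul_pow, h, one_pow]
  simp only [dS]
  linear_combination (-10 * A * x ^ 4) * h2 - 10 * b * x ^ 3 * h3 + 10 * A ^ 2 * x ^ 2 * h4 +
    2 * A * b * x * h5 + (2 * A ^ 3 + b ^ 2) * h6

theorem psi5_hom (A b x : R) (u : R) (h : x * u = 1) :
    psi5 A b x = x ^ 12 * psi5 (A * u ^ 2) (b * u ^ 3) 1 := by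
  simp only [psi5]
  rw [dF_hom A b x u h, dT_hom A b x u h, dS_hom A b x u h]
  ring

theorem phi5_hom (A b x : R) (u : R) (h : x * u = 1) :
    phi5 A b x = x ^ 25 * phi5 (A * u ^ 2) (b * u ^ 3) 1 := by
  simp only [phi5]
  rw [psi5_hom A b x u h, dF_hom A b x u h, dT_hom A b x u h, dS_hom A b x u h]
  ring

theorem phi5_zero : phi5 (0 : R) 0 1 = 1 := by
  simp only [phi5, psi5, dS, dF, dT]
  norm_num

theorem phi5_exp (A b u : R) : ∃ p, phi5 (A * u ^ 2) (b * u ^ 3) 1 = 1 + u * p := by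
  have h : phi5 (A * u ^ 2) (b * u ^ 3) 1 - 1 ∈ Ideal.span {u} := by
    have hu : Ideal.Quotient.mk (Ideal.span {u}) u = 0 :=
      Ideal.Quotient.eq_zero_iff_mem.2 (Ideal.mem_span_singleton_self u)
    rw [← Ideal.Quotient.eq_zero_iff_mem, map_sub, map_phi5]
    simp only [map_mul, map_pow, hu, map_one]
    rw [zero_pow (by norm_num), zero_pow (by norm_num), mul_zero, mul_zero, phi5_zero, sub_self]
  obtain ⟨p, hp⟩ := Ideal.mem_span_singleton.1 h
  exact ⟨p, by linear_combination hp⟩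

theorem psi5_exp (A b u : R) :
    ∃ p, psi5 (A * u ^ 2) (b * u ^ 3) 1 = 5 + (62 * A * u ^ 2 + u ^ 3 * p) := by
  have h : psi5 (A * u ^ 2) (b * u ^ 3) 1 - psi5 (A * u ^ 2) 0 1 ∈ Ideal.span {u ^ 3} := by
    have hu : Ideal.Quotient.mk (Ideal.span {u ^ 3}) (b * u ^ 3) = 0 :=
      Ideal.Quotient.eq_zero_iff_mem.2 (Ideal.mul_mem_left _ _ (Ideal.mem_span_singleton_self _))
    rw [← Ideal.Quotient.eq_zero_iff_mem, map_sub, map_psi5, map_psi5, hu, map_zero, sub_self]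
  obtain ⟨p, hp⟩ := Ideal.mem_span_singleton.1 h
  have e : ∀ a : R, psi5 a 0 1 =
      5 + 62 * a + a ^ 2 * (-105 - 300 * a - 125 * a ^ 2 - 50 * a ^ 3 + a ^ 4) := by
    intro a
    simp only [psi5, dS, dF, dT]
    ring
  rw [e] at hp
  exact ⟨p + A ^ 2 * u * (-105 - 300 * (A * u ^ 2) - 125 * (A * u ^ 2) ^ 2 - 50 * (A * u ^ 2) ^ 3 +
    (A * u ^ 2) ^ 4), by linear_combination hp⟩

end Ring

/-- the ring of integers -/
def O : Subring (Om 5) where
  carrier := {x | ‖x‖ ≤ 1}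
  mul_mem' := fun {a b} ha hb => by
    rw [Set.mem_ofPred_eq, norm_mul]
    exact mul_le_one₀ ha (norm_nonneg _) hb
  one_mem' := norm_one.le
  add_mem' := fun ha hb => H84.nle ha hb
  zero_mem' := by simp
  neg_mem' := fun ha => by simpa using ha

theorem norm_five : ‖(5 : Om 5)‖ = 5⁻¹ := by
  have h1 : ‖((5 : ℚ_[5]) : Om 5)‖ = ‖(5 : ℚ_[5])‖ := PadicAlgCl.norm_extends 5 _
  have h2 : ((5 : ℚ_[5]) : Om 5) = (5 : Om 5) := map_ofNat (algebraMap ℚ_[5] (Om 5)) 5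
  rw [← h2, h1]
  simpa using Padic.norm_p (p := 5)

theorem norm_phi {x : Om 5} (hx : 1 < ‖x‖) : ‖phi5 8175274 200970867709 x‖ = ‖x‖ ^ 25 := by
  have h0 : x ≠ 0 := norm_pos_iff.1 (by linarith)
  have hu : ‖x⁻¹‖ < 1 := by rw [norm_inv]; exact inv_lt_one_of_one_lt₀ hx
  obtain ⟨p, hp⟩ := phi5_exp (8175274 : O) 200970867709 ⟨x⁻¹, hu.le⟩
  have h := congrArg O.subtype hp
  rw [map_phi5] at h
  simp only [map_mul, map_pow, map_add, map_one, map_ofNat, Subring.coe_subtype] at h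
  rw [phi5_hom _ _ x x⁻¹ (mul_inv_cancel₀ h0), h, norm_mul, norm_pow, H84.nadd, norm_one, mul_one]
  rw [norm_one, norm_mul]
  exact mul_lt_one_of_nonneg_of_lt_one_left (norm_nonneg _) hu p.2

theorem psi_form {x : Om 5} (hx : 1 < ‖x‖) :
    ∃ w : Om 5, ‖w‖ * ‖x‖ ^ 2 = 1 ∧ psi5 8175274 200970867709 x = x ^ 12 * (5 + w) := by
  have hpos : 0 < ‖x‖ := by linarith
  have h0 : x ≠ 0 := norm_pos_iff.1 hpos
  have hu : ‖x⁻¹‖ < 1 := by rw [norm_inv]; exact inv_lt_one_of_one_lt₀ hx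
  have hu0 : 0 < ‖x⁻¹‖ := norm_pos_iff.2 (inv_ne_zero h0)
  obtain ⟨p, hp⟩ := psi5_exp (8175274 : O) 200970867709 ⟨x⁻¹, hu.le⟩
  have h := congrArg O.subtype hp
  rw [map_psi5] at h
  simp only [map_mul, map_pow, map_add, map_one, map_ofNat, Subring.coe_subtype] at h
  refine ⟨_, ?_, by rw [psi5_hom _ _ x x⁻¹ (mul_inv_cancel₀ h0), h]⟩
  have h1 : ‖(62 * 8175274 : Om 5)‖ = 1 := by
    have := TE1.norm_int_unit (62 * 8175274) (by norm_num)
    simpa only [Int.cast_mul, Int.cast_ofNat] using this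
  have h2 : ‖62 * 8175274 * x⁻¹ ^ 2‖ = ‖x⁻¹‖ ^ 2 := by rw [norm_mul, h1, one_mul, norm_pow]
  rw [H84.nadd, h2, norm_inv, ← mul_pow, inv_mul_cancel₀ hpos.ne', one_pow]
  rw [h2, norm_mul, norm_pow]
  calc ‖x⁻¹‖ ^ 3 * ‖(p : Om 5)‖ ≤ ‖x⁻¹‖ ^ 3 * 1 := mul_le_mul_of_nonneg_left p.2 (by positivity)
    _ < ‖x⁻¹‖ ^ 2 := by
      rw [mul_one]
      exact pow_lt_pow_right_of_lt_one₀ hu0 hu (by norm_num)

theorem ne_zero_of {P : Pt E0 (Om 5)} (h : 1 < ‖xc P‖) : P ≠ 0 := by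
  rintro rfl
  have : ‖(0 : Om 5)‖ = 0 := norm_zero
  change 1 < ‖(0 : Om 5)‖ at h
  linarith

/-- the basic norm relation -/
theorem rel (hE : Ec5S) (P : Pt E0 (Om 5)) (h : 1 < ‖xc P‖) : ∃ w : Om 5,
    ‖w‖ * ‖xc P‖ ^ 2 = 1 ∧ (5 + w ≠ 0 → 5 • P ≠ 0) ∧
      (5 • P ≠ 0 → ‖xc (5 • P)‖ * ‖5 + w‖ ^ 2 = ‖xc P‖) := by
  obtain ⟨w, hw, hψ⟩ := psi_form h
  obtain ⟨h1, h2, -⟩ := hE (Om 5) P (ne_zero_of h)
  have hpos : 0 < ‖xc P‖ := by linarith
  refine ⟨w, hw, fun h5 h0 => ?_, fun h5 => ?_⟩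
  · have := h1.1 h0
    rw [hψ] at this
    exact mul_ne_zero (pow_ne_zero _ (norm_pos_iff.1 hpos)) h5 this
  · have := congrArg norm (h2 h5)
    rw [norm_phi h, hψ, norm_mul, norm_pow, norm_mul, norm_pow] at this
    apply mul_left_cancel₀ (pow_ne_zero 24 hpos.ne')
    linear_combination this

theorem small_root (f : Polynomial (Om 5)) (h0 : f.eval 0 = 1) (h1 : 1 < ‖f.eval 1‖) :
    ∃ r, ‖r‖ < 1 ∧ f.eval r = 0 := by
  by_contra hc
  push Not at hc
  have hs := IsAlgClosed.splits f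
  have key : ∀ s : Multiset (Om 5), (∀ r ∈ s, 1 ≤ ‖r‖) →
      ‖(s.map (1 - ·)).prod‖ ≤ ‖(s.map (0 - ·)).prod‖ := by
    intro s
    induction s using Multiset.induction_on with
    | empty => simp
    | cons a s ih =>
      intro h
      simp only [Multiset.map_cons, Multiset.prod_cons, norm_mul]
      refine mul_le_mul ?_ (ih fun r hr => h r (Multiset.mem_cons_of_mem hr)) (norm_nonneg _)
        (norm_nonneg _)
      have ha := h a (Multiset.mem_cons_self _ _)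
      rw [zero_sub, norm_neg, sub_eq_add_neg]
      exact H84.nle (by simpa using ha) (norm_neg a).le
  have h2 := key f.roots fun r hr =>
    not_lt.1 fun hlt => hc r hlt (Polynomial.isRoot_of_mem_roots hr)
  have h3 : ‖f.eval 1‖ ≤ ‖f.eval 0‖ := by
    rw [hs.eval_eq_prod_roots, hs.eval_eq_prod_roots, norm_mul, norm_mul]
    exact mul_le_mul_of_nonneg_left h2 (norm_nonneg _)
  rw [h0, norm_one] at h3
  linarith

theorem exists_x (t : Om 5) (ht : 1 < ‖t‖) : ∃ x : Om 5, 1 < ‖x‖ ∧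
    phi5 8175274 200970867709 x = t * psi5 8175274 200970867709 x ^ 2 := by
  let f : Polynomial (Om 5) :=
    phi5 (8175274 * Polynomial.X ^ 2) (200970867709 * Polynomial.X ^ 3) 1 - Polynomial.C t *
      Polynomial.X * psi5 (8175274 * Polynomial.X ^ 2) (200970867709 * Polynomial.X ^ 3) 1 ^ 2
  have hf : ∀ r, f.eval r = phi5 (8175274 * r ^ 2) (200970867709 * r ^ 3) 1 -
      t * r * psi5 (8175274 * r ^ 2) (200970867709 * r ^ 3) 1 ^ 2 := by
    intro r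
    change Polynomial.evalRingHom r f = _
    simp only [f, map_sub, map_mul, map_pow, map_phi5, map_psi5, map_one, map_ofNat,
      Polynomial.coe_evalRingHom, Polynomial.eval_X, Polynomial.eval_C]
  have h0 : f.eval 0 = 1 := by
    rw [hf, zero_pow (by norm_num), zero_pow (by norm_num), mul_zero, mul_zero, mul_zero, phi5_zero,
      zero_mul, sub_zero]
  have hψ : ‖psi5 (8175274 : Om 5) 200970867709 1‖ = 1 := by
    have h := map_psi5 (Int.castRingHom (Om 5)) 8175274 200970867709 1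
    simp only [map_ofNat, map_one] at h
    rw [← h]
    refine TE1.norm_int_unit _ ?_
    simp only [psi5, dS, dF, dT]
    norm_num
  have hφ : ‖phi5 (8175274 : Om 5) 200970867709 1‖ ≤ 1 := by
    have h := map_phi5 (Int.castRingHom (Om 5)) 8175274 200970867709 1
    simp only [map_ofNat, map_one] at h
    rw [← h]
    exact IsUltrametricDist.norm_intCast_le_one _ _
  have h1 : 1 < ‖f.eval 1‖ := by
    have e : ‖-(t * psi5 (8175274 : Om 5) 200970867709 1 ^ 2)‖ = ‖t‖ := by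
      rw [norm_neg, norm_mul, norm_pow, hψ, one_pow, mul_one]
    rw [hf, one_pow, one_pow, mul_one, mul_one, mul_one, sub_eq_neg_add, H84.nadd, e]
    · exact ht
    · rw [e]
      linarith
  obtain ⟨r, hr, hr0⟩ := small_root f h0 h1
  have hne : r ≠ 0 := by
    rintro rfl
    rw [h0] at hr0
    exact one_ne_zero hr0
  have hinv : r⁻¹ * r = 1 := inv_mul_cancel₀ hne
  refine ⟨r⁻¹, ?_, ?_⟩
  · rw [norm_inv]
    exact (one_lt_inv₀ (norm_pos_iff.2 hne)).2 hr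
  · rw [hf] at hr0
    rw [phi5_hom _ _ _ r hinv, psi5_hom _ _ _ r hinv, sub_eq_zero.1 hr0]
    linear_combination (t * r⁻¹ ^ 24 * psi5 (8175274 * r ^ 2) (200970867709 * r ^ 3) 1 ^ 2) * hinv

theorem eq_or_neg {P Q : Pt E0 (Om 5)} (hP : P ≠ 0) (hQ : Q ≠ 0) (h : xc P = xc Q) :
    P = Q ∨ P = -Q := by
  rcases P with _ | ⟨x, y, h1⟩
  · exact absurd rfl hP
  rcases Q with _ | ⟨x', y', h2⟩
  · exact absurd rfl hQ
  exact WeierstrassCurve.Affine.Point.X_eq_iff.1 h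

theorem xc_neg (P : Pt E0 (Om 5)) : xc (-P) = xc P := by
  rcases P with _ | ⟨x, y, h1⟩ <;> rfl

end TE15

open TE15 in
theorem e15S (hE : Ec5S) (hD : DivS) : E15S := by
  refine ⟨fun P h1 h2 => ?_, fun P h2 => ?_, fun P h2 => ?_, fun R hR => ?_⟩
  · obtain ⟨w, hw, ha, hb⟩ := rel hE P h1
    have hlt : ‖(5 : Om 5)‖ < ‖w‖ := by
      rw [norm_five]
      by_contra hc
      have := mul_le_mul_of_nonneg_right (not_lt.1 hc) (sq_nonneg ‖xc P‖)
      linarith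
    have hn : ‖5 + w‖ = ‖w‖ := by rw [add_comm, H84.nadd hlt]
    have h5 : 5 • P ≠ 0 := ha (norm_pos_iff.1 (hn ▸ (norm_nonneg _).trans_lt hlt))
    have := hb h5
    rw [hn] at this
    refine ⟨h5, ?_⟩
    linear_combination ‖xc P‖ ^ 4 * this - ‖xc (5 • P)‖ * (‖w‖ * ‖xc P‖ ^ 2 + 1) * hw
  · have h1 : 1 < ‖xc P‖ := by
      by_contra hc
      have := pow_le_one₀ (n := 2) (norm_nonneg (xc P)) (not_lt.1 hc)
      linarith
    obtain ⟨w, hw, ha, hb⟩ := rel hE P h1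
    have hlt : ‖w‖ < ‖(5 : Om 5)‖ := by
      rw [norm_five]
      by_contra hc
      have := mul_le_mul_of_nonneg_right (not_lt.1 hc) (sq_nonneg ‖xc P‖)
      linarith
    have hn : ‖5 + w‖ = 5⁻¹ := by rw [H84.nadd hlt, norm_five]
    have h5 : 5 • P ≠ 0 := ha (norm_pos_iff.1 (by rw [hn]; norm_num))
    have := hb h5
    rw [hn] at this
    exact ⟨h5, by linear_combination 25 * this⟩
  · have h1 : 1 < ‖xc P‖ := by
      by_contra hc
      have := pow_le_one₀ (n := 2) (norm_nonneg (xc P)) (not_lt.1 hc)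
      linarith
    obtain ⟨w, hw, -, hb⟩ := rel hE P h1
    refine or_iff_not_imp_left.2 fun h5 => ?_
    have h3 := hb h5
    have hn : ‖5 + w‖ ≤ 5⁻¹ := H84.nle norm_five.le (by rw [h2] at hw; linarith)
    have h4 : ‖5 + w‖ ^ 2 ≤ 5⁻¹ ^ 2 := pow_le_pow_left₀ (norm_nonneg _) hn 2
    have h6 := mul_le_mul_of_nonneg_left h4 (norm_nonneg (xc (5 • P)))
    have h7 : 25 * ‖xc P‖ ≤ ‖xc (5 • P)‖ := by linarith
    have h8 := pow_le_pow_left₀ (by positivity) h7 2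
    rw [mul_pow, h2] at h8
    linarith
  · by_cases h0 : R = 0
    · exact ⟨0, Or.inl rfl, by rw [h0, smul_zero]⟩
    obtain ⟨x, hx, hφ⟩ := exists_x (xc R) (hR.resolve_left h0)
    obtain ⟨P, hP, rfl⟩ := hD.2.2.2 (Om 5) x
    obtain ⟨h1, h2, h3⟩ := hE (Om 5) P hP
    have h5 : 5 • P ≠ 0 := fun h => h3 h (by rw [hφ, h1.1 h]; ring)
    have hψ : psi5 8175274 200970867709 (xc P) ≠ 0 := fun h => h5 (h1.2 h)
    have he : xc (5 • P) = xc R := mul_right_cancel₀ (pow_ne_zero 2 hψ) ((h2 h5).trans hφ)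
    rcases eq_or_neg h5 h0 he with h | h
    · exact ⟨P, Or.inr hx, h⟩
    · exact ⟨-P, Or.inr (by rwa [xc_neg]), by rw [smul_neg, h, neg_neg]⟩

end Pool.Agent.Lib.MP_54db3e_nt
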