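import Pool.Agent.Lib.MP_54db3e_nt.Stmt

/-!
Multiplication by 5 on the curve in terms of the division polynomials.
-/

open scoped Classical

noncomputable section

namespace Pool.Agent.Lib.MP_54db3e_nt

namespace TEc5

open WeierstrassCurve.Affine

variable {k : Type} [Field k] [Algebra ℚ k]

theorem a1 : (E0.toAffine.baseChange k).a₁ = 0 := by simp [E0, E0Z]
theorem a2 : (E0.toAffine.baseChange k).a₂ = 0 := by simp [E0, E0Z]
theorem a3 : (E0.toAffine.baseChange k).a₃ = 1 := by simp [E0, E0Z]
theorem a4 : (E0.toAffine.baseChange k).a₄ = 8175274 := by simp [E0, E0Z]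
theorem a6 : (E0.toAffine.baseChange k).a₆ = 50242716927 := by simp [E0, E0Z]

theorem eqn {x y : k} (h : (E0.toAffine.baseChange k).Nonsingular x y) :
    (2 * y + 1) ^ 2 = dF 8175274 200970867709 x := by
  have := (equation_iff _ _).1 h.1
  rw [a1, a2, a3, a4, a6] at this
  unfold dF
  linear_combination 4 * this

theorem negY_eq (x y : k) : (E0.toAffine.baseChange k).negY x y = -y - 1 := by
  rw [negY, a1, a3]; ring

theorem xc_neg (P : Pt E0 k) : xc (-P) = xc P := by cases P <;> rfl

theorem eq_or {P Q : Pt E0 k} (hP : P ≠ 0) (hQ : Q ≠ 0) (h : xc P = xc Q) : P = Q ∨ P = -Q := by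
  rcases P with _ | ⟨x, y, hp⟩
  · exact absurd rfl hP
  rcases Q with _ | ⟨x', y', hq⟩
  · exact absurd rfl hQ
  exact Point.X_eq_iff.1 h

theorem dT_eq {R : Type} [CommRing R] (A b x : R) :
    dT A b x = 3 * x * dF A b x - (3 * x ^ 2 + A) ^ 2 := by unfold dT dF; ring

theorem dS_eq {R : Type} [CommRing R] (A b x : R) :
    dS A b x = dT A b x * (6 * x ^ 2 + 2 * A) - dF A b x ^ 2 := by unfold dS dT dF; ring

/-- points of order two -/
theorem two_zero {P : Pt E0 k} (hP : P ≠ 0) (hF : dF 8175274 200970867709 (xc P) = 0) :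
    P + P = 0 ∧ dT 8175274 200970867709 (xc P) ≠ 0 := by
  rcases P with _ | ⟨x, y, hp⟩
  · exact absurd rfl hP
  change dF 8175274 200970867709 x = 0 at hF
  change _ ∧ dT 8175274 200970867709 x ≠ 0
  have hy : 2 * y + 1 = 0 := pow_eq_zero_iff two_ne_zero |>.1 ((eqn hp).trans hF)
  refine ⟨Point.add_self_of_Y_eq (by rw [negY_eq]; linear_combination hy), fun hT => ?_⟩
  rw [dT_eq, hF, mul_zero, zero_sub, neg_eq_zero, pow_eq_zero_iff two_ne_zero] at hT
  have := ((nonsingular_iff _ _).1 hp).2
  rw [a1, a2, a3, a4] at this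
  rcases this with h | h
  · exact h (by linear_combination -hT)
  · exact h (by linear_combination hy)

/-- doubling -/
theorem two_ne {P : Pt E0 k} (hP : P ≠ 0) (hF : dF 8175274 200970867709 (xc P) ≠ 0) :
    P + P ≠ 0 ∧ xc (P + P) * dF 8175274 200970867709 (xc P) =
      xc P * dF 8175274 200970867709 (xc P) - dT 8175274 200970867709 (xc P) := by
  rcases P with _ | ⟨x, y, hp⟩
  · exact absurd rfl hP
  change dF 8175274 200970867709 x ≠ 0 at hF
  have hy : 2 * y + 1 ≠ 0 := fun h => hF (by rw [← eqn hp, h]; ring)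
  have hy' : y ≠ (E0.toAffine.baseChange k).negY x y := fun h =>
    hy (by rw [negY_eq] at h; linear_combination h)
  rw [Point.add_self_of_Y_ne hy']
  refine ⟨Point.some_ne_zero _, ?_⟩
  change (E0.toAffine.baseChange k).addX x x ((E0.toAffine.baseChange k).slope x x y y) *
    dF 8175274 200970867709 x = x * dF 8175274 200970867709 x - dT 8175274 200970867709 x
  rw [slope_of_Y_ne rfl hy', negY_eq, addX, a1, a2, a4, dT_eq, ← eqn hp]
  have e : y - (-y - 1) = 2 * y + 1 := by ring
  rw [e]
  field_simp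
  ring

/-- sum and difference of two points with different abscissae -/
theorem add_sub {P Q : Pt E0 k} (hP : P ≠ 0) (hQ : Q ≠ 0) (h : xc P ≠ xc Q) :
    P + Q ≠ 0 ∧ (xc (P + Q) + xc (P - Q)) * (xc P - xc Q) ^ 2 =
      2 * (xc P * xc Q + 8175274) * (xc P + xc Q) + 200970867709 := by
  rcases P with _ | ⟨x, y, hp⟩
  · exact absurd rfl hP
  rcases Q with _ | ⟨x', y', hq⟩
  · exact absurd rfl hQ
  change x ≠ x' at h
  rw [sub_eq_add_neg, Point.neg_some, Point.add_of_X_ne h, Point.add_of_X_ne h]
  refine ⟨Point.some_ne_zero _, ?_⟩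
  change ((E0.toAffine.baseChange k).addX x x' ((E0.toAffine.baseChange k).slope x x' y y') +
    (E0.toAffine.baseChange k).addX x x' ((E0.toAffine.baseChange k).slope x x' y
      ((E0.toAffine.baseChange k).negY x' y'))) * (x - x') ^ 2 =
    2 * (x * x' + 8175274) * (x + x') + 200970867709
  rw [slope_of_X_ne h, slope_of_X_ne h, negY_eq, addX, addX, a1, a2]
  have e1 := eqn hp
  have e2 := eqn hq
  unfold dF at e1 e2
  have hx : x - x' ≠ 0 := sub_ne_zero.2 h
  have h2 : (2 : k) ≠ 0 := by
    have := (algebraMap ℚ k).injective.ne (two_ne_zero (α := ℚ))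
    simpa using this
  field_simp
  apply mul_left_cancel₀ h2
  linear_combination e1 + e2

theorem id3 {R : Type} [CommRing R] (A b x : R) :
    2 * ((x * dF A b x - dT A b x) * x + A * dF A b x) * (x * dF A b x - dT A b x + x * dF A b x) +
      b * dF A b x ^ 2 = 2 * x * dT A b x ^ 2 - dF A b x * dS A b x := by
  unfold dS dT dF; ring

theorem id5 {R : Type} [CommRing R] (A b x : R) :
    2 * ((x * dT A b x ^ 2 - dF A b x * dS A b x) * (x * dF A b x - dT A b x) +
        A * dF A b x * dT A b x ^ 2) *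
      ((x * dT A b x ^ 2 - dF A b x * dS A b x) * dF A b x + (x * dF A b x - dT A b x) *
        dT A b x ^ 2) + b * (dF A b x * dT A b x ^ 2) ^ 2 =
      x * psi5 A b x ^ 2 + phi5 A b x := by
  unfold phi5 psi5 dS dT dF; ring

end TEc5

open TEc5 in
theorem ec5S : Ec5S := by
  intro k _ _ P hP
  have e5 : 5 • P = P + P + P + (P + P) := by abel
  by_cases hF : dF 8175274 200970867709 (xc P) = 0
  · obtain ⟨h2, hT⟩ := two_zero hP hF
    have e : 5 • P = P := by rw [e5, h2, zero_add, add_zero]
    have hψ : psi5 8175274 200970867709 (xc P) ≠ 0 := by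
      rw [psi5, hF]; simpa using hT
    rw [e]
    exact ⟨iff_of_false hP hψ, fun _ => by rw [phi5, hF]; ring, fun h => absurd h hP⟩
  obtain ⟨h2, x2⟩ := two_ne hP hF
  by_cases hT : dT 8175274 200970867709 (xc P) = 0
  · have hx : xc (P + P) = xc P := mul_right_cancel₀ hF (by rw [x2, hT, sub_zero])
    have h3 : P + P = -P := (eq_or h2 hP hx).resolve_left fun h => hP (by simpa using h)
    have e : 5 • P = -P := by rw [e5, h3, neg_add_cancel, zero_add]
    have hψ : psi5 8175274 200970867709 (xc P) ≠ 0 := by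
      rw [psi5, dS_eq, hT]; simpa using hF
    have hn : -P ≠ 0 := neg_ne_zero.2 hP
    rw [e]
    exact ⟨iff_of_false hn hψ, fun _ => by rw [xc_neg, phi5, hT]; ring, fun h => absurd h hn⟩
  have hx : xc (P + P) ≠ xc P := fun h => hT (by rw [h] at x2; linear_combination x2)
  obtain ⟨h3, x3⟩ := add_sub h2 hP hx
  rw [add_sub_cancel_right] at x3
  have i3 := id3 8175274 200970867709 (xc P)
  have i5 := id5 8175274 200970867709 (xc P)
  have hψ : psi5 8175274 200970867709 (xc P) = dS 8175274 200970867709 (xc P) *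
    dF 8175274 200970867709 (xc P) ^ 2 - dT 8175274 200970867709 (xc P) ^ 3 := rfl
  have hφ : phi5 8175274 200970867709 (xc P) = xc P * psi5 8175274 200970867709 (xc P) ^ 2 -
    dF 8175274 200970867709 (xc P) * dS 8175274 200970867709 (xc P) *
      dT 8175274 200970867709 (xc P) *
      (psi5 8175274 200970867709 (xc P) - dS 8175274 200970867709 (xc P) ^ 2) := rfl
  have key : xc (P + P + P) ≠ xc (P + P) → P + P + P + (P + P) ≠ 0 ∧
      (xc (P + P + P + (P + P)) + xc P) * (xc (P + P + P) - xc (P + P)) ^ 2 =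
      2 * (xc (P + P + P) * xc (P + P) + 8175274) * (xc (P + P + P) + xc (P + P)) +
        200970867709 := fun h => by
    have := add_sub h3 h2 h
    rwa [show P + P + P - (P + P) = P by abel] at this
  have key0 : xc (P + P + P) = xc (P + P) → P + P + P + (P + P) = 0 := fun h => by
    rcases eq_or h3 h2 h with h | h
    · exact absurd (by simpa using h) hP
    · rw [h, neg_add_cancel]
  rw [e5]
  generalize phi5 8175274 200970867709 (xc P) = φ at *
  generalize psi5 8175274 200970867709 (xc P) = ψ at *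
  generalize dS 8175274 200970867709 (xc P) = S at *
  generalize dT 8175274 200970867709 (xc P) = T at *
  generalize dF 8175274 200970867709 (xc P) = F at *
  generalize xc (P + P + P + (P + P)) = u5 at *
  generalize xc (P + P + P) = u3 at *
  generalize xc (P + P) = u2 at *
  generalize xc P = x at *
  have d2 : (u2 - x) * F = -T := by linear_combination x2
  have y3 : u3 * T ^ 2 = x * T ^ 2 - F * S := by
    have e1 : (u3 + x) * ((u2 - x) * F) ^ 2 =
        2 * (u2 * F * x + 8175274 * F) * (u2 * F + x * F) + 200970867709 * F ^ 2 := by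
      linear_combination F ^ 2 * x3
    rw [d2, x2] at e1
    linear_combination e1 + i3
  have d3 : (u3 - u2) * (F * T ^ 2) = -ψ := by
    linear_combination F * y3 - T ^ 2 * x2 + hψ
  have hFT : F * T ^ 2 ≠ 0 := mul_ne_zero hF (pow_ne_zero 2 hT)
  by_cases h0 : ψ = 0
  · have h5 := key0 (sub_eq_zero.1 ((mul_eq_zero.1 (by rw [d3, h0, neg_zero])).resolve_right hFT))
    refine ⟨iff_of_true h5 h0, fun h => absurd h5 h, fun _ => ?_⟩
    have hS : S ≠ 0 := fun h => hT (pow_eq_zero_iff three_ne_zero |>.1 (by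
      rw [h, h0] at hψ; linear_combination hψ))
    rw [hφ, h0]
    simpa using ⟨⟨⟨hF, hS⟩, hT⟩, hS⟩
  · obtain ⟨h5, x5⟩ := key fun h => h0 (by rw [h] at d3; linear_combination d3)
    refine ⟨iff_of_false h5 h0, fun _ => ?_, fun h => absurd h h5⟩
    have e1 : (u5 + x) * ((u3 - u2) * (F * T ^ 2)) ^ 2 =
        2 * (u3 * T ^ 2 * (u2 * F) + 8175274 * F * T ^ 2) * (u3 * T ^ 2 * F + u2 * F * T ^ 2) +
          200970867709 * (F * T ^ 2) ^ 2 := by
      linear_combination (F * T ^ 2) ^ 2 * x5
    rw [d3, y3, x2] at e1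
    linear_combination e1 + i5

end Pool.Agent.Lib.MP_54db3e_nt
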