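import Pool.Agent.Lib.MP_54db3e_nt.Stmt

/-!
Embeddings of the algebraic closure of the rationals into local algebraic closures and into the
complex numbers.
-/

open scoped Classical
open IntermediateField

noncomputable section

namespace Pool.Agent.Lib.MP_54db3e_nt

namespace TEmb

instance algClosure : IsAlgClosure ℚ Qb := AlgebraicClosure.instIsAlgClosure ℚ
instance algebraic : Algebra.IsAlgebraic ℚ Qb := AlgebraicClosure.isAlgebraic ℚ
instance galois : IsGalois ℚ Qb := IsAlgClosure.isGalois ℚ Qb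

theorem conj_emb (Ω : Type) [Field Ω] (ι ι' : Qb →+* Ω) : ∃ g : GQ, ∀ x, ι' x = ι (g x) := by
  have : CharZero Ω := (RingHom.charZero_iff ι.injective).mp inferInstance
  let _ := ι.toAlgebra
  have : IsScalarTower ℚ Qb Ω := IsScalarTower.of_algebraMap_eq' (Subsingleton.elim _ _)
  refine ⟨ι'.toRatAlgHom.restrictNormal' Qb, fun x => ?_⟩
  exact (ι'.toRatAlgHom.restrictNormal_commutes Qb x).symm

variable {l : ℕ} [Fact l.Prime]

theorem exists_res (ι : Qb →+* Om l) : ∃ res : Gl l →* GQ, (∀ γ, Cmp ι (res γ) γ) ∧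
    res.range = Dec ι ∧ ∀ U, Opn U → OpnK (U.comap res) := by
  choose r hr using fun γ : Gl l => conj_emb (Om l) ι (γ.toAlgHom.toRingHom.comp ι)
  have hr' : ∀ γ x, ι (r γ x) = γ (ι x) := fun γ x => (hr γ x).symm
  have hu : ∀ g γ, Cmp ι g γ → r γ = g := fun g γ h =>
    AlgEquiv.ext fun x => ι.injective (by rw [hr', h])
  refine ⟨MonoidHom.mk' r fun a b => hu _ _ fun x => ?_, hr', ?_, ?_⟩
  · rw [AlgEquiv.mul_apply, hr', hr', AlgEquiv.mul_apply]
  · ext g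
    exact ⟨fun ⟨γ, h⟩ => ⟨γ, h ▸ hr' γ⟩, fun ⟨γ, h⟩ => ⟨γ, hu g γ h⟩⟩
  · rintro U ⟨s, hs⟩
    refine ⟨s.image ι, fun γ h => hs _ fun x hx => ι.injective ?_⟩
    exact (hr' γ x).trans (h _ (Finset.mem_image_of_mem _ hx))

theorem norm_gal (γ : Gl l) (x : Om l) : ‖γ x‖ = ‖x‖ :=
  (spectralNorm_eq_of_equiv γ x).symm

theorem norm_pow_eq (x : Om l) (hx : x ≠ 0) :
    ∃ m : ℕ, 0 < m ∧ ∃ k : ℤ, ‖x‖ ^ m = (l : ℝ) ^ k := by
  have hi : IsIntegral ℚ_[l] x := Algebra.IsIntegral.isIntegral x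
  have hm := minpoly.natDegree_pos hi
  have h0 := minpoly.coeff_zero_ne_zero hi hx
  refine ⟨_, hm, -((minpoly ℚ_[l] x).coeff 0).valuation, ?_⟩
  rw [← Padic.norm_eq_zpow_neg_valuation h0, ← PadicAlgCl.spectralNorm_eq,
    spectralNorm.spectralNorm_eq_norm_coeff_zero_rpow, one_div,
    Real.rpow_inv_natCast_pow (norm_nonneg _) hm.ne']

theorem mem_int (x : Om l) : x ∈ (Valued.v : Valuation (Om l) NNReal).integer ↔ ‖x‖ ≤ 1 := by
  rw [Valuation.mem_integer_iff, PadicAlgCl.valuation_def]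
  exact Iff.rfl

theorem norm_l : ‖(l : Om l)‖ < 1 := by
  rw [← map_natCast (algebraMap ℚ_[l] (Om l)), norm_algebraMap']
  exact Padic.norm_p_lt_one

theorem step {y : Om l} (hy : ‖y‖ ≤ 1) (h : ‖y ^ l - 1‖ < 1) : ‖y - 1‖ < 1 := by
  have hp : l.Prime := Fact.out
  let y' : (Valued.v : Valuation (Om l) NNReal).integer := ⟨y, (mem_int y).2 hy⟩
  obtain ⟨r, hr⟩ := exists_add_pow_prime_eq hp (y' - 1) 1
  have e := congrArg Subtype.val hr
  have hz := (mem_int _).1 ((y' - 1) * r).2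
  push_cast at e hz
  have e2 : (y - 1) ^ l = (y ^ l - 1) + -((l : Om l) * ((y - 1) * r)) := by
    simp only [y'] at e
    rw [sub_add_cancel, one_pow] at e
    linear_combination -e
  have h2 : ‖-((l : Om l) * ((y - 1) * r))‖ < 1 := by
    rw [norm_neg, norm_mul]
    exact mul_lt_one_of_nonneg_of_lt_one_left (norm_nonneg _) norm_l hz
  have h3 : ‖y - 1‖ ^ l < 1 := by
    rw [← norm_pow, e2]
    exact (IsUltrametricDist.norm_add_le_max _ _).trans_lt (max_lt h h2)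
  exact lt_of_pow_lt_pow_left₀ l zero_le_one (by rwa [one_pow])

theorem steps (a : ℕ) : ∀ {y : Om l}, ‖y‖ ≤ 1 → ‖y ^ l ^ a - 1‖ < 1 → ‖y - 1‖ < 1 := by
  induction a with
  | zero => intro y _ h; simpa using h
  | succ a ih =>
    intro y hy h
    rw [pow_succ, pow_mul] at h
    exact ih hy (step (by rw [norm_pow]; exact pow_le_one₀ (norm_nonneg _) hy) h)

theorem exists_pow_close (x : Om l) (hx : ‖x‖ = 1) : ∃ m : ℕ, m ≠ 0 ∧ ‖x ^ m - 1‖ < 1 := by
  have hi : IsIntegral ℚ_[l] x := Algebra.IsIntegral.isIntegral x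
  let V : Submodule ℚ_[l] (Om l) := Subalgebra.toSubmodule (Algebra.adjoin ℚ_[l] {x})
  have : FiniteDimensional ℚ_[l] V := Module.Finite.iff_fg.2 hi.fg_adjoin_singleton
  have : ProperSpace V := FiniteDimensional.proper ℚ_[l] V
  let u : ℕ → V := fun n => ⟨x ^ n, pow_mem (Algebra.self_mem_adjoin_singleton ℚ_[l] x) n⟩
  have hu : ∀ n, u n ∈ Metric.closedBall (0 : V) 1 := fun n => by
    rw [mem_closedBall_zero_iff]
    change ‖x ^ n‖ ≤ 1
    rw [norm_pow, hx, one_pow]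
  obtain ⟨a, -, φ, hφ, ht⟩ := (isCompact_closedBall (0 : V) 1).tendsto_subseq hu
  obtain ⟨N, hN⟩ := Metric.cauchySeq_iff.1 ht.cauchySeq 1 one_pos
  have h1 := hN (N + 1) (Nat.le_succ N) N le_rfl
  have h2 : φ N < φ (N + 1) := hφ (Nat.lt_succ_self N)
  rw [dist_eq_norm] at h1
  change ‖x ^ φ (N + 1) - x ^ φ N‖ < 1 at h1
  refine ⟨φ (N + 1) - φ N, by omega, ?_⟩
  have e : x ^ φ (N + 1) - x ^ φ N = x ^ φ N * (x ^ (φ (N + 1) - φ N) - 1) := by
    rw [mul_sub, ← pow_add, Nat.add_sub_cancel' h2.le, mul_one]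
  rwa [e, norm_mul, norm_pow, hx, one_pow, one_mul] at h1

theorem exists_pow_prime_to (x : Om l) (hx : ‖x‖ = 1) :
    ∃ m : ℕ, ¬ l ∣ m ∧ ‖x ^ m - 1‖ < 1 := by
  have hp : l.Prime := Fact.out
  obtain ⟨m, hm, h⟩ := exists_pow_close x hx
  obtain ⟨a, m', h1, rfl⟩ := Nat.exists_eq_pow_mul_and_not_dvd hm l hp.ne_one
  rw [mul_comm, pow_mul] at h
  exact ⟨m', h1, steps a (by rw [norm_pow, hx, one_pow]) h⟩

theorem norm_integral (ι : Qb →+* Om l) (x : Qb) (hx : IsIntegral ℤ x) : ‖ι x‖ ≤ 1 := by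
  have h1 : IsIntegral ℤ (ι x) := map_isIntegral_int ι hx
  have h2 : IsIntegral (Valued.v : Valuation (Om l) NNReal).integer (ι x) := h1.tower_top
  exact (mem_int _).1 ((Valuation.integer.integers _).mem_of_integral h2)

theorem exists_conj (σ : Qb →+* ℂ) : ∃ c : GQ, ∀ x, σ (c x) = (starRingEnd ℂ) (σ x) := by
  obtain ⟨c, hc⟩ := conj_emb ℂ σ ((starRingEnd ℂ).comp σ)
  exact ⟨c, fun x => (hc x).symm⟩

theorem exists_ext (L : IntermediateField ℚ Qb) (ψ : L →+* ℂ) :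
    ∃ φ : Qb →+* ℂ, ∀ x : L, φ x = ψ x := by
  let _ := ψ.toAlgebra
  have : Algebra.IsAlgebraic L Qb := Algebra.IsAlgebraic.tower_top (K := ℚ) L
  let φ : Qb →ₐ[L] ℂ := IsAlgClosed.lift
  exact ⟨φ.toRingHom, fun x => φ.commutes x⟩

end TEmb

open TEmb NumberField in
theorem embS (hFg : FgS) : EmbS := by
  refine ⟨fun l _ => ⟨(IsAlgClosed.lift : Qb →ₐ[ℚ] Om l).toRingHom⟩, conj_emb,
    fun l _ => exists_res, fun l _ => norm_gal, fun l _ => norm_pow_eq,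
    fun l _ => exists_pow_prime_to, fun l _ => norm_integral, exists_conj,
    fun B hB _ => ⟨fun h => ⟨fun v => ?_⟩, fun h => ⟨fun v => ?_⟩⟩⟩
  · rw [← InfinitePlace.mk_embedding v, InfinitePlace.isReal_mk_iff, ComplexEmbedding.isReal_iff]
    obtain ⟨φ, h1⟩ := exists_ext _ v.embedding
    obtain ⟨c, h2⟩ := exists_conj φ
    ext x
    have h3 : c x = x := x.2 ⟨c, h c ⟨φ, h2⟩⟩
    rw [ComplexEmbedding.conjugate_coe_eq, ← h1, ← h2, h3]
  · rw [← InfinitePlace.not_isReal_iff_isComplex, ← InfinitePlace.mk_embedding v,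
      InfinitePlace.isReal_mk_iff, ComplexEmbedding.isReal_iff]
    intro hr
    obtain ⟨φ, h1⟩ := exists_ext _ v.embedding
    obtain ⟨c, h2⟩ := exists_conj φ
    refine h c ⟨φ, h2⟩ ?_
    rw [← ((hFg ℚ Qb).1 B hB).2.2.1, IntermediateField.mem_fixingSubgroup_iff]
    intro x hx
    apply φ.injective
    rw [h2, h1 ⟨x, hx⟩]
    exact RingHom.congr_fun hr ⟨x, hx⟩

end Pool.Agent.Lib.MP_54db3e_nt
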