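import Pool.Agent.Lib.MP_54db3e_nt.Stmt

/-!
Open subgroups of a Galois group and their fixed fields.
-/

open scoped Classical
open IntermediateField

noncomputable section

namespace Pool.Agent.Lib.MP_54db3e_nt

namespace TFg

variable {k Ω : Type} [Field k] [Field Ω] [Algebra k Ω]

theorem mem_fix_adjoin (s : Set Ω) (g : Ω ≃ₐ[k] Ω) :
    g ∈ (adjoin k s).fixingSubgroup ↔ ∀ y ∈ s, g y = y := by
  rw [IntermediateField.mem_fixingSubgroup_iff]
  exact forall_mem_adjoin_smul_eq_self_iff k (S := s) g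

theorem opn_of_finite (F : IntermediateField k Ω) (h : FiniteDimensional k F) :
    OpnK F.fixingSubgroup := by
  obtain ⟨s, hs⟩ : F.FG := by
    obtain ⟨t, ht⟩ := (Module.Finite.iff_fg (N := F.toSubalgebra.toSubmodule)).1 h
    refine ⟨t, le_antisymm (adjoin_le_iff.2 fun x hx => ?_) fun x hx => ?_⟩
    · have : x ∈ Submodule.span k (t : Set Ω) := Submodule.subset_span hx
      rw [ht] at this
      exact this
    · have : x ∈ Submodule.span k (t : Set Ω) := by rw [ht]; exact hx
      exact (Submodule.span_le (p := (adjoin k (t : Set Ω)).toSubalgebra.toSubmodule)).2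
        (subset_adjoin k _) this
  exact ⟨s, fun g hg => by rw [← hs]; exact (mem_fix_adjoin _ g).2 hg⟩

variable [IsGalois k Ω]

theorem opn_iff (B : Subgroup (Ω ≃ₐ[k] Ω)) : OpnK B ↔ IsOpen (B : Set (Ω ≃ₐ[k] Ω)) := by
  constructor
  · rintro ⟨s, hs⟩
    have : FiniteDimensional k (adjoin k (s : Set Ω)) :=
      finiteDimensional_adjoin fun x _ => Algebra.IsIntegral.isIntegral x
    exact Subgroup.isOpen_mono (H₁ := (adjoin k (s : Set Ω)).fixingSubgroup)
      (fun g hg => hs g ((mem_fix_adjoin _ g).1 hg)) (IntermediateField.fixingSubgroup_isOpen _)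
  · intro h
    obtain ⟨E, hE, hle⟩ := (krullTopology_mem_nhds_one_iff k Ω _).1 (h.mem_nhds B.one_mem)
    obtain ⟨s, hs⟩ := opn_of_finite E hE
    exact ⟨s, fun g hg => hle (hs g hg)⟩

end TFg

open TFg in
theorem fgS : FgS := by
  intro k Ω _ _ _ _
  refine ⟨fun B hB => ?_, fun s x hx => ?_, opn_of_finite, fun B hB hanti U hU h => ?_⟩
  · have ho := (opn_iff B).1 hB
    have hc := B.isClosed_of_isOpen ho
    have hf : (fixedField B).fixingSubgroup = B := InfiniteGalois.fixingSubgroup_fixedField ⟨B, hc⟩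
    have : B.FiniteIndex :=
      have : Finite (_ ⧸ B) := B.quotient_finite_of_isOpen ho
      Subgroup.finiteIndex_of_finite_quotient
    refine ⟨(InfiniteGalois.isOpen_iff_finite _).1 (by rw [hf]; exact ho), ?_, hf, ho,
      fun hn => (InfiniteGalois.normal_iff_isGalois _).1 (by rw [hf]; exact hn), ?_⟩
    · rw [finrank_eq_fixingSubgroup_index, hf]
    · exact (opn_iff _).2
        (Subgroup.isOpen_of_isClosed_of_finiteIndex _ (B.normalCore_isClosed hc))
  · rw [← InfiniteGalois.fixedField_fixingSubgroup (adjoin k s), mem_fixedField_iff]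
    exact fun g hg => hx g ((mem_fix_adjoin s g).1 hg)
  · have hc : IsCompact (U : Set (Ω ≃ₐ[k] Ω))ᶜ :=
      ((opn_iff U).1 hU).isClosed_compl.isCompact
    obtain ⟨n, hn⟩ := hc.elim_directed_family_closed (fun n => (B n : Set (Ω ≃ₐ[k] Ω)))
      (fun n => (B n).isClosed_of_isOpen ((opn_iff _).1 (hB n)))
      (Set.eq_empty_of_forall_notMem fun g hg => hg.1 (h g (Set.mem_iInter.1 hg.2)))
      (Antitone.directed_ge fun a b hab => hanti hab)
    exact ⟨n, fun g hg => by_contra fun hg' => Set.eq_empty_iff_forall_notMem.1 hn g ⟨hg', hg⟩⟩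

end Pool.Agent.Lib.MP_54db3e_nt
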