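import Pool.Agent.Lib.MP_54db3e_nt.StmtF

/-!
The field `F_∞`, the group `H` and the congruence subgroups.
-/

open scoped Classical
open IntermediateField

noncomputable section

namespace Pool.Agent.Lib.MP_54db3e_nt

namespace TFinf

theorem galois : IsGalois ℚ Qb :=
  have : IsAlgClosure ℚ Qb := AlgebraicClosure.instIsAlgClosure ℚ
  IsAlgClosure.isGalois ℚ Qb

/-- the generating set of `F_∞` -/
def gens : Set Qb := {c | ∃ (x y : Qb) (h : (E0.toAffine.baseChange Qb).Nonsingular x y),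
  WeierstrassCurve.Affine.Point.some x y h ∈ Tors E0 5 Qb ∧ (c = x ∨ c = y)}

theorem finf_eq : Finf E0 5 Qb = adjoin ℚ gens := rfl

theorem act_some (g : GQ) (x y : Qb) (h : (E0.toAffine.baseChange Qb).Nonsingular x y) :
    act E0 g (.some x y h) = .some x y h ↔ g x = x ∧ g y = y := by
  have e : ∃ h', act E0 g (.some x y h) = .some (g x) (g y) h' := ⟨_, rfl⟩
  obtain ⟨h', e⟩ := e
  rw [e, WeierstrassCurve.Affine.Point.some.injEq]

theorem fix_iff (d : Rep) (g : GQ) : (∀ c ∈ gens, g c = c) ↔ ∀ m, g ∈ lev d.ρ m := by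
  constructor
  · intro hg m
    rw [d.mem_lev]
    rintro (_ | ⟨x, y, h⟩) hP
    · exact map_zero _
    · exact (act_some g x y h).2 ⟨hg x ⟨x, y, h, ⟨m, hP⟩, Or.inl rfl⟩,
        hg y ⟨x, y, h, ⟨m, hP⟩, Or.inr rfl⟩⟩
  · rintro hg c ⟨x, y, h, ⟨m, hP⟩, hc⟩
    have := (act_some g x y h).1 ((d.mem_lev g m).1 (hg m) _ hP)
    rcases hc with rfl | rfl
    · exact this.1
    · exact this.2

theorem mem_fix (d : Rep) (g : GQ) : g ∈ (Finf E0 5 Qb).fixingSubgroup ↔ ∀ m, g ∈ lev d.ρ m := by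
  rw [← fix_iff, IntermediateField.mem_fixingSubgroup_iff]
  constructor
  · exact fun hg c hc => hg c (subset_adjoin ℚ gens hc)
  · intro hg c hc
    have : Finf E0 5 Qb ≤ fixedField (Subgroup.zpowers g) := by
      rw [finf_eq, adjoin_le_iff]
      intro x hx
      rw [SetLike.mem_coe, mem_fixedField_iff]
      intro f hf
      have : Subgroup.zpowers g ≤ MulAction.stabilizer GQ x := by
        rw [Subgroup.zpowers_le]; exact hg x hx
      exact this hf
    exact (mem_fixedField_iff _ _).1 (this hc) g (Subgroup.mem_zpowers g)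

theorem prime_root {u : ℤ_[5]} {q : ℕ} (hq : q.Prime) (h1 : (5 : ℤ_[5]) ∣ u - 1) (hu : u ^ q = 1) :
    u = 1 := by
  by_contra hne
  have hs : ∑ i ∈ Finset.range q, u ^ i = 0 := by
    have := mul_geom_sum u q
    rw [hu, sub_self] at this
    exact (mul_eq_zero.1 this).resolve_left (sub_ne_zero.2 hne)
  have h5 : ¬ IsUnit (5 : ℤ_[5]) := (PadicInt.irreducible_p (p := 5)).not_isUnit
  have hd : (5 : ℤ_[5]) ∣ (q : ℤ_[5]) := by
    have : (5 : ℤ_[5]) ∣ ∑ i ∈ Finset.range q, (u ^ i - 1) :=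
      Finset.dvd_sum fun i _ => h1.trans (by simpa using sub_dvd_pow_sub_pow u 1 i)
    rw [Finset.sum_sub_distrib, hs] at this
    simpa using this
  have hq5 : q = 5 := by
    have h2 : ‖((q : ℤ) : ℤ_[5])‖ < 1 := by
      rw [PadicInt.norm_lt_one_iff_dvd]; simpa using hd
    rw [PadicInt.norm_int_lt_one_iff_dvd] at h2
    have h3 : 5 ∣ q := by exact_mod_cast h2
    exact ((Nat.prime_dvd_prime_iff_eq (by norm_num) hq).1 h3).symm
  subst hq5
  obtain ⟨s, hs'⟩ := h1
  have hu' : u = 1 + 5 * s := by linear_combination hs'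
  simp only [Finset.sum_range_succ, Finset.range_zero, Finset.sum_empty] at hs
  rw [hu'] at hs
  have h6 : (5 : ℤ_[5]) * (1 + 5 * (2 * s + 10 * s ^ 2 + 25 * s ^ 3 + 25 * s ^ 4)) = 0 := by
    linear_combination hs
  have h7 := (mul_eq_zero.1 h6).resolve_left (by norm_num)
  exact h5 (IsUnit.of_mul_eq_one (-(2 * s + 10 * s ^ 2 + 25 * s ^ 3 + 25 * s ^ 4))
    (by linear_combination -h7))

theorem tors_one {u : ℤ_[5]} (h1 : (5 : ℤ_[5]) ∣ u - 1) (N : ℕ) (hN : N ≠ 0) (hu : u ^ N = 1) :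
    u = 1 := by
  induction N using Nat.recOnMul generalizing u with
  | zero => exact absurd rfl hN
  | one => simpa using hu
  | prime q hq => exact prime_root hq h1 hu
  | mul a b iha ihb =>
    have ha : a ≠ 0 := left_ne_zero_of_mul hN
    have hb : b ≠ 0 := right_ne_zero_of_mul hN
    rw [pow_mul] at hu
    exact iha h1 ha (ihb (h1.trans (by simpa using sub_dvd_pow_sub_pow u 1 a)) hb hu)

theorem fixMu (z : Qb) (hz : IsPrimitiveRoot z 5) (g : GQ) (hg : g ∈ Hcyc 5 Qb) (h1 : g z = z)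
    (n : ℕ) : g ∈ FixMu n := by
  set χ := cyclotomicCharacter Qb 5 (MulSemiringAction.toRingAut GQ Qb g) with hχ
  have hspec : ∀ (k : ℕ) (t : Qb), t ^ 5 ^ k = 1 → g t = t ^ (χ.val.toZModPow k).val :=
    fun k t ht => cyclotomicCharacter.spec 5 (MulSemiringAction.toRingAut GQ Qb g) t ht
  have ht : IsOfFinOrder χ := hg
  obtain ⟨N, hN, hχN⟩ := isOfFinOrder_iff_pow_eq_one.1 ht
  have h2 := hspec 1 z (by simpa using hz.pow_eq_one)
  rw [h1] at h2
  have h3 : (χ.val.toZModPow 1).val = 1 :=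
    (hz.pow_inj (by norm_num) (by simpa using ZMod.val_lt (χ.val.toZModPow 1))
      (by rw [pow_one]; exact h2)).symm
  have h4 : χ.val.toZModPow 1 = 1 := by
    rw [← ZMod.natCast_zmod_val (χ.val.toZModPow 1), h3, Nat.cast_one]
  have h5 : (5 : ℤ_[5]) ∣ χ.val - 1 := by
    have : χ.val - 1 ∈ RingHom.ker (PadicInt.toZModPow (p := 5) 1) := by
      rw [RingHom.mem_ker, map_sub, h4, map_one, sub_self]
    rw [PadicInt.ker_toZModPow, Ideal.mem_span_singleton] at this
    simpa using this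
  have h6 : χ.val = 1 := tors_one h5 N hN.ne' (by rw [← Units.val_pow_eq_pow_val, hχN, Units.val_one])
  intro ξ hξ
  rw [hspec n ξ hξ, h6, map_one, ZMod.val_one_eq_one_mod, ← pow_eq_pow_mod _ hξ, pow_one]

end TFinf

theorem finfS (hFg : FgS) (hCyc : CycS) : FinfS := by
  intro d
  have := TFinf.galois
  obtain ⟨hF1, hF2, -, -⟩ := hFg ℚ Qb
  refine ⟨TFinf.mem_fix d, fun m x hx => ?_, fun g hg h1 n hn => ?_, ?_⟩
  · exact hF2 TFinf.gens x fun g hg =>
      (mem_fixedField_iff _ _).1 hx g ((TFinf.fix_iff d g).1 hg m)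
  · rw [(hCyc d n hn).1]
    exact ⟨h1, TFinf.fixMu d.z d.hz g hg
      ((hCyc d 1 le_rfl).2 h1 d.z (by simpa using d.hz.pow_eq_one)) n⟩
  · obtain ⟨hfd, hrk, -, hop, -, -⟩ := hF1 _ (d.opn_lev 1)
    have hfi : (lev d.ρ 1).FiniteIndex := ⟨by rw [← hrk]; exact Module.finrank_pos.ne'⟩
    let N : Subgroup (Hcyc 5 Qb) := (Finf E0 5 Qb).fixingSubgroup.subgroupOf (Hcyc 5 Qb)
    let B : Subgroup (Hcyc 5 Qb) := (lev d.ρ 1).subgroupOf (Hcyc 5 Qb)
    have hB : IsOpen (B : Set (Hcyc 5 Qb)) := hop.preimage continuous_subtype_val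
    have hsurj := QuotientGroup.mk'_surjective N
    refine ⟨⟨⟨B.map (QuotientGroup.mk' N), QuotientGroup.isOpenMap_coe _ hB⟩,
      Subgroup.Normal.map inferInstance _ hsurj⟩, ?_, fun g hg => ?_⟩
    · have : (B.map (QuotientGroup.mk' N)).FiniteIndex :=
        ⟨fun h => Subgroup.FiniteIndex.index_ne_zero (H := B)
          (Nat.eq_zero_of_zero_dvd (h ▸ Subgroup.index_map_dvd B hsurj))⟩
      exact Subgroup.finite_quotient_of_finiteIndex
    · obtain ⟨h, hh, e⟩ := hg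
      have h2 : h⁻¹ * g ∈ N := QuotientGroup.eq.1 e
      have h3 := (TFinf.mem_fix d _).1 (Subgroup.mem_subgroupOf.1 h2) 1
      have h4 := mul_mem (Subgroup.mem_subgroupOf.1 hh) h3
      simpa using h4

end Pool.Agent.Lib.MP_54db3e_nt
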