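import Pool.Agent.Lib.MP_54db3e_nt.Stmt

/-!
Even weights: a unit-type cocycle that vanishes on the decomposition group at 5 vanishes.
-/

open scoped Classical
open IntermediateField

noncomputable section

namespace Pool.Agent.Lib.MP_54db3e_nt

namespace TGe

instance algClosure : IsAlgClosure ℚ Qb := AlgebraicClosure.instIsAlgClosure ℚ
instance algebraic : Algebra.IsAlgebraic ℚ Qb := AlgebraicClosure.isAlgebraic ℚ
instance galois : IsGalois ℚ Qb := IsAlgClosure.isGalois ℚ Qb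

/-- fixed by every automorphism that fixes `a` and `z` -/
def FN (a z x : Qb) : Prop := ∀ g : GQ, g a = a → g z = z → g x = x

variable {a z : Qb}

theorem FN.mul {x y : Qb} (hx : FN a z x) (hy : FN a z y) : FN a z (x * y) := fun g h1 h2 => by
  rw [map_mul, hx g h1 h2, hy g h1 h2]

theorem FN.div {x y : Qb} (hx : FN a z x) (hy : FN a z y) : FN a z (x / y) := fun g h1 h2 => by
  rw [map_div₀, hx g h1 h2, hy g h1 h2]

theorem FN.pow {x : Qb} (hx : FN a z x) (k : ℕ) : FN a z (x ^ k) := fun g h1 h2 => by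
  rw [map_pow, hx g h1 h2]

theorem inv_app (g : GQ) (x : Qb) : g⁻¹ (g x) = x := by
  rw [← AlgEquiv.mul_apply, inv_mul_cancel, AlgEquiv.one_apply]

theorem app_inv (g : GQ) (x : Qb) : g (g⁻¹ x) = x := by
  rw [← AlgEquiv.mul_apply, mul_inv_cancel, AlgEquiv.one_apply]

theorem FN.agree {x : Qb} (hx : FN a z x) {g g' : GQ} (h1 : g a = g' a) (h2 : g z = g' z) :
    g x = g' x := by
  have h := hx (g'⁻¹ * g) (by rw [AlgEquiv.mul_apply, h1, inv_app])
    (by rw [AlgEquiv.mul_apply, h2, inv_app])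
  rw [AlgEquiv.mul_apply] at h
  calc g x = g' (g'⁻¹ (g x)) := (app_inv g' _).symm
    _ = g' x := by rw [h]

theorem a_cases (ha : a ^ 2 = 29) (g : GQ) : g a = a ∨ g a = -a := by
  have h : (g a) ^ 2 = a ^ 2 := by rw [← map_pow, ha, map_ofNat]
  exact sq_eq_sq_iff_eq_or_eq_neg.1 h

theorem z_cases (hz : IsPrimitiveRoot z 5) (g : GQ) : ∃ k, k < 5 ∧ k ≠ 0 ∧ g z = z ^ k := by
  have h : (g z) ^ 5 = 1 := by rw [← map_pow, hz.pow_eq_one, map_one]
  obtain ⟨k, hk, e⟩ := hz.eq_pow_of_pow_eq_one h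
  refine ⟨k, hk, ?_, e.symm⟩
  rintro rfl
  have h1 : g z = g 1 := by rw [map_one, ← e, pow_zero]
  exact hz.ne_one (by norm_num) (g.injective h1)

theorem FN.conj (ha : a ^ 2 = 29) (hz : IsPrimitiveRoot z 5) {x : Qb} (hx : FN a z x) (s : GQ) :
    FN a z (s x) := fun g h1 h2 => by
  have e1 : g (s a) = s a := by
    rcases a_cases ha s with h | h <;> simp [h, h1]
  have e2 : g (s z) = s z := by
    obtain ⟨k, -, -, h⟩ := z_cases hz s
    rw [h, map_pow, h2]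
  exact hx.agree (g := g * s) (g' := s) e1 e2

theorem fix_of_mem {b t : Qb} (ht : t ∈ ℚ⟮b⟯) (g : GQ) (h : g b = b) : g t = t := by
  refine IntermediateField.adjoin_induction ℚ (p := fun x _ => g x = x) ?_ ?_ ?_ ?_ ?_ ht
  · rintro x rfl
    exact h
  · intro x
    exact g.commutes x
  · intro x y _ _ hx hy
    rw [map_add, hx, hy]
  · intro x _ hx
    rw [map_inv₀, hx]
  · intro x y _ _ hx hy
    rw [map_mul, hx, hy]

theorem map_gK {k k' F : Type} [Field k] [Field k'] [FunLike F k k'] [RingHomClass F k k'] (f : F)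
    (z : k) : f (gK z) = gK (f z) := by
  simp only [gK, map_add, map_pow]

theorem map_bK {k k' F : Type} [Field k] [Field k'] [FunLike F k k'] [RingHomClass F k k'] (f : F)
    (a z : k) : f (bK a z) = bK (f a) (f z) := by
  simp only [bK, map_add, map_pow, map_div₀, map_mul, map_sub, map_ofNat]

theorem map_pK {k k' F : Type} [Field k] [Field k'] [FunLike F k k'] [RingHomClass F k k'] (f : F)
    (a z : k) : f (pK a z) = pK (f a) (f z) := by
  simp only [pK, map_add, map_mul, map_neg, map_ofNat, map_gK, map_bK]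

theorem cyc (hz : IsPrimitiveRoot z 5) : 1 + z + z ^ 2 + z ^ 3 + z ^ 4 = 0 := by
  have h := hz.geom_sum_eq_zero (by norm_num)
  simp only [Finset.sum_range_succ, Finset.sum_range_zero] at h
  linear_combination h

/-- the automorphisms fixing the generator of the quartic field -/
theorem bK_cases (ha : a ^ 2 = 29) (hz : IsPrimitiveRoot z 5) (g : GQ) (h : g (bK a z) = bK a z) :
    (g a = a ∧ g z = z) ∨ (g a = -a ∧ g z = z ^ 4) := by
  have h5 := hz.pow_eq_one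
  have hc := cyc hz
  have hz0 : z ≠ 0 := hz.ne_zero (by norm_num)
  have hq : bK a z ^ 2 + 22 = gK z * (bK a z - 7) := by
    simp only [bK, gK]
    linear_combination ((z - z ^ 4) ^ 2 / 4) * ha + (7 * z ^ 3 - 15) * h5 + 7 * hc
  have hg : gK z ^ 2 + gK z - 1 = 0 := by
    simp only [gK]
    linear_combination (z ^ 3 + 2) * h5 + hc
  have h7 : bK a z - 7 ≠ 0 := fun h0 => by
    have e : bK a z = 7 := by linear_combination h0
    rw [e] at hq
    norm_num at hq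
  have hgg : g (gK z) = gK z := by
    have e := congrArg g hq
    simp only [map_add, map_pow, map_mul, map_sub, map_ofNat, h] at e
    exact mul_right_cancel₀ h7 (e.symm.trans hq)
  have h14 : z - z ^ 4 ≠ 0 := fun h0 => by
    have e : z ^ 1 = z ^ 4 := by linear_combination h0
    exact absurd (hz.pow_inj (by norm_num) (by norm_num) e) (by norm_num)
  have hne : gK z ≠ -1 - gK z := fun h0 => by
    have e : gK z = -1 / 2 := by linear_combination h0 / 2
    rw [e] at hg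
    norm_num at hg
  rw [map_gK] at hgg
  rw [map_bK] at h
  obtain ⟨k, hk, hk0, e⟩ := z_cases hz g
  rw [e] at hgg h
  interval_cases k
  · exact absurd rfl hk0
  · left
    refine ⟨mul_right_cancel₀ h14 ?_, by rw [e, pow_one]⟩
    simp only [bK, pow_one] at h
    linear_combination 2 * h
  · exfalso
    apply hne
    simp only [gK] at hgg ⊢
    linear_combination (-1 : Qb) * hgg + z ^ 3 * h5 + hc
  · exfalso
    apply hne
    simp only [gK] at hgg ⊢
    linear_combination (-1 : Qb) * hgg + (z ^ 7 + z ^ 2) * h5 + hc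
  · right
    refine ⟨mul_right_cancel₀ h14 ?_, e⟩
    have e16 : (z ^ 4) ^ 4 = z := by
      linear_combination (z ^ 11 + z ^ 6 + z) * h5
    simp only [bK, e16] at h
    linear_combination (-2 : Qb) * h

theorem pow4 (hz : IsPrimitiveRoot z 5) : (z ^ 4) ^ 4 = z := by
  linear_combination (z ^ 11 + z ^ 6 + z) * hz.pow_eq_one

/-- the norm to the subfield fixed by an involution `s` that commutes with `c` -/
theorem half (hFg : FgS) (ha : a ^ 2 = 29) (hz : IsPrimitiveRoot z 5) {s c : GQ} {b x u : Qb}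
    (hsa : s (s a) = a) (hsz : s (s z) = z) (h1 : c (s a) = s (c a)) (h2 : c (s z) = s (c z))
    (hb : ∀ g : GQ, g b = b → (g a = a ∧ g z = z) ∨ (g a = s a ∧ g z = s z))
    (hx : FN a z x) (hu : FN a z u) (hxu : x * c x = u ^ 5) :
    x * s x ∈ ℚ⟮b⟯ ∧ ∃ t ∈ ℚ⟮b⟯, x * s x * c (x * s x) = t ^ 5 := by
  have key : ∀ v, FN a z v → v * s v ∈ ℚ⟮b⟯ := fun v hv => by
    refine (hFg ℚ Qb).2.1 {b} _ fun g hg => ?_
    rcases hb g (hg b rfl) with ⟨e1, e2⟩ | ⟨e1, e2⟩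
    · exact (hv.mul (hv.conj ha hz s)) g e1 e2
    · have f1 : g v = s v := hv.agree e1 e2
      have f2 : g (s v) = s (s v) := (hv.conj ha hz s).agree e1 e2
      have f3 : s (s v) = v := hv (s * s) hsa hsz
      rw [map_mul, f1, f2, f3, mul_comm]
  refine ⟨key x hx, u * s u, key u hu, ?_⟩
  have f : c (s x) = s (c x) := hx.agree (g := c * s) (g' := s * c) h1 h2
  rw [map_mul, f, mul_pow, ← map_pow, ← hxu, map_mul]
  ring

theorem core (hFg : FgS) (hVal : ValS) (hSz : SfzS) (hSk : SfkS) (hL : LceS) (ha : a ^ 2 = 29)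
    (hz : IsPrimitiveRoot z 5) {s c : GQ} (hsa : s a = -a) (hsz : s z = z) (hca : c a = a)
    (hcz : c z = z ^ 4) {y u : Qb} (hy : y ≠ 0) (hx : FN a z (y ^ 5)) (hu : FN a z u)
    (hxu : y ^ 5 * c (y ^ 5) = u ^ 5)
    (hV : ∀ (g : GQ) (l : ℕ) [Fact l.Prime], l ≠ 5 → l ≠ 13 → l ≠ 659 → ∀ ι : Qb →+* Om l,
      NVal ι (y * g y))
    (ι : Qb →+* Om 5) (hι : ‖ι a - 3‖ < 1)
    (hD : ∀ γ : Gl 5, γ (ι z) = ι z → ∃ g : GQ, Cmp ι g γ ∧ g a = a ∧ g y = y) :
    FN a z (y ^ 2) := by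
  have h16 := pow4 hz
  have hne : ∀ g : GQ, y * g y ≠ 0 := fun g => mul_ne_zero hy (by simpa using hy)
  have hpw : ∀ g : GQ, y ^ 5 * g (y ^ 5) = (y * g y) ^ 5 := fun g => by rw [map_pow, mul_pow]
  have hN5 : ∀ (g : GQ) (b : Qb), y ^ 5 * g (y ^ 5) ∈ ℚ⟮b⟯ → ∀ (l : ℕ) [Fact l.Prime], l ≠ 5 →
      l ≠ 13 → l ≠ 659 → ∀ ι : Qb →+* Om l, N5 ℚ⟮b⟯ ι (y ^ 5 * g (y ^ 5)) := by
    intro g b hb l _ l1 l2 l3 ι'
    have : FiniteDimensional ℚ ℚ⟮b⟯ :=
      IntermediateField.adjoin.finiteDimensional (Algebra.IsIntegral.isIntegral b)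
    exact (hVal ℚ⟮b⟯).2.1 l ι' _ hb _ (hne g) (by rw [hpw, map_pow, norm_pow])
      (hV g l l1 l2 l3 ι')
  -- the part in `ℚ(z)`
  obtain ⟨m1, n1⟩ := half (b := z) (s := s) (c := c) hFg ha hz (by simp [hsa]) (by simp [hsz])
    (by simp [hsa, hca]) (by simp [hsz, hcz])
    (fun g hg => by
      rcases a_cases ha g with h | h
      · exact Or.inl ⟨h, hg⟩
      · exact Or.inr ⟨by rw [h, hsa], by rw [hg, hsz]⟩) hx hu hxu
  obtain ⟨i, t1, ht1, e1⟩ := hSz z hz c hcz _ m1 (by rw [hpw]; exact pow_ne_zero _ (hne s)) n1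
    (fun l _ hl ι' => hN5 s z m1 l (by omega) (by omega) (by omega) ι')
  -- the part in the quartic field
  have hta : (s * c) a = -a := by rw [AlgEquiv.mul_apply, hca, hsa]
  have htz : (s * c) z = z ^ 4 := by rw [AlgEquiv.mul_apply, hcz, map_pow, hsz]
  obtain ⟨m2, n2⟩ := half (b := bK a z) (s := s * c) (c := c) hFg ha hz
    (by rw [hta, map_neg, hta, neg_neg]) (by rw [htz, map_pow, htz, h16])
    (by rw [hta, hca, hta, map_neg, hca]) (by rw [htz, hcz, map_pow, map_pow, hcz, htz])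
    (fun g hg => by
      rcases bK_cases ha hz g hg with h | h
      · exact Or.inl h
      · exact Or.inr ⟨by rw [h.1, hta], by rw [h.2, htz]⟩) hx hu hxu
  obtain ⟨j, k, t2, ht2, e2⟩ := hSk a z ha hz c hca hcz _ m2
    (by rw [hpw]; exact pow_ne_zero _ (hne _)) n2 (hN5 (s * c) _ m2)
  set A := pK a z / pK a (z ^ 4) with hA
  set B := pK a (z ^ 2) / pK a (z ^ 3) with hB
  have fz : FN a z z := fun g _ h => h
  have fp : ∀ r : ℕ, FN a z (pK a (z ^ r)) := fun r g h1 h2 => by rw [map_pK, map_pow, h1, h2]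
  have fA : FN a z A := FN.div (by simpa using fp 1) (fp 4)
  have fB : FN a z B := (fp 2).div (fp 3)
  have f1 : FN a z t1 := fun g _ h => fix_of_mem ht1 g h
  have f2 : FN a z t2 := fun g h1 h2 => fix_of_mem ht2 g (by rw [map_bK, h1, h2])
  have hu0 : u ≠ 0 := fun h0 => by
    rw [hpw, h0] at hxu
    exact pow_ne_zero 5 (hne c) (by rw [hxu]; norm_num)
  have hsu : s u ≠ 0 := by simpa using hu0
  have t10 : t1 ≠ 0 := fun h0 => by
    rw [hpw, h0] at e1
    exact pow_ne_zero 5 (hne s) (by rw [e1]; norm_num)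
  have t20 : t2 ≠ 0 := fun h0 => by
    rw [hpw, h0] at e2
    exact pow_ne_zero 5 (hne _) (by rw [e2]; norm_num)
  have fT : FN a z (s u / (t1 * t2)) := (hu.conj ha hz s).div (f1.mul f2)
  have hs5 : s (y ^ 5) * (s * c) (y ^ 5) = s u ^ 5 := by
    rw [AlgEquiv.mul_apply, ← map_mul, hxu, map_pow]
  have hY : (y ^ 2 * (s u / (t1 * t2))) ^ 5 = z ^ i * A ^ j * B ^ k := by
    have e3 : (y ^ 2) ^ 5 * s u ^ 5 = (z ^ i * t1 ^ 5) * (A ^ j * B ^ k * t2 ^ 5) := by
      rw [← e1, ← e2, ← hs5]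
      ring
    rw [mul_pow, div_pow, ← mul_div_assoc, e3]
    field_simp
  obtain ⟨⟨i, rfl⟩, ⟨j, rfl⟩, ⟨k, rfl⟩⟩ := hL (ι a) (ι z) (by rw [← map_pow, ha, map_ofNat]) hι
    (hz.map_of_injective ι.injective) i j k (ι (y ^ 2 * (s u / (t1 * t2))))
    (fun γ hγ => by
      obtain ⟨g, hg, g1, g2⟩ := hD γ hγ
      have g3 : g z = z := ι.injective ((hg z).trans hγ)
      rw [← hg, map_mul g, map_pow g, g2, fT g g1 g3])
    (by
      rw [← map_pow, hY, hA, hB]
      simp only [map_mul, map_pow, map_div₀, map_pK])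
  have hW : (z ^ i * A ^ j * B ^ k) ≠ 0 := fun h0 => by
    have e : (y ^ 2 * (s u / (t1 * t2))) ^ 5 = (z ^ i * A ^ j * B ^ k) ^ 5 := by
      rw [hY]
      ring
    rw [h0] at e
    exact pow_ne_zero 5 (mul_ne_zero (pow_ne_zero 2 hy) (div_ne_zero hsu (mul_ne_zero t10 t20)))
      (by rw [e]; norm_num)
  have hr : (y ^ 2 * (s u / (t1 * t2)) / (z ^ i * A ^ j * B ^ k)) ^ 5 = 1 := by
    rw [div_pow, hY, div_eq_one_iff_eq (pow_ne_zero 5 hW)]
    ring
  obtain ⟨r, -, er⟩ := hz.eq_pow_of_pow_eq_one hr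
  have e : y ^ 2 = z ^ r * (z ^ i * A ^ j * B ^ k) / (s u / (t1 * t2)) := by
    rw [er, div_mul_cancel₀ _ hW,
      mul_div_cancel_right₀ _ (div_ne_zero hsu (mul_ne_zero t10 t20))]
  rw [e]
  exact ((fz.pow r).mul (((fz.pow i).mul (fA.pow j)).mul (fB.pow k))).div fT

theorem pow_val_eq_one (hz : IsPrimitiveRoot z 5) {t : F5} (h : z ^ t.val = 1) : t = 0 := by
  have h1 := (hz.pow_eq_one_iff_dvd _).1 h
  have h2 := ZMod.val_lt t
  exact (ZMod.val_eq_zero t).1 (by omega)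

theorem norm_unit (hE : EmbS) {l : ℕ} [Fact l.Prime] (ι : Qb →+* Om l) {y : Qb} (hy : AUnit y)
    (g : GQ) : ‖ι (g y)‖ = 1 := by
  have h1 := hE.2.2.2.2.2.2.1 l (ι.comp (g : Qb →+* Qb)) y hy.2.1
  have h2 := hE.2.2.2.2.2.2.1 l (ι.comp (g : Qb →+* Qb)) y⁻¹ hy.2.2
  have h0 : 0 < ‖(ι.comp (g : Qb →+* Qb)) y‖ := norm_pos_iff.2 (by simpa using hy.1)
  rw [map_inv₀, norm_inv, inv_le_one₀ h0] at h2
  exact le_antisymm h1 h2

theorem eta_cases (u v : F5) (hu : u ≠ 0) (hv : v ≠ 0) (j : ℕ) (hj : j = 0 ∨ j = 2) :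
    (u * v ^ 3) ^ j ≠ 0 ∧ (u * v = 1 → u * v * (u * v ^ 3) ^ j = 1) ∧
      (u * v = 4 → u * v * (u * v ^ 3) ^ j = 4) := by
  rcases hj with rfl | rfl <;> revert u v <;> decide

end TGe

open TGe in
theorem geS (hCh : ChS) (hFg : FgS) (hE : EmbS) (hKd : KdS) (hVal : ValS) (hL : LceS)
    (hSz : SfzS) (hSk : SfkS) (hI : IdxS) (hC : C5S) (hV : VS) : GeS := by
  intro d ι hι n hn j hj c hc hco hD
  obtain ⟨y0, hy0, hk0⟩ := hc
  obtain ⟨hm, hnz, hl1, -, -, -⟩ := hCh GQ d.ρ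
  obtain ⟨hDg, hDs⟩ := hC.2.2.2.1 d ι
  have hz := d.hz
  have hlg : ∀ h ∈ lev d.ρ n, h ∈ gam d.ρ ∧ om d.ρ h = 1 := fun h hh => by
    obtain ⟨g1, g2, g3⟩ := (hl1 h).1 (lev_anti d.ρ hn hh)
    exact ⟨g1, by rw [om, g2, g3, mul_one]⟩
  have hom : ∀ g ∈ gam d.ρ, g d.z = d.z → om d.ρ g = 1 := fun g hg e => by
    have h1 : d.z ^ (om d.ρ g).val = d.z ^ 1 := by rw [← d.act_z g hg, e, pow_one]
    have h2 := hz.pow_inj (ZMod.val_lt _) (by norm_num) h1
    exact ZMod.val_injective 5 h2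
  have he : ∀ g ∈ gam d.ρ, _ := fun g hg =>
    eta_cases (ph1 d.ρ g) (ph2 d.ρ g) (hnz g hg).1 (hnz g hg).2 j hj
  obtain ⟨y, hy, hK1, hK2⟩ := hKd ℚ Qb (gam d.ρ) (om d.ρ) (fun g => rb d.ρ g ^ j) c d.z hz d.act_z
    (fun g hg => (he g hg).1)
    (fun g hg h hh => by
      simp only [rb, (hm g hg h hh).1, (hm g hg h hh).2]
      ring) hco
    (by
      obtain ⟨S, hS⟩ := d.opn_lev n
      refine ⟨MulAction.stabilizer GQ y0 ⊓ lev d.ρ n, ⟨insert y0 S, fun g hg =>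
        ⟨hg y0 (Finset.mem_insert_self _ _), hS g fun x hx => hg x (Finset.mem_insert_of_mem hx)⟩⟩,
        fun g _ hg => pow_val_eq_one hz (mul_right_cancel₀ hy0.1 ?_)⟩
      rw [← hk0 g hg.2, one_mul]
      exact hg.1)
  have hN : ∀ g ∈ gam d.ρ, om d.ρ g = 1 → g y = d.z ^ (c g).val * y := fun g hg e => by
    have h := hK1 g hg ((he g hg).2.1 e)
    rwa [e, one_mul] at h
  have hN' : ∀ g : GQ, g d.a = d.a → g d.z = d.z → g y = d.z ^ (c g).val * y := fun g h1 h2 =>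
    hN g ((d.mem_gam g).2 h1) (hom g ((d.mem_gam g).2 h1) h2)
  -- automorphisms with prescribed action on `a` and `z`
  have hex : ∀ k : ℕ, k < 5 → k ≠ 0 → ∃ g ∈ gam d.ρ, om d.ρ g = k ∧ g d.z = d.z ^ k := by
    intro k hk hk0'
    have hv : ((k : F5)).val = k := ZMod.val_cast_of_lt hk
    obtain ⟨g, hg, g1, g2⟩ := hDs k 1 (fun h0 => hk0' (by rw [← hv, h0, ZMod.val_zero])) one_ne_zero
    have e : om d.ρ g = k := by rw [om, g1, g2, mul_one]
    exact ⟨g, hDg hg, e, by rw [d.act_z g (hDg hg), e, hv]⟩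
  obtain ⟨c0, hc0, oc0, zc0⟩ := hex 4 (by norm_num) (by norm_num)
  obtain ⟨s0, hs0⟩ := (hI d).2.2.2.1
  obtain ⟨k, hk, hk0', ek⟩ := z_cases hz s0
  obtain ⟨δ, hδ, -, zδ⟩ := hex k hk hk0'
  have aδ : δ⁻¹ d.a = d.a := (d.mem_gam _).1 (inv_mem hδ)
  obtain ⟨t, -, ht, et⟩ := hK2 c0 hc0
  have hx : FN d.a d.z (y ^ 5) := fun g h1 h2 => by
    rw [map_pow, hN' g h1 h2, mul_pow, ← pow_mul, mul_comm _ 5, pow_mul, hz.pow_eq_one, one_pow,
      one_mul]
  have ft : FN d.a d.z t := fun g h1 h2 =>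
    ht g ((d.mem_gam g).2 h1) ((he g ((d.mem_gam g).2 h1)).2.1 (hom g ((d.mem_gam g).2 h1) h2))
  have e4 : (om d.ρ c0 * rb d.ρ c0 ^ j).val = 4 := by
    have h := (he c0 hc0).2.2 oc0
    have h' : om d.ρ c0 * rb d.ρ c0 ^ j = 4 := h
    rw [h']
    rfl
  have hw : ∀ h ∈ lev d.ρ n, h (y / y0) = y / y0 := fun h hh => by
    rw [map_div₀, hN h (hlg h hh).1 (hlg h hh).2, hk0 h hh,
      mul_div_mul_left _ _ (pow_ne_zero _ (hz.ne_zero (by norm_num)))]
  have h2 : FN d.a d.z (y ^ 2) := by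
    refine core (s := δ⁻¹ * s0) (c := c0) (u := y ^ 5 * t) hFg hVal hSz hSk hL d.ha hz
      (by rw [AlgEquiv.mul_apply, hs0, map_neg, aδ])
      (by rw [AlgEquiv.mul_apply, ek, ← zδ, inv_app]) ((d.mem_gam _).1 hc0) zc0 hy hx (hx.mul ft)
      (by
        rw [et]
        simp only [e4]
        ring) ?_ ι hι ?_
    · intro g l _ l1 l2 l3 ι'
      have hw0 : y / y0 ≠ 0 := div_ne_zero hy hy0.1
      obtain ⟨m, hm5, r, hr⟩ := hV d l l1 l2 l3 ι' n (y / y0 * g (y / y0))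
        (mul_ne_zero hw0 (by simpa using hw0)) (fun h hh => by
          have h1 := hw _ ((lev_normal d.ρ n).conj_mem' h hh.1 g)
          rw [AlgEquiv.mul_apply, AlgEquiv.mul_apply] at h1
          rw [map_mul, hw h hh.1, ← app_inv g (h (g (y / y0))), h1])
      refine ⟨m, hm5, r, ?_⟩
      have u1 := norm_unit hE ι' hy0 1
      have u2 := norm_unit hE ι' hy0 g
      rw [AlgEquiv.one_apply] at u1
      rw [← hr]
      simp only [map_mul, map_div₀, norm_mul, norm_div, u1, u2, div_one]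
    · intro γ hγ
      obtain ⟨res, hres, -, -⟩ := hE.2.2.1 5 ι
      have hd : res γ ∈ Dec ι := ⟨γ, hres γ⟩
      have g1 : res γ d.a = d.a := (d.mem_gam _).1 (hDg hd)
      have g3 : res γ d.z = d.z := ι.injective ((hres γ _).trans hγ)
      exact ⟨res γ, hres γ, g1, by rw [hN' _ g1 g3, hD _ hd, ZMod.val_zero, pow_zero, one_mul]⟩
  have hcN : ∀ g ∈ gam d.ρ, om d.ρ g = 1 → c g = 0 := fun g hg e => by
    have g3 : g d.z = d.z := by
      rw [d.act_z g hg, e]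
      exact pow_one _
    have h := h2 g ((d.mem_gam g).1 hg) g3
    rw [map_pow, hN g hg e, mul_pow, sq (d.z ^ _), ← pow_val_add hz.pow_eq_one] at h
    have h0 : c g + c g = 0 :=
      pow_val_eq_one hz (mul_right_cancel₀ (pow_ne_zero 2 hy) (h.trans (one_mul _).symm))
    revert h0
    generalize c g = w
    revert w
    decide
  intro g hg
  obtain ⟨δ', hδ', p1, p2⟩ := hDs _ _ (hnz g hg).1 (hnz g hg).2
  have hh : g * δ'⁻¹ ∈ gam d.ρ := mul_mem hg (inv_mem (hDg hδ'))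
  have q := hm _ hh _ (hDg hδ')
  rw [inv_mul_cancel_right, p1, p2] at q
  have q1 : ph1 d.ρ (g * δ'⁻¹) = 1 :=
    mul_right_cancel₀ (hnz g hg).1 (q.1.symm.trans (one_mul _).symm)
  have q2 : ph2 d.ρ (g * δ'⁻¹) = 1 :=
    mul_right_cancel₀ (hnz g hg).2 (q.2.symm.trans (one_mul _).symm)
  have e := hco _ hh _ (hDg hδ')
  rw [inv_mul_cancel_right, hcN _ hh (by rw [om, q1, q2, mul_one]), hD _ hδ', zero_mul,
    add_zero] at e
  exact e

end Pool.Agent.Lib.MP_54db3e_nt
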