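import Pool.Agent.Lib.MP_54db3e_nt.H79Fld
import Pool.Agent.Lib.MP_54db3e_nt.H79GO

/-!
The odd weights.
-/

open scoped Classical
open NumberField IntermediateField

noncomputable section

namespace Pool.Agent.Lib.MP_54db3e_nt

namespace TGo

open H79

theorem eq_zero_of_pow {z y : Qb} (hz : IsPrimitiveRoot z 5) (hy : y ≠ 0) {s : F5}
    (h : y = z ^ s.val * y) : s = 0 := by
  have h1 := (hz.pow_eq_one_iff_dvd _).1 (mul_left_injective₀ hy (h.symm.trans (one_mul y).symm))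
  exact (ZMod.val_eq_zero s).1 (Nat.eq_zero_of_dvd_of_lt h1 (ZMod.val_lt s))

theorem norm_unit (hE : EmbS) {l : ℕ} [Fact l.Prime] (ι : Qb →+* Om l) {y : Qb} (hy : AUnit y) :
    ‖ι y‖ = 1 := by
  have h1 := hE.2.2.2.2.2.2.1 l ι _ hy.2.1
  have h2 := hE.2.2.2.2.2.2.1 l ι _ hy.2.2
  rw [map_inv₀, norm_inv] at h2
  exact le_antisymm h1 ((inv_le_one₀ (by simpa using hy.1)).1 h2)

theorem main (hC : ChS) (hB : CobS) (hE : EmbS) (hK : KdS) (hV : ValS) (hI : IdxS) (h5 : C5S)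
    (hVS : VS) (d : Rep) (ι : Qb →+* Om 5) {n : ℕ} (hn : 1 ≤ n) {U : Subgroup GQ}
    (hU : U ≤ lev d.ρ n) (hrad : ∀ y, AUnit y → Fx (lev d.ρ n) (y ^ 5) → Fx U y)
    {τ φ : Fin 4 → GQ} (hτ : ∀ i, τ i ∈ lev d.ρ 1 ∧ φ i ∈ lev d.ρ 1) (hT : TameDet U d τ φ)
    (χ : GQ → F5) (χ0 : ∀ g ∈ gam d.ρ, χ g ≠ 0)
    (χm : ∀ g ∈ gam d.ρ, ∀ h ∈ gam d.ρ, χ (g * h) = χ g * χ h) (χ1 : ∀ g ∈ lev d.ρ 1, χ g = 1)
    (χ2 : ∃ g ∈ Dec ι, χ g ≠ 1) {r : Qb} (hr : r ^ 4 - 7 * r ^ 2 + 5 = 0)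
    (r1 : ∀ g : GQ, g r = r → g ∈ gam d.ρ ∧ om d.ρ g * χ g = 1)
    (r2 : ∀ g ∈ gam d.ρ, ph1 d.ρ g = 2 → ph2 d.ρ g = 2 → g r = -r ∧ om d.ρ g * χ g = 4)
    (r3 : ∀ g ∈ lev d.ρ 1, g r = r) {c : GQ → F5} (hc : c ∈ d.UT n) (hcc : Coc χ (gam d.ρ) c)
    (hD : ∀ g ∈ Dec ι, c g = 0) (hcτ : ∀ i, c (τ i) = 0) (hcφ : c (φ 0) = 0) :
    ∀ g ∈ gam d.ρ, c g = 0 := by
  obtain ⟨y0, hy0, hκ⟩ := hc
  have hz := d.hz
  have := alg
  have l1 : lev d.ρ n ≤ lev d.ρ 1 := lev_anti _ hn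
  have lg : lev d.ρ 1 ≤ gam d.ρ := lev_le_gam _ le_rfl
  have om1 : ∀ g ∈ lev d.ρ 1, om d.ρ g = 1 := fun g hg => by
    obtain ⟨-, h1, h2⟩ := ((hC GQ d.ρ).2.2.1 g).1 hg
    rw [om, h1, h2, one_mul]
  obtain ⟨y, hy, k1, k2⟩ := hK ℚ Qb (gam d.ρ) (om d.ρ) χ c d.z hz d.act_z χ0 χm hcc (by
    obtain ⟨s, hs⟩ := d.opn_lev n
    refine ⟨lev d.ρ n ⊓ MulAction.stabilizer GQ y0, ⟨insert y0 s, fun g hg =>
      ⟨hs g fun x hx => hg x (Finset.mem_insert_of_mem hx), hg y0 (Finset.mem_insert_self _ _)⟩⟩,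
      fun g _ hg => eq_zero_of_pow hz hy0.1 ((hκ g hg.1).symm.trans hg.2).symm⟩)
  have k3 : ∀ h ∈ lev d.ρ 1, h y = d.z ^ (c h).val * y := fun h hh => by
    have := k1 h (lg hh) (by rw [om1 h hh, χ1 h hh, one_mul])
    rwa [om1 h hh, one_mul] at this
  have mem : ∀ t, (∀ h ∈ gam d.ρ, om d.ρ h * χ h = 1 → h t = t) → t ∈ ℚ⟮r⟯ := fun t ht =>
    mem_of_fixed fun g hg => ht g (r1 g hg).1 (r1 g hg).2
  have hx : y ^ 5 ∈ ℚ⟮r⟯ := mem _ fun h hh h1 => by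
    rw [map_pow, k1 h hh h1, mul_pow, ← pow_mul, mul_comm _ 5, pow_mul, hz.pow_eq_one, one_pow,
      one_mul]
  have hq : Fx (lev d.ρ n) (y / y0) := fun h hh => by
    rw [map_div₀, k3 h (l1 hh), hκ h hh, mul_div_mul_left _ _ (pow_ne_zero _ (hz.ne_zero (by
      norm_num)))]
  have hUy : Fx U y := fun h hh => by
    have h1 := hrad y0 hy0 (fun g hg => by
      rw [map_pow, hκ g hg, mul_pow, ← pow_mul, mul_comm _ 5, pow_mul, hz.pow_eq_one, one_pow,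
        one_mul]) h hh
    rw [← div_mul_cancel₀ y hy0.1, map_mul, hq h (hU hh), h1]
  have minus : ∀ ι' : Qb →+* Om 5, ∃ g ∈ Dec ι', g r = -r ∧ ∃ t ∈ ℚ⟮r⟯,
      g (y ^ 5) = (y ^ 5) ^ 4 * t ^ 5 := fun ι' => by
    obtain ⟨g, hg, e1, e2⟩ := (h5.2.2.2.1 d ι').2 2 2 (by decide) (by decide)
    have hg' := (h5.2.2.2.1 d ι').1 hg
    obtain ⟨t, -, t1, t2⟩ := k2 g hg'
    rw [(r2 g hg' e1 e2).2] at t2
    exact ⟨g, hg, (r2 g hg' e1 e2).1, t, mem t t1, t2⟩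
  have c1 : c 1 = 0 := hD 1 (one_mem _)
  have tame := hT.1 y hy hUy fun a ha i => by
    have h1 : a⁻¹ * τ i * a ∈ lev d.ρ 1 := (lev_normal d.ρ 1).conj_mem' _ (hτ i).1 a
    have h2 := hcc _ (inv_mem ha) a ha
    rw [inv_mul_cancel, c1] at h2
    have h3 : c (a⁻¹ * τ i * a) = 0 := by
      rw [hcc _ (mul_mem (inv_mem ha) (lg (hτ i).1)) a ha, hcc _ (inv_mem ha) _ (lg (hτ i).1),
        hcτ, χ1 _ (hτ i).1, mul_one, add_zero, ← h2]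
    have h4 := congrArg a (k3 _ h1)
    rw [h3, ZMod.val_zero, pow_zero, one_mul, ← AlgEquiv.mul_apply, ← mul_assoc, ← mul_assoc,
      mul_inv_cancel, one_mul] at h4
    exact h4
  have := fin_adjoin r
  have := nf_adjoin r
  have val : ∀ (l : ℕ) [Fact l.Prime] (ι' : Qb →+* Om l), N5 ℚ⟮r⟯ ι' (y ^ 5) := fun l hl ι' => by
    by_cases e5 : l = 5
    · subst e5
      obtain ⟨g, hg, -, t, ht, h⟩ := minus ι'
      exact (hV _).2.2.1 5 ι' _ hx (pow_ne_zero _ hy) g hg 4 (by norm_num) t ht h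
    refine (hV _).2.1 l ι' _ hx y hy (by rw [map_pow, norm_pow]) ?_
    by_cases e13 : l = 13
    · subst e13
      exact tame.1 ι'
    by_cases e659 : l = 659
    · subst e659
      exact tame.2 ι'
    obtain ⟨m, hm, k, hk⟩ := hVS d l e5 e13 e659 ι' n _ (div_ne_zero hy hy0.1)
      fun g hg => hq g hg.1
    rw [map_div₀, norm_div, norm_unit hE ι' hy0, div_one] at hk
    exact ⟨m, hm, k, hk⟩
  obtain ⟨ι9, h9⟩ := hT.2
  obtain ⟨g0, -, e0, t0, ht0, e1⟩ := minus ι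
  have mr := mem_adjoin_simple_self ℚ r
  obtain ⟨t, ht⟩ := go_end (K := ℚ⟮r⟯) (finrank_adjoin (minpoly_r hr)) (r := ⟨r, mr⟩)
    (Subtype.ext hr) (res g0 (e0 ▸ neg_mem mr)) (Subtype.ext e0) (Ω := Om 659) (by
      have h : ‖((659 : ℕ) : Om 659)‖ = ((659 : ℕ) : ℝ)⁻¹ := by
        rw [← Padic.norm_p, ← PadicAlgCl.norm_extends, map_natCast]
      push_cast at h
      rw [h]
      norm_num)
    (ι9.comp (algebraMap _ Qb)) (ι.comp (algebraMap _ Qb)) (x := ⟨y ^ 5, hx⟩)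
    (fun h => pow_ne_zero 5 hy (congrArg Subtype.val h))
    (fun l _ ι' => by
      obtain ⟨ι', rfl⟩ := exists_ext _ ι'
      exact div5_of (val l ι'))
    ⟨⟨y ^ 5 * t0, mul_mem hx ht0⟩, Subtype.ext (by
      change y ^ 5 * g0 (y ^ 5) = (y ^ 5 * t0) ^ 5
      rw [e1]
      ring)⟩
    ⟨ι y, mem_adjoin_of_fixed fun γ hγ => by
      obtain ⟨ρ, h1, -⟩ := hE.2.2.1 5 ι
      have h2 : ρ γ r = r := ι.injective ((h1 γ r).trans (hγ _ rfl))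
      rw [← h1 γ y, k1 _ (r1 _ h2).1 (r1 _ h2).2, hD _ ⟨γ, h1 γ⟩]
      simp, (map_pow ι y 5).symm⟩
    ⟨ι9 y, (map_pow ι9 y 5).symm, fun t h => by
      have h1 := h9 (y * t) (fun g hg => by
        rw [map_mul, hUy g hg, fix_adjoin g (r3 g (l1 (hU hg))) t.2]) (by
        rw [map_mul, k3 _ (hτ 0).2, hcφ, fix_adjoin _ (r3 _ (hτ 0).2) t.2]
        simp) (by rw [map_mul]; exact h)
      rw [map_sub, map_pow, map_mul, map_one] at h1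
      exact h1⟩
  have ht' : y ^ 5 = (t : Qb) ^ 5 := congrArg Subtype.val ht
  have t0 : (t : Qb) ≠ 0 := fun h => pow_ne_zero 5 hy (by rw [ht', h]; norm_num)
  obtain ⟨i, -, hi⟩ := hz.eq_pow_of_pow_eq_one (ξ := y / t) (by
    rw [div_pow, ht', div_self (pow_ne_zero _ t0)])
  obtain ⟨s, hs⟩ := hB GQ (gam d.ρ) (lev d.ρ 1) χ c lg
    (fun h => (hI d).1 (h.trans (Subgroup.relIndex_dvd_index_of_le lg))) χm χ1 hcc fun g hg => by
      refine eq_zero_of_pow hz hy ((k3 g hg).symm ▸ ?_)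
      rw [← div_mul_cancel₀ y t0, ← hi, map_mul, map_pow, d.act_z g (lg hg), om1 g hg,
        fix_adjoin g (r3 g hg) t.2, ZMod.val_one, pow_one]
  obtain ⟨g1, hg1, e2⟩ := χ2
  have h1 := hs g1 ((h5.2.2.2.1 d ι).1 hg1)
  rw [hD g1 hg1] at h1
  intro g hg
  rw [hs g hg, (mul_eq_zero.1 h1.symm).resolve_right (sub_ne_zero.2 e2), zero_mul]

end TGo

theorem goS (hC : ChS) (hB : CobS) (hE : EmbS) (hK : KdS) (hV : ValS) (hI : IdxS) (h5 : C5S)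
    (hVS : VS) : GoS := by
  intro d ι _ n hn U _ hU hrad τ φ hτ hT j hj c hc hcc hD hcτ hcφ
  obtain ⟨m1, m2, m3, -⟩ := hC GQ d.ρ
  have χ0 : ∀ g ∈ gam d.ρ, rb d.ρ g ^ j ≠ 0 := fun g hg =>
    pow_ne_zero _ (mul_ne_zero (m2 g hg).1 (pow_ne_zero _ (m2 g hg).2))
  have χm : ∀ g ∈ gam d.ρ, ∀ h ∈ gam d.ρ, rb d.ρ (g * h) ^ j = rb d.ρ g ^ j * rb d.ρ h ^ j :=
    fun g hg h hh => by
      simp only [rb, (m1 g hg h hh).1, (m1 g hg h hh).2]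
      ring
  have χ1 : ∀ g ∈ lev d.ρ 1, rb d.ρ g ^ j = 1 := fun g hg => by
    simp [rb, ((m3 g).1 hg).2.1, ((m3 g).1 hg).2.2]
  have χ2 : ∃ g ∈ Dec ι, rb d.ρ g ^ j ≠ 1 := by
    obtain ⟨g, hg, e1, e2⟩ := (h5.2.2.2.1 d ι).2 2 1 (by decide) (by decide)
    refine ⟨g, hg, ?_⟩
    rw [rb, e1, e2]
    rcases hj with rfl | rfl <;> decide
  have ne : ∀ r : Qb, r ^ 4 - 7 * r ^ 2 + 5 = 0 → r ≠ -r := fun r hr h => by
    rw [self_eq_neg.1 h] at hr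
    norm_num at hr
  have ha := d.ha
  rcases hj with rfl | rfl
  · have h1 := d.hr1
    have hr : d.r1 ^ 4 - 7 * d.r1 ^ 2 + 5 = 0 := by
      linear_combination (d.r1 ^ 2 - (7 + d.a) / 2) * h1 + ha / 4
    refine TGo.main hC hB hE hK hV hI h5 hVS d ι hn hU hrad hτ hT _ χ0 χm χ1 χ2 hr
      (fun g hg => ?_) (fun g hg e1 e2 => ?_) (fun g hg => ?_) hc hcc hD hcτ hcφ
    · have h2 : g ∈ gam d.ρ := (d.mem_gam g).2 (by
        rw [show d.a = 7 - 2 * d.r1 ^ 2 by linear_combination 2 * h1]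
        simp [hg, map_ofNat])
      have h3 := d.act_r1 g h2
      rw [hg] at h3
      have h4 : ∀ u v : F5, v ≠ 0 → u ^ 2 = 1 → u * v * (u * v ^ 3) ^ 1 = 1 := by decide
      exact ⟨h2, h4 _ _ (m2 g h2).2 (by_contra fun h => ne _ hr (by rwa [if_neg h] at h3))⟩
    · rw [d.act_r1 g hg, om, rb, e1, e2, if_neg (by decide)]
      exact ⟨rfl, by decide⟩
    · rw [d.act_r1 g ((m3 g).1 hg).1, ((m3 g).1 hg).2.1, if_pos (one_pow 2)]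
  · have h1 := d.hr2
    have hr : d.r2 ^ 4 - 7 * d.r2 ^ 2 + 5 = 0 := by
      linear_combination (d.r2 ^ 2 - (7 - d.a) / 2) * h1 + ha / 4
    refine TGo.main hC hB hE hK hV hI h5 hVS d ι hn hU hrad hτ hT _ χ0 χm χ1 χ2 hr
      (fun g hg => ?_) (fun g hg e1 e2 => ?_) (fun g hg => ?_) hc hcc hD hcτ hcφ
    · have h2 : g ∈ gam d.ρ := (d.mem_gam g).2 (by
        rw [show d.a = 2 * d.r2 ^ 2 - 7 by linear_combination -2 * h1]
        simp [hg, map_ofNat])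
      have h3 := d.act_r2 g h2
      rw [hg] at h3
      have h4 : ∀ u v : F5, u ≠ 0 → v ^ 2 = 1 → u * v * (u * v ^ 3) ^ 3 = 1 := by decide
      exact ⟨h2, h4 _ _ (m2 g h2).1 (by_contra fun h => ne _ hr (by rwa [if_neg h] at h3))⟩
    · rw [d.act_r2 g hg, om, rb, e1, e2, if_neg (by decide)]
      exact ⟨rfl, by decide⟩
    · rw [d.act_r2 g ((m3 g).1 hg).1, ((m3 g).1 hg).2.2, if_pos (one_pow 2)]

end Pool.Agent.Lib.MP_54db3e_nt
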