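import Pool.Agent.Lib.MP_54db3e_nt.Stmt

/-!
Indices of the congruence subgroups and the scalar element of order four.
-/

open scoped Classical

noncomputable section

namespace Pool.Agent.Lib.MP_54db3e_nt

namespace TGrp

/-- a relative index counted through a complete invariant of the cosets -/
theorem relIndex_eq {G X : Type} [Group G] (H K : Subgroup G) (f : G → X) (T : Set X)
    (h1 : ∀ g ∈ K, ∀ h ∈ K, f g = f h ↔ g⁻¹ * h ∈ H) (h2 : ∀ g ∈ K, f g ∈ T)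
    (h3 : ∀ x ∈ T, ∃ g ∈ K, f g = x) : H.relIndex K = T.ncard := by
  let F : K ⧸ H.subgroupOf K → T := fun q => Quotient.liftOn' q (fun g => ⟨f g.1, h2 g.1 g.2⟩)
    fun a b hab => Subtype.ext ((h1 a.1 a.2 b.1 b.2).2
      (Subgroup.mem_subgroupOf.1 ((QuotientGroup.leftRel_apply (s := H.subgroupOf K)).1 hab)))
  refine Nat.card_eq_of_bijective F ⟨fun a b hab => ?_, fun x => ?_⟩
  · obtain ⟨a, rfl⟩ := QuotientGroup.mk_surjective a
    obtain ⟨b, rfl⟩ := QuotientGroup.mk_surjective b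
    exact QuotientGroup.eq.2
      (Subgroup.mem_subgroupOf.2 ((h1 a.1 a.2 b.1 b.2).1 (congrArg Subtype.val hab)))
  · obtain ⟨g, hg, e⟩ := h3 x.1 x.2
    exact ⟨QuotientGroup.mk ⟨g, hg⟩, Subtype.ext e⟩

theorem red_eq (n : ℕ) (a b : ℤ_[5]) :
    PadicInt.toZModPow n a = PadicInt.toZModPow n b ↔ (5 : ℤ_[5]) ^ n ∣ a - b := by
  rw [← sub_eq_zero, ← map_sub, ← RingHom.mem_ker, PadicInt.ker_toZModPow,
    Ideal.mem_span_singleton]
  rfl

theorem not_unit (a : ℤ_[5]) : ¬ IsUnit a ↔ (5 : ℤ_[5]) ∣ a := by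
  rw [PadicInt.not_isUnit_iff, PadicInt.norm_lt_one_iff_dvd]
  rfl

theorem nontriv (m : ℕ) : Nontrivial (ZMod (5 ^ (m + 1))) :=
  ZMod.nontrivial_iff.2 (Nat.one_lt_pow (by omega) (by norm_num)).ne'

theorem red_unit (m : ℕ) (a : ℤ_[5]) : IsUnit (PadicInt.toZModPow (m + 1) a) ↔ IsUnit a := by
  refine ⟨fun h => ?_, fun h => h.map _⟩
  by_contra hn
  have := nontriv m
  have h1 : PadicInt.toZModPow (m + 1) (a ^ (m + 1)) = PadicInt.toZModPow (m + 1) 0 := by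
    rw [red_eq, sub_zero]
    exact pow_dvd_pow_of_dvd ((not_unit a).1 hn) _
  rw [map_pow, map_zero] at h1
  exact not_isUnit_zero (h1 ▸ h.pow (m + 1))

theorem card_unit (m : ℕ) : {x : ZMod (5 ^ (m + 1)) | IsUnit x}.ncard = 4 * 5 ^ m := by
  have h1 : {x : ZMod (5 ^ (m + 1)) | IsUnit x} = Set.range Units.val := rfl
  rw [h1, Set.ncard_range_of_injective Units.val_injective, Nat.card_eq_fintype_card,
    ZMod.card_units_eq_totient, Nat.totient_prime_pow_succ (by norm_num), mul_comm]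

theorem card_nonunit (m : ℕ) : {x : ZMod (5 ^ (m + 1)) | IsUnit x}ᶜ.ncard = 5 ^ m := by
  have h := Set.ncard_add_ncard_compl {x : ZMod (5 ^ (m + 1)) | IsUnit x}
  rw [card_unit, Nat.card_zmod] at h
  have e : 5 ^ (m + 1) = 5 ^ m * 5 := pow_succ _ _
  omega

theorem exists_i : ∃ c : ℤ_[5], c ^ 2 = -1 := by
  have h5 : ‖(5 : ℤ_[5])‖ < 1 := PadicInt.not_isUnit_iff.1 ((not_unit 5).2 dvd_rfl)
  have h4 : ‖(4 : ℤ_[5])‖ = 1 := by
    refine PadicInt.isUnit_iff.1 ?_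
    by_contra hn
    have h1 : (5 : ℤ_[5]) ∣ 1 := by
      have := dvd_sub (dvd_refl (5 : ℤ_[5])) ((not_unit 4).1 hn)
      rwa [show (5 : ℤ_[5]) - 4 = 1 by norm_num] at this
    exact (not_unit 1).2 h1 isUnit_one
  obtain ⟨z, hz, -⟩ := hensels_lemma (F := (Polynomial.X ^ 2 + 1 : Polynomial ℤ_[5])) (a := 2) (by
    have e1 : Polynomial.aeval (2 : ℤ_[5]) (Polynomial.X ^ 2 + 1 : Polynomial ℤ_[5]) = 5 := by
      simp; norm_num
    have e2 : Polynomial.aeval (2 : ℤ_[5])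
        (Polynomial.derivative (Polynomial.X ^ 2 + 1 : Polynomial ℤ_[5])) = 4 := by
      simp; norm_num
    rw [e1, e2, h4, one_pow]
    exact h5)
  exact ⟨z, eq_neg_of_add_eq_zero_left (by simpa using hz)⟩

variable {G : Type} [Group G] (ρ : G →* M2)

theorem mc_iff (n : ℕ) (g h : G) : MC n (ρ g) (ρ h) ↔ g⁻¹ * h ∈ lev ρ n := by
  rw [mem_lev, map_mul]
  constructor
  · intro H
    have := MC.mul (MC.refl n (ρ g⁻¹)) H
    rw [rho_inv_mul] at this
    exact this.symm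
  · intro H
    have := MC.mul (MC.refl n (ρ g)) H
    rw [← mul_assoc, rho_mul_inv, one_mul, mul_one] at this
    exact this.symm

theorem unit_diag {g : G} (hg : g ∈ gam ρ) : IsUnit (ρ g 0 0) ∧ IsUnit (ρ g 1 1) := by
  rw [← IsUnit.mul_iff]
  by_contra hn
  refine (not_unit _).2 ?_ (isUnit_det_rho ρ g)
  rw [Matrix.det_fin_two]
  exact ((not_unit _).1 hn).sub (hg.1.mul_right _)

theorem dvd_of_mc {m : ℕ} {A B : M2} (h : MC (m + 1) A B) (i j : Fin 2) :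
    (5 : ℤ_[5]) ∣ A i j - B i j := (dvd_pow_self _ (Nat.succ_ne_zero m)).trans (h i j)

theorem idx_lev (hρ : Dens ρ) (m : ℕ) :
    (lev ρ (m + 1)).relIndex (gam ρ) = 16 * 5 ^ (4 * m) := by
  set U : Set (ZMod (5 ^ (m + 1))) := {x | IsUnit x} with hU
  rw [relIndex_eq (lev ρ (m + 1)) (gam ρ)
    (fun g => (PadicInt.toZModPow (m + 1) (ρ g 0 0), PadicInt.toZModPow (m + 1) (ρ g 1 1),
      PadicInt.toZModPow (m + 1) (ρ g 0 1), PadicInt.toZModPow (m + 1) (ρ g 1 0)))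
    (U ×ˢ U ×ˢ Uᶜ ×ˢ Uᶜ)]
  · rw [Set.ncard_prod, Set.ncard_prod, Set.ncard_prod, card_unit, card_nonunit]
    ring
  · intro g _ h _
    rw [← mc_iff]
    simp only [Prod.mk.injEq, red_eq, MC, Fin.forall_fin_two]
    tauto
  · intro g hg
    exact ⟨(red_unit m _).2 (unit_diag ρ hg).1, (red_unit m _).2 (unit_diag ρ hg).2,
      fun h => (not_unit _).2 hg.1 ((red_unit m _).1 h),
      fun h => (not_unit _).2 hg.2 ((red_unit m _).1 h)⟩
  · rintro ⟨a, d, b, c⟩ ⟨ha, hd, hb, hc⟩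
    obtain ⟨a, rfl⟩ := ZMod.ringHom_surjective (PadicInt.toZModPow (p := 5) (m + 1)) a
    obtain ⟨b, rfl⟩ := ZMod.ringHom_surjective (PadicInt.toZModPow (p := 5) (m + 1)) b
    obtain ⟨c, rfl⟩ := ZMod.ringHom_surjective (PadicInt.toZModPow (p := 5) (m + 1)) c
    obtain ⟨d, rfl⟩ := ZMod.ringHom_surjective (PadicInt.toZModPow (p := 5) (m + 1)) d
    have hb' : (5 : ℤ_[5]) ∣ b := (not_unit b).1 fun h => hb ((red_unit m _).2 h)
    have hc' : (5 : ℤ_[5]) ∣ c := (not_unit c).1 fun h => hc ((red_unit m _).2 h)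
    obtain ⟨g, hg⟩ := hρ !![a, b; c, d] hb' hc' ((red_unit m _).1 ha) ((red_unit m _).1 hd) (m + 1)
    refine ⟨g, ⟨?_, ?_⟩, ?_⟩
    · simpa using (dvd_of_mc hg 0 1).add hb'
    · simpa using (dvd_of_mc hg 1 0).add hc'
    · exact Prod.ext ((red_eq _ _ _).2 (hg 0 0)) (Prod.ext ((red_eq _ _ _).2 (hg 1 1))
        (Prod.ext ((red_eq _ _ _).2 (hg 0 1)) ((red_eq _ _ _).2 (hg 1 0))))

theorem mc_pow {n : ℕ} {A : M2} {c : ℤ_[5]} (h : MC n A (c • (1 : M2))) (k : ℕ) :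
    MC n (A ^ k) (c ^ k • (1 : M2)) := by
  induction k with
  | zero => simpa using MC.refl n 1
  | succ k ih =>
    have := MC.mul ih h
    rwa [smul_mul_smul_comm, mul_one, ← pow_succ, ← pow_succ] at this

theorem root_four {c x : ℤ_[5]} (hc : c ^ 2 = -1) (hx : x ^ 4 = 1) : ∃ k < 4, x = c ^ k := by
  have h : (x - c ^ 0) * (x - c ^ 1) * (x - c ^ 2) * (x - c ^ 3) = 0 := by
    have h3 : c ^ 3 = -c := by rw [pow_succ, hc]; ring
    rw [h3, hc]
    linear_combination hx - (x ^ 2 - 1) * hc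
  rcases mul_eq_zero.1 h with h | h
  · rcases mul_eq_zero.1 h with h | h
    · rcases mul_eq_zero.1 h with h | h
      · exact ⟨0, by norm_num, sub_eq_zero.1 h⟩
      · exact ⟨1, by norm_num, sub_eq_zero.1 h⟩
    · exact ⟨2, by norm_num, sub_eq_zero.1 h⟩
  · exact ⟨3, by norm_num, sub_eq_zero.1 h⟩

theorem exists_z (hρ : Dens ρ) {c : ℤ_[5]} (hc : c ^ 2 = -1) (n : ℕ) :
    ∃ z, MC n (ρ z) (c • (1 : M2)) := by
  have hu : IsUnit c := IsUnit.of_mul_eq_one (-c) (by linear_combination -hc)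
  exact hρ _ (by simp) (by simp) (by simpa using hu) (by simpa using hu) n

theorem idx_zlev (hρ : Dens ρ) (m : ℕ) : (lev ρ (m + 1)).relIndex (zlev ρ (m + 1)) = 4 := by
  obtain ⟨c, hc⟩ := exists_i
  obtain ⟨z, hz⟩ := exists_z ρ hρ hc (m + 1)
  have hc4 : c ^ 4 = 1 := by rw [show 4 = 2 * 2 by rfl, pow_mul, hc]; norm_num
  set j := PadicInt.toZModPow (m + 1) c with hj
  have ho : orderOf j = 4 := by
    refine orderOf_eq_prime_pow (p := 2) (n := 1) (fun h => ?_) ?_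
    · rw [pow_one, hj, ← map_pow, hc, ← map_one (PadicInt.toZModPow (p := 5) (m + 1)),
        red_eq] at h
      have h5 : (5 : ℤ_[5]) ∣ -1 - 1 := (dvd_pow_self _ (Nat.succ_ne_zero m)).trans h
      have h1 : (5 : ℤ_[5]) ∣ 1 := by
        have := dvd_add (dvd_refl (5 : ℤ_[5])) (h5.mul_right 2)
        rwa [show (5 : ℤ_[5]) + (-1 - 1) * 2 = 1 by norm_num] at this
      exact (not_unit 1).2 h1 isUnit_one
    · rw [show 2 ^ (1 + 1) = 4 by rfl, hj, ← map_pow, hc4, map_one]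
  have hval : ∀ {g : G} {x : ℤ_[5]}, MC (m + 1) (ρ g) (x • (1 : M2)) →
      PadicInt.toZModPow (m + 1) (ρ g 0 0) = PadicInt.toZModPow (m + 1) x := by
    intro g x h
    rw [red_eq]
    simpa using h 0 0
  rw [relIndex_eq (lev ρ (m + 1)) (zlev ρ (m + 1))
    (fun g => PadicInt.toZModPow (m + 1) (ρ g 0 0)) ((fun k : ℕ => j ^ k) '' Set.Iio 4)]
  · rw [Set.InjOn.ncard_image (ho ▸ pow_injOn_Iio_orderOf), ← Finset.coe_range,
      Set.ncard_coe_finset, Finset.card_range]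
  · rintro g ⟨x, -, hx⟩ h ⟨y, -, hy⟩
    rw [← mc_iff]
    refine ⟨fun e => ?_, fun e => (red_eq _ _ _).2 (e 0 0)⟩
    rw [hval hx, hval hy, red_eq] at e
    refine hx.trans (MC.trans (fun a b => ?_) hy.symm)
    rw [Matrix.smul_apply, Matrix.smul_apply, smul_eq_mul, smul_eq_mul, ← sub_mul]
    exact e.mul_right _
  · rintro g ⟨x, hx4, hx⟩
    obtain ⟨k, hk, rfl⟩ := root_four hc hx4
    exact ⟨k, hk, by rw [hval hx, map_pow]⟩
  · rintro _ ⟨k, -, rfl⟩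
    have h1 : MC (m + 1) (ρ (z ^ k)) (c ^ k • (1 : M2)) := by
      rw [map_pow]
      exact mc_pow hz k
    exact ⟨z ^ k, ⟨c ^ k, by rw [← pow_mul, mul_comm, pow_mul, hc4, one_pow], h1⟩,
      by rw [hval h1, map_pow]⟩

theorem idx_slev (hρ : Dens ρ) (m : ℕ) : (slev ρ (m + 1)).relIndex (lev ρ 1) = 5 ^ m := by
  rw [relIndex_eq (slev ρ (m + 1)) (lev ρ 1)
    (fun g => PadicInt.toZModPow (m + 1) ((ρ g).det - 1))
    {x : ZMod (5 ^ (m + 1)) | IsUnit x}ᶜ, card_nonunit]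
  · intro g hg h hh
    have h1 : (ρ g⁻¹).det * (ρ g).det = 1 := by
      rw [← Matrix.det_mul, rho_inv_mul, Matrix.det_one]
    have e : (ρ (g⁻¹ * h)).det - 1 =
        -(ρ g⁻¹).det * ((ρ g).det - 1 - ((ρ h).det - 1)) := by
      rw [map_mul, Matrix.det_mul]
      linear_combination h1
    rw [red_eq, mem_slev, e, (isUnit_det_rho ρ g⁻¹).neg.dvd_mul_left]
    exact ⟨fun h' => ⟨mul_mem (inv_mem hg) hh, h'⟩, fun h' => h'.2⟩
  · intro g hg h
    have := MC.det hg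
    rw [pow_one, Matrix.det_one] at this
    exact (not_unit _).2 this ((red_unit m _).1 h)
  · intro x hx
    obtain ⟨x, rfl⟩ := ZMod.ringHom_surjective (PadicInt.toZModPow (p := 5) (m + 1)) x
    have hx' : (5 : ℤ_[5]) ∣ x := (not_unit x).1 fun h => hx ((red_unit m _).2 h)
    have hu : IsUnit (x + 1) := by
      by_contra hn
      have := dvd_sub ((not_unit _).1 hn) hx'
      rw [add_sub_cancel_left] at this
      exact (not_unit 1).2 this isUnit_one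
    obtain ⟨g, hg⟩ := hρ !![x + 1, 0; 0, 1] (by simp) (by simp) (by simpa using hu) (by simp)
      (m + 1)
    refine ⟨g, (hg.mono (Nat.le_add_left 1 m)).trans fun a b => ?_, ?_⟩
    · fin_cases a <;> fin_cases b <;> simp [hx']
    · have := MC.det hg
      rw [red_eq]
      rw [Matrix.det_fin_two_of] at this
      rwa [show (ρ g).det - 1 - x = (ρ g).det - ((x + 1) * 1 - 0 * 0) by ring]

end TGrp

theorem grpS (hch : ChS) : GrpS := by
  intro G _ ρ hρ n hn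
  obtain ⟨m, rfl⟩ : ∃ m, n = m + 1 := ⟨n - 1, by omega⟩
  rw [Nat.add_sub_cancel]
  refine ⟨TGrp.idx_lev ρ hρ m, ?_, ?_, ?_, (hch G ρ).2.2.2.2.2 m⟩
  · have h := Subgroup.relIndex_mul_relIndex (lev ρ (m + 1)) (zlev ρ (m + 1)) (gam ρ)
      (lev_le_zlev ρ _) (zlev_le_gam ρ hn)
    rw [TGrp.idx_lev ρ hρ, TGrp.idx_zlev ρ hρ] at h
    omega
  · have h := Subgroup.relIndex_mul_relIndex (slev ρ (m + 1)) (lev ρ 1) (gam ρ)
      (fun _ hg => hg.1) (lev_le_gam ρ le_rfl)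
    rw [TGrp.idx_slev ρ hρ, TGrp.idx_lev ρ hρ 0] at h
    omega
  · obtain ⟨c, hc⟩ := TGrp.exists_i
    obtain ⟨z₀, hz⟩ := TGrp.exists_z ρ hρ hc (m + 1)
    refine ⟨z₀, c, hc, hz, ?_⟩
    rintro z ⟨x, hx4, hx⟩
    obtain ⟨k, hk, rfl⟩ := TGrp.root_four hc hx4
    refine ⟨k, hk, ?_⟩
    have h1 : MC (m + 1) (ρ (z₀ ^ k)) (ρ z) := by
      rw [map_pow]
      exact (TGrp.mc_pow hz k).trans hx.symm
    exact (lev_normal ρ _).mem_comm ((TGrp.mc_iff ρ _ _ _).1 h1)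

end Pool.Agent.Lib.MP_54db3e_nt
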