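import Pool.Agent.Lib.MP_54db3e_nt.Stmt

/-!
Hilbert's theorem 90 for a group of automorphisms of an algebraic extension.
-/

open scoped Classical

noncomputable section

namespace Pool.Agent.Lib.MP_54db3e_nt

namespace TH90

variable {k Ω : Type} [Field k] [Field Ω] [Algebra k Ω]

/-- the pointwise stabiliser of `s` inside `B` -/
def stab (B : Subgroup (Ω ≃ₐ[k] Ω)) (s : Finset Ω) : Subgroup B where
  carrier := {h | ∀ x ∈ s, (h : Ω ≃ₐ[k] Ω) x = x}
  one_mem' := fun _ _ => rfl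
  mul_mem' := fun {a b} ha hb x hx => by
    rw [Subgroup.coe_mul, AlgEquiv.mul_apply, hb x hx, ha x hx]
  inv_mem' := fun {a} ha x hx => by
    have := ha x hx
    calc ((a⁻¹ : B) : Ω ≃ₐ[k] Ω) x = ((a⁻¹ : B) : Ω ≃ₐ[k] Ω) ((a : Ω ≃ₐ[k] Ω) x) := by rw [this]
      _ = x := by
        rw [← AlgEquiv.mul_apply, ← Subgroup.coe_mul, inv_mul_cancel, Subgroup.coe_one,
          AlgEquiv.one_apply]

theorem mem_stab {B : Subgroup (Ω ≃ₐ[k] Ω)} {s : Finset Ω} {h : B} :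
    h ∈ stab B s ↔ ∀ x ∈ s, (h : Ω ≃ₐ[k] Ω) x = x := Iff.rfl

theorem eq_of_out {B : Subgroup (Ω ≃ₐ[k] Ω)} {s : Finset Ω} {q q' : B ⧸ stab B s}
    (h : ∀ x ∈ s, (q.out : Ω ≃ₐ[k] Ω) x = (q'.out : Ω ≃ₐ[k] Ω) x) : q = q' := by
  rw [← QuotientGroup.out_eq' q, ← QuotientGroup.out_eq' q', QuotientGroup.eq, mem_stab]
  intro x hx
  rw [Subgroup.coe_mul, AlgEquiv.mul_apply, ← h x hx, ← AlgEquiv.mul_apply, ← Subgroup.coe_mul,
    inv_mul_cancel, Subgroup.coe_one, AlgEquiv.one_apply]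

theorem finite_quot [Algebra.IsAlgebraic k Ω] (B : Subgroup (Ω ≃ₐ[k] Ω)) (s : Finset Ω) :
    Finite (B ⧸ stab B s) := by
  have hmem : ∀ (g : Ω ≃ₐ[k] Ω) (x : Ω), g x ∈ (minpoly k x).rootSet Ω := fun g x => by
    have hx : IsIntegral k x := Algebra.IsIntegral.isIntegral x
    rw [Polynomial.mem_rootSet]
    refine ⟨minpoly.ne_zero hx, ?_⟩
    have := Polynomial.aeval_algHom_apply (g : Ω →ₐ[k] Ω) x (minpoly k x)
    rw [minpoly.aeval, map_zero] at this
    exact this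
  let φ : (B ⧸ stab B s) → ∀ x : s, (minpoly k (x : Ω)).rootSet Ω :=
    fun q x => ⟨(q.out : Ω ≃ₐ[k] Ω) x, hmem _ _⟩
  refine Finite.of_injective φ fun q q' h => eq_of_out fun x hx => ?_
  exact congrArg Subtype.val (congrFun h ⟨x, hx⟩)

/-- the elements fixed by the stabiliser -/
def fixd (B : Subgroup (Ω ≃ₐ[k] Ω)) (s : Finset Ω) : Submonoid Ω where
  carrier := {x | ∀ n ∈ stab B s, (n : Ω ≃ₐ[k] Ω) x = x}
  one_mem' := fun n _ => map_one _
  mul_mem' := fun {a b} ha hb n hn => by rw [map_mul, ha n hn, hb n hn]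

/-- restriction of a coset representative -/
def res (B : Subgroup (Ω ≃ₐ[k] Ω)) (s : Finset Ω) (q : B ⧸ stab B s) : fixd B s →* Ω where
  toFun x := (q.out : Ω ≃ₐ[k] Ω) x
  map_one' := by simp
  map_mul' a b := by simp

theorem res_inj (B : Subgroup (Ω ≃ₐ[k] Ω)) (s : Finset Ω) : Function.Injective (res B s) :=
  fun q q' h => eq_of_out fun x hx => by
    have hx' : x ∈ fixd B s := fun n hn => hn x hx
    exact DFunLike.congr_fun h ⟨x, hx'⟩

end TH90

open TH90 in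
theorem h90S : H90S := by
  intro k Ω _ _ _ _ B u hu0 hu ⟨U, ⟨s, hs⟩, hU⟩
  have hN : ∀ n ∈ stab B s, u n = 1 := fun n hn => hU n n.2 (hs n hn)
  have := finite_quot B s
  have : Fintype (B ⧸ stab B s) := Fintype.ofFinite _
  have hli : LinearIndependent Ω fun q : B ⧸ stab B s => (res B s q : fixd B s → Ω) :=
    (linearIndependent_monoidHom (fixd B s) Ω).comp (res B s) (res_inj B s)
  rw [Fintype.linearIndependent_iff] at hli
  have hne : ∑ q : B ⧸ stab B s, (u q.out)⁻¹ • (res B s q : fixd B s → Ω) ≠ 0 := fun h0 => by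
    have := hli (fun q => (u q.out)⁻¹) h0 ((1 : B) : B ⧸ stab B s)
    exact hu0 _ (Quotient.out ((1 : B) : B ⧸ stab B s)).2 (inv_eq_zero.mp this)
  obtain ⟨θ, hθ⟩ := Function.ne_iff.mp hne
  let w : B → Ω := fun h => (u h)⁻¹ * (h : Ω ≃ₐ[k] Ω) θ
  have hw1 : ∀ (h : B) (n : B), n ∈ stab B s → w (h * n) = w h := fun h n hn => by
    simp only [w, Subgroup.coe_mul, hu h h.2 n n.2, hN n hn, map_one, mul_one, AlgEquiv.mul_apply,
      θ.2 n hn]
  have hw2 : ∀ (g h : B), (g : Ω ≃ₐ[k] Ω) (w h) = u g * w (g * h) := fun g h => by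
    have h1 := hu0 g g.2
    simp only [w, Subgroup.coe_mul, hu g g.2 h h.2, map_mul, map_inv₀, AlgEquiv.mul_apply, mul_inv]
    rw [← mul_assoc, ← mul_assoc, mul_inv_cancel₀ h1, one_mul]
  have hw3 : ∀ (g : B) (q : B ⧸ stab B s), w (g * q.out) = w (g • q).out := fun g q => by
    obtain ⟨n, hn⟩ := QuotientGroup.mk_out_eq_mul (stab B s) (g * q.out)
    have e : g • q = QuotientGroup.mk (g * q.out) := (MulAction.Quotient.mk_smul_out _ g q).symm
    rw [e, hn, hw1 _ _ n.2]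
  refine ⟨∑ q : B ⧸ stab B s, w q.out, ?_, fun g hg => ?_⟩
  · intro h0
    apply hθ
    rw [Finset.sum_apply, Pi.zero_apply, ← h0]
    rfl
  · rw [map_sum, Finset.mul_sum]
    have e1 : ∀ q : B ⧸ stab B s, g (w q.out) = u g * w ((⟨g, hg⟩ : B) • q).out := fun q => by
      rw [← hw3]; exact hw2 ⟨g, hg⟩ q.out
    simp only [e1]
    exact Equiv.sum_comp (MulAction.toPerm (⟨g, hg⟩ : B)) (fun q : B ⧸ stab B s => u g * w q.out)

end Pool.Agent.Lib.MP_54db3e_nt
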