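import Pool.Agent.Lib.MP_54db3e_nt.Stmt

/-!
Additive characters that factor through the torsion and cyclotomic levels are proportional.
-/

open scoped Classical
open IntermediateField

noncomputable section

namespace Pool.Agent.Lib.MP_54db3e_nt

namespace THq

theorem algCl : IsAlgClosure ℚ Qb := AlgebraicClosure.instIsAlgClosure ℚ

attribute [local instance] algCl

theorem exists_pow {ξ : Qb} {m k : ℕ} (hm : 0 < m) (h : IsPrimitiveRoot ξ m) (hk : k.Coprime m) :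
    ∃ g : GQ, g ξ = ξ ^ k := by
  have e : minpoly ℚ (ξ ^ k) = minpoly ℚ ξ := by
    rw [← Polynomial.cyclotomic_eq_minpoly_rat h hm,
      ← Polynomial.cyclotomic_eq_minpoly_rat (h.pow_of_coprime k hk) hm]
  exact (Normal.minpoly_eq_iff_mem_orbit Qb).1 e

theorem fixMu_succ (n : ℕ) : FixMu (n + 1) ≤ FixMu n := fun g hg ξ h =>
  hg ξ (by rw [pow_succ, pow_mul, h, one_pow])

theorem opn_level (d : Rep) (n : ℕ) : Opn (lev d.ρ n ⊓ FixMu n) := by
  obtain ⟨s, hs⟩ := d.opn_lev n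
  refine ⟨s ∪ Polynomial.nthRootsFinset (5 ^ n) 1, fun g hg => ⟨hs g fun x hx => ?_, fun ξ h => ?_⟩⟩
  · exact hg x (Finset.mem_union_left _ hx)
  · exact hg ξ (Finset.mem_union_right _
      ((Polynomial.mem_nthRootsFinset (by positivity) _).2 h))

theorem fix_adjoin {z : Qb} {h : GQ} (hz : h z = z) {t : Qb} (ht : t ∈ ℚ⟮z⟯) : h t = t := by
  induction ht using adjoin_induction with
  | mem x hx => rw [Set.mem_singleton_iff.1 hx, hz]
  | algebraMap x => exact h.commutes x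
  | add x y _ _ hx hy => rw [map_add, hx, hy]
  | inv x _ hx => rw [map_inv₀, hx]
  | mul x y _ _ hx hy => rw [map_mul, hx, hy]

theorem exists_om {z : Qb} (hz : IsPrimitiveRoot z 5) :
    ∃ ω : GQ → F5, (∀ g, g z = z ^ (ω g).val) ∧ ∀ g, ω g = 1 ↔ g z = z := by
  have h : ∀ g : GQ, ∃ w : F5, g z = z ^ w.val := fun g => by
    obtain ⟨i, hi, e⟩ := hz.eq_pow_of_pow_eq_one (ξ := g z) (by rw [← map_pow, hz.pow_eq_one, map_one])
    exact ⟨i, by rw [ZMod.val_cast_of_lt hi, e]⟩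
  choose ω hω using h
  refine ⟨ω, hω, fun g => ⟨fun e => by rw [hω, e, ZMod.val_one, pow_one], fun e => ?_⟩⟩
  apply ZMod.val_injective
  rw [ZMod.val_one]
  exact hz.pow_inj (ZMod.val_lt _) (by norm_num) (by rw [← hω, e, pow_one])

theorem pow_four_fix {z : Qb} (hz : IsPrimitiveRoot z 5) (g : GQ) : (g * g * g * g) z = z := by
  obtain ⟨ω, hω, -⟩ := exists_om hz
  have h0 : ω g ≠ 0 := fun e => by
    have := hω g
    rw [e, ZMod.val_zero, pow_zero] at this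
    exact hz.ne_one (by norm_num) (g.injective (this.trans (map_one g).symm))
  have h1 : ∀ w : F5, w ≠ 0 → w.val * w.val * w.val * w.val % 5 = 1 := by decide
  simp only [AlgEquiv.mul_apply, hω g, map_pow, ← pow_mul]
  rw [pow_eq_pow_mod _ hz.pow_eq_one, h1 _ h0, pow_one]

theorem eq_zero_of_fix {z : Qb} (hz : IsPrimitiveRoot z 5) {c : GQ → F5} (hc : AddOn ⊤ c)
    (h : ∀ g : GQ, g z = z → c g = 0) (g : GQ) : c g = 0 := by
  have e := h _ (pow_four_fix hz g)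
  rw [hc _ trivial _ trivial, hc _ trivial _ trivial, hc _ trivial _ trivial] at e
  have h1 : ∀ w : F5, w + w + w + w = 0 → w = 0 := by decide
  exact h1 _ e

theorem kummer (hFg : FgS) (hKd : KdS) (hVal : ValS) (hSf : SfzS) (hV : VS) (d : Rep) (n : ℕ)
    (c : GQ → F5) (hc : AddOn ⊤ c) (h0 : ∀ g ∈ lev d.ρ n ⊓ FixMu n, c g = 0) (y₀ : Qb)
    (hy₀ : y₀ ^ 5 = d.z) :
    ∃ i : ℕ, ∀ h : GQ, h d.z = d.z → d.z ^ (c h).val = (h y₀ / y₀) ^ i := by
  have hz := d.hz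
  obtain ⟨ω, hω, hω1⟩ := exists_om hz
  obtain ⟨y, hy, h1, h2⟩ := hKd ℚ Qb ⊤ ω (fun _ => 1) c d.z hz (fun g _ => hω g)
    (fun _ _ => one_ne_zero) (fun _ _ _ _ => (mul_one _).symm)
    (fun g _ h _ => by rw [mul_one]; exact hc g trivial h trivial)
    ⟨_, opn_level d n, fun g _ hg => h0 g hg⟩
  simp only [mul_one] at h1 h2
  have h3 : ∀ h : GQ, h d.z = d.z → h y = d.z ^ (c h).val * y := fun h e => by
    have e' := (hω1 h).2 e
    rw [h1 h trivial e', e', one_mul]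
  have hmem : ∀ t : Qb, (∀ h : GQ, h d.z = d.z → h t = t) → t ∈ ℚ⟮d.z⟯ := fun t ht =>
    (hFg ℚ Qb).2.1 {d.z} t fun g hg => ht g (hg _ rfl)
  have hx : y ^ 5 ∈ ℚ⟮d.z⟯ := hmem _ fun h e => by
    rw [map_pow, h3 h e, mul_pow, ← pow_mul, mul_comm _ 5, pow_mul, hz.pow_eq_one, one_pow, one_mul]
  obtain ⟨cc, hcc⟩ := exists_pow (k := 4) (by norm_num) hz (by norm_num)
  obtain ⟨t, -, ht1, ht2⟩ := h2 cc trivial
  have h4 : (ω cc).val = 4 :=
    hz.pow_inj (ZMod.val_lt _) (by norm_num) (by rw [← hω, hcc])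
  have ht : t ∈ ℚ⟮d.z⟯ := hmem t fun h e => ht1 h trivial ((hω1 h).2 e)
  have hfin : FiniteDimensional ℚ ℚ⟮d.z⟯ :=
    adjoin.finiteDimensional (Algebra.IsIntegral.isIntegral d.z)
  obtain ⟨i, s, hs, e⟩ := hSf d.z hz cc hcc (y ^ 5) hx (pow_ne_zero _ hy)
    ⟨y ^ 5 * t, mul_mem hx ht, by rw [ht2, h4]; ring⟩ (fun l _ hl ι => by
      refine (hVal ℚ⟮d.z⟯).2.1 l ι _ hx y hy (by rw [map_pow, norm_pow]) ?_
      refine hV d l (by omega) (by omega) (by omega) ι (n + 1) y hy fun g hg => ?_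
      have e1 : g d.z = d.z := hg.2 _ (by rw [pow_succ', pow_mul, hz.pow_eq_one, one_pow])
      rw [h3 g e1, h0 g ⟨lev_anti _ (Nat.le_succ n) hg.1, fixMu_succ n hg.2⟩, ZMod.val_zero,
        pow_zero, one_mul])
  have hy0 : y₀ ≠ 0 := fun e0 => hz.ne_zero (by norm_num) (by rw [← hy₀, e0]; norm_num)
  have hs0 : s ≠ 0 := fun e0 => pow_ne_zero 5 hy (by rw [e, e0]; norm_num)
  obtain ⟨j, -, ej⟩ := hz.eq_pow_of_pow_eq_one (ξ := y / (y₀ ^ i * s)) (by
    rw [div_pow, e, mul_pow, ← pow_mul, mul_comm i 5, pow_mul, hy₀, div_self]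
    exact mul_ne_zero (pow_ne_zero _ (hz.ne_zero (by norm_num))) (pow_ne_zero _ hs0))
  refine ⟨i, fun h eh => ?_⟩
  have ey : y = d.z ^ j * (y₀ ^ i * s) := by
    rw [ej, div_mul_cancel₀ _ (mul_ne_zero (pow_ne_zero _ hy0) hs0)]
  have e2 : h y = (h y₀ / y₀) ^ i * y := by
    rw [ey, map_mul, map_mul, map_pow, map_pow, eh, fix_adjoin eh hs, div_pow]
    field_simp
  exact mul_right_cancel₀ hy ((h3 h eh).symm.trans e2)

end THq

open THq in
theorem hqS (hFg : FgS) (hKd : KdS) (hVal : ValS) (hSf : SfzS) (hV : VS) : HqS := by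
  rintro d n l₁ l₂ a₁ a₂ h0 ⟨g₀, hg₀⟩
  have hz := d.hz
  obtain ⟨y₀, hy₀⟩ := IsAlgClosed.exists_pow_nat_eq d.z (n := 5) (by norm_num)
  obtain ⟨i₁, h₁⟩ := kummer hFg hKd hVal hSf hV d n l₁ a₁ (fun g hg => (h0 g hg).1) y₀ hy₀
  obtain ⟨i₂, h₂⟩ := kummer hFg hKd hVal hSf hV d n l₂ a₂ (fun g hg => (h0 g hg).2) y₀ hy₀
  have key : ∀ a b : ℕ, d.z ^ a = d.z ^ b → (a : F5) = b := fun a b e => by
    rw [pow_eq_pow_mod a hz.pow_eq_one, pow_eq_pow_mod b hz.pow_eq_one] at e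
    exact (ZMod.natCast_eq_natCast_iff' a b 5).2
      (hz.pow_inj (Nat.mod_lt _ (by norm_num)) (Nat.mod_lt _ (by norm_num)) e)
  have hi : (i₁ : F5) ≠ 0 := fun e => hg₀ (eq_zero_of_fix hz a₁ (fun h eh => by
    obtain ⟨k, hk⟩ := (ZMod.natCast_eq_zero_iff i₁ 5).1 e
    have e1 : (h y₀ / y₀) ^ 5 = 1 := by
      rw [div_pow, ← map_pow, hy₀, eh, div_self (hz.ne_zero (by norm_num))]
    have e2 := h₁ h eh
    rw [hk, pow_mul, e1, one_pow, ← pow_zero d.z] at e2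
    simpa using key _ _ e2) g₀)
  have hc := eq_zero_of_fix hz (c := fun g => i₁ * l₂ g - i₂ * l₁ g)
    (fun g _ h _ => by
      simp only [a₁ g trivial h trivial, a₂ g trivial h trivial]
      ring)
    (fun h eh => by
      have e := key ((l₂ h).val * i₁) ((l₁ h).val * i₂) (by
        rw [pow_mul, pow_mul, h₁ h eh, h₂ h eh, ← pow_mul, ← pow_mul, mul_comm])
      simp only [Nat.cast_mul, ZMod.natCast_val, ZMod.cast_id', id_eq] at e
      linear_combination e)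
  refine ⟨i₂ * (i₁ : F5)⁻¹, fun g => ?_⟩
  have e := hc g
  have e1 := mul_inv_cancel₀ hi
  linear_combination (i₁ : F5)⁻¹ * e - l₂ g * e1

end Pool.Agent.Lib.MP_54db3e_nt
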