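import Pool.Agent.Lib.MP_54db3e_nt.H79Fld

/-!
The index of the first level.
-/

open scoped Classical
open IntermediateField

noncomputable section

namespace Pool.Agent.Lib.MP_54db3e_nt

open H79 in
theorem idxS (hC : ChS) : IdxS := by
  intro d
  obtain ⟨m1, m2, m3, m4, -⟩ := hC GQ d.ρ
  have ha := d.ha
  have h5 : ∀ g : GQ, g d.a = d.a ∨ g d.a = -d.a := fun g =>
    sq_eq_sq_iff_eq_or_eq_neg.1 (by rw [← map_pow, ha, map_ofNat])
  have hne : d.a ≠ -d.a := fun h => by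
    rw [self_eq_neg.1 h] at ha
    norm_num at ha
  have h4 : ∃ s : GQ, s d.a = -d.a := by
    by_contra h
    have h1 : d.a ∈ ℚ⟮(0 : Qb)⟯ :=
      mem_of_fixed fun g _ => (h5 g).resolve_right fun h' => h ⟨g, h'⟩
    rw [adjoin_zero, mem_bot] at h1
    obtain ⟨q, hq⟩ := h1
    have h2 : q ^ 2 = 29 := (algebraMap ℚ Qb).injective (by rw [map_pow, hq, ha, map_ofNat])
    have h3 : IsSquare ((29 : ℕ) : ℚ) := ⟨q, by push_cast; rw [← h2, sq]⟩
    exact (by norm_num : Nat.Prime 29).not_isSquare (Rat.isSquare_natCast_iff.1 h3)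
  have h2 : (gam d.ρ).index = 2 := by
    obtain ⟨s, hs⟩ := h4
    refine Subgroup.index_eq_two_iff.2 ⟨s, fun g => ?_⟩
    rw [d.mem_gam, d.mem_gam, AlgEquiv.mul_apply, hs, map_neg]
    rcases h5 g with h | h <;> rw [h]
    · exact Or.inr ⟨rfl, hne.symm⟩
    · exact Or.inl ⟨neg_neg _, hne.symm⟩
  refine ⟨fun h => ?_, h2, fun g => ?_, h4, h5⟩
  · let θ : gam d.ρ →* F5ˣ × F5ˣ := MonoidHom.mk'
      (fun g => (Units.mk0 _ (m2 g g.2).1, Units.mk0 _ (m2 g g.2).2)) fun g h =>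
        Prod.ext (Units.ext (m1 g g.2 h h.2).1) (Units.ext (m1 g g.2 h h.2).2)
    have h1 : (lev d.ρ 1).subgroupOf (gam d.ρ) = θ.ker := Subgroup.ext fun g => by
      rw [Subgroup.mem_subgroupOf, m3, MonoidHom.mem_ker, Prod.ext_iff, Units.ext_iff,
        Units.ext_iff]
      exact and_iff_right g.2
    have h3 := Subgroup.card_subgroup_dvd_card θ.range
    rw [← Subgroup.index_ker, ← h1, Nat.card_prod, Nat.card_eq_fintype_card, ZMod.card_units] at h3
    rw [← Subgroup.relIndex_mul_index (lev_le_gam d.ρ le_rfl), h2] at h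
    exact absurd (h.trans (mul_dvd_mul_right h3 2)) (by norm_num)
  · have h1 := m4 _ (Subgroup.sq_mem_of_index_two h2 g)
    rwa [← pow_mul] at h1

end Pool.Agent.Lib.MP_54db3e_nt
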