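import Pool.Agent.Lib.MP_54db3e_nt.Stmt

/-!
Inertia at the primes of potentially good reduction acts trivially on the 5-power torsion.
-/

open scoped Classical

noncomputable section

namespace Pool.Agent.Lib.MP_54db3e_nt

namespace TInert

theorem norm_nat {l : ℕ} [Fact l.Prime] {n : ℕ} (h : l.Coprime n) : ‖(n : Om l)‖ = 1 := by
  rw [← map_natCast (algebraMap ℚ_[l] (Om l)) n, norm_algebraMap']
  exact Padic.norm_natCast_eq_one_iff.2 h

theorem cop {l q : ℕ} [hl : Fact l.Prime] (hq : q.Prime) (h : l ≠ q) : l.Coprime q :=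
  (Nat.coprime_primes hl.out hq).2 h

theorem root_eq_one {l : ℕ} [Fact l.Prime] (h5 : l ≠ 5) {w : Om l} {k : ℕ} (hw : w ^ 5 ^ k = 1)
    (h : ‖w - 1‖ < 1) : w = 1 := by
  by_contra hne
  have hn : ‖w‖ ≤ 1 := by
    have e : w = (w - 1) + 1 := by ring
    rw [e]
    exact (IsUltrametricDist.norm_add_le_max _ _).trans (max_le h.le norm_one.le)
  have hp : ∀ i : ℕ, ‖w ^ i - 1‖ < 1 := by
    intro i
    induction i with
    | zero => simp
    | succ i ih =>
      have e : w ^ (i + 1) - 1 = w * (w ^ i - 1) + (w - 1) := by ring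
      rw [e]
      refine (IsUltrametricDist.norm_add_le_max _ _).trans_lt (max_lt ?_ h)
      rw [norm_mul]
      exact mul_lt_one_of_nonneg_of_lt_one_right hn (norm_nonneg _) ih
  have hs : ∀ n : ℕ, ‖∑ i ∈ Finset.range n, (w ^ i - 1)‖ < 1 := by
    intro n
    induction n with
    | zero => simp
    | succ n ih =>
      rw [Finset.sum_range_succ]
      exact (IsUltrametricDist.norm_add_le_max _ _).trans_lt (max_lt ih (hp n))
  have hg : ∑ i ∈ Finset.range (5 ^ k), w ^ i = 0 := by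
    have := mul_geom_sum w (5 ^ k)
    rw [hw, sub_self] at this
    exact (mul_eq_zero.1 this).resolve_left (sub_ne_zero.2 hne)
  have h1 := hs (5 ^ k)
  rw [Finset.sum_sub_distrib, hg, zero_sub, norm_neg, Finset.sum_const, Finset.card_range,
    nsmul_eq_mul, mul_one, norm_nat ((cop (by norm_num) h5).pow_right k)] at h1
  exact lt_irrefl _ h1

section Pts

variable {k k' : Type} [Field k] [Algebra ℚ k] [Field k'] [Algebra ℚ k']

theorem xc_pmap (f : k →+* k') (P : Pt E0 k) : xc (pmap E0 f P) = f (xc P) := by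
  cases P with
  | zero => exact (map_zero f).symm
  | some x y h => rfl

theorem yc_pmap (f : k →+* k') (P : Pt E0 k) : yc (pmap E0 f P) = f (yc P) := by
  cases P with
  | zero => exact (map_zero f).symm
  | some x y h => rfl

theorem pmap_inj (f : k →+* k') : Function.Injective (pmap E0 f) :=
  WeierstrassCurve.Affine.Point.map_injective _

theorem pmap_ne (f : k →+* k') {P : Pt E0 k} (h : P ≠ 0) : pmap E0 f P ≠ 0 :=
  fun e => h (pmap_inj f (e.trans (map_zero _).symm))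

end Pts

theorem xc_act (g : GQ) (P : Pt E0 Qb) : xc (act E0 g P) = g (xc P) := xc_pmap _ P
theorem yc_act (g : GQ) (P : Pt E0 Qb) : yc (act E0 g P) = g (yc P) := yc_pmap _ P

/-- the subgroup fixing all roots of `X ^ N = c` -/
def FixR (N : ℕ) (c : ℚ) : Subgroup GQ where
  carrier := {g | ∀ v : Qb, v ^ N = c → g v = v}
  one_mem' := fun _ _ => rfl
  mul_mem' := fun {a b} ha hb v h => by rw [AlgEquiv.mul_apply, hb v h, ha v h]
  inv_mem' := fun {a} ha v h => by
    calc a⁻¹ v = a⁻¹ (a v) := by rw [ha v h]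
      _ = v := by rw [← AlgEquiv.mul_apply, inv_mul_cancel, AlgEquiv.one_apply]

theorem fixR_normal (N : ℕ) (c : ℚ) : (FixR N c).Normal := ⟨fun a ha g v h => by
  have h1 : (g⁻¹ v) ^ N = c := by rw [← map_pow, h, map_ratCast]
  rw [AlgEquiv.mul_apply, AlgEquiv.mul_apply, ha _ h1, ← AlgEquiv.mul_apply, mul_inv_cancel,
    AlgEquiv.one_apply]⟩

theorem fixR_opn {N : ℕ} (hN : 0 < N) (c : ℚ) : Opn (FixR N c) :=
  ⟨(Polynomial.nthRoots N (c : Qb)).toFinset, fun _ hg v h =>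
    hg v (Multiset.mem_toFinset.2 ((Polynomial.mem_nthRoots hN).2 h))⟩

theorem fixMu_eq (n : ℕ) : FixMu n = FixR (5 ^ n) 1 := by
  ext g
  change (∀ ξ : Qb, ξ ^ 5 ^ n = 1 → g ξ = ξ) ↔ ∀ v : Qb, v ^ 5 ^ n = ((1 : ℚ) : Qb) → g v = v
  rw [Rat.cast_one]

theorem opn_inf {U V : Subgroup GQ} (hU : Opn U) (hV : Opn V) : Opn (U ⊓ V) := by
  obtain ⟨s, hs⟩ := hU
  obtain ⟨t, ht⟩ := hV
  exact ⟨s ∪ t, fun g hg => ⟨hs g fun x hx => hg x (Finset.mem_union_left _ hx),
    ht g fun x hx => hg x (Finset.mem_union_right _ hx)⟩⟩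

theorem pow_four_fix (g : GQ) {u : Qb} {c : ℚ} (hu : u ^ 4 = c) : (g ^ 4) u = u := by
  have h1 : g u ^ 4 = u ^ 4 := by rw [← map_pow, hu, map_ratCast]
  have h2 : g (g u) ^ 2 = u ^ 2 := by
    have : (g u ^ 2 - u ^ 2) * (g u ^ 2 + u ^ 2) = 0 := by linear_combination h1
    rcases mul_eq_zero.1 this with h | h
    · have e : g u ^ 2 = u ^ 2 := by linear_combination h
      rw [← map_pow, e, map_pow, e]
    · have e : g u ^ 2 = -u ^ 2 := by linear_combination h
      rw [← map_pow, e, map_neg, map_pow, e, neg_neg]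
  have e4 : (g ^ 4) u = g (g (g (g u))) := by
    rw [show g ^ 4 = g * g * g * g by rw [pow_succ, pow_succ, pow_two]]
    rfl
  rw [e4]
  rcases sq_eq_sq_iff_eq_or_eq_neg.1 h2 with h | h
  · rw [h, h]
  · rw [h, map_neg, map_neg, h, neg_neg]

/-- scaling data for a model with good reduction -/
theorem exists_scale (l : ℕ) [Fact l.Prime] (h13 : l ≠ 13) (h659 : l ≠ 659) (ι : Qb →+* Om l) :
    ∃ (c s : ℚ) (u : Qb), u ^ 4 = c ∧ ι u ≠ 0 ∧ ‖(2 * (s : Om l) + 1) / ι u ^ 3‖ ≤ 1 ∧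
      ‖8175274 / ι u ^ 4‖ ≤ 1 ∧ ‖(50242716927 - (s : Om l) ^ 2 - s) / ι u ^ 6‖ ≤ 1 ∧
      ‖(13 ^ 5 * 29 ^ 3 * 659 ^ 5 : Om l) / ι u ^ 12‖ = 1 := by
  have a1 : ‖(13 : Om l)‖ = 1 := by simpa using norm_nat (cop (q := 13) (by norm_num) h13)
  have a3 : ‖(659 : Om l)‖ = 1 := by simpa using norm_nat (cop (q := 659) (by norm_num) h659)
  by_cases h29 : l = 29
  · obtain ⟨u, hu⟩ := IsAlgClosed.exists_pow_nat_eq (29 : Qb) (n := 4) (by norm_num)
    have h4 : ι u ^ 4 = 29 := by rw [← map_pow, hu, map_ofNat]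
    have h0 : ι u ≠ 0 := by
      intro e
      rw [e] at h4
      norm_num at h4
    have hn : ‖ι u‖ ≤ 1 := by
      refine pow_le_one_iff_of_nonneg (norm_nonneg _) (n := 4) (by norm_num) |>.1 ?_
      rw [← norm_pow, h4]
      simpa using IsUltrametricDist.norm_natCast_le_one (Om l) 29
    have a4 : ‖(4 : Om l)‖ = 1 := by
      simpa using norm_nat (l := l) (n := 4) (by rw [h29]; norm_num)
    refine ⟨29, -1 / 2, u, by rw [hu]; norm_num, h0, ?_, ?_, ?_, ?_⟩
    · rw [show (2 * ((-1 / 2 : ℚ) : Om l) + 1) = 0 by push_cast; ring]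
      simp
    · rw [h4, show (8175274 : Om l) / 29 = ((281906 : ℕ) : Om l) by norm_num]
      exact IsUltrametricDist.norm_natCast_le_one (Om l) _
    · have e : (50242716927 - ((-1 / 2 : ℚ) : Om l) ^ 2 - ((-1 / 2 : ℚ) : Om l)) / ι u ^ 6 =
          ι u ^ 2 * ((238966549 : ℕ) : Om l) / 4 := by
        push_cast
        field_simp
        linear_combination (-955866196 * (ι u ^ 4 + 29)) * h4
      rw [e, norm_div, a4, div_one, norm_mul, norm_pow]
      exact mul_le_one₀ (pow_le_one₀ (norm_nonneg _) hn) (norm_nonneg _)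
        (IsUltrametricDist.norm_natCast_le_one (Om l) _)
    · rw [show ι u ^ 12 = (ι u ^ 4) ^ 3 by ring, h4,
        show (13 ^ 5 * 29 ^ 3 * 659 ^ 5 : Om l) / 29 ^ 3 = 13 ^ 5 * 659 ^ 5 by field_simp,
        norm_mul, norm_pow, norm_pow, a1, a3]
      norm_num
  · have a2 : ‖(29 : Om l)‖ = 1 := by simpa using norm_nat (cop (q := 29) (by norm_num) h29)
    refine ⟨1, 0, 1, by norm_num, by simp, by simp, ?_, ?_, ?_⟩
    · simpa using IsUltrametricDist.norm_natCast_le_one (Om l) 8175274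
    · simpa using IsUltrametricDist.norm_natCast_le_one (Om l) 50242716927
    · rw [map_one, one_pow, div_one, norm_mul, norm_mul, norm_pow, norm_pow, norm_pow, a1, a2, a3]
      norm_num

end TInert

open TInert in
theorem inertS (hCh : ChS) (hRed : RedS) (hCycl : CyclS) (hInt : IntS) : InertS := by
  intro d l _ h5 h13 h659 ι n
  obtain ⟨c, s, u, hu, u0, n1, n2, n3, n4⟩ := exists_scale l h13 h659 ι
  have m1 : (FixMu n).Normal := by rw [fixMu_eq]; exact fixR_normal _ _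
  have m2 : (FixR 4 c).Normal := fixR_normal _ _
  have hN : ((lev d.ρ n ⊓ FixMu n) ⊓ FixR 4 c).Normal := inferInstance
  have hO : Opn ((lev d.ρ n ⊓ FixMu n) ⊓ FixR 4 c) :=
    opn_inf (opn_inf (d.opn_lev n) (by rw [fixMu_eq]; exact fixR_opn (by positivity) _))
      (fixR_opn (by norm_num) _)
  refine ⟨_, hN, hO, inf_le_left, fun g hg g1 => ⟨?_, fun ξ hξ => ?_⟩⟩
  · have hm := (hCycl l ι _ hN hO).2.2
    have h4 : Inert ι ((lev d.ρ n ⊓ FixMu n) ⊓ FixR 4 c) (g ^ 4) := by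
      rw [show g ^ 4 = g * g * g * g by rw [pow_succ, pow_succ, pow_two]]
      exact hm _ _ (hm _ _ (hm _ _ hg hg) hg) hg
    have hfu := pow_four_fix g hu
    have k4 : g ^ 4 ∈ lev d.ρ n := by
      rw [d.mem_lev]
      intro P hP
      by_cases h0 : P = 0
      · rw [h0, map_zero]
      have hP' : 5 ^ n • pmap E0 ι P = 0 := by rw [← map_nsmul, hP, map_zero]
      have hQ' : 5 ^ n • pmap E0 ι (act E0 (g ^ 4) P) = 0 := by
        rw [← map_nsmul, ← map_nsmul, hP, map_zero, map_zero]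
      have q0 : pmap E0 ι (act E0 (g ^ 4) P) ≠ 0 := pmap_ne ι (pmap_ne _ h0)
      obtain ⟨i1, i2⟩ := hInt l h5 (ι u) s u0 n1 n2 n3 n _ (pmap_ne ι h0) hP'
      obtain ⟨j1, -⟩ := hInt l h5 (ι u) s u0 n1 n2 n3 n _ q0 hQ'
      have fx : Fx ((lev d.ρ n ⊓ FixMu n) ⊓ FixR 4 c) (xc P / u ^ 2) := fun h hh => by
        rw [map_div₀, map_pow, ← xc_act, (d.mem_lev h n).1 hh.1.1 P hP, hh.2 u hu]
      have fy : Fx ((lev d.ρ n ⊓ FixMu n) ⊓ FixR 4 c) ((yc P - s) / u ^ 3) := fun h hh => by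
        rw [map_div₀, map_pow, map_sub, ← yc_act, (d.mem_lev h n).1 hh.1.1 P hP, hh.2 u hu,
          map_ratCast]
      have cx := h4 _ fx (by rwa [map_div₀, map_pow, ← xc_pmap])
      have cy := h4 _ fy (by rwa [map_div₀, map_pow, map_sub, ← yc_pmap, map_ratCast])
      rw [map_div₀ (g ^ 4), map_pow, hfu, ← sub_div, map_div₀, map_pow, map_sub, ← xc_act,
        ← xc_pmap, ← xc_pmap] at cx
      rw [map_div₀ (g ^ 4), map_pow, hfu, map_sub (g ^ 4), map_ratCast, ← sub_div,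
        sub_sub_sub_cancel_right, map_div₀, map_pow, map_sub, ← yc_act, ← yc_pmap, ← yc_pmap] at cy
      apply pmap_inj ι
      by_contra hne
      have r := (hRed l (ι u) s u0 n1 n2 n3 n4 _ _ q0 (pmap_ne ι h0) j1 i1 cx cy).resolve_left hne
      have := (hInt l h5 (ι u) s u0 n1 n2 n3 n _ (sub_ne_zero.2 hne)
        (by rw [smul_sub, hQ', hP', sub_zero])).1
      exact absurd r (not_lt.2 this)
    have k5 : g ^ 5 ^ n ∈ lev d.ρ n :=
      lev_anti d.ρ (Nat.le_succ n) ((hCh GQ d.ρ).2.2.2.2.2 n g g1)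
    have e : 5 ^ n = 4 * (5 ^ n / 4) + 1 := by
      have : 5 ^ n % 4 = 1 := by rw [Nat.pow_mod]; simp
      omega
    rw [e, pow_succ, pow_mul] at k5
    exact (mul_mem_cancel_left (pow_mem k4 _)).1 k5
  · have x0 : ξ ≠ 0 := by
      rintro rfl
      rw [zero_pow (by positivity)] at hξ
      exact zero_ne_one hξ
    have hn : ‖ι ξ‖ = 1 := by
      have := congrArg (fun x => ‖ι x‖) hξ
      simp only [map_pow, norm_pow, map_one, norm_one] at this
      exact (pow_eq_one_iff_of_nonneg (norm_nonneg _) (by positivity)).mp this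
    have h1 := hg ξ (fun h hh => hh.1.2 ξ hξ) hn.le
    have h2 : ι (g ξ / ξ) = 1 := by
      refine root_eq_one h5 (k := n) ?_ ?_
      · rw [← map_pow, div_pow, ← map_pow, hξ, map_one, div_one, map_one]
      · rw [← map_one ι, ← map_sub, div_sub_one x0, map_div₀, norm_div, hn, div_one]
        exact h1
    rw [← map_one ι] at h2
    exact (div_eq_one_iff_eq x0).1 (ι.injective h2)

end Pool.Agent.Lib.MP_54db3e_nt
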