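import Pool.Agent.Lib.MP_54db3e_nt.TRed1

/-! Away from 5 the 5-power torsion is integral. -/

open scoped Classical

noncomputable section

namespace Pool.Agent.Lib.MP_54db3e_nt

namespace TInt

open TRed

variable {K : Type} [NormedField K] [IsUltrametricDist K]

theorem near {α β : K} (hα : ‖α‖ < 1) (hβ : ‖β‖ < 1) :
    ‖psi5 α β 1 - 5‖ < 1 ∧ ‖phi5 α β 1 - 1‖ < 1 := by
  lift α to OK K using hα.le
  lift β to OK K using hβ.le
  have h1 : Ideal.Quotient.mk (MK K) α = 0 := Ideal.Quotient.eq_zero_iff_mem.2 hα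
  have h2 : Ideal.Quotient.mk (MK K) β = 0 := Ideal.Quotient.eq_zero_iff_mem.2 hβ
  have h3 : psi5 α β 1 - 5 ∈ MK K := by
    rw [← Ideal.Quotient.eq_zero_iff_mem, map_sub, map_psi5, h1, h2, map_one, psi5_top, map_ofNat,
      sub_self]
  have h4 : phi5 α β 1 - 1 ∈ MK K := by
    rw [← Ideal.Quotient.eq_zero_iff_mem, map_sub, map_phi5, h1, h2, map_one, phi5_top, sub_self]
  have h5 := map_psi5 (OK K).subtype α β 1
  have h6 := map_phi5 (OK K).subtype α β 1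
  simp only [Subring.subtype_apply, OneMemClass.coe_one] at h5 h6
  rw [← h5, ← h6]
  exact ⟨h3, h4⟩

theorem norms {A b X : K} (h5 : ‖(5 : K)‖ = 1) (hA : ‖A‖ ≤ 1) (hb : ‖b‖ ≤ 1) (hX : 1 < ‖X‖) :
    ‖psi5 A b X‖ = ‖X‖ ^ 12 ∧ ‖phi5 A b X‖ = ‖X‖ ^ 25 := by
  have h0 : X ≠ 0 := norm_pos_iff.1 (zero_lt_one.trans hX)
  have hs : ∀ (c : K) (n : ℕ), ‖c‖ ≤ 1 → n ≠ 0 → ‖c / X ^ n‖ < 1 := fun c n hc hn => by
    rw [norm_div, norm_pow, div_lt_one (by positivity)]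
    exact hc.trans_lt (one_lt_pow₀ hX hn)
  obtain ⟨h1, h2⟩ := near (hs A 2 hA two_ne_zero) (hs b 3 hb three_ne_zero)
  have e1 := psi5_hom (A / X ^ 2) (b / X ^ 3) 1 X
  have e2 := phi5_hom (A / X ^ 2) (b / X ^ 3) 1 X
  rw [mul_div_cancel₀ _ (pow_ne_zero _ h0), mul_div_cancel₀ _ (pow_ne_zero _ h0), mul_one] at e1 e2
  have n1 := nadd (h1.trans_eq h5.symm)
  have n2 := nadd (h2.trans_eq norm_one.symm)
  rw [add_sub_cancel] at n1 n2
  rw [e1, e2, norm_mul, norm_mul, n1, n2, h5, norm_one, norm_pow, norm_pow]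
  exact ⟨mul_one _, mul_one _⟩

theorem norm_five {l : ℕ} [Fact l.Prime] (hl : l ≠ 5) : ‖(5 : Om l)‖ = 1 := by
  have h := PadicAlgCl.norm_extends l ((5 : ℕ) : ℚ_[l])
  rw [map_natCast, Padic.norm_natCast_eq_one_iff.2
    ((Nat.coprime_primes Fact.out Nat.prime_five).2 hl)] at h
  exact_mod_cast h

end TInt

open TRed TInt in
theorem intS (hE : Ec5S) : IntS := by
  intro l _ hl u s hu ha hA hB
  have hb : ‖(200970867709 : Om l) / u ^ 6‖ ≤ 1 := by
    have e : (200970867709 : Om l) / u ^ 6 =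
        ((2 * s + 1) / u ^ 3) ^ 2 + 4 * ((50242716927 - s ^ 2 - s) / u ^ 6) := by
      field_simp
      ring
    rw [e]
    exact add_mem (pow_mem (show _ ∈ OK (Om l) from ha) 2) (mul_mem (ofNat_mem _ 4) hB)
  have step : ∀ P : Pt E0 (Om l), P ≠ 0 → 1 < ‖xc P / u ^ 2‖ →
      5 • P ≠ 0 ∧ 1 < ‖xc (5 • P) / u ^ 2‖ := by
    intro P hP hX
    obtain ⟨h1, h2, -⟩ := hE (Om l) P hP
    obtain ⟨n1, n2⟩ := norms (norm_five hl) hA hb hX
    have e1 := psi5_hom (8175274 / u ^ 4) (200970867709 / u ^ 6) (xc P / u ^ 2) (u ^ 2)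
    have e2 := phi5_hom (8175274 / u ^ 4) (200970867709 / u ^ 6) (xc P / u ^ 2) (u ^ 2)
    rw [← pow_mul, ← pow_mul, mul_div_cancel₀ _ (pow_ne_zero _ hu),
      mul_div_cancel₀ _ (pow_ne_zero _ hu), mul_div_cancel₀ _ (pow_ne_zero _ hu)] at e1 e2
    generalize psi5 (8175274 / u ^ 4) (200970867709 / u ^ 6) (xc P / u ^ 2) = ψ at e1 n1
    generalize phi5 (8175274 / u ^ 4) (200970867709 / u ^ 6) (xc P / u ^ 2) = φ at e2 n2
    have hX0 := zero_lt_one.trans hX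
    have hψ : ψ ≠ 0 := norm_pos_iff.1 (n1 ▸ pow_pos hX0 12)
    have h3 : 5 • P ≠ 0 := fun h => by
      have := h1.1 h
      rw [e1] at this
      exact mul_ne_zero (pow_ne_zero _ (pow_ne_zero _ hu)) hψ this
    refine ⟨h3, ?_⟩
    have h4 := h2 h3
    rw [e1, e2] at h4
    have h5 : xc (5 • P) / u ^ 2 * ψ ^ 2 = φ := by
      apply mul_left_cancel₀ (pow_ne_zero 25 (pow_ne_zero 2 hu))
      rw [← h4]
      field_simp
    have h6 := congrArg norm h5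
    rw [norm_mul, norm_pow, n1, n2, ← pow_mul, pow_succ' _ 24] at h6
    rw [mul_right_cancel₀ (pow_pos hX0 24).ne' h6]
    exact hX
  have big : ∀ (n : ℕ) (P : Pt E0 (Om l)), P ≠ 0 → 1 < ‖xc P / u ^ 2‖ → 5 ^ n • P ≠ 0 := by
    intro n
    induction n with
    | zero => intro P hP _; rwa [pow_zero, one_smul]
    | succ n ih =>
      intro P hP hX
      obtain ⟨h1, h2⟩ := step P hP hX
      rw [pow_succ, mul_smul]
      exact ih _ h1 h2
  intro n P hP hn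
  have hX : ‖xc P / u ^ 2‖ ≤ 1 := not_lt.1 fun h => big n P hP h hn
  exact ⟨hX, y_int ha hA hB hX (scaled hu (eqn hP))⟩

end Pool.Agent.Lib.MP_54db3e_nt
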