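import Pool.Agent.Lib.MP_54db3e_nt.Stmt

/-!
Kummer description of a continuous cocycle of weight `χ`.
-/

open scoped Classical

noncomputable section

namespace Pool.Agent.Lib.MP_54db3e_nt

namespace TKd

variable {k Ω : Type} [Field k] [Field Ω] [Algebra k Ω]

theorem val_inj {z : Ω} (hz : IsPrimitiveRoot z 5) {a b : F5} (h : z ^ a.val = z ^ b.val) :
    a = b :=
  ZMod.val_injective 5 (hz.pow_inj (ZMod.val_lt a) (ZMod.val_lt b) h)

theorem act_pow {z : Ω} (hz : IsPrimitiveRoot z 5) {g : Ω ≃ₐ[k] Ω} {w : F5}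
    (hg : g z = z ^ w.val) (a : F5) : g (z ^ a.val) = z ^ (a * w).val := by
  rw [map_pow, hg, pow_val_mul hz.pow_eq_one]

theorem om_mul {B : Subgroup (Ω ≃ₐ[k] Ω)} {ω : (Ω ≃ₐ[k] Ω) → F5} {z : Ω}
    (hz : IsPrimitiveRoot z 5) (hω : ∀ g ∈ B, g z = z ^ (ω g).val) :
    ∀ g ∈ B, ∀ h ∈ B, ω (g * h) = ω g * ω h := fun g hg h hh => by
  apply val_inj hz
  rw [← hω _ (mul_mem hg hh), AlgEquiv.mul_apply, hω h hh, act_pow hz (hω g hg), mul_comm]

theorem om_one {B : Subgroup (Ω ≃ₐ[k] Ω)} {ω : (Ω ≃ₐ[k] Ω) → F5} {z : Ω}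
    (hz : IsPrimitiveRoot z 5) (hω : ∀ g ∈ B, g z = z ^ (ω g).val) : ω 1 = 1 := by
  apply val_inj hz
  rw [← hω 1 B.one_mem, AlgEquiv.one_apply, ZMod.val_one, pow_one]

/-- the subgroup on which a multiplicative function is trivial -/
def ker {G : Type} [Group G] (B : Subgroup G) (f : G → F5) (h1 : f 1 = 1)
    (hf : ∀ g ∈ B, ∀ h ∈ B, f (g * h) = f g * f h) : Subgroup G where
  carrier := {h | h ∈ B ∧ f h = 1}
  one_mem' := ⟨B.one_mem, h1⟩
  mul_mem' := fun {a b} ha hb => ⟨B.mul_mem ha.1 hb.1, by rw [hf a ha.1 b hb.1, ha.2, hb.2, mul_one]⟩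
  inv_mem' := fun {a} ha => ⟨B.inv_mem ha.1, by
    have := hf a⁻¹ (B.inv_mem ha.1) a ha.1
    rw [inv_mul_cancel, h1, ha.2, mul_one] at this
    exact this.symm⟩

end TKd

open TKd in
theorem kdS (h90 : H90S) : KdS := by
  intro k Ω _ _ _ _ B ω χ c z hz hω hχ0 hχ hc ⟨U, hU, hcU⟩
  have hz5 := hz.pow_eq_one
  have hz0 : z ≠ 0 := hz.ne_zero (by norm_num)
  have hωm := om_mul hz hω
  have hω1 := om_one hz hω
  have hχ1 : χ 1 = 1 := by
    have := hχ 1 B.one_mem 1 B.one_mem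
    rw [mul_one] at this
    exact (mul_eq_left₀ (hχ0 1 B.one_mem)).mp this.symm
  have hω0 : ∀ g ∈ B, ω g ≠ 0 := fun g hg h0 => by
    have := hωm g⁻¹ (B.inv_mem hg) g hg
    rw [inv_mul_cancel, hω1, h0, mul_zero] at this
    exact one_ne_zero this
  have hf1 : ω 1 * χ 1 = 1 := by rw [hω1, hχ1, mul_one]
  have hf : ∀ g ∈ B, ∀ h ∈ B, ω (g * h) * χ (g * h) = ω g * χ g * (ω h * χ h) :=
    fun g hg h hh => by rw [hωm g hg h hh, hχ g hg h hh]; ring
  obtain ⟨y, hy0, hy⟩ := h90 k Ω (ker B (fun g => ω g * χ g) hf1 hf)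
    (fun h => z ^ (ω h * c h).val) (fun _ _ => pow_ne_zero _ hz0)
    (fun g hg h hh => by
      have hh2 : ω h * χ h = 1 := hh.2
      rw [act_pow hz (hω g hg.1), ← pow_val_add hz5, hωm g hg.1 h hh.1, hc g hg.1 h hh.1]
      congr 2
      linear_combination ω g * c g * hh2)
    ⟨U, hU, fun g hg hgU => by rw [hcU g hg.1 hgU, mul_zero, ZMod.val_zero, pow_zero]⟩
  have hy' : ∀ h ∈ B, ω h * χ h = 1 → h y = z ^ (ω h * c h).val * y :=
    fun h hh h1 => hy h ⟨hh, h1⟩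
  refine ⟨y, hy0, hy', fun g hg => ?_⟩
  have hgy0 : g y ≠ 0 := (map_ne_zero g).mpr hy0
  have hd0 : y ^ (ω g * χ g).val * z ^ (ω g * c g).val ≠ 0 :=
    mul_ne_zero (pow_ne_zero _ hy0) (pow_ne_zero _ hz0)
  refine ⟨g y / (y ^ (ω g * χ g).val * z ^ (ω g * c g).val), div_ne_zero hgy0 hd0,
    fun h hh h1 => ?_, ?_⟩
  · have hh' : g⁻¹ * h * g ∈ B := B.mul_mem (B.mul_mem (B.inv_mem hg) hh) hg
    have e : g * (g⁻¹ * h * g) = h * g := by group
    have eω : ω (g⁻¹ * h * g) = ω h := by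
      have h2 := hωm g hg _ hh'
      rw [e, hωm h hh g hg, mul_comm] at h2
      exact (mul_left_cancel₀ (hω0 g hg) h2).symm
    have eχ : χ (g⁻¹ * h * g) = χ h := by
      have h2 := hχ g hg _ hh'
      rw [e, hχ h hh g hg, mul_comm] at h2
      exact (mul_left_cancel₀ (hχ0 g hg) h2).symm
    have ec : c h * χ g + c g = c g * χ h + c (g⁻¹ * h * g) := by
      have h2 := hc g hg _ hh'
      rw [e, hc h hh g hg, eχ] at h2
      exact h2
    have e1 : h (g y) = z ^ (ω h * c (g⁻¹ * h * g) * ω g).val * g y := by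
      rw [← AlgEquiv.mul_apply, ← e, AlgEquiv.mul_apply, hy' _ hh' (by rw [eω, eχ, h1]), map_mul,
        act_pow hz (hω g hg), eω]
    have e2 : h (y ^ (ω g * χ g).val * z ^ (ω g * c g).val) =
        z ^ (ω h * c (g⁻¹ * h * g) * ω g).val * (y ^ (ω g * χ g).val * z ^ (ω g * c g).val) := by
      have e3 : ω g * χ g * (ω h * c h) + ω g * c g * ω h =
          ω h * c (g⁻¹ * h * g) * ω g + ω g * c g := by
        linear_combination ω g * ω h * ec + ω g * c g * h1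
      have e4 : z ^ (ω g * χ g * (ω h * c h)).val * z ^ (ω g * c g * ω h).val =
          z ^ (ω h * c (g⁻¹ * h * g) * ω g).val * z ^ (ω g * c g).val := by
        rw [← pow_val_add hz5, ← pow_val_add hz5, e3]
      rw [map_mul, act_pow hz (hω h hh), map_pow, hy' h hh h1, mul_pow, ← pow_val_mul hz5]
      linear_combination y ^ (ω g * χ g).val * e4
    rw [map_div₀, e1, e2, mul_div_mul_left _ _ (pow_ne_zero _ hz0)]
  · have e3 : (z ^ (ω g * c g).val) ^ 5 = 1 := by rw [← pow_mul, mul_comm, pow_mul, hz5, one_pow]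
    rw [div_pow, mul_pow, e3, mul_one, map_pow, ← pow_mul, ← pow_mul, mul_comm 5,
      mul_div_cancel₀ _ (pow_ne_zero _ hy0)]

end Pool.Agent.Lib.MP_54db3e_nt
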