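import Pool.Agent.Lib.MP_54db3e_nt.TLce1

/-!
The local check at 5 for even weights.
-/

open scoped Classical
open IntermediateField Polynomial

noncomputable section

namespace Pool.Agent.Lib.MP_54db3e_nt

namespace TLce

abbrev V4 := ℕ × ℕ × ℕ × ℕ

def ev4 {R : Type} [CommRing R] (p : R) (v : V4) : R :=
  v.1 + v.2.1 * p + v.2.2.1 * p ^ 2 + v.2.2.2 * p ^ 3

def mul4 : V4 → V4 → V4
  | (a, b, c, d), (e, f, g, h) =>
    ((a * e + 20 * (b * h + c * g + d * f)) % 25,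
     (a * f + b * e + 15 * (b * h + c * g + d * f) + 20 * (c * h + d * g)) % 25,
     (a * g + b * f + c * e + 15 * (b * h + c * g + d * f) + 15 * (c * h + d * g) +
        20 * (d * h)) % 25,
     (a * h + b * g + c * f + d * e + 20 * (b * h + c * g + d * f) + 15 * (c * h + d * g) +
        15 * (d * h)) % 25)

theorem ev4_mul {R : Type} [CommRing R] (p : R)
    (hp : p ^ 4 + 5 * p ^ 3 + 10 * p ^ 2 + 10 * p + 5 = 0) (v w : V4) :
    ∃ W : R, ev4 p v * ev4 p w - ev4 p (mul4 v w) = 25 * W := by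
  obtain ⟨a, b, c, d⟩ := v
  obtain ⟨e, f, g, h⟩ := w
  simp only [ev4, mul4, cast_md]
  generalize ((_ / 25 : ℕ) : R) = q0
  generalize ((_ / 25 : ℕ) : R) = q1
  generalize ((_ / 25 : ℕ) : R) = q2
  generalize ((_ / 25 : ℕ) : R) = q3
  refine ⟨q0 + q1 * p + q2 * p ^ 2 + q3 * p ^ 3 -
    (b * h + c * g + d * f) * (1 + p + p ^ 2 + p ^ 3) + (c * h + d * g) * (1 + p + p ^ 2) -
    d * h * (3 + 5 * p + 5 * p ^ 2 + 2 * p ^ 3), ?_⟩
  push_cast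
  linear_combination ((b * h + c * g + d * f : R) + (c * h + d * g) * (p - 5) +
    d * h * (p ^ 2 - 5 * p + 15)) * hp

theorem ev4_coe (p : OO) (v : V4) : ((ev4 p v : OO) : Om 5) = ev4 (p : Om 5) v := by
  simp [ev4]

theorem mdl4 {p : Om 5} (h1 : ‖p‖ ≤ 1) (hp : p ^ 4 + 5 * p ^ 3 + 10 * p ^ 2 + 10 * p + 5 = 0) :
    Mdl (ev4 p) mul4 (1, 0, 0, 0) 25⁻¹ where
  nn := by norm_num
  lt := by norm_num
  ev_le v := by
    have := (ev4 (⟨p, h1⟩ : OO) v).2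
    rwa [ev4_coe] at this
  ev_mul v w := by
    obtain ⟨W, hW⟩ := ev4_mul (⟨p, h1⟩ : OO) (Subtype.ext hp) v w
    have := congrArg (fun x : OO => (x : Om 5)) hW
    simp only [AddSubgroupClass.coe_sub, Subring.coe_mul, ev4_coe] at this
    rw [this]
    exact nmul1 n25.le W.2
  ev_one := by simp [ev4]

theorem basis4 {p : Om 5} (hq : ‖p‖ ^ 4 = 5⁻¹) (c : Fin 4 → ℚ_[5]) (hc : ∀ i, ‖c i‖ ≤ 1)
    (h : ‖∑ i, am (c i) * p ^ (i : ℕ)‖ ≤ 5⁻¹) (i : Fin 4) : ‖c i‖ < 1 := by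
  have q0 : 0 < ‖p‖ := by
    refine (norm_nonneg p).lt_of_ne fun e => ?_
    rw [← e] at hq; norm_num at hq
  have q1 : ‖p‖ < 1 := by
    by_contra hh
    have := one_le_pow₀ (not_lt.1 hh) (n := 4)
    rw [hq] at this; norm_num at this
  have lt : ∀ {m n : ℕ}, m < n → ‖p‖ ^ n < ‖p‖ ^ m := fun h => pow_lt_pow_right_of_lt_one₀ q0 q1 h
  have up : ∀ (j : Fin 4) (m : ℕ), m < j → ‖am (c j) * p ^ (j : ℕ)‖ < ‖p‖ ^ m := fun j m hm => by
    rw [norm_mul, nam, norm_pow]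
    exact (mul_le_of_le_one_left (by positivity) (hc j)).trans_lt (lt hm)
  have dn : ∀ (j : Fin 4) (m : ℕ), m < 4 → ‖c j‖ < 1 → ‖am (c j) * p ^ (j : ℕ)‖ < ‖p‖ ^ m :=
    fun j m hm hj => (nmul1 (by rw [nam, hq]; exact qlt hj) (npow1 q1.le _)).trans_lt (lt hm)
  have bk : ∀ j : Fin 4, ‖am (c j) * p ^ (j : ℕ)‖ < ‖p‖ ^ (j : ℕ) → ‖c j‖ < 1 := fun j hj => by
    rw [norm_mul, nam, norm_pow] at hj
    exact (mul_lt_iff_lt_one_left (by positivity)).1 hj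
  have hS : ∀ m < 4, ‖∑ i, am (c i) * p ^ (i : ℕ)‖ < ‖p‖ ^ m := fun m hm =>
    (h.trans hq.ge).trans_lt (lt hm)
  rw [Fin.sum_univ_four] at hS
  have c0 : ‖c 0‖ < 1 := bk 0 (by
    have := lsub (lsub (lsub (hS 0 (by norm_num)) (up 3 0 (by decide))) (up 2 0 (by decide)))
      (up 1 0 (by decide))
    rwa [add_sub_cancel_right, add_sub_cancel_right, add_sub_cancel_right] at this)
  have c1 : ‖c 1‖ < 1 := bk 1 (by
    have := lsub (lsub (lsub (hS 1 (by norm_num)) (up 3 1 (by decide))) (up 2 1 (by decide)))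
      (dn 0 1 (by norm_num) c0)
    rwa [add_sub_cancel_right, add_sub_cancel_right, add_sub_cancel_left] at this)
  have c2 : ‖c 2‖ < 1 := bk 2 (by
    have := lsub (lsub (hS 2 (by norm_num)) (up 3 2 (by decide)))
      (ladd (dn 0 2 (by norm_num) c0) (dn 1 2 (by norm_num) c1))
    rwa [add_sub_cancel_right, add_sub_cancel_left] at this)
  have c3 : ‖c 3‖ < 1 := bk 3 (by
    have := lsub (hS 3 (by norm_num)) (ladd
      (ladd (dn 0 3 (by norm_num) c0) (dn 1 3 (by norm_num) c1)) (dn 2 3 (by norm_num) c2))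
    rwa [add_sub_cancel_left] at this)
  fin_cases i
  exacts [c0, c1, c2, c3]

def rd4 (v : V4) : V4 := (v.1 % 25, v.2.1 % 25, v.2.2.1 % 25, v.2.2.2 % 25)

theorem inj4 {p : Om 5} (hq : ‖p‖ ^ 4 = 5⁻¹) {v w : V4} (h : ‖ev4 p v - ev4 p w‖ ≤ 25⁻¹) :
    rd4 v = rd4 w := by
  have H := dvd_coeff (fun i : Fin 4 => p ^ (i : ℕ)) (int_coeff _ (basis4 hq)) 2
    ![(v.1 : ℤ) - w.1, (v.2.1 : ℤ) - w.2.1, (v.2.2.1 : ℤ) - w.2.2.1, (v.2.2.2 : ℤ) - w.2.2.2] (by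
      convert h using 2
      · simp [Fin.sum_univ_four, ev4]; ring
      · norm_num)
  have h0 := H 0
  have h1 := H 1
  have h2 := H 2
  have h3 := H 3
  simp only [Matrix.cons_val] at h0 h1 h2 h3
  simp only [rd4, Prod.mk.injEq]
  omega

def p4 (v : V4) (n : ℕ) : V4 := pw mul4 (1, 0, 0, 0) v n

def tst (j k i a b : ℕ) : Bool :=
  rd4 (mul4 (mul4 (p4 (a, b, 0, 0) 5) (0, 0, 1, 0))
      (mul4 (p4 (14, 3, 21, 24) j) (p4 (19, 21, 12, 1) k))) !=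
    rd4 (mul4 (mul4 (p4 (1, 1, 0, 0) i) (0, 0, 1, 0))
      (mul4 (p4 (24, 22, 14, 16) j) (p4 (19, 4, 3, 9) k))) || (i == 0 && j == 0 && k == 0)

theorem chk : ∀ j < 5, ∀ k < 5, ∀ i < 5, ∀ a < 5, ∀ b < 5, tst j k i a b = true := by
  decide +kernel

theorem near_pK {a w p : Om 5} (ha : ‖a - 23‖ ≤ 25⁻¹) (hw : ‖w‖ ≤ 1) (hp : ‖p‖ ≤ 1) (v : V4)
    (u : ℤ × ℤ × ℤ × ℤ) (h : -16 + 51 * w - 41 * w ^ 4 - ev4 p v =
      25 * (u.1 + u.2.1 * p + u.2.2.1 * p ^ 2 + u.2.2.2 * p ^ 3)) : ‖pK a w - ev4 p v‖ ≤ 25⁻¹ := by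
  have e : pK a w - ev4 p v = (a - 23) * ((w - w ^ 4) + (w - w ^ 4)) +
      (-16 + 51 * w - 41 * w ^ 4 - ev4 p v) := by
    simp only [pK, gK, bK]; ring
  have nz : ∀ n : ℤ, ‖(n : Om 5)‖ ≤ 1 := fun n => IsUltrametricDist.norm_intCast_le_one _ n
  have h1 := nsub hw (npow1 hw 4)
  rw [e, h]
  exact nadd (nmul1 ha (nadd h1 h1)) (nmul1 n25.le (nadd (nadd (nadd (nz _) (nmul1 (nz _) hp))
    (nmul1 (nz _) (npow1 hp 2))) (nmul1 (nz _) (npow1 hp 3))))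

theorem core (hF : FgS) {p p1 p2 p3 p4' y : Om 5} (hq : ‖p‖ ^ 4 = 5⁻¹)
    (hp : p ^ 4 + 5 * p ^ 3 + 10 * p ^ 2 + 10 * p + 5 = 0)
    (a1 : ‖p1 - ev4 p (24, 22, 14, 16)‖ ≤ 25⁻¹) (a2 : ‖p2 - ev4 p (19, 4, 3, 9)‖ ≤ 25⁻¹)
    (a3 : ‖p3 - ev4 p (19, 21, 12, 1)‖ ≤ 25⁻¹) (a4 : ‖p4' - ev4 p (14, 3, 21, 24)‖ ≤ 25⁻¹)
    (n3 : ‖p3‖ = 1) (n4 : ‖p4'‖ = 1) (hy : ∀ γ : Gl 5, γ p = p → γ y = y) {i j k : ℕ}
    (hi : i < 5) (hj : j < 5) (hk : k < 5)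
    (h : y ^ 5 * (p4' ^ j * p3 ^ k) = (1 + p) ^ i * (p1 ^ j * p2 ^ k)) : i = 0 ∧ j = 0 ∧ k = 0 := by
  have q1 : ‖p‖ ≤ 1 := by
    by_contra hh
    have := one_le_pow₀ (not_le.1 hh).le (n := 4)
    rw [hq] at this; norm_num at this
  have M := mdl4 q1 hp
  have az : ‖(1 + p) - ev4 p (1, 1, 0, 0)‖ ≤ 25⁻¹ := by simp [ev4]
  have ap : ‖p ^ 2 - ev4 p (0, 0, 1, 0)‖ ≤ 25⁻¹ := by simp [ev4]
  have y1 : ‖y‖ ≤ 1 := by
    have := M.le_one (M.prod (M.pow az i) (M.prod (M.pow a1 j) (M.pow a2 k)))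
    rw [← h] at this
    simp only [norm_mul, norm_pow, n3, n4, one_pow, mul_one] at this
    exact (pow_le_one_iff_of_nonneg (norm_nonneg _) (by norm_num)).1 this
  obtain ⟨c, hc⟩ := span_of_fixed hF p (X ^ 4 + C 5 * X ^ 3 + C 10 * X ^ 2 + C 10 * X + C 5)
    (by monicity!) (n := 4) (by norm_num) (by compute_degree!)
    (by simpa [map_ofNat] using hp) y hy
  have ci := int_coeff _ (basis4 hq) c (hc ▸ y1)
  obtain ⟨a, ha, ha'⟩ := digit (ci 0)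
  obtain ⟨b, hb, hb'⟩ := digit (ci 1)
  have q2 : 5⁻¹ ≤ ‖p‖ ^ 2 := hq ▸ pow_le_pow_of_le_one (norm_nonneg _) q1 (by norm_num)
  have hY : ‖y - ev4 p (a, b, 0, 0)‖ ≤ ‖p‖ ^ 2 := by
    have e : y - ev4 p (a, b, 0, 0) =
        (am (c 0) - a) + (am (c 1) - b) * p + p ^ 2 * (am (c 2) + am (c 3) * p) := by
      rw [hc, Fin.sum_univ_four]; simp [ev4]; ring
    rw [e]
    exact nadd (nadd (ha'.trans q2) (nmul1 (hb'.trans q2) q1)) (nmul1 (norm_pow p 2).le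
      (nadd (by rw [nam]; exact ci 2) (nmul1 (by rw [nam]; exact ci 3) q1)))
  have h5 : ‖y ^ 5 - ev4 p (a, b, 0, 0) ^ 5‖ ≤ 5⁻¹ * ‖p‖ ^ 2 :=
    five_pow (M.ev_le _) (pow_le_one₀ (norm_nonneg _) q1) hY le_rfl (by
      rw [← hq, ← pow_add, ← pow_mul]
      exact pow_le_pow_of_le_one (norm_nonneg _) q1 (by norm_num))
  have h6 : ‖y ^ 5 * p ^ 2 - ev4 p (mul4 (p4 (a, b, 0, 0) 5) (0, 0, 1, 0))‖ ≤ 25⁻¹ := by
    have h7 := nadd ((nmul h5 (norm_pow p 2).le).trans (le_of_eq (by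
      rw [mul_assoc, ← pow_add, hq]; norm_num))) (M.prod (M.pow (M.self (a, b, 0, 0)) 5) ap)
    rwa [sub_mul, sub_add_sub_cancel] at h7
  have L := M.prod h6 (M.prod (M.pow a4 j) (M.pow a3 k))
  have R := M.prod (M.prod (M.pow az i) ap) (M.prod (M.pow a1 j) (M.pow a2 k))
  rw [mul_right_comm] at L R
  rw [h] at L
  have E := inj4 hq (cmp L R)
  have T := chk j hj k hk i hi a ha b hb
  simp only [p4] at E
  simp only [tst, p4, E, bne_self_eq_false, Bool.false_or, Bool.and_eq_true, beq_iff_eq] at T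
  exact ⟨T.1.1, T.1.2, T.2⟩

end TLce

open TLce in
theorem lceS (hF : FgS) (hE : EmbS) (hU : U5S) : LceS := by
  intro a z ha ha3 hz i j k y hy h
  have nγ : ∀ (γ : Gl 5) (x : Om 5), ‖γ x‖ = ‖x‖ := hE.2.2.2.1 5
  have z5 : z ^ 5 = 1 := hz.pow_eq_one
  obtain ⟨p, rfl⟩ : ∃ p, z = 1 + p := ⟨z - 1, by ring⟩
  have hq : ‖p‖ ^ 4 = 5⁻¹ := by simpa using hU.2.2 0 (1 + p) (by simpa using hz)
  have p0 : p ≠ 0 := fun e => by rw [e] at hq; norm_num at hq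
  have hp : p ^ 4 + 5 * p ^ 3 + 10 * p ^ 2 + 10 * p + 5 = 0 :=
    mul_left_cancel₀ p0 (by linear_combination z5)
  have q1 : ‖p‖ ≤ 1 := by
    by_contra hh
    have := one_le_pow₀ (not_le.1 hh).le (n := 4)
    rw [hq] at this; norm_num at this
  have M := mdl4 q1 hp
  have z1 : ‖1 + p‖ ≤ 1 := nadd (norm_one (α := Om 5)).le q1
  have l5 : ‖(5 : Om 5)‖ < 1 := by rw [n5]; norm_num
  have u26 : ‖a + 23‖ = 1 := one_of_near (by
    rw [show a + 23 - 1 = (a - 3) + 5 * 5 by ring]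
    exact ladd ha3 ((nmul1 le_rfl l5.le).trans_lt l5))
  have a23 : ‖a - 23‖ ≤ 25⁻¹ := by
    have e : (a - 23) * (a + 23) = -(25 * ((20 : ℕ) : Om 5)) := by
      push_cast; linear_combination ha
    have := congrArg norm e
    rw [norm_mul, u26, mul_one, norm_neg] at this
    exact this ▸ nmul1 n25.le (nnat 20)
  have ga : ∀ γ : Gl 5, γ a = a := fun γ => by
    have e : (γ a - a) * (γ a + a) = 0 := by
      have := congrArg γ ha
      rw [map_pow, map_ofNat] at this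
      linear_combination this - ha
    refine sub_eq_zero.1 ((mul_eq_zero.1 e).resolve_right fun e' => ?_)
    have h3 : ‖γ a - 3‖ < 1 := by
      have := nγ γ (a - 3)
      rw [map_sub, map_ofNat] at this
      rwa [this]
    have := ladd (ladd h3 ha3) l5
    rw [show γ a - 3 + (a - 3) + 5 = -1 by linear_combination e'] at this
    simp at this
  have a1 : ‖pK a (1 + p) - ev4 p (24, 22, 14, 16)‖ ≤ 25⁻¹ :=
    near_pK a23 z1 q1 _ (7, 11, 6, 1) (by simp only [ev4]; push_cast; linear_combination ((-41) * p ^ 0) * hp)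
  have a2 : ‖pK a ((1 + p) ^ 2) - ev4 p (19, 4, 3, 9)‖ ≤ 25⁻¹ :=
    near_pK a23 (npow1 z1 2) q1 _ (-1, -1, -3, -2) (by
      simp only [ev4]; push_cast; linear_combination ((0) * p ^ 0 + (-41) * p ^ 1 + (-123) * p ^ 2 + (-123) * p ^ 3 + (-41) * p ^ 4) * hp)
  have a3 : ‖pK a ((1 + p) ^ 3) - ev4 p (19, 21, 12, 1)‖ ≤ 25⁻¹ :=
    near_pK a23 (npow1 z1 3) q1 _ (-1, 2, 4, 2) (by
      simp only [ev4]; push_cast; linear_combination ((0) * p ^ 0 + (-82) * p ^ 1 + (-369) * p ^ 2 + (-902) * p ^ 3 + (-1435) * p ^ 4 + (-1435) * p ^ 5 + (-861) * p ^ 6 + (-287) * p ^ 7 + (-41) * p ^ 8) * hp)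
  have a4 : ‖pK a ((1 + p) ^ 4) - ev4 p (14, 3, 21, 24)‖ ≤ 25⁻¹ :=
    near_pK a23 (npow1 z1 4) q1 _ (-11, -14, -9, -3) (by
      simp only [ev4]; push_cast; linear_combination ((51) * p ^ 0 + (-123) * p ^ 1 + (-738) * p ^ 2 + (-2870) * p ^ 3 + (-7585) * p ^ 4 + (-14145) * p ^ 5 + (-19188) * p ^ 6 + (-18983) * p ^ 7 + (-13530) * p ^ 8 + (-6765) * p ^ 9 + (-2255) * p ^ 10 + (-451) * p ^ 11 + (-41) * p ^ 12) * hp)
  have n1 := M.unit a1 (19, 23, 17, 0) (by decide)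
  have n2 := M.unit a2 (9, 1, 21, 8) (by decide)
  have n3 := M.unit a3 (19, 9, 17, 14) (by decide)
  have n4 := M.unit a4 (24, 17, 20, 3) (by decide)
  have nz : ∀ {x : Om 5}, ‖x‖ = 1 → x ≠ 0 := fun h e => by rw [e, norm_zero] at h; norm_num at h
  have gp : ∀ γ : Gl 5, γ p = p → ∀ e : ℕ, γ (pK a ((1 + p) ^ e)) = pK a ((1 + p) ^ e) :=
    fun γ hγ e => by simp [pK, gK, bK, map_ofNat, ga, hγ]
  have gp1 : ∀ γ : Gl 5, γ p = p → γ (pK a (1 + p)) = pK a (1 + p) := fun γ hγ => by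
    simpa using gp γ hγ 1
  have g2 := fun γ hγ => gp γ hγ 2
  have g3 := fun γ hγ => gp γ hγ 3
  have g4 := fun γ hγ => gp γ hγ 4
  clear gp
  generalize pK a (1 + p) = p1 at *
  generalize pK a ((1 + p) ^ 2) = p2 at *
  generalize pK a ((1 + p) ^ 3) = p3 at *
  generalize pK a ((1 + p) ^ 4) = p4 at *
  have e1 := nz n1
  have e2 := nz n2
  have e3 := nz n3
  have e4 := nz n4
  have := core hF (y := y / ((p1 / p4) ^ (j / 5) * (p2 / p3) ^ (k / 5))) hq hp a1 a2 a3 a4 n3 n4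
    (fun γ hγ => by
      simp only [map_div₀, map_mul, map_pow, gp1 γ hγ, g2 γ hγ, g3 γ hγ, g4 γ hγ,
        hy γ (by rw [map_add, map_one, hγ])])
    (Nat.mod_lt i (by norm_num)) (Nat.mod_lt j (by norm_num)) (Nat.mod_lt k (by norm_num)) (by
      have s : ∀ (x : Om 5) (n : ℕ), x ^ n = (x ^ (n / 5)) ^ 5 * x ^ (n % 5) := fun x n => by
        rw [← pow_mul, ← pow_add, Nat.div_add_mod']
      rw [div_pow, h, pow_eq_pow_mod i z5, s (p1 / p4) j, s (p2 / p3) k, div_pow p1 p4 (j % 5),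
        div_pow p2 p3 (k % 5)]
      have f1 : (p1 / p4) ^ (j / 5) ≠ 0 := pow_ne_zero _ (div_ne_zero e1 e4)
      have f2 : (p2 / p3) ^ (k / 5) ≠ 0 := pow_ne_zero _ (div_ne_zero e2 e3)
      generalize (p1 / p4) ^ (j / 5) = A at *
      generalize (p2 / p3) ^ (k / 5) = B at *
      field_simp)
  omega

end Pool.Agent.Lib.MP_54db3e_nt
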