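import Pool.Agent.Lib.MP_54db3e_nt.Stmt

/-!
Local triviality at the primes above 5.
-/

open scoped Classical

noncomputable section

namespace Pool.Agent.Lib.MP_54db3e_nt

namespace TLoc5

theorem pmap_comp {k k' k'' : Type} [Field k] [Algebra ℚ k] [Field k'] [Algebra ℚ k'] [Field k'']
    [Algebra ℚ k''] (f : k →+* k') (g : k' →+* k'') (P : Pt E0 k) :
    pmap E0 g (pmap E0 f P) = pmap E0 (g.comp f) P := by
  cases P <;> rfl

theorem pmap_cmp {l : ℕ} [Fact l.Prime] (ι : Qb →+* Om l) (g : GQ) (γ : Gl l) (h : Cmp ι g γ)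
    (P : Pt E0 Qb) :
    pmap E0 (γ : Om l →+* Om l) (pmap E0 ι P) = pmap E0 ι (act E0 g P) := by
  have e : (γ : Om l →+* Om l).comp ι = ι.comp (g : Qb →+* Qb) :=
    RingHom.ext fun x => (h x).symm
  rw [act, pmap_comp, pmap_comp, e]

theorem cmp_unique {l : ℕ} [Fact l.Prime] (ι : Qb →+* Om l) (g g' : GQ) (γ : Gl l)
    (h : Cmp ι g γ) (h' : Cmp ι g' γ) : g = g' :=
  AlgEquiv.ext fun x => ι.injective ((h x).trans (h' x).symm)

theorem root_lift {Ω : Type} [Field Ω] (ι : Qb →+* Ω) (n : ℕ) (hn : 0 < n) (ξ : Ω)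
    (hξ : ξ ^ n = 1) : ∃ ξ₀ : Qb, ξ₀ ^ n = 1 ∧ ι ξ₀ = ξ := by
  have : NeZero n := ⟨hn.ne'⟩
  obtain ⟨ζ, hζ⟩ := HasEnoughRootsOfUnity.exists_primitiveRoot Qb n
  have hζ' : IsPrimitiveRoot (ι ζ) n := hζ.map_of_injective ι.injective
  obtain ⟨i, -, hi⟩ := hζ'.eq_pow_of_pow_eq_one hξ
  refine ⟨ζ ^ i, ?_, by rw [map_pow, hi]⟩
  rw [← pow_mul, mul_comm, pow_mul, hζ.pow_eq_one, one_pow]

end TLoc5

open TLoc5 in
theorem loc5S (hE : EmbS) (hD : DivS) (hC : CycS) (hG : CgS) (hT : TtS) : Loc5S := by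
  intro d m hm f hf ι
  obtain ⟨res, hres, -, hopn⟩ := hE.2.2.1 5 ι
  obtain ⟨hadd, htor, ⟨U, hU, hU0⟩, -⟩ := hT d m hm f hf.1
  obtain ⟨m', hm', P, -, hP⟩ := hG (fun n => (lev d.ρ n).comap res)
    (fun a b hab => Subgroup.comap_mono (lev_anti d.ρ hab))
    (fun n => hopn _ (d.opn_lev n))
    (fun n γ hγ T hT5 => by
      obtain ⟨T₀, h₀, rfl⟩ := hD.2.2.1 (Om 5) ι n T hT5
      rw [pmap_cmp ι (res γ) γ (hres γ), (d.mem_lev _ n).1 hγ T₀ h₀])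
    (fun n hn γ hγ ξ hξ => by
      obtain ⟨ξ₀, h₀, rfl⟩ := root_lift ι (5 ^ n) (by positivity) ξ hξ
      rw [← hres γ, (hC d n hn).2 hγ ξ₀ h₀])
    m m hm (fun γ => pmap E0 ι (f (res γ)))
    (fun γ hγ γ' hγ' => by
      show pmap E0 ι (f (res (γ * γ'))) = _
      rw [map_mul, hadd _ hγ _ hγ', map_add])
    (fun γ hγ => ⟨hf.2.2 ι _ ⟨γ, hres γ⟩ hγ, by rw [← map_nsmul, htor _ hγ, map_zero]⟩)
    ⟨U.comap res, hopn U hU, fun γ hγ hγU => by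
      show pmap E0 ι (f (res γ)) = 0
      rw [hU0 _ hγ hγU, map_zero]⟩
  refine ⟨m', hm', P, fun γ g hg hc => ?_⟩
  obtain rfl := cmp_unique ι g (res γ) γ hc (hres γ)
  exact hP γ hg

end Pool.Agent.Lib.MP_54db3e_nt
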