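import Pool.Agent.Lib.MP_54db3e_nt.Stmt

/-!
One level for the local triviality at all primes.
-/

open scoped Classical

noncomputable section

namespace Pool.Agent.Lib.MP_54db3e_nt

namespace TLocAll

theorem galQ : IsGalois ℚ Qb :=
  @IsAlgClosure.isGalois ℚ Qb _ _ _ (AlgebraicClosure.instIsAlgClosure ℚ) _

theorem pmap_comp {k k' k'' : Type} [Field k] [Algebra ℚ k] [Field k'] [Algebra ℚ k'] [Field k'']
    [Algebra ℚ k''] (f : k →+* k') (g : k' →+* k'') (P : Pt E0 k) :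
    pmap E0 g (pmap E0 f P) = pmap E0 (g.comp f) P := by
  cases P <;> rfl

theorem locAt_mono {d : Rep} {m m' : ℕ} {f : GQ → Pt E0 Qb} {l : ℕ} [Fact l.Prime]
    {ι : Qb →+* Om l} (h : LocAt d m f ι) (hm : m ≤ m') : LocAt d m' f ι := by
  obtain ⟨P, hP⟩ := h
  exact ⟨P, fun γ g hg hc => hP γ g (lev_anti d.ρ hm hg) hc⟩

theorem addOn_conj {G A : Type} [Group G] [AddCommGroup A] {B : Subgroup G} {f : G → A}
    (hf : AddOn B f) {g h : G} (hg : g ∈ B) (hh : h ∈ B) : f (h * g * h⁻¹) = f g := by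
  have e := hf (h * g * h⁻¹) (mul_mem (mul_mem hh hg) (inv_mem hh)) h hh
  rw [inv_mul_cancel_right, hf h hh g hg, add_comm (f h)] at e
  exact (add_right_cancel e).symm

theorem locAt_comp {d : Rep} {m m' : ℕ} {f : GQ → Pt E0 Qb} (hadd : AddOn (lev d.ρ m) f)
    (htor : ∀ h ∈ lev d.ρ m, 5 ^ m • f h = 0) (hm : m ≤ m') {l : ℕ} [Fact l.Prime]
    {ι ι' : Qb →+* Om l} {h : GQ} (hh : h ∈ lev d.ρ m) (hι : ∀ x, ι' x = ι (h x))
    (H : LocAt d m' f ι) : LocAt d m' f ι' := by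
  obtain ⟨P, hP⟩ := H
  refine ⟨P, fun γ g hg hc => ?_⟩
  have hgm : g ∈ lev d.ρ m := lev_anti d.ρ hm hg
  have hc' : Cmp ι (h * g * h⁻¹) γ := fun x => by
    have e := hc (h⁻¹ x)
    rw [hι, hι, ← AlgEquiv.mul_apply h h⁻¹, mul_inv_cancel, AlgEquiv.one_apply] at e
    rw [AlgEquiv.mul_apply, AlgEquiv.mul_apply, e]
  have e : ι' = ι.comp (h : Qb →+* Qb) := RingHom.ext hι
  rw [← hP γ _ ((lev_normal d.ρ m').conj_mem g hg h) hc', addOn_conj hadd hgm hh, e,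
    ← pmap_comp]
  congr 1
  exact (d.mem_lev h m).1 hh _ (htor g hgm)

theorem unif (hF : FgS) (hE : EmbS) {d : Rep} {m : ℕ} {f : GQ → Pt E0 Qb}
    (hadd : AddOn (lev d.ρ m) f) (htor : ∀ h ∈ lev d.ρ m, 5 ^ m • f h = 0) (l : ℕ)
    [Fact l.Prime] (H : ∀ ι : Qb →+* Om l, ∃ m', m ≤ m' ∧ LocAt d m' f ι) :
    ∃ m', m ≤ m' ∧ ∀ ι : Qb →+* Om l, LocAt d m' f ι := by
  obtain ⟨ι₀⟩ := hE.1 l
  have := galQ
  obtain ⟨hfd, hidx, -⟩ := (hF ℚ Qb).1 _ (d.opn_lev m)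
  have : (lev d.ρ m).FiniteIndex := ⟨by rw [← hidx]; exact Module.finrank_pos.ne'⟩
  have := Fintype.ofFinite (GQ ⧸ lev d.ρ m)
  choose M hM hL using fun q : GQ ⧸ lev d.ρ m => H (ι₀.comp (q.out : Qb →+* Qb))
  have hle : ∀ q, M q ≤ Finset.univ.sup M := fun q => Finset.le_sup (Finset.mem_univ q)
  refine ⟨Finset.univ.sup M, (hM ((1 : GQ) : GQ ⧸ lev d.ρ m)).trans (hle _), fun ι => ?_⟩
  obtain ⟨g, hg⟩ := hE.2.1 (Om l) ι₀ ι
  have hq : ((g : GQ ⧸ lev d.ρ m).out)⁻¹ * g ∈ lev d.ρ m := by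
    rw [← QuotientGroup.eq, QuotientGroup.out_eq']
  refine locAt_comp hadd htor ((hM _).trans (hle (g : GQ ⧸ lev d.ρ m))) hq (fun x => ?_)
    (locAt_mono (hL (g : GQ ⧸ lev d.ρ m)) (hle _))
  show ι x = ι₀ (((g : GQ ⧸ lev d.ρ m).out) ((((g : GQ ⧸ lev d.ρ m).out)⁻¹ * g) x))
  rw [← AlgEquiv.mul_apply, mul_inv_cancel_left, hg]

end TLocAll

open TLocAll in
theorem locAllS (hF : FgS) (hE : EmbS) (hT : TtS) (h5 : Loc5S) (hB : LocBadS) (hG : LocGoodS) :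
    LocAllS := by
  intro d m hm f hf
  obtain ⟨hadd, htor, -⟩ := hT d m hm f hf.1
  obtain ⟨m₁, k₁, H₁⟩ := unif hF hE hadd htor 5 (h5 d m hm f hf)
  obtain ⟨m₂, -, H₂⟩ := unif hF hE hadd htor 13 (hB d m hm f hf.1 13 (by norm_num))
  obtain ⟨m₃, -, H₃⟩ := unif hF hE hadd htor 29 (hB d m hm f hf.1 29 (by norm_num))
  obtain ⟨m₄, -, H₄⟩ := unif hF hE hadd htor 659 (hB d m hm f hf.1 659 (by norm_num))
  refine ⟨m₁ + m₂ + m₃ + m₄, by omega, fun l _ ι => ?_⟩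
  by_cases e₁ : l = 5
  · subst e₁; exact locAt_mono (H₁ ι) (by omega)
  by_cases e₂ : l = 13
  · subst e₂; exact locAt_mono (H₂ ι) (by omega)
  by_cases e₃ : l = 29
  · subst e₃; exact locAt_mono (H₃ ι) (by omega)
  by_cases e₄ : l = 659
  · subst e₄; exact locAt_mono (H₄ ι) (by omega)
  exact locAt_mono (hG d m hm f hf.1 l e₁ e₂ e₃ e₄ ι) (by omega)

end Pool.Agent.Lib.MP_54db3e_nt
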