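import Pool.Agent.Lib.MP_54db3e_nt.Stmt

/-!
Local triviality away from 5: a unit-type homomorphism vanishes on the decomposition group at a
higher level.
-/

open scoped Classical

noncomputable section

namespace Pool.Agent.Lib.MP_54db3e_nt

namespace TLocBad

theorem root_lift {Ω : Type} [Field Ω] (ι : Qb →+* Ω) (n : ℕ) (hn : 0 < n) :
    ∃ ζ : Qb, IsPrimitiveRoot ζ n ∧ IsPrimitiveRoot (ι ζ) n := by
  have : NeZero n := ⟨hn.ne'⟩
  obtain ⟨ζ, hζ⟩ := HasEnoughRootsOfUnity.exists_primitiveRoot Qb n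
  exact ⟨ζ, hζ, hζ.map_of_injective ι.injective⟩

variable {l : ℕ} [Fact l.Prime]

theorem norm_five (hl : l ≠ 5) : ‖(5 : Om l)‖ = 1 := by
  have h1 : ‖((5 : ℕ) : ℚ_[l])‖ = 1 := by
    rw [Padic.norm_natCast_eq_one_iff]
    exact (Nat.coprime_primes Fact.out Nat.prime_five).2 hl
  have h2 : (5 : Om l) = algebraMap ℚ_[l] (Om l) ((5 : ℕ) : ℚ_[l]) := by
    rw [map_natCast]; norm_num
  rw [h2, norm_algebraMap', h1]

/-- an element whose `n`-th power is near 1 is near an `n`-th root of unity -/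
theorem near_root {ζ w : Om l} {n : ℕ} (hn : 0 < n) (hζ : IsPrimitiveRoot ζ n)
    (hw : ‖w ^ n - 1‖ < 1) : ∃ j : ℕ, ‖w - ζ ^ j‖ < 1 := by
  by_contra hcon
  push Not at hcon
  have e := congrArg (Polynomial.eval w) (X_pow_sub_C_eq_prod hζ hn (one_pow n))
  simp only [Polynomial.eval_sub, Polynomial.eval_pow, Polynomial.eval_X, Polynomial.eval_C,
    Polynomial.eval_prod] at e
  rw [e, norm_prod] at hw
  have : (1 : ℝ) ≤ ∏ i ∈ Finset.range n, ‖w - ζ ^ i * 1‖ :=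
    Finset.one_le_prod fun i _ => by rw [mul_one]; exact hcon i
  exact absurd hw (not_lt.2 this)

theorem norm_pow_sub_one {u : Om l} (hu : ‖u - 1‖ < 1) (i : ℕ) : ‖u ^ i - 1‖ < 1 := by
  have h1 : ‖u‖ ≤ 1 := by
    have := IsUltrametricDist.norm_add_le_max (u - 1) 1
    rw [sub_add_cancel, norm_one] at this
    exact this.trans (max_le hu.le le_rfl)
  induction i with
  | zero => simp
  | succ i ih =>
    have e : u ^ (i + 1) - 1 = u * (u ^ i - 1) + (u - 1) := by ring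
    rw [e]
    refine (IsUltrametricDist.norm_add_le_max _ _).trans_lt (max_lt ?_ hu)
    rw [norm_mul]
    exact (mul_le_of_le_one_left (norm_nonneg _) h1).trans_lt ih

/-- a root of unity of 5-power order near 1 is 1 -/
theorem eq_one_of_near (hl : l ≠ 5) (k : ℕ) : ∀ u : Om l, u ^ 5 ^ k = 1 → ‖u - 1‖ < 1 → u = 1 := by
  induction k with
  | zero => intro u hu _; simpa using hu
  | succ k ih =>
    intro u hu h1
    have h5 : u ^ 5 = 1 := ih (u ^ 5) (by rw [← pow_mul, ← pow_succ', hu]) (norm_pow_sub_one h1 5)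
    by_contra hne
    have hs : u ^ 4 + u ^ 3 + u ^ 2 + u + 1 = 0 := by
      apply mul_left_cancel₀ (sub_ne_zero.2 hne)
      linear_combination h5
    have e : (5 : Om l) = -((u ^ 4 - 1) + (u ^ 3 - 1) + (u ^ 2 - 1) + (u - 1)) := by
      linear_combination hs
    have h := norm_five hl
    rw [e, norm_neg] at h
    have hlt : ‖(u ^ 4 - 1) + (u ^ 3 - 1) + (u ^ 2 - 1) + (u - 1)‖ < 1 :=
      (IsUltrametricDist.norm_add_le_max _ _).trans_lt (max_lt
        ((IsUltrametricDist.norm_add_le_max _ _).trans_lt (max_lt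
          ((IsUltrametricDist.norm_add_le_max _ _).trans_lt (max_lt
            (norm_pow_sub_one h1 4) (norm_pow_sub_one h1 3))) (norm_pow_sub_one h1 2))) h1)
    exact absurd h hlt.ne

theorem elem_zero (hE : EmbS) (hC : CycS) (d : Rep) (m : ℕ) (hm : 1 ≤ m) (hl : l ≠ 5)
    (ι : Qb →+* Om l) (f : GQ → Pt E0 Qb) (hf : Elem d m f) :
    ∃ m', m ≤ m' ∧ ∀ g ∈ lev d.ρ m', g ∈ Dec ι → f g = 0 := by
  obtain ⟨k, ξ, y, T, -, hξ, hy, hT, hf⟩ := hf
  have hy0 : ι y ≠ 0 := (map_ne_zero ι).2 hy.1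
  have hn : ‖ι y‖ = 1 := by
    refine le_antisymm (hE.2.2.2.2.2.2.1 l ι y hy.2.1) ?_
    have := hE.2.2.2.2.2.2.1 l ι y⁻¹ hy.2.2
    rw [map_inv₀, norm_inv] at this
    exact (inv_le_one₀ (norm_pos_iff.2 hy0)).1 this
  obtain ⟨c, hc, hc1⟩ := hE.2.2.2.2.2.1 l (ι y) hn
  have hc0 : c ≠ 0 := by rintro rfl; exact hc (dvd_zero l)
  obtain ⟨b, c', hc', rfl⟩ := Nat.exists_eq_pow_mul_and_not_dvd hc0 5 (by norm_num)
  obtain ⟨ζ, hζ, hζ'⟩ := root_lift ι (5 ^ b) (by positivity)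
  obtain ⟨j, hj⟩ := near_root (w := ι y ^ c') (by positivity) hζ'
    (by rw [← pow_mul, mul_comm]; exact hc1)
  refine ⟨m + b, by omega, fun g hg ⟨γ, hγ⟩ => ?_⟩
  obtain ⟨n, hgy, hfg⟩ := hf g (lev_anti d.ρ (by omega) hg)
  have hfix : g ζ = ζ := (hC d (m + b) (by omega)).2 hg ζ (by
    rw [pow_add, mul_comm, pow_mul, hζ.pow_eq_one, one_pow])
  have h1 : ‖ι ξ ^ (n * c') * ι y ^ c' - ι ζ ^ j‖ < 1 := by
    have e : γ (ι y ^ c' - ι ζ ^ j) = ι ξ ^ (n * c') * ι y ^ c' - ι ζ ^ j := by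
      rw [map_sub, map_pow, map_pow, ← hγ, ← hγ, hfix, hgy, map_mul, map_pow, mul_pow, pow_mul]
    rw [← e, hE.2.2.2.1 l γ]
    exact hj
  have h2 : ‖ι ξ ^ (n * c') - 1‖ < 1 := by
    have e : (ι ξ ^ (n * c') - 1) * ι y ^ c' =
        (ι ξ ^ (n * c') * ι y ^ c' - ι ζ ^ j) + -(ι y ^ c' - ι ζ ^ j) := by ring
    have := congrArg norm e
    rw [norm_mul, norm_pow, hn, one_pow, mul_one] at this
    rw [this]
    exact (IsUltrametricDist.norm_add_le_max _ _).trans_lt (max_lt h1 (by rwa [norm_neg]))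
  have hξ' : IsPrimitiveRoot (ι ξ) (5 ^ k) := hξ.map_of_injective ι.injective
  have h3 : ι ξ ^ (n * c') = 1 := eq_one_of_near hl k _
    (by rw [← pow_mul, mul_comm, pow_mul, hξ'.pow_eq_one, one_pow]) h2
  have h4 : 5 ^ k ∣ n := (Nat.Coprime.pow_left k
    ((Nat.Prime.coprime_iff_not_dvd Nat.prime_five).2 hc')).dvd_of_dvd_mul_right
      (hξ'.dvd_of_pow_eq_one _ h3)
  obtain ⟨s, rfl⟩ := h4
  rw [hfg, mul_comm, mul_nsmul', hT, nsmul_zero]

end TLocBad

open TLocBad in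
theorem locBadS (hE : EmbS) (hC : CycS) : LocBadS := by
  intro d m hm f hf l _ hl ι
  have key : ∃ m', m ≤ m' ∧ ∀ g ∈ lev d.ρ m', g ∈ Dec ι → f g = 0 := by
    induction hf using AddSubgroup.closure_induction with
    | mem f hf => exact elem_zero hE hC d m hm hl ι f hf
    | zero => exact ⟨m, le_rfl, fun _ _ _ => rfl⟩
    | add f f' _ _ h h' =>
      obtain ⟨a, ha, h⟩ := h
      obtain ⟨a', -, h'⟩ := h'
      refine ⟨a + a', by omega, fun g hg hD => ?_⟩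
      rw [Pi.add_apply, h g (lev_anti d.ρ (by omega) hg) hD,
        h' g (lev_anti d.ρ (by omega) hg) hD, add_zero]
    | neg f _ h =>
      obtain ⟨a, ha, h⟩ := h
      exact ⟨a, ha, fun g hg hD => by rw [Pi.neg_apply, h g hg hD, neg_zero]⟩
  obtain ⟨m', hm', H⟩ := key
  refine ⟨m', hm', 0, fun γ g hg hc => ?_⟩
  rw [H g hg ⟨γ, hc⟩, map_zero, map_zero, sub_zero]

end Pool.Agent.Lib.MP_54db3e_nt
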