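import Pool.Agent.Lib.MP_54db3e_nt.Stmt

/-!
Local triviality at the primes of good reduction different from 5.
-/

open scoped Classical
open IntermediateField

noncomputable section

namespace Pool.Agent.Lib.MP_54db3e_nt

namespace TLocGood

theorem norm_nat {l : ℕ} [Fact l.Prime] {n : ℕ} (h : l.Coprime n) : ‖(n : Om l)‖ = 1 := by
  rw [← map_natCast (algebraMap ℚ_[l] (Om l)) n, norm_algebraMap']
  exact Padic.norm_natCast_eq_one_iff.2 h

theorem cop {l q : ℕ} [hl : Fact l.Prime] (hq : q.Prime) (h : l ≠ q) : l.Coprime q :=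
  (Nat.coprime_primes hl.out hq).2 h

/-- roots of unity of 5-power order are distinct modulo the maximal ideal -/
theorem root_eq_one {l : ℕ} [Fact l.Prime] (h5 : l ≠ 5) {w : Om l} {k : ℕ} (hw : w ^ 5 ^ k = 1)
    (h : ‖w - 1‖ < 1) : w = 1 := by
  by_contra hne
  have hn : ‖w‖ ≤ 1 := by
    have e : w = (w - 1) + 1 := by ring
    rw [e]
    exact (IsUltrametricDist.norm_add_le_max _ _).trans (max_le h.le norm_one.le)
  have hp : ∀ i : ℕ, ‖w ^ i - 1‖ < 1 := by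
    intro i
    induction i with
    | zero => simp
    | succ i ih =>
      have e : w ^ (i + 1) - 1 = w * (w ^ i - 1) + (w - 1) := by ring
      rw [e]
      refine (IsUltrametricDist.norm_add_le_max _ _).trans_lt (max_lt ?_ h)
      rw [norm_mul]
      exact mul_lt_one_of_nonneg_of_lt_one_right hn (norm_nonneg _) ih
  have hs : ∀ n : ℕ, ‖∑ i ∈ Finset.range n, (w ^ i - 1)‖ < 1 := by
    intro n
    induction n with
    | zero => simp
    | succ n ih =>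
      rw [Finset.sum_range_succ]
      exact (IsUltrametricDist.norm_add_le_max _ _).trans_lt (max_lt ih (hp n))
  have hg : ∑ i ∈ Finset.range (5 ^ k), w ^ i = 0 := by
    have := mul_geom_sum w (5 ^ k)
    rw [hw, sub_self] at this
    exact (mul_eq_zero.1 this).resolve_left (sub_ne_zero.2 hne)
  have h1 := hs (5 ^ k)
  rw [Finset.sum_sub_distrib, hg, zero_sub, norm_neg, Finset.sum_const, Finset.card_range,
    nsmul_eq_mul, mul_one, norm_nat ((cop (by norm_num) h5).pow_right k)] at h1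
  exact lt_irrefl _ h1

section Pts

variable {k k' : Type} [Field k] [Algebra ℚ k] [Field k'] [Algebra ℚ k']

theorem xc_pmap (f : k →+* k') (P : Pt E0 k) : xc (pmap E0 f P) = f (xc P) := by
  cases P with
  | zero => exact (map_zero f).symm
  | some x y h => rfl

theorem yc_pmap (f : k →+* k') (P : Pt E0 k) : yc (pmap E0 f P) = f (yc P) := by
  cases P with
  | zero => exact (map_zero f).symm
  | some x y h => rfl

theorem pmap_inj (f : k →+* k') : Function.Injective (pmap E0 f) :=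
  WeierstrassCurve.Affine.Point.map_injective _

end Pts

theorem act_mul (g h : GQ) (P : Pt E0 Qb) : act E0 (g * h) P = act E0 g (act E0 h P) := by
  cases P <;> rfl

theorem act_one (P : Pt E0 Qb) : act E0 1 P = P := by
  cases P <;> rfl

theorem pmap_act {l : ℕ} [Fact l.Prime] {ι : Qb →+* Om l} {g : GQ} {γ : Gl l} (h : Cmp ι g γ)
    (P : Pt E0 Qb) :
    pmap E0 ι (act E0 g P) = pmap E0 (γ : Om l →+* Om l) (pmap E0 ι P) := by
  cases P with
  | zero => rfl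
  | some x y hP =>
    exact WeierstrassCurve.Affine.Point.some.congr_simp _ _ (h x) _ _ (h y) _

/-- the `5^n`-torsion -/
def tors (n : ℕ) : AddSubgroup (Pt E0 Qb) where
  carrier := {P | 5 ^ n • P = 0}
  zero_mem' := smul_zero _
  add_mem' := fun {P Q} hP hQ => by
    rw [Set.mem_ofPred_eq] at hP hQ ⊢
    rw [smul_add, hP, hQ, add_zero]
  neg_mem' := fun {P} hP => by
    rw [Set.mem_ofPred_eq] at hP ⊢
    rw [smul_neg, hP, neg_zero]

theorem mem_tors {n : ℕ} {P : Pt E0 Qb} : P ∈ tors n ↔ 5 ^ n • P = 0 := Iff.rfl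

theorem e_tors (d : Rep) (n : ℕ) (i : Fin 2) : 5 ^ n • d.e n i = 0 := by
  induction n with
  | zero => rw [d.e_zero, smul_zero]
  | succ n ih => rw [pow_succ, mul_smul, d.e_succ, ih]

theorem nsmul_mod {A : Type} [AddCommGroup A] {N : ℕ} {P : A} (h : N • P = 0) (i : ℕ) :
    i • P = (i % N) • P := by
  conv_lhs => rw [← Nat.mod_add_div i N, add_smul, mul_comm, mul_smul, h, smul_zero, add_zero]

theorem finite_tors (d : Rep) (n : ℕ) : Finite (tors n) := by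
  have h0 : 0 < 5 ^ n := by positivity
  refine Set.Finite.subset (Set.finite_range fun p : Fin (5 ^ n) × Fin (5 ^ n) =>
    p.1.val • d.e n 0 + p.2.val • d.e n 1) fun P hP => ?_
  obtain ⟨i, j, rfl⟩ := d.e_span n P hP
  exact ⟨(⟨i % 5 ^ n, Nat.mod_lt _ h0⟩, ⟨j % 5 ^ n, Nat.mod_lt _ h0⟩), by
    rw [nsmul_mod (e_tors d n 0) i, nsmul_mod (e_tors d n 1) j]⟩

theorem exists_div (hD : DivS) (r : ℕ) (Q : Pt E0 Qb) : ∃ P : Pt E0 Qb, 5 ^ r • P = Q := by
  induction r generalizing Q with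
  | zero => exact ⟨Q, by rw [pow_zero, one_smul]⟩
  | succ r ih =>
    obtain ⟨P, hP⟩ := ih Q
    obtain ⟨P', hP'⟩ := hD.1 Qb P
    exact ⟨P', by rw [pow_succ, mul_smul, hP', hP]⟩

/-- the 5-power torsion points fixed by `B` -/
def fixT (B : Subgroup GQ) : AddSubgroup (Pt E0 Qb) where
  carrier := {P | (∃ n : ℕ, 5 ^ n • P = 0) ∧ ∀ g ∈ B, act E0 g P = P}
  zero_mem' := ⟨⟨0, smul_zero _⟩, fun g _ => map_zero _⟩
  add_mem' := fun {P Q} ⟨⟨n, hn⟩, hP⟩ ⟨⟨m, hm⟩, hQ⟩ => ⟨⟨n + m, by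
      rw [smul_add, pow_add, mul_smul _ _ Q, hm, smul_zero, mul_comm, mul_smul, hn, smul_zero,
        add_zero]⟩, fun g hg => by rw [map_add, hP g hg, hQ g hg]⟩
  neg_mem' := fun {P} ⟨⟨n, hn⟩, hP⟩ => ⟨⟨n, by rw [smul_neg, hn, neg_zero]⟩,
    fun g hg => by rw [map_neg, hP g hg]⟩

section Good

variable {l : ℕ} [Fact l.Prime]

theorem n1 : ‖(2 * 0 + 1) / (1 : Om l) ^ 3‖ ≤ 1 := by simp

theorem n2 : ‖8175274 / (1 : Om l) ^ 4‖ ≤ 1 := by
  simpa using IsUltrametricDist.norm_natCast_le_one (Om l) 8175274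

theorem n3 : ‖(50242716927 - 0 ^ 2 - 0) / (1 : Om l) ^ 6‖ ≤ 1 := by
  simpa using IsUltrametricDist.norm_natCast_le_one (Om l) 50242716927

theorem n4 (h13 : l ≠ 13) (h29 : l ≠ 29) (h659 : l ≠ 659) :
    ‖(13 ^ 5 * 29 ^ 3 * 659 ^ 5 : Om l) / (1 : Om l) ^ 12‖ = 1 := by
  have a1 : ‖(13 : Om l)‖ = 1 := by simpa using norm_nat (cop (q := 13) (by norm_num) h13)
  have a2 : ‖(29 : Om l)‖ = 1 := by simpa using norm_nat (cop (q := 29) (by norm_num) h29)
  have a3 : ‖(659 : Om l)‖ = 1 := by simpa using norm_nat (cop (q := 659) (by norm_num) h659)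
  rw [one_pow, div_one, norm_mul, norm_mul, norm_pow, norm_pow, norm_pow, a1, a2, a3]
  norm_num

theorem int_tors (hI : IntS) (h5 : l ≠ 5) {n : ℕ} {P : Pt E0 (Om l)} (h0 : P ≠ 0)
    (hP : 5 ^ n • P = 0) : ‖xc P‖ ≤ 1 ∧ ‖yc P‖ ≤ 1 := by
  simpa using hI l h5 1 0 one_ne_zero n1 n2 n3 n P h0 hP

/-- distinct torsion points are distinct modulo the maximal ideal -/
theorem eq_of_close (hR : RedS) (hI : IntS) (h5 : l ≠ 5) (h13 : l ≠ 13) (h29 : l ≠ 29)
    (h659 : l ≠ 659) {n m : ℕ} {P Q : Pt E0 (Om l)} (hP0 : P ≠ 0) (hQ0 : Q ≠ 0)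
    (hP : 5 ^ n • P = 0) (hQ : 5 ^ m • Q = 0) (hx : ‖xc P - xc Q‖ < 1)
    (hy : ‖yc P - yc Q‖ < 1) : P = Q := by
  by_contra hne
  have h1 := hR l 1 0 one_ne_zero n1 n2 n3 (n4 h13 h29 h659) P Q hP0 hQ0
    (by simpa using (int_tors hI h5 hP0 hP).1) (by simpa using (int_tors hI h5 hQ0 hQ).1)
    (by simpa using hx) (by simpa using hy)
  have h2 : 5 ^ (n + m) • (P - Q) = 0 := by
    rw [smul_sub, pow_add, mul_smul _ _ Q, hQ, smul_zero, mul_comm, mul_smul, hP, smul_zero,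
      sub_zero]
  have h3 := (int_tors hI h5 (sub_ne_zero.2 hne) h2).1
  rw [one_pow, div_one] at h1
  exact absurd (h1.resolve_left hne) (not_lt.2 h3)

theorem tb_ball (F : IntermediateField ℚ_[l] (Om l)) [FiniteDimensional ℚ_[l] F] :
    TotallyBounded {x : Om l | x ∈ F ∧ ‖x‖ ≤ 1} := by
  have : FiniteDimensional ℚ_[l] F.toSubalgebra.toSubmodule := ‹_›
  have : ProperSpace F.toSubalgebra.toSubmodule := FiniteDimensional.proper ℚ_[l] _
  have h := ((isCompact_closedBall (0 : F.toSubalgebra.toSubmodule) 1).image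
    continuous_subtype_val).totallyBounded
  refine h.subset ?_
  rintro x hx
  exact ⟨⟨x, hx.1⟩, mem_closedBall_zero_iff.2 hx.2, rfl⟩

/-- only finitely many torsion points are fixed by an open subgroup of the decomposition group -/
theorem finite_fixT (hF : FgS) (hE : EmbS) (hR : RedS) (hI : IntS) (h5 : l ≠ 5) (h13 : l ≠ 13)
    (h29 : l ≠ 29) (h659 : l ≠ 659) (ι : Qb →+* Om l) (V : Subgroup GQ) (hV : Opn V) :
    Finite (fixT (Dec ι ⊓ V)) := by
  obtain ⟨res, hc, hr, ho⟩ := hE.2.2.1 l ι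
  have hfd := ((hF ℚ_[l] (Om l)).1 _ (ho V hV)).1
  obtain ⟨t, ht, hcov⟩ := Metric.totallyBounded_iff.1 (tb_ball (fixedField (V.comap res))) 1
    one_pos
  have hmem : ∀ x : Qb, (∀ g ∈ Dec ι ⊓ V, g x = x) → ‖ι x‖ ≤ 1 → ∃ a ∈ t, ‖ι x - a‖ < 1 := by
    intro x hx h1
    have h2 : ι x ∈ fixedField (V.comap res) := by
      rw [mem_fixedField_iff]
      intro γ hγ
      rw [← hc γ x, hx (res γ) ⟨hr ▸ ⟨γ, rfl⟩, hγ⟩]
    obtain ⟨a, ha, h3⟩ := Set.mem_iUnion₂.1 (hcov ⟨h2, h1⟩)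
    exact ⟨a, ha, by rwa [Metric.mem_ball, dist_eq_norm] at h3⟩
  have hsub : ∀ a b : Om l, {P : Pt E0 Qb | P ≠ 0 ∧ (∃ n : ℕ, 5 ^ n • P = 0) ∧
      ‖ι (xc P) - a‖ < 1 ∧ ‖ι (yc P) - b‖ < 1}.Subsingleton := by
    rintro a b P ⟨hP0, ⟨n, hn⟩, hPx, hPy⟩ Q ⟨hQ0, ⟨m, hm⟩, hQx, hQy⟩
    have hd : ∀ u v c : Om l, ‖u - c‖ < 1 → ‖v - c‖ < 1 → ‖u - v‖ < 1 := by
      intro u v c hu hv
      have e : u - v = (u - c) + -(v - c) := by ring
      rw [e]
      exact (IsUltrametricDist.norm_add_le_max _ _).trans_lt (max_lt hu (by rwa [norm_neg]))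
    refine pmap_inj ι (eq_of_close hR hI h5 h13 h29 h659 (n := n) (m := m) ?_ ?_ ?_ ?_ ?_ ?_)
    · exact (map_ne_zero_iff _ (pmap_inj ι)).2 hP0
    · exact (map_ne_zero_iff _ (pmap_inj ι)).2 hQ0
    · rw [← map_nsmul, hn, map_zero]
    · rw [← map_nsmul, hm, map_zero]
    · rw [xc_pmap, xc_pmap]; exact hd _ _ _ hPx hQx
    · rw [yc_pmap, yc_pmap]; exact hd _ _ _ hPy hQy
  refine Set.Finite.subset ((Set.finite_singleton (0 : Pt E0 Qb)).union
    (ht.biUnion fun a _ => ht.biUnion fun b _ => (hsub a b).finite)) ?_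
  rintro P ⟨⟨n, hn⟩, hP⟩
  by_cases h0 : P = 0
  · exact Or.inl h0
  · have h1 := int_tors hI h5 (n := n) ((map_ne_zero_iff _ (pmap_inj ι)).2 h0)
      (by rw [← map_nsmul, hn, map_zero])
    rw [xc_pmap, yc_pmap] at h1
    obtain ⟨a, ha, h2⟩ := hmem (xc P) (fun g hg => by
      have := xc_pmap (g : Qb →+* Qb) P
      exact this.symm.trans (congrArg xc (hP g hg))) h1.1
    obtain ⟨b, hb, h3⟩ := hmem (yc P) (fun g hg => by
      have := yc_pmap (g : Qb →+* Qb) P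
      exact this.symm.trans (congrArg yc (hP g hg))) h1.2
    exact Or.inr (Set.mem_biUnion ha (Set.mem_biUnion hb ⟨h0, ⟨n, hn⟩, h2, h3⟩))

/-- unit-type homomorphisms vanish on inertia -/
theorem tt_inert (hE : EmbS) (h5 : l ≠ 5) (ι : Qb →+* Om l) (d : Rep) (m : ℕ) {f : GQ → Pt E0 Qb}
    (hf : f ∈ TT d m) : ∃ s : Finset Qb, ∀ U : Subgroup GQ, (∀ x ∈ s, Fx U x) →
      ∀ g ∈ lev d.ρ m, Inert ι U g → f g = 0 := by
  induction hf using AddSubgroup.closure_induction with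
  | mem f hf =>
    obtain ⟨k, ξ, y, T, -, hξ, hy, hT, h⟩ := hf
    refine ⟨{y}, fun U hU g hg hi => ?_⟩
    obtain ⟨n, h1, h2⟩ := h g hg
    have a1 := hE.2.2.2.2.2.2.1 l ι y hy.2.1
    have a2 := hE.2.2.2.2.2.2.1 l ι y⁻¹ hy.2.2
    have a0 : 0 < ‖ι y‖ := norm_pos_iff.2 ((map_ne_zero ι).2 hy.1)
    rw [map_inv₀, norm_inv] at a2
    have a3 : ‖ι y‖ = 1 := le_antisymm a1 ((inv_le_one₀ a0).1 a2)
    have h3 := hi y (hU y (Finset.mem_singleton_self y)) a1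
    have e : g y - y = (ξ ^ n - 1) * y := by rw [h1]; ring
    rw [e, map_mul, norm_mul, a3, mul_one, map_sub, map_one] at h3
    have h4 : ι (ξ ^ n) = 1 := root_eq_one h5 (k := k) (by
      rw [← map_pow, ← pow_mul, mul_comm, pow_mul, hξ.pow_eq_one, one_pow, map_one]) h3
    have h6 : ξ ^ n = 1 := ι.injective (by rw [h4, map_one])
    obtain ⟨c, hc⟩ := hξ.dvd_of_pow_eq_one n h6
    rw [h2, hc, mul_comm, mul_smul, hT, smul_zero]
  | zero => exact ⟨∅, fun _ _ _ _ _ => rfl⟩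
  | add f f' _ _ h h' =>
    obtain ⟨s, hs⟩ := h
    obtain ⟨s', hs'⟩ := h'
    refine ⟨s ∪ s', fun U hU g hg hi => ?_⟩
    rw [Pi.add_apply, hs U (fun x hx => hU x (Finset.mem_union_left _ hx)) g hg hi,
      hs' U (fun x hx => hU x (Finset.mem_union_right _ hx)) g hg hi, add_zero]
  | neg f _ h =>
    obtain ⟨s, hs⟩ := h
    exact ⟨s, fun U hU g hg hi => by rw [Pi.neg_apply, hs U hU g hg hi, neg_zero]⟩

end Good

/-- an endomorphism of a finite group with small kernel has large image -/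
theorem nsmul_mem_range {A C : Type} [AddCommGroup A] [Finite A] [AddCommGroup C] (φ : A →+ A)
    (j : φ.ker →+ C) (hj : Function.Injective j) (a : A) : Nat.card C • a ∈ φ.range := by
  obtain ⟨c, hc⟩ := AddSubgroup.card_dvd_of_injective j hj
  rw [hc, ← AddSubgroup.index_range, mul_comm, mul_smul]
  exact nsmul_mem (φ.range.nsmul_index_mem a) c

/-- the pointwise stabiliser of a finite set -/
def stab (s : Finset Qb) : Subgroup GQ where
  carrier := {g | ∀ x ∈ s, g x = x}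
  one_mem' := fun _ _ => rfl
  mul_mem' := fun {a b} ha hb x h => by rw [AlgEquiv.mul_apply, hb x h, ha x h]
  inv_mem' := fun {a} ha x h => by
    calc a⁻¹ x = a⁻¹ (a x) := by rw [ha x h]
      _ = x := by rw [← AlgEquiv.mul_apply, inv_mul_cancel, AlgEquiv.one_apply]

theorem opn_inf {U V : Subgroup GQ} (hU : Opn U) (hV : Opn V) : Opn (U ⊓ V) := by
  obtain ⟨s, hs⟩ := hU
  obtain ⟨t, ht⟩ := hV
  exact ⟨s ∪ t, fun g hg => ⟨hs g fun x hx => hg x (Finset.mem_union_left _ hx),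
    ht g fun x hx => hg x (Finset.mem_union_right _ hx)⟩⟩

end TLocGood

open TLocGood in
theorem locGoodS (hF : FgS) (hE : EmbS) (hR : RedS) (hC : CyclS) (hD : DivS) (hI : IntS)
    (hN : InertS) (hT : TtS) : LocGoodS := by
  intro d m hm f hf l _ h5 h13 h29 h659 ι
  obtain ⟨hadd, hkill, -⟩ := hT d m hm f hf
  have hfin := finite_fixT hF hE hR hI h5 h13 h29 h659 ι (lev d.ρ m) (d.opn_lev m)
  obtain ⟨r, c, hc5, hc⟩ := Nat.exists_eq_pow_mul_and_not_dvd
    (Nat.card_pos (α := fixT (Dec ι ⊓ lev d.ρ m))).ne' 5 (by norm_num)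
  obtain ⟨s, hs⟩ := tt_inert hE h5 ι d m hf
  obtain ⟨U₁, hU₁n, hU₁o, -, hU₁⟩ := hN d l h5 h13 h659 ι (m + r)
  have hG : IsGalois ℚ Qb := @IsAlgClosure.isGalois ℚ Qb _ _ (AlgebraicClosure.instAlgebra ℚ) _ _
  have hso : Opn (stab s).normalCore := ((hF ℚ Qb).1 (stab s) ⟨s, fun _ hg => hg⟩).2.2.2.2.2
  obtain ⟨g₀, hg₀, hcyc⟩ := (hC l ι (U₁ ⊓ (stab s).normalCore) inferInstance
    (opn_inf hU₁o hso)).1 (Dec ι ⊓ lev d.ρ m) inf_le_left
  have hdec : ∀ g ∈ Dec ι ⊓ lev d.ρ m, ∃ (k : ℕ) (i : GQ), i ∈ lev d.ρ (m + r) ∧ f i = 0 ∧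
      g = i * g₀ ^ k := by
    intro g hg
    obtain ⟨k, hk⟩ := hcyc g hg
    have h1 : g * (g₀ ^ k)⁻¹ ∈ lev d.ρ m := mul_mem hg.2 (inv_mem (pow_mem hg₀.2 k))
    refine ⟨k, g * (g₀ ^ k)⁻¹, (hU₁ _ (fun x hx => hk x fun a ha => hx a ha.1)
      (lev_anti d.ρ hm h1)).1, hs _ (fun x hx a ha => ?_) _ h1 hk, by group⟩
    exact (stab s).normalCore_le ha.2 x hx
  have hfinA := finite_tors d (m + r)
  have hact : ∀ (g : GQ), ∀ P ∈ tors (m + r), act E0 g P ∈ tors (m + r) := fun g P hP => by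
    rw [mem_tors] at hP ⊢
    rw [← map_nsmul, hP, map_zero]
  let φ : tors (m + r) →+ tors (m + r) :=
    { toFun := fun P => ⟨act E0 g₀ P.1 - P.1, sub_mem (hact g₀ _ P.2) P.2⟩
      map_zero' := Subtype.ext (by simp)
      map_add' := fun P Q => Subtype.ext (by
        simp only [AddSubgroup.coe_add, map_add]; abel) }
  have hker : ∀ P : φ.ker, P.1.1 ∈ fixT (Dec ι ⊓ lev d.ρ m) := by
    intro P
    have h0 : act E0 g₀ P.1.1 = P.1.1 := sub_eq_zero.1 (congrArg Subtype.val P.2)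
    have hp : ∀ k : ℕ, act E0 (g₀ ^ k) P.1.1 = P.1.1 := by
      intro k
      induction k with
      | zero => rw [pow_zero, act_one]
      | succ k ih => rw [pow_succ, act_mul, h0, ih]
    refine ⟨⟨m + r, P.1.2⟩, fun g hg => ?_⟩
    obtain ⟨k, i, hi, -, rfl⟩ := hdec g hg
    rw [act_mul, hp, (d.mem_lev i _).1 hi _ P.1.2]
  let j : φ.ker →+ fixT (Dec ι ⊓ lev d.ρ m) :=
    { toFun := fun P => ⟨P.1.1, hker P⟩
      map_zero' := rfl
      map_add' := fun _ _ => rfl }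
  have hj : Function.Injective j := fun P Q h =>
    Subtype.ext (Subtype.ext (congrArg (fun x : fixT (Dec ι ⊓ lev d.ρ m) => x.1) h))
  have hQ := hkill g₀ hg₀.2
  obtain ⟨Q', hQ'⟩ := exists_div hD r (f g₀)
  have hQ'' : 5 ^ (m + r) • Q' = 0 := by rw [pow_add, mul_smul, hQ', hQ]
  have hcop : c.Coprime (5 ^ (m + r)) :=
    (Nat.Coprime.symm ((Nat.Prime.coprime_iff_not_dvd (by norm_num)).2 hc5)).pow_right _
  obtain ⟨t, -, ht⟩ := Nat.exists_mul_mod_eq_one_of_coprime hcop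
    (Nat.one_lt_pow (by omega) (by norm_num))
  obtain ⟨P₀, hP₀⟩ := nsmul_mem_range φ j hj ⟨t • Q', nsmul_mem (mem_tors.2 hQ'') t⟩
  have hP₁ : act E0 g₀ P₀.1 = P₀.1 + f g₀ := by
    have h1 : act E0 g₀ P₀.1 - P₀.1 = (5 ^ r * c) • t • Q' := by
      rw [← hc]; exact congrArg Subtype.val hP₀
    rw [mul_smul, ← mul_smul c t, nsmul_mod hQ'' (c * t), ht, one_smul, hQ'] at h1
    rw [← h1]; abel
  have hf1 : f 1 = 0 := by
    have := hadd 1 (one_mem _) 1 (one_mem _)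
    rw [mul_one] at this
    exact left_eq_add.1 this
  have hpow : ∀ k : ℕ, act E0 (g₀ ^ k) P₀.1 = P₀.1 + f (g₀ ^ k) := by
    intro k
    induction k with
    | zero => rw [pow_zero, act_one, hf1, add_zero]
    | succ k ih =>
      rw [pow_succ, act_mul, hP₁, map_add, ih, (d.mem_lev _ m).1 (pow_mem hg₀.2 k) _ hQ,
        hadd _ (pow_mem hg₀.2 k) _ hg₀.2, add_assoc]
  refine ⟨pmap E0 ι P₀.1, fun γ g hg hγ => ?_⟩
  obtain ⟨k, i, hi, hi0, rfl⟩ := hdec g ⟨⟨γ, hγ⟩, hg⟩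
  rw [← pmap_act hγ, ← map_sub, act_mul, (d.mem_lev i _).1 hi _ (hact _ _ P₀.2), hpow,
    hadd i (lev_anti d.ρ (Nat.le_add_right m r) hi) _ (pow_mem hg₀.2 k), hi0, zero_add,
    add_sub_cancel_left]

end Pool.Agent.Lib.MP_54db3e_nt
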