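import Pool.Agent.Lib.MP_54db3e_nt.Stmt
import Pool.Agent.Lib.MP_54db3e_nt.H79GO

/-!
The minus part of `F^*/5` for the two quadratic extensions `F = Q_5(r)`.
-/

open scoped Classical

noncomputable section

namespace Pool.Agent.Lib.MP_54db3e_nt

namespace TLocR

open H79

theorem norm_alg_nat (n : ℕ) : ‖(n : Om 5)‖ = ‖(n : ℚ_[5])‖ := by
  rw [← norm_alg, map_natCast]

theorem norm_two : ‖(2 : Om 5)‖ = 1 := by
  have h := norm_alg_nat 2
  rw [Padic.norm_natCast_eq_one_iff.2 (by norm_num)] at h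
  exact_mod_cast h

theorem norm_seven : ‖(7 : Om 5)‖ = 1 := by
  have h := norm_alg_nat 7
  rw [Padic.norm_natCast_eq_one_iff.2 (by norm_num)] at h
  exact_mod_cast h

theorem norm_five : ‖(5 : Om 5)‖ = 5⁻¹ := by
  have h := norm_alg_nat 5
  rw [Padic.norm_p] at h
  exact_mod_cast h

theorem nsub (x y : Om 5) : ‖x - y‖ ≤ max ‖x‖ ‖y‖ := by
  simpa [sub_eq_add_neg] using IsUltrametricDist.norm_add_le_max x (-y)

theorem norm_one_add {x : Om 5} (h : ‖x‖ < 1) : ‖1 + x‖ = 1 := by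
  rw [IsUltrametricDist.norm_add_eq_max_of_norm_ne_norm (by rw [norm_one]; exact h.ne'), norm_one]
  exact max_eq_left h.le

theorem exists_rho {r : Om 5} (hr : r ^ 4 - 7 * r ^ 2 + 5 = 0) :
    ∃ c : ℚ_[5], c ≠ 0 ∧ ‖algebraMap _ _ c * r‖ < 1 ∧ 1 ≤ 5 * ‖algebraMap _ _ c * r‖ ∧
      ‖algebraMap _ _ c * r‖ ^ 4 < 5⁻¹ := by
  have e : ‖r‖ ^ 2 * ‖r ^ 2 - 7‖ = 5⁻¹ := by
    rw [← norm_pow, ← norm_mul, ← norm_five, ← norm_neg (5 : Om 5)]
    congr 1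
    linear_combination hr
  have h0 := norm_nonneg r
  rcases lt_trichotomy ‖r‖ 1 with h | h | h
  · have h1 : ‖r ^ 2‖ < 1 := by
      rw [norm_pow]
      nlinarith
    rw [sub_eq_add_neg, IsUltrametricDist.norm_add_eq_max_of_norm_ne_norm
      (by rw [norm_neg, norm_seven]; exact h1.ne), norm_neg, norm_seven, max_eq_right h1.le,
      mul_one] at e
    refine ⟨1, one_ne_zero, by simpa using h, ?_, ?_⟩
    · rw [map_one, one_mul]
      nlinarith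
    · rw [map_one, one_mul, show ‖r‖ ^ 4 = (‖r‖ ^ 2) ^ 2 by ring, e]
      norm_num
  · refine ⟨5, by norm_num, ?_⟩
    rw [map_ofNat, norm_mul, norm_five, h]
    norm_num
  · have h1 : 1 < ‖r ^ 2‖ := by
      rw [norm_pow]
      nlinarith
    rw [sub_eq_add_neg, IsUltrametricDist.norm_add_eq_max_of_norm_ne_norm
      (by rw [norm_neg, norm_seven]; exact h1.ne'), norm_neg, norm_seven, max_eq_left h1.le,
      ← norm_pow] at e
    nlinarith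

theorem coords {r y : Om 5} (hr : r ^ 4 - 7 * r ^ 2 + 5 = 0)
    (hy : ∀ γ : Gl 5, γ r = r → γ y = y) :
    ∃ α β : ℚ_[5], y = algebraMap _ _ α + algebraMap _ _ β * r := by
  obtain ⟨δ, h1, -⟩ := exists_delta hr
  obtain ⟨Z, rfl⟩ := mem_of_mem_adjoin
    (qev (a := (δ : ℚ_[5])) (b := 0) (algebraMap ℚ_[5] (PadicAlgCl 5)) r
      (by simpa [zi_apply] using h1)).range (fun x => ⟨⟨x, 0⟩, by simp [qev_apply]⟩)
      ⟨⟨0, 1⟩, by simp [qev_apply]⟩ (mem_adjoin_of_fixed fun γ hγ => hy γ (hγ r rfl))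
  exact ⟨Z.re, Z.im, qev_apply _ _ _ _⟩

/-- elements of norm one close to one -/
theorem step {ρ y : Om 5} {γ₀ : Gl 5} (hn : ∀ x, ‖γ₀ x‖ = ‖x‖) (hρ : γ₀ ρ = -ρ)
    (hc : ∃ α β : ℚ_[5], y = algebraMap _ _ α + algebraMap _ _ β * ρ) (h1 : y * γ₀ y = 1)
    (h2 : ‖y - 1‖ < 1) :
    ∃ β : ℚ_[5], ‖y - 1 - algebraMap _ _ β * ρ‖ = ‖y - 1‖ ^ 2 ∧ ‖β‖ * ‖ρ‖ = ‖y - 1‖ := by
  obtain ⟨α, β, e⟩ := hc
  have e' : γ₀ y = algebraMap _ _ α - algebraMap _ _ β * ρ := by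
    rw [e, map_add, map_mul, γ₀.commutes, γ₀.commutes, hρ]
    ring
  have k : 2 * (y - 1 - algebraMap _ _ β * ρ) = -((y - 1) * γ₀ (y - 1)) := by
    rw [map_sub, map_one]
    linear_combination e - e' + h1
  have k1 := congrArg norm k
  rw [norm_mul, norm_two, one_mul, norm_neg, norm_mul, hn, ← sq] at k1
  refine ⟨β, k1, ?_⟩
  rw [← norm_alg, ← norm_mul]
  have h0 := norm_nonneg (y - 1)
  have l1 := nsub (y - 1) (y - 1 - algebraMap _ _ β * ρ)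
  have l2 := IsUltrametricDist.norm_add_le_max (y - 1 - algebraMap _ _ β * ρ)
    (algebraMap _ _ β * ρ)
  rw [sub_sub_cancel, k1, max_eq_left (by nlinarith)] at l1
  rw [sub_add_cancel, k1] at l2
  rcases le_max_iff.1 l2 with l3 | l3
  · have : ‖y - 1‖ = 0 := by nlinarith
    rw [this] at l1 ⊢
    exact le_antisymm l1 (norm_nonneg _)
  · exact le_antisymm l1 l3

theorem pow_gen {ρ : Om 5} (h : ‖ρ‖ < 1) (i : ℕ) :
    ‖((1 + ρ) / (1 - ρ)) ^ i - 1 - 2 * i * ρ‖ ≤ ‖ρ‖ ^ 2 := by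
  have n1 : ‖1 - ρ‖ = 1 := by
    rw [sub_eq_add_neg]
    exact norm_one_add (by rwa [norm_neg])
  have n0 : 1 - ρ ≠ 0 := norm_pos_iff.1 (by rw [n1]; exact one_pos)
  have ng : ‖(1 + ρ) / (1 - ρ)‖ = 1 := by rw [norm_div, n1, norm_one_add h, div_one]
  have b : ‖(1 + ρ) / (1 - ρ) - 1 - 2 * ρ‖ = ‖ρ‖ ^ 2 := by
    have : (1 + ρ) / (1 - ρ) - 1 - 2 * ρ = 2 * ρ ^ 2 / (1 - ρ) := by
      field_simp
      ring
    rw [this, norm_div, n1, norm_mul, norm_two, norm_pow, one_mul, div_one]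
  generalize (1 + ρ) / (1 - ρ) = g at ng b
  induction i with
  | zero => simp
  | succ i ih =>
    have e : g ^ (i + 1) - 1 - 2 * ((i + 1 : ℕ) : Om 5) * ρ = g * (g ^ i - 1 - 2 * i * ρ) +
        ((g - 1 - 2 * ρ) * (1 + ((2 * i : ℕ) : Om 5) * ρ) + ((4 * i : ℕ) : Om 5) * ρ ^ 2) := by
      push_cast
      ring
    have m1 := IsUltrametricDist.norm_natCast_le_one (Om 5) (2 * i)
    have m2 := IsUltrametricDist.norm_natCast_le_one (Om 5) (4 * i)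
    rw [e]
    refine (IsUltrametricDist.norm_add_le_max _ _).trans (max_le (by rwa [norm_mul, ng, one_mul])
      ((IsUltrametricDist.norm_add_le_max _ _).trans (max_le ?_ ?_)))
    · rw [norm_mul, b, norm_one_add, mul_one]
      rw [norm_mul]
      exact mul_lt_one_of_nonneg_of_lt_one_right m1 (norm_nonneg _) h
    · rw [norm_mul, norm_pow]
      exact mul_le_of_le_one_left (by positivity) m2

theorem exists_nat {β : ℚ_[5]} (h : ‖β‖ ≤ 1) : ∃ i : ℕ, ‖β - 2 * i‖ < 1 := by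
  let b : ℤ_[5] := ⟨β, h⟩
  refine ⟨3 * b.zmodRepr, ?_⟩
  have h1 : ‖b - (b.zmodRepr : ℤ_[5])‖ < 1 := PadicInt.mem_nonunits.1 b.sub_zmodRepr_mem
  have h2 : ‖β - (b.zmodRepr : ℚ_[5])‖ < 1 := by
    rwa [PadicInt.norm_def, PadicInt.coe_sub, PadicInt.coe_natCast] at h1
  have e : β - 2 * ((3 * b.zmodRepr : ℕ) : ℚ_[5]) =
      β - (b.zmodRepr : ℚ_[5]) + -(((5 : ℕ) : ℚ_[5]) * (b.zmodRepr : ℚ_[5])) := by
    push_cast
    ring
  rw [e]
  refine (IsUltrametricDist.norm_add_le_max _ _).trans_lt (max_lt h2 ?_)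
  rw [norm_neg, norm_mul, Padic.norm_p]
  exact mul_lt_one_of_nonneg_of_lt_one_left (by norm_num) (by norm_num)
    (IsUltrametricDist.norm_natCast_le_one _ _)

end TLocR

open TLocR H79 in
theorem locRS (hE : EmbS) (hU : U5S) : LocRS := by
  intro r hr γ₀ hγ
  have hn := hE.2.2.2.1 5 γ₀
  obtain ⟨c, hc0, r1, r2, r3⟩ := exists_rho hr
  set ρ := algebraMap ℚ_[5] (Om 5) c * r with hρ
  have r0 : 0 < ‖ρ‖ := by linarith
  have fρ : ∀ γ : Gl 5, γ r = r → γ ρ = ρ := fun γ h => by rw [hρ, map_mul, γ.commutes, h]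
  have gρ : γ₀ ρ = -ρ := by rw [hρ, map_mul, γ₀.commutes, hγ, mul_neg]
  have co : ∀ y : Om 5, (∀ γ : Gl 5, γ r = r → γ y = y) →
      ∃ α β : ℚ_[5], y = algebraMap _ _ α + algebraMap _ _ β * ρ := fun y hy => by
    obtain ⟨α, β, e⟩ := coords hr hy
    refine ⟨α, β / c, ?_⟩
    rw [e, hρ, ← mul_assoc, ← map_mul, div_mul_cancel₀ _ hc0]
  have n1 : ‖1 - ρ‖ = 1 := by
    rw [sub_eq_add_neg]
    exact norm_one_add (by rwa [norm_neg])
  have n2 := norm_one_add r1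
  have z1 : 1 - ρ ≠ 0 := norm_pos_iff.1 (by rw [n1]; exact one_pos)
  have z2 : 1 + ρ ≠ 0 := norm_pos_iff.1 (by rw [n2]; exact one_pos)
  have hp := pow_gen r1
  set g := (1 + ρ) / (1 - ρ) with hg
  have g0 : g ≠ 0 := div_ne_zero z2 z1
  have ng : ‖g‖ = 1 := by rw [hg, norm_div, n1, n2, div_one]
  have fg : ∀ γ : Gl 5, γ r = r → γ g = g := fun γ h => by
    rw [hg, map_div₀, map_add, map_sub, map_one, fρ γ h]
  have gg : g * γ₀ g = 1 := by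
    rw [hg, map_div₀, map_add, map_sub, map_one, gρ, sub_neg_eq_add, ← sub_eq_add_neg]
    field_simp
  refine ⟨g, g0, fg, fun x hx fx ⟨t, ft, ht⟩ => ?_⟩
  have hx' : γ₀ x ≠ 0 := by simpa using hx
  have fx' : ∀ γ : Gl 5, γ r = r → γ (γ₀ x) = γ₀ x := fun γ h => by
    rw [ht, map_mul, map_pow, map_pow, fx γ h, ft γ h]
  have xx : γ₀ (γ₀ x) = x := fx (γ₀ * γ₀) (by rw [AlgEquiv.mul_apply, hγ, map_neg, hγ, neg_neg])
  obtain ⟨m, hm, h1⟩ := hE.2.2.2.2.2.1 5 (x / γ₀ x)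
    (by rw [norm_div, hn, div_self (norm_ne_zero_iff.2 hx)])
  set y := (x / γ₀ x) ^ m with hy
  have fy : ∀ γ : Gl 5, γ r = r → γ y = y := fun γ h => by
    rw [hy, map_pow, map_div₀, fx γ h, fx' γ h]
  have yy : y * γ₀ y = 1 := by
    rw [hy, map_pow, map_div₀, xx, ← mul_pow, div_mul_div_cancel₀ hx', div_self hx, one_pow]
  obtain ⟨β, b1, b2⟩ := step hn gρ (co y fy) yy h1
  have b3 : ‖β‖ ≤ 1 := by
    have := (Padic.norm_le_pow_iff_norm_lt_pow_add_one β 0).2 (by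
      norm_num
      nlinarith [norm_nonneg β])
    simpa using this
  obtain ⟨i, hi⟩ := exists_nat b3
  have b4 : ‖y - 1‖ ≤ ‖ρ‖ := b2 ▸ mul_le_of_le_one_left r0.le b3
  have h2 : ‖y / g ^ i - 1‖ < ‖ρ‖ := by
    have e : y / g ^ i - 1 = ((y - 1 - algebraMap _ _ β * ρ) + algebraMap _ _ (β - 2 * i) * ρ -
        (g ^ i - 1 - 2 * i * ρ)) / g ^ i := by
      rw [map_sub, map_mul, map_ofNat, map_natCast]
      field_simp
      ring
    have q : ‖ρ‖ ^ 2 < ‖ρ‖ := by nlinarith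
    rw [e, norm_div, norm_pow, ng, one_pow, div_one]
    refine (nsub _ _).trans_lt (max_lt ((IsUltrametricDist.norm_add_le_max _ _).trans_lt
      (max_lt ?_ ?_)) ((hp i).trans_lt q))
    · rw [b1]
      exact (pow_le_pow_left₀ (norm_nonneg _) b4 2).trans_lt q
    · rw [norm_mul, norm_alg]
      exact mul_lt_of_lt_one_left r0 hi
  have fy' : ∀ γ : Gl 5, γ r = r → γ (y / g ^ i) = y / g ^ i := fun γ h => by
    rw [map_div₀, map_pow γ g, fy γ h, fg γ h]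
  obtain ⟨β', -, b5⟩ := step hn gρ (co _ fy')
    (by rw [map_div₀, map_pow γ₀ g, div_mul_div_comm, yy, ← mul_pow, gg, one_pow, div_one])
    (h2.trans r1)
  have b6 : ‖β'‖ ≤ 5⁻¹ := by
    have := (Padic.norm_le_pow_iff_norm_lt_pow_add_one β' (-1)).2 (by
      norm_num
      exact lt_of_mul_lt_mul_right (by rw [b5, one_mul]; exact h2) r0.le)
    simpa using this
  obtain ⟨s, -, hs, fs⟩ := hU.2.1 (y / g ^ i - 1) (by
    rw [← b5, mul_pow]
    calc ‖β'‖ ^ 4 * ‖ρ‖ ^ 4 ≤ 5⁻¹ ^ 4 * ‖ρ‖ ^ 4 := by gcongr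
      _ < 5⁻¹ ^ 4 * 5⁻¹ := by gcongr
      _ = 5⁻¹ ^ 5 := by norm_num)
  rw [add_sub_cancel, eq_div_iff (pow_ne_zero i g0)] at hs
  obtain ⟨k, n, e⟩ : ∃ k n : ℕ, 2 * m * k = n * 5 + 1 := by
    have h5 : m % 5 = 1 ∨ m % 5 = 2 ∨ m % 5 = 3 ∨ m % 5 = 4 := by omega
    rcases h5 with h5 | h5 | h5 | h5
    exacts [⟨3, 2 * m * 3 / 5, by omega⟩, ⟨4, 2 * m * 4 / 5, by omega⟩,
      ⟨1, 2 * m * 1 / 5, by omega⟩, ⟨2, 2 * m * 2 / 5, by omega⟩]
  have e2 : x ^ 2 = x / γ₀ x * (x * t) ^ 5 := by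
    rw [div_mul_eq_mul_div, eq_div_iff hx', ht]
    ring
  have e3 : x ^ (2 * m) = g ^ i * ((1 + s) * (x * t) ^ m) ^ 5 := by
    rw [pow_mul, e2, mul_pow, ← hy, ← hs]
    ring
  refine ⟨i * k, ((1 + s) * (x * t) ^ m) ^ k / x ^ n, fun γ h => ?_, ?_⟩
  · have := fs γ (by rw [map_sub, map_one, fy' γ h])
    simp only [map_div₀, map_pow, map_mul, map_add, map_one, this, fx γ h, ft γ h]
  · rw [div_pow _ (x ^ n), ← mul_div_assoc, eq_div_iff (pow_ne_zero _ (pow_ne_zero _ hx)), pow_mul g,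
      ← pow_mul _ k 5, pow_mul' _ k 5, ← mul_pow, ← e3, ← pow_mul, ← pow_mul, e]
    ring

end Pool.Agent.Lib.MP_54db3e_nt
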