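import Pool.Agent.Lib.MP_54db3e_nt.TLce1
import Pool.Agent.Lib.MP_54db3e_nt.H79Loc

/-!
Eigenspaces of `F^*/5` for `F = Q_5(z)`.
-/

open scoped Classical
open Polynomial

noncomputable section

namespace Pool.Agent.Lib.MP_54db3e_nt

namespace TLocZ

open TLce

/-- fixed by the stabiliser of `z` -/
def Fz (z y : Om 5) : Prop := ∀ γ : Gl 5, γ z = z → γ y = y

variable {z : Om 5}

theorem Fz.mul {x y : Om 5} (hx : Fz z x) (hy : Fz z y) : Fz z (x * y) := fun γ h => by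
  rw [map_mul, hx γ h, hy γ h]

theorem Fz.div {x y : Om 5} (hx : Fz z x) (hy : Fz z y) : Fz z (x / y) := fun γ h => by
  rw [map_div₀, hx γ h, hy γ h]

theorem Fz.pow {x : Om 5} (hx : Fz z x) (n : ℕ) : Fz z (x ^ n) := fun γ h => by
  rw [map_pow, hx γ h]

theorem Fz.zpow {x : Om 5} (hx : Fz z x) (n : ℤ) : Fz z (x ^ n) := fun γ h => by
  rw [map_zpow₀, hx γ h]

theorem Fz.sub_one {x : Om 5} (hx : Fz z x) : Fz z (x - 1) := fun γ h => by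
  rw [map_sub, map_one, hx γ h]

theorem Fz.one_add {x : Om 5} (hx : Fz z x) : Fz z (1 + x) := fun γ h => by
  rw [map_add, map_one, hx γ h]

theorem fz_self : Fz z z := fun _ h => h

theorem fz_one : Fz z 1 := fun γ _ => map_one γ

theorem binom {b : Om 5} (hb : ‖b‖ ≤ 1) (i : ℕ) : ‖(1 + b) ^ i - 1 - i * b‖ ≤ ‖b‖ ^ 2 := by
  induction i with
  | zero => simp
  | succ i ih =>
    have e : (1 + b) ^ (i + 1) - 1 - ((i + 1 : ℕ) : Om 5) * b =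
        ((1 + b) ^ i - 1 - i * b) * (1 + b) + b ^ 2 * i := by
      push_cast
      ring
    rw [e]
    exact nadd (nmul1 ih (nadd (norm_one (α := Om 5)).le hb))
      (nmul1 (norm_pow b 2).le (nnat i))

theorem dvd_of_lt {m : ℤ} (h : ‖(m : Om 5)‖ < 1) : (5 : ℤ) ∣ m := by
  rw [← map_intCast am, nam] at h
  exact_mod_cast (Padic.norm_intCast_lt_one_iff (p := 5)).1 h

theorem le_of_dvd {m : ℤ} (h : (5 : ℤ) ∣ m) : ‖(m : Om 5)‖ ≤ 5⁻¹ := by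
  obtain ⟨c, rfl⟩ := h
  push_cast
  exact nmul1 n5.le (IsUltrametricDist.norm_intCast_le_one _ c)

/-- the standing data -/
structure St (z : Om 5) (γ₀ : Gl 5) : Prop where
  hF : FgS
  hz : IsPrimitiveRoot z 5
  hq : ‖z - 1‖ ^ 4 = 5⁻¹
  hγ : γ₀ z = z ^ 2
  hn : ∀ x, ‖γ₀ x‖ = ‖x‖

/-- eigenvectors modulo fifth powers -/
def Eig (z : Om 5) (γ₀ : Gl 5) (k : ℕ) (y : Om 5) : Prop :=
  Fz z y ∧ y ≠ 0 ∧ ∃ t, Fz z t ∧ γ₀ y = y ^ k * t ^ 5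

variable {γ₀ : Gl 5} {k : ℕ}

theorem Eig.div {x y : Om 5} (hx : Eig z γ₀ k x) (hy : Eig z γ₀ k y) : Eig z γ₀ k (x / y) := by
  obtain ⟨a1, a2, s, a3, a4⟩ := hx
  obtain ⟨b1, b2, t, b3, b4⟩ := hy
  exact ⟨a1.div b1, div_ne_zero a2 b2, s / t, a3.div b3, by
    rw [map_div₀, a4, b4, div_pow, div_pow, div_mul_div_comm]⟩

theorem Eig.pow {x : Om 5} (hx : Eig z γ₀ k x) (n : ℕ) : Eig z γ₀ k (x ^ n) := by
  obtain ⟨a1, a2, s, a3, a4⟩ := hx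
  exact ⟨a1.pow n, pow_ne_zero n a2, s ^ n, a3.pow n, by
    rw [map_pow, a4]
    ring⟩

variable (S : St z γ₀)
include S

theorem St.q0 : 0 < ‖z - 1‖ := norm_pos_iff.2 (sub_ne_zero.2 (S.hz.ne_one (by norm_num)))

theorem St.q1 : ‖z - 1‖ < 1 := lt_of_pow_lt_pow_left₀ 4 zero_le_one (by
  rw [S.hq]
  norm_num)

theorem St.mono {m n : ℕ} (h : m ≤ n) : ‖z - 1‖ ^ n ≤ ‖z - 1‖ ^ m :=
  pow_le_pow_of_le_one S.q0.le S.q1.le h

theorem St.q5 : (5 : ℝ)⁻¹ ≤ ‖z - 1‖ := by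
  have := S.mono (m := 1) (n := 4) (by norm_num)
  rwa [S.hq, pow_one] at this

theorem St.conj {x : Om 5} (hx : Fz z x) : Fz z (γ₀ x) := fun γ h => by
  have h1 : (γ₀⁻¹ * γ * γ₀) z = z := by
    rw [AlgEquiv.mul_apply, AlgEquiv.mul_apply, S.hγ, map_pow γ, h, ← S.hγ,
      ← AlgEquiv.mul_apply, inv_mul_cancel, AlgEquiv.one_apply]
  have h2 := congrArg γ₀ (hx _ h1)
  rwa [← AlgEquiv.mul_apply, ← mul_assoc, ← mul_assoc, mul_inv_cancel, one_mul,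
    AlgEquiv.mul_apply] at h2

theorem St.eig5 {s : Om 5} (hs : Fz z s) (h0 : s ≠ 0) : Eig z γ₀ k (s ^ 5) :=
  ⟨hs.pow 5, pow_ne_zero 5 h0, γ₀ s / s ^ k, (S.conj hs).div (hs.pow k), by
    rw [map_pow, div_pow, ← pow_mul, ← pow_mul, mul_comm 5 k,
      mul_div_cancel₀ _ (pow_ne_zero _ h0)]⟩

theorem St.dig {w : Om 5} (hw : Fz z w) (h1 : ‖w‖ ≤ 1) : ∃ d : ℕ, d < 5 ∧ ‖w - d‖ ≤ ‖z - 1‖ := by
  have hp : (z - 1) ^ 4 + 5 * (z - 1) ^ 3 + 10 * (z - 1) ^ 2 + 10 * (z - 1) + 5 = 0 := by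
    have h := S.hz.geom_sum_eq_zero (by norm_num)
    simp only [Finset.sum_range_succ, Finset.sum_range_zero] at h
    linear_combination h
  obtain ⟨c, rfl⟩ := span_of_fixed S.hF (z - 1)
    (X ^ 4 + C 5 * X ^ 3 + C 10 * X ^ 2 + C 10 * X + C 5) (by monicity!) (n := 4) (by norm_num)
    (by compute_degree!)
    (by simpa only [map_add, map_mul, map_pow, aeval_X, aeval_C, map_ofNat] using hp) w
    (fun γ h => hw γ (by rwa [map_sub, map_one, sub_left_inj] at h))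
  have hc := H79.coord_int (p := 5) (e := 4) (l := z - 1) (by exact_mod_cast S.hq) c h1
  obtain ⟨d, hd, h2⟩ := digit (hc 0)
  refine ⟨d, hd, ?_⟩
  have e : ∑ i : Fin 4, am (c i) * (z - 1) ^ (i : ℕ) - d = (am (c 0) - d) +
      (z - 1) * (am (c 1) + am (c 2) * (z - 1) + am (c 3) * (z - 1) ^ 2) := by
    simp [Fin.sum_univ_four]
    ring
  have hc' : ∀ i, ‖am (c i)‖ ≤ 1 := fun i => by rw [nam]; exact hc i
  rw [e]
  exact nadd (h2.trans S.q5) (nmul1 le_rfl (nadd (nadd (hc' 1) (nmul1 (hc' 2) S.q1.le))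
    (nmul1 (hc' 3) (npow1 S.q1.le 2))))

theorem St.disc {w : Om 5} (hw : Fz z w) (h1 : ‖w‖ < 1) : ‖w‖ ≤ ‖z - 1‖ := by
  obtain ⟨d, hd, h2⟩ := S.dig hw h1.le
  have h3 := lsub h1 (h2.trans_lt S.q1)
  rw [sub_sub_cancel, ← Int.cast_natCast] at h3
  have h4 := dvd_of_lt h3
  obtain rfl : d = 0 := by omega
  simpa using h2

theorem St.val {x : Om 5} (hx : Fz z x) (h0 : x ≠ 0) : ∃ v : ℤ, ‖x‖ = ‖z - 1‖ ^ v := by
  have q0 := S.q0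
  obtain ⟨n, h1, h2⟩ := exists_mem_Ioc_zpow (norm_pos_iff.2 h0) ((one_lt_inv₀ q0).2 S.q1)
  have hp : 0 < ‖z - 1‖ ^ (n + 1) := zpow_pos q0 _
  rw [inv_zpow] at h1 h2
  refine ⟨-(n + 1), ?_⟩
  rw [zpow_neg]
  refine le_antisymm h2 (not_lt.1 fun h3 => ?_)
  have h4 := S.disc (hx.mul (fz_self.sub_one.zpow (n + 1))) (by
    rw [norm_mul, norm_zpow]
    exact (lt_inv_mul_iff₀' hp).1 (by simpa using h3))
  rw [norm_mul, norm_zpow, zpow_add_one₀ q0.ne', ← mul_assoc, mul_le_iff_le_one_left q0] at h4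
  rw [inv_lt_iff_one_lt_mul₀ (zpow_pos q0 _)] at h1
  linarith

theorem St.dign {y : Om 5} (hy : Fz z y) {n : ℕ} (h : ‖y - 1‖ ≤ ‖z - 1‖ ^ n) :
    ∃ d : ℕ, d < 5 ∧ ‖y - 1 - d * (z - 1) ^ n‖ ≤ ‖z - 1‖ ^ (n + 1) := by
  have hp : 0 < ‖z - 1‖ ^ n := pow_pos S.q0 n
  have h0 : (z - 1) ^ n ≠ 0 := pow_ne_zero n (norm_pos_iff.1 S.q0)
  obtain ⟨d, hd, h1⟩ := S.dig (hy.sub_one.div (fz_self.sub_one.pow n)) (by
    rw [norm_div, norm_pow]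
    exact (div_le_one hp).2 h)
  refine ⟨d, hd, ?_⟩
  rw [show y - 1 - d * (z - 1) ^ n = ((y - 1) / (z - 1) ^ n - d) * (z - 1) ^ n by field_simp,
    pow_succ']
  exact nmul h1 (norm_pow _ n).le

theorem St.fifth {t : Om 5} (ht : Fz z t) (h : ‖t ^ 5 - 1‖ < 1) : ‖t ^ 5 - 1‖ ≤ ‖z - 1‖ ^ 6 := by
  have h1 : ‖t‖ ≤ 1 := le_of_pow_le_pow_left₀ (n := 5) (by norm_num) zero_le_one (by
    rw [← norm_pow, one_of_near h, one_pow])
  have h2 : ‖t - 1‖ < 1 := lt_of_pow_lt_pow_left₀ 5 zero_le_one (by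
    rw [← norm_pow, one_pow, show (t - 1) ^ 5 = t ^ 5 - 1 -
      5 * (t ^ 4 - (t ^ 3 + t ^ 3) + (t ^ 2 + t ^ 2) - t) by ring]
    refine lsub h ((nmul1 n5.le ?_).trans_lt (by norm_num))
    exact nsub (nadd (nsub (npow1 h1 4) (nadd (npow1 h1 3) (npow1 h1 3)))
      (nadd (npow1 h1 2) (npow1 h1 2))) h1)
  obtain ⟨d, -, h3⟩ := S.dign ht (n := 1) (by rw [pow_one]; exact S.disc ht.sub_one h2)
  have h4 := nsub h3 (binom S.q1.le d)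
  rw [show t - 1 - d * (z - 1) ^ 1 - ((1 + (z - 1)) ^ d - 1 - d * (z - 1)) = t - z ^ d by ring] at h4
  have h5 := five_pow (ρ := ‖z - 1‖ ^ 6) (npow1 (one_of_near S.q1).le d)
    (pow_le_one₀ S.q0.le S.q1.le) h4 (by rw [← S.hq, ← pow_add])
    (by rw [← pow_mul]; exact S.mono (by norm_num))
  rwa [← pow_mul, mul_comm d, pow_mul, S.hz.pow_eq_one, one_pow] at h5

theorem St.step {y : Om 5} (hy : Eig z γ₀ k y) {n d : ℕ} (n1 : 1 ≤ n) (n5 : n ≤ 5)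
    (h : ‖y - 1‖ ≤ ‖z - 1‖ ^ n) (hd : ‖y - 1 - d * (z - 1) ^ n‖ ≤ ‖z - 1‖ ^ (n + 1)) :
    (5 : ℤ) ∣ 2 ^ n * d - k * d := by
  obtain ⟨f, y0, t, ft, e⟩ := hy
  have l1 : ‖y - 1‖ < 1 := h.trans_lt (pow_lt_one₀ S.q0.le S.q1 (by omega))
  have y1 := one_of_near l1
  have a1 : ‖y ^ k - 1 - k * (y - 1)‖ ≤ ‖z - 1‖ ^ (n + 1) := by
    have := binom l1.le k
    rw [add_sub_cancel] at this
    refine this.trans ((pow_le_pow_left₀ (norm_nonneg _) h 2).trans ?_)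
    rw [← pow_mul]
    exact S.mono (by omega)
  have a2 : ‖y ^ k - 1‖ < 1 := by
    have := ladd (a1.trans_lt (pow_lt_one₀ S.q0.le S.q1 (by omega)))
      (show ‖(k : Om 5) * (y - 1)‖ < 1 by
        rw [mul_comm]
        exact (nmul1 le_rfl (nnat k)).trans_lt l1)
    rwa [sub_add_cancel] at this
  have a3 : ‖t ^ 5 - 1‖ ≤ ‖z - 1‖ ^ (n + 1) := by
    refine (S.fifth ft ?_).trans (S.mono (by omega))
    have b1 : ‖γ₀ y - 1‖ < 1 := by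
      rw [← map_one γ₀, ← map_sub, S.hn]
      exact l1
    have b2 := lsub b1 a2
    rwa [e, show y ^ k * t ^ 5 - 1 - (y ^ k - 1) = y ^ k * (t ^ 5 - 1) by ring, norm_mul, norm_pow,
      y1, one_pow, one_mul] at b2
  have a4 : ‖γ₀ y - 1 - d * ((z - 1) ^ n * (z + 1) ^ n)‖ ≤ ‖z - 1‖ ^ (n + 1) := by
    rw [← S.hn, map_sub, map_sub, map_mul, map_pow, map_sub, map_one, map_natCast, S.hγ] at hd
    rwa [← mul_pow, show (z - 1) * (z + 1) = z ^ 2 - 1 by ring]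
  have a5 : ‖(z + 1) ^ n - 2 ^ n‖ ≤ ‖z - 1‖ := by
    clear h hd a1 a3 a4 n1 n5
    have z1 : ‖z + 1‖ ≤ 1 := nadd (one_of_near S.q1).le (norm_one (α := Om 5)).le
    induction n with
    | zero => simp
    | succ n ih =>
      rw [show (z + 1) ^ (n + 1) - 2 ^ (n + 1) = ((z + 1) ^ n - 2 ^ n) * (z + 1) +
        (z - 1) * ((2 ^ n : ℕ) : Om 5) by push_cast; ring]
      exact nadd (nmul1 ih z1) (nmul1 le_rfl (nnat _))
  have e2 : (z - 1) ^ n * ((2 ^ n * d - k * d : ℤ) : Om 5) =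
      (t ^ 5 - 1) * y ^ k + (y ^ k - 1 - k * (y - 1)) + (y - 1 - d * (z - 1) ^ n) * k -
        (γ₀ y - 1 - d * ((z - 1) ^ n * (z + 1) ^ n)) -
        (z - 1) ^ n * ((z + 1) ^ n - 2 ^ n) * d := by
    rw [e]
    push_cast
    ring
  have a6 : ‖(z - 1) ^ n * ((2 ^ n * d - k * d : ℤ) : Om 5)‖ ≤ ‖z - 1‖ ^ (n + 1) := by
    rw [e2]
    refine nsub (nsub (nadd (nadd (nmul1 a3 (npow1 y1.le k)) a1) (nmul1 hd (nnat k))) a4)
      (nmul1 ?_ (nnat d))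
    rw [pow_succ]
    exact nmul (norm_pow _ n).le a5
  rw [norm_mul, norm_pow, pow_succ] at a6
  exact dvd_of_lt ((le_of_mul_le_mul_left a6 (pow_pos S.q0 n)).trans_lt S.q1)

theorem St.kill {y : Om 5} (hy : Eig z γ₀ k y) {n : ℕ} (n1 : 1 ≤ n) (n5 : n ≤ 5)
    (h : ‖y - 1‖ ≤ ‖z - 1‖ ^ n) (hk : ∀ d : ℕ, d < 5 → (5 : ℤ) ∣ 2 ^ n * d - k * d → d = 0) :
    ‖y - 1‖ ≤ ‖z - 1‖ ^ (n + 1) := by
  obtain ⟨d, hd, h1⟩ := S.dign hy.1 h
  obtain rfl := hk d hd (S.step hy n1 n5 h h1)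
  simpa using h1

theorem St.divide {y g : Om 5} (hy : Fz z y) {n c : ℕ} (n1 : 1 ≤ n) (h : ‖y - 1‖ ≤ ‖z - 1‖ ^ n)
    (c0 : c ≠ 0) (c5 : c < 5) (hg : ‖g - 1 - c * (z - 1) ^ n‖ ≤ ‖z - 1‖ ^ (n + 1)) :
    ∃ i : ℕ, ‖y / g ^ i - 1‖ ≤ ‖z - 1‖ ^ (n + 1) := by
  obtain ⟨d, hd, h1⟩ := S.dign hy h
  obtain ⟨i, hi⟩ : ∃ i : ℕ, (5 : ℤ) ∣ d - i * c := by
    interval_cases c
    · exact absurd rfl c0
    exacts [⟨d, by omega⟩, ⟨3 * d, by omega⟩, ⟨2 * d, by omega⟩, ⟨4 * d, by omega⟩]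
  have g1 : ‖g - 1‖ ≤ ‖z - 1‖ ^ n := by
    have := nadd (hg.trans (S.mono (Nat.le_succ n)))
      (show ‖(c : Om 5) * (z - 1) ^ n‖ ≤ ‖z - 1‖ ^ n by
        rw [mul_comm]
        exact nmul1 (norm_pow _ n).le (nnat c))
    rwa [sub_add_cancel] at this
  have l1 : ‖g - 1‖ < 1 := g1.trans_lt (pow_lt_one₀ S.q0.le S.q1 (by omega))
  have g2 := one_of_near l1
  have g0 : g ≠ 0 := norm_pos_iff.1 (by rw [g2]; exact one_pos)
  have a1 : ‖g ^ i - 1 - i * (g - 1)‖ ≤ ‖z - 1‖ ^ (n + 1) := by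
    have := binom l1.le i
    rw [add_sub_cancel] at this
    refine this.trans ((pow_le_pow_left₀ (norm_nonneg _) g1 2).trans ?_)
    rw [← pow_mul]
    exact S.mono (by omega)
  refine ⟨i, ?_⟩
  have e : y / g ^ i - 1 = ((y - 1 - d * (z - 1) ^ n) + (z - 1) ^ n * ((d - i * c : ℤ) : Om 5) -
      (g ^ i - 1 - i * (g - 1)) - (g - 1 - c * (z - 1) ^ n) * i) / g ^ i := by
    push_cast
    field_simp
    ring
  rw [e, norm_div, norm_pow, g2, one_pow, div_one]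
  refine nsub (nsub (nadd h1 ?_) a1) (nmul1 hg (nnat i))
  rw [pow_succ]
  exact nmul (norm_pow _ n).le ((le_of_dvd hi).trans S.q5)

theorem St.last (hU : U5S) {y : Om 5} (hy : Fz z y) (h : ‖y - 1‖ ≤ ‖z - 1‖ ^ 6) :
    ∃ t, Fz z t ∧ y = t ^ 5 := by
  obtain ⟨s, -, hs, fs⟩ := hU.2.1 (y - 1) (by
    refine (pow_le_pow_left₀ (norm_nonneg _) h 4).trans_lt ?_
    rw [← pow_mul, mul_comm, pow_mul, S.hq]
    norm_num)
  exact ⟨1 + s, Fz.one_add fun γ hγ => fs γ (hy.sub_one γ hγ), by rw [hs, add_sub_cancel]⟩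

/-- reduction to principal units -/
theorem St.reduce (hE : EmbS) (hk : k = 2 ∨ k = 3) {g₁ g₂ : Om 5}
    (H : ∀ y, Eig z γ₀ k y → ‖y - 1‖ ≤ ‖z - 1‖ ^ 1 →
      ∃ i j : ℕ, ∃ t, Fz z t ∧ y = g₁ ^ i * g₂ ^ j * t ^ 5) {x : Om 5} (hx : Eig z γ₀ k x) :
    ∃ i j : ℕ, ∃ t, Fz z t ∧ x = g₁ ^ i * g₂ ^ j * t ^ 5 := by
  have q0 := S.q0
  have p0 : z - 1 ≠ 0 := norm_pos_iff.1 q0
  obtain ⟨v, hv⟩ : ∃ v : ℤ, ‖x‖ = ‖z - 1‖ ^ (v * 5) := by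
    obtain ⟨f, x0, t, ft, e⟩ := hx
    have t0 : t ≠ 0 := fun h => by simp [h, x0] at e
    obtain ⟨v, hv⟩ := S.val f x0
    obtain ⟨w, hw⟩ := S.val ft t0
    have h := congrArg norm e
    rw [S.hn, norm_mul, norm_pow, norm_pow, hv, hw, ← zpow_natCast, ← zpow_natCast, ← zpow_mul,
      ← zpow_mul, ← zpow_add₀ q0.ne'] at h
    have h1 := zpow_right_injective₀ q0 S.q1.ne h
    refine ⟨v / 5, ?_⟩
    rw [hv]
    congr 1
    rcases hk with rfl | rfl <;> omega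
  have fs : Fz z ((z - 1) ^ v) := fz_self.sub_one.zpow v
  have s0 : (z - 1) ^ v ≠ 0 := zpow_ne_zero v p0
  have hu := hx.div (S.eig5 fs s0)
  obtain ⟨m, hm, h1⟩ := hE.2.2.2.2.2.1 5 (x / ((z - 1) ^ v) ^ 5) (by
    rw [norm_div, norm_pow, norm_zpow, hv, ← zpow_natCast, ← zpow_mul]
    exact div_self (zpow_ne_zero _ q0.ne'))
  obtain ⟨i, j, t, ft, e⟩ := H _ (hu.pow m) (by
    rw [pow_one]
    exact S.disc (hu.pow m).1.sub_one h1)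
  obtain ⟨r, n, e'⟩ : ∃ r n : ℕ, m * r = n * 5 + 1 := by
    have h5 : m % 5 = 1 ∨ m % 5 = 2 ∨ m % 5 = 3 ∨ m % 5 = 4 := by omega
    rcases h5 with h5 | h5 | h5 | h5
    exacts [⟨1, m * 1 / 5, by omega⟩, ⟨3, m * 3 / 5, by omega⟩,
      ⟨2, m * 2 / 5, by omega⟩, ⟨4, m * 4 / 5, by omega⟩]
  obtain ⟨u, hu'⟩ : ∃ u, u = x / ((z - 1) ^ v) ^ 5 := ⟨_, rfl⟩
  rw [← hu'] at hu e
  have ex : x = u * ((z - 1) ^ v) ^ 5 := by rw [hu', div_mul_cancel₀ _ (pow_ne_zero 5 s0)]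
  have e2 : u * (u ^ n) ^ 5 = g₁ ^ (i * r) * g₂ ^ (j * r) * (t ^ r) ^ 5 := by
    rw [← pow_mul, ← pow_succ', ← e', pow_mul, e]
    ring
  refine ⟨i * r, j * r, t ^ r / u ^ n * (z - 1) ^ v, ((ft.pow r).div (hu.1.pow n)).mul fs, ?_⟩
  rw [mul_pow, div_pow, ← mul_assoc, ← mul_div_assoc, ← e2,
    mul_div_cancel_right₀ _ (pow_ne_zero 5 (pow_ne_zero n hu.2.1))]
  exact ex

end TLocZ

open TLocZ TLce in
theorem locZS (hF : FgS) (hE : EmbS) (hU : U5S) : LocZS := by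
  intro z hz γ₀ hγ k hk
  have S : St z γ₀ := ⟨hF, hz, by simpa using hU.2.2 0 z (by simpa using hz), hγ, hE.2.2.2.1 5 γ₀⟩
  have z0 : z ≠ 0 := hz.ne_zero (by norm_num)
  rcases hk with rfl | rfl
  · have l5 : ‖1 + (z - 1) ^ 5 - 1‖ < 1 := by
      rw [add_sub_cancel_left, norm_pow]
      exact pow_lt_one₀ S.q0.le S.q1 (by norm_num)
    have g0 : 1 + (z - 1) ^ 5 ≠ 0 := norm_pos_iff.1 (by rw [one_of_near l5]; exact one_pos)
    have fg : Fz z (1 + (z - 1) ^ 5) := (fz_self.sub_one.pow 5).one_add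
    refine ⟨z, 1 + (z - 1) ^ 5, z0, g0, fun h => absurd h (by norm_num),
      fun γ h => ⟨h, fg γ h⟩, fun x x0 fx hx => S.reduce hE (Or.inl rfl) ?_ ⟨fx, x0, hx⟩⟩
    intro y hy h1
    obtain ⟨i, h2⟩ := S.divide (g := z) (c := 1) hy.1 le_rfl h1 one_ne_zero (by norm_num)
      (by simp)
    have hy' := hy.div (Eig.pow ⟨fz_self, z0, 1, fz_one, by rw [hγ, one_pow, mul_one]⟩ i)
    have h3 := S.kill hy' (by norm_num) (by norm_num) h2 (by omega)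
    have h4 := S.kill hy' (by norm_num) (by norm_num) h3 (by omega)
    have h5 := S.kill hy' (by norm_num) (by norm_num) h4 (by omega)
    obtain ⟨j, h6⟩ := S.divide (g := 1 + (z - 1) ^ 5) (c := 1) hy'.1 (by norm_num) h5 one_ne_zero
      (by norm_num) (by simp)
    obtain ⟨t, ft, e⟩ := S.last hU (hy'.1.div (fg.pow j)) h6
    refine ⟨i, j, t, ft, ?_⟩
    rw [← e]
    field_simp
  · have fin : ∀ y, Eig z γ₀ 3 y → ‖y - 1‖ ≤ ‖z - 1‖ ^ 4 → ∃ t, Fz z t ∧ y = t ^ 5 :=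
      fun y hy h4 => S.last hU hy.1 (S.kill hy (by norm_num) (by norm_num)
        (S.kill hy (by norm_num) (by norm_num) h4 (by omega)) (by omega))
    have ini : ∀ y, Eig z γ₀ 3 y → ‖y - 1‖ ≤ ‖z - 1‖ ^ 1 → ‖y - 1‖ ≤ ‖z - 1‖ ^ 3 :=
      fun y hy h1 => S.kill hy (by norm_num) (by norm_num)
        (S.kill hy (by norm_num) (by norm_num) h1 (by omega)) (by omega)
    by_cases hg : ∃ g, Eig z γ₀ 3 g ∧ ∃ c : ℕ, c ≠ 0 ∧ c < 5 ∧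
        ‖g - 1 - c * (z - 1) ^ 3‖ ≤ ‖z - 1‖ ^ (3 + 1)
    · obtain ⟨g, eg, c, c0, c5, hg⟩ := hg
      refine ⟨g, 1, eg.2.1, one_ne_zero, fun _ => rfl, fun γ h => ⟨eg.1 γ h, map_one γ⟩,
        fun x x0 fx hx => S.reduce hE (Or.inr rfl) ?_ ⟨fx, x0, hx⟩⟩
      intro y hy h1
      obtain ⟨i, h4⟩ := S.divide hy.1 (by norm_num) (ini y hy h1) c0 c5 hg
      obtain ⟨t, ft, e⟩ := fin _ (hy.div (eg.pow i)) h4
      refine ⟨i, 0, t, ft, ?_⟩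
      rw [← e, pow_zero, mul_one, mul_div_cancel₀ _ (pow_ne_zero i eg.2.1)]
    · refine ⟨1, 1, one_ne_zero, one_ne_zero, fun _ => rfl, fun γ _ => ⟨map_one γ, map_one γ⟩,
        fun x x0 fx hx => S.reduce hE (Or.inr rfl) ?_ ⟨fx, x0, hx⟩⟩
      intro y hy h1
      obtain ⟨d, hd, h4⟩ := S.dign hy.1 (ini y hy h1)
      obtain rfl : d = 0 := by
        by_contra h0
        exact hg ⟨y, hy, d, h0, hd, h4⟩
      obtain ⟨t, ft, e⟩ := fin y hy (by simpa using h4)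
      exact ⟨0, 0, t, ft, by simpa using e⟩

end Pool.Agent.Lib.MP_54db3e_nt
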