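import Pool.Agent.Lib.MP_54db3e_nt.Stmt

/-!
Arbitrarily many good classes, invariant under `S_n` and distinct on the infinite level.
-/

open scoped Classical

noncomputable section

namespace Pool.Agent.Lib.MP_54db3e_nt

namespace TLowQ

theorem opn_top : Opn ⊤ := ⟨∅, fun _ _ => trivial⟩

theorem opn_inf (U V : Subgroup GQ) (hU : Opn U) (hV : Opn V) : Opn (U ⊓ V) := by
  obtain ⟨s, hs⟩ := hU
  obtain ⟨t, ht⟩ := hV
  exact ⟨s ∪ t, fun g hg => ⟨hs g fun x hx => hg x (Finset.mem_union_left _ hx),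
    ht g fun x hx => hg x (Finset.mem_union_right _ hx)⟩⟩

theorem opn_mono {U V : Subgroup GQ} (hU : Opn U) (h : U ≤ V) : Opn V := by
  obtain ⟨s, hs⟩ := hU
  exact ⟨s, fun g hg => h (hs g hg)⟩

theorem fx_z (hCh : ChS) (d : Rep) : Fx (lev d.ρ 1) d.z := fun g hg => by
  obtain ⟨h0, h1, h2⟩ := ((hCh GQ d.ρ).2.2.1 g).1 hg
  rw [d.act_z g h0, om, h1, h2, mul_one, ZMod.val_one, pow_one]

theorem lev_le_slev {G : Type} [Group G] (ρ : G →* M2) {n : ℕ} (hn : 1 ≤ n) :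
    lev ρ n ≤ slev ρ n := fun g hg =>
  ⟨lev_anti ρ hn hg, by simpa using MC.det hg⟩

theorem addOn_conj {G : Type} [Group G] {B : Subgroup G} {c : G → F5} (hc : AddOn B c)
    {a h : G} (ha : a ∈ B) (hh : h ∈ B) : c (a⁻¹ * h * a) = c h := by
  have h1 := hc 1 (one_mem B) 1 (one_mem B)
  have h2 := hc a⁻¹ (inv_mem ha) a ha
  rw [mul_one] at h1
  rw [inv_mul_cancel] at h2
  rw [hc _ (mul_mem (inv_mem ha) hh) a ha, hc _ (inv_mem ha) h hh]
  linear_combination -h1 - h2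

theorem pmap_comp {k : Type} [Field k] [Algebra ℚ k] (ι ι' : Qb →+* k) (g : GQ)
    (h : ∀ x, ι' x = ι (g x)) (P : Pt E0 Qb) : pmap E0 ι' P = pmap E0 ι (act E0 g P) := by
  obtain rfl : ι' = ι.comp (g : Qb →+* Qb) := RingHom.ext h
  cases P <;> rfl

theorem dec_conj {ι ι' : Qb →+* Om 5} {g h : GQ} (e : ∀ x, ι' x = ι (g x)) (hh : h ∈ Dec ι') :
    g * h * g⁻¹ ∈ Dec ι := by
  obtain ⟨γ, hγ⟩ := hh
  refine ⟨γ, fun x => ?_⟩
  rw [AlgEquiv.mul_apply, AlgEquiv.mul_apply, ← e, hγ, e, ← AlgEquiv.mul_apply, mul_inv_cancel,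
    AlgEquiv.one_apply]

theorem val_inj (d : Rep) {s t : F5} (h : s.val • d.T 0 = t.val • d.T 0) : s = t := by
  have h1 := (d.indep ((s.val : ℤ) - t.val) 0 (by
    rw [zero_smul, add_zero, sub_smul, natCast_zsmul, natCast_zsmul, h, sub_self])).1
  have h2 := (ZMod.intCast_zmod_eq_zero_iff_dvd _ 5).2 h1
  simpa [sub_eq_zero] using h2

end TLowQ

open TLowQ in
theorem lowQS (hCh : ChS) (hFg : FgS) (hEmb : EmbS) (hRad : RadS) (hLow : LowerS) (hC5 : C5S)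
    (hDens : DensS) (hUt : UtS) (hLs : LsS) (hUl : UlS) : LowQS := by
  intro d N
  obtain ⟨ι, hι⟩ := hC5.1 d
  have hn : 1 ≤ N + 1 := by omega
  have hN : N < 5 ^ (N + 1 - 1) := Nat.lt_pow_self (by norm_num)
  generalize N + 1 = n at hn hN
  obtain ⟨κ, hκ, hκz, hκo, hκi⟩ := hUl d n hn
  have hs1 : slev d.ρ n ≤ lev d.ρ 1 := fun _ hg => hg.1
  have hls := lev_le_slev d.ρ hn
  have hadd := (hUt d _ (slev_normal d.ρ n) hs1).1
  obtain ⟨U, hUN, hUO, hUle, -, hUk, -⟩ := hRad d.z d.hz.pow_eq_one (slev d.ρ n) d.hz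
    (slev_normal d.ρ n) (opn_mono (d.opn_lev n) hls) fun g hg => fx_z hCh d g (hs1 hg)
  have : IsAlgClosure ℚ Qb := AlgebraicClosure.instIsAlgClosure ℚ
  obtain ⟨n₀, hn₀⟩ := (hFg ℚ Qb).2.2.2 (lev d.ρ) d.opn_lev (fun _ _ h => lev_anti d.ρ h)
    (U ⊔ ⨅ m, lev d.ρ m) (opn_mono hUO le_sup_left)
    fun g hg => Subgroup.mem_sup_right (Subgroup.mem_iInf.2 hg)
  obtain ⟨g₀, hg₀, e1, e2⟩ := (hC5.2.2.2.1 d ι).2 (-1) 1 (by decide) (by decide)
  obtain ⟨W, hW, hWp⟩ := hLow GQ d.ρ Opn (Dec ι) (hDens d) (hC5.2.2.2.1 d ι).1 opn_top opn_inf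
    (hLs d ι hι) ⟨g₀, hg₀, by rw [rb, e1, e2]; simp⟩ n hn κ (fun i => hadd _ (hκ i)) hκz hκo
    ⟨U, hUN, hUO, hUle, fun i => hUk _ (hκ i)⟩ hκi (max n n₀) (le_max_left _ _)
  let K : (Fin (4 * 5 ^ (n - 1)) → F5) → GQ → F5 := fun s h => ∑ i, s i * κ i h
  have hK : ∀ s, K s ∈ UTs d.z d.hz.pow_eq_one (slev d.ρ n) := fun s => by
    have : K s = ∑ i, s i • κ i := by
      funext h
      simp [K]
    rw [this]
    exact Submodule.sum_mem _ fun i _ => Submodule.smul_mem _ _ (hκ i)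
  have hle : N ≤ Module.finrank F5 W := by omega
  let b : Fin N → W := fun i => Module.finBasis F5 W (Fin.castLE hle i)
  have hb : Function.Injective b :=
    (Module.finBasis F5 W).injective.comp (Fin.castLE_injective hle)
  have h5 : ∀ s : F5, 5 • s.val • d.T 0 = 0 := fun s => by rw [smul_comm, d.five, smul_zero]
  refine ⟨n, hn, fun i h => (K (b i) h).val • d.T 0, fun i => ⟨⟨?_, ?_, ?_⟩, fun h _ => h5 _,
    fun a ha h hh => ?_⟩, fun i j hij => hb (Subtype.ext ?_)⟩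
  · obtain ⟨y, hy, H⟩ := hK (b i)
    exact AddSubgroup.subset_closure ⟨1, d.z, y, d.T 0, hn, by simpa using d.hz, hy,
      by simpa using d.five 0, fun h hh => ⟨_, H h (hls hh), rfl⟩⟩
  · intro z hz h hh
    simp only [K, hκz _ z hz h (hls hh)]
  · intro ι' h hD hh
    obtain ⟨g, hg⟩ := hEmb.2.1 (Om 5) ι ι'
    by_cases hγ : g ∈ gam d.ρ
    · have := (hWp _ (b i).2).1 (g * h * g⁻¹)
        ⟨dec_conj hg hD, (slev_normal d.ρ n).conj_mem h (hls hh) g⟩ g hγ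
      have e : g⁻¹ * (g * h * g⁻¹) * g = h := by group
      rw [e] at this
      refine Or.inl ?_
      simp only [K, this, ZMod.val_zero, zero_smul, map_zero]
    · have ha : g d.a = -d.a := by
        have h2 : (g d.a) ^ 2 = d.a ^ 2 := by rw [← map_pow, d.ha, map_ofNat]
        exact (sq_eq_sq_iff_eq_or_eq_neg.1 h2).resolve_left fun e => hγ ((d.mem_gam g).2 e)
      obtain ⟨u, v, hu, -⟩ := d.anti g ha
      rw [pmap_comp ι ι' g hg]
      refine ((hC5.2.2.1 d ι hι).2.2 _ (by rw [← map_nsmul, h5, map_zero])).2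
        ⟨(K (b i) h).val * u, by rw [map_nsmul, hu, mul_smul]⟩
  · simp only [addOn_conj (hadd _ (hK (b i))) ha (hls hh)]
  · have hmem : (b i : Fin (4 * 5 ^ (n - 1)) → F5) - b j ∈ W := sub_mem (b i).2 (b j).2
    refine sub_eq_zero.1 ((hWp _ hmem).2 fun h hh => ?_)
    have h1 : h ∈ U ⊔ ⨅ m, lev d.ρ m := hn₀ (lev_anti d.ρ (le_max_right _ _) hh)
    obtain ⟨u, hu, g, hg, rfl⟩ := Subgroup.mem_sup_of_normal_left.1 h1
    have hg' := Subgroup.mem_iInf.1 hg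
    have h2 := hadd _ (hK ((b i : Fin (4 * 5 ^ (n - 1)) → F5) - b j)) u (hUle hu) g (hls (hg' n))
    have h3 := val_inj d (hij g hg')
    change K _ (u * g) = 0
    rw [h2, hUk _ (hK _) u hu, zero_add]
    simp only [K, Pi.sub_apply, sub_mul, Finset.sum_sub_distrib] at h3 ⊢
    rw [h3, sub_self]

end Pool.Agent.Lib.MP_54db3e_nt
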