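import Pool.Agent.Lib.MP_54db3e_nt.TLower2
import Pool.Agent.Lib.MP_54db3e_nt.H42Ext

/-!
The step LOWER.
-/

open scoped Classical

noncomputable section

namespace Pool.Agent.Lib.MP_54db3e_nt

namespace TLower

open Module

variable {G : Type} [Group G] {ρ : G →* M2}

/-- the class of the fourth power -/
def pi4 (ρ : G →* M2) (n : ℕ) (a : G) : lev ρ 1 ⧸ (slev ρ n).subgroupOf (lev ρ 1) :=
  if h : a ^ 4 ∈ lev ρ 1 then QuotientGroup.mk ⟨a ^ 4, h⟩ else 1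

theorem pi4_eq (hC : ChS) {n : ℕ} {a w : G} (ha : a ∈ gam ρ) (hw : w ∈ gam ρ)
    (h : w ^ 4 ∈ slev ρ n) : pi4 ρ n (a * w) = pi4 ρ n a ∧ pi4 ρ n (w * a) = pi4 ρ n a := by
  have c4 := (hC G ρ).2.2.2.1
  have key : ∀ b ∈ gam ρ, (ρ b).det = (ρ a).det * (ρ w).det → pi4 ρ n a = pi4 ρ n b := by
    intro b hb e
    rw [pi4, pi4, dif_pos (c4 a ha), dif_pos (c4 b hb), QuotientGroup.eq,
      Subgroup.mem_subgroupOf, Subgroup.coe_mul, Subgroup.coe_inv, mem_slev]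
    refine ⟨mul_mem (inv_mem (c4 a ha)) (c4 b hb), ?_⟩
    have h2 := ((mem_slev ρ).1 h).2
    rw [map_pow, Matrix.det_pow] at h2
    rw [← inv_pow, map_mul, map_pow, map_pow, Matrix.det_mul, Matrix.det_pow, Matrix.det_pow,
      ← mul_pow, e, ← mul_assoc, det_inv, one_mul]
    exact h2
  exact ⟨(key _ (mul_mem ha hw) (by rw [map_mul, Matrix.det_mul])).symm,
    (key _ (mul_mem hw ha) (by rw [map_mul, Matrix.det_mul, mul_comm])).symm⟩

theorem pi4_surj {n : ℕ} (hq : (slev ρ n).relIndex (lev ρ 1) = 5 ^ (n - 1))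
    (x : lev ρ 1 ⧸ (slev ρ n).subgroupOf (lev ρ 1)) : ∃ p ∈ lev ρ 1, pi4 ρ n p = x := by
  have hc : Nat.card (lev ρ 1 ⧸ (slev ρ n).subgroupOf (lev ρ 1)) = 5 ^ (n - 1) := hq
  obtain ⟨y, rfl⟩ := (powCoprime (G := lev ρ 1 ⧸ (slev ρ n).subgroupOf (lev ρ 1)) (n := 4)
    (by rw [hc]; exact Nat.Coprime.pow_left _ (by norm_num))).surjective x
  obtain ⟨p, rfl⟩ := QuotientGroup.mk_surjective y
  exact ⟨p, p.2, by rw [pi4, dif_pos (pow_mem p.2 4)]; rfl⟩

/-- odd functions -/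
def ff (ρ : G →* M2) (n : ℕ) (φ : (lev ρ 1 ⧸ (slev ρ n).subgroupOf (lev ρ 1) → F5) ×
    (lev ρ 1 ⧸ (slev ρ n).subgroupOf (lev ρ 1) → F5)) (a : G) : F5 :=
  rb ρ a * φ.1 (pi4 ρ n a) + rb ρ a ^ 3 * φ.2 (pi4 ρ n a)

/-- their coboundaries -/
def cob (ρ : G →* M2) (n : ℕ) : ((lev ρ 1 ⧸ (slev ρ n).subgroupOf (lev ρ 1) → F5) ×
    (lev ρ 1 ⧸ (slev ρ n).subgroupOf (lev ρ 1) → F5)) →ₗ[F5] (G → G → F5) where
  toFun φ g a := ff ρ n φ (g * a) - ff ρ n φ a
  map_add' φ ψ := by funext g a; simp [ff]; ring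
  map_smul' s φ := by funext g a; simp [ff]; ring

theorem ff_pos (hC : ChS) {n : ℕ} (φ) {a w : G} (ha : a ∈ gam ρ) (hw : w ∈ gam ρ)
    (h : w ^ 4 ∈ slev ρ n) (h1 : rb ρ w = 1) :
    ff ρ n φ (a * w) = ff ρ n φ a ∧ ff ρ n φ (w * a) = ff ρ n φ a := by
  simp [ff, pi4_eq hC ha hw h, rb_mul hC ha hw, rb_mul hC hw ha, h1]

theorem ff_neg (hC : ChS) {n : ℕ} (φ) {a w : G} (ha : a ∈ gam ρ) (hw : w ∈ gam ρ)
    (h : w ^ 4 ∈ slev ρ n) (h1 : rb ρ w = -1) :
    ff ρ n φ (a * w) = -ff ρ n φ a ∧ ff ρ n φ (w * a) = -ff ρ n φ a := by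
  simp only [ff, pi4_eq hC ha hw h, rb_mul hC ha hw, rb_mul hC hw ha, h1]
  constructor <;> ring

theorem four4 : ∀ i x y : F5, i * i = -1 → 1 * x + 1 ^ 3 * y = 0 → i * x + i ^ 3 * y = 0 →
    x = 0 ∧ y = 0 := by decide

theorem four5 : ∀ x : F5, -x - x = 0 → x = 0 := by decide

theorem rb_pow (hC : ChS) {d : G} (hd : d ∈ gam ρ) : ∀ k : ℕ, rb ρ (d ^ k) = rb ρ d ^ k
  | 0 => by rw [pow_zero, pow_zero]; exact rb_lev hC (one_mem _)
  | k + 1 => by rw [pow_succ, pow_succ, rb_mul hC (pow_mem hd k) hd, rb_pow hC hd k]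

theorem zlev_pow {n : ℕ} {z : G} (hz : z ∈ zlev ρ n) : z ^ 4 ∈ lev ρ n := by
  obtain ⟨c, hc, h⟩ := hz
  have := mc_pow h 4
  rwa [smul_pow, hc, one_pow, one_smul, ← map_pow] at this

end TLower

open TLower Module

theorem lowerS (hC : ChS) (hG : GrpS) : LowerS := by
  intro G _ ρ O D hDens hD _ _ hL ⟨d₀, hd₀, hd₁⟩ n hn κ k1 k2 k3 ⟨U, hUn, hU, hUS, k4⟩ k5 n' hn'
  obtain ⟨i1, i2, i3, ⟨z₀, c, hc, hz₀, -⟩, i5⟩ := hG G ρ hDens n hn
  have i6 := (hG G ρ hDens 1 le_rfl).1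
  have hP : lev ρ 1 ≤ gam ρ := lev_le_gam ρ le_rfl
  have hSP : slev ρ n ≤ lev ρ 1 := fun _ h => h.1
  have hZ : zlev ρ n ≤ gam ρ := zlev_le_gam ρ hn
  have hR : slev ρ n ⊔ zlev ρ n ≤ gam ρ := sup_le (hSP.trans hP) hZ
  have hq : (slev ρ n).relIndex (lev ρ 1) = 5 ^ (n - 1) := by
    have := Subgroup.relIndex_mul_relIndex _ _ _ hSP hP
    rw [i3, i6] at this
    omega
  have hix : (((slev ρ n).relIndex (slev ρ n ⊔ zlev ρ n) : ℕ) : F5) ≠ 0 := by
    have e1 := Subgroup.relIndex_mul_relIndex _ _ _ (lev_le_zlev ρ n) hZ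
    rw [i1, i2] at e1
    have e2 : (lev ρ n).relIndex (zlev ρ n) = 4 :=
      Nat.eq_of_mul_eq_mul_right (show 0 < 4 * 5 ^ (4 * (n - 1)) by positivity) (by rw [e1]; ring)
    have e3 := Subgroup.relIndex_dvd_of_le_left (zlev ρ n) (lev_le_slev (ρ := ρ) hn)
    rw [Subgroup.relIndex_sup_left, Ne, ZMod.natCast_eq_zero_iff]
    exact fun h => absurd (e2 ▸ h.trans e3) (by norm_num)
  have hcu : IsUnit c := IsUnit.of_mul_eq_one (-c) (by linear_combination -hc)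
  obtain ⟨t, ht⟩ := hDens !![1, 0; 0, c] (by simp) (by simp) (by simp) (by simpa using hcu) n
  have htg : t ∈ gam ρ := ⟨by simpa using ht.mono hn 0 1, by simpa using ht.mono hn 1 0⟩
  have ha₁ : MC n (ρ (t * t)) !![1, 0; 0, -1] := by
    rw [map_mul]
    refine (ht.mul ht).trans fun i j => ?_
    fin_cases i <;> fin_cases j <;> simp [(sq c).symm.trans hc]
  have htt := mul_mem htg htg
  have ha₂ : t * t * (t * t) ∈ slev ρ n := lev_le_slev hn (by
    rw [mem_lev, map_mul]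
    refine (ha₁.mul ha₁).trans fun i j => ?_
    fin_cases i <;> fin_cases j <;> simp)
  have ht4 : t ^ 4 ∈ slev ρ n := by simpa only [pow_succ, pow_zero, one_mul, mul_assoc] using ha₂
  have ha₄ : (t * t) ^ 4 ∈ slev ρ n := by
    simpa only [pow_succ, pow_zero, one_mul, mul_assoc] using mul_mem ha₂ ha₂
  have hrb : rb ρ (t * t) = -1 := by
    have e1 : ph1 ρ (t * t) = PadicInt.toZMod (1 : ℤ_[5]) :=
      toZMod_congr (by simpa using ha₁.mono hn 0 0)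
    have e2 : ph2 ρ (t * t) = PadicInt.toZMod (-1 : ℤ_[5]) :=
      toZMod_congr (by simpa using ha₁.mono hn 1 1)
    rw [rb, e1, e2, map_neg, map_one]
    ring
  obtain ⟨E, hE⟩ := inv_span hC hD hL hU (fun w hw h => dec hC hn hc hz₀ hw h) htg hrb
  obtain ⟨hV1, hV2⟩ := loc hq hE
  have hcard : Nat.card (lev ρ 1 ⧸ (slev ρ n).subgroupOf (lev ρ 1)) = 5 ^ (n - 1) := hq
  have : Finite (lev ρ 1 ⧸ (slev ρ n).subgroupOf (lev ρ 1)) :=
    Nat.finite_of_card_ne_zero (by rw [hcard]; positivity)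
  have := Fintype.ofFinite (lev ρ 1 ⧸ (slev ρ n).subgroupOf (lev ρ 1))
  let K : (Fin (4 * 5 ^ (n - 1)) → F5) →ₗ[F5] (G → F5) :=
    { toFun := fun s h => ∑ i, s i * κ i h
      map_add' := fun s s' => by funext h; simp [add_mul, Finset.sum_add_distrib]
      map_smul' := fun r s => by funext h; simp [Finset.mul_sum, mul_assoc] }
  have hK : ∀ s h, K s h = ∑ i, s i * κ i h := fun _ _ => rfl
  have K1 : ∀ s, AddOn (slev ρ n) (K s) := fun s g hg h hh => by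
    simp only [hK, k1 _ g hg h hh, mul_add, Finset.sum_add_distrib]
  have K2 : ∀ s, ∀ z ∈ slev ρ n ⊔ zlev ρ n, ∀ h ∈ slev ρ n, K s (z⁻¹ * h * z) = K s h := by
    intro s w hw h hh
    obtain ⟨y, hy, z, hz, rfl⟩ := Subgroup.mem_sup_of_normal_left.1 hw
    have e := (slev_normal ρ n).conj_mem' h hh y
    rw [show (y * z)⁻¹ * h * (y * z) = z⁻¹ * (y⁻¹ * h * y) * z by group, ← add_conj (K1 s) hh hy]
    simp only [hK, k2 _ z hz _ e]
  have K3 : ∀ s a, MC n (ρ a) !![1, 0; 0, -1] → ∀ h ∈ slev ρ n, K s (a⁻¹ * h * a) = -K s h :=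
    fun s a ha h hh => by simp only [hK, k3 _ a ha h hh, mul_neg, Finset.sum_neg_distrib]
  let res : (G → G → F5) →ₗ[F5] ((D ⊓ slev ρ n : Subgroup G) × gam ρ → F5) :=
    { toFun := fun c x => c x.1 x.2, map_add' := fun _ _ => rfl, map_smul' := fun _ _ => rfl }
  let Φ := LinearMap.funLeft F5 F5
    (fun x : (D ⊓ slev ρ n : Subgroup G) × gam ρ => (x.2 : G)⁻¹ * x.1 * x.2) ∘ₗ K
  have hSf : ∀ φ, ∀ g ∈ slev ρ n, ∀ a ∈ gam ρ, cob ρ n φ g a = 0 := fun φ g hg a ha =>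
    sub_eq_zero.2 (ff_pos hC φ ha (hP hg.1) (pow_mem hg 4) (rb_lev hC hg.1)).2
  have hcount := count (VV ρ D (slev ρ n ⊔ zlev ρ n) U (t * t)) res Φ (cutL ρ D ∘ₗ cob ρ n)
    (by
      rw [injective_iff_map_eq_zero]
      intro φ hφ
      have hd := pow_mem hd₀ (5 ^ (n - 1))
      have h0 : ∀ a ∈ gam ρ, ff ρ n φ a = 0 := fun a ha => by
        have e : cob ρ n φ _ a = 0 := (cut_pos _ hd ha).symm.trans (congrFun (congrFun hφ _) a)
        refine four5 _ (Eq.trans ?_ e)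
        refine congrArg (· - ff ρ n φ a) (ff_neg hC φ ha (hD hd) ?_ ?_).2.symm
        · rw [← pow_mul, mul_comm, pow_mul]
          exact lev_le_slev hn (i5 _ ((hC G ρ).2.2.2.1 _ (hD hd₀)))
        · rw [rb_pow hC (hD hd₀), hd₁]
          exact Odd.neg_one_pow (Odd.pow (by decide))
      have h1 : ∀ x, φ.1 x = 0 ∧ φ.2 x = 0 := fun x => by
        obtain ⟨p, hp, rfl⟩ := pi4_surj hq x
        have e1 := h0 p (hP hp)
        have e2 := h0 _ (mul_mem (hP hp) htg)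
        rw [ff, (pi4_eq hC (hP hp) htg ht4).1, rb_mul hC (hP hp) htg, rb_lev hC hp, one_mul] at e2
        rw [ff, rb_lev hC hp] at e1
        exact four4 _ _ _ ((rb_mul hC htg htg).symm.trans hrb) e1 e2
      exact Prod.ext (funext fun x => (h1 x).1) (funext fun x => (h1 x).2))
    (fun φ => ⟨cut_mem hD hR htt _
      (fun g _ g' _ a _ => by simp [cob, mul_assoc])
      (fun g hg a ha w hw => by
        obtain ⟨y, hy, z, hz, rfl⟩ := Subgroup.mem_sup_of_normal_left.1 hw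
        have e : ∀ b ∈ gam ρ, ff ρ n φ (b * (y * z)) = ff ρ n φ b := fun b hb => by
          rw [← mul_assoc, (ff_pos hC φ (mul_mem hb (hP hy.1)) (hZ hz)
            (lev_le_slev hn (zlev_pow hz)) ((hC G ρ).2.2.2.2.1 n hn z hz).2).1,
            (ff_pos hC φ hb (hP hy.1) (pow_mem hy 4) (rb_lev hC hy.1)).1]
        change ff ρ n φ _ - ff ρ n φ _ = ff ρ n φ _ - ff ρ n φ _
        rw [← mul_assoc, e _ (mul_mem (hD hg) ha), e a ha])
      (fun g hg a ha => by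
        change ff ρ n φ _ - ff ρ n φ _ = -(ff ρ n φ _ - ff ρ n φ _)
        rw [← mul_assoc, (ff_neg hC φ (mul_mem (hD hg) ha) htt ha₄ hrb).1,
          (ff_neg hC φ ha htt ha₄ hrb).1]
        ring)
      (fun g _ hg a ha => hSf φ g (hUS hg) a ha),
      funext fun x => (cut_pos _ x.1.2.1 x.2.2).trans (hSf φ _ x.1.2.2 _ x.2.2)⟩)
    (fun s => by
      have hcj := fun h hh a => (slev_normal ρ n).conj_mem' h hh a
      obtain ⟨e, e1, e2, e3⟩ := H42.EXT D (slev ρ n) (slev ρ n ⊔ zlev ρ n) le_sup_left hix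
        (fun h a => K s (a⁻¹ * h * a))
        (fun h _ hh h' _ hh' a => by
          rw [← K1 s _ (hcj h hh a) _ (hcj h' hh' a)]
          congr 1
          group)
        (fun d _ h _ _ a => by congr 1; group)
        (fun h _ hh a z hz => by
          rw [← K2 s z hz _ (hcj h hh a)]
          congr 1
          group)
      have e4 : ∀ h ∈ D, h ∈ slev ρ n → ∀ a,
          3 * (e h a - e h (a * (t * t))) = K s (a⁻¹ * h * a) := fun h hh hh' a => by
        have := K3 s _ ha₁ _ (hcj h hh' a)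
        rw [show (t * t)⁻¹ * (a⁻¹ * h * a) * (t * t) = (a * (t * t))⁻¹ * h * (a * (t * t)) by
          group] at this
        have h5 : (5 : F5) = 0 := rfl
        rw [e3 h hh hh', e3 h hh hh', this]
        linear_combination K s (a⁻¹ * h * a) * h5
      refine ⟨_, cut_mem hD hR htt (fun g a => 3 * (e g a - e g (a * (t * t))))
        (fun g hg g' hg' a _ => ?_) (fun g _ a _ z hz => ?_) (fun g _ a _ => ?_)
        (fun g hg hg' a _ => ?_),
        funext fun x => (cut_pos (fun g a => 3 * (e g a - e g (a * (t * t)))) x.1.2.1 x.2.2).trans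
          (e4 x.1 x.1.2.1 x.1.2.2 x.2)⟩
      · simp only [e1 g hg g' hg', mul_assoc]
        ring
      · have := e2 g (a * (t * t)) _
          ((inferInstance : (slev ρ n ⊔ zlev ρ n).Normal).conj_mem' z hz (t * t))
        rw [show a * (t * t) * ((t * t)⁻¹ * z * (t * t)) = a * z * (t * t) by group] at this
        rw [this, e2 g a z hz]
      · rw [mul_assoc a, e2 g a _ (Subgroup.mem_sup_left ha₂)]
        ring
      · rw [e4 g hg (hUS hg')]
        simp only [hK, k4 _ _ (hUn.conj_mem' g hg' a), mul_zero, Finset.sum_const_zero])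
  obtain ⟨u, l, hul⟩ := ldu hDens hn hn'
  let ev : (Fin (4 * 5 ^ (n - 1)) → F5) →ₗ[F5] F5 × F5 :=
    (LinearMap.proj u ∘ₗ K).prod (LinearMap.proj l ∘ₗ K)
  refine ⟨LinearMap.ker Φ ⊓ LinearMap.ker ev, ?_, fun s hs => ⟨fun h hh a ha =>
    congrFun (LinearMap.mem_ker.1 hs.1) (⟨h, hh⟩, ⟨a, ha⟩), fun h0 => k5 s ?_⟩⟩
  · have := cut (LinearMap.ker Φ) ev
    rw [finrank_prod, finrank_fintype_fun_eq_card, finrank_fintype_fun_eq_card, Fintype.card_fin,
      ← Nat.card_eq_fintype_card, hcard] at hcount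
    omega
  · have e := LinearMap.mem_ker.1 hs.2
    exact hul (K s) (K1 s) (K3 s) h0 (congrArg Prod.fst e) (congrArg Prod.snd e)

end Pool.Agent.Lib.MP_54db3e_nt
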