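import Pool.Agent.Lib.MP_54db3e_nt.Stmt

/-!
The local socle bound at the prime above 5.
-/

open scoped Classical

noncomputable section

namespace Pool.Agent.Lib.MP_54db3e_nt

namespace TLs

theorem root {z : Om 5} (hz : IsPrimitiveRoot z 5) (g : Om 5) (hg : g ≠ 0) :
    ∃ (u : Om 5) (κ : Gl 5 → F5), u ^ 5 = g ∧ (g = 1 → κ = 0) ∧
      ∀ h : Gl 5, h g = g → h u = z ^ (κ h).val * u := by
  by_cases h1 : g = 1
  · exact ⟨1, 0, by rw [h1, one_pow], fun _ => rfl, fun h _ => by simp⟩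
  obtain ⟨u, hu⟩ := IsAlgClosed.exists_pow_nat_eq g (n := 5) (by norm_num)
  have hu0 : u ≠ 0 := by
    rintro rfl
    exact hg (by rw [← hu]; norm_num)
  have : ∀ h : Gl 5, ∃ a : F5, h g = g → h u = z ^ a.val * u := by
    intro h
    by_cases hh : h g = g
    · obtain ⟨i, hi, e⟩ := hz.eq_pow_of_pow_eq_one (ξ := h u / u)
        (by rw [div_pow, ← map_pow, hu, hh, div_self hg])
      refine ⟨i, fun _ => ?_⟩
      rw [ZMod.val_natCast, Nat.mod_eq_of_lt hi, e, div_mul_cancel₀ _ hu0]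
    · exact ⟨0, fun h' => absurd h' hh⟩
  choose κ hκ using this
  exact ⟨u, κ, hu, fun h => absurd h h1, hκ⟩

theorem pow_nat {z : Om 5} (hz : z ^ 5 = 1) (i : ℕ) (a : F5) :
    z ^ ((i : F5) * a).val = (z ^ a.val) ^ i := by
  rw [pow_val_mul hz, ZMod.val_natCast, ← pow_eq_pow_mod]
  rw [← pow_mul, mul_comm, pow_mul, hz, one_pow]

theorem core {z : Om 5} (hz : IsPrimitiveRoot z 5) (g₁ g₂ : Om 5) (h₁ : g₁ ≠ 0) (h₂ : g₂ ≠ 0) :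
    ∃ κ₁ κ₂ : Gl 5 → F5, (g₂ = 1 → κ₂ = 0) ∧ ∀ (y t : Om 5) (i j : ℕ), y ≠ 0 →
      y ^ 5 = g₁ ^ i * g₂ ^ j * t ^ 5 → ∀ h : Gl 5, h z = z → h g₁ = g₁ → h g₂ = g₂ → h t = t →
      ∀ a : F5, h y = z ^ a.val * y → a = i * κ₁ h + j * κ₂ h := by
  obtain ⟨u₁, κ₁, e₁, -, k₁⟩ := root hz g₁ h₁
  obtain ⟨u₂, κ₂, e₂, z₂, k₂⟩ := root hz g₂ h₂
  refine ⟨κ₁, κ₂, z₂, fun y t i j hy e h hzz hg₁ hg₂ ht a ha => ?_⟩
  have hw : (u₁ ^ i * u₂ ^ j * t) ^ 5 = y ^ 5 := by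
    rw [e, ← e₁, ← e₂]; ring
  have hw0 : u₁ ^ i * u₂ ^ j * t ≠ 0 := by
    intro h0
    rw [h0] at hw
    exact pow_ne_zero 5 hy (by rw [← hw]; norm_num)
  obtain ⟨m, -, hm⟩ := hz.eq_pow_of_pow_eq_one (ξ := y / (u₁ ^ i * u₂ ^ j * t))
    (by rw [div_pow, hw, div_self (pow_ne_zero 5 hy)])
  have hy' : y = z ^ m * (u₁ ^ i * u₂ ^ j * t) := by rw [hm, div_mul_cancel₀ _ hw0]
  have h2 : h y = z ^ ((i : F5) * κ₁ h + j * κ₂ h).val * y := by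
    rw [pow_val_add hz.pow_eq_one, pow_nat hz.pow_eq_one, pow_nat hz.pow_eq_one]
    conv_lhs => rw [hy']
    rw [map_mul, map_mul, map_mul, map_pow, map_pow, map_pow, hzz, k₁ h hg₁, k₂ h hg₂, ht]
    conv_rhs => rw [hy']
    ring
  rw [ha] at h2
  exact ZMod.val_injective 5 (hz.pow_inj (ZMod.val_lt _) (ZMod.val_lt _) (mul_right_cancel₀ hy h2))

theorem step (hCh : ChS) (hKd : KdS) (d : Rep) (ι : Qb →+* Om 5) (hD : Dec ι ≤ gam d.ρ)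
    (res : Gl 5 →* GQ) (hc : ∀ γ, Cmp ι (res γ) γ) (hr : res.range = Dec ι)
    (ho : ∀ U, Opn U → OpnK (U.comap res)) (j : ℕ) (w : Om 5)
    (hw : ∀ γ, om d.ρ (res γ) * rb d.ρ (res γ) ^ j = 1 ↔ γ w = w) (γ₀ : Gl 5) (k : ℕ)
    (hk : (om d.ρ (res γ₀) * rb d.ρ (res γ₀) ^ j).val = k) (g₁ g₂ : Om 5) (h₁ : g₁ ≠ 0)
    (h₂ : g₂ ≠ 0) (hf : ∀ γ : Gl 5, γ w = w → γ g₁ = g₁ ∧ γ g₂ = g₂)
    (hl : ∀ x : Om 5, x ≠ 0 → (∀ γ : Gl 5, γ w = w → γ x = x) →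
      (∃ t, (∀ γ : Gl 5, γ w = w → γ t = t) ∧ γ₀ x = x ^ k * t ^ 5) →
      ∃ i j : ℕ, ∃ t, (∀ γ : Gl 5, γ w = w → γ t = t) ∧ x = g₁ ^ i * g₂ ^ j * t ^ 5) :
    ∃ κ₁ κ₂ : GQ → F5, (g₂ = 1 → κ₂ = 0) ∧ ∀ c : GQ → F5,
      Coc (fun g => rb d.ρ g ^ j) (Dec ι) c → Cts Opn (Dec ι) c →
      ∃ s t : F5, ∀ h ∈ Dec ι, h ∈ lev d.ρ 1 → c h = s * κ₁ h + t * κ₂ h := by
  obtain ⟨c1, c2, c3, -⟩ := hCh GQ d.ρ
  have hz : IsPrimitiveRoot (ι d.z) 5 := d.hz.map_of_injective ι.injective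
  have hm : ∀ γ, res γ ∈ Dec ι := fun γ => hr ▸ ⟨γ, rfl⟩
  have hzz : ∀ γ : Gl 5, γ (ι d.z) = ι d.z ^ (om d.ρ (res γ)).val := fun γ => by
    rw [← hc γ, d.act_z _ (hD (hm γ)), map_pow]
  obtain ⟨κ₁, κ₂, k0, k1⟩ := core hz g₁ g₂ h₁ h₂
  have hs : ∀ g : GQ, ∃ γ, g ∈ Dec ι → res γ = g := fun g => by
    by_cases h : g ∈ Dec ι
    · obtain ⟨γ, e⟩ := (hr ▸ h : g ∈ res.range)
      exact ⟨γ, fun _ => e⟩
    · exact ⟨1, fun h' => absurd h' h⟩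
  choose sec hs using hs
  refine ⟨fun g => κ₁ (sec g), fun g => κ₂ (sec g), fun h => by rw [k0 h]; rfl,
    fun c hcoc ⟨U, hU, hU'⟩ => ?_⟩
  obtain ⟨y, hy, y1, y2⟩ := hKd ℚ_[5] (Om 5) ⊤ (fun γ => om d.ρ (res γ))
    (fun γ => rb d.ρ (res γ) ^ j) (fun γ => c (res γ)) (ι d.z) hz (fun γ _ => hzz γ)
    (fun γ _ => pow_ne_zero _ (mul_ne_zero (c2 _ (hD (hm γ))).1
      (pow_ne_zero _ (c2 _ (hD (hm γ))).2)))
    (fun γ _ δ _ => by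
      obtain ⟨e1, e2⟩ := c1 _ (hD (hm γ)) _ (hD (hm δ))
      simp only [rb, map_mul, e1, e2]
      ring)
    (fun γ _ δ _ => by
      have := hcoc _ (hm γ) _ (hm δ)
      simpa only [map_mul] using this)
    ⟨U.comap res, ho U hU, fun γ _ h => hU' _ (hm γ) h⟩
  obtain ⟨t₀, -, t1, t2⟩ := y2 γ₀ trivial
  obtain ⟨i, i', t, t3, t4⟩ := hl (y ^ 5) (pow_ne_zero _ hy)
    (fun γ h => by
      rw [map_pow, y1 γ trivial ((hw γ).2 h), mul_pow, ← pow_mul, mul_comm _ 5, pow_mul,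
        hz.pow_eq_one, one_pow, one_mul])
    ⟨t₀, fun γ h => t1 γ trivial ((hw γ).2 h), by rw [← hk]; exact t2⟩
  refine ⟨i, i', fun h hh hl1 => ?_⟩
  obtain ⟨-, p1, p2⟩ := (c3 h).1 hl1
  have ho1 : om d.ρ (res (sec h)) = 1 := by rw [hs h hh, om, p1, p2, mul_one]
  have he : om d.ρ (res (sec h)) * rb d.ρ (res (sec h)) ^ j = 1 := by
    rw [ho1, hs h hh, rb, p1, p2]; simp
  have hw' := (hw _).1 he
  have := k1 y t i i' hy t4 (sec h) (by rw [hzz, ho1, ZMod.val_one, pow_one]) (hf _ hw').1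
    (hf _ hw').2 (t3 _ hw') _ (y1 _ trivial he)
  rwa [ho1, one_mul, hs h hh] at this

theorem quart {a r : Qb} (ι : Qb →+* Om 5) (ha : a ^ 2 = 29) (hr : r ^ 2 = (7 - a) / 2) :
    ι r ^ 4 - 7 * ι r ^ 2 + 5 = 0 := by
  have : r ^ 4 - 7 * r ^ 2 + 5 = 0 := by
    rw [show r ^ 4 = (r ^ 2) ^ 2 by ring, hr]
    linear_combination (1 / 4 : Qb) * ha
  have h2 := congrArg ι this
  simpa only [map_add, map_sub, map_mul, map_pow, map_ofNat, map_zero] using h2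

theorem ne_neg {r : Om 5} (h : r ^ 4 - 7 * r ^ 2 + 5 = 0) : -r ≠ r := fun e => by
  have : r = 0 := by linear_combination (-1 / 2 : Om 5) * e
  rw [this] at h
  norm_num at h

theorem lev_part (hCh : ChS) (hEmb : EmbS) (hKd : KdS) (hZ : LocZS) (hR : LocRS) (hC5 : C5S)
    (d : Rep) (ι : Qb →+* Om 5) (j : ℕ) (hj : j < 4) :
    ∃ κ₁ κ₂ : GQ → F5, (j ≠ 0 → κ₂ = 0) ∧ ∀ c : GQ → F5,
      Coc (fun g => rb d.ρ g ^ j) (Dec ι) c → Cts Opn (Dec ι) c →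
      ∃ s t : F5, ∀ h ∈ Dec ι, h ∈ lev d.ρ 1 → c h = s * κ₁ h + t * κ₂ h := by
  obtain ⟨hD, hsur⟩ := hC5.2.2.2.1 d ι
  obtain ⟨res, hc, hr, ho⟩ := hEmb.2.2.1 5 ι
  have c2 := (hCh GQ d.ρ).2.1
  have hz : IsPrimitiveRoot (ι d.z) 5 := d.hz.map_of_injective ι.injective
  have hm : ∀ γ, res γ ∈ gam d.ρ := fun γ => hD (hr ▸ ⟨γ, rfl⟩)
  have hzz : ∀ γ : Gl 5, γ (ι d.z) = ι d.z ^ (om d.ρ (res γ)).val := fun γ => by
    rw [← hc γ, d.act_z _ (hm γ), map_pow]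
  have hz1 : ∀ γ : Gl 5, om d.ρ (res γ) = 1 ↔ γ (ι d.z) = ι d.z := fun γ => by
    rw [hzz]
    refine ⟨fun h => by rw [h, ZMod.val_one, pow_one], fun h => ZMod.val_injective 5 ?_⟩
    rw [ZMod.val_one]
    exact hz.pow_inj (ZMod.val_lt _) (by norm_num) (by rw [h, pow_one])
  have hex : ∀ u v : F5, u ≠ 0 → v ≠ 0 →
      ∃ γ, ph1 d.ρ (res γ) = u ∧ ph2 d.ρ (res γ) = v := fun u v hu hv => by
    obtain ⟨g, hg, e⟩ := hsur u v hu hv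
    obtain ⟨γ, rfl⟩ := (hr ▸ hg : g ∈ res.range)
    exact ⟨γ, e⟩
  have odd : ∀ (r : Qb) (p : GQ → F5), ι r ^ 4 - 7 * ι r ^ 2 + 5 = 0 →
      (∀ g ∈ gam d.ρ, g r = if p g ^ 2 = 1 then r else -r) →
      (∀ γ, om d.ρ (res γ) * rb d.ρ (res γ) ^ j = p (res γ) ^ 2) → (∃ γ, p (res γ) = 2) →
      ∃ κ₁ κ₂ : GQ → F5, (j ≠ 0 → κ₂ = 0) ∧ ∀ c : GQ → F5,
        Coc (fun g => rb d.ρ g ^ j) (Dec ι) c → Cts Opn (Dec ι) c →
        ∃ s t : F5, ∀ h ∈ Dec ι, h ∈ lev d.ρ 1 → c h = s * κ₁ h + t * κ₂ h := by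
    rintro r p hq hp he ⟨γ₀, h0⟩
    have hact : ∀ γ : Gl 5, γ (ι r) = if p (res γ) ^ 2 = 1 then ι r else -ι r := fun γ => by
      rw [← hc γ, hp _ (hm γ)]
      split_ifs
      · rfl
      · exact map_neg _ _
    obtain ⟨g₁, a1, a2, a3⟩ := hR (ι r) hq γ₀ (by rw [hact, h0, if_neg (by decide)])
    obtain ⟨κ₁, κ₂, b1, b2⟩ := step hCh hKd d ι hD res hc hr ho j (ι r)
      (fun γ => by
        rw [he, hact]
        split_ifs with h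
        · exact iff_of_true h rfl
        · exact iff_of_false h (ne_neg hq))
      γ₀ 4 (by rw [he, h0]; decide) g₁ 1 a1 one_ne_zero (fun γ h => ⟨a2 γ h, map_one _⟩)
      (fun x x0 x1 x2 => by
        obtain ⟨i, t, t1, t2⟩ := a3 x x0 x1 x2
        exact ⟨i, 0, t, t1, by rw [pow_zero, mul_one]; exact t2⟩)
    exact ⟨κ₁, κ₂, fun _ => b1 rfl, b2⟩
  obtain ⟨γ₀, u0, v0⟩ := hex 2 1 (by decide) (by decide)
  have hγ₀ : γ₀ (ι d.z) = ι d.z ^ 2 := by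
    rw [hzz, om, u0, v0, mul_one]
    rfl
  interval_cases j
  · obtain ⟨g₁, g₂, a1, a2, -, a4, a5⟩ := hZ _ hz γ₀ hγ₀ 2 (Or.inl rfl)
    obtain ⟨κ₁, κ₂, -, b2⟩ := step hCh hKd d ι hD res hc hr ho 0 (ι d.z)
      (fun γ => by rw [pow_zero, mul_one, hz1]) γ₀ 2
      (by rw [pow_zero, mul_one, om, u0, v0]; decide) g₁ g₂ a1 a2 a4 a5
    exact ⟨κ₁, κ₂, fun h => absurd rfl h, b2⟩
  · refine odd d.r1 (ph1 d.ρ) (quart ι d.ha d.hr1) d.act_r1 (fun γ => ?_) ⟨γ₀, u0⟩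
    have : ∀ u v : F5, v ≠ 0 → u * v * (u * v ^ 3) ^ 1 = u ^ 2 := by decide
    exact this _ _ (c2 _ (hm γ)).2
  · obtain ⟨g₁, g₂, a1, a2, a3, a4, a5⟩ := hZ _ hz γ₀ hγ₀ 3 (Or.inr rfl)
    obtain ⟨κ₁, κ₂, b1, b2⟩ := step hCh hKd d ι hD res hc hr ho 2 (ι d.z)
      (fun γ => by
        rw [← hz1]
        have : ∀ u v : F5, u ≠ 0 → v ≠ 0 → (u * v * (u * v ^ 3) ^ 2 = 1 ↔ u * v = 1) := by decide
        exact this _ _ (c2 _ (hm γ)).1 (c2 _ (hm γ)).2) γ₀ 3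
      (by rw [om, rb, u0, v0]; decide) g₁ g₂ a1 a2 a4 a5
    exact ⟨κ₁, κ₂, fun _ => b1 (a3 rfl), b2⟩
  · obtain ⟨γ₁, -, v1⟩ := hex 1 2 (by decide) (by decide)
    refine odd d.r2 (ph2 d.ρ) (quart (a := -d.a) ι (by rw [neg_sq, d.ha])
      (by rw [d.hr2, sub_neg_eq_add])) d.act_r2 (fun γ => ?_) ⟨γ₁, v1⟩
    have : ∀ u v : F5, u ≠ 0 → v ≠ 0 → u * v * (u * v ^ 3) ^ 3 = v ^ 2 := by decide
    exact this _ _ (c2 _ (hm γ)).1 (c2 _ (hm γ)).2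

end TLs

theorem lsS (hCh : ChS) (hCob : CobS) (hEmb : EmbS) (hKd : KdS) (hZ : LocZS) (hR : LocRS)
    (hIdx : IdxS) (hC5 : C5S) : LsS := by
  intro d ι _ j hj
  obtain ⟨κ₁, κ₂, k0, k1⟩ := TLs.lev_part hCh hEmb hKd hZ hR hC5 d ι j hj
  obtain ⟨c1, -, c3, c4, -⟩ := hCh GQ d.ρ
  have hD := (hC5.2.2.2.1 d ι).1
  by_cases h0 : j = 0
  · subst h0
    refine ⟨fun g => 4 * κ₁ (g ^ 4), fun g => 4 * κ₂ (g ^ 4), fun c hc ht => ?_⟩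
    obtain ⟨s, t, h⟩ := k1 c hc ht
    refine ⟨s, t, fun g hg => ?_⟩
    have e := h (g ^ 4) (pow_mem hg 4) (c4 g (hD hg))
    have e2 := hc g hg g hg
    have e4 := hc (g * g) (mul_mem hg hg) (g * g) (mul_mem hg hg)
    rw [show g * g * (g * g) = g ^ 4 by simp only [pow_succ, pow_zero, one_mul, mul_assoc], e,
      e2] at e4
    have h5 : (5 : F5) = 0 := by decide
    simp only [pow_zero, mul_one] at e4
    linear_combination (-4) * e4 - 3 * c g * h5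
  rw [k0 h0] at k1
  have cob : ∀ c : GQ → F5, Coc (fun g => rb d.ρ g ^ j) (Dec ι) c →
      (∀ h ∈ Dec ι, h ∈ lev d.ρ 1 → c h = 0) →
      ∃ t : F5, ∀ g ∈ Dec ι, c g = t * (rb d.ρ g ^ j - 1) := fun c hc hv =>
    hCob GQ (Dec ι) (lev d.ρ 1 ⊓ Dec ι) (fun g => rb d.ρ g ^ j) c inf_le_right
      (by
        rw [Subgroup.inf_relIndex_right]
        exact fun h => (hIdx d).1 (h.trans (Subgroup.relIndex_dvd_index_of_normal _ _)))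
      (fun g hg h hh => by
        obtain ⟨e1, e2⟩ := c1 g (hD hg) h (hD hh)
        simp only [rb, e1, e2]
        ring)
      (fun g hg => by
        obtain ⟨-, p1, p2⟩ := (c3 g).1 hg.1
        simp only [rb, p1, p2, one_pow, mul_one])
      hc fun g hg => hv g hg.2 hg.1
  by_cases hex : ∃ c₀ : GQ → F5, Coc (fun g => rb d.ρ g ^ j) (Dec ι) c₀ ∧ Cts Opn (Dec ι) c₀ ∧
      ∃ h ∈ Dec ι, h ∈ lev d.ρ 1 ∧ c₀ h ≠ 0
  · obtain ⟨c₀, a1, a2, h₀, a3, a4, a5⟩ := hex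
    obtain ⟨s₀, t₀, b⟩ := k1 c₀ a1 a2
    have hs₀ : s₀ ≠ 0 := by
      rintro rfl
      exact a5 (by simpa using b h₀ a3 a4)
    refine ⟨c₀, fun g => rb d.ρ g ^ j - 1, fun c hc ht => ?_⟩
    obtain ⟨s, t, b'⟩ := k1 c hc ht
    obtain ⟨t', e⟩ := cob (fun g => c g - s / s₀ * c₀ g)
      (fun g hg h hh => by
        simp only [hc g hg h hh, a1 g hg h hh]
        ring)
      (fun h hh hl => by
        simp only [b h hh hl, b' h hh hl, Pi.zero_apply, mul_zero, add_zero]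
        field_simp
        ring)
    exact ⟨s / s₀, t', fun g hg => by linear_combination e g hg⟩
  · push Not at hex
    refine ⟨0, fun g => rb d.ρ g ^ j - 1, fun c hc ht => ?_⟩
    obtain ⟨t, e⟩ := cob c hc (hex c hc ht)
    exact ⟨0, t, fun g hg => by rw [e g hg, zero_mul, zero_add]⟩

end Pool.Agent.Lib.MP_54db3e_nt
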