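import Pool.Agent.Lib.MP_54db3e_nt.StmtF

/-!
The final assembly: infinitely many invariant, infinitely divisible Selmer classes of order 5.
-/

open scoped Classical

noncomputable section

namespace Pool.Agent.Lib.MP_54db3e_nt

namespace TMain

theorem isGalois_Qb : IsGalois ℚ Qb := by
  haveI : Algebra.IsAlgebraic ℚ Qb := AlgebraicClosure.isAlgebraic ℚ
  haveI : IsAlgClosure ℚ Qb := ⟨inferInstance, inferInstance⟩
  exact IsAlgClosure.isGalois ℚ Qb

/-- Every element of the Selmer group is killed by a power of `p`. -/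
theorem sel_torsion (W : WeierstrassCurve ℚ) (p : ℕ) [Fact p.Prime] (s : Sel W p (Finf W p Qb)) :
    ∃ k : ℕ, p ^ k • s = 0 := by
  obtain ⟨f, F, hF, hfin, c, hc, hf⟩ := s
  obtain ⟨⟨htors, hlc, -⟩, -⟩ := hc
  haveI : IsGalois ℚ Qb := isGalois_Qb
  have hcl : IsClosed (F.fixingSubgroup : Set GQ) := InfiniteGalois.fixingSubgroup_isClosed F
  haveI : CompactSpace F.fixingSubgroup := isCompact_iff_compactSpace.mp hcl.isCompact
  have hr : (Set.range c).Finite := hlc.range_finite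
  have hex : ∀ v : Pt W Qb, ∃ k : ℕ, v ∈ Set.range c → p ^ k • v = 0 := by
    intro v
    by_cases hv : v ∈ Set.range c
    · obtain ⟨g, rfl⟩ := hv
      obtain ⟨k, hk⟩ := AddCommGroup.mem_primaryComponent.mp (htors g)
      exact ⟨k, fun _ => hk⟩
    · exact ⟨0, fun h => absurd h hv⟩
  choose k hk using hex
  obtain ⟨K, hK⟩ := (hr.image k).bddAbove
  refine ⟨K, Subtype.ext (funext fun g => ?_)⟩
  have hmem : f g ∈ Set.range c := ⟨_, (hf g).symm⟩
  have hle : k (f g) ≤ K := hK ⟨f g, hmem, rfl⟩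
  obtain ⟨j, rfl⟩ := Nat.exists_eq_add_of_le hle
  change p ^ (k (f g) + j) • f g = 0
  rw [pow_add, mul_comm, mul_smul, hk _ hmem, smul_zero]

/-- Iterated divisibility. -/
theorem div_pow (hDiv : DivQS) (d : Rep) (k : ℕ) : ∀ m, 1 ≤ m → ∀ f, Good d m f →
    ∃ n, m ≤ n ∧ ∃ f', Good d n f' ∧ ∀ h ∈ lev d.ρ n, 5 ^ k • f' h = f h := by
  induction k with
  | zero => exact fun m _ f hf => ⟨m, le_rfl, f, hf, fun h _ => by rw [pow_zero, one_smul]⟩
  | succ k ih =>
    intro m hm f hf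
    obtain ⟨n, hn, f', hf', h1⟩ := ih m hm f hf
    obtain ⟨n', hn', f'', hf'', h2⟩ := hDiv d n (hm.trans hn) f' hf'
    refine ⟨n', hn.trans hn', f'', hf'', fun h hh => ?_⟩
    rw [pow_succ, mul_smul, h2 h hh, h1 h (lev_anti d.ρ hn' hh)]

/-- The action of a class of `H` is the conjugation action of a representative. -/
theorem mk_smul (g : Hcyc 5 Qb) (s : Sel E0 5 (Finf E0 5 Qb))
    (h : (Finf E0 5 Qb).fixingSubgroup) :
    ((QuotientGroup.mk g : HH) • s).1 h =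
      act E0 g.1 (s.1 ⟨g.1⁻¹ * h.1 * g.1, (normalFix E0 5 Qb).conj_mem' h.1 h.2 g.1⟩) :=
  congrFun (out_smul _ (Sel E0 5 (Finf E0 5 Qb)) (Hcyc 5 Qb) g s) h

end TMain

open TMain in
theorem mainS (hRep : RepS) (hLow : LowQS) (hDiv : DivQS) (_hTt : TtS) (hFinf : FinfS)
    (hSel : SelS) (hNfg : NfgS) : MainS := by
  obtain ⟨d⟩ := hRep
  obtain ⟨hfix, -, hslev, U, hU, hUlev⟩ := hFinf d
  refine hNfg 5 HH (Sel E0 5 (Finf E0 5 Qb)) U hU ?_ (sel_torsion E0 5)
  intro hfin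
  set S := {s : Sel E0 5 (Finf E0 5 Qb) | 5 • s = 0 ∧ (∀ g ∈ U.toSubgroup, g • s = s) ∧
    ∀ k : ℕ, ∃ t, 5 ^ k • t = s} with hS
  haveI : Finite S := hfin.to_subtype
  obtain ⟨n, hn, f, hf, hinj⟩ := hLow d (Nat.card S + 1)
  choose s hs using fun i => hSel d n hn (f i) (hf i).1
  have hmem : ∀ i, s i ∈ S := by
    intro i
    refine ⟨Subtype.ext (funext fun h => ?_), fun g hg => ?_, fun k => ?_⟩
    · change 5 • (s i).1 h = 0
      rw [hs i h]
      exact (hf i).2.1 _ ((hfix _).mp h.2 n)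
    · induction g using QuotientGroup.induction_on with
      | H g =>
        have hg1 : g.1 ∈ lev d.ρ 1 := hUlev g hg
        refine Subtype.ext (funext fun h => ?_)
        have hh : h.1 ∈ lev d.ρ n := (hfix _).mp h.2 n
        rw [mk_smul, hs i, hs i h]
        change act E0 g.1 (f i (g.1⁻¹ * h.1 * g.1)) = f i h.1
        rw [(hf i).2.2 g.1 (hslev g.1 g.2 hg1 n hn) h.1 hh]
        exact (d.mem_lev g.1 1).mp hg1 _ (by rw [pow_one]; exact (hf i).2.1 _ hh)
    · obtain ⟨n', hn', f', hf', h1⟩ := div_pow hDiv d k n hn (f i) (hf i).1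
      obtain ⟨t, ht⟩ := hSel d n' (hn.trans hn') f' hf'
      refine ⟨t, Subtype.ext (funext fun h => ?_)⟩
      change 5 ^ k • t.1 h = (s i).1 h
      rw [ht h, hs i h]
      exact h1 _ ((hfix _).mp h.2 n')
  have hI : Function.Injective fun i => (⟨s i, hmem i⟩ : S) := by
    intro i j hij
    have hij' : s i = s j := congrArg Subtype.val hij
    refine hinj i j fun h hh => ?_
    have e1 := hs i ⟨h, (hfix h).mpr hh⟩
    have e2 := hs j ⟨h, (hfix h).mpr hh⟩
    rw [hij'] at e1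
    exact e1.symm.trans e2
  have hle : Nat.card (Fin (Nat.card S + 1)) ≤ Nat.card S := Nat.card_le_card_of_injective _ hI
  rw [Nat.card_eq_fintype_card, Fintype.card_fin] at hle
  omega

theorem final (hG : GoodS) (hM : MainS) : ∃ (W : WeierstrassCurve ℤ) (p : ℕ) (_ : Fact p.Prime),
    W = ⟨0, 0, 1, 8175274, 50242716927⟩ ∧ p = 5 ∧ 5 ≤ p ∧ GoodOrdinary W p ∧
      ¬ FinGenModP (W.map (Int.castRingHom ℚ)) p (AlgebraicClosure ℚ) :=
  ⟨E0Z, 5, fact5, rfl, rfl, le_rfl, hG, hM⟩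

end Pool.Agent.Lib.MP_54db3e_nt
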