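import Pool.Agent.Lib.MP_54db3e_nt.Stmt

/-!
The Newton polygon of multiplication by 5 at the prime 659.
-/

open scoped Classical

noncomputable section

namespace Pool.Agent.Lib.MP_54db3e_nt

namespace TNp

open Finset

/-- `659 ^ (-x)` -/
def qq (x : ℝ) : ℝ := (659 : ℝ) ^ (-x)

theorem qq_pos (x : ℝ) : 0 < qq x := Real.rpow_pos_of_pos (by norm_num) _

theorem qq_add (x y : ℝ) : qq (x + y) = qq x * qq y := by
  rw [qq, neg_add, Real.rpow_add (by norm_num)]; rfl

theorem qq_pow (x : ℝ) (n : ℕ) : qq x ^ n = qq (n * x) := by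
  rw [qq, qq, ← Real.rpow_mul_natCast (by norm_num)]; congr 1; ring

theorem qq_le {x y : ℝ} : qq x ≤ qq y ↔ y ≤ x := by
  rw [qq, qq, Real.rpow_le_rpow_left_iff (by norm_num), neg_le_neg_iff]

theorem qq_lt {x y : ℝ} : qq x < qq y ↔ y < x := by
  rw [qq, qq, Real.rpow_lt_rpow_left_iff (by norm_num), neg_lt_neg_iff]

theorem qq_inj {x y : ℝ} (h : qq x = qq y) : x = y := le_antisymm (qq_le.1 h.ge) (qq_le.1 h.le)

theorem qq_int (k : ℤ) : qq (-k) = (659 : ℝ) ^ k := by rw [qq, neg_neg, Real.rpow_intCast]

theorem qq_surj {N : ℝ} (h : 0 < N) : ∃ v, N = qq v :=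
  ⟨-Real.logb 659 N, by rw [qq, neg_neg, Real.rpow_logb (by norm_num) (by norm_num) h]⟩

theorem norm_int (c : ℤ) : ‖(c : Om 659)‖ = ‖(c : ℚ_[659])‖ := by
  rw [← PadicAlgCl.norm_extends]; simp

theorem norm_int_le (c : ℤ) (e : ℕ) : ‖(c : Om 659)‖ ≤ qq e ↔ (659 : ℤ) ^ e ∣ c := by
  have h1 := norm_int c
  have h2 : qq e = ((659 : ℕ) : ℝ) ^ (-e : ℤ) := by
    rw [Nat.cast_ofNat, ← qq_int]; simp
  rw [h1, h2, Padic.norm_int_le_pow_iff_dvd]; rfl

theorem norm_int_eq {c : ℤ} {e : ℕ} (h : (659 : ℤ) ^ e ∣ c) (h' : ¬ (659 : ℤ) ^ (e + 1) ∣ c) :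
    ‖(c : Om 659)‖ = qq e := by
  obtain ⟨u, rfl⟩ := h
  have hu : ¬ (659 : ℤ) ∣ u := fun ⟨w, hw⟩ => h' ⟨w, by rw [hw]; ring⟩
  have h1 : ‖(((659 : ℤ) ^ e * u : ℤ) : Om 659)‖ = ‖(((659 : ℤ) ^ e * u : ℤ) : ℚ_[659])‖ :=
    norm_int _
  have h2 : ‖(u : ℚ_[659])‖ = 1 := le_antisymm (Padic.norm_int_le_one u)
    (not_lt.1 fun h => hu (Padic.norm_intCast_lt_one_iff.1 h))
  have h3 : ‖((659 : ℕ) : ℚ_[659]) ^ e‖ = ((659 : ℕ) : ℝ) ^ (-e : ℤ) := Padic.norm_p_pow e
  rw [h1, Int.cast_mul, norm_mul, h2, mul_one, Int.cast_pow]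
  have h4 : qq e = ((659 : ℕ) : ℝ) ^ (-e : ℤ) := by
    rw [Nat.cast_ofNat, ← qq_int]; simp
  rw [h4, ← h3]; simp

theorem term_le {c : ℤ} {e : ℕ} (h : (659 : ℤ) ^ e ∣ c) {s : Om 659} {v : ℝ} (hs : ‖s‖ ≤ qq v)
    (i : ℕ) : ‖(c : Om 659) * s ^ i‖ ≤ qq (e + i * v) := by
  rw [norm_mul, norm_pow, qq_add, ← qq_pow]
  exact mul_le_mul ((norm_int_le c e).2 h) (pow_le_pow_left₀ (norm_nonneg _) hs i) (by positivity)
    (qq_pos _).le

theorem sum_le {S : Finset ℕ} {c : ℕ → ℤ} {e : ℕ → ℕ} (hc : ∀ i ∈ S, (659 : ℤ) ^ e i ∣ c i)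
    {s : Om 659} {v B : ℝ} (hs : ‖s‖ ≤ qq v) (h : ∀ i ∈ S, B ≤ e i + i * v) :
    ‖∑ i ∈ S, (c i : Om 659) * s ^ i‖ ≤ qq B :=
  IsUltrametricDist.norm_sum_le_of_forall_le_of_nonneg (qq_pos _).le fun i hi =>
    (term_le (hc i hi) hs i).trans (qq_le.2 (h i hi))

theorem sum_eq {n : ℕ} {c : ℕ → ℤ} {e : ℕ → ℕ} (hc : ∀ i ∈ range n, (659 : ℤ) ^ e i ∣ c i)
    {j : ℕ} (hj : j < n) (hj' : ¬ (659 : ℤ) ^ (e j + 1) ∣ c j) {s : Om 659} {v : ℝ}
    (hs : ‖s‖ ≤ qq v) (hs' : ‖s‖ ^ j = qq v ^ j)
    (h : ∀ i < n, i ≠ j → (e j : ℝ) + j * v < e i + i * v) :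
    ‖∑ i ∈ range n, (c i : Om 659) * s ^ i‖ = qq (e j + j * v) := by
  have hm := mem_range.2 hj
  have h1 : ‖(c j : Om 659) * s ^ j‖ = qq (e j + j * v) := by
    rw [norm_mul, norm_pow, hs', norm_int_eq (hc j hm) hj', qq_pow, qq_add]
  have h2 : ‖∑ i ∈ (range n).erase j, (c i : Om 659) * s ^ i‖ < qq (e j + j * v) := by
    rcases ((range n).erase j).eq_empty_or_nonempty with h0 | h0
    · rw [h0]; simpa using qq_pos _
    obtain ⟨i, hi, hle⟩ := IsUltrametricDist.exists_norm_finsetSum_le_of_nonempty h0
      fun i => (c i : Om 659) * s ^ i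
    exact (hle.trans (term_le (hc i (mem_of_mem_erase hi)) hs i)).trans_lt
      (qq_lt.2 (h i (mem_range.1 (mem_of_mem_erase hi)) (ne_of_mem_erase hi)))
  rw [← add_sum_erase _ _ hm, IsUltrametricDist.norm_add_eq_max_of_norm_ne_norm
    (by rw [h1]; exact h2.ne'), h1, max_eq_left h2.le]

/-- coefficients of `psi5 (x0 + s)` -/
def cH (i : ℕ) : ℤ := [232917394596456774861431938626768376687759121993206174100297373528867190334778125087562765906665979991,
  11412054653134954694210020151867894710484520547023563239957280725960080324461837250386316246750,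
  256275568566964304982356616976824091666822788447461211624544016647985345109209707085500,
  3487920876133371804204980966796204441000405540130613053516973800382727309517815,
  32042752541303383685350930255865510712994971709123749096949503722214040,
  209329517250384214851217090025261808126205746467450188509746412,
  997144125253793645045936728995894918198747948033430185,
  3489729933749147092027763633327690557938846060,
  8905381098371373329482805706370336320,
  16160346365382666846571199295,
  19794867220777337558,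
  14695033380,
  5].getD i 0

/-- coefficients of `phi5 (x0 + s) - x0 psi5 (x0 + s) ^ 2` -/
def cG (i : ℕ) : ℤ := [-12755409530498773414526454209648789447993326281846425600011397675469079416678586052645512443871023417369377188452871215853093732502261076393843067948601712193899906924380564329214107036280352113946314401567535640,
  -1247761792725982024796233993364363716132424416779173910704478636584375902438297359875667607501219864442269580054274861104684484475209313665087671948507058793551753134901441007113304397146276779530106558725,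
  -58477452831940249414521929944094621999437361006243692732977505236274074756378695914780390401746504303504463544386932708500096698136276370349676307981837502514534013718780880411978804643417086270350,
  -1747319468691912203235531907016270475986654073527347515076128078820256852026082465670539571209082641871385821361528051053263620491774154622661715769967653666641894359909088079720689292195920,
  -37370282390797334544734402229126441682945271896436943412713244749894581425977256188251134020436862973297078665623351916407410932103657671474816823901198740655323824449719077488546095,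
  -608807436544702394346184900517293874725122964686830892124513355345026597822159515692668744758041324917136163287267943088259265128477649631656117654288996079075883403380077166,
  -7849794210411639147640758633013902300158740374296551565195745261268327571462702082114109111375565267969069427200753075167018966582034891368482765915959137280481948780,
  -82161984801148294366701866637215244134904064731403885755723402160736723624550538858551363362449205259321204261209024145816986324609495361234218819901966295755,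
  -710403634709418739984687672829726741217213514129966615839679727072832534562962573126195850126349580288080669059012566415054970732050973433642909972120,
  -5136455577879763801543106600569548407981445933458560717901821373758960676404907050983301917213251318178660034139518769469894127451882401645520,
  -31318501141494608102677591137612745567418799643284062123815421131749176098186441861742277948102022258860863820988429634778036127463118,
  -161918149977279462400165003014575762982024822403070067191661723015339222030238465529954858734397070531852217277293341016811380,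
  -711968681159531339807019741729910239757749198935862860802882040219690603110164209526067421064254872790867420822028880,
  -2664728717844458523455950734054151765215953391352575511123462211005908256968742342216252535099496639261054175,
  -8478015397130868577857137735501689281320594103390194881698053762619607788942628993401293500604730300,
  -22846454376661705379583762289849510637583563287758665864713517883576128200017076311315597680,
  -51823528360401257189826673885331622555055642310228021389017099250446701538144011625,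
  -98018780000188589625035612404537105197747405149096100424188699577221483650,
  -152461665038961006293240670312465435828160215648448108558099483980,
  -191119290654369033524157058115704651536385790505603919855,
  -187282173101720229702103863387274477041140524746,
  -136549176839811260766845948540992939920,
  -67579630255891918337471394720,
  -17995333837427046100,
  0,
  1].getD i 0

def eH (i : ℕ) : ℕ := [15, 15, 13, 10, 8, 5, 5, 5, 5, 3, 0, 0, 0].getD i 0

def eG (i : ℕ) : ℕ := [33, 30, 28, 25, 23, 20, 20, 20, 18, 16, 13, 13, 13, 10, 8, 5, 5, 5, 5, 5, 3, 3, 3, 3, 3, 0].getD i 0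

theorem dvH : ∀ i ∈ range 13, (659 : ℤ) ^ eH i ∣ cH i := by decide +kernel
theorem dvG : ∀ i ∈ range 26, (659 : ℤ) ^ eG i ∣ cG i := by decide +kernel
theorem ndH : ∀ i ∈ [0, 5, 10], ¬ (659 : ℤ) ^ (eH i + 1) ∣ cH i := by decide +kernel
theorem ndG : ∀ i ∈ [5, 15, 25], ¬ (659 : ℤ) ^ (eG i + 1) ∣ cG i := by decide +kernel

section
variable {R : Type} [CommRing R] (s : R)

theorem eqF : dF 8175274 200970867709 (244917223 + s) = (58764895877613783330518385) * s ^ 0 + (719813353497081844) * s ^ 1 + (2939006676) * s ^ 2 + (4) * s ^ 3 := by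
  unfold dF; ring

theorem eqT : dT 8175274 200970867709 (244917223 + s) = (10794401332643265355926748036782044) * s ^ 0 + (176294687632841349991555155) * s ^ 1 + (1079720030245622766) * s ^ 2 + (2939006676) * s ^ 3 + (3) * s ^ 4 := by
  unfold dT; ring

theorem eqS : dS 8175274 200970867709 (244917223 + s) = (431664123614869627865092260128597801396952305796343) * s ^ 0 + (10574939195275844695774126810699598227074774) * s ^ 1 + (107944013326432653559267480367820440) * s ^ 2 + (587648958776137833305183850) * s ^ 3 + (1799533383742704610) * s ^ 4 + (2939006676) * s ^ 5 + (2) * s ^ 6 := by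
  unfold dS; ring

theorem eqH : psi5 8175274 200970867709 (244917223 + s) = ∑ i ∈ range 13, (cH i : R) * s ^ i := by
  simp only [sum_range_succ, sum_range_zero, cH, List.getD_cons_succ, List.getD_cons_zero]
  unfold psi5
  rw [eqF, eqT, eqS]
  push_cast
  ring

theorem eqG : phi5 8175274 200970867709 (244917223 + s) -
    244917223 * psi5 8175274 200970867709 (244917223 + s) ^ 2 =
      ∑ i ∈ range 26, (cG i : R) * s ^ i := by
  unfold phi5
  rw [eqH, eqF, eqT, eqS]
  simp only [sum_range_succ, sum_range_zero, cH, cG, List.getD_cons_succ, List.getD_cons_zero]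
  push_cast
  ring

end

/-- the two polynomials -/
def pH (s : Om 659) : Om 659 := ∑ i ∈ range 13, (cH i : Om 659) * s ^ i
def pG (s : Om 659) : Om 659 := ∑ i ∈ range 26, (cG i : Om 659) * s ^ i

variable {s : Om 659} {v : ℝ}

theorem H12 (hs : ‖s‖ ≤ qq v) (h : v ≤ 0) : ‖pH s‖ ≤ qq (12 * v) :=
  sum_le dvH hs fun i hi => by
    have hi := mem_range.1 hi
    interval_cases i <;> simp only [eH, List.getD_cons_succ, List.getD_cons_zero] <;>
      push_cast <;> linarith

theorem Hle1 (hs : ‖s‖ ≤ qq 1) : ‖pH s‖ ≤ qq 10 :=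
  sum_le dvH hs fun i hi => by
    have hi := mem_range.1 hi
    interval_cases i <;> simp only [eH, List.getD_cons_succ, List.getD_cons_zero] <;> norm_num

theorem Hle2 (hs : ‖s‖ ≤ qq 2) : ‖pH s‖ ≤ qq 15 :=
  sum_le dvH hs fun i hi => by
    have hi := mem_range.1 hi
    interval_cases i <;> simp only [eH, List.getD_cons_succ, List.getD_cons_zero] <;> norm_num

theorem H10 (hs : ‖s‖ = qq v) (h : 0 < v) (h' : v < 1) : ‖pH s‖ = qq (10 * v) := by
  have := sum_eq dvH (j := 10) (by norm_num) (ndH _ (by simp)) hs.le (by rw [hs]) fun i hi hj => by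
    interval_cases i <;> simp only [eH, List.getD_cons_succ, List.getD_cons_zero] <;>
      push_cast <;> first | linarith | exact absurd rfl hj
  simpa [eH, pH] using this

theorem H5 (hs : ‖s‖ = qq v) (h : 1 < v) (h' : v < 2) : ‖pH s‖ = qq (5 + 5 * v) := by
  have := sum_eq dvH (j := 5) (by norm_num) (ndH _ (by simp)) hs.le (by rw [hs]) fun i hi hj => by
    interval_cases i <;> simp only [eH, List.getD_cons_succ, List.getD_cons_zero] <;>
      push_cast <;> first | linarith | exact absurd rfl hj
  simpa [eH, pH] using this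

theorem H0 (hs : ‖s‖ ≤ qq v) (h : 2 < v) : ‖pH s‖ = qq 15 := by
  have := sum_eq dvH (j := 0) (by norm_num) (ndH _ (by simp)) hs (by simp) fun i hi hj => by
    interval_cases i <;> simp only [eH, List.getD_cons_succ, List.getD_cons_zero] <;>
      push_cast <;> first | linarith | exact absurd rfl hj
  simpa [eH, pH] using this

theorem G25 (hs : ‖s‖ = qq v) (h : v < 1 / 2) : ‖pG s‖ = qq (25 * v) := by
  have := sum_eq dvG (j := 25) (by norm_num) (ndG _ (by simp)) hs.le (by rw [hs]) fun i hi hj => by
    interval_cases i <;> simp only [eG, List.getD_cons_succ, List.getD_cons_zero] <;>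
      push_cast <;> first | linarith | exact absurd rfl hj
  simpa [eG, pG] using this

theorem G15 (hs : ‖s‖ = qq v) (h : 1 / 2 < v) (h' : v < 3 / 2) : ‖pG s‖ = qq (5 + 15 * v) := by
  have := sum_eq dvG (j := 15) (by norm_num) (ndG _ (by simp)) hs.le (by rw [hs]) fun i hi hj => by
    interval_cases i <;> simp only [eG, List.getD_cons_succ, List.getD_cons_zero] <;>
      push_cast <;> first | linarith | exact absurd rfl hj
  simpa [eG, pG] using this

theorem G5 (hs : ‖s‖ = qq v) (h : 3 / 2 < v) (h' : v < 5 / 2) : ‖pG s‖ = qq (20 + 5 * v) := by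
  have := sum_eq dvG (j := 5) (by norm_num) (ndG _ (by simp)) hs.le (by rw [hs]) fun i hi hj => by
    interval_cases i <;> simp only [eG, List.getD_cons_succ, List.getD_cons_zero] <;>
      push_cast <;> first | linarith | exact absurd rfl hj
  simpa [eG, pG] using this

theorem Gle1 (hs : ‖s‖ ≤ qq (1 / 2)) : ‖pG s‖ ≤ qq (25 / 2) :=
  sum_le dvG hs fun i hi => by
    have hi := mem_range.1 hi
    interval_cases i <;> simp only [eG, List.getD_cons_succ, List.getD_cons_zero] <;> norm_num

theorem Gle3 (hs : ‖s‖ ≤ qq (3 / 2)) : ‖pG s‖ ≤ qq (55 / 2) :=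
  sum_le dvG hs fun i hi => by
    have hi := mem_range.1 hi
    interval_cases i <;> simp only [eG, List.getD_cons_succ, List.getD_cons_zero] <;> norm_num

theorem Gle5 (hs : ‖s‖ ≤ qq (5 / 2)) : ‖pG s‖ ≤ qq (65 / 2) :=
  sum_le dvG hs fun i hi => by
    have hi := mem_range.1 hi
    interval_cases i <;> simp only [eG, List.getD_cons_succ, List.getD_cons_zero] <;> norm_num

theorem key {t : ℝ} (ht : t = 1 ∨ t = 2) (h : qq t * ‖pH s‖ ^ 2 = ‖pG s‖) :
    ∃ (v : ℝ) (j : ℤ), ‖s‖ = qq v ∧ ¬ 5 ∣ j ∧ 5 * v = j := by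
  have t1 : 1 ≤ t := by rcases ht with h | h <;> linarith
  have t2 : t ≤ 2 := by rcases ht with h | h <;> linarith
  have EE : ∀ {a b : ℝ}, ‖pH s‖ = qq a → ‖pG s‖ = qq b → t + 2 * a = b := fun ha hb => by
    rw [ha, hb, qq_pow, ← qq_add] at h
    exact_mod_cast qq_inj h
  have EL : ∀ {a b : ℝ}, ‖pH s‖ = qq a → ‖pG s‖ ≤ qq b → b ≤ t + 2 * a := fun ha hb => by
    rw [← h, ha, qq_pow, ← qq_add] at hb
    exact_mod_cast qq_le.1 hb
  have LE : ∀ {a b : ℝ}, ‖pH s‖ ≤ qq a → ‖pG s‖ = qq b → t + 2 * a ≤ b := fun {a b} ha hb => by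
    have : qq t * ‖pH s‖ ^ 2 ≤ qq t * qq a ^ 2 :=
      mul_le_mul_of_nonneg_left (pow_le_pow_left₀ (norm_nonneg _) ha 2) (qq_pos _).le
    rw [h, hb, qq_pow, ← qq_add] at this
    exact_mod_cast qq_le.1 this
  by_cases h5 : ‖s‖ ≤ qq (5 / 2)
  · have := EL (H0 h5 (by norm_num)) (Gle5 h5)
    linarith
  obtain ⟨v, hv⟩ := qq_surj ((qq_pos _).trans (not_le.1 h5))
  have v5 : v < 5 / 2 := by rw [hv, not_le] at h5; exact qq_lt.1 h5
  have fin : ∀ a : ℤ, 5 * v = 5 * a + t ∨ 5 * v = 5 * a - t →
      ∃ (v : ℝ) (j : ℤ), ‖s‖ = qq v ∧ ¬ 5 ∣ j ∧ 5 * v = j := by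
    intro a ha
    rcases ht with rfl | rfl <;> rcases ha with ha | ha
    · exact ⟨v, 5 * a + 1, hv, by omega, by rw [ha]; push_cast; ring⟩
    · exact ⟨v, 5 * a - 1, hv, by omega, by rw [ha]; push_cast; ring⟩
    · exact ⟨v, 5 * a + 2, hv, by omega, by rw [ha]; push_cast; ring⟩
    · exact ⟨v, 5 * a - 2, hv, by omega, by rw [ha]; push_cast; ring⟩
  rcases le_or_gt v 0 with a0 | a0
  · have := LE (H12 hv.le a0) (G25 hv (by linarith))
    linarith
  rcases lt_trichotomy v (1 / 2) with a1 | a1 | a1
  · have := EE (H10 hv a0 (by linarith)) (G25 hv a1)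
    exact fin 0 (Or.inl (by push_cast; linarith))
  · have := EL (H10 hv a0 (by linarith)) (Gle1 (a1 ▸ hv.le))
    linarith
  rcases lt_trichotomy v 1 with a2 | a2 | a2
  · have := EE (H10 hv a0 a2) (G15 hv a1 (by linarith))
    exact fin 1 (Or.inr (by push_cast; linarith))
  · have := LE (Hle1 (a2 ▸ hv.le)) (G15 hv a1 (by linarith))
    linarith
  rcases lt_trichotomy v (3 / 2) with a3 | a3 | a3
  · have := EE (H5 hv a2 (by linarith)) (G15 hv a1 a3)
    exact fin 1 (Or.inl (by push_cast; linarith))
  · have := EL (H5 hv a2 (by linarith)) (Gle3 (a3 ▸ hv.le))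
    linarith
  rcases lt_trichotomy v 2 with a4 | a4 | a4
  · have := EE (H5 hv a2 a4) (G5 hv a3 v5)
    exact fin 2 (Or.inr (by push_cast; linarith))
  · have := LE (Hle2 (a4 ▸ hv.le)) (G5 hv a3 v5)
    linarith
  · have := EE (H0 hv.le a4) (G5 hv a3 v5)
    exact fin 2 (Or.inl (by push_cast; linarith))

end TNp

open TNp in
theorem npS (h : Ec5S) : NpS := by
  intro P h5 hn
  have hP : P ≠ 0 := fun h0 => h5 (by rw [h0, smul_zero])
  have h1 := (h (Om 659) P hP).2.1 h5
  obtain ⟨s, hs⟩ : ∃ s, xc P = 244917223 + s := ⟨xc P - 244917223, by ring⟩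
  have h2 : (xc (5 • P) - 244917223) * pH s ^ 2 = pG s := by
    rw [pH, pG, ← eqH, ← eqG, ← hs, ← h1]; ring
  have h3 := congrArg norm h2
  rw [norm_mul, norm_pow] at h3
  have q1 : qq 1 = (659 : ℝ)⁻¹ := by rw [qq, Real.rpow_neg_one]
  obtain ⟨t, ht, ht'⟩ : ∃ t : ℝ, (t = 1 ∨ t = 2) ∧ ‖xc (5 • P) - 244917223‖ = qq t := by
    rcases hn with hn | hn
    · exact ⟨1, Or.inl rfl, by rw [hn, q1]⟩
    · exact ⟨2, Or.inr rfl, by rw [hn, ← q1, qq_pow]; norm_num⟩
  rw [ht'] at h3
  obtain ⟨v, j, hv, hj, hvj⟩ := key ht h3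
  rw [hs, add_sub_cancel_left]
  refine ⟨norm_ne_zero_iff.1 (by rw [hv]; exact (qq_pos v).ne'), fun m hm k hk => ?_⟩
  rw [hv, qq_pow, ← qq_int] at hk
  have e : (m : ℝ) * j = 5 * (-k) := by rw [← hvj, ← qq_inj hk]; ring
  have e' : (m : ℤ) * j = 5 * (-k) := by exact_mod_cast e
  rcases (Int.prime_iff_natAbs_prime.2 (by norm_num) : Prime (5 : ℤ)).dvd_or_dvd ⟨_, e'⟩ with a | a
  · exact hm (by exact_mod_cast a)
  · exact hj a

end Pool.Agent.Lib.MP_54db3e_nt
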