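import Pool.Agent.Lib.MP_54db3e_nt.Stmt

/-!
Inertia at 659 moves a point of order 25.
-/

open scoped Classical

noncomputable section

namespace Pool.Agent.Lib.MP_54db3e_nt

namespace TNq

theorem norm_nat {n : ℕ} (h : Nat.Coprime 659 n) : ‖(n : Om 659)‖ = 1 := by
  rw [← map_natCast (algebraMap ℚ_[659] (Om 659)) n, norm_algebraMap']
  exact Padic.norm_natCast_eq_one_iff.2 h

theorem norm_l : ‖(659 : Om 659)‖ = 659⁻¹ := by
  have : ‖((659 : ℕ) : Om 659)‖ = ((659 : ℕ) : ℝ)⁻¹ := by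
    rw [← map_natCast (algebraMap ℚ_[659] (Om 659)) 659, norm_algebraMap']
    exact Padic.norm_p
  exact_mod_cast this

theorem xc_pmap {k k' : Type} [Field k] [Algebra ℚ k] [Field k'] [Algebra ℚ k'] (f : k →+* k')
    (P : Pt E0 k) : xc (pmap E0 f P) = f (xc P) := by
  cases P with
  | zero => exact (map_zero f).symm
  | some x y h => rfl

/-- `p - q a` is a unit when its norm is prime to 659 -/
theorem unit_lin {a : Om 659} (ha : a ^ 2 = 29) (p q N : ℕ) (hN : 29 * q ^ 2 + N = p ^ 2)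
    (hc : Nat.Coprime 659 N) : ‖(p : Om 659) - q * a‖ = 1 := by
  have h1 : ‖a‖ ≤ 1 := by
    refine pow_le_one_iff_of_nonneg (norm_nonneg _) (n := 2) (by norm_num) |>.1 ?_
    rw [← norm_pow, ha]
    simpa using IsUltrametricDist.norm_natCast_le_one (Om 659) 29
  have h2 : ‖(q : Om 659) * a‖ ≤ 1 := by
    rw [norm_mul]
    exact mul_le_one₀ (IsUltrametricDist.norm_natCast_le_one _ _) (norm_nonneg _) h1
  have h3 : ‖(p : Om 659) + q * a‖ ≤ 1 := (IsUltrametricDist.norm_add_le_max _ _).trans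
    (max_le (IsUltrametricDist.norm_natCast_le_one _ _) h2)
  have h4 : ‖(p : Om 659) - q * a‖ ≤ 1 := by
    rw [sub_eq_add_neg]
    exact (IsUltrametricDist.norm_add_le_max _ _).trans
      (max_le (IsUltrametricDist.norm_natCast_le_one _ _) (by rwa [norm_neg]))
  have h5 : ((p : Om 659) - q * a) * (p + q * a) = N := by
    have e : (29 : Om 659) * q ^ 2 + N = p ^ 2 := by exact_mod_cast congrArg (Nat.cast (R := Om 659)) hN
    linear_combination (-(q : Om 659) ^ 2) * ha - e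
  have h6 := congrArg norm h5
  rw [norm_mul, norm_nat hc] at h6
  nlinarith [norm_nonneg ((p : Om 659) - q * a), norm_nonneg ((p : Om 659) + q * a)]

theorem two_roots {α β : Om 659} {ε : ℝ} (h0 : 0 < ε) (h1 : ε < 1) (hs : ‖α + β‖ = ε)
    (hp : ‖α‖ * ‖β‖ = ε ^ 3) : ‖α‖ = ε ∨ ‖α‖ = ε ^ 2 := by
  by_cases h : ‖α‖ = ‖β‖
  · have := IsUltrametricDist.norm_add_le_max α β
    rw [hs, ← h, max_self] at this
    rw [← h] at hp
    have h2 : ε * ε ≤ ‖α‖ * ‖α‖ := mul_self_le_mul_self h0.le this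
    have h3 : ε ^ 3 < ε * ε := by nlinarith [mul_pos h0 h0]
    linarith
  · rw [IsUltrametricDist.norm_add_eq_max_of_norm_ne_norm h] at hs
    rcases max_choice ‖α‖ ‖β‖ with e | e
    · exact Or.inl (e.symm.trans hs)
    · right
      rw [← e, hs] at hp
      exact mul_right_cancel₀ h0.ne' (by rw [hp]; ring)

theorem norm_xT {a r : Om 659} (ha : a ^ 2 = 29) (hr : r ^ 2 = (7 - a) / 2) :
    ‖xT a r - 244917223‖ = 659⁻¹ ∨ ‖xT a r - 244917223‖ = 659⁻¹ ^ 2 := by
  refine two_roots (β := xT a (-r) - 244917223) (by norm_num) (by norm_num) ?_ ?_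
  · have e : xT a r - 244917223 + (xT a (-r) - 244917223) =
        -(659 * (((743310 : ℕ) : Om 659) - (3 : ℕ) * a)) := by
      unfold xT
      push_cast
      ring
    rw [e, norm_neg, norm_mul, norm_l,
      unit_lin ha 743310 3 552509755839 (by norm_num) (by norm_num), mul_one]
  · have e : (xT a r - 244917223) * (xT a (-r) - 244917223) =
        659 ^ 3 * (((2096015767 : ℕ) : Om 659) - (16919 : ℕ) * a) / (10 : ℕ) := by
      unfold xT
      push_cast
      linear_combination (-((19111 + 11203 * a) / 20) ^ 2) * hr +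
        ((1977 / 2) ^ 2 - (7 * 11203 ^ 2 - 2 * 19111 * 11203) / 800 + 11203 ^ 2 / 800 * a) * ha
    rw [← norm_mul, e, norm_div, norm_mul, norm_pow, norm_l, norm_nat (n := 10) (by norm_num),
      unit_lin ha 2096015767 16919 4393282087211274020 (by norm_num) (by norm_num), mul_one, div_one]

end TNq

open TNq in
theorem nqS (hRam : RamS) (hNp : NpS) (hIdx : IdxS) : NqS := by
  intro d ι U hN hO hU
  by_contra hc
  push Not at hc
  have e5 : 5 • d.e 2 0 = d.T 0 := by rw [d.e_succ 1 0, d.e_one]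
  have e25 : 5 ^ 2 • d.e 2 0 = 0 := by rw [pow_two, mul_nsmul, e5, d.five]
  have p5 : 5 • pmap E0 ι (d.e 2 0) = pmap E0 ι (d.T 0) := by rw [← map_nsmul, e5]
  have hx : xc (5 • pmap E0 ι (d.e 2 0)) = xT (ι d.a) (ι d.r1) := by
    rw [p5, xc_pmap, d.hx1]
    simp only [xT, map_div₀, map_sub, map_add, map_mul, map_neg, map_ofNat]
  have ha : ι d.a ^ 2 = 29 := by rw [← map_pow, d.ha, map_ofNat]
  have hr : ι d.r1 ^ 2 = (7 - ι d.a) / 2 := by
    rw [← map_pow, d.hr1, map_div₀, map_sub, map_ofNat, map_ofNat]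
  obtain ⟨h1, h2⟩ := hNp (pmap E0 ι (d.e 2 0)) (by
    rw [p5]
    exact fun e => d.T_ne 0 (WeierstrassCurve.Affine.Point.map_injective _
      (e.trans (map_zero (pmap E0 ι)).symm))) (by rw [hx]; exact norm_xT ha hr)
  have e : xc (pmap E0 ι (d.e 2 0)) - 244917223 = ι (xc (d.e 2 0) - 244917223) := by
    rw [xc_pmap, map_sub, map_ofNat]
  rw [e] at h1 h2
  have fx : Fx (lev d.ρ 2) (xc (d.e 2 0) - 244917223) := fun h hh => by
    have : h (xc (d.e 2 0)) = xc (act E0 h (d.e 2 0)) :=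
      (xc_pmap (h : Qb →+* Qb) _).symm
    rw [map_sub, map_ofNat, this, (d.mem_lev h 2).1 hh _ e25]
  obtain ⟨m, hm, k, hk⟩ := hRam 659 ι U (lev d.ρ 1) hN hO inferInstance (hIdx d).1 _
    (fun e => h1 (by rw [e, map_zero])) (fun g hg => fx g (hU hg)) fun g g1 g2 => fx g (hc g g1 g2)
  exact h2 m hm k (by exact_mod_cast hk)

end Pool.Agent.Lib.MP_54db3e_nt
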