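import Pool.Agent.Lib.MP_54db3e_nt.Stmt

/-! A tame relation modulo 125 forces an off-diagonal entry. -/

open scoped Classical

namespace Pool.Agent.Lib.MP_54db3e_nt

namespace TOff

theorem scal {a f : ℤ_[5]} {Q : ℕ} (hQ : Q % 25 = 21)
    (h : (125 : ℤ_[5]) ∣ (1 + 5 * f) * ((1 + 5 * a) ^ Q - (1 + 5 * a))) : (5 : ℤ_[5]) ∣ a := by
  obtain ⟨k, rfl⟩ : ∃ k, Q = 25 * k + 21 := ⟨Q / 25, by omega⟩
  have h1 : (125 : ℤ_[5]) ∣ (1 + 5 * a) ^ 25 - 1 := by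
    have := dvd_sub_pow_of_dvd_sub (p := 5) (a := 1 + 5 * a) (b := 1) ⟨a, by push_cast; ring⟩ 2
    norm_num at this
    exact this
  obtain ⟨u, hu⟩ : (125 : ℤ_[5]) ∣ ((1 + 5 * a) ^ 25) ^ k - 1 :=
    h1.trans (sub_one_dvd_pow_sub_one _ k)
  obtain ⟨e, he, r, hr⟩ : ∃ e, (1 + 5 * a) ^ 5 = 1 + 25 * e ∧ ∃ r, e = a + 5 * r :=
    ⟨_, by ring, 2 * a ^ 2 + 10 * a ^ 3 + 25 * a ^ 4 + 25 * a ^ 5, rfl⟩
  obtain ⟨v, hv⟩ : ∃ v, (1 + 5 * a) ^ 21 = 1 + 5 * a + 100 * a + 125 * v :=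
    ⟨4 * r + 4 * a * e + (1 + 5 * a) * (30 * e ^ 2 + 500 * e ^ 3 + 3125 * e ^ 4), by
      rw [show 21 = 5 * 4 + 1 from rfl, pow_succ, pow_mul, he]
      linear_combination 100 * hr⟩
  obtain ⟨m, hm⟩ := h
  rw [pow_add, pow_mul, hv, eq_add_of_sub_eq hu] at hm
  refine ⟨a - m + 4 * f * a + (1 + 5 * f) * (v + u * (1 + 5 * a + 100 * a + 125 * v)), ?_⟩
  apply mul_left_cancel₀ (show (25 : ℤ_[5]) ≠ 0 by norm_num)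
  linear_combination -hm

theorem pow_ent {A : M2} (h1 : (25 : ℤ_[5]) ∣ A 0 1) (h2 : (25 : ℤ_[5]) ∣ A 1 0) (n : ℕ) :
    (25 : ℤ_[5]) ∣ (A ^ n) 0 1 ∧ (25 : ℤ_[5]) ∣ (A ^ n) 1 0 ∧
      (125 : ℤ_[5]) ∣ (A ^ n) 0 0 - A 0 0 ^ n ∧ (125 : ℤ_[5]) ∣ (A ^ n) 1 1 - A 1 1 ^ n := by
  induction n with
  | zero => simp
  | succ n ih =>
    obtain ⟨⟨a, ha⟩, ⟨b, hb⟩, ⟨c, hc⟩, ⟨d, hd⟩⟩ := ih
    obtain ⟨u, hu⟩ := h1
    obtain ⟨v, hv⟩ := h2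
    simp only [pow_succ, Matrix.mul_apply, Fin.sum_univ_two]
    refine ⟨⟨(A ^ n) 0 0 * u + a * A 1 1, ?_⟩, ⟨b * A 0 0 + (A ^ n) 1 1 * v, ?_⟩,
      ⟨c * A 0 0 + 5 * a * v, ?_⟩, ⟨d * A 1 1 + 5 * b * u, ?_⟩⟩
    · rw [ha, hu]; ring
    · rw [hb, hv]; ring
    · rw [ha, hv]; linear_combination A 0 0 * hc
    · rw [hb, hu]; linear_combination A 1 1 * hd

end TOff

theorem offS : OffS := by
  intro G _ ρ τ φ Q hτ hφ hQ hr hn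
  by_contra h
  rw [not_or, not_not, not_not] at h
  obtain ⟨p1, p2, p3, p4⟩ := TOff.pow_ent h.1 h.2 Q
  have h1 := MC.mul hr (MC.refl 3 (ρ (τ ^ Q * φ)))
  rw [← map_mul, one_mul, show φ * τ * φ⁻¹ * (τ ^ Q)⁻¹ * (τ ^ Q * φ) = φ * τ by group, map_mul,
    map_mul, map_pow] at h1
  obtain ⟨x, hx⟩ := h1 0 0
  obtain ⟨y, hy⟩ := h1 1 1
  obtain ⟨a, ha⟩ := hτ 0 0
  obtain ⟨d, hd⟩ := hτ 1 1
  obtain ⟨f, hf⟩ := hφ 0 0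
  obtain ⟨g, hg⟩ := hφ 1 1
  obtain ⟨b, hb⟩ := hφ 0 1
  obtain ⟨c, hc⟩ := hφ 1 0
  obtain ⟨⟨u, hu⟩, ⟨v, hv⟩⟩ := h
  obtain ⟨u', hu'⟩ := p1
  obtain ⟨v', hv'⟩ := p2
  obtain ⟨s, hs⟩ := p3
  obtain ⟨t, ht⟩ := p4
  simp only [Matrix.mul_apply, Fin.sum_univ_two] at hx hy
  simp only [Matrix.one_apply_eq, pow_one, sub_eq_iff_eq_add'] at ha hd hf hg hs ht
  simp only [ne_eq, zero_ne_one, one_ne_zero, not_false_eq_true, Matrix.one_apply_ne, sub_zero,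
    pow_one] at hb hc
  rw [hs, ha, hf, hb, hc, hv, hu'] at hx
  rw [ht, hd, hg, hb, hc, hu, hv'] at hy
  obtain ⟨a', ha'⟩ := TOff.scal (a := a) (f := f) hQ
    ⟨b * v - u' * c - s * (1 + 5 * f) - x, by linear_combination -hx⟩
  obtain ⟨d', hd'⟩ := TOff.scal (a := d) (f := g) hQ
    ⟨c * u - v' * b - t * (1 + 5 * g) - y, by linear_combination -hy⟩
  refine hn fun i j => ?_
  fin_cases i <;> fin_cases j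
  · exact ⟨a', by simp only [Fin.zero_eta, Matrix.one_apply_eq, ha, ha']; ring⟩
  · exact ⟨u, by simp [hu]; norm_num⟩
  · exact ⟨v, by simp [hv]; norm_num⟩
  · exact ⟨d', by simp only [Fin.mk_one, Matrix.one_apply_eq, hd, hd']; ring⟩

end Pool.Agent.Lib.MP_54db3e_nt
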