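import Pool.Agent.Lib.MP_54db3e_nt.Stmt

/-!
Radicals of units at an open normal level.
-/

open scoped Classical
open IntermediateField NumberField

noncomputable section

namespace Pool.Agent.Lib.MP_54db3e_nt

namespace TRad

theorem galQ : IsGalois ℚ Qb := by
  have h : (DivisionRing.toRatAlgebra : Algebra ℚ Qb) = AlgebraicClosure.instAlgebra ℚ :=
    Subsingleton.elim _ _
  have : IsAlgClosure ℚ Qb := by
    rw [h]; exact AlgebraicClosure.instIsAlgClosure ℚ
  infer_instance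

theorem aunit_map {y : Qb} (hy : AUnit y) (a : GQ) : AUnit (a y) :=
  ⟨by simpa using hy.1, hy.2.1.map_of_comp_eq (RingHom.id ℤ) (a : Qb →+* Qb) (Subsingleton.elim _ _),
    by
      rw [← map_inv₀]
      exact hy.2.2.map_of_comp_eq (RingHom.id ℤ) (a : Qb →+* Qb) (Subsingleton.elim _ _)⟩

theorem aunit_pow {y : Qb} (hy : AUnit y) (n : ℕ) : AUnit (y ^ n) :=
  ⟨pow_ne_zero _ hy.1, hy.2.1.pow _, by rw [← inv_pow]; exact hy.2.2.pow _⟩

theorem val_inj {z : Qb} (hz : IsPrimitiveRoot z 5) {s t : F5} (h : z ^ s.val = z ^ t.val) :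
    s = t :=
  ZMod.val_injective 5 (hz.pow_inj (ZMod.val_lt s) (ZMod.val_lt t) h)

theorem eq_zero {z y : Qb} (hz : IsPrimitiveRoot z 5) (hy : y ≠ 0) {s : F5}
    (h : y = z ^ s.val * y) : s = 0 := by
  refine val_inj hz ?_
  rw [ZMod.val_zero, pow_zero]
  exact (mul_right_cancel₀ hy (by rw [one_mul]; exact h)).symm

theorem root_eq {z y r : Qb} (hz : IsPrimitiveRoot z 5) (hr : r ≠ 0) (h : y ^ 5 = r ^ 5) :
    ∃ i : ℕ, y = z ^ i * r := by
  obtain ⟨i, -, hi⟩ := hz.eq_pow_of_pow_eq_one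
    (show (y / r) ^ 5 = 1 by rw [div_pow, h, div_self (pow_ne_zero _ hr)])
  exact ⟨i, by rw [hi, div_mul_cancel₀ _ hr]⟩

/-- the subgroup fixing all radicals of units -/
def rad (B : Subgroup GQ) : Subgroup GQ where
  carrier := {g | g ∈ B ∧ ∀ y, AUnit y → Fx B (y ^ 5) → g y = y}
  one_mem' := ⟨one_mem _, fun _ _ _ => rfl⟩
  mul_mem' := fun {a b} ha hb => ⟨mul_mem ha.1 hb.1, fun y h1 h2 => by
    rw [AlgEquiv.mul_apply, hb.2 y h1 h2, ha.2 y h1 h2]⟩
  inv_mem' := fun {a} ha => ⟨inv_mem ha.1, fun y h1 h2 => by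
    calc a⁻¹ y = a⁻¹ (a y) := by rw [ha.2 y h1 h2]
      _ = y := by rw [← AlgEquiv.mul_apply, inv_mul_cancel, AlgEquiv.one_apply]⟩

theorem rad_normal {B : Subgroup GQ} (hB : B.Normal) : (rad B).Normal := by
  refine ⟨fun g hg a => ⟨hB.conj_mem g hg.1 a, fun y h1 h2 => ?_⟩⟩
  have h3 : Fx B ((a⁻¹ y) ^ 5) := by
    intro h hh
    have h4 := h2 _ (hB.conj_mem h hh a)
    rw [← map_pow]
    calc h (a⁻¹ (y ^ 5)) = a⁻¹ ((a * h * a⁻¹) (y ^ 5)) := by
          rw [← AlgEquiv.mul_apply, ← AlgEquiv.mul_apply]; congr 1; group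
      _ = a⁻¹ (y ^ 5) := by rw [h4]
  rw [AlgEquiv.mul_apply, AlgEquiv.mul_apply, hg.2 _ (aunit_map h1 a⁻¹) h3,
    ← AlgEquiv.mul_apply, mul_inv_cancel, AlgEquiv.one_apply]

theorem exists_unit (F : IntermediateField ℚ Qb) {w : Qb} (hw : AUnit w) (hF : w ∈ F) :
    ∃ u : (𝓞 F)ˣ, (((u : 𝓞 F) : F) : Qb) = w := by
  have inj : Function.Injective (algebraMap F Qb) := (algebraMap F Qb).injective
  have key : ∀ x : F, IsIntegral ℤ (x : Qb) → IsIntegral ℤ x := fun x hx =>
    (isIntegral_algHom_iff (algebraMap F Qb).toIntAlgHom inj).1 hx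
  let x : F := ⟨w, hF⟩
  have hx : x ≠ 0 := fun h => hw.1 (congrArg Subtype.val h)
  refine ⟨⟨⟨x, key x hw.2.1⟩, ⟨x⁻¹, key x⁻¹ hw.2.2⟩, ?_, ?_⟩, rfl⟩
  · exact RingOfIntegers.ext (mul_inv_cancel₀ hx)
  · exact RingOfIntegers.ext (inv_mul_cancel₀ hx)

theorem rad_opn (hF : FgS) {z : Qb} (hz : IsPrimitiveRoot z 5) {B : Subgroup GQ} (hO : Opn B)
    (hzB : Fx B z) : Opn (rad B) := by
  have := galQ
  have hfd := ((hF ℚ Qb).1 B hO).1
  have : NumberField (fixedField B) :=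
    { to_charZero := inferInstance
      to_finiteDimensional := by convert hfd }
  obtain ⟨s, hs⟩ := hO
  obtain ⟨S, hS⟩ := (Group.fg_def.1
    (Group.fg_iff_monoid_fg.2 (inferInstance : Monoid.FG (𝓞 (fixedField B))ˣ)))
  let φ : (𝓞 (fixedField B))ˣ →* Qb :=
    ((algebraMap (fixedField B) Qb).comp (algebraMap (𝓞 (fixedField B)) (fixedField B))).toMonoidHom.comp
      (Units.coeHom _)
  have hφ : ∀ u, φ u ≠ 0 := fun u h => by
    have := map_mul φ u u⁻¹
    rw [mul_inv_cancel, map_one, h, zero_mul] at this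
    exact one_ne_zero this
  have root : ∀ w : Qb, ∃ r, r ^ 5 = w := fun w => IsAlgClosed.exists_pow_nat_eq w (by norm_num)
  choose r hr using root
  have hr0 : ∀ u, r (φ u) ≠ 0 := fun u h => hφ u (by rw [← hr (φ u), h]; norm_num)
  refine ⟨s ∪ S.image fun u => r (φ u), fun g hg => ?_⟩
  have hgB : g ∈ B := hs g fun x hx => hg x (Finset.mem_union_left _ hx)
  have hgz : g z = z := hzB g hgB
  have key : ∀ u : (𝓞 (fixedField B))ˣ, ∀ y : Qb, y ^ 5 = φ u → g y = y := by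
    intro u
    have hu : u ∈ Subgroup.closure (S : Set (𝓞 (fixedField B))ˣ) := by rw [hS]; trivial
    induction hu using Subgroup.closure_induction with
    | mem u hu =>
      intro y hy
      obtain ⟨i, rfl⟩ := root_eq hz (hr0 u) (hy.trans (hr _).symm)
      rw [map_mul, map_pow, hgz,
        hg _ (Finset.mem_union_right _ (Finset.mem_image_of_mem _ hu))]
    | one =>
      intro y hy
      obtain ⟨i, rfl⟩ := root_eq (r := 1) hz one_ne_zero (by rw [hy, map_one, one_pow])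
      rw [mul_one, map_pow, hgz]
    | mul u v _ _ ihu ihv =>
      intro y hy
      have h1 := ihu _ (hr (φ u))
      have h2 := ihv (y / r (φ u)) (by
        rw [div_pow, hy, hr, map_mul, mul_div_cancel_left₀ _ (hφ u)])
      rw [map_div₀, h1] at h2
      exact (div_left_inj' (hr0 u)).1 h2
    | inv u _ ih =>
      intro y hy
      have h1 := ih y⁻¹ (by
        rw [inv_pow, hy]
        refine inv_eq_of_mul_eq_one_right ?_
        rw [← map_mul, inv_mul_cancel, map_one])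
      rw [map_inv₀] at h1
      exact inv_injective h1
  refine ⟨hgB, fun y h1 h2 => ?_⟩
  obtain ⟨u, hu⟩ := exists_unit (fixedField B) (aunit_pow h1 5)
    ((mem_fixedField_iff _ _).2 h2)
  exact key u y hu.symm

end TRad

open TRad in
theorem radS (hF : FgS) : RadS := by
  intro z hz5 B hz hB hO hzB
  refine ⟨rad B, rad_normal hB, rad_opn hF hz hO hzB, fun g hg => hg.1,
    fun y h1 h2 g hg => hg.2 y h1 h2, ?_, fun g hg => ⟨pow_mem hg _, fun y h1 h2 => ?_⟩⟩
  · rintro κ ⟨y, hy, hκ⟩ h hh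
    have h2 : Fx B (y ^ 5) := fun g hg => by
      rw [map_pow, hκ g hg, mul_pow, ← pow_mul, mul_comm _ 5, pow_mul, hz5, one_pow, one_mul]
    exact eq_zero hz hy.1 ((hh.2 y hy h2).symm.trans (hκ h hh.1))
  · obtain ⟨i, hi⟩ := root_eq (y := g y) hz h1.1 (by rw [← map_pow]; exact h2 g hg)
    have h3 : ∀ k : ℕ, (g ^ k) y = (z ^ k) ^ i * y := by
      intro k
      induction k with
      | zero => simp
      | succ k ih =>
        rw [pow_succ', AlgEquiv.mul_apply, ih, map_mul, map_pow, map_pow, hzB g hg, hi]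
        ring
    rw [h3, hz5, one_pow, one_mul]

end Pool.Agent.Lib.MP_54db3e_nt
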