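import Pool.Agent.Lib.MP_54db3e_nt.TCycl

open scoped Classical

noncomputable section

namespace Pool.Agent.Lib.MP_54db3e_nt

open TCycl in
theorem ramS (hFg : FgS) : RamS := by
  intro l _ ι U B hU hO hB h5 y hy hfx hfix
  obtain ⟨F, _, _, _, e, r, hr, h4, h6⟩ := mod hFg U hU hO
  obtain ⟨y, rfl⟩ := h6 y hfx
  have hn : (B.map r).Normal := hB.map r hr
  obtain ⟨k, hk⟩ := ram (ι.comp e) (B.map r ⊓ (PP (ι.comp e)).inertia _) inf_le_right y
    (fun h => hy (by rw [h, map_zero])) (by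
      rintro _ ⟨⟨b, hb, rfl⟩, h⟩
      exact e.injective ((h4 b y).trans (hfix b (inert_res ι U e r h4 h6 b h) hb)))
  refine ⟨_, fun h => h5 (h.trans ?_), k, hk⟩
  rw [Subgroup.inf_relIndex_right]
  exact (Subgroup.relIndex_dvd_index_of_normal _ _).trans (Subgroup.index_map_dvd B hr)

end Pool.Agent.Lib.MP_54db3e_nt
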