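import Pool.Agent.Lib.MP_54db3e_nt.TRed1

/-! Congruent integral points differ by a non-integral point. -/

open scoped Classical

noncomputable section

namespace Pool.Agent.Lib.MP_54db3e_nt

namespace TRed

variable {K : Type} [NormedField K] [IsUltrametricDist K]

theorem core {X₁ X₂ Y₁ Y₂ a A B L : K} (ha : ‖a‖ ≤ 1) (hA : ‖A‖ ≤ 1) (hB : ‖B‖ ≤ 1)
    (hD : ‖64 * A ^ 3 + 27 * (a ^ 2 + 4 * B) ^ 2‖ = 1) (h1 : ‖X₁‖ ≤ 1) (h2 : ‖X₂‖ ≤ 1)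
    (e1 : Y₁ ^ 2 + a * Y₁ = X₁ ^ 3 + A * X₁ + B) (e2 : Y₂ ^ 2 + a * Y₂ = X₂ ^ 3 + A * X₂ + B)
    (hX : ‖X₁ - X₂‖ < 1) (hY : ‖Y₁ - Y₂‖ < 1) (l1 : L * (X₁ - X₂) = Y₁ + Y₂ + a)
    (l2 : L * (Y₁ - Y₂) = X₁ ^ 2 + X₁ * X₂ + X₂ ^ 2 + A) : 1 < ‖L ^ 2 - X₁ - X₂‖ := by
  have hL : 1 < ‖L‖ := by
    by_contra hL
    rw [not_lt] at hL
    lift X₁ to OK K using h1
    lift X₂ to OK K using h2
    lift a to OK K using ha
    lift A to OK K using hA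
    lift B to OK K using hB
    lift Y₁ to OK K using y_int a.2 A.2 B.2 X₁.2 e1
    lift Y₂ to OK K using y_int a.2 A.2 B.2 X₂.2 e2
    lift L to OK K using hL
    have m1 : X₁ - X₂ ∈ MK K := hX
    have m2 : Y₁ - Y₂ ∈ MK K := hY
    have e1' : Y₁ ^ 2 + a * Y₁ = X₁ ^ 3 + A * X₁ + B := by exact_mod_cast e1
    have l1' : L * (X₁ - X₂) = Y₁ + Y₂ + a := by exact_mod_cast l1
    have l2' : L * (Y₁ - Y₂) = X₁ ^ 2 + X₁ * X₂ + X₂ ^ 2 + A := by exact_mod_cast l2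
    have m3 : 2 * Y₁ + a ∈ MK K := by
      rw [show 2 * Y₁ + a = L * (X₁ - X₂) + (Y₁ - Y₂) by linear_combination -l1']
      exact add_mem (Ideal.mul_mem_left _ _ m1) m2
    have m4 : 3 * X₁ ^ 2 + A ∈ MK K := by
      rw [show 3 * X₁ ^ 2 + A = L * (Y₁ - Y₂) + (2 * X₁ + X₂) * (X₁ - X₂) by
        linear_combination -l2']
      exact add_mem (Ideal.mul_mem_left _ _ m2) (Ideal.mul_mem_left _ _ m1)
    have m5 : 64 * A ^ 3 + 27 * (a ^ 2 + 4 * B) ^ 2 ∈ MK K := by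
      rw [show 64 * A ^ 3 + 27 * (a ^ 2 + 4 * B) ^ 2 =
        16 * (3 * X₁ ^ 2 + 4 * A) * (3 * X₁ ^ 2 + A) * (3 * X₁ ^ 2 + A) -
          27 * (4 * X₁ ^ 3 + 4 * A * X₁ - (a ^ 2 + 4 * B)) * (2 * Y₁ + a) * (2 * Y₁ + a) by
        linear_combination (108 * (4 * X₁ ^ 3 + 4 * A * X₁ - (a ^ 2 + 4 * B))) * e1']
      exact sub_mem (Ideal.mul_mem_left _ _ m4) (Ideal.mul_mem_left _ _ m3)
    exact absurd (show ‖64 * (A : K) ^ 3 + 27 * ((a : K) ^ 2 + 4 * B) ^ 2‖ < 1 from m5) hD.not_lt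
  have h3 : ‖-(X₁ + X₂)‖ ≤ 1 := neg_mem (add_mem (show X₁ ∈ OK K from h1) h2)
  have h4 : 1 < ‖L ^ 2‖ := by
    rw [norm_pow]
    exact one_lt_pow₀ hL two_ne_zero
  rw [show L ^ 2 - X₁ - X₂ = L ^ 2 + -(X₁ + X₂) by ring, nadd (h3.trans_lt h4)]
  exact h4

end TRed

open TRed in
theorem redS : RedS := by
  intro l _ u s hu ha hA hB hD P Q hP hQ h1 h2 hX hY
  by_cases h : P = Q
  · exact Or.inl h
  right
  obtain ⟨L, h3, l1, l2⟩ := sub_slope hP hQ h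
  have e : xc (P - Q) / u ^ 2 = (L / u) ^ 2 - xc P / u ^ 2 - xc Q / u ^ 2 := by
    rw [h3]; field_simp
  rw [e]
  refine core ha hA hB ?_ h1 h2 (scaled hu (eqn hP)) (scaled hu (eqn hQ)) ?_ ?_ ?_ ?_
  · rw [← hD]
    congr 1
    field_simp
    ring
  · rwa [← sub_div]
  · rwa [← sub_div, sub_sub_sub_cancel_right]
  · field_simp
    linear_combination l1
  · field_simp
    linear_combination l2

end Pool.Agent.Lib.MP_54db3e_nt
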