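import Pool.Agent.Lib.MP_54db3e_nt.Stmt

/-!
Compatible bases of the torsion and the 5-adic representation.
-/

open scoped Classical

noncomputable section

namespace Pool.Agent.Lib.MP_54db3e_nt

namespace TRep

theorem dvd_iff (n : ℕ) (x y : ℤ_[5]) :
    (5 : ℤ_[5]) ^ n ∣ x - y ↔ PadicInt.toZModPow n x = PadicInt.toZModPow n y := by
  rw [← sub_eq_zero (a := PadicInt.toZModPow n x), ← map_sub, ← RingHom.mem_ker,
    PadicInt.ker_toZModPow, Ideal.mem_span_singleton, Nat.cast_ofNat]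

theorem toZMod_eq {x : ℤ_[5]} {u : F5} (h : (5 : ℤ_[5]) ^ 1 ∣ x - ((u.val : ℤ) : ℤ_[5])) :
    PadicInt.toZMod x = u := by
  have : x - ((u.val : ℤ) : ℤ_[5]) ∈ RingHom.ker (PadicInt.toZMod : ℤ_[5] →+* ZMod 5) := by
    rw [PadicInt.ker_toZMod, PadicInt.maximalIdeal_eq_span_p, Ideal.mem_span_singleton,
      Nat.cast_ofNat]
    rwa [pow_one] at h
  rw [RingHom.mem_ker, map_sub, sub_eq_zero] at this
  rw [this]; simp

theorem val_dvd (n : ℕ) (x : ℤ_[5]) :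
    (5 : ℤ_[5]) ^ n ∣ x - (((PadicInt.toZModPow n x).val : ℤ) : ℤ_[5]) := by
  rw [dvd_iff]; simp

theorem int_dvd {n : ℕ} {k : ℤ} : (5 : ℤ_[5]) ^ n ∣ (k : ℤ_[5]) ↔ (5 : ℤ) ^ n ∣ k := by
  have := dvd_iff n k 0
  rw [sub_zero, map_zero, map_intCast, ZMod.intCast_zmod_eq_zero_iff_dvd] at this
  rw [this]; push_cast; rfl

variable {M : Type} [AddCommGroup M] {e : ℕ → Fin 2 → M}

/-- a compatible system of bases -/
structure Sys (e : ℕ → Fin 2 → M) : Prop where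
  zero : ∀ i, e 0 i = 0
  succ : ∀ n i, 5 • e (n + 1) i = e n i
  span : ∀ n (P : M), 5 ^ n • P = 0 → ∃ i j : ℕ, P = i • e n 0 + j • e n 1
  indep : ∀ n (i j : ℤ), i • e n 0 + j • e n 1 = 0 → (5 : ℤ) ^ n ∣ i ∧ (5 : ℤ) ^ n ∣ j

theorem down (hs : ∀ n i, 5 • e (n + 1) i = e n i) (m : ℕ) (i : Fin 2) :
    ∀ n, 5 ^ n • e (n + m) i = e m i
  | 0 => by simp
  | n + 1 => by rw [pow_succ, mul_smul, Nat.add_right_comm, hs, down hs m i n]

theorem sys (h0 : ∀ i, e 0 i = 0) (hs : ∀ n i, 5 • e (n + 1) i = e n i)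
    (h1 : ∀ P : M, 5 • P = 0 → ∃ i j : ℕ, P = i • e 1 0 + j • e 1 1)
    (h2 : ∀ i j : ℤ, i • e 1 0 + j • e 1 1 = 0 → (5 : ℤ) ∣ i ∧ (5 : ℤ) ∣ j) : Sys e where
  zero := h0
  succ := hs
  span n := by
    induction n with
    | zero => intro P hP; exact ⟨0, 0, by simpa using hP⟩
    | succ n ih =>
      intro P hP
      rw [pow_succ, mul_smul] at hP
      obtain ⟨i, j, h⟩ := ih _ hP
      obtain ⟨a, b, k⟩ := h1 (P - (i • e (n + 1) 0 + j • e (n + 1) 1)) (by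
        rw [smul_sub, smul_add, smul_comm 5 i, smul_comm 5 j, hs, hs, h, sub_self])
      refine ⟨i + a * 5 ^ n, j + b * 5 ^ n, ?_⟩
      rw [add_smul, add_smul, mul_smul, mul_smul, down hs, down hs, add_add_add_comm, ← k]
      abel
  indep n := by
    induction n with
    | zero => intro i j _; simp
    | succ n ih =>
      intro i j h
      have k := congrArg (5 ^ n • ·) h
      simp only [smul_add, smul_zero] at k
      rw [smul_comm _ i, smul_comm _ j, down hs, down hs] at k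
      obtain ⟨⟨a, rfl⟩, b, rfl⟩ := h2 i j k
      have f : ∀ (c : ℤ) t, (5 * c) • e (n + 1) t = c • e n t := fun c t => by
        rw [mul_comm, mul_smul, ← hs n t]
        exact congrArg (c • ·) (natCast_zsmul _ 5)
      rw [f, f] at h
      obtain ⟨k1, k2⟩ := ih a b h
      rw [pow_succ']
      exact ⟨mul_dvd_mul_left _ k1, mul_dvd_mul_left _ k2⟩

theorem Sys.tor (S : Sys e) (n : ℕ) (i : Fin 2) : 5 ^ n • e n i = 0 :=
  (down S.succ 0 i n).trans (S.zero i)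

theorem Sys.eq_iff (S : Sys e) (n : ℕ) (a b u v : ℤ) :
    a • e n 0 + b • e n 1 = u • e n 0 + v • e n 1 ↔ (5 : ℤ) ^ n ∣ a - u ∧ (5 : ℤ) ^ n ∣ b - v := by
  have q : (a - u) • e n 0 + (b - v) • e n 1 = (a • e n 0 + b • e n 1) - (u • e n 0 + v • e n 1) := by
    rw [sub_smul, sub_smul]; abel
  have z : ∀ (c : ℤ) i, ((5 : ℤ) ^ n * c) • e n i = 0 := fun c i => by
    have : ((5 : ℤ) ^ n) • e n i = 0 := by
      rw [← S.tor n i, ← natCast_zsmul]; push_cast; rfl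
    rw [mul_comm, mul_smul, this, smul_zero]
  refine ⟨fun h => S.indep n _ _ (by rw [q, h, sub_self]), fun ⟨⟨c, hc⟩, d, hd⟩ => ?_⟩
  rw [← sub_eq_zero, ← q, hc, hd, z, z, add_zero]

/-- `A` is the matrix of `f` -/
def Rp (e : ℕ → Fin 2 → M) (f : M →+ M) (A : M2) : Prop :=
  ∀ n j, f (e n j) = (PadicInt.toZModPow n (A 0 j)).val • e n 0 +
    (PadicInt.toZModPow n (A 1 j)).val • e n 1

theorem Sys.key (S : Sys e) {f : M →+ M} {A : M2} (h : Rp e f A) (n : ℕ) (j : Fin 2) (u v : ℤ) :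
    f (e n j) = u • e n 0 + v • e n 1 ↔
      (5 : ℤ_[5]) ^ n ∣ A 0 j - u ∧ (5 : ℤ_[5]) ^ n ∣ A 1 j - v := by
  have k : ∀ (x : ℤ_[5]) (u : ℤ), (5 : ℤ) ^ n ∣ ((PadicInt.toZModPow n x).val : ℤ) - u ↔
      (5 : ℤ_[5]) ^ n ∣ x - u := fun x u => by
    rw [← int_dvd, Int.cast_sub, dvd_iff, dvd_iff, ← (dvd_iff n _ _).1 (val_dvd n x)]
  rw [h n j, ← natCast_zsmul, ← natCast_zsmul, S.eq_iff, k, k]

theorem Sys.rp_of (S : Sys e) {f : M →+ M} {A : M2} (h : ∀ n j, ∃ u v : ℤ,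
    f (e n j) = u • e n 0 + v • e n 1 ∧ (5 : ℤ_[5]) ^ n ∣ A 0 j - u ∧ (5 : ℤ_[5]) ^ n ∣ A 1 j - v) :
    Rp e f A := by
  intro n j
  obtain ⟨u, v, h1, h2, h3⟩ := h n j
  have k : ∀ (x : ℤ_[5]) (u : ℤ), (5 : ℤ_[5]) ^ n ∣ x - u →
      (5 : ℤ) ^ n ∣ u - ((PadicInt.toZModPow n x).val : ℤ) := fun x u h => by
    rw [← int_dvd, Int.cast_sub, dvd_iff, ← (dvd_iff n _ _).1 (val_dvd n x)]
    exact ((dvd_iff n _ _).1 h).symm
  rw [h1, ← natCast_zsmul, ← natCast_zsmul, S.eq_iff]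
  exact ⟨k _ _ h2, k _ _ h3⟩

theorem Sys.uniq (S : Sys e) {f : M →+ M} {A B : M2} (h : Rp e f A) (h' : Rp e f B) : A = B := by
  have k : ∀ n j, PadicInt.toZModPow n (A 0 j) = PadicInt.toZModPow n (B 0 j) ∧
      PadicInt.toZModPow n (A 1 j) = PadicInt.toZModPow n (B 1 j) := fun n j => by
    have := (S.key h n j ((PadicInt.toZModPow n (B 0 j)).val : ℤ)
      ((PadicInt.toZModPow n (B 1 j)).val : ℤ)).1 (by rw [natCast_zsmul, natCast_zsmul, h' n j])
    exact ⟨((dvd_iff n _ _).1 this.1).trans ((dvd_iff n _ _).1 (val_dvd n _)).symm,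
      ((dvd_iff n _ _).1 this.2).trans ((dvd_iff n _ _).1 (val_dvd n _)).symm⟩
  ext1 i j
  refine PadicInt.ext_of_toZModPow.1 fun n => ?_
  fin_cases i
  exacts [(k n j).1, (k n j).2]

theorem lim (f : ℕ → ℤ) (h : ∀ i, (5 : ℤ) ^ i ∣ f (i + 1) - f i) :
    ∃ x : ℤ_[5], ∀ n, (5 : ℤ_[5]) ^ n ∣ x - f n :=
  ⟨_, fun n => (dvd_iff n _ _).2 ((PadicInt.toZModPow_ofIntSeq_of_pow_dvd_sub f 5 h n).trans
    (map_intCast _ _).symm)⟩

theorem Sys.ex (S : Sys e) (f : M →+ M) : ∃ A, Rp e f A := by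
  choose a b h using fun n j => S.span n (f (e n j)) (by rw [← map_nsmul, S.tor, map_zero])
  have c : ∀ j n, (5 : ℤ) ^ n ∣ (a (n + 1) j : ℤ) - a n j ∧ (5 : ℤ) ^ n ∣ (b (n + 1) j : ℤ) - b n j := by
    intro j n
    rw [← S.eq_iff, natCast_zsmul, natCast_zsmul, natCast_zsmul, natCast_zsmul, ← h n j,
      ← S.succ n j, map_nsmul, h (n + 1) j, smul_add, smul_comm 5, smul_comm 5, S.succ, S.succ]
  choose x hx using fun j => lim (fun n => a n j) fun n => (c j n).1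
  choose y hy using fun j => lim (fun n => b n j) fun n => (c j n).2
  exact ⟨Matrix.of ![x, y], S.rp_of fun n j =>
    ⟨a n j, b n j, by rw [natCast_zsmul, natCast_zsmul, ← h], hx j n, hy j n⟩⟩

theorem Sys.one (S : Sys e) {f : M →+ M} (hf : ∀ P, f P = P) : Rp e f 1 :=
  S.rp_of fun n j => by
    refine ⟨if 0 = j then 1 else 0, if 1 = j then 1 else 0, ?_, by simp [Matrix.one_apply],
      by simp [Matrix.one_apply]⟩
    fin_cases j <;> simp [hf]

theorem Sys.mul (S : Sys e) {f g h : M →+ M} {A B : M2} (hf : Rp e f A) (hg : Rp e g B)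
    (hh : ∀ P, h P = f (g P)) : Rp e h (A * B) :=
  S.rp_of fun n j => by
    have v : ∀ x : ℤ_[5], ∃ k : ℤ, (5 : ℤ_[5]) ^ n ∣ x - k := fun x => ⟨_, val_dvd n x⟩
    choose r hr using v
    refine ⟨r (A 0 0) * r (B 0 j) + r (A 0 1) * r (B 1 j),
      r (A 1 0) * r (B 0 j) + r (A 1 1) * r (B 1 j), ?_, ?_, ?_⟩
    · rw [hh, (S.key hg n j _ _).2 ⟨hr _, hr _⟩, map_add, map_zsmul, map_zsmul,
        (S.key hf n 0 _ _).2 ⟨hr _, hr _⟩, (S.key hf n 1 _ _).2 ⟨hr _, hr _⟩]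
      module
    all_goals
      rw [Matrix.mul_apply, Fin.sum_univ_two, dvd_iff]
      simp only [Int.cast_add, Int.cast_mul, map_add, map_mul, ← (dvd_iff n _ _).1 (hr _)]

theorem Sys.scal (S : Sys e) {f : M →+ M} {A : M2} (h : Rp e f A) {n : ℕ} {c : ℤ_[5]} {k : ℤ}
    (hk : (5 : ℤ_[5]) ^ n ∣ c - k) (hc : MC n A (c • (1 : M2))) (P : M) (hP : 5 ^ n • P = 0) :
    f P = k • P := by
  obtain ⟨i, j, rfl⟩ := S.span n P hP
  have h00 := (hc 0 0).add hk
  have h11 := (hc 1 1).add hk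
  have h01 := hc 0 1
  have h10 := hc 1 0
  rw [map_add, map_nsmul, map_nsmul,
    (S.key h n 0 k 0).2 ⟨by simpa using h00, by simpa using h10⟩,
    (S.key h n 1 0 k).2 ⟨by simpa using h01, by simpa using h11⟩]
  module

theorem Sys.fix (S : Sys e) {f : M →+ M} {A : M2} (h : Rp e f A) {n : ℕ}
    (hf : ∀ j, f (e n j) = e n j) : MC n A 1 := by
  have k0 := (S.key h n 0 1 0).1 (by simp [hf])
  have k1 := (S.key h n 1 0 1).1 (by simp [hf])
  intro i j
  fin_cases i <;> fin_cases j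
  exacts [by simpa using k0.1, by simpa using k1.1, by simpa using k0.2, by simpa using k1.2]

theorem act_one (P : Pt E0 Qb) : act E0 1 P = P := by cases P <;> rfl

theorem act_mul (g h : GQ) (P : Pt E0 Qb) : act E0 (g * h) P = act E0 g (act E0 h P) := by
  cases P <;> rfl

theorem act_fix {g : GQ} {P : Pt E0 Qb} (hx : g (xc P) = xc P) (hy : g (yc P) = yc P) :
    act E0 g P = P := by
  cases P with
  | zero => rfl
  | some x y h =>
    change WeierstrassCurve.Affine.Point.some _ _ _ = _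
    rw [WeierstrassCurve.Affine.Point.some.injEq]
    exact ⟨hx, hy⟩

end TRep

open TRep in
theorem repS (hD : DivS) (hT : Tor5S) : RepS := by
  obtain ⟨t⟩ := hT
  choose dv hdv using hD.1 Qb
  let e : ℕ → Fin 2 → Pt E0 Qb := fun n i => Nat.casesOn n 0 fun m => dv^[m] (t.T i)
  have hs : ∀ n i, 5 • e (n + 1) i = e n i := by
    rintro (_ | n) i
    · exact t.five i
    · change 5 • dv^[n + 1] (t.T i) = dv^[n] (t.T i)
      rw [Function.iterate_succ_apply', hdv]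
  have S : Sys e := sys (fun _ => rfl) hs t.span t.indep
  choose r hr using fun g : GQ => S.ex (act E0 g)
  let ρ : GQ →* M2 :=
    { toFun := r
      map_one' := S.uniq (hr 1) (S.one act_one)
      map_mul' := fun g h => S.uniq (hr _) (S.mul (hr g) (hr h) (act_mul g h)) }
  have K : ∀ (g : GQ) j (u v : ℤ), act E0 g (t.T j) = u • t.T 0 + v • t.T 1 ↔
      (5 : ℤ_[5]) ^ 1 ∣ ρ g 0 j - u ∧ (5 : ℤ_[5]) ^ 1 ∣ ρ g 1 j - v :=
    fun g j u v => S.key (hr g) 1 j u v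
  have pm : ∀ g : GQ, g t.a = t.a ∨ g t.a = -t.a := fun g =>
    sq_eq_sq_iff_eq_or_eq_neg.1 (by rw [← map_pow, t.ha, map_ofNat])
  have an : ∀ g : GQ, g t.a = -t.a → (5 : ℤ_[5]) ∣ ρ g 0 0 ∧ (5 : ℤ_[5]) ∣ ρ g 1 1 := by
    intro g hg
    obtain ⟨u, v, h1, h2⟩ := t.anti g hg
    exact ⟨by simpa using ((K g 0 0 u).1 (by simpa using h1)).1,
      by simpa using ((K g 1 v 0).1 (by simpa using h2)).2⟩
  have di : ∀ g : GQ, g t.a = t.a → g ∈ gam ρ ∧ act E0 g (t.T 0) = (ph1 ρ g).val • t.T 0 ∧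
      act E0 g (t.T 1) = (ph2 ρ g).val • t.T 1 ∧ g t.z = t.z ^ (om ρ g).val ∧
      g t.r1 = (if ph1 ρ g ^ 2 = 1 then t.r1 else -t.r1) ∧
      g t.r2 = (if ph2 ρ g ^ 2 = 1 then t.r2 else -t.r2) := by
    intro g hg
    obtain ⟨u, v, h1, h2, h3⟩ := t.diag g hg
    have k1 := (K g 0 u.val 0).1 (by rw [natCast_zsmul, zero_smul, add_zero, h1])
    have k2 := (K g 1 0 v.val).1 (by rw [natCast_zsmul, zero_smul, zero_add, h2])
    rw [om, show ph1 ρ g = u from toZMod_eq k1.1, show ph2 ρ g = v from toZMod_eq k2.2]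
    exact ⟨⟨by simpa using k2.1, by simpa using k1.2⟩, h1, h2, h3⟩
  have ga : ∀ g ∈ gam ρ, g t.a = t.a := fun g hg => (pm g).resolve_right fun h => by
    have := (K g 0 0 0).2 ⟨by simpa using (an g h).1, by simpa using hg.2⟩
    rw [zero_smul, zero_smul, add_zero] at this
    exact t.T_ne 0 (by rw [← act_one (t.T 0), ← inv_mul_cancel g, act_mul, this, map_zero])
  exact ⟨{ t with
    e := e
    e_zero := S.zero
    e_one := fun _ => rfl
    e_succ := hs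
    e_span := S.span
    e_indep := S.indep
    ρ := ρ
    hρ := hr
    mem_lev := fun g n => ⟨fun h P hP => (S.scal (hr g) (c := 1) (k := 1) (by simp)
      (by rw [one_smul]; exact h) P hP).trans (one_smul _ _),
      fun h => S.fix (hr g) fun j => h _ (S.tor n j)⟩
    mem_gam := fun g => ⟨ga g, fun h => (di g h).1⟩
    anti_gam := fun g hg => an g ((pm g).resolve_left fun h => hg (di g h).1)
    act_T1 := fun g hg => (di g (ga g hg)).2.1
    act_T2 := fun g hg => (di g (ga g hg)).2.2.1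
    act_z := fun g hg => (di g (ga g hg)).2.2.2.1
    act_r1 := fun g hg => (di g (ga g hg)).2.2.2.2.1
    act_r2 := fun g hg => (di g (ga g hg)).2.2.2.2.2
    act_zlev := fun g n c h P hP =>
      (S.scal (hr g) (val_dvd n c) h P hP).trans (natCast_zsmul _ _)
    opn_lev := fun n => ⟨{xc (e n 0), yc (e n 0), xc (e n 1), yc (e n 1)}, fun g hg =>
      S.fix (hr g) fun j => by
        fin_cases j <;> exact act_fix (hg _ (by simp)) (hg _ (by simp))⟩ }⟩

end Pool.Agent.Lib.MP_54db3e_nt
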