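import Pool.Agent.Lib.MP_54db3e_nt.StmtF

/-!
Good classes lie in the Selmer group.
-/

open scoped Classical
open IntermediateField

noncomputable section

namespace Pool.Agent.Lib.MP_54db3e_nt

namespace TSel

theorem galois : IsGalois ℚ Qb :=
  have : IsAlgClosure ℚ Qb := AlgebraicClosure.instIsAlgClosure ℚ
  IsAlgClosure.isGalois ℚ Qb

theorem real_place (z : Qb) (hz : IsPrimitiveRoot z 5) (ι : Qb →+* ℂ) (γ : ℂ ≃ₐ[ℝ] ℂ) (g : GQ)
    (h1 : g z = z) (h : ∀ x, ι (g x) = γ (ι x)) : g = 1 := by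
  rcases Complex.real_algHom_eq_id_or_conj (γ : ℂ →ₐ[ℝ] ℂ) with e | e
  · ext x
    apply ι.injective
    rw [h]
    exact DFunLike.congr_fun e (ι x)
  · exfalso
    have hw : IsPrimitiveRoot (ι z) 5 := hz.map_of_injective ι.injective
    have h2 : ι z = (starRingEnd ℂ) (ι z) := by
      have := h z
      rw [h1] at this
      exact this.trans (DFunLike.congr_fun e (ι z))
    have h3 : ‖ι z‖ = 1 := Complex.norm_eq_one_of_pow_eq_one hw.pow_eq_one (by norm_num)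
    have h4 : ι z ^ 2 = 1 := by
      have := Complex.mul_conj (ι z)
      rw [← h2, Complex.normSq_eq_norm_sq, h3] at this
      rw [sq, this]; simp
    have := hw.dvd_of_pow_eq_one 2 h4
    omega

end TSel

theorem selS (hFg : FgS) (hCyc : CycS) (hTt : TtS) (hLoc : LocAllS) (hFinf : FinfS) : SelS := by
  intro d m hm f hf
  obtain ⟨m', hm', hloc⟩ := hLoc d m hm f hf
  obtain ⟨hadd, htor, ⟨U, hU, hU0⟩, -⟩ := hTt d m hm f hf.1
  have := TSel.galois
  obtain ⟨hF1, -, -, -⟩ := hFg ℚ Qb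
  obtain ⟨hfd, -, hfix, -, -, -⟩ := hF1 _ (d.opn_lev m')
  obtain ⟨-, -, -, hUo, -, -⟩ := hF1 _ hU
  have hl' : ∀ g : (fixedField (lev d.ρ m')).fixingSubgroup, g.1 ∈ lev d.ρ m' :=
    fun g => hfix.le g.2
  have hl : ∀ g : (fixedField (lev d.ρ m')).fixingSubgroup, g.1 ∈ lev d.ρ m :=
    fun g => lev_anti d.ρ hm' (hl' g)
  refine ⟨⟨fun g => f g.1, fixedField (lev d.ρ m'), (hFinf d).2.1 m', hfd, fun g => f g.1,
    ⟨⟨fun g => ⟨m, htor _ (hl g)⟩, ?_, fun g h => ?_⟩, fun l _ ι => ?_, fun ι => ?_⟩,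
    fun g => rfl⟩, fun g => rfl⟩
  · rw [IsLocallyConstant.iff_exists_open]
    intro x
    refine ⟨{y | x.1⁻¹ * y.1 ∈ U}, hUo.preimage (f := fun y : (fixedField (lev d.ρ m')).fixingSubgroup =>
      x.1⁻¹ * y.1) (continuous_const.mul continuous_subtype_val), by simp, fun y hy => ?_⟩
    have h1 : x.1⁻¹ * y.1 ∈ lev d.ρ m := mul_mem (inv_mem (hl x)) (hl y)
    have h2 := hadd _ (hl x) _ h1
    rw [mul_inv_cancel_left, hU0 _ h1 hy, add_zero] at h2
    exact h2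
  · change f (g.1 * h.1) = f g.1 + act E0 g.1 (f h.1)
    rw [(d.mem_lev g.1 m).1 (hl g) _ (htor _ (hl h))]
    exact hadd _ (hl g) _ (hl h)
  · obtain ⟨P, hP⟩ := hloc l ι
    exact ⟨P, fun γ g h => hP γ g.1 (hl' g) h⟩
  · refine ⟨0, fun γ g h => ?_⟩
    have h1 : g.1 = 1 := TSel.real_place d.z d.hz ι γ g.1
      ((hCyc d 1 le_rfl).2 (lev_anti d.ρ hm (hl g)) d.z (by simpa using d.hz.pow_eq_one)) h
    have h2 : f 1 = 0 := hU0 1 (one_mem _) (one_mem _)
    simp only [h1, h2, map_zero, sub_zero]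

end Pool.Agent.Lib.MP_54db3e_nt
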