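import Pool.Agent.Lib.MP_54db3e_nt.TGe
import Pool.Agent.Lib.MP_54db3e_nt.H79Class
import Pool.Agent.Lib.MP_54db3e_nt.H79Fld

/-!
The minus part of the Selmer group of fifth powers in the cyclic quartic field of conductor 145.
-/

open scoped Classical
open IntermediateField NumberField Module

noncomputable section

namespace Pool.Agent.Lib.MP_54db3e_nt

namespace TSfk

open H79

variable {K : Type*} [Field K] [NumberField K]

theorem sq659 (hK : finrank ℚ K = 4) {G B : 𝓞 K} (hG : G ^ 2 + G - 1 = 0)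
    (hB : B ^ 2 = G * B - 22 - 7 * G) {P : Ideal (𝓞 K)} (hP : P ≠ ⊤) (h1 : (659 : 𝓞 K) ∈ P)
    {α : 𝓞 K} (hα : α = -16 + 3 * G + 4 * B) (h2 : α ∈ P) :
    P ^ 2 = Ideal.span {α} ∧ Ideal.absNorm (Ideal.span {α}) = 659 ^ 2 := by
  have hn : Ideal.absNorm (Ideal.span {α}) = 659 ^ 2 :=
    absNorm_b hK hG hB (-16) 3 4 0 (by rw [hα]; push_cast; ring) (by rw [det4]; norm_num)
  refine ⟨sq_principal hP h1 h2 (-10685 + 3299 * G - 2792 * B - 276 * (G * B)) 659 α 472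
    (7671 - 2365 * G + 2004 * B + 198 * (G * B)) (-119 - 308 * G + 146 * B) ?_ rfl rfl ?_
    (by norm_num) hn, hn⟩
  · subst hα
    grind
  · subst hα
    grind

theorem irr13 : Irreducible (qr ((281 : ℤ) : ZMod 13) (36 : ℤ) (36 : ℤ) (1 : ℤ)) := by
  refine qr_irreducible (by decide) ?_
  have key : ∀ a b : ZMod 13, ¬(a * (36 - b - a * (1 - a)) + b * (1 - a) = 36 ∧
      b * (36 - b - a * (1 - a)) = 281) := by decide +kernel
  rintro a b c d ⟨h1, h2, h3, h4⟩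
  push_cast at h1 h2 h3 h4
  obtain rfl : c = 1 - a := by linear_combination h1
  obtain rfl : d = 36 - b - a * (1 - a) := by linear_combination h2
  exact key a b ⟨h3, h4⟩

theorem sq13 (hK : finrank ℚ K = 4) {G B : 𝓞 K} (hG : G ^ 2 + G - 1 = 0)
    (hB : B ^ 2 = G * B - 22 - 7 * G) {P : Ideal (𝓞 K)} [hP : P.IsPrime]
    (h1 : (13 : 𝓞 K) ∈ P) : P ^ 2 = Ideal.span {169} := by
  have h0 : P ≠ ⊥ := fun h => by
    rw [h, Ideal.mem_bot] at h1
    norm_num at h1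
  obtain ⟨p, n, hp, hn, hc, hpP, -, hq⟩ := exists_char P h0
  obtain rfl : p = 13 := by
    by_contra hne
    have hco : IsCoprime (p : 𝓞 K) ((13 : ℕ) : 𝓞 K) :=
      Nat.Coprime.cast ((Nat.coprime_primes hp (by norm_num)).2 hne)
    obtain ⟨u, v, huv⟩ := hco
    exact hP.ne_top ((Ideal.eq_top_iff_one _).2 (huv ▸ add_mem (P.mul_mem_left u hpP)
      (P.mul_mem_left v (by exact_mod_cast h1))))
  obtain ⟨k, rfl⟩ := (hq B 281 36 36 1 (by push_cast; grind)).2 irr13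
  have hle := (Ideal.span_singleton_le_iff_mem P).2 hpP
  have hN : Ideal.absNorm (Ideal.span {((13 : ℕ) : 𝓞 K)}) = 13 ^ 4 := by
    rw [Ideal.absNorm_span_natCast, RingOfIntegers.rank, hK]
  have hd := Ideal.absNorm_dvd_absNorm_of_le hle
  rw [hN, hc, Nat.pow_dvd_pow_iff_le_right (by norm_num)] at hd
  obtain rfl : k = 1 := by omega
  rw [eq_of_le_of_absNorm hle (by rw [hc]; norm_num) (by rw [hN, hc]), Ideal.span_singleton_pow]
  norm_num

theorem sq5 (hK : finrank ℚ K = 4) {G B : 𝓞 K} (hG : G ^ 2 + G - 1 = 0)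
    (hB : B ^ 2 = G * B - 22 - 7 * G) {P : Ideal (𝓞 K)} [hP : P.IsPrime]
    (h : (5 : 𝓞 K) ∈ P) : P ^ 2 = Ideal.span {G + 3} := by
  have hθ : (2 * B - G) * (2 * B - G) = -29 * (G + 3) := by grind
  have hu : G + 3 ∈ P := hP.mem_of_pow_mem 2 (by
    convert P.mul_mem_left (G + 2) h using 1
    linear_combination hG)
  exact sq_principal hP.ne_top hu
    ((hP.mem_or_mem (hθ ▸ P.mul_mem_left _ hu)).elim id id) (G + 3) (2 * B - G) (-29)
    (6 * (2 - G)) 0 1 rfl (mul_comm _ _) hθ (by grind) Nat.prime_five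
    (absNorm_b hK hG hB 3 1 0 0 (by push_cast; ring) (by rw [det4]; norm_num))

/-- There is no primitive fifth root of unity. -/
theorem no_five (hK : finrank ℚ K = 4) {G B : 𝓞 K} (hG : G ^ 2 + G - 1 = 0)
    (hB : B ^ 2 = G * B - 22 - 7 * G) {ξ : K} (h : ξ ^ 5 = 1) : ξ = 1 := by
  by_contra hne
  let X : 𝓞 K := ⟨ξ, IsIntegral.of_pow (by norm_num : 0 < 5) (h ▸ isIntegral_one)⟩
  have hX : X ^ 5 = 1 := RingOfIntegers.ext h
  have hX1 : X - 1 ≠ 0 := fun h0 => hne (congrArg (algebraMap (𝓞 K) K) (sub_eq_zero.1 h0))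
  have hs : 1 + X + X ^ 2 + X ^ 3 + X ^ 4 = 0 :=
    mul_left_cancel₀ hX1 (by linear_combination hX)
  have hn : Ideal.absNorm (Ideal.span {-16 + 3 * G + 4 * B}) = 659 ^ 2 :=
    absNorm_b hK hG hB (-16) 3 4 0 (by push_cast; ring) (by rw [det4]; norm_num)
  obtain ⟨P, hP, hle⟩ := Ideal.exists_le_maximal (Ideal.span {-16 + 3 * G + 4 * B}) fun h0 => by
    rw [h0, Ideal.absNorm_top] at hn
    norm_num at hn
  have h2 := (Ideal.span_singleton_le_iff_mem P).1 hle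
  have h1 : (659 : 𝓞 K) ∈ P := hP.isPrime.mem_of_pow_mem 2 (by
    convert P.mul_mem_left (-10685 + 3299 * G - 2792 * B - 276 * (G * B)) h2 using 1
    grind)
  have h0 : P ≠ ⊥ := fun h => by
    rw [h, Ideal.mem_bot] at h1
    norm_num at h1
  have h3 := congrArg Ideal.absNorm (sq659 hK hG hB hP.ne_top h1 rfl h2).1
  rw [map_pow, hn] at h3
  have h4 := Nat.pow_left_injective two_ne_zero h3
  have := hP.isPrime
  obtain ⟨p, n, -, -, hc, -, hf, -⟩ := exists_char P h0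
  have h5 := hf X
  rw [← hc, h4, show 659 = 5 * 131 + 4 from rfl, pow_add, pow_mul, hX, one_pow, one_mul] at h5
  refine hP.ne_top ((Ideal.eq_top_iff_one _).2 ?_)
  have h6 : 1 - X ∈ P := by
    convert P.mul_mem_left (-(X ^ 2 * (1 + X ^ 2))) h5 using 1
    linear_combination (X ^ 3 + X - 1) * hX
  have h7 : (5 : 𝓞 K) ∈ P := by
    convert P.mul_mem_right (4 + 3 * X + 2 * X ^ 2 + X ^ 3) h6 using 1
    linear_combination hs
  convert sub_mem (P.mul_mem_left 132 h7) h1 using 1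
  norm_num

omit [NumberField K] in
theorem fifth_of_torsion (h5 : ∀ ξ : K, ξ ^ 5 = 1 → ξ = 1) {v : K} (n : ℕ) :
    0 < n → v ^ n = 1 → ∃ w, v = w ^ 5 := by
  induction n using Nat.strong_induction_on with
  | _ n ih =>
    intro hn hv
    by_cases h : 5 ∣ n
    · obtain ⟨m, rfl⟩ := h
      exact ih m (by omega) (by omega) (h5 _ (by rw [← pow_mul, mul_comm, hv]))
    · obtain ⟨r, k, e⟩ : ∃ r k : ℕ, r * 5 = n * k + 1 := by
        have h1 : n % 5 = 1 ∨ n % 5 = 2 ∨ n % 5 = 3 ∨ n % 5 = 4 := by omega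
        rcases h1 with h1 | h1 | h1 | h1
        exacts [⟨(n * 4 + 1) / 5, 4, by omega⟩, ⟨(n * 2 + 1) / 5, 2, by omega⟩,
          ⟨(n * 3 + 1) / 5, 3, by omega⟩, ⟨(n * 1 + 1) / 5, 1, by omega⟩]
      exact ⟨v ^ r, by rw [← pow_mul, e, pow_succ, pow_mul, hv, one_pow, one_mul]⟩

theorem conj_eq {G B : ℂ} (hG : G ^ 2 + G - 1 = 0) (hB : B ^ 2 = G * B - 22 - 7 * G) :
    (starRingEnd ℂ) G = G ∧ (starRingEnd ℂ) B = G - B := by
  have g1 := congrArg Complex.re hG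
  have g2 := congrArg Complex.im hG
  have b1 := congrArg Complex.re hB
  have b2 := congrArg Complex.im hB
  simp [sq] at g1 g2 b1 b2
  have q0 : G.im = 0 := by
    by_contra h
    have e : G.re = -1 / 2 := mul_left_cancel₀ h (by linear_combination g2 / 2)
    rw [e] at g1
    nlinarith [sq_nonneg G.im]
  rw [q0] at g1 b1 b2
  have r0 : 2 * B.re = G.re := by
    by_contra h
    have e : B.im = 0 := by
      have : B.im * (2 * B.re - G.re) = 0 := by linear_combination b2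
      exact (mul_eq_zero.1 this).resolve_right (sub_ne_zero.2 h)
    rw [e] at b1
    nlinarith [sq_nonneg (2 * B.re - G.re), sq_nonneg (G.re + 2)]
  constructor
  · exact Complex.ext rfl (by simp [q0])
  · exact Complex.ext (by simp; linarith) (by simp [q0])

theorem unit_fifth (hK : finrank ℚ K = 4) {G B : 𝓞 K} (hG : G ^ 2 + G - 1 = 0)
    (hB : B ^ 2 = G * B - 22 - 7 * G) (τ : K →+* K) (hτg : τ G = G) (hτb : τ B = G - B)
    (u : (𝓞 K)ˣ) : ∃ w : K, ((u : 𝓞 K) : K) = w ^ 5 * τ (u : 𝓞 K) := by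
  have hg : (G : K) ^ 2 + G - 1 = 0 := by exact_mod_cast congrArg (algebraMap (𝓞 K) K) hG
  have hb : (B : K) ^ 2 = G * B - 22 - 7 * G := by
    simpa only [map_sub, map_mul, map_pow, map_ofNat] using congrArg (algebraMap (𝓞 K) K) hB
  have hu : ((u : 𝓞 K) : K) * ((u⁻¹ : (𝓞 K)ˣ) : 𝓞 K) = 1 := by
    exact_mod_cast congrArg (algebraMap (𝓞 K) K) u.mul_inv
  have hτu : τ (u : 𝓞 K) * τ ((u⁻¹ : (𝓞 K)ˣ) : 𝓞 K) = 1 := by rw [← map_mul, hu, map_one]
  have hint : IsIntegral ℤ (((u : 𝓞 K) : K) * τ ((u⁻¹ : (𝓞 K)ˣ) : 𝓞 K)) :=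
    (u : 𝓞 K).isIntegral_coe.mul (((u⁻¹ : (𝓞 K)ˣ) : 𝓞 K).isIntegral_coe.map τ.toIntAlgHom)
  obtain ⟨n, hn, hv⟩ := NumberField.Embeddings.pow_eq_one_of_norm_eq_one K ℂ hint fun φ => by
    obtain ⟨c1, c2⟩ := conj_eq (G := φ G) (B := φ B)
      (by simpa only [map_sub, map_add, map_pow, map_one, map_zero] using congrArg φ hg)
      (by simpa only [map_sub, map_mul, map_pow, map_ofNat] using congrArg φ hb)
    have key : ∀ y, φ (τ y) = (starRingEnd ℂ) (φ y) := fun y => by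
      obtain ⟨s, t, r, v, rfl⟩ := exists_coords hK _ (indep_b hg hb) y
      simp [hτg, hτb, c1, c2]
    rw [map_mul, key, norm_mul, RCLike.norm_conj, ← norm_mul, ← map_mul, hu, map_one, norm_one]
  obtain ⟨w, hw⟩ := fifth_of_torsion (fun ξ => no_five hK hG hB) n hn hv
  exact ⟨w, by rw [← hw, mul_assoc, mul_comm (τ _), hτu, mul_one]⟩

omit [NumberField K] in
theorem alg_end {x W T p0 p1 q0 q1 r2 r3 s2 s3 : K} (h1 : p0 ≠ 0) (_h2 : p1 ≠ 0) (h3 : q1 ≠ 0)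
    (h4 : r2 ≠ 0) (_h5 : r3 ≠ 0) (h6 : s3 ≠ 0) (h7 : T ≠ 0)
    (key : x ^ 2 * (p0 * q1 * r2 * s3) * T ^ 5 = W ^ 5 * (p1 * q0 * r3 * s2)) :
    x ^ 2 = q0 / q1 * (p0 / p1) ^ 4 * (s2 / s3 * (r2 / r3) ^ 4) *
      (W / (T * (p0 / p1) * (r2 / r3))) ^ 5 := by
  field_simp
  linear_combination key

theorem minus_part (hK : finrank ℚ K = 4) {g b : K} (hg : g ^ 2 + g - 1 = 0)
    (hb : b ^ 2 = g * b - 22 - 7 * g) (τ : K →+* K) (hτg : τ g = g) (hτb : τ b = g - b) {x : K}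
    (hx : x ≠ 0) (hm : ∃ t, x * τ x = t ^ 5)
    (h : ∀ (l : ℕ) [Fact l.Prime], l ≠ 5 → l ≠ 13 → l ≠ 659 → ∀ ι : K →+* PadicAlgCl l,
      Div5 ι x) :
    ∃ (j k : ℕ) (t : K), x = ((-16 + 3 * g + 4 * b) / (-16 + 7 * g - 4 * b)) ^ j *
      ((-23 - 3 * g + 4 * (g * b)) / (-19 - 7 * g - 4 * (g * b))) ^ k * t ^ 5 := by
  let G : 𝓞 K := ⟨g, isIntegral_of_qr (-1) 1 0 1 (by push_cast; grind)⟩
  let B : 𝓞 K := ⟨b, isIntegral_of_qr 281 36 36 1 (by push_cast; grind)⟩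
  have hG : G ^ 2 + G - 1 = 0 := RingOfIntegers.ext (by push_cast; exact hg)
  have hB : B ^ 2 = G * B - 22 - 7 * G := RingOfIntegers.ext (by push_cast; exact hb)
  let π : Fin 6 → 𝓞 K := ![G + 3, 169, -16 + 3 * G + 4 * B, -16 + 7 * G - 4 * B,
    -23 - 3 * G + 4 * (G * B), -19 - 7 * G - 4 * (G * B)]
  obtain ⟨e, u, t, ht, he⟩ := fifth_or (eq_one_of_pow (k := 2) (by norm_num) (class_sq hK hg hb))
      π Finset.univ hx fun l _ ι => by
    have hl : (l : 𝓞 K) ∈ prm ι := by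
      have h3 : ‖(l : PadicAlgCl l)‖ = (l : ℝ)⁻¹ := by
        rw [← Padic.norm_p, ← PadicAlgCl.norm_extends]
        simp
      rw [mem_prm, show ι ((l : 𝓞 K) : K) = l from map_natCast (ι.comp (algebraMap _ K)) l, h3]
      exact inv_lt_one_of_one_lt₀ (by exact_mod_cast (Fact.out : l.Prime).one_lt)
    by_cases l1 : l = 5
    · subst l1
      exact Or.inr ⟨0, Finset.mem_univ _, sq5 hK hG hB (by exact_mod_cast hl)⟩
    by_cases l2 : l = 13
    · subst l2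
      exact Or.inr ⟨1, Finset.mem_univ _, sq13 hK hG hB (by exact_mod_cast hl)⟩
    by_cases l3 : l = 659
    · subst l3
      have h1 : (659 : 𝓞 K) ∈ prm ι := by exact_mod_cast hl
      have hP := prm_isPrime ι
      have h2 : ((-16 + 3 * G + 4 * B) * (-16 + 7 * G - 4 * B)) *
          ((-23 - 3 * G + 4 * (G * B)) * (-19 - 7 * G - 4 * (G * B))) ∈ prm ι := by
        convert (prm ι).mul_mem_left 659 h1 using 1
        grind
      right
      rcases hP.mem_or_mem h2 with h3 | h3 <;> rcases hP.mem_or_mem h3 with h4 | h4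
      · exact ⟨2, Finset.mem_univ _, (sq659 hK hG hB hP.ne_top h1 rfl h4).1⟩
      · exact ⟨3, Finset.mem_univ _, (sq659 hK (G := G) (B := G - B) hG (by grind) hP.ne_top h1
          (by ring) h4).1⟩
      · exact ⟨4, Finset.mem_univ _, (sq659 hK (G := -1 - G) (B := G * B - 1) (by grind) (by grind)
          hP.ne_top h1 (by ring) h4).1⟩
      · exact ⟨5, Finset.mem_univ _, (sq659 hK (G := -1 - G) (B := -G - G * B) (by grind)
          (by grind) hP.ne_top h1 (by ring) h4).1⟩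
    exact Or.inl (h l l1 l2 l3 ι)
  obtain ⟨w, hw⟩ := unit_fifth hK hG hB τ hτg hτb u
  obtain ⟨t0, ht0⟩ := hm
  set a0 := -16 + 3 * g + 4 * b with ha0
  set a1 := -16 + 7 * g - 4 * b with ha1
  set a2 := -23 - 3 * g + 4 * (g * b) with ha2
  set a3 := -19 - 7 * g - 4 * (g * b) with ha3
  have hprod : a0 * a1 * (a2 * a3) = 659 * 659 := by grind
  have hp0 : a0 * a1 * (a2 * a3) ≠ 0 := by
    rw [hprod]
    norm_num
  simp only [ne_eq, mul_eq_zero, not_or] at hp0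
  obtain ⟨⟨n0, n1⟩, n2, n3⟩ := hp0
  have t0' : τ a0 = a1 := by
    simp only [ha0, ha1, map_add, map_mul, map_neg, map_ofNat, hτg, hτb]
    ring
  have t1' : τ a1 = a0 := by
    simp only [ha0, ha1, map_add, map_sub, map_mul, map_neg, map_ofNat, hτg, hτb]
    ring
  have t2' : τ a2 = a3 := by
    simp only [ha2, ha3, map_add, map_sub, map_mul, map_neg, map_ofNat, hτg, hτb]
    linear_combination 4 * hg
  have t3' : τ a3 = a2 := by
    simp only [ha2, ha3, map_sub, map_mul, map_neg, map_ofNat, hτg, hτb]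
    linear_combination (-4) * hg
  have he1 : x * ((g + 3) ^ e 0 * 169 ^ e 1 * a0 ^ e 2 * a1 ^ e 3 * a2 ^ e 4 * a3 ^ e 5) =
      ((u : 𝓞 K) : K) * t ^ 5 := by
    rw [← he, Fin.prod_univ_six]
    rfl
  have he2 : τ x * ((g + 3) ^ e 0 * 169 ^ e 1 * a1 ^ e 2 * a0 ^ e 3 * a3 ^ e 4 * a2 ^ e 5) =
      τ (u : 𝓞 K) * τ t ^ 5 := by
    have := congrArg τ he1
    simpa only [map_mul, map_pow, map_add, map_ofNat, hτg, t0', t1', t2', t3'] using this
  have hg3 : g + 3 ≠ 0 := fun h0 => by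
    have e3 : g = -3 := by linear_combination h0
    rw [e3] at hg
    norm_num at hg
  have hτt : τ t ≠ 0 := (map_ne_zero τ).2 ht
  have hτu : τ (u : 𝓞 K) ≠ 0 := (map_ne_zero τ).2 (by simp)
  have hc : (g + 3) ^ e 0 * (169 : K) ^ e 1 ≠ 0 :=
    mul_ne_zero (pow_ne_zero _ hg3) (pow_ne_zero _ (by norm_num))
  have key : x ^ 2 * (a0 ^ e 2 * a1 ^ e 3 * a2 ^ e 4 * a3 ^ e 5) * τ t ^ 5 =
      (w * t * t0) ^ 5 * (a1 ^ e 2 * a0 ^ e 3 * a3 ^ e 4 * a2 ^ e 5) := by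
    refine mul_left_cancel₀ (mul_ne_zero hc hτu) ?_
    rw [mul_pow, mul_pow, ← ht0]
    rw [hw] at he1
    linear_combination (x * τ (u : 𝓞 K) * τ t ^ 5) * he1 -
      (x * τ (u : 𝓞 K) * w ^ 5 * t ^ 5) * he2
  have key2 : x ^ 2 = (a0 / a1) ^ (e 3 + 4 * e 2) * (a2 / a3) ^ (e 5 + 4 * e 4) *
      (w * t * t0 / (τ t * (a0 / a1) ^ e 2 * (a2 / a3) ^ e 4)) ^ 5 := by
    simp only [pow_add, pow_mul', div_pow a0 a1 (e _), div_pow a2 a3 (e _)]
    exact alg_end (pow_ne_zero _ n0) (pow_ne_zero _ n1) (pow_ne_zero _ n1) (pow_ne_zero _ n2)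
      (pow_ne_zero _ n3) (pow_ne_zero _ n3) hτt key
  refine ⟨3 * (e 3 + 4 * e 2), 3 * (e 5 + 4 * e 4),
    (w * t * t0 / (τ t * (a0 / a1) ^ e 2 * (a2 / a3) ^ e 4)) ^ 3 / x, ?_⟩
  rw [div_pow _ x, ← mul_div_assoc, eq_div_iff (pow_ne_zero 5 hx), pow_mul' _ 3, pow_mul' _ 3,
    ← pow_mul _ 3 5, pow_mul' _ 3 5, ← mul_pow, ← mul_pow, ← key2]
  ring

end TSfk

open TSfk H79 in
theorem sfkS : SfkS := by
  intro a z ha hz c hca hcz x hx hx0 ⟨t, ht, hxt⟩ hN
  have h5 := hz.pow_eq_one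
  have hc := TGe.cyc hz
  have h16 := TGe.pow4 hz
  have hq : bK a z ^ 2 = gK z * bK a z - 22 - 7 * gK z := by
    simp only [bK, gK]
    linear_combination ((z - z ^ 4) ^ 2 / 4) * ha + (7 * z ^ 3 - 15) * h5 + 7 * hc
  have hg : gK z ^ 2 + gK z - 1 = 0 := by
    simp only [gK]
    linear_combination (z ^ 3 + 2) * h5 + hc
  have h7 : bK a z - 7 ≠ 0 := fun h0 => by
    have e : bK a z = 7 := by linear_combination h0
    rw [e] at hq
    have e' : (71 : Qb) = 0 := by linear_combination hq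
    norm_num at e'
  have mb := mem_adjoin_simple_self ℚ (bK a z)
  have mg : gK z ∈ ℚ⟮bK a z⟯ := by
    have e : gK z = (bK a z ^ 2 + 22) / (bK a z - 7) := by
      rw [eq_div_iff h7]
      linear_combination -hq
    rw [e]
    exact div_mem (add_mem (pow_mem mb 2) (ofNat_mem _ 22)) (sub_mem mb (ofNat_mem _ 7))
  have cg : c (gK z) = gK z := by
    rw [TGe.map_gK, hcz]
    simp only [gK, h16]
    ring
  have cb : c (bK a z) = gK z - bK a z := by
    rw [TGe.map_bK, hca, hcz]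
    simp only [gK, bK, h16]
    ring
  have mc : c (bK a z) ∈ ℚ⟮bK a z⟯ := cb ▸ sub_mem mg mb
  have := nf_adjoin (bK a z)
  obtain ⟨j, k, s, hs⟩ := minus_part (K := ℚ⟮bK a z⟯) (finrank_adjoin (minpoly_b hg hq))
    (g := ⟨gK z, mg⟩) (b := ⟨bK a z, mb⟩) (Subtype.ext hg) (Subtype.ext hq) (res c mc)
    (Subtype.ext cg) (Subtype.ext cb) (x := ⟨x, hx⟩) (fun h => hx0 (congrArg Subtype.val h))
    ⟨⟨t, ht⟩, Subtype.ext hxt⟩ (fun l _ l1 l2 l3 ι => by
      obtain ⟨ι', rfl⟩ := exists_ext _ ι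
      exact div5_of (hN l l1 l2 l3 ι'))
  refine ⟨j, k, s, s.2, ?_⟩
  have e0 : pK a z = -16 + 3 * gK z + 4 * bK a z := rfl
  have e1 : pK a (z ^ 4) = -16 + 7 * gK z - 4 * bK a z := by
    simp only [pK, gK, bK, h16]
    ring
  have e2 : pK a (z ^ 2) = -23 - 3 * gK z + 4 * (gK z * bK a z) := by
    simp only [pK, gK, bK]
    linear_combination (3 * z ^ 3 - 4) * h5 + 3 * hc
  have e3 : pK a (z ^ 3) = -19 - 7 * gK z - 4 * (gK z * bK a z) := by
    simp only [pK, gK, bK]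
    linear_combination (4 + (2 - 2 * a) * z ^ 3 + (5 - 2 * a) * (z ^ 7 + z ^ 2)) * h5 + 7 * hc
  rw [e0, e1, e2, e3]
  exact congrArg Subtype.val hs

end Pool.Agent.Lib.MP_54db3e_nt
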