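import Pool.Agent.Lib.MP_54db3e_nt.H79Fld
import Pool.Agent.Lib.MP_54db3e_nt.H79Loc

/-!
The minus part in the fifth cyclotomic field.
-/

open scoped Classical
open NumberField IntermediateField

noncomputable section

namespace Pool.Agent.Lib.MP_54db3e_nt

namespace TSfz

open H79

/-- Roots of unity in a field of small degree. -/
theorem torsion {K : Type} [Field K] [NumberField K] (hK : Module.finrank ℚ K < 20) {w : K} {n : ℕ}
    (hn : 0 < n) (h : w ^ n = 1) : ∃ η t : K, η ^ 5 = 1 ∧ w = η * t ^ 5 := by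
  have h0 : w ≠ 0 := fun h0 => by simp [h0, hn.ne'] at h
  have h1 : 0 < orderOf w := (isOfFinOrder_iff_pow_eq_one.2 ⟨n, hn, h⟩).orderOf_pos
  have h2 : ¬25 ∣ orderOf w := fun h2 => by
    have h3 := minpoly.natDegree_le (A := ℚ) w
    rw [← Polynomial.cyclotomic_eq_minpoly_rat (IsPrimitiveRoot.orderOf w) h1,
      Polynomial.natDegree_cyclotomic] at h3
    have h4 := Nat.le_of_dvd (Nat.totient_pos.2 h1) (Nat.totient_dvd_of_dvd h2)
    rw [show Nat.totient 25 = 20 by decide] at h4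
    omega
  obtain ⟨m, hm, h3⟩ : ∃ m, ¬5 ∣ m ∧ orderOf w ∣ 5 * m := by
    by_cases h5 : 5 ∣ orderOf w
    · obtain ⟨m, hm⟩ := h5
      exact ⟨m, fun h => h2 (hm ▸ mul_dvd_mul_left 5 h), hm.dvd⟩
    · exact ⟨_, h5, dvd_mul_left _ _⟩
  obtain ⟨j, hj⟩ : ∃ j, m ^ 4 = 1 + j * 5 := ⟨m ^ 4 / 5, by
    have : m ^ 4 % 5 = 1 := by
      rw [Nat.pow_mod]
      have : m % 5 = 1 ∨ m % 5 = 2 ∨ m % 5 = 3 ∨ m % 5 = 4 := by omega
      rcases this with h | h | h | h <;> rw [h]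
    omega⟩
  refine ⟨w ^ m ^ 4, (w ^ j)⁻¹, ?_, ?_⟩
  · rw [← pow_mul, show m ^ 4 * 5 = 5 * m * m ^ 3 by ring, pow_mul,
      orderOf_dvd_iff_pow_eq_one.1 h3, one_pow]
  · rw [hj, pow_add, pow_mul]
    field_simp

/-- An element of the decomposition group inverts the fifth roots of unity. -/
theorem exists_inv (l : ℕ) [hl : Fact l.Prime] (h1 : l % 5 ≠ 1) {z : Om l}
    (hz : IsPrimitiveRoot z 5) : ∃ γ : Gl l, γ z = z ^ 4 := by
  by_contra h
  have h2 : z ∈ adjoin ℚ_[l] (∅ : Set (Om l)) := mem_adjoin_of_fixed fun γ _ => by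
    obtain ⟨i, hi, e⟩ := hz.eq_pow_of_pow_eq_one (ξ := γ z) (by
      rw [← map_pow, hz.pow_eq_one, map_one])
    have e2 : (γ * γ) z = z ^ (i * i % 5) := by
      rw [AlgEquiv.mul_apply, ← e, map_pow, ← e, ← pow_mul, ← pow_eq_pow_mod _ hz.pow_eq_one]
    interval_cases i
    · exact absurd (γ.injective (e.symm.trans (by simp))) (hz.ne_one (by norm_num))
    · rw [← e, pow_one]
    · exact absurd ⟨_, e2⟩ h
    · exact absurd ⟨_, e2⟩ h
    · exact absurd ⟨_, e.symm⟩ h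
  rw [adjoin_empty, mem_bot] at h2
  obtain ⟨w, rfl⟩ := h2
  have h3 : IsPrimitiveRoot w 5 := hz.of_map_of_injective (algebraMap ℚ_[l] (Om l)).injective
  have h4 : ‖w‖ = 1 := (pow_eq_one_iff_of_nonneg (norm_nonneg _) (by norm_num : 5 ≠ 0)).1 (by
    rw [← norm_pow, h3.pow_eq_one, norm_one])
  have h5 := h3.geom_sum_eq_zero (by norm_num)
  simp only [Finset.sum_range_succ, Finset.sum_range_zero] at h5
  let v : ℤ_[l] := ⟨w, h4.le⟩
  have h6 : v ^ 4 + v ^ 3 + v ^ 2 + v + 1 = 0 := Subtype.ext (by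
    push_cast
    linear_combination h5)
  by_cases e5 : l = 5
  · subst e5
    have h7 := congrArg (PadicInt.toZModPow 2) h6
    simp only [map_add, map_pow, map_one, map_zero] at h7
    exact (by decide : ∀ x : ZMod (5 ^ 2), x ^ 4 + x ^ 3 + x ^ 2 + x + 1 ≠ 0) _ h7
  have h7 := congrArg PadicInt.toZMod h6
  simp only [map_add, map_pow, map_one, map_zero] at h7
  have h8 : orderOf (PadicInt.toZMod v) = 5 :=
    orderOf_eq_prime (by linear_combination (PadicInt.toZMod v - 1) * h7) fun h => by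
      rw [h] at h7
      exact e5 ((Nat.prime_dvd_prime_iff_eq hl.out Nat.prime_five).1
        ((ZMod.natCast_eq_zero_iff 5 l).1 (by push_cast; linear_combination h7)))
  have h9 := ZMod.orderOf_dvd_card_sub_one (a := PadicInt.toZMod v) fun h => by simp [h] at h7
  rw [h8] at h9
  have := hl.out.pos
  omega

end TSfz

open TSfz H79 in
theorem sfzS (hE : EmbS) (hV : ValS) : SfzS := by
  rintro z hz c hc x hx hx0 ⟨s, hs, hxs⟩ h
  have := fin_adjoin z
  have := nf_adjoin z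
  have := alg
  have : @IsCyclotomicExtension {5} ℚ ℚ⟮z⟯ _ _ DivisionRing.toRatAlgebra :=
    hz.intermediateField_adjoin_isCyclotomicExtension ℚ
  have mz := mem_adjoin_simple_self ℚ z
  have s0 : s ≠ 0 := fun h0 => by simp [h0, hx0] at hxs
  obtain ⟨u, hu, t, ht, ⟨u0, u1, u2⟩, rfl⟩ := (hV ℚ⟮z⟯).2.2.2 1 (by norm_num) (fun c => by
    rw [pow_one]
    exact Fintype.card_le_one_iff.1
      (classNumber_eq_one_iff.2 (IsCyclotomicExtension.Rat.five_pid ℚ⟮z⟯)).le _ _) x hx hx0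
    fun l _ ι => by
      by_cases h1 : l % 5 = 1
      · exact h l h1 ι
      obtain ⟨γ, hγ⟩ := exists_inv l h1 (hz.map_of_injective ι.injective)
      have h2 : ι (c x) = γ (ι x) := ext_adjoin (ι.comp (c : Qb →+* Qb))
        ((γ : Om l →+* Om l).comp ι) (by simp [hc, hγ]) hx
      have h3 := congrArg (fun w => ‖ι w‖) hxs
      simp only [map_mul, map_pow, norm_mul, norm_pow, h2, hE.2.2.2.1 l γ] at h3
      have h4 : ‖ι x‖ ≠ 0 := by simpa using hx0
      refine ⟨s ^ 3 / x, div_mem (pow_mem hs 3) hx, div_ne_zero (pow_ne_zero _ s0) hx0, ?_⟩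
      rw [map_div₀, norm_div, map_pow, norm_pow, div_pow, ← pow_mul, mul_comm 3, pow_mul, ← h3]
      field_simp
  have t0 : t ≠ 0 := fun h0 => by simp [h0] at hx0
  have cm : ∀ w ∈ ℚ⟮z⟯, c w ∈ ℚ⟮z⟯ := fun w hw => (res c (hc ▸ pow_mem mz 4) ⟨w, hw⟩).2
  have cu0 : c u ≠ 0 := (map_ne_zero c).2 u0
  have ct0 : c t ≠ 0 := (map_ne_zero c).2 t0
  let w : ℚ⟮z⟯ := ⟨u / c u, div_mem hu (cm u hu)⟩
  obtain ⟨n, hn, hw⟩ := Embeddings.pow_eq_one_of_norm_eq_one ℚ⟮z⟯ ℂ (x := w) (by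
    rw [← isIntegral_algHom_iff (algebraMap ℚ⟮z⟯ Qb).toIntAlgHom Subtype.val_injective]
    change IsIntegral ℤ (u / c u)
    rw [div_eq_mul_inv, ← map_inv₀]
    exact u1.mul (u2.map (c : Qb →+* Qb).toIntAlgHom)) fun φ => by
      obtain ⟨φ, rfl⟩ := exists_ext _ φ
      have h1 : ‖φ z‖ = 1 := (hz.map_of_injective φ.injective).norm'_eq_one (by norm_num)
      have h2 : φ (c u) = starRingEnd ℂ (φ u) := ext_adjoin (φ.comp (c : Qb →+* Qb))
        ((starRingEnd ℂ).comp φ) (by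
          simp only [Set.mem_singleton_iff, forall_eq, RingHom.comp_apply, RingHom.coe_coe, hc]
          rw [← Complex.inv_eq_conj h1, ← map_inv₀]
          exact congrArg φ (eq_inv_of_mul_eq_one_left (by rw [← pow_succ, hz.pow_eq_one]))) hu
      change ‖φ (u / c u)‖ = 1
      rw [map_div₀, norm_div, h2, Complex.norm_conj, div_self (by simpa using u0)]
  obtain ⟨η, v, hη, hv⟩ := torsion (by
    rw [IsCyclotomicExtension.finrank (n := 5) ℚ⟮z⟯
      (Polynomial.cyclotomic.irreducible_rat (by norm_num))]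
    decide) hn hw
  have hη' : (η : Qb) ^ 5 = 1 := congrArg Subtype.val hη
  obtain ⟨i, -, hi⟩ := hz.eq_pow_of_pow_eq_one hη'
  have hv' : u / c u = z ^ i * (v : Qb) ^ 5 := hi ▸ congrArg Subtype.val hv
  refine ⟨i * 3, (v * t * s / c t) ^ 3 / (u * t ^ 5), div_mem (pow_mem (div_mem
    (mul_mem (mul_mem v.2 ht) hs) (cm t ht)) 3) hx, ?_⟩
  have h1 : (u * t ^ 5) ^ 2 = z ^ i * (v * t * s / c t) ^ 5 := by
    rw [show z ^ i * (v * t * s / c t) ^ 5 = z ^ i * v ^ 5 * t ^ 5 * s ^ 5 / c t ^ 5 by ring, ← hxs,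
      ← hv', map_mul, map_pow]
    field_simp
  rw [div_pow, ← pow_mul, mul_comm 3, pow_mul, pow_mul, ← mul_div_assoc, ← mul_pow, ← h1]
  field_simp

end Pool.Agent.Lib.MP_54db3e_nt
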