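import Pool.Agent.Lib.MP_54db3e_nt.Stmt

/-!
The matrix `M(g) = (ρ(g) - 1) / 5` modulo 5 on the first congruence subgroup.
-/

open scoped Classical

noncomputable section

namespace Pool.Agent.Lib.MP_54db3e_nt.TStar

/-- reduction modulo 5 -/
def red : M2 →+* Matrix (Fin 2) (Fin 2) F5 := (PadicInt.toZMod (p := 5)).mapMatrix

theorem red_apply (X : M2) (i j : Fin 2) : red X i j = PadicInt.toZMod (X i j) := rfl

theorem toZ_eq_zero (x : ℤ_[5]) : PadicInt.toZMod x = 0 ↔ (5 : ℤ_[5]) ∣ x := by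
  rw [← RingHom.mem_ker, PadicInt.ker_toZMod, PadicInt.maximalIdeal_eq_span_p,
    Ideal.mem_span_singleton]
  rfl

theorem toZ_five : PadicInt.toZMod (5 : ℤ_[5]) = 0 := (toZ_eq_zero 5).2 dvd_rfl

theorem isUnit_of_toZ {x : ℤ_[5]} (h : PadicInt.toZMod x ≠ 0) : IsUnit x := by
  by_contra hx
  apply h
  rw [← RingHom.mem_ker, PadicInt.ker_toZMod]
  exact hx

theorem toZ_val (u : F5) : PadicInt.toZMod ((u.val : ℕ) : ℤ_[5]) = u := by
  rw [map_natCast, ZMod.natCast_zmod_val]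

theorem mc_iff {n : ℕ} {A B : M2} : MC n A B ↔ ∃ C : M2, A = B + (5 : ℤ_[5]) ^ n • C := by
  constructor
  · intro h
    choose C hC using h
    exact ⟨Matrix.of C, by ext i j; simp [← hC]⟩
  · rintro ⟨C, rfl⟩ i j
    simp

theorem red_five (X : M2) : red ((5 : ℤ_[5]) • X) = 0 := by
  ext i j
  simp [red_apply, toZ_five]

theorem red_eq_zero {X : M2} (h : red X = 0) : ∃ Y, X = (5 : ℤ_[5]) • Y := by
  have : MC 1 X 0 := fun i j => by
    simpa using (toZ_eq_zero _).1 (congrFun (congrFun h i) j)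
  simpa using mc_iff.1 this

/-- division by 5 followed by reduction -/
def dv (y : ℤ_[5]) : F5 := if h : (5 : ℤ_[5]) ∣ y then PadicInt.toZMod h.choose else 0

theorem dv_mul (x : ℤ_[5]) : dv (5 * x) = PadicInt.toZMod x := by
  have h : (5 : ℤ_[5]) ∣ 5 * x := ⟨x, rfl⟩
  rw [dv, dif_pos h]
  congr 1
  exact (mul_left_cancel₀ (by norm_num) h.choose_spec).symm

variable {G : Type} [Group G] (ρ : G →* M2)

/-- the matrix `(ρ g - 1) / 5` modulo 5 -/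
def MM (g : G) : Matrix (Fin 2) (Fin 2) F5 := Matrix.of fun i j => dv ((ρ g - 1) i j)

variable {ρ}

theorem MM_eq {g : G} {X : M2} (h : ρ g = 1 + (5 : ℤ_[5]) • X) : MM ρ g = red X := by
  ext i j
  simp [MM, h, dv_mul, red_apply]

theorem ex_X {g : G} (hg : g ∈ lev ρ 1) : ∃ X, ρ g = 1 + (5 : ℤ_[5]) • X := by
  simpa using mc_iff.1 hg

theorem MM_add {g h : G} (hg : g ∈ lev ρ 1) (hh : h ∈ lev ρ 1) :
    MM ρ (g * h) = MM ρ g + MM ρ h := by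
  obtain ⟨X, hX⟩ := ex_X hg
  obtain ⟨Y, hY⟩ := ex_X hh
  have : ρ (g * h) = 1 + (5 : ℤ_[5]) • (X + Y + (5 : ℤ_[5]) • (X * Y)) := by
    rw [map_mul, hX, hY]
    simp only [add_mul, mul_add, smul_mul_assoc, mul_smul_comm, one_mul, mul_one]
    module
  rw [MM_eq this, MM_eq hX, MM_eq hY, map_add, map_add, red_five, add_zero]

theorem dens_one (hD : Dens ρ) (k : ℕ) (X : M2) (n : ℕ) :
    ∃ g, MC n (ρ g) (1 + (5 : ℤ_[5]) ^ (k + 1) • X) := by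
  refine hD _ ?_ ?_ (isUnit_of_toZ ?_) (isUnit_of_toZ ?_) n
  · simpa using (dvd_pow_self (5 : ℤ_[5]) k.succ_ne_zero).mul_right _
  · simpa using (dvd_pow_self (5 : ℤ_[5]) k.succ_ne_zero).mul_right _
  · simp [toZ_five]
  · simp [toZ_five]

theorem MM_surj (hD : Dens ρ) (A : Matrix (Fin 2) (Fin 2) F5) : ∃ g ∈ lev ρ 1, MM ρ g = A := by
  let X : M2 := Matrix.of fun i j => ((A i j).val : ℤ_[5])
  obtain ⟨g, hg⟩ := dens_one hD 0 X 2
  obtain ⟨C, hC⟩ := mc_iff.1 hg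
  have e : ρ g = 1 + (5 : ℤ_[5]) • (X + (5 : ℤ_[5]) • C) := by
    rw [hC]
    module
  refine ⟨g, mc_iff.2 ⟨_, by rw [pow_one]; exact e⟩, ?_⟩
  rw [MM_eq e, map_add, red_five, add_zero]
  ext i j
  exact toZ_val _

theorem mem_lev_two {g : G} (hg : g ∈ lev ρ 1) (h : MM ρ g = 0) : g ∈ lev ρ 2 := by
  obtain ⟨X, hX⟩ := ex_X hg
  rw [MM_eq hX] at h
  obtain ⟨Y, rfl⟩ := red_eq_zero h
  exact mc_iff.2 ⟨Y, by rw [hX]; module⟩

theorem pow_five (T : M2) : (1 + (5 : ℤ_[5]) • T) ^ 5 = 1 + (25 : ℤ_[5]) • T +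
    (125 : ℤ_[5]) • (T * ((2 : ℤ_[5]) • T + (10 : ℤ_[5]) • (T * T) +
      (25 : ℤ_[5]) • (T * (T * T)) + (25 : ℤ_[5]) • (T * (T * (T * T))))) := by
  simp only [pow_succ, pow_zero, add_mul, mul_add, smul_mul_assoc, mul_smul_comm, one_mul,
    mul_one, mul_assoc]
  module

theorem mem_lev_of_mc {n : ℕ} {g h : G} (e : MC n (ρ h) (ρ g)) : g⁻¹ * h ∈ lev ρ n := by
  have := MC.mul (MC.refl n (ρ g⁻¹)) e
  rw [rho_inv_mul] at this
  rw [mem_lev, map_mul]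
  exact this

theorem fifth (hD : Dens ρ) {g : G} (hg : g ∈ lev ρ 2) (k : ℕ) :
    ∃ g' ∈ Submonoid.closure {f | ∃ p ∈ lev ρ 1, f = p ^ 5}, g'⁻¹ * g ∈ lev ρ (k + 2) := by
  induction k with
  | zero => exact ⟨1, one_mem _, by simpa using hg⟩
  | succ k ih =>
    obtain ⟨g', h1, h2⟩ := ih
    obtain ⟨Y, hY⟩ := mc_iff.1 h2
    obtain ⟨p, hp⟩ := dens_one hD k Y (k + 2)
    obtain ⟨W, hW⟩ := mc_iff.1 hp
    have e : ρ p = 1 + (5 : ℤ_[5]) • ((5 : ℤ_[5]) ^ k • (Y + (5 : ℤ_[5]) • W)) := by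
      rw [hW]
      module
    have hp1 : p ∈ lev ρ 1 := mc_iff.2 ⟨_, by rw [pow_one]; exact e⟩
    refine ⟨g' * p ^ 5, mul_mem h1 (Submonoid.subset_closure ⟨p, hp1, rfl⟩), ?_⟩
    rw [mul_inv_rev, mul_assoc]
    refine mem_lev_of_mc (MC.symm (mc_iff.2 ?_))
    rw [map_pow, e, pow_five, hY]
    generalize ((2 : ℤ_[5]) • _ + _ + _ + _ : M2) = S
    refine ⟨W + (Y + (5 : ℤ_[5]) • W) * S, ?_⟩
    rw [smul_mul_assoc]
    module

theorem MM_conj (a : G) {g : G} (hg : g ∈ lev ρ 1) :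
    MM ρ (a⁻¹ * g * a) = red (ρ a⁻¹) * MM ρ g * red (ρ a) := by
  obtain ⟨X, hX⟩ := ex_X hg
  have : ρ (a⁻¹ * g * a) = 1 + (5 : ℤ_[5]) • (ρ a⁻¹ * X * ρ a) := by
    rw [map_mul, map_mul, hX]
    simp only [add_mul, mul_add, smul_mul_assoc, mul_smul_comm, mul_one, rho_inv_mul]
  rw [MM_eq this, MM_eq hX, map_mul, map_mul]

theorem red_mul_inv (a : G) : red (ρ a) * red (ρ a⁻¹) = 1 := by
  rw [← map_mul, rho_mul_inv, map_one]

theorem exists_diag (hD : Dens ρ) {u : F5} (hu : u ≠ 0) : ∃ g, red (ρ g) = !![u, 0; 0, 1] := by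
  obtain ⟨g, hg⟩ := hD !![((u.val : ℕ) : ℤ_[5]), 0; 0, 1] (by simp) (by simp)
    (isUnit_of_toZ (by simpa [toZ_val] using hu)) (by simp) 1
  obtain ⟨C, hC⟩ := mc_iff.1 hg
  refine ⟨g, ?_⟩
  rw [hC, pow_one, map_add, red_five, add_zero]
  ext i j
  fin_cases i <;> fin_cases j <;> simp [red_apply]

theorem MM_flip {a : G} (ha : red (ρ a) = !![-1, 0; 0, 1]) {g : G} (hg : g ∈ lev ρ 1)
    (i j : Fin 2) : MM ρ (a⁻¹ * g * a) i j = if i = j then MM ρ g i j else -MM ρ g i j := by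
  have h1 : red (ρ a⁻¹) = !![-1, 0; 0, 1] := by
    have h2 := red_mul_inv (ρ := ρ) a
    have h3 : (!![-1, 0; 0, 1] : Matrix (Fin 2) (Fin 2) F5) * !![-1, 0; 0, 1] = 1 := by
      ext i j
      fin_cases i <;> fin_cases j <;> simp
    rw [ha] at h2
    rw [← one_mul (red (ρ a⁻¹)), ← h3, mul_assoc, h2, mul_one]
  rw [MM_conj a hg, ha, h1]
  fin_cases i <;> fin_cases j <;> simp [Matrix.mul_apply, Matrix.vecMul, dotProduct]

theorem MM_trace {g : G} (hg : g ∈ lev ρ 1) (h : ¬ (25 : ℤ_[5]) ∣ (ρ g).det - 1) :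
    (MM ρ g).trace ≠ 0 := by
  obtain ⟨X, hX⟩ := ex_X hg
  rw [MM_eq hX]
  intro h0
  apply h
  have h1 : (5 : ℤ_[5]) ∣ X 0 0 + X 1 1 := by
    rw [← toZ_eq_zero, map_add]
    simpa [Matrix.trace_fin_two, red_apply] using h0
  obtain ⟨t, ht⟩ := h1
  refine ⟨t + X.det, ?_⟩
  rw [hX]
  simp only [Matrix.det_fin_two, Matrix.add_apply, Matrix.smul_apply, smul_eq_mul,
    Matrix.one_apply_eq, Matrix.one_apply_ne (show (0 : Fin 2) ≠ 1 by decide),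
    Matrix.one_apply_ne (show (1 : Fin 2) ≠ 0 by decide)]
  linear_combination 5 * ht

theorem pow_mc (N : M2) (j : ℕ) : MC 3 ((1 + (5 : ℤ_[5]) • N) ^ (5 * j + 1))
    (1 + (5 + 25 * j : ℤ_[5]) • N) := by
  induction j with
  | zero => simpa using MC.refl 3 _
  | succ j ih =>
    rw [show 5 * (j + 1) + 1 = 5 + (5 * j + 1) by ring, pow_add]
    have h5 : MC 3 ((1 + (5 : ℤ_[5]) • N) ^ 5) (1 + (25 : ℤ_[5]) • N) :=
      mc_iff.2 ⟨_, by rw [pow_five]; norm_num; rfl⟩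
    refine (h5.mul ih).trans (mc_iff.2 ⟨(1 + 5 * j : ℤ_[5]) • (N * N), ?_⟩)
    simp only [add_mul, mul_add, smul_mul_assoc, mul_smul_comm, one_mul, mul_one]
    push_cast
    module

theorem MM_comm {τ φ : G} {Q : ℕ} (hτ : τ ∈ lev ρ 1) (hφ : φ ∈ lev ρ 1) (hQ : Q % 25 = 21)
    (h : (τ ^ Q * φ)⁻¹ * (φ * τ) ∈ lev ρ 3) :
    MM ρ φ * MM ρ τ - MM ρ τ * MM ρ φ = (4 : F5) • MM ρ τ := by
  obtain ⟨N, hN⟩ := ex_X hτ
  obtain ⟨F, hF⟩ := ex_X hφ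
  obtain ⟨k, hk⟩ : ∃ k, Q = 5 * (5 * k + 4) + 1 := ⟨Q / 25, by omega⟩
  have h1 : MC 3 (ρ φ * ρ τ) (ρ τ ^ Q * ρ φ) := by
    have := MC.mul (MC.refl 3 (ρ (τ ^ Q * φ))) h
    rwa [← map_mul, mul_inv_cancel_left, mul_one, map_mul, map_mul, map_pow] at this
  rw [hN, hk] at h1
  have h2 := h1.trans ((pow_mc N _).mul (MC.refl 3 (ρ φ)))
  rw [hF] at h2
  obtain ⟨C, hC⟩ := mc_iff.1 h2
  have h3 : (25 : ℤ_[5]) • (F * N - N * F) = (25 : ℤ_[5]) • ((4 : ℤ_[5]) • N +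
      (5 : ℤ_[5]) • (C + (k : ℤ_[5]) • N + (5 * k + 4 : ℤ_[5]) • (N * F))) := by
    simp only [add_mul, mul_add, smul_mul_assoc, mul_smul_comm, one_mul, mul_one] at hC
    push_cast at hC
    linear_combination (norm := module) hC
  have h4 := smul_right_injective M2 (by norm_num : (25 : ℤ_[5]) ≠ 0) h3
  rw [MM_eq hN, MM_eq hF, ← map_mul, ← map_mul, ← map_sub, h4, map_add, red_five, add_zero]
  ext i j
  simp only [red_apply, Matrix.smul_apply, smul_eq_mul, map_mul, map_ofNat]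

end Pool.Agent.Lib.MP_54db3e_nt.TStar
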