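import Pool.Agent.Lib.MP_54db3e_nt.TStar3
import Pool.Agent.Lib.MP_54db3e_nt.TStar4

/-!
Step STAR.
-/

open scoped Classical

noncomputable section

namespace Pool.Agent.Lib.MP_54db3e_nt

namespace TStar

variable {G : Type} [Group G] {ρ : G →* M2}

/-- the character `rb` as a homomorphism -/
def rbH (hC : ChS) (hΓ : ∀ g, g ∈ gam ρ) : G →* F5 where
  toFun := rb ρ
  map_one' := by simp [rb, ph1, ph2]
  map_mul' g h := by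
    obtain ⟨h1, h2⟩ := (hC G ρ).1 g (hΓ g) h (hΓ h)
    simp only [rb, h1, h2]
    ring

theorem rb_diag {g : G} {u : F5} (h : red (ρ g) = !![u, 0; 0, 1]) : rb ρ g = u := by
  have h1 : ph1 ρ g = u := congrFun (congrFun h 0) 0
  have h2 : ph2 ρ g = 1 := congrFun (congrFun h 1) 1
  rw [rb, h1, h2, one_pow, mul_one]

theorem rb_ker (hC : ChS) (hG : GrpS) (hΓ : ∀ g, g ∈ gam ρ) (hD : Dens ρ) {n : ℕ} (hn : 1 ≤ n)
    {g : G} (hg : rb ρ g = 1) : ∃ p ∈ lev ρ 1, ∃ z ∈ zlev ρ n, g = p * z := by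
  obtain ⟨-, -, -, ⟨z, c, hc, hz, -⟩, -⟩ := hG G ρ hD n hn
  obtain ⟨hmul, hne, hlev, -, hzl, -⟩ := hC G ρ
  have hzn : z ∈ zlev ρ n := ⟨c, by rw [show 4 = 2 * 2 from rfl, pow_mul, hc]; norm_num, hz⟩
  have hz1 : ph1 ρ z ^ 2 = -1 := by
    have h1 : ph1 ρ z = PadicInt.toZMod c := by
      have := (toZ_eq_zero _).2 (by simpa using MC.mono hz hn 0 0 : (5 : ℤ_[5]) ∣ ρ z 0 0 - c)
      rw [map_sub, sub_eq_zero] at this
      exact this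
    rw [h1, ← map_pow, hc, map_neg, map_one]
  have hpw : ∀ i : ℕ, ph1 ρ (z ^ i) = ph1 ρ z ^ i := fun i => by
    induction i with
    | zero => simp [ph1]
    | succ i ih => rw [pow_succ, (hmul _ (hΓ _) _ (hΓ _)).1, ih, pow_succ]
  have key : ∀ u v w : F5, u ≠ 0 → v ≠ 0 → u * v ^ 3 = 1 → w ^ 2 = -1 →
      u = v ∧ ∃ i : Fin 4, w ^ (i : ℕ) = u := by decide
  obtain ⟨huv, i, hi⟩ := key _ _ _ (hne g (hΓ g)).1 (hne g (hΓ g)).2 hg hz1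
  have hzi : z ^ (i : ℕ) ∈ zlev ρ n := pow_mem hzn _
  refine ⟨g * (z ^ (i : ℕ))⁻¹, (hlev _).2 ⟨hΓ _, ?_, ?_⟩, _, hzi, by group⟩
  · have h1 := (hmul (g * (z ^ (i : ℕ))⁻¹) (hΓ _) (z ^ (i : ℕ)) (hΓ _)).1
    rw [inv_mul_cancel_right, hpw, hi] at h1
    exact mul_right_cancel₀ (hne g (hΓ g)).1 (by rw [← h1, one_mul])
  · have h1 := (hmul (g * (z ^ (i : ℕ))⁻¹) (hΓ _) (z ^ (i : ℕ)) (hΓ _)).2
    rw [inv_mul_cancel_right, ← (hzl n hn _ hzi).1, hpw, hi, huv] at h1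
    exact mul_right_cancel₀ (hne g (hΓ g)).2 (by rw [← h1, one_mul])

theorem idx_lev (hG : GrpS) (hD : Dens ρ) {m n : ℕ} (hm : 1 ≤ m) (hn : m ≤ n) :
    (lev ρ n).relIndex (lev ρ m) = 5 ^ (4 * (n - m)) := by
  have h1 := Subgroup.relIndex_mul_relIndex _ _ _ (lev_anti ρ hn) (lev_le_gam ρ hm)
  rw [(hG G ρ hD m hm).1, (hG G ρ hD n (hm.trans hn)).1,
    show 4 * (n - 1) = 4 * (n - m) + 4 * (m - 1) by omega, pow_add] at h1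
  exact Nat.eq_of_mul_eq_mul_right (by positivity : 0 < 16 * 5 ^ (4 * (m - 1)))
    (by rw [h1]; ring)

theorem idx_zlev (hG : GrpS) (hD : Dens ρ) {n : ℕ} (hn : 1 ≤ n) :
    (((lev ρ n).relIndex (zlev ρ n) : ℕ) : ZMod 5) ≠ 0 := by
  have h1 := Subgroup.relIndex_mul_relIndex _ _ _ (lev_le_zlev ρ n) (zlev_le_gam ρ hn)
  rw [(hG G ρ hD n hn).1, (hG G ρ hD n hn).2.1] at h1
  rw [Nat.eq_of_mul_eq_mul_right (by positivity : 0 < 4 * 5 ^ (4 * (n - 1)))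
    (by rw [h1]; ring : (lev ρ n).relIndex (zlev ρ n) * _ = 4 * _)]
  decide

theorem rank_wcoc [Fam G] {D : Subgroup G} (r : G →* F5ˣ) (hr : ∀ g, (r g : F5) = rb ρ g)
    (LS : LSH ρ Fam.O D) (j : ℕ) (hj : j < 4) : Module.rank F5 (wcoc D r j) ≤ 2 := by
  obtain ⟨c₁, c₂, h⟩ := LS j hj
  have hle : wcoc D r j ≤ Submodule.span F5
      (Set.range ![fun g : D => c₁ g, fun g : D => c₂ g]) := by
    rintro c ⟨h1, U, hU, h2⟩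
    obtain ⟨s, t, e⟩ := h (fun g => if hg : g ∈ D then c ⟨g, hg⟩ else 0)
      (fun g hg g' hg' => by
        simp only [dif_pos hg, dif_pos hg', dif_pos (D.mul_mem hg hg'), ← hr]
        exact h1 ⟨g, hg⟩ ⟨g', hg'⟩)
      ⟨U, hU, fun g hg hu => by simp only [dif_pos hg]; exact h2 ⟨g, hg⟩ hu⟩
    have : c = s • (fun g : D => c₁ g) + t • fun g : D => c₂ g := by
      funext g
      simpa using e g g.2
    rw [this]
    exact add_mem (Submodule.smul_mem _ _ (Submodule.subset_span ⟨0, rfl⟩))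
      (Submodule.smul_mem _ _ (Submodule.subset_span ⟨1, rfl⟩))
  refine (Submodule.rank_mono hle).trans ((rank_span_le _).trans ?_)
  exact Cardinal.mk_range_le.trans (by simp)

theorem core (hC : ChS) (hG : GrpS) [Fam G] (hΓ : ∀ g, g ∈ gam ρ) (hD : Dens ρ)
    {D : Subgroup G} (LS : LSH ρ Fam.O D) {m : ℕ} (hm : 1 ≤ m) (UT : Submodule F5 (G → F5))
    (hUT0 : ∀ f, (∀ h ∈ lev ρ (4 * m), f h = 0) → f ∈ UT)
    (hUTc : ∀ f ∈ UT, ∀ a, (fun h => f (a⁻¹ * h * a)) ∈ UT)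
    (GE : ∀ j, j = 0 ∨ j = 2 → ∀ f ∈ UT, (∀ g g', f (g * g') = f g * rb ρ g' ^ j + f g') →
      (∀ g ∈ D, f g = 0) → f = 0)
    {U0 : Subgroup G} [U0.Normal] (hO : Fam.O U0) (hU0 : U0 ≤ lev ρ (4 * m))
    (hkill : ∀ f ∈ UT, ∀ u ∈ U0, f u = 0) {τ φ : Fin 4 → G} (T : TameData ρ U0 τ φ)
    (GO : ∀ j, j = 1 ∨ j = 3 → ∀ f ∈ UT, (∀ g g', f (g * g') = f g * rb ρ g' ^ j + f g') →
      (∀ g ∈ D, f g = 0) → (∀ i, f (τ i) = 0) → f (φ 0) = 0 → f = 0)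
    (κ : Fin (4 * 5 ^ (4 * (4 * m - 1))) → G → F5) (hκU : ∀ i, κ i ∈ UT)
    (hκ : ∀ i, InvHom (lev ρ (4 * m)) (zlev ρ (4 * m)) (κ i))
    (hind : ∀ e : Fin _ → F5, (∀ h ∈ lev ρ (4 * m), ∑ i, e i * κ i h = 0) → e = 0)
    (o : G → G → F5)
    (hoadd : ∀ h ∈ D, h ∈ lev ρ m → ∀ h' ∈ D, h' ∈ lev ρ m → ∀ a,
      o (h * h') a = o h a + o h' a)
    (hoD : ∀ d ∈ D, ∀ h ∈ D, h ∈ lev ρ m → ∀ a, o h (d * a) = o (d⁻¹ * h * d) a)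
    (hoZ : ∀ h ∈ D, h ∈ lev ρ m → ∀ a, ∀ z ∈ zlev ρ m, o h (a * z) = o h a)
    (hcts : ∃ V : Subgroup G, Fam.O V ∧ ∀ h ∈ D, h ∈ lev ρ m → h ∈ V → ∀ a, o h a = 0) :
    ∃ k ∈ UT, InvHom (lev ρ (4 * m)) (zlev ρ (4 * m)) k ∧
      ∀ h ∈ D, h ∈ lev ρ (4 * m) → ∀ a, k (a⁻¹ * h * a) = o h a := by
  have hn : 1 ≤ 4 * m := by omega
  let r : G →* F5ˣ := (rbH hC hΓ).toHomUnits
  have hr : ∀ g, (r g : F5) = rb ρ g := fun g => rfl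
  have hgam : gam ρ = ⊤ := (Subgroup.eq_top_iff' _).2 hΓ
  have hZ : (zlev ρ (4 * m)).index = 4 * 5 ^ (4 * (4 * m - 1)) := by
    rw [← (hG G ρ hD _ hn).2.1, hgam, Subgroup.relIndex_top_right]
  obtain ⟨a1, ha1⟩ := exists_diag hD (u := -1) (by decide)
  obtain ⟨T1, T2⟩ := T
  choose hτ hφ hdet Q hQ hrel using T1
  have hrel' : ∀ i, (τ i ^ Q i * φ i)⁻¹ * (φ i * τ i) ∈ U0 := fun i => by
    have := Subgroup.Normal.conj_mem' inferInstance _ (hrel i) (τ i ^ Q i * φ i)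
    rwa [show (τ i ^ Q i * φ i)⁻¹ * (φ i * τ i * (φ i)⁻¹ * (τ i ^ Q i)⁻¹) * (τ i ^ Q i * φ i) =
      (τ i ^ Q i * φ i)⁻¹ * (φ i * τ i) by group] at this
  have T : Tame D (lev ρ 1) (MM ρ) r UT U0 τ φ Q (fun _ => 4) 0 :=
    ⟨hτ, hφ, fun i => by
      rw [← Nat.div_add_mod (Q i) 25, hQ i]
      push_cast
      rw [show (25 : ZMod 5) = 0 from rfl, zero_mul, zero_add]
      rfl, hrel', fun _ => by decide,
      fun i => MM_comm (hτ i) (hφ i) (hQ i) (lev_anti ρ (by omega) (hU0 (hrel' i))),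
      fun i => MM_trace (hφ i) (hdet i), fun h => T2 (mem_lev_two (hτ 0) h), GO⟩
  refine STAR_full (P := lev ρ 1) (Gm := lev ρ m) (Zm := zlev ρ m) (e := 4 * m - 1)
    (lev_anti ρ hm) (lev_le_zlev ρ _) (zlev_anti ρ (by omega)) (lev_le_zlev ρ _)
    (lev_anti ρ (by omega)) (idx_zlev hG hD hm) (idx_zlev hG hD hn) hO hU0
    (by rw [idx_lev hG hD le_rfl hn]; positivity) (by rw [hZ]; positivity)
    (fun g hg h hh => MM_add hg hh) (MM_surj hD)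
    (fun g hg h0 => by
      have := fifth hD (mem_lev_two hg h0) (4 * m - 2)
      rwa [show 4 * m - 2 + 2 = 4 * m by omega] at this)
    (hG G ρ hD _ hn).2.2.2.2
    (fun a => ⟨_, _, red_mul_inv a, fun g hg => MM_conj a hg⟩) r
    (fun u => by
      obtain ⟨g, hg⟩ := exists_diag hD u.ne_zero
      exact ⟨g, Units.ext (rb_diag hg)⟩)
    (fun g hg => rb_ker hC hG hΓ hD hn (congrArg Units.val hg)) a1 (Units.ext (rb_diag ha1))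
    (fun g hg => MM_flip ha1 hg) UT hkill hUT0 hUTc
    (fun j hj => rank_wcoc r hr LS j hj) GE T κ hκU hκ hind ?_ o hoadd hoD hoZ hcts
  rw [hZ, idx_lev hG hD le_rfl hn, idx_lev hG hD hm (by omega), Fintype.card_fin, ← pow_mul,
    show 4 * (4 * m - m) = (4 * m - 1) * 3 + 3 by omega, pow_add]
  have : 0 < 5 ^ ((4 * m - 1) * 3) := by positivity
  omega

end TStar

open TStar in
theorem starS (hC : ChS) (hG : GrpS) : StarS := by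
  intro G _ ρ O D UT hD hDg hO hinf LS hext hconj GE GO UC m hm o hoadd hcts hoD hoZ
  have hn : 1 ≤ 4 * m := by omega
  let ρ' : gam ρ →* M2 := ρ.comp (gam ρ).subtype
  letI : Fam (gam ρ) := ⟨fun V => ∃ U, O U ∧ V = U.subgroupOf (gam ρ), ⟨⊤, hO, rfl⟩, by
    rintro _ _ ⟨U, hU, rfl⟩ ⟨V, hV, rfl⟩
    exact ⟨U ⊓ V, hinf U V hU hV, rfl⟩⟩
  have hD' : Dens ρ' := fun A h1 h2 h3 h4 n => by
    obtain ⟨g, hg⟩ := hD A h1 h2 h3 h4 (n + 1)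
    have h5 := MC.mono hg (Nat.le_add_left 1 n)
    have h6 : ∀ i j, (5 : ℤ_[5]) ∣ A i j → (5 : ℤ_[5]) ∣ ρ g i j := fun i j h => by
      have := h5 i j
      rw [pow_one] at this
      exact (dvd_sub_left h).1 this
    exact ⟨⟨g, h6 0 1 h1, h6 1 0 h2⟩, MC.mono hg (Nat.le_succ n)⟩
  let ex : (gam ρ → F5) → G → F5 := fun f g => if hg : g ∈ gam ρ then f ⟨g, hg⟩ else 0
  have hex : ∀ f g (hg : g ∈ gam ρ), ex f g = f ⟨g, hg⟩ := fun f g hg => dif_pos hg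
  have LS' : LSH ρ' Fam.O (D.subgroupOf (gam ρ)) := fun j hj => by
    obtain ⟨c₁, c₂, h⟩ := LS j hj
    refine ⟨fun g => c₁ g, fun g => c₂ g, fun c h1 ⟨_, ⟨U, hU, rfl⟩, h2⟩ => ?_⟩
    obtain ⟨s, t, e⟩ := h (ex c) (fun g hg g' hg' => by
      rw [hex c g (hDg hg), hex c g' (hDg hg'), hex c _ (hDg (D.mul_mem hg hg'))]
      exact h1 ⟨g, hDg hg⟩ hg ⟨g', hDg hg'⟩ hg')
      ⟨U, hU, fun g hg hu => by rw [hex c g (hDg hg)]; exact h2 ⟨g, hDg hg⟩ hg hu⟩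
    exact ⟨s, t, fun g hg => (hex c g g.2).symm.trans (e g hg)⟩
  obtain ⟨U0, hN, hO0, hU0, hkill, τ, φ, ⟨T1, T2⟩, GO⟩ := GO (4 * m) (by omega)
  obtain ⟨κ, hκ, hind⟩ := UC (4 * m) hn
  let UT' : Submodule F5 (gam ρ → F5) :=
    (UT (4 * m)).map (LinearMap.funLeft F5 F5 ((↑) : gam ρ → G))
  have hg1 : lev ρ 1 ≤ gam ρ := lev_le_gam ρ le_rfl
  have hgn : lev ρ (4 * m) ≤ gam ρ := lev_le_gam ρ hn
  obtain ⟨_, ⟨k, hk, rfl⟩, hk1, hk2⟩ := core (ρ := ρ') hC hG (fun g => g.2) hD' LS' hm UT'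
    (fun f hf => ⟨ex f, hext _ hn 0 (zero_mem _) _ fun h hh =>
      (hex f h (hgn hh)).trans (hf ⟨h, hgn hh⟩ hh), funext fun g => hex f g g.2⟩)
    (by
      rintro _ ⟨f, hf, rfl⟩ a
      exact ⟨_, hconj _ hn f hf a a.2, rfl⟩)
    (by
      rintro j hj _ ⟨f, hf, rfl⟩ h1 h2
      exact funext fun g => GE _ hn j hj f hf (fun g hg g' hg' => h1 ⟨g, hg⟩ ⟨g', hg'⟩)
        (fun g hg => h2 ⟨g, hDg hg⟩ hg) g g.2)
    (U0 := U0.subgroupOf (gam ρ)) ⟨U0, hO0, rfl⟩ (fun u hu => hU0 hu)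
    (by
      rintro _ ⟨f, hf, rfl⟩ u hu
      exact hkill f hf u hu)
    (τ := fun i => ⟨τ i, hg1 (T1 i).1⟩) (φ := fun i => ⟨φ i, hg1 (T1 i).2.1⟩) ⟨T1, T2⟩
    (by
      rintro j hj _ ⟨f, hf, rfl⟩ h1 h2 h3 h4
      exact funext fun g => GO j hj f hf (fun g hg g' hg' => h1 ⟨g, hg⟩ ⟨g', hg'⟩)
        (fun g hg => h2 ⟨g, hDg hg⟩ hg) h3 h4 g g.2)
    (fun i g => κ i g) (fun i => ⟨κ i, (hκ i).1, rfl⟩)
    (fun i => ⟨fun h hh h' hh' => (hκ i).2.1 h hh h' hh', fun h hh z hz => (hκ i).2.2 z hz h hh⟩)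
    (fun e he => hind e fun h hh => he ⟨h, hgn hh⟩ hh) (fun h a => o h a)
    (fun h hd hh h' hd' hh' a => hoadd a a.2 h ⟨hd, hh⟩ h' ⟨hd', hh'⟩)
    (fun d hd h hd' hh a => hoD h ⟨hd', hh⟩ d hd a a.2)
    (fun h hd hh a z hz => hoZ h ⟨hd, hh⟩ a a.2 z hz)
    (by
      obtain ⟨V, hV, h⟩ := hcts
      exact ⟨_, ⟨V, hV, rfl⟩, fun g hd hg hv a => h g ⟨hd, hg⟩ hv a a.2⟩)
  exact ⟨4 * m, by omega, k, hk,
    fun h hh h' hh' => hk1.add ⟨h, hgn hh⟩ hh ⟨h', hgn hh'⟩ hh',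
    fun z hz h hh => hk1.conj ⟨h, hgn hh⟩ hh ⟨z, zlev_le_gam ρ hn hz⟩ hz,
    fun h hh a ha => hk2 ⟨h, hgn hh.2⟩ hh.1 hh.2 ⟨a, ha⟩⟩

end Pool.Agent.Lib.MP_54db3e_nt
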