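import Pool.Agent.Lib.MP_54db3e_nt.Stmt

/-!
The surjectivity theorem for the absolute Galois group of the rationals.
-/

open scoped Classical

noncomputable section

namespace Pool.Agent.Lib.MP_54db3e_nt

namespace TStarQ

theorem opn_top : Opn ⊤ := ⟨∅, fun _ _ => trivial⟩

theorem opn_inf (U V : Subgroup GQ) (hU : Opn U) (hV : Opn V) : Opn (U ⊓ V) := by
  obtain ⟨s, hs⟩ := hU
  obtain ⟨t, ht⟩ := hV
  exact ⟨s ∪ t, fun g hg => ⟨hs g fun x hx => hg x (Finset.mem_union_left _ hx),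
    ht g fun x hx => hg x (Finset.mem_union_right _ hx)⟩⟩

theorem fx_z (hCh : ChS) (d : Rep) : Fx (lev d.ρ 1) d.z := fun g hg => by
  obtain ⟨h0, h1, h2⟩ := ((hCh GQ d.ρ).2.2.1 g).1 hg
  rw [d.act_z g h0, om, h1, h2, mul_one, ZMod.val_one, pow_one]

end TStarQ

open TStarQ in
theorem starQS (hCh : ChS) (hRad : RadS) (hStar : StarS) (hC5 : C5S) (hDens : DensS)
    (hUt : UtS) (hLs : LsS) (hGe : GeS) (hTd : TdS) (hGo : GoS) (hUc : UcS) : StarQS := by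
  intro d ι hι
  refine hStar GQ d.ρ Opn (Dec ι) d.UT (hDens d) (hC5.2.2.2.1 d ι).1 opn_top opn_inf (hLs d ι hι)
    (fun n hn => (hUt d _ (lev_normal d.ρ n) (lev_anti d.ρ hn)).2.1)
    (fun n hn κ hκ a _ => (hUt d _ (lev_normal d.ρ n) (lev_anti d.ρ hn)).2.2.1 κ hκ a)
    (hGe d ι hι) (fun n hn => ?_) (hUc d)
  obtain ⟨U, hN, hO, hle, hfix, hk, h5⟩ := hRad d.z d.hz.pow_eq_one (lev d.ρ n) d.hz
    (lev_normal d.ρ n) (d.opn_lev n) fun g hg => fx_z hCh d g (lev_anti d.ρ (by omega) hg)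
  obtain ⟨τ, φ, hT, hD⟩ := hTd d U hN hO (hle.trans (lev_anti d.ρ hn)) fun g hg =>
    ⟨n + 1, by
      rw [pow_succ, pow_mul]
      exact h5 _ (lev_anti d.ρ (Nat.le_succ n) ((hCh GQ d.ρ).2.2.2.2.2 n g hg))⟩
  exact ⟨U, hN, hO, hle, hk, τ, φ, hT, hGo d ι hι n (by omega) U hN hle hfix τ φ
    (fun i => ⟨(hT.1 i).1, (hT.1 i).2.1⟩) hD⟩

end Pool.Agent.Lib.MP_54db3e_nt
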