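import Pool.Agent.Lib.MP_54db3e_nt.Stmt

/-!
Tame inertia generator and Frobenius.
-/

open scoped Classical
open IntermediateField NumberField

noncomputable section

namespace Pool.Agent.Lib.MP_54db3e_nt

namespace TTame

variable {l : ℕ} [Fact l.Prime]

theorem lt_add {a b : Om l} {r : ℝ} (ha : ‖a‖ < r) (hb : ‖b‖ < r) : ‖a + b‖ < r :=
  (IsUltrametricDist.norm_add_le_max a b).trans_lt (max_lt ha hb)

theorem le_add {a b : Om l} {r : ℝ} (ha : ‖a‖ ≤ r) (hb : ‖b‖ ≤ r) : ‖a + b‖ ≤ r :=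
  (IsUltrametricDist.norm_add_le_max a b).trans (max_le ha hb)

theorem norm_l : ‖(l : Om l)‖ < 1 := by
  have h := PadicAlgCl.norm_extends l (l : ℚ_[l])
  rw [map_natCast] at h
  rw [h]
  exact Padic.norm_p_lt_one

theorem norm_five (hl : l ≠ 5) : ‖(5 : Om l)‖ = 1 := by
  have h := PadicAlgCl.norm_extends l ((5 : ℕ) : ℚ_[l])
  rw [map_natCast] at h
  have h2 : ‖((5 : ℕ) : ℚ_[l])‖ = 1 := by
    rw [Padic.norm_natCast_eq_one_iff]
    exact (Nat.coprime_primes Fact.out Nat.prime_five).2 hl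
  rw [h2] at h
  exact_mod_cast h

theorem eq_one_of {a b : Om l} (hb : ‖b‖ = 1) (h : ‖a - b‖ < 1) : ‖a‖ = 1 := by
  have e : a = (a - b) + b := by ring
  rw [e, IsUltrametricDist.norm_add_eq_max_of_norm_ne_norm (by rw [hb]; exact h.ne), hb]
  exact max_eq_right h.le

/-- the prime of a number field given by an embedding -/
def prm {K : Type} [Field K] (j : K →+* Om l) (hint : ∀ x : K, IsIntegral ℤ x → ‖j x‖ ≤ 1) :
    Ideal (𝓞 K) where
  carrier := {x | ‖j (x : K)‖ < 1}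
  add_mem' := fun {a b} ha hb => by
    show ‖j ((a + b : 𝓞 K) : K)‖ < 1
    rw [RingOfIntegers.coe_eq_algebraMap, map_add, map_add]
    exact lt_add ha hb
  zero_mem' := by
    show ‖j ((0 : 𝓞 K) : K)‖ < 1
    simp
  smul_mem' := fun c x hx => by
    show ‖j ((c * x : 𝓞 K) : K)‖ < 1
    rw [RingOfIntegers.coe_eq_algebraMap, map_mul, map_mul, norm_mul]
    exact mul_lt_one_of_nonneg_of_lt_one_right (hint _ c.isIntegral_coe) (norm_nonneg _) hx

theorem nf {K : Type} [Field K] [NumberField K] [IsGalois ℚ K] (j : K →+* Om l)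
    (hint : ∀ x : K, IsIntegral ℤ x → ‖j x‖ ≤ 1) :
    (∃ π : K, π ≠ 0 ∧ ‖j π‖ < 1 ∧ ∀ t, ‖j t‖ < 1 → ‖j t‖ ≤ ‖j π‖) ∧
      ∃ σ : K ≃ₐ[ℚ] K, ∀ x, ‖j x‖ ≤ 1 → ‖j (σ x - x ^ l)‖ < 1 := by
  have hmem : ∀ x : 𝓞 K, x ∈ prm j hint ↔ ‖j (algebraMap (𝓞 K) K x)‖ < 1 := fun x => Iff.rfl
  have hle : ∀ x : 𝓞 K, ‖j (algebraMap (𝓞 K) K x)‖ ≤ 1 := fun x => hint _ x.isIntegral_coe
  have hone : ∀ x : 𝓞 K, x ∉ prm j hint → ‖j (algebraMap (𝓞 K) K x)‖ = 1 := fun x hx =>
    le_antisymm (hle x) (not_lt.1 hx)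
  have hpr : (prm j hint).IsPrime := ⟨by
      rw [Ideal.ne_top_iff_one, hmem]; simp, fun {a b} hab => by
      by_contra hc
      push Not at hc
      rw [hmem, map_mul, map_mul, norm_mul, hone a hc.1, hone b hc.2] at hab
      simp at hab⟩
  have hl : ((l : ℕ) : 𝓞 K) ∈ prm j hint := by
    rw [hmem, map_natCast, map_natCast]; exact norm_l
  have hl0 : ((l : ℕ) : 𝓞 K) ≠ 0 := Nat.cast_ne_zero.2 (Fact.out : l.Prime).ne_zero
  have hne : prm j hint ≠ ⊥ := fun h => hl0 (by rw [h] at hl; exact hl)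
  let v : IsDedekindDomain.HeightOneSpectrum (𝓞 K) := ⟨prm j hint, hpr, hne⟩
  have hfrac : ∀ x : K, ‖j x‖ ≤ 1 → ∃ n d : 𝓞 K, d ∉ prm j hint ∧
      x * algebraMap (𝓞 K) K d = algebraMap (𝓞 K) K n := by
    intro x hx
    obtain ⟨n, ⟨d, hd⟩, h | h⟩ := v.exists_primeCompl_mul_eq_or_mul_eq x
    · exact ⟨n, d, hd, h⟩
    · refine ⟨d, n, fun hn => ?_, h⟩
      have h1 := hone d hd
      have h2 : ‖j x‖ * ‖j (algebraMap (𝓞 K) K n)‖ = 1 := by
        rw [← norm_mul, ← map_mul, h]; exact h1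
      have h3 := mul_lt_one_of_nonneg_of_lt_one_right hx (norm_nonneg _) ((hmem n).1 hn)
      exact h3.ne h2
  have hv : ∀ x : K, v.valuation K x ≤ 1 → ‖j x‖ ≤ 1 := by
    intro x hx
    obtain ⟨n, ⟨d, hd⟩, h⟩ := v.exists_primeCompl_mul_eq_of_integer x hx
    have h2 : ‖j x‖ * ‖j (algebraMap (𝓞 K) K d)‖ = ‖j (algebraMap (𝓞 K) K n)‖ := by
      rw [← norm_mul, ← map_mul, h]
    rw [hone d hd, mul_one] at h2
    rw [h2]; exact hle n
  constructor
  · obtain ⟨π, hπ⟩ : ∃ π : 𝓞 K, v.valuation K (algebraMap (𝓞 K) K π) = WithZero.exp (-1) :=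
      v.valuation_exists_uniformizer' K
    have hπ0 : algebraMap (𝓞 K) K π ≠ 0 := by
      intro h
      rw [h, map_zero] at hπ
      exact WithZero.exp_ne_zero hπ.symm
    have hπ1 : π ∈ prm j hint := by
      have : v.valuation K (algebraMap (𝓞 K) K π) < 1 := by
        rw [hπ, ← WithZero.exp_zero, WithZero.exp_lt_exp]; norm_num
      exact (v.valuation_lt_one_iff_mem π).1 this
    refine ⟨algebraMap (𝓞 K) K π, hπ0, (hmem π).1 hπ1, fun t ht => ?_⟩
    by_cases ht0 : t = 0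
    · rw [ht0]; simp
    have h1 : v.valuation K t < 1 := by
      by_contra hc
      have h2 : v.valuation K t⁻¹ ≤ 1 := by
        rw [map_inv₀]; exact inv_le_one_of_one_le₀ (not_lt.1 hc)
      have h3 := hv _ h2
      rw [map_inv₀, norm_inv] at h3
      have h4 : 0 < ‖j t‖ := norm_pos_iff.2 ((map_ne_zero j).2 ht0)
      rw [inv_le_one₀ h4] at h3
      exact absurd ht (not_lt.2 h3)
    have h2 : v.valuation K (t / algebraMap (𝓞 K) K π) ≤ 1 := by
      rw [map_div₀, hπ]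
      refine div_le_one_of_le₀ ?_ zero_le
      have h0 : v.valuation K t ≠ 0 := (Valuation.ne_zero_iff _).2 ht0
      rw [← WithZero.exp_zero, ← WithZero.log_lt_iff_lt_exp h0] at h1
      exact WithZero.le_exp_of_log_le (by omega)
    have h3 := hv _ h2
    rw [map_div₀, norm_div, div_le_one (norm_pos_iff.2 ((map_ne_zero j).2 hπ0))] at h3
    exact h3
  · have hfin : Finite (𝓞 K ⧸ prm j hint) := Ideal.finiteQuotientOfFreeOfNeBot _ hne
    obtain ⟨σ, hσ⟩ := IsArithFrobAt.exists_of_isInvariant ℤ (K ≃ₐ[ℚ] K) (prm j hint)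
    have hu : (prm j hint).under ℤ = Ideal.span {(l : ℤ)} := by
      have hmax : (Ideal.span {(l : ℤ)}).IsMaximal :=
        PrincipalIdealRing.isMaximal_of_irreducible
          (Nat.prime_iff_prime_int.1 (Fact.out : l.Prime)).irreducible
      refine (hmax.eq_of_le (Ideal.IsPrime.under ℤ (prm j hint)).ne_top ?_).symm
      rw [Ideal.span_singleton_le_iff_mem, Ideal.mem_comap, map_natCast]
      exact hl
    have hcard : Nat.card (ℤ ⧸ (prm j hint).under ℤ) = l := by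
      rw [hu, Nat.card_congr (Int.quotientSpanNatEquivZMod l).toEquiv, Nat.card_zmod]
    have hσ' : ∀ x : 𝓞 K, ‖j (σ (algebraMap (𝓞 K) K x)) - j (algebraMap (𝓞 K) K x) ^ l‖ < 1 := by
      intro x
      have h := (hmem _).1 (hσ x)
      rw [hcard, map_sub, map_sub, map_pow, map_pow] at h
      exact h
    refine ⟨σ, fun x hx => ?_⟩
    obtain ⟨n, d, hd, h⟩ := hfrac x hx
    have hd1 := hone d hd
    have hdl : ‖j (algebraMap (𝓞 K) K d) ^ l‖ = 1 := by rw [norm_pow, hd1, one_pow]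
    have hsd : ‖j (σ (algebraMap (𝓞 K) K d))‖ = 1 := eq_one_of hdl (hσ' d)
    have e1 : j (σ x) * j (σ (algebraMap (𝓞 K) K d)) = j (σ (algebraMap (𝓞 K) K n)) := by
      rw [← map_mul, ← map_mul, h]
    have e2 : j x ^ l * j (algebraMap (𝓞 K) K d) ^ l = j (algebraMap (𝓞 K) K n) ^ l := by
      rw [← mul_pow, ← map_mul, h]
    have e3 : (j (σ x) - j x ^ l) * j (σ (algebraMap (𝓞 K) K d)) =
        (j (σ (algebraMap (𝓞 K) K n)) - j (algebraMap (𝓞 K) K n) ^ l) +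
          -(j x ^ l * (j (σ (algebraMap (𝓞 K) K d)) - j (algebraMap (𝓞 K) K d) ^ l)) := by
      linear_combination e1 - e2
    have h4 : ‖(j (σ x) - j x ^ l) * j (σ (algebraMap (𝓞 K) K d))‖ < 1 := by
      rw [e3]
      refine lt_add (hσ' n) ?_
      rw [norm_neg, norm_mul, norm_pow]
      exact mul_lt_one_of_nonneg_of_lt_one_right (pow_le_one₀ (norm_nonneg _) hx)
        (norm_nonneg _) (hσ' d)
    rw [norm_mul, hsd, mul_one] at h4
    rw [map_sub, map_pow]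
    exact h4

/-- the closed unit ball -/
def ball (l : ℕ) [Fact l.Prime] : Subring (Om l) where
  carrier := {x | ‖x‖ ≤ 1}
  mul_mem' := fun {a b} ha hb => by
    show ‖a * b‖ ≤ 1
    rw [norm_mul]; exact mul_le_one₀ ha (norm_nonneg _) hb
  one_mem' := by show ‖(1 : Om l)‖ ≤ 1; simp
  add_mem' := fun ha hb => le_add ha hb
  zero_mem' := by show ‖(0 : Om l)‖ ≤ 1; simp
  neg_mem' := fun {a} ha => by show ‖-a‖ ≤ 1; rw [norm_neg]; exact ha

/-- the open unit ball -/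
def opn (l : ℕ) [Fact l.Prime] : Ideal (ball l) where
  carrier := {x | ‖(x : Om l)‖ < 1}
  add_mem' := fun ha hb => lt_add ha hb
  zero_mem' := by show ‖(0 : Om l)‖ < 1; simp
  smul_mem' := fun c x hx => by
    show ‖(c : Om l) * x‖ < 1
    rw [norm_mul]
    exact mul_lt_one_of_nonneg_of_lt_one_right c.2 (norm_nonneg _) hx

instance opn_prime : (opn l).IsPrime := ⟨by
    rw [Ideal.ne_top_iff_one]
    show ¬ ‖(1 : Om l)‖ < 1
    simp, fun {a b} hab => by
    by_contra hc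
    push Not at hc
    have ha : ‖(a : Om l)‖ = 1 := le_antisymm a.2 (not_lt.1 hc.1)
    have hb : ‖(b : Om l)‖ = 1 := le_antisymm b.2 (not_lt.1 hc.2)
    have h : ‖(a : Om l) * b‖ < 1 := hab
    rw [norm_mul, ha, hb] at h
    simp at h⟩

/-- reduction -/
def red (x : Om l) : ball l ⧸ opn l :=
  if h : ‖x‖ ≤ 1 then Ideal.Quotient.mk (opn l) ⟨x, h⟩ else 0

theorem red_mul {x y : Om l} (hx : ‖x‖ ≤ 1) (hy : ‖y‖ ≤ 1) : red (x * y) = red x * red y := by
  have hxy : ‖x * y‖ ≤ 1 := (ball l).mul_mem hx hy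
  simp only [red, hx, hy, hxy, dif_pos]
  rfl

theorem red_one : red (1 : Om l) = 1 := by
  have h : ‖(1 : Om l)‖ ≤ 1 := by simp
  simp only [red, h, dif_pos]
  rfl

theorem red_pow {x : Om l} (hx : ‖x‖ ≤ 1) (n : ℕ) : red (x ^ n) = red x ^ n := by
  induction n with
  | zero => simp [red_one]
  | succ n ih =>
    rw [pow_succ, red_mul (by rw [norm_pow]; exact pow_le_one₀ (norm_nonneg _) hx) hx, ih,
      pow_succ]

theorem red_eq {x y : Om l} (hx : ‖x‖ ≤ 1) (hy : ‖y‖ ≤ 1) : red x = red y ↔ ‖x - y‖ < 1 := by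
  simp only [red, hx, hy, dif_pos]
  rw [Ideal.Quotient.eq]
  rfl

section Fix

variable {U : Subgroup GQ}

theorem fx_map (hU : U.Normal) {x : Qb} (hx : Fx U x) (g : GQ) : Fx U (g x) := fun u hu => by
  have h := hx _ (hU.conj_mem' u hu g)
  have e : u (g x) = g ((g⁻¹ * u * g) x) := by simp [AlgEquiv.mul_apply]
  rw [e, h]

theorem fx_mul {x y : Qb} (hx : Fx U x) (hy : Fx U y) : Fx U (x * y) := fun u hu => by
  rw [map_mul, hx u hu, hy u hu]

theorem fx_sub {x y : Qb} (hx : Fx U x) (hy : Fx U y) : Fx U (x - y) := fun u hu => by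
  rw [map_sub, hx u hu, hy u hu]

theorem fx_inv {x : Qb} (hx : Fx U x) : Fx U x⁻¹ := fun u hu => by
  rw [map_inv₀, hx u hu]

theorem fx_div {x y : Qb} (hx : Fx U x) (hy : Fx U y) : Fx U (x / y) := fun u hu => by
  rw [map_div₀, hx u hu, hy u hu]

theorem fx_zpow {x : Qb} (hx : Fx U x) (k : ℤ) : Fx U (x ^ k) := fun u hu => by
  rw [map_zpow₀, hx u hu]

end Fix

theorem galQb : IsGalois ℚ Qb := by
  have : Algebra.IsAlgebraic ℚ Qb := AlgebraicClosure.isAlgebraic ℚ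
  have : IsAlgClosure ℚ Qb := ⟨inferInstance, inferInstance⟩
  exact {}

theorem inv_app (g : GQ) (x : Qb) : g (g⁻¹ x) = x := by
  rw [← AlgEquiv.mul_apply, mul_inv_cancel, AlgEquiv.one_apply]

/-- averaging: an element of order prime to `l` that moves everything a little is trivial -/
theorem avg (hl : l ≠ 5) (ι : Qb →+* Om l) {U : Subgroup GQ} (hU : U.Normal) (g : GQ) (k : ℕ)
    (hk : g ^ 5 ^ k ∈ U) (hg : ∀ y, Fx U y → y ≠ 0 → ‖ι (g y - y)‖ < ‖ι y‖) (x : Qb)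
    (hx : Fx U x) : g x = x := by
  by_contra hne
  obtain ⟨y, hyd⟩ : ∃ y, y = g x - x := ⟨_, rfl⟩
  have hy0 : y ≠ 0 := hyd ▸ sub_ne_zero.2 hne
  have hy : Fx U y := hyd ▸ fx_sub (fx_map hU hx g) hx
  have hpos : 0 < ‖ι y‖ := norm_pos_iff.2 ((map_ne_zero ι).2 hy0)
  have h1 : ∀ i : ℕ, ‖ι ((g ^ i) y - y)‖ < ‖ι y‖ := by
    intro i
    induction i with
    | zero => simpa using hpos
    | succ i ih =>
      have hz : ‖ι ((g ^ i) y)‖ = ‖ι y‖ := by
        have e : ι ((g ^ i) y) = ι ((g ^ i) y - y) + ι y := by rw [map_sub]; ring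
        rw [e, IsUltrametricDist.norm_add_eq_max_of_norm_ne_norm ih.ne]
        exact max_eq_right ih.le
      have h2 := hg ((g ^ i) y) (fx_map hU hy _) ((map_ne_zero _).2 hy0)
      rw [hz] at h2
      have e : ι ((g ^ (i + 1)) y - y) = ι (g ((g ^ i) y) - (g ^ i) y) + ι ((g ^ i) y - y) := by
        rw [pow_succ', AlgEquiv.mul_apply]; simp only [map_sub]; ring
      rw [e]
      exact lt_add h2 ih
  have h2 : ∀ n : ℕ, ‖ι ((g ^ n) x - x) - n * ι y‖ < ‖ι y‖ := by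
    intro n
    induction n with
    | zero => simpa using hpos
    | succ n ih =>
      have e : ι ((g ^ (n + 1)) x - x) - ((n + 1 : ℕ) : Om l) * ι y =
          (ι ((g ^ n) x - x) - n * ι y) + ι ((g ^ n) y - y) := by
        rw [pow_succ, AlgEquiv.mul_apply, hyd]; simp only [map_sub]; push_cast; ring
      rw [e]
      exact lt_add ih (h1 n)
  have h3 := h2 (5 ^ k)
  rw [hx _ hk, sub_self, map_zero, zero_sub, norm_neg, norm_mul] at h3
  push_cast at h3
  rw [norm_pow, norm_five hl, one_pow, one_mul] at h3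
  exact lt_irrefl _ h3

end TTame

open TTame in
theorem tameS (hF : FgS) (hE : EmbS) (hC : CyclS) : TameS := by
  intro l _ hl5 ι U B hU hO hB hUB h5
  have := galQb
  obtain ⟨hfd, hrk, hfix, -, hgal, -⟩ := (hF ℚ Qb).1 U hO
  have hgal := hgal hU
  obtain ⟨-, hnorm, hmul⟩ := hC l ι U hU hO
  have hint := hE.2.2.2.2.2.2.1 l ι
  have : NumberField (fixedField U) := ⟨⟩
  have hfx : ∀ x : Qb, x ∈ fixedField U ↔ Fx U x := fun x => mem_fixedField_iff U x
  obtain ⟨⟨π₀, hπ0, hπ1, hπ2⟩, σ, hσ⟩ := @nf l _ (fixedField U) _ _ hgal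
    (ι.comp (algebraMap (fixedField U) Qb)) (fun x hx => hint _ (hx.map (fixedField U).val))
  obtain ⟨π, hπf, hπ0, hπ1, hπ2⟩ : ∃ π : Qb, Fx U π ∧ π ≠ 0 ∧ ‖ι π‖ < 1 ∧
      ∀ t, Fx U t → ‖ι t‖ < 1 → ‖ι t‖ ≤ ‖ι π‖ :=
    ⟨π₀, (hfx _).1 π₀.2, fun h => hπ0 (Subtype.ext h), hπ1,
      fun t ht h => hπ2 ⟨t, (hfx t).2 ht⟩ h⟩
  obtain ⟨φ, hφ⟩ : ∃ φ : GQ, ∀ x, Fx U x → ‖ι x‖ ≤ 1 → ‖ι (φ x - x ^ l)‖ < 1 := by
    refine ⟨σ.liftNormal Qb, fun x hx h => ?_⟩
    have h1 := hσ ⟨x, (hfx x).2 hx⟩ h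
    have h2 := σ.liftNormal_commutes Qb ⟨x, (hfx x).2 hx⟩
    rw [RingHom.comp_apply, map_sub, map_pow, ← h2] at h1
    exact h1
  clear hσ
  have hpos : ∀ {x : Qb}, x ≠ 0 → 0 < ‖ι x‖ := fun hx => norm_pos_iff.2 ((map_ne_zero ι).2 hx)
  have hl0 : l ≠ 0 := (Fact.out : l.Prime).ne_zero
  -- the Frobenius element respects the order of norms
  have hφlt : ∀ x, Fx U x → ‖ι x‖ < 1 → ‖ι (φ x)‖ < 1 := fun x hx h => by
    have e : ι (φ x) = ι (φ x - x ^ l) + ι x ^ l := by rw [map_sub, map_pow]; ring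
    rw [e]
    exact lt_add (hφ x hx h.le) (by rw [norm_pow]; exact pow_lt_one₀ (norm_nonneg _) h hl0)
  have hφle : ∀ x, Fx U x → ‖ι x‖ ≤ 1 → ‖ι (φ x)‖ ≤ 1 := fun x hx h => by
    have e : ι (φ x) = ι (φ x - x ^ l) + ι x ^ l := by rw [map_sub, map_pow]; ring
    rw [e]
    exact le_add (hφ x hx h).le (by rw [norm_pow]; exact pow_le_one₀ (norm_nonneg _) h)
  have hφle' : ∀ x, Fx U x → ‖ι x‖ ≤ 1 → ‖ι (φ⁻¹ x)‖ ≤ 1 := fun x hx h => by
    by_contra hc
    have hc := not_le.1 hc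
    have hx0 : x ≠ 0 := by
      rintro rfl
      rw [map_zero, map_zero, norm_zero] at hc
      exact absurd hc (by norm_num)
    have h1 := hφlt (φ⁻¹ x)⁻¹ (fx_inv (fx_map hU hx _))
      (by rw [map_inv₀, norm_inv]; exact inv_lt_one_of_one_lt₀ hc)
    rw [map_inv₀, inv_app, map_inv₀, norm_inv, inv_lt_one₀ (hpos hx0)] at h1
    exact absurd h (not_le.2 h1)
  have hφlt' : ∀ x, Fx U x → ‖ι x‖ < 1 → ‖ι (φ⁻¹ x)‖ < 1 := fun x hx h => by
    by_contra hc
    have hc := not_lt.1 hc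
    have hx0 : x ≠ 0 := by
      rintro rfl
      rw [map_zero, map_zero, norm_zero] at hc
      exact absurd hc (by norm_num)
    have h1 := hφle (φ⁻¹ x)⁻¹ (fx_inv (fx_map hU hx _))
      (by rw [map_inv₀, norm_inv]; exact inv_le_one_of_one_le₀ hc)
    rw [map_inv₀, inv_app, map_inv₀, norm_inv, inv_le_one₀ (hpos hx0)] at h1
    exact absurd h (not_lt.2 h1)
  -- the group
  let I : Subgroup GQ :=
    { carrier := {g | Inert ι U g ∧ g ∈ B}
      one_mem' := ⟨fun x _ _ => by simp, B.one_mem⟩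
      mul_mem' := fun ha hb => ⟨hmul _ _ ha.1 hb.1, B.mul_mem ha.2 hb.2⟩
      inv_mem' := fun {g} hg => ⟨fun x hx h => by
        have h1 := hnorm g hg.1 _ (fx_map hU hx g⁻¹)
        rw [inv_app] at h1
        have h2 := hg.1 _ (fx_map hU hx g⁻¹) (h1 ▸ h)
        rw [inv_app] at h2
        rw [← neg_sub, map_neg, norm_neg]
        exact h2, B.inv_mem hg.2⟩ }
  have hq : ∀ g, Inert ι U g → ∀ x, Fx U x → x ≠ 0 → ‖ι (g x / x)‖ = 1 := fun g hg x hx h0 => by
    rw [map_div₀, norm_div, hnorm g hg x hx, div_self (hpos h0).ne']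
  have hred : ∀ g, Inert ι U g → ∀ x, Fx U x → ‖ι x‖ ≤ 1 → red (ι (g x)) = red (ι x) :=
    fun g hg x hx h => by
      rw [red_eq (by rw [hnorm g hg x hx]; exact h) h, ← map_sub]
      exact hg x hx h
  have hunit : ∀ g, Inert ι U g → ∀ x, Fx U x → ‖ι x‖ = 1 → red (ι (g x / x)) = 1 :=
    fun g hg x hx h => by
      have h0 : x ≠ 0 := by
        rintro rfl
        simp at h
      rw [← red_one, red_eq (hq g hg x hx h0).le (by simp)]
      have e : ι (g x / x) - 1 = ι (g x - x) / ι x := by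
        rw [map_div₀, map_sub, sub_div, div_self ((map_ne_zero ι).2 h0)]
      rw [e, norm_div, h, div_one]
      exact hg x hx h.le
  have hqm : ∀ g, Inert ι U g → ∀ x y, Fx U x → Fx U y → x ≠ 0 → y ≠ 0 →
      red (ι (g (x * y) / (x * y))) = red (ι (g x / x)) * red (ι (g y / y)) :=
    fun g hg x y hx hy hx0 hy0 => by
      rw [← red_mul (hq g hg x hx hx0).le (hq g hg y hy hy0).le, ← map_mul, map_mul g,
        div_mul_div_comm]
  let θ : I →* ball l ⧸ opn l :=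
    { toFun := fun g => red (ι ((g : GQ) π / π))
      map_one' := by
        show red (ι ((1 : GQ) π / π)) = 1
        rw [AlgEquiv.one_apply, div_self hπ0, map_one, red_one]
      map_mul' := fun g h => by
        show red (ι (((g : GQ) * (h : GQ)) π / π)) = _
        have hfh : Fx U ((h : GQ) π / π) := fx_div (fx_map hU hπf _) hπf
        have e : ((g : GQ) * (h : GQ)) π / π = ((g : GQ) π / π) * (g : GQ) ((h : GQ) π / π) := by
          have : (g : GQ) π ≠ 0 := (map_ne_zero _).2 hπ0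
          rw [AlgEquiv.mul_apply, map_div₀]; field_simp
        have h1 := (hq _ h.2.1 π hπf hπ0).le
        rw [e, map_mul, red_mul (hq _ g.2.1 π hπf hπ0).le
          (by rw [hnorm _ g.2.1 _ hfh]; exact h1), hred _ g.2.1 _ hfh h1] }
  have hθ : ∀ g : I, θ g = red (ι ((g : GQ) π / π)) := fun g => rfl
  have hker : ∀ g : I, θ g = 1 → (g : GQ) ∈ U := by
    intro g hg
    rw [hθ] at hg
    have hz : ∀ k : ℤ, red (ι ((g : GQ) (π ^ k) / π ^ k)) = 1 := by
      intro k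
      induction k using Int.induction_on with
      | zero => simp [red_one]
      | succ k ih =>
        rw [zpow_add_one₀ hπ0, hqm _ g.2.1 _ _ (fx_zpow hπf _) hπf (zpow_ne_zero _ hπ0) hπ0, ih,
          hg, mul_one]
      | pred k ih =>
        have e : π ^ (-(k : ℤ)) = π ^ (-(k : ℤ) - 1) * π := by
          rw [← zpow_add_one₀ hπ0]; congr 1; ring
        rw [e, hqm _ g.2.1 _ _ (fx_zpow hπf _) hπf (zpow_ne_zero _ hπ0) hπ0, hg, mul_one] at ih
        exact ih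
    obtain ⟨k, hk⟩ := h5 g g.2.2
    rw [← hfix, IntermediateField.mem_fixingSubgroup_iff]
    intro x hx
    refine avg hl5 ι hU g k hk (fun y hy hy0 => ?_) x ((hfx x).1 hx)
    obtain ⟨m, hm1, hm2⟩ := exists_mem_Ioc_zpow (hpos hy0) ((one_lt_inv₀ (hpos hπ0)).2 hπ1)
    have hp := hpos hπ0
    have hfu : Fx U (y * π ^ (m + 1)) := fx_mul hy (fx_zpow hπf _)
    have hnu : ‖ι (y * π ^ (m + 1))‖ = ‖ι y‖ * ‖ι π‖ ^ (m + 1) := by
      rw [map_mul, norm_mul, map_zpow₀, norm_zpow]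
    have hu1 : ‖ι (y * π ^ (m + 1))‖ = 1 := by
      refine le_antisymm ?_ (not_lt.1 fun hc => ?_)
      · rw [hnu]
        rw [inv_zpow, ← one_div, le_div_iff₀ (zpow_pos hp _)] at hm2
        exact hm2
      · have h1 := hπ2 _ hfu hc
        rw [inv_zpow, ← one_div, div_lt_iff₀ (zpow_pos hp _)] at hm1
        rw [hnu, zpow_add_one₀ hp.ne', ← mul_assoc] at h1
        nlinarith
    have h1 := hunit _ g.2.1 _ hfu hu1
    rw [hqm _ g.2.1 _ _ hy (fx_zpow hπf _) hy0 (zpow_ne_zero _ hπ0), hz, mul_one, ← red_one,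
      red_eq (hq _ g.2.1 y hy hy0).le (by simp)] at h1
    have e : ι ((g : GQ) y / y) - 1 = ι ((g : GQ) y - y) / ι y := by
      rw [map_div₀, map_sub, sub_div, div_self ((map_ne_zero ι).2 hy0)]
    rw [e, norm_div, div_lt_one (hpos hy0)] at h1
    exact h1
  have : U.FiniteIndex := ⟨by rw [← hrk]; exact Module.finrank_pos.ne'⟩
  have : (U.subgroupOf I).Normal := hU.subgroupOf I
  have hle : U.subgroupOf I ≤ θ.ker := fun g hg => by
    rw [MonoidHom.mem_ker, hθ, hπf _ (Subgroup.mem_subgroupOf.1 hg), div_self hπ0, map_one,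
      red_one]
  have hinj : Function.Injective (QuotientGroup.lift (U.subgroupOf I) θ hle) := by
    rw [injective_iff_map_eq_one]
    intro q hq1
    obtain ⟨g, rfl⟩ := QuotientGroup.mk_surjective q
    rw [QuotientGroup.eq_one_iff]
    exact Subgroup.mem_subgroupOf.2 (hker g hq1)
  have := isCyclic_of_injective_ringHom _ hinj
  obtain ⟨q, hgen⟩ := IsCyclic.exists_monoid_generator (α := I ⧸ U.subgroupOf I)
  obtain ⟨τ, rfl⟩ := QuotientGroup.mk_surjective q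
  have hkey : ∀ (g : I) (i : ℕ), θ g = θ τ ^ i → (g : GQ) * ((τ : GQ) ^ i)⁻¹ ∈ U := by
    intro g i h
    have h1 : θ (g * (τ ^ i)⁻¹) = 1 := by
      rw [map_mul, h, ← map_pow, ← map_mul, mul_inv_cancel, map_one]
    exact hker _ h1
  refine ⟨τ, φ, τ.2.2, τ.2.1, fun g hg hgB => ?_, hφ, ?_⟩
  · obtain ⟨i, hi⟩ := hgen (QuotientGroup.mk (⟨g, hg, hgB⟩ : I))
    refine ⟨i, hkey ⟨g, hg, hgB⟩ i ?_⟩
    have h1 := congrArg (QuotientGroup.lift (U.subgroupOf I) θ hle) hi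
    simp only [map_pow, QuotientGroup.lift_mk] at h1
    exact h1.symm
  · have hI : Inert ι U (φ * τ * φ⁻¹) := fun x hx h => by
      have hf1 := fx_map hU hx φ⁻¹
      have h1 := τ.2.1 _ hf1 (hφle' x hx h)
      have h2 := hφlt _ (fx_sub (fx_map hU hf1 _) hf1) h1
      rw [map_sub φ, inv_app] at h2
      exact h2
    refine hkey ⟨φ * τ * φ⁻¹, hI, hB.conj_mem _ τ.2.2 φ⟩ l ?_
    have hf1 := fx_map hU hπf φ⁻¹
    have hπ0' : φ⁻¹ π ≠ 0 := (map_ne_zero _).2 hπ0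
    have hn : ‖ι (φ⁻¹ π / π)‖ = 1 := by
      refine le_antisymm ?_ ?_
      · rw [map_div₀, norm_div, div_le_one (hpos hπ0)]
        exact hπ2 _ hf1 (hφlt' π hπf hπ1)
      · have h1 : ‖ι (φ π / π)‖ ≤ 1 := by
          rw [map_div₀, norm_div, div_le_one (hpos hπ0)]
          exact hπ2 _ (fx_map hU hπf φ) (hφlt π hπf hπ1)
        have h2 := hφle' _ (fx_div (fx_map hU hπf φ) hπf) h1
        have e : φ⁻¹ (φ π) = π := inv_app φ⁻¹ π
        rw [map_div₀, e, map_div₀, norm_div, div_le_one (hpos hπ0')] at h2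
        rw [map_div₀, norm_div, one_le_div (hpos hπ0)]
        exact h2
    have h1 : red (ι ((τ : GQ) (φ⁻¹ π) / φ⁻¹ π)) = θ τ := by
      have e : φ⁻¹ π = φ⁻¹ π / π * π := by field_simp
      rw [e, hqm _ τ.2.1 _ _ (fx_div hf1 hπf) hπf (div_ne_zero hπ0' hπ0) hπ0,
        hunit _ τ.2.1 _ (fx_div hf1 hπf) hn, one_mul, hθ]
    have hfw : Fx U ((τ : GQ) (φ⁻¹ π) / φ⁻¹ π) := fx_div (fx_map hU hf1 _) hf1
    have hw := (hq _ τ.2.1 _ hf1 hπ0').le
    rw [← h1, ← red_pow hw, hθ]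
    have e : (φ * (τ : GQ) * φ⁻¹) π / π = φ ((τ : GQ) (φ⁻¹ π) / φ⁻¹ π) := by
      rw [map_div₀, inv_app]; rfl
    show red (ι ((φ * (τ : GQ) * φ⁻¹) π / π)) = _
    rw [e, red_eq (hφle _ hfw hw) (by rw [norm_pow]; exact pow_le_one₀ (norm_nonneg _) hw),
      ← map_pow, ← map_sub]
    exact hφ _ hfw hw

end Pool.Agent.Lib.MP_54db3e_nt
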