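import Pool.Agent.Lib.MP_54db3e_nt.Stmt

/-!
The points of order 5 on the curve, with the Galois action on them.
-/

open scoped Classical

noncomputable section

namespace Pool.Agent.Lib.MP_54db3e_nt

namespace TTor5

section Algebra

variable {k : Type} [Field k]

/-- the square root attached to the double of the point -/
def wp (a r w : k) : k := -w * (r * (7 + a) + 5 + a) / 4
def muT (a r : k) : k := (8045731 - 423737 * a) / 20 + (-745329 + 505453 * a) * r / 20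
/-- the `y`-coordinate -/
def yT (a r w : k) : k := (w * muT a r - 1) / 2
def nuT (a r : k) : k := -21 / 4 + 48 / 5 * r + 29 / 4 * a + 13 / 10 * a * r
def tZ (a r q w v : k) : k := a * r * q * (w * v - wp a r w * wp (-a) q v) / 290
/-- the fifth root of unity attached to a pair of points -/
def zZ (a r q w v : k) : k := (-1 - r * q) / 4 + tZ a r q w v

/-- the defining relations of the tower -/
structure Val (a r w : k) : Prop where
  ha : a ^ 2 = 29
  hr : r ^ 2 = (7 - a) / 2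
  hw : w ^ 2 = a * (5 - (5 + a) / 2 * r) / 2

theorem Val.neg {a r w : k} (h : Val a r w) : Val a r (-w) :=
  ⟨h.ha, h.hr, by rw [neg_sq, h.hw]⟩

theorem Val.map {k' : Type} [Field k'] (f : k →+* k') {a r w : k} (h : Val a r w) :
    Val (f a) (f r) (f w) := by
  refine ⟨?_, ?_, ?_⟩
  · have := congrArg f h.ha
    simpa only [map_pow, map_ofNat] using this
  · have := congrArg f h.hr
    simpa only [map_pow, map_ofNat, map_div₀, map_sub] using this
  · have := congrArg f h.hw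
    simpa only [map_pow, map_ofNat, map_div₀, map_sub, map_mul, map_add] using this

theorem map_xT {k' : Type} [Field k'] (f : k →+* k') (a r : k) :
    f (xT a r) = xT (f a) (f r) := by
  simp only [xT, map_ofNat, map_div₀, map_sub, map_mul, map_add, map_neg]

theorem map_yT {k' : Type} [Field k'] (f : k →+* k') (a r w : k) :
    f (yT a r w) = yT (f a) (f r) (f w) := by
  simp only [yT, muT, map_ofNat, map_div₀, map_sub, map_mul, map_add, map_neg, map_one]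

theorem map_zZ {k' : Type} [Field k'] (f : k →+* k') (a r q w v : k) :
    f (zZ a r q w v) = zZ (f a) (f r) (f q) (f w) (f v) := by
  simp only [zZ, tZ, wp, map_ofNat, map_div₀, map_sub, map_mul, map_add, map_neg, map_one]

theorem tZ_neg (a r q w v : k) : tZ a r q (-w) v = -tZ a r q w v := by
  unfold tZ wp
  ring

theorem zZ_symm (a r q w v : k) : zZ (-a) q r v (-w) = zZ a r q w v := by
  unfold zZ tZ wp
  ring

variable [CharZero k]

theorem Val.eqn {a r w : k} (h : Val a r w) :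
    yT a r w ^ 2 + yT a r w = xT a r ^ 3 + 8175274 * xT a r + 50242716927 := by
  obtain ⟨ha, hr, hw⟩ := h
  unfold yT muT xT
  linear_combination
    (-698106273219 / 400 - 24515480777973 / 16000 * r - 2614552715177 / 640 * a
    + 134695853642333 / 64000 * a * r + 6511039971609 / 6400 * a ^ 2
    - 6870937321929 / 32000 * a ^ 2 * r - 214179137861 / 6400 * a ^ 3
    + 255482735209 / 12800 * a ^ 3 * r) * ha + (1874727237693 / 200 + 6979916664631 / 8000 * r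
    + 7407966600843 / 400 * a + 35212220477931 / 32000 * a * r - 19534368906983 / 3200 * a ^ 2
    + 44841681615033 / 32000 * a ^ 2 * r - 2505893003291 / 1600 * a ^ 3
    + 3004448459853 / 32000 * a ^ 3 * r + 214179137861 / 3200 * a ^ 4
    - 255482735209 / 6400 * a ^ 4 * r) * hr + (64733787324361 / 1600 - 5996716640499 / 800 * r
    + 555515318241 / 1600 * r ^ 2 - 3409273916747 / 800 * a + 273910146601 / 50 * a * r
    - 376728779037 / 800 * a * r ^ 2 + 179553045169 / 1600 * a ^ 2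
    - 214179137861 / 800 * a ^ 2 * r + 255482735209 / 1600 * a ^ 2 * r ^ 2) * hw

theorem Val.next {a r w : k} (h : Val a r w) : Val a (-r) (wp a r w) := by
  obtain ⟨ha, hr, hw⟩ := h
  refine ⟨ha, by rw [neg_sq, hr], ?_⟩
  unfold wp
  linear_combination
    (-5 / 16 * a + 25 / 128 * a * r + 5 / 64 * a ^ 2 + 5 / 64 * a ^ 2 * r + 1 / 64 * a ^ 3
    + 1 / 128 * a ^ 3 * r) * ha + (35 / 16 * a - 245 / 64 * a * r - 25 / 32 * a ^ 2
    - 119 / 64 * a ^ 2 * r - 3 / 8 * a ^ 3 - 19 / 64 * a ^ 3 * r - 1 / 32 * a ^ 4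
    - 1 / 64 * a ^ 4 * r) * hr + (25 / 16 + 35 / 8 * r + 49 / 16 * r ^ 2 + 5 / 8 * a
    + 3 / 2 * a * r + 7 / 8 * a * r ^ 2 + 1 / 16 * a ^ 2 + 1 / 8 * a ^ 2 * r
    + 1 / 16 * a ^ 2 * r ^ 2) * hw

theorem Val.wpwp {a r w : k} (h : Val a r w) : wp a (-r) (wp a r w) = -w := by
  obtain ⟨ha, hr, hw⟩ := h
  unfold wp
  linear_combination
    (9 / 32 * w + 1 / 32 * a * w) * ha + (-49 / 16 * w - 7 / 8 * a * w
    - 1 / 16 * a ^ 2 * w) * hr

theorem Val.lam {a r w : k} (h : Val a r w) :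
    w * nuT a r * (2 * yT a r w + 1) = 3 * xT a r ^ 2 + 8175274 := by
  obtain ⟨ha, hr, hw⟩ := h
  unfold yT muT xT nuT
  linear_combination
    (1459112329 / 800 + 3382647 / 5 * r + 1736515743 / 3200 * a - 93964833 / 320 * a * r
    - 144639297 / 1600 * a ^ 2 + 43567149 / 800 * a ^ 2 * r + 62273523 / 3200 * a ^ 3
    + 6570889 / 1600 * a ^ 3 * r) * ha + (-1095690963 / 400 - 14684643957 / 1600 * a
    + 2235987 / 5 * a * r - 437174669 / 320 * a ^ 2 - 122619471 / 800 * a ^ 2 * r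
    - 146636067 / 1600 * a ^ 3 - 4480541 / 50 * a ^ 3 * r - 62273523 / 1600 * a ^ 4
    - 6570889 / 800 * a ^ 4 * r) * hr + (-168960351 / 80 + 1623039897 / 400 * r
    - 8943948 / 25 * r ^ 2 + 60556169 / 20 * a - 4164221 / 50 * a * r
    + 38834211 / 200 * a * r ^ 2 - 12288373 / 80 * a ^ 2 + 62273523 / 400 * a ^ 2 * r
    + 6570889 / 200 * a ^ 2 * r ^ 2) * hw

theorem Val.x2 {a r w : k} (h : Val a r w) :
    (w * nuT a r) ^ 2 - xT a r - xT a r = xT a (-r) := by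
  obtain ⟨ha, hr, hw⟩ := h
  unfold xT nuT
  linear_combination
    (-354 - 659 / 20 * r + 9099 / 160 * a + 1429 / 320 * a * r + 1419 / 160 * a ^ 2
    - 16709 / 1600 * a ^ 2 * r + 377 / 160 * a ^ 3 + 169 / 800 * a ^ 3 * r) * ha + (1782 / 5 * a
    - 576 / 5 * a * r - 5547 / 80 * a ^ 2 - 1356 / 25 * a ^ 2 * r - 2029 / 40 * a ^ 3
    - 3341 / 400 * a ^ 3 * r - 377 / 80 * a ^ 4 - 169 / 400 * a ^ 4 * r) * hr + (441 / 16
    - 504 / 5 * r + 2304 / 25 * r ^ 2 - 609 / 8 * a + 2511 / 20 * a * r + 624 / 25 * a * r ^ 2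
    + 841 / 16 * a ^ 2 + 377 / 20 * a ^ 2 * r + 169 / 100 * a ^ 2 * r ^ 2) * hw

theorem Val.y2 {a r w : k} (h : Val a r w) :
    -(w * nuT a r * (xT a (-r) - xT a r) + yT a r w) - 1 = yT a (-r) (wp a r w) := by
  obtain ⟨ha, hr, hw⟩ := h
  unfold yT muT xT nuT wp
  linear_combination
    (-5528351 / 1600 * w - 1114369 / 80 * r * w + 3692377 / 1600 * a * w) * ha
    + (11409267 / 800 * w - 12277829 / 400 * a * w - 3692377 / 800 * a ^ 2 * w) * hr

theorem yT_neg (a r w : k) : yT a r (-w) = -yT a r w - 1 := by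
  unfold yT
  ring

theorem Val.cls {a r w r' w' : k} (h : Val a r w) (h' : Val a r' w') :
    (r' = r ∧ w' = w) ∨ (r' = -r ∧ w' = wp a r w) ∨ (r' = -r ∧ w' = -wp a r w) ∨
      (r' = r ∧ w' = -w) := by
  rcases sq_eq_sq_iff_eq_or_eq_neg.1 (h'.hr.trans h.hr.symm) with e | e
  · subst e
    rcases sq_eq_sq_iff_eq_or_eq_neg.1 (h'.hw.trans h.hw.symm) with e | e
    · exact Or.inl ⟨rfl, e⟩
    · exact Or.inr (Or.inr (Or.inr ⟨rfl, e⟩))
  · subst e
    rcases sq_eq_sq_iff_eq_or_eq_neg.1 (h'.hw.trans h.next.hw.symm) with e | e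
    · exact Or.inr (Or.inl ⟨rfl, e⟩)
    · exact Or.inr (Or.inr (Or.inl ⟨rfl, e⟩))

theorem Val.hq {a q v : k} (h : Val (-a) q v) : q ^ 2 = (7 + a) / 2 := by
  rw [h.hr]
  ring

theorem Val.hv {a q v : k} (h : Val (-a) q v) : v ^ 2 = -a * (5 - (5 - a) / 2 * q) / 2 := by
  rw [h.hw]
  ring

theorem ssq {a r q w v : k} (h : Val a r w) (h' : Val (-a) q v) : (r * q) ^ 2 = 5 := by
  obtain ⟨ha, hr, hw⟩ := h
  have hq := h'.hq
  linear_combination
    (-1 / 4) * ha + (7 / 2 + 1 / 2 * a) * hr + (r ^ 2) * hq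

theorem tred {a r q w v : k} (h : Val a r w) (h' : Val (-a) q v) : tZ a r q w v =
    1 / 16 * q * w * v - 1 / 16 * r * w * v - 5 / 232 * a * w * v - 5 / 464 * a * q * w * v
    - 5 / 464 * a * r * w * v + 1 / 232 * a * r * q * w * v := by
  obtain ⟨ha, hr, hw⟩ := h
  have hq := h'.hq
  unfold tZ wp
  linear_combination
    (1 / 464 * q * w * v - 1 / 464 * r * w * v + 69 / 18560 * a * w * v
    + 1 / 1856 * a * q * w * v + 1 / 1856 * a * r * w * v + 1 / 4640 * a * r * q * w * v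
    - 1 / 9280 * a ^ 2 * q * w * v + 1 / 9280 * a ^ 2 * r * w * v
    - 1 / 18560 * a ^ 3 * w * v) * ha + (-343 / 9280 * a * w * v - 7 / 928 * a * q * w * v
    - 49 / 9280 * a ^ 2 * w * v + 1 / 2320 * a ^ 2 * q * w * v + 7 / 9280 * a ^ 3 * w * v
    + 1 / 4640 * a ^ 3 * q * w * v + 1 / 9280 * a ^ 4 * w * v) * hr + (-7 / 928 * a * r * w * v
    - 49 / 4640 * a * r ^ 2 * w * v - 1 / 2320 * a ^ 2 * r * w * v
    + 1 / 4640 * a ^ 3 * r * w * v + 1 / 4640 * a ^ 3 * r ^ 2 * w * v) * hq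

theorem tsq {a r q w v : k} (h : Val a r w) (h' : Val (-a) q v) :
    tZ a r q w v ^ 2 = (r * q - 5) / 8 := by
  rw [tred h h']
  obtain ⟨ha, hr, hw⟩ := h
  have hq := h'.hq
  have hv := h'.hv
  linear_combination
    (-5 / 232 + 1 / 232 * r * q - 45 / 6889472 * a ^ 2 - 213 / 3444736 * a ^ 2 * r * q
    + 2185 / 3444736 * a ^ 3 * q - 2185 / 3444736 * a ^ 3 * r - 447 / 3444736 * a ^ 4
    - 265 / 3444736 * a ^ 4 * q - 265 / 3444736 * a ^ 4 * r + 115 / 1722368 * a ^ 4 * r * q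
    - 69 / 3444736 * a ^ 5 * q + 69 / 3444736 * a ^ 5 * r - 5 / 6889472 * a ^ 6
    + 5 / 3444736 * a ^ 6 * q + 5 / 3444736 * a ^ 6 * r - 1 / 3444736 * a ^ 6 * r * q) * ha
    + (75 / 4096 * a ^ 2 - 25 / 2048 * a ^ 2 * q + 25 / 2048 * a ^ 2 * r
    - 25 / 4096 * a ^ 2 * r * q + 25 / 4096 * a ^ 3 - 205 / 29696 * a ^ 3 * q
    + 285 / 29696 * a ^ 3 * r - 225 / 59392 * a ^ 3 * r * q + 629 / 1722368 * a ^ 4
    - 325 / 1722368 * a ^ 4 * q + 4025 / 1722368 * a ^ 4 * r - 1147 / 1722368 * a ^ 4 * r * q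
    - 3 / 1722368 * a ^ 5 + 523 / 1722368 * a ^ 5 * q + 167 / 1722368 * a ^ 5 * r
    + 5 / 430592 * a ^ 5 * r * q + 35 / 3444736 * a ^ 6 + 17 / 861184 * a ^ 6 * q
    - 27 / 861184 * a ^ 6 * r + 39 / 3444736 * a ^ 6 * r * q + 5 / 3444736 * a ^ 7
    - 5 / 1722368 * a ^ 7 * q - 5 / 1722368 * a ^ 7 * r + 1 / 1722368 * a ^ 7 * r * q) * hr
    + (-25 / 1024 * a ^ 2 + 25 / 2048 * a ^ 2 * q - 25 / 2048 * a ^ 2 * r
    - 25 / 4096 * a ^ 2 * r * q + 25 / 2048 * a ^ 2 * r ^ 2 - 395 / 59392 * a ^ 3 * q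
    + 235 / 59392 * a ^ 3 * r + 225 / 59392 * a ^ 3 * r * q - 25 / 29696 * a ^ 3 * r ^ 2 * q
    + 25 / 29696 * a ^ 3 * r ^ 3 + 2075 / 861184 * a ^ 4 + 2075 / 1722368 * a ^ 4 * q
    - 825 / 1722368 * a ^ 4 * r - 243 / 430592 * a ^ 4 * r * q - 503 / 861184 * a ^ 4 * r ^ 2
    + 175 / 861184 * a ^ 4 * r ^ 2 * q + 175 / 861184 * a ^ 4 * r ^ 3
    - 25 / 861184 * a ^ 4 * r ^ 3 * q - 125 / 430592 * a ^ 5 - 125 / 1722368 * a ^ 5 * q
    - 215 / 1722368 * a ^ 5 * r - 45 / 1722368 * a ^ 5 * r * q + 19 / 861184 * a ^ 5 * r ^ 2 * q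
    - 19 / 861184 * a ^ 5 * r ^ 3 + 25 / 861184 * a ^ 6 * r + 25 / 3444736 * a ^ 6 * r * q
    + 5 / 1722368 * a ^ 6 * r ^ 2 - 5 / 861184 * a ^ 6 * r ^ 2 * q - 5 / 861184 * a ^ 6 * r ^ 3
    + 1 / 861184 * a ^ 6 * r ^ 3 * q) * hq + (-5 / 512 * a * q ^ 2 + 5 / 1024 * a * q ^ 3
    + 5 / 256 * a * r * q - 5 / 512 * a * r * q ^ 2 - 5 / 512 * a * r ^ 2
    + 5 / 1024 * a * r ^ 2 * q + 25 / 3712 * a ^ 2 * q - 79 / 29696 * a ^ 2 * q ^ 3
    - 25 / 3712 * a ^ 2 * r + 25 / 7424 * a ^ 2 * r * q + 9 / 14848 * a ^ 2 * r * q ^ 2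
    + 5 / 7424 * a ^ 2 * r * q ^ 3 - 25 / 7424 * a ^ 2 * r ^ 2 + 61 / 29696 * a ^ 2 * r ^ 2 * q
    - 5 / 7424 * a ^ 2 * r ^ 2 * q ^ 2 - 125 / 107648 * a ^ 3 - 125 / 215296 * a ^ 3 * q
    + 415 / 430592 * a ^ 3 * q ^ 2 + 415 / 861184 * a ^ 3 * q ^ 3 - 125 / 107648 * a ^ 3 * r
    - 45 / 215296 * a ^ 3 * r * q + 125 / 430592 * a ^ 3 * r * q ^ 2
    - 27 / 107648 * a ^ 3 * r * q ^ 3 - 125 / 430592 * a ^ 3 * r ^ 2
    + 35 / 861184 * a ^ 3 * r ^ 2 * q - 3 / 107648 * a ^ 3 * r ^ 2 * q ^ 2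
    + 5 / 215296 * a ^ 3 * r ^ 2 * q ^ 3 - 25 / 215296 * a ^ 4 * q - 25 / 215296 * a ^ 4 * q ^ 2
    - 25 / 861184 * a ^ 4 * q ^ 3 - 25 / 215296 * a ^ 4 * r * q - 5 / 430592 * a ^ 4 * r * q ^ 2
    + 5 / 215296 * a ^ 4 * r * q ^ 3 - 25 / 861184 * a ^ 4 * r ^ 2 * q
    + 5 / 215296 * a ^ 4 * r ^ 2 * q ^ 2 - 1 / 215296 * a ^ 4 * r ^ 2 * q ^ 3) * hw
    + (1 / 256 * q ^ 2 * w ^ 2 - 1 / 128 * r * q * w ^ 2 + 1 / 256 * r ^ 2 * w ^ 2
    - 5 / 1856 * a * q * w ^ 2 - 5 / 3712 * a * q ^ 2 * w ^ 2 + 5 / 1856 * a * r * w ^ 2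
    + 1 / 1856 * a * r * q ^ 2 * w ^ 2 + 5 / 3712 * a * r ^ 2 * w ^ 2
    - 1 / 1856 * a * r ^ 2 * q * w ^ 2 + 25 / 53824 * a ^ 2 * w ^ 2
    + 25 / 53824 * a ^ 2 * q * w ^ 2 + 25 / 215296 * a ^ 2 * q ^ 2 * w ^ 2
    + 25 / 53824 * a ^ 2 * r * w ^ 2 + 5 / 107648 * a ^ 2 * r * q * w ^ 2
    - 5 / 53824 * a ^ 2 * r * q ^ 2 * w ^ 2 + 25 / 215296 * a ^ 2 * r ^ 2 * w ^ 2
    - 5 / 53824 * a ^ 2 * r ^ 2 * q * w ^ 2 + 1 / 53824 * a ^ 2 * r ^ 2 * q ^ 2 * w ^ 2) * hv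

theorem tnext {a r q w v : k} (h : Val a r w) (h' : Val (-a) q v) :
    tZ a (-r) q (wp a r w) v = -(1 + r * q) * tZ a r q w v / 2 := by
  obtain ⟨ha, hr, hw⟩ := h
  have hq := h'.hq
  unfold tZ wp
  linear_combination
    (49 / 18560 * a * w * v + 49 / 37120 * a * q * w * v - 343 / 74240 * a * r * w * v
    + 7 / 9280 * a * r * q * w * v - 49 / 74240 * a ^ 2 * r * w * v
    + 1 / 9280 * a ^ 2 * r * q * w * v - 1 / 18560 * a ^ 3 * w * v
    - 1 / 37120 * a ^ 3 * q * w * v + 7 / 74240 * a ^ 3 * r * w * v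
    + 1 / 74240 * a ^ 4 * r * w * v) * ha + (-7 / 320 * a * w * v - 7 / 640 * a * q * w * v
    + 1911 / 37120 * a * r * w * v - 49 / 9280 * a * r * q * w * v - 1 / 320 * a ^ 2 * w * v
    - 1 / 640 * a ^ 2 * q * w * v + 161 / 9280 * a ^ 2 * r * w * v
    - 7 / 4640 * a ^ 2 * r * q * w * v + 7 / 9280 * a ^ 3 * w * v
    + 7 / 18560 * a ^ 3 * q * w * v + 9 / 18560 * a ^ 3 * r * w * v
    - 1 / 9280 * a ^ 3 * r * q * w * v + 1 / 9280 * a ^ 4 * w * v
    + 1 / 18560 * a ^ 4 * q * w * v - 3 / 9280 * a ^ 4 * r * w * v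
    - 1 / 37120 * a ^ 5 * r * w * v) * hr + (-49 / 3712 * a * r * w * v
    - 1 / 160 * a * r ^ 2 * w * v - 7 / 1856 * a * r ^ 2 * q * w * v
    + 273 / 18560 * a * r ^ 3 * w * v - 49 / 9280 * a * r ^ 3 * q * w * v
    - 49 / 18560 * a ^ 2 * r * w * v - 1 / 4640 * a ^ 2 * r ^ 2 * q * w * v
    + 53 / 18560 * a ^ 2 * r ^ 3 * w * v + 1 / 3712 * a ^ 3 * r * w * v
    + 1 / 4640 * a ^ 3 * r ^ 2 * w * v + 1 / 9280 * a ^ 3 * r ^ 2 * q * w * v
    - 1 / 3712 * a ^ 3 * r ^ 3 * w * v + 1 / 9280 * a ^ 3 * r ^ 3 * q * w * v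
    + 1 / 18560 * a ^ 4 * r * w * v - 1 / 18560 * a ^ 4 * r ^ 3 * w * v) * hq

theorem zp2 {s t : k} (hs : s ^ 2 = 5) (ht : t ^ 2 = (s - 5) / 8) :
    ((-1 - s) / 4 + t) ^ 2 = (s - 1) / 4 - (1 + s) * t / 2 := by
  linear_combination
    (1 / 16) * hs + (1) * ht

theorem zp3 {s t : k} (hs : s ^ 2 = 5) (ht : t ^ 2 = (s - 5) / 8) :
    ((-1 - s) / 4 + t) ^ 3 = (s - 1) / 4 + (1 + s) * t / 2 := by
  linear_combination
    (-9 / 64 + 3 / 16 * t - 1 / 64 * s) * hs + (-3 / 4 + t - 3 / 4 * s) * ht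

theorem zp4 {s t : k} (hs : s ^ 2 = 5) (ht : t ^ 2 = (s - 5) / 8) :
    ((-1 - s) / 4 + t) ^ 4 = (-1 - s) / 4 - t := by
  linear_combination
    (-21 / 256 - 5 / 16 * t + 1 / 16 * s - 1 / 16 * s * t + 1 / 256 * s ^ 2) * hs + (-1 / 4 - t
    + t ^ 2 + 7 / 8 * s - s * t + 3 / 8 * s ^ 2) * ht

theorem zp5 {s t : k} (hs : s ^ 2 = 5) (ht : t ^ 2 = (s - 5) / 8) :
    ((-1 - s) / 4 + t) ^ 5 = 1 := by
  linear_combination
    (285 / 1024 - 1 / 256 * t + 5 / 1024 * s + 5 / 32 * s * t - 25 / 1024 * s ^ 2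
    + 5 / 256 * s ^ 2 * t - 1 / 1024 * s ^ 3) * hs + (5 / 8 - 5 / 4 * t ^ 2 + t ^ 3 + 5 / 32 * s
    + 11 / 8 * s * t - 5 / 4 * s * t ^ 2 - 5 / 8 * s ^ 2 + 5 / 8 * s ^ 2 * t
    - 5 / 32 * s ^ 3) * ht

theorem zZ_five {a r q w v : k} (h : Val a r w) (h' : Val (-a) q v) : zZ a r q w v ^ 5 = 1 :=
  zp5 (ssq h h') (tsq h h')

theorem zZ_four {a r q w v : k} (h : Val a r w) (h' : Val (-a) q v) :
    zZ a r q (-w) v = zZ a r q w v ^ 4 := by
  unfold zZ
  rw [zp4 (ssq h h') (tsq h h'), tZ_neg]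
  ring

theorem zZ_two {a r q w v : k} (h : Val a r w) (h' : Val (-a) q v) :
    zZ a (-r) q (wp a r w) v = zZ a r q w v ^ 2 := by
  unfold zZ
  rw [zp2 (ssq h h') (tsq h h'), tnext h h']
  ring

theorem zZ_three {a r q w v : k} (h : Val a r w) (h' : Val (-a) q v) :
    zZ a (-r) q (-wp a r w) v = zZ a r q w v ^ 3 := by
  unfold zZ
  rw [zp3 (ssq h h') (tsq h h'), tZ_neg, tnext h h']
  ring

theorem zZ_rel {a r q w v : k} (h : Val a r w) (h' : Val (-a) q v) :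
    r * q = -(1 + 2 * (zZ a r q w v + zZ a r q w v ^ 4)) := by
  unfold zZ
  rw [zp4 (ssq h h') (tsq h h')]
  ring

theorem zZ_prim {a r q w v : k} (h : Val a r w) (h' : Val (-a) q v) :
    IsPrimitiveRoot (zZ a r q w v) 5 := by
  have h1 : zZ a r q w v ≠ 1 := fun e => by
    have h2 := zZ_rel h h'
    have h3 := ssq h h'
    rw [e] at h2
    rw [h2] at h3
    norm_num at h3
  rw [← orderOf_eq_prime (zZ_five h h') h1]
  exact IsPrimitiveRoot.orderOf _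

theorem xT_ne {a r q w v : k} (h : Val a r w) (h' : Val (-a) q v) : xT a r ≠ xT (-a) q := by
  intro hd
  have hs := ssq h h'
  obtain ⟨ha, hr, hw⟩ := h
  have hq := h'.hq
  unfold xT at hd
  have h1 : (743054791 / 10 : k) = 163723937 / 10 * r * q := by
    linear_combination
      (-19111 / 20 * q + 19111 / 20 * r + 1977 * a + 11203 / 20 * a * q
      + 11203 / 20 * a * r) * hd + (-1113062203 / 400 + 125507209 / 200 * r * q) * ha
      + (365230321 / 400 + 214100533 / 200 * a + 125507209 / 400 * a ^ 2) * hr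
      + (365230321 / 400 - 214100533 / 200 * a + 125507209 / 400 * a ^ 2) * hq
  have h2 : (743054791 / 10 : k) ^ 2 = 5 * (163723937 / 10) ^ 2 := by
    linear_combination (743054791 / 10 + 163723937 / 10 * r * q) * h1 + (163723937 / 10) ^ 2 * hs
  norm_num at h2

end Algebra

open WeierstrassCurve WeierstrassCurve.Affine

abbrev EQ : WeierstrassCurve.Affine Qb := E0.toAffine.baseChange Qb

theorem a1 : EQ.a₁ = 0 := by simp [E0, E0Z]
theorem a2 : EQ.a₂ = 0 := by simp [E0, E0Z]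
theorem a3 : EQ.a₃ = 1 := by simp [E0, E0Z]
theorem a4 : EQ.a₄ = 8175274 := by simp [E0, E0Z]
theorem a6 : EQ.a₆ = 50242716927 := by simp [E0, E0Z]

theorem disc_ne : EQ.Δ ≠ 0 := by
  simp only [WeierstrassCurve.Δ, WeierstrassCurve.b₂, WeierstrassCurve.b₄, WeierstrassCurve.b₆,
    WeierstrassCurve.b₈, a1, a2, a3, a4, a6]
  norm_num

theorem Val.ns {a r w : Qb} (h : Val a r w) : EQ.Nonsingular (xT a r) (yT a r w) := by
  rw [← equation_iff_nonsingular_of_Δ_ne_zero disc_ne, equation_iff, a1, a2, a3, a4, a6]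
  linear_combination h.eqn

theorem some_ext {x y x' y' : Qb} {h : EQ.Nonsingular x y} {h' : EQ.Nonsingular x' y'}
    (hx : x = x') (hy : y = y') : (Point.some x y h : EQ.Point) = Point.some x' y' h' := by
  subst hx hy
  rfl

/-- the point attached to a solution of the relations -/
def TP (a r w : Qb) : Pt E0 Qb := if h : Val a r w then Point.some _ _ h.ns else 0

theorem TP_eq {a r w : Qb} (h : Val a r w) : TP a r w = Point.some _ _ h.ns := dif_pos h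

theorem TP_ne {a r w : Qb} (h : Val a r w) : TP a r w ≠ 0 := by
  rw [TP_eq h]
  exact Point.some_ne_zero _

theorem xc_TP {a r w : Qb} (h : Val a r w) : xc (TP a r w) = xT a r := by
  rw [TP_eq h]
  rfl

theorem act_TP (g : GQ) {a r w : Qb} (h : Val a r w) :
    act E0 g (TP a r w) = TP (g a) (g r) (g w) := by
  have h' : Val (g a) (g r) (g w) := h.map (g : Qb →+* Qb)
  rw [TP_eq h, TP_eq h']
  exact some_ext (map_xT (g : Qb →+* Qb) a r) (map_yT (g : Qb →+* Qb) a r w)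

theorem TP_neg {a r w : Qb} (h : Val a r w) : TP a r (-w) = -TP a r w := by
  rw [TP_eq h, TP_eq h.neg, Point.neg_some]
  refine some_ext rfl ?_
  rw [negY, a1, a3, yT_neg]
  ring

theorem TP_dbl {a r w : Qb} (h : Val a r w) :
    TP a r w + TP a r w = TP a (-r) (wp a r w) := by
  have hy : yT a r w ≠ EQ.negY (xT a r) (yT a r w) := by
    intro e
    rcases ((nonsingular_iff _ _).1 h.ns).2 with h1 | h1
    · rw [negY, a1, a3] at e
      rw [a1, a2, a4] at h1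
      apply h1
      linear_combination h.lam - w * nuT a r * e
    · exact h1 e
  have hl : EQ.slope (xT a r) (xT a r) (yT a r w) (yT a r w) = w * nuT a r := by
    rw [slope_of_Y_ne rfl hy, div_eq_iff (sub_ne_zero.2 hy), negY, a1, a2, a3, a4]
    linear_combination -h.lam
  have hx : EQ.addX (xT a r) (xT a r) (w * nuT a r) = xT a (-r) := by
    rw [addX, a1, a2]
    linear_combination h.x2
  rw [TP_eq h, TP_eq h.next, Point.add_self_of_Y_ne hy]
  refine some_ext ?_ ?_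
  · rw [hl, hx]
  · rw [hl, addY, negAddY, hx, negY, a1, a3]
    linear_combination h.y2

theorem TP_two {a r w : Qb} (h : Val a r w) : TP a (-r) (wp a r w) = 2 • TP a r w := by
  rw [two_nsmul, TP_dbl h]

theorem TP_four {a r w : Qb} (h : Val a r w) : TP a r (-w) = 4 • TP a r w := by
  have := TP_two h.next
  rw [neg_neg, h.wpwp, TP_two h, ← mul_nsmul] at this
  exact this

theorem TP_five {a r w : Qb} (h : Val a r w) : 5 • TP a r w = 0 := by
  rw [show (5 : ℕ) = 4 + 1 from rfl, succ_nsmul, ← TP_four h, TP_neg h, neg_add_cancel]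

theorem TP_three {a r w : Qb} (h : Val a r w) : TP a (-r) (-wp a r w) = 3 • TP a r w := by
  rw [TP_neg h.next, TP_two h, neg_eq_iff_add_eq_zero, ← add_nsmul]
  exact TP_five h

theorem key {a r w r' w' : Qb} (h : Val a r w) (h' : Val a r' w') :
    ∃ u : F5, TP a r' w' = u.val • TP a r w ∧ r' = (if u ^ 2 = 1 then r else -r) ∧
      ∀ q v, Val (-a) q v → zZ a r' q w' v = zZ a r q w v ^ u.val := by
  rcases h.cls h' with ⟨e, e'⟩ | ⟨e, e'⟩ | ⟨e, e'⟩ | ⟨e, e'⟩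
  · exact ⟨1, by rw [e, e']; exact (one_nsmul _).symm, by rw [if_pos (by decide), e],
      fun q v _ => by rw [e, e']; exact (pow_one _).symm⟩
  · exact ⟨2, by rw [e, e']; exact TP_two h, by rw [if_neg (by decide), e],
      fun q v hq => by rw [e, e']; exact zZ_two h hq⟩
  · exact ⟨3, by rw [e, e']; exact TP_three h, by rw [if_neg (by decide), e],
      fun q v hq => by rw [e, e']; exact zZ_three h hq⟩
  · exact ⟨4, by rw [e, e']; exact TP_four h, by rw [if_pos (by decide), e],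
      fun q v hq => by rw [e, e']; exact zZ_four h hq⟩

theorem zsmul_of_dvd {a r w : Qb} (h : Val a r w) {i : ℤ} (hi : (5 : ℤ) ∣ i) :
    i • TP a r w = 0 := by
  obtain ⟨c, rfl⟩ := hi
  rw [mul_comm, mul_zsmul, show (5 : ℤ) = ((5 : ℕ) : ℤ) from rfl, natCast_zsmul, TP_five h,
    zsmul_zero]

theorem mult {a r w : Qb} (h : Val a r w) {i : ℤ} (hi : ¬ (5 : ℤ) ∣ i) :
    ∃ r' w', Val a r' w' ∧ i • TP a r w = TP a r' w' := by
  have e : ∀ n : ℕ, (5 : ℤ) ∣ i - n → i • TP a r w = n • TP a r w := fun n hn => by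
    have := zsmul_of_dvd h hn
    rwa [sub_zsmul, natCast_zsmul, ← sub_eq_add_neg, sub_eq_zero] at this
  have : (5 : ℤ) ∣ i - (1 : ℕ) ∨ (5 : ℤ) ∣ i - (2 : ℕ) ∨ (5 : ℤ) ∣ i - (3 : ℕ) ∨
      (5 : ℤ) ∣ i - (4 : ℕ) := by omega
  rcases this with h1 | h1 | h1 | h1
  · exact ⟨r, w, h, by rw [e _ h1, one_nsmul]⟩
  · exact ⟨_, _, h.next, by rw [e _ h1, TP_two h]⟩
  · exact ⟨_, _, h.next.neg, by rw [e _ h1, TP_three h]⟩
  · exact ⟨_, _, h.neg, by rw [e _ h1, TP_four h]⟩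

theorem indep {a r q w v : Qb} (h : Val a r w) (h' : Val (-a) q v) (i j : ℤ)
    (e : i • TP a r w + j • TP (-a) q v = 0) : (5 : ℤ) ∣ i ∧ (5 : ℤ) ∣ j := by
  by_cases hi : (5 : ℤ) ∣ i
  · refine ⟨hi, by_contra fun hj => ?_⟩
    obtain ⟨q', v', h1, h2⟩ := mult h' hj
    rw [zsmul_of_dvd h hi, zero_add, h2] at e
    exact TP_ne h1 e
  · exfalso
    obtain ⟨r', w', h1, h2⟩ := mult h hi
    by_cases hj : (5 : ℤ) ∣ j
    · rw [zsmul_of_dvd h' hj, add_zero, h2] at e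
      exact TP_ne h1 e
    · obtain ⟨q', v', h3, h4⟩ := mult h' hj
      rw [h2, h4, add_eq_zero_iff_eq_neg, ← TP_neg h3] at e
      have := congrArg xc e
      rw [xc_TP h1, xc_TP h3.neg] at this
      exact xT_ne h1 h3 this

theorem span (hD : DivS) {a r q w v : Qb} (h : Val a r w) (h' : Val (-a) q v) (P : Pt E0 Qb)
    (hP : 5 • P = 0) : ∃ i j : ℕ, P = i • TP a r w + j • TP (-a) q v := by
  obtain ⟨hfin, hcard⟩ := hD.2.1 Qb
  let f : Fin 5 × Fin 5 → Pt E0 Qb := fun p => p.1.val • TP a r w + p.2.val • TP (-a) q v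
  have hinj : Function.Injective f := fun p p' e => by
    have e' : ((p.1.val : ℤ) - p'.1.val) • TP a r w + ((p.2.val : ℤ) - p'.2.val) • TP (-a) q v
        = 0 := by
      have e0 : p.1.val • TP a r w + p.2.val • TP (-a) q v =
          p'.1.val • TP a r w + p'.2.val • TP (-a) q v := e
      rw [sub_smul, sub_smul, natCast_zsmul, natCast_zsmul, natCast_zsmul, natCast_zsmul,
        sub_add_sub_comm, e0, sub_self]
    obtain ⟨h1, h2⟩ := indep h h' _ _ e'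
    have := p.1.2
    have := p.2.2
    have := p'.1.2
    have := p'.2.2
    exact Prod.ext (Fin.ext (by omega)) (Fin.ext (by omega))
  have hsub : Set.range f ⊆ {P : Pt E0 Qb | 5 • P = 0} := by
    rintro _ ⟨p, rfl⟩
    change 5 • (p.1.val • TP a r w + p.2.val • TP (-a) q v) = 0
    rw [nsmul_add, smul_comm, TP_five h, smul_comm, TP_five h', nsmul_zero, nsmul_zero, add_zero]
  have hc : (Set.range f).ncard = 25 := by
    rw [← Set.image_univ, Set.ncard_image_of_injective _ hinj, Set.ncard_univ]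
    simp
  have heq := Set.eq_of_subset_of_ncard_le hsub (by rw [hc]; exact hcard) hfin
  have : P ∈ Set.range f := by
    rw [heq]
    exact hP
  obtain ⟨p, hp⟩ := this
  exact ⟨p.1.val, p.2.val, hp.symm⟩

theorem exists_val (a : Qb) (ha : a ^ 2 = 29) : ∃ r w, Val a r w := by
  obtain ⟨r, hr⟩ := IsAlgClosed.exists_pow_nat_eq ((7 - a) / 2) (by norm_num : 0 < 2)
  obtain ⟨w, hw⟩ := IsAlgClosed.exists_pow_nat_eq (a * (5 - (5 + a) / 2 * r) / 2)
    (by norm_num : 0 < 2)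
  exact ⟨r, w, ha, hr, hw⟩

end TTor5

open TTor5 in
theorem tor5S (hD : DivS) : Tor5S := by
  obtain ⟨a, ha⟩ := IsAlgClosed.exists_pow_nat_eq (29 : Qb) (by norm_num : 0 < 2)
  obtain ⟨r, w, h⟩ := exists_val a ha
  obtain ⟨q, v, h'⟩ := exists_val (-a) (by rw [neg_sq, ha])
  refine ⟨{
    a := a
    r1 := r
    r2 := q
    z := zZ a r q w v
    ha := ha
    hr1 := h.hr
    hr2 := h'.hq
    hz := zZ_prim h h'
    hrz := zZ_rel h h'
    T := ![TP a r w, TP (-a) q v]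
    T_ne := Fin.forall_fin_two.2 ⟨TP_ne h, TP_ne h'⟩
    hx1 := xc_TP h
    hx2 := xc_TP h'
    five := Fin.forall_fin_two.2 ⟨TP_five h, TP_five h'⟩
    span := span hD h h'
    indep := indep h h'
    diag := fun g hg => ?_
    anti := fun g hg => ?_ }⟩
  · have hg' : g (-a) = -a := by rw [map_neg, hg]
    have h1 : Val (g a) (g r) (g w) := h.map (g : Qb →+* Qb)
    have h2 : Val (g (-a)) (g q) (g v) := h'.map (g : Qb →+* Qb)
    have e1 := act_TP g h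
    have e2 := act_TP g h'
    have ez : g (zZ a r q w v) = zZ (g a) (g r) (g q) (g w) (g v) :=
      map_zZ (g : Qb →+* Qb) a r q w v
    rw [hg] at h1 e1 ez
    rw [hg'] at h2 e2
    obtain ⟨u, k1, k2, k3⟩ := key h h1
    obtain ⟨u', l1, l2, l3⟩ := key h' h2
    refine ⟨u, u', e1.trans k1, e2.trans l1, ?_, k2, l2⟩
    have l4 := l3 r (-w) (by rw [neg_neg]; exact h.neg)
    rw [zZ_symm, zZ_symm] at l4
    change g (zZ a r q w v) = zZ a r q w v ^ (u * u').val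
    rw [ez, k3 _ _ h2, l4, pow_val_mul (zZ_five h h')]
  · have hg' : g (-a) = a := by rw [map_neg, hg, neg_neg]
    have h1 : Val (g a) (g r) (g w) := h.map (g : Qb →+* Qb)
    have h2 : Val (g (-a)) (g q) (g v) := h'.map (g : Qb →+* Qb)
    have e1 := act_TP g h
    have e2 := act_TP g h'
    rw [hg] at h1 e1
    rw [hg'] at h2 e2
    obtain ⟨u, k1, -, -⟩ := key h' h1
    obtain ⟨u', l1, -, -⟩ := key h h2
    exact ⟨u.val, u'.val, e1.trans k1, e2.trans l1⟩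

end Pool.Agent.Lib.MP_54db3e_nt
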