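import Pool.Agent.Lib.MP_54db3e_nt.Stmt

/-!
Closure properties of the group generated by the elementary unit-type homomorphisms.
-/

open scoped Classical

noncomputable section

namespace Pool.Agent.Lib.MP_54db3e_nt

namespace TTt

theorem smul_congr {A : Type} [AddCommGroup A] {ξ : Qb} {k a b : ℕ} {T : A}
    (hξ : IsPrimitiveRoot ξ (5 ^ k)) (hT : 5 ^ k • T = 0) (h : ξ ^ a = ξ ^ b) :
    a • T = b • T := by
  have h1 : a ≡ b [MOD 5 ^ k] := by
    have h2 := (hξ.isOfFinOrder (by positivity)).pow_eq_pow_iff_modEq.1 h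
    rwa [← hξ.eq_orderOf] at h2
  exact nsmul_eq_nsmul_of_modEq h1 hT

theorem aunit_map (g : GQ) {y : Qb} (hy : AUnit y) : AUnit (g y) :=
  ⟨by simpa using hy.1, hy.2.1.map (g : Qb →+* Qb).toIntAlgHom, by
    rw [← map_inv₀]; exact hy.2.2.map (g : Qb →+* Qb).toIntAlgHom⟩

theorem aunit_root {y y' : Qb} (hy : AUnit y) (h : y' ^ 5 = y) : AUnit y' :=
  ⟨fun e => hy.1 (by rw [← h, e]; simp), IsIntegral.of_pow (n := 5) (by norm_num) (h ▸ hy.2.1),
    IsIntegral.of_pow (n := 5) (by norm_num) (by rw [inv_pow, h]; exact hy.2.2)⟩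

theorem opn_top : Opn ⊤ := ⟨∅, fun _ _ => trivial⟩

theorem opn_inf (U V : Subgroup GQ) (hU : Opn U) (hV : Opn V) : Opn (U ⊓ V) := by
  obtain ⟨s, hs⟩ := hU
  obtain ⟨t, ht⟩ := hV
  exact ⟨s ∪ t, fun g hg => ⟨hs g fun x hx => hg x (Finset.mem_union_left _ hx),
    ht g fun x hx => hg x (Finset.mem_union_right _ hx)⟩⟩

variable {d : Rep} {m : ℕ}

theorem pow_smul_zero {A : Type} [AddCommGroup A] {k m : ℕ} {T : A} (hk : k ≤ m)
    (hT : 5 ^ k • T = 0) : 5 ^ m • T = 0 := by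
  obtain ⟨j, rfl⟩ := Nat.exists_eq_add_of_le hk
  rw [pow_add, mul_comm, mul_smul, hT, smul_zero]

theorem elem_add (hC : CycS) (hm : 1 ≤ m) {f : GQ → Pt E0 Qb} (hf : Elem d m f) :
    AddOn (lev d.ρ m) f := by
  obtain ⟨k, ξ, y, T, hk, hξ, hy, hT, H⟩ := hf
  intro g hg h hh
  obtain ⟨a, ha, ea⟩ := H g hg
  obtain ⟨b, hb, eb⟩ := H h hh
  obtain ⟨c, hc, ec⟩ := H (g * h) (mul_mem hg hh)
  have hfix : g ξ = ξ := (hC d m hm).2 hg ξ (by
    obtain ⟨j, rfl⟩ := Nat.exists_eq_add_of_le hk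
    rw [pow_add, pow_mul, hξ.pow_eq_one, one_pow])
  rw [AlgEquiv.mul_apply, hb, map_mul, map_pow, hfix, ha, ← mul_assoc, ← pow_add] at hc
  rw [ea, eb, ec, ← add_smul, add_comm a b]
  exact smul_congr hξ hT (mul_right_cancel₀ hy.1 hc).symm

theorem elem_conj {f : GQ → Pt E0 Qb} (hf : Elem d m f) (g : GQ)
    (φ : Pt E0 Qb →+ Pt E0 Qb) : Elem d m fun h => φ (f (g⁻¹ * h * g)) := by
  obtain ⟨k, ξ, y, T, hk, hξ, hy, hT, H⟩ := hf
  refine ⟨k, g ξ, g y, φ T, hk, hξ.map_of_injective g.injective, aunit_map g hy,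
    by rw [← map_nsmul, hT, map_zero], fun h hh => ?_⟩
  obtain ⟨a, ha, ea⟩ := H (g⁻¹ * h * g) ((lev_normal d.ρ m).conj_mem' h hh g)
  refine ⟨a, ?_, by simp only [ea, map_nsmul]⟩
  have := congrArg g ha
  rw [map_mul, map_pow, ← AlgEquiv.mul_apply, ← mul_assoc, ← mul_assoc, mul_inv_cancel,
    one_mul, AlgEquiv.mul_apply] at this
  exact this

theorem tt_conj {f : GQ → Pt E0 Qb} (hf : f ∈ TT d m) (g : GQ)
    (φ : Pt E0 Qb →+ Pt E0 Qb) : (fun h => φ (f (g⁻¹ * h * g))) ∈ TT d m := by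
  induction hf using AddSubgroup.closure_induction with
  | mem f hf => exact AddSubgroup.subset_closure (elem_conj hf g φ)
  | zero => simp only [Pi.zero_apply, map_zero]; exact zero_mem (TT d m)
  | add f f' _ _ h h' => simp only [Pi.add_apply, map_add]; exact add_mem h h'
  | neg f _ h => simp only [Pi.neg_apply, map_neg]; exact neg_mem h

theorem elem_div (hD : DivS) {f : GQ → Pt E0 Qb} (hf : Elem d m f) :
    ∃ f', Elem d (m + 1) f' ∧ ∀ h ∈ lev d.ρ (m + 1), 5 • f' h = f h := by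
  obtain ⟨k, ξ, y, T, hk, hξ, hy, hT, H⟩ := hf
  obtain ⟨T', hT'⟩ := hD.1 Qb T
  obtain ⟨y', hy'⟩ := IsAlgClosed.exists_pow_nat_eq y (n := 5) (by norm_num)
  have : NeZero (5 ^ (k + 1)) := ⟨by positivity⟩
  have : NeZero (5 ^ k) := ⟨by positivity⟩
  have : NeZero ((5 ^ (k + 1) : ℕ) : ℚ) := ⟨by positivity⟩
  obtain ⟨η, hη⟩ := HasEnoughRootsOfUnity.exists_primitiveRoot Qb (5 ^ (k + 1))
  obtain ⟨j, -, hj⟩ := hξ.eq_pow_of_pow_eq_one (ξ := η ^ 5)
    (by rw [← pow_mul, ← pow_succ', hη.pow_eq_one])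
  have hy0 := (aunit_root hy hy').1
  have key : ∀ h : GQ, ∃ P : Pt E0 Qb, h ∈ lev d.ρ (m + 1) →
      (∃ n : ℕ, h y' = η ^ n * y' ∧ P = n • (j • T')) ∧ 5 • P = f h := by
    intro h
    by_cases hh : h ∈ lev d.ρ (m + 1)
    · obtain ⟨a, ha, ea⟩ := H h (lev_anti d.ρ (Nat.le_succ m) hh)
      have e5 : (h y' / y') ^ 5 = ξ ^ a := by
        rw [div_pow, ← map_pow, hy', ha, mul_div_assoc, div_self hy.1, mul_one]
      obtain ⟨n, -, hn⟩ := hη.eq_pow_of_pow_eq_one (ξ := h y' / y') (by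
        rw [pow_succ', pow_mul, e5, ← pow_mul, mul_comm, pow_mul, hξ.pow_eq_one, one_pow])
      refine ⟨n • (j • T'), fun _ => ⟨⟨n, by rw [hn, div_mul_cancel₀ _ hy0], rfl⟩, ?_⟩⟩
      rw [ea, smul_comm, smul_comm 5 j, hT', ← mul_smul]
      refine smul_congr hξ hT ?_
      rw [← e5, ← hn, mul_comm, pow_mul, hj, ← pow_mul, ← pow_mul, mul_comm]
    · exact ⟨0, fun h' => absurd h' hh⟩
  choose f' hf' using key
  refine ⟨f', ⟨k + 1, η, y', j • T', by omega, hη, aunit_root hy hy', ?_,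
    fun h hh => (hf' h hh).1⟩, fun h hh => (hf' h hh).2⟩
  rw [smul_comm, pow_succ, mul_smul, hT', hT, smul_zero]

end TTt

open TTt in
theorem ttS (hD : DivS) (hC : CycS) : TtS := by
  intro d m hm f hf
  refine ⟨?_, ?_, ?_, fun g => ⟨tt_conj hf g (AddMonoidHom.id _), tt_conj hf g (act E0 g)⟩,
    fun n hn => ?_, fun f' h' => ?_, ?_⟩
  · induction hf using AddSubgroup.closure_induction with
    | mem f hf => exact elem_add hC hm hf
    | zero => intro g _ h _; simp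
    | add f f' _ _ a b =>
      intro g hg h hh
      simp only [Pi.add_apply, a g hg h hh, b g hg h hh]; abel
    | neg f _ a =>
      intro g hg h hh
      simp only [Pi.neg_apply, a g hg h hh]; abel
  · induction hf using AddSubgroup.closure_induction with
    | mem f hf =>
      obtain ⟨k, ξ, y, T, hk, -, -, hT, H⟩ := hf
      intro h hh
      obtain ⟨a, -, ea⟩ := H h hh
      rw [ea, smul_comm, pow_smul_zero hk hT, smul_zero]
    | zero => intro h _; simp
    | add f f' _ _ a b => intro h hh; rw [Pi.add_apply, smul_add, a h hh, b h hh, add_zero]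
    | neg f _ a => intro h hh; rw [Pi.neg_apply, smul_neg, a h hh, neg_zero]
  · induction hf using AddSubgroup.closure_induction with
    | mem f hf =>
      obtain ⟨k, ξ, y, T, hk, hξ, hy, hT, H⟩ := hf
      refine ⟨MulAction.stabilizer GQ y, ⟨{y}, fun g hg => hg y (by simp)⟩, fun h hh hU => ?_⟩
      obtain ⟨a, ha, ea⟩ := H h hh
      have hU' : h y = y := hU
      rw [ea, smul_congr (b := 0) hξ hT (mul_right_cancel₀ hy.1 (by rw [← ha, hU']; simp)),
        zero_smul]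
    | zero => exact ⟨⊤, opn_top, fun _ _ _ => rfl⟩
    | add f f' _ _ a b =>
      obtain ⟨U, hU, a⟩ := a
      obtain ⟨V, hV, b⟩ := b
      exact ⟨U ⊓ V, opn_inf U V hU hV, fun h hh hUV => by
        rw [Pi.add_apply, a h hh hUV.1, b h hh hUV.2, add_zero]⟩
    | neg f _ a =>
      obtain ⟨U, hU, a⟩ := a
      exact ⟨U, hU, fun h hh h' => by rw [Pi.neg_apply, a h hh h', neg_zero]⟩
  · refine AddSubgroup.closure_mono ?_ hf
    rintro f ⟨k, ξ, y, T, hk, hξ, hy, hT, H⟩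
    exact ⟨k, ξ, y, T, hk.trans hn, hξ, hy, hT, fun h hh => H h (lev_anti d.ρ hn hh)⟩
  · have : f' - f ∈ TT d m := AddSubgroup.subset_closure ⟨0, 1, 1, 0, Nat.zero_le _,
      by simp, ⟨one_ne_zero, isIntegral_one, by simpa using isIntegral_one⟩, by simp,
      fun h hh => ⟨0, by simp, by simp [h' h hh]⟩⟩
    simpa using add_mem this hf
  · induction hf using AddSubgroup.closure_induction with
    | mem f hf =>
      obtain ⟨f', a, b⟩ := elem_div hD hf
      exact ⟨f', AddSubgroup.subset_closure a, b⟩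
    | zero => exact ⟨0, zero_mem _, fun _ _ => by simp⟩
    | add f f' _ _ a b =>
      obtain ⟨u, hu, a⟩ := a
      obtain ⟨v, hv, b⟩ := b
      exact ⟨u + v, add_mem hu hv, fun h hh => by
        rw [Pi.add_apply, Pi.add_apply, smul_add, a h hh, b h hh]⟩
    | neg f _ a =>
      obtain ⟨u, hu, a⟩ := a
      exact ⟨-u, neg_mem hu, fun h hh => by rw [Pi.neg_apply, Pi.neg_apply, smul_neg, a h hh]⟩

end Pool.Agent.Lib.MP_54db3e_nt
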