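import Pool.Agent.Lib.MP_54db3e_nt.Stmt

/-!
Fifth roots near one and norms of cyclotomic uniformisers.
-/

open scoped Classical
open Polynomial

noncomputable section

namespace Pool.Agent.Lib.MP_54db3e_nt

namespace TU5

theorem norm_five : ‖(5 : Om 5)‖ = 5⁻¹ := by
  have h : ‖((5 : ℕ) : Om 5)‖ = ((5 : ℕ) : ℝ)⁻¹ := by
    rw [← Padic.norm_p, ← PadicAlgCl.norm_extends, map_natCast]
  exact_mod_cast h

theorem lt_one {t : Om 5} (h : ‖t‖ ^ 4 < 5⁻¹) : ‖t‖ < 1 :=
  lt_of_pow_lt_pow_left₀ 4 zero_le_one (h.trans (by norm_num))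

theorem norm_one_add {t : Om 5} (h : ‖t‖ < 1) : ‖1 + t‖ = 1 := by
  rw [IsUltrametricDist.norm_add_eq_max_of_norm_ne_norm (by rw [norm_one]; exact h.ne'), norm_one,
    max_eq_left h.le]

theorem one (t : Om 5) (h : ‖t‖ ^ 4 < 5⁻¹) : ‖(1 + t) ^ 5 - 1‖ = 5⁻¹ * ‖t‖ := by
  have h1 := lt_one h
  have h2 : ‖5 * t * (1 + (1 + t) * (1 + t))‖ < 5⁻¹ := by
    have h3 : ‖1 + (1 + t) * (1 + t)‖ ≤ 1 := (IsUltrametricDist.norm_add_le_max _ _).trans
      (by simp [norm_one_add h1])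
    rw [norm_mul, norm_mul, norm_five, mul_assoc]
    exact mul_lt_of_lt_one_right (by norm_num)
      (mul_lt_one_of_nonneg_of_lt_one_left (norm_nonneg _) h1 h3)
  have h3 := (IsUltrametricDist.norm_add_le_max _ (t ^ 4)).trans_lt
    (max_lt h2 (norm_pow t 4 ▸ h))
  rw [show (1 + t) ^ 5 - 1 = (5 + (5 * t * (1 + (1 + t) * (1 + t)) + t ^ 4)) * t by ring, norm_mul,
    IsUltrametricDist.norm_add_eq_max_of_norm_ne_norm (by rw [norm_five]; exact h3.ne'), norm_five,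
    max_eq_left h3.le]

theorem le_of_pow {ξ : Om 5} (h : ‖ξ‖ = 1) (k : ℕ) : ‖1 - ξ ^ k‖ ≤ ‖1 - ξ‖ := by
  induction k with
  | zero => simp
  | succ k ih =>
    rw [show 1 - ξ ^ (k + 1) = (1 - ξ) + ξ * (1 - ξ ^ k) by ring]
    exact (IsUltrametricDist.norm_add_le_max _ _).trans
      (max_le le_rfl (by rwa [norm_mul, h, one_mul]))

end TU5

open TU5 in
theorem u5S (hE : EmbS) : U5S := by
  refine ⟨one, fun b hb => ?_, fun r ξ hξ => ?_⟩
  · obtain ⟨y, hy⟩ := IsAlgClosed.exists_pow_nat_eq (1 + b) (by norm_num : 0 < 5)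
    obtain ⟨z, hz⟩ := HasEnoughRootsOfUnity.exists_primitiveRoot (Om 5) 5
    have h1 := congrArg (fun f => ‖eval 1 f‖ ^ 4) (X_pow_sub_C_eq_prod hz (by norm_num) hy)
    simp only [eval_sub, eval_pow, eval_X, eval_C, eval_prod, one_pow, sub_add_cancel_left,
      norm_neg, norm_prod, ← Finset.prod_pow] at h1
    obtain ⟨i, -, hi⟩ : ∃ i ∈ Finset.range 5, ‖1 - z ^ i * y‖ ^ 4 < 5⁻¹ := by
      by_contra h
      simp only [not_exists, not_and, not_lt] at h
      have h2 := Finset.prod_le_prod (fun _ _ => by norm_num) h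
      rw [← h1, Finset.prod_const, Finset.card_range] at h2
      exact hb.not_ge h2
    rw [norm_sub_rev] at hi
    have h2 : (1 + (z ^ i * y - 1)) ^ 5 = 1 + b := by
      rw [add_sub_cancel, mul_pow, ← pow_mul, mul_comm i, pow_mul, hz.pow_eq_one, one_pow, one_mul,
        hy]
    refine ⟨_, hi, h2, fun γ hγ => ?_⟩
    generalize z ^ i * y - 1 = t at hi h2
    have h3 := norm_one_add (lt_one hi)
    have h4 : 1 + t ≠ 0 := fun h => by simp [h] at h3
    have h5 : ‖(γ t - t) / (1 + t)‖ ≤ ‖t‖ := by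
      rw [norm_div, h3, div_one, sub_eq_add_neg]
      exact (IsUltrametricDist.norm_add_le_max _ _).trans (by simp [hE.2.2.2.1 5 γ t])
    have h6 := one _ ((pow_le_pow_left₀ (norm_nonneg _) h5 4).trans_lt hi)
    have h7 := congrArg γ h2
    rw [map_pow, map_add, map_add, map_one, hγ, ← h2] at h7
    rw [show 1 + (γ t - t) / (1 + t) = (1 + γ t) / (1 + t) by field_simp; ring, div_pow, h7,
      div_self (pow_ne_zero _ h4), sub_self, norm_zero] at h6
    simpa [h4, sub_eq_zero] using h6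
  · have n1 : ∀ μ : Om 5, μ ^ 5 ^ (r + 1) = 1 → ‖μ‖ = 1 := fun μ h =>
      (pow_eq_one_iff_of_nonneg (norm_nonneg _) (pow_ne_zero (r + 1) (by norm_num : 5 ≠ 0))).1 (by
        rw [← norm_pow, h, norm_one])
    have h1 := congrArg (fun f => ‖eval 1 f‖) (cyclotomic_eq_prod_X_sub_primitiveRoots hξ)
    simp only [eval_one_cyclotomic_prime_pow, eval_prod, eval_sub, eval_X, eval_C, norm_prod,
      Nat.cast_ofNat, norm_five] at h1
    rw [h1, Finset.prod_eq_pow_card (b := ‖ξ - 1‖), hξ.card_primitiveRoots,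
      Nat.totient_prime_pow_succ Nat.prime_five, mul_comm]
    intro μ hμ
    have h2 := (mem_primitiveRoots (by positivity)).1 hμ
    obtain ⟨i, -, rfl⟩ := hξ.eq_pow_of_pow_eq_one h2.pow_eq_one
    obtain ⟨j, -, hj⟩ := h2.eq_pow_of_pow_eq_one hξ.pow_eq_one
    rw [norm_sub_rev ξ]
    exact le_antisymm (le_of_pow (n1 _ hξ.pow_eq_one) i)
      (by simpa only [hj] using le_of_pow (n1 _ h2.pow_eq_one) j)

end Pool.Agent.Lib.MP_54db3e_nt
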