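import Pool.Agent.Lib.MP_54db3e_nt.Stmt
import Pool.Agent.Lib.MP_54db3e_nt.H42UCGal

/-!
Kummer characters of units inverted by a scalar element of order four: the unit count at level `n`.
-/

open scoped Classical

noncomputable section

namespace Pool.Agent.Lib.MP_54db3e_nt

namespace TUc

theorem galois : IsGalois ℚ Qb := by
  have : IsAlgClosure ℚ Qb := AlgebraicClosure.instIsAlgClosure ℚ
  infer_instance

theorem val_inj {z : Qb} (hz : IsPrimitiveRoot z 5) {s t : F5} (h : z ^ s.val = z ^ t.val) :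
    s = t := ZMod.val_injective 5 (hz.pow_inj (ZMod.val_lt s) (ZMod.val_lt t) h)

theorem exists_val {z : Qb} (hz : IsPrimitiveRoot z 5) {x : Qb} (hx : x ^ 5 = 1) :
    ∃ s : F5, x = z ^ s.val := by
  obtain ⟨i, hi, rfl⟩ := hz.eq_pow_of_pow_eq_one hx
  exact ⟨(i : F5), by rw [ZMod.val_natCast, Nat.mod_eq_of_lt hi]⟩

theorem pow_val_sum {z : Qb} (hz : z ^ 5 = 1) {r : ℕ} (f : Fin r → F5) (s : Finset (Fin r)) :
    z ^ (∑ i ∈ s, f i).val = ∏ i ∈ s, z ^ (f i).val := by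
  induction s using Finset.induction_on with
  | empty => simp
  | insert a s ha ih => rw [Finset.sum_insert ha, Finset.prod_insert ha, pow_val_add hz, ih]

/-- The Kummer character of one element. -/
theorem kum {z : Qb} (hz : IsPrimitiveRoot z 5) (B : Subgroup GQ) [hN : B.Normal]
    (hB : ∀ h ∈ B, h z = z) {u : Qb} (hu0 : u ≠ 0) (hu : ∀ h ∈ B, h u = u) :
    ∃ (y : Qb) (κ : GQ → F5), y ^ 5 = u ∧ (∀ h ∈ B, h y = z ^ (κ h).val * y) ∧ AddOn B κ ∧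
      (∀ (a : GQ) (w : F5), a z = z ^ w.val → a u = u → ∀ h ∈ B, κ (a⁻¹ * h * a) * w = κ h) ∧
      ∀ (a : GQ) (w : F5), a z = z ^ w.val → u * a u = 1 → ∀ h ∈ B,
        κ (a⁻¹ * h * a) * w = -κ h := by
  obtain ⟨y, hy⟩ := IsAlgClosed.exists_pow_nat_eq u (n := 5) (by norm_num)
  have hy0 : y ≠ 0 := fun h => hu0 (by rw [← hy, h]; norm_num)
  have z5 := hz.pow_eq_one
  have hex : ∀ h : GQ, ∃ s : F5, h ∈ B → h y = z ^ s.val * y := fun h => by
    by_cases hh : h ∈ B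
    · obtain ⟨s, hs⟩ := exists_val hz (x := h y / y) (by
        rw [div_pow, ← map_pow, hy, hu h hh, div_self hu0])
      exact ⟨s, fun _ => by rw [← hs, div_mul_cancel₀ _ hy0]⟩
    · exact ⟨0, fun h' => absurd h' hh⟩
  choose κ hκ using hex
  have hfix : ∀ h ∈ B, ∀ x : Qb, x ^ 5 = 1 → h x = x := fun h hh x hx => by
    obtain ⟨s, rfl⟩ := exists_val hz hx
    rw [map_pow, hB h hh]
  have hconj : ∀ (a : GQ) (w : F5), a z = z ^ w.val → ∀ h ∈ B,
      h (a y) = z ^ (κ (a⁻¹ * h * a) * w).val * a y := fun a w ha h hh => by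
    have h1 := hκ _ (by simpa using hN.conj_mem h hh a⁻¹ : a⁻¹ * h * a ∈ B)
    have h2 := congrArg a h1
    rw [← AlgEquiv.mul_apply, mul_assoc, mul_inv_cancel_left, AlgEquiv.mul_apply, map_mul, map_pow,
      ha] at h2
    rw [h2, pow_val_mul z5, mul_assoc a⁻¹]
  have hay : ∀ a : GQ, a y ≠ 0 := fun a => (map_ne_zero a).2 hy0
  refine ⟨y, κ, hy, fun h hh => hκ h hh, fun g hg h hh => ?_, fun a w ha hau h hh => ?_,
    fun a w ha hau h hh => ?_⟩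
  · apply val_inj hz
    apply mul_right_cancel₀ hy0
    rw [← hκ _ (mul_mem hg hh), AlgEquiv.mul_apply, hκ h hh, map_mul, map_pow, hB g hg, hκ g hg,
      pow_val_add z5]
    ring
  · have h1 := hfix h hh (a y / y) (by rw [div_pow, ← map_pow, hy, hau, div_self hu0])
    rw [map_div₀, hconj a w ha h hh, hκ h hh] at h1
    apply val_inj hz
    have hz0 : z ≠ 0 := hz.ne_zero (by norm_num)
    have := hay a
    field_simp at h1
    exact h1
  · have h1 := hfix h hh (y * a y) (by rw [mul_pow, ← map_pow, hy, hau])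
    rw [map_mul, hconj a w ha h hh, hκ h hh] at h1
    rw [eq_neg_iff_add_eq_zero]
    apply val_inj hz
    apply mul_right_cancel₀ (mul_ne_zero hy0 (hay a))
    rw [pow_val_add z5, ZMod.val_zero, pow_zero, one_mul]
    linear_combination h1

theorem tz_eq {n : ℕ} (hn : 1 ≤ n) {x y : ℤ_[5]} (h : (5 : ℤ_[5]) ^ n ∣ x - y) :
    (PadicInt.toZMod x : F5) = PadicInt.toZMod y := by
  obtain ⟨t, ht⟩ := (dvd_pow_self (5 : ℤ_[5]) (by omega : n ≠ 0)).trans h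
  have e : x = y + 5 * t := by rw [← ht]; ring
  have h5 : (5 : F5) = 0 := by decide
  rw [e, map_add, map_mul, map_ofNat, h5, zero_mul, add_zero]

theorem r1_ne (d : Alg) : d.r1 ≠ 0 := fun h => by
  have h1 := d.hr1
  have h2 := d.ha
  rw [h] at h1
  have h3 : d.a = 7 := by linear_combination 2 * h1
  rw [h3] at h2
  norm_num at h2

theorem neg_ne (d : Alg) : -d.r1 ≠ d.r1 := fun h => r1_ne d (by linear_combination (-1 / 2 : Qb) * h)

/-- the subgroup of `Z` fixing `r₁` -/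
def HH (d : Rep) (Z : Subgroup GQ) : Subgroup GQ := Z ⊓ MulAction.stabilizer GQ d.r1

theorem mem_HH {d : Rep} {Z : Subgroup GQ} {g : GQ} : g ∈ HH d Z ↔ g ∈ Z ∧ g d.r1 = d.r1 := Iff.rfl

section

variable (d : Rep) {Z : Subgroup GQ} (hZ : Z ≤ gam d.ρ) {z0 : GQ} (h0 : z0 ∈ Z)
  (h1 : z0 d.r1 = -d.r1)

include hZ h0 h1

theorem HH_hz : ∀ z ∈ Z, z ∈ HH d Z ∨ z0⁻¹ * z ∈ HH d Z := fun z hz => by
  have h := d.act_r1 z (hZ hz)
  split_ifs at h
  · exact Or.inl ⟨hz, h⟩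
  · refine Or.inr (mem_HH.2 ⟨mul_mem (inv_mem h0) hz, ?_⟩)
    rw [AlgEquiv.mul_apply, h, ← h1, ← AlgEquiv.mul_apply, inv_mul_cancel, AlgEquiv.one_apply]

omit hZ in
theorem HH_h2 : z0 * z0 ∈ HH d Z :=
  mem_HH.2 ⟨mul_mem h0 h0, by rw [AlgEquiv.mul_apply, h1, map_neg, h1, neg_neg]⟩

omit hZ in
theorem HH_hn : ∀ h ∈ HH d Z, z0⁻¹ * h * z0 ∈ HH d Z := fun h hh => by
  obtain ⟨ha, hb⟩ := mem_HH.1 hh
  refine mem_HH.2 ⟨mul_mem (mul_mem (inv_mem h0) ha) h0, ?_⟩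
  rw [AlgEquiv.mul_apply, AlgEquiv.mul_apply, h1, map_neg, hb, ← h1, ← AlgEquiv.mul_apply,
    inv_mul_cancel, AlgEquiv.one_apply]

omit hZ in
theorem HH_index (hfin : (HH d Z).index ≠ 0) : 2 * Z.index ≤ (HH d Z).index := by
  have e := Subgroup.relIndex_mul_index (show HH d Z ≤ Z from inf_le_left)
  have e1 : (HH d Z).relIndex Z ≠ 1 := fun h => neg_ne d.toAlg (by
    have := (mem_HH.1 (Subgroup.relIndex_eq_one.1 h h0)).2
    rwa [h1] at this)
  have e0 : (HH d Z).relIndex Z ≠ 0 := fun h => hfin (by rw [← e, h, zero_mul])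
  rw [← e]
  exact Nat.mul_le_mul_right _ (by omega)

end

theorem lev1_fix (hCh : ChS) (d : Rep) {g : GQ} (hg : g ∈ lev d.ρ 1) :
    g d.z = d.z ∧ g d.r1 = d.r1 := by
  obtain ⟨h1, h2, h3⟩ := ((hCh GQ d.ρ).2.2.1 g).1 hg
  constructor
  · rw [d.act_z g h1, om, h2, h3, mul_one, ZMod.val_one, pow_one]
  · rw [d.act_r1 g h1, h2, one_pow, if_pos rfl]

/-- the scalar element of order four -/
theorem exists_z0 (hG : GrpS) (hD : DensS) (d : Rep) {n : ℕ} (hn : 1 ≤ n) :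
    ∃ z0 ∈ zlev d.ρ n, z0 d.r1 = -d.r1 := by
  obtain ⟨z0, c, hc, hz, -⟩ := (hG GQ d.ρ (hD d) n hn).2.2.2.1
  have hm : z0 ∈ zlev d.ρ n := ⟨c, by rw [show c ^ 4 = (c ^ 2) ^ 2 by ring, hc]; norm_num, hz⟩
  refine ⟨z0, hm, ?_⟩
  have h1 : ph1 d.ρ z0 = PadicInt.toZMod c := by
    have := tz_eq hn (hz 0 0)
    simpa [ph1] using this
  have h2 : ph1 d.ρ z0 ^ 2 = -1 := by rw [h1, ← map_pow, hc, map_neg, map_one]
  rw [d.act_r1 z0 (zlev_le_gam d.ρ hn hm), h2, if_neg (by decide)]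

/-- The Kummer characters of a family of units fixed by `HH d Z` and inverted by `z0`. -/
theorem family (hCh : ChS) (d : Rep) {n : ℕ} (hn : 1 ≤ n) {Z : Subgroup GQ} (hZ : Z ≤ gam d.ρ)
    (hzZ : zlev d.ρ n ≤ Z) {z0 : GQ} (h0 : z0 ∈ Z) (h1 : z0 d.r1 = -d.r1) (B : Subgroup GQ)
    [B.Normal] (hB : B ≤ lev d.ρ 1) (hBZ : B ≤ Z) {r : ℕ} (u : Fin r → Qb)
    (hu : ∀ i, IsIntegral ℤ (u i) ∧ u i * z0 (u i) = 1 ∧ ∀ h ∈ HH d Z, h (u i) = u i)
    (hind : ∀ (e : Fin r → ℕ) (t : Qb), (∀ g ∈ B, g t = t) → ∏ i, u i ^ e i = t ^ 5 →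
      ∀ i, 5 ∣ e i) :
    ∃ κ : Fin r → GQ → F5, (∀ i, κ i ∈ UTs d.z d.hz.pow_eq_one B) ∧ (∀ i, AddOn B (κ i)) ∧
      (∀ i, ∀ z ∈ zlev d.ρ n, ∀ h ∈ B, κ i (z⁻¹ * h * z) = κ i h) ∧
      (∀ i, ∀ a ∈ HH d Z, om d.ρ a = -1 → ∀ h ∈ B, κ i (a⁻¹ * h * a) = -κ i h) ∧
      ∀ s : Fin r → F5, (∀ h ∈ B, ∑ i, s i * κ i h = 0) → s = 0 := by
  have hu0 : ∀ i, u i ≠ 0 := fun i h => by
    have := (hu i).2.1
    rw [h, zero_mul] at this
    exact zero_ne_one this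
  have hBH : ∀ h ∈ B, h ∈ HH d Z := fun h hh => mem_HH.2 ⟨hBZ hh, (lev1_fix hCh d (hB hh)).2⟩
  choose y κ hy hκ hadd hp hm using fun i => kum d.hz B (fun h hh => (lev1_fix hCh d (hB hh)).1)
    (hu0 i) (fun h hh => (hu i).2.2 h (hBH h hh))
  have z5 := d.hz.pow_eq_one
  refine ⟨κ, fun i => ⟨y i, ⟨fun h => hu0 i (by rw [← hy i, h]; norm_num), ?_, ?_⟩, hκ i⟩, hadd,
    fun i z hz h hh => ?_, fun i a ha hom h hh => ?_, fun s hs => ?_⟩
  · exact IsIntegral.of_pow (n := 5) (by norm_num) (by rw [hy i]; exact (hu i).1)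
  · refine IsIntegral.of_pow (n := 5) (by norm_num) ?_
    rw [inv_pow, hy i, ← eq_inv_of_mul_eq_one_right (hu i).2.1]
    exact map_isIntegral_int z0 (hu i).1
  · have hg := zlev_le_gam d.ρ hn hz
    have e1 : om d.ρ z = ph1 d.ρ z ^ 2 := by
      rw [om, ← ((hCh GQ d.ρ).2.2.2.2.1 n hn z hz).1, sq]
    have e2 := d.act_r1 z hg
    have e3 := ((hCh GQ d.ρ).2.1 z hg).1
    split_ifs at e2 with hc
    · have := hp i z _ (d.act_z z hg) ((hu i).2.2 z (mem_HH.2 ⟨hzZ hz, e2⟩)) h hh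
      rwa [e1, hc, mul_one] at this
    · have e4 : ph1 d.ρ z ^ 2 = -1 := by
        revert hc e3
        generalize ph1 d.ρ z = t
        revert t
        decide
      have e5 : z0⁻¹ * z ∈ HH d Z := mem_HH.2 ⟨mul_mem (inv_mem h0) (hzZ hz), by
        rw [AlgEquiv.mul_apply, e2, ← h1, ← AlgEquiv.mul_apply, inv_mul_cancel, AlgEquiv.one_apply]⟩
      have e6 := congrArg z0 ((hu i).2.2 _ e5)
      rw [← AlgEquiv.mul_apply, mul_inv_cancel_left] at e6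
      have := hm i z _ (d.act_z z hg) (by rw [e6]; exact (hu i).2.1) h hh
      rw [e1, e4] at this
      linear_combination -this
  · have := hp i a _ (d.act_z a (hZ (mem_HH.1 ha).1)) ((hu i).2.2 a ha) h hh
    rw [hom] at this
    linear_combination -this
  · have := hind (fun i => (s i).val) (∏ i, y i ^ (s i).val) (fun g hg => by
      rw [map_prod]
      have e : ∀ i, g (y i ^ (s i).val) = d.z ^ (s i * κ i g).val * y i ^ (s i).val := fun i => by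
        rw [map_pow, hκ i g hg, mul_pow, pow_val_mul z5]
      simp only [e]
      rw [Finset.prod_mul_distrib, ← pow_val_sum z5, hs g hg, ZMod.val_zero, pow_zero, one_mul])
      (by
        rw [← Finset.prod_pow]
        exact Finset.prod_congr rfl fun i _ => by rw [← hy i, ← pow_mul, ← pow_mul, mul_comm])
    funext i
    have h5 := this i
    have h6 := ZMod.val_lt (s i)
    have h7 : (s i).val = 0 := by omega
    exact (ZMod.val_eq_zero _).1 h7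

theorem cc_sq {φ : Qb →+* ℂ} {c : GQ} (h : ∀ x, φ (c x) = (starRingEnd ℂ) (φ x)) : c * c = 1 := by
  ext x
  apply φ.injective
  rw [AlgEquiv.mul_apply, h, h, Complex.conj_conj, AlgEquiv.one_apply]

theorem cc_z {φ : Qb →+* ℂ} {c : GQ} (h : ∀ x, φ (c x) = (starRingEnd ℂ) (φ x)) {z : Qb}
    (hz : IsPrimitiveRoot z 5) : c z ≠ z := fun e => by
  have h1 : φ z ^ 5 = 1 := by rw [← map_pow, hz.pow_eq_one, map_one]
  have h2 : ‖φ z‖ = 1 := Complex.norm_eq_one_of_pow_eq_one h1 (by norm_num)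
  have h3 := h z
  rw [e] at h3
  have h4 : φ z * (starRingEnd ℂ) (φ z) = 1 := by
    rw [Complex.mul_conj, Complex.normSq_eq_norm_sq, h2]; norm_num
  rw [← h3, ← map_mul, ← map_one φ] at h4
  have h5 : z ^ 2 = 1 := by rw [sq]; exact φ.injective h4
  have := (hz.pow_eq_one_iff_dvd 2).1 h5
  omega

theorem ph1_sq (hCh : ChS) (d : Rep) {c : GQ} (hc : c ∈ gam d.ρ) (h : c * c = 1) :
    ph1 d.ρ c ^ 2 = 1 := by
  rw [sq, ← ((hCh GQ d.ρ).1 c hc c hc).1, h]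
  simp [ph1]

theorem open_HH (hCh : ChS) (hF : FgS) (d : Rep) {n : ℕ} (hn : 1 ≤ n) {Z : Subgroup GQ}
    (hzZ : zlev d.ρ n ≤ Z) : lev d.ρ n ≤ HH d Z ∧ IsOpen (HH d Z : Set GQ) := by
  have := galois
  have h : lev d.ρ n ≤ HH d Z := fun g hg =>
    mem_HH.2 ⟨hzZ (lev_le_zlev d.ρ n hg), (lev1_fix hCh d (lev_anti d.ρ hn hg)).2⟩
  exact ⟨h, Subgroup.isOpen_mono h ((hF ℚ Qb).1 _ (d.opn_lev n)).2.2.2.1⟩

theorem index_HH (hG : GrpS) (hI : IdxS) (hD : DensS) (d : Rep) {n : ℕ} (hn : 1 ≤ n)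
    {H : Subgroup GQ} (h : lev d.ρ n ≤ H) : H.index ≠ 0 := fun e => by
  have e1 := Subgroup.relIndex_mul_index h
  have e2 := Subgroup.relIndex_mul_index (lev_le_gam d.ρ hn)
  rw [(hG GQ d.ρ (hD d) n hn).1, (hI d).2.1, ← e1, e, mul_zero] at e2
  exact absurd e2 (by positivity)

end TUc

open TUc in
theorem ucS (hCh : ChS) (hF : FgS) (hG : GrpS) (hI : IdxS) (hD : DensS) : UcS := by
  intro d n hn
  have := galois
  obtain ⟨z0, h0, h1⟩ := exists_z0 hG hD d hn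
  have hZ := zlev_le_gam d.ρ hn
  obtain ⟨hle, hop⟩ := open_HH hCh hF d hn (le_refl (zlev d.ρ n))
  obtain ⟨i1, i2, -⟩ := hG GQ d.ρ (hD d) n hn
  have e1 := Subgroup.relIndex_mul_relIndex _ _ _ (lev_le_zlev d.ρ n) hZ
  rw [i1, i2] at e1
  have e2 : (lev d.ρ n).relIndex (zlev d.ρ n) = 4 :=
    Nat.eq_of_mul_eq_mul_right (m := 4 * 5 ^ (4 * (n - 1))) (by positivity) (by rw [e1]; ring)
  have e3 := Subgroup.relIndex_mul_relIndex _ _ _ hle (show HH d (zlev d.ρ n) ≤ _ from inf_le_left)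
  have e4 := Subgroup.relIndex_mul_index hZ
  rw [i2, (hI d).2.1] at e4
  have e5 := HH_index d h0 h1 (index_HH hG hI hD d hn hle)
  obtain ⟨u, hu, hind⟩ := H42.UC (G := lev d.ρ n) (r := 4 * 5 ^ (4 * (n - 1))) hop inf_le_left
    (fun h => by
      have := h.mul_right ((HH d (zlev d.ρ n)).relIndex (zlev d.ρ n))
      rw [e3, e2] at this
      omega) z0 (HH_hz d hZ h0 h1) (HH_h2 d h0 h1) (HH_hn d h0 h1)
    (fun φ c hc h => cc_z h d.hz (by
      rw [d.act_z c (hZ hc), om, ← ((hCh GQ d.ρ).2.2.2.2.1 n hn c hc).1, ← sq,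
        ph1_sq hCh d (hZ hc) (cc_sq h), ZMod.val_one, pow_one])) (by omega)
  obtain ⟨κ, k1, k2, k3, -, k5⟩ := family hCh d hn hZ le_rfl h0 h1 (lev d.ρ n) (lev_anti d.ρ hn)
    (lev_le_zlev d.ρ n) u hu hind
  exact ⟨κ, fun i => ⟨k1 i, k2 i, k3 i⟩, k5⟩

end Pool.Agent.Lib.MP_54db3e_nt
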