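import Pool.Agent.Lib.MP_54db3e_nt.TUc

/-!
The unit count on the cyclotomic level.
-/

open scoped Classical

noncomputable section

namespace Pool.Agent.Lib.MP_54db3e_nt

namespace TUl

open TUc

/-- elements of `gam` whose determinant has square 1 modulo `5^n` -/
def ZZ (d : Rep) (n : ℕ) : Subgroup GQ where
  carrier := {g | g ∈ gam d.ρ ∧ (5 : ℤ_[5]) ^ n ∣ (d.ρ g).det ^ 2 - 1}
  one_mem' := ⟨one_mem _, by simp⟩
  mul_mem' := fun {a b} ha hb => ⟨mul_mem ha.1 hb.1, by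
    have e : (d.ρ (a * b)).det ^ 2 - 1 =
        ((d.ρ a).det ^ 2 - 1) * (d.ρ b).det ^ 2 + ((d.ρ b).det ^ 2 - 1) := by
      rw [map_mul, Matrix.det_mul]; ring
    rw [e]; exact (ha.2.mul_right _).add hb.2⟩
  inv_mem' := fun {a} ha => ⟨inv_mem ha.1, by
    have h1 : (d.ρ a).det * (d.ρ a⁻¹).det = 1 := by
      rw [← Matrix.det_mul, rho_mul_inv, Matrix.det_one]
    have e : (d.ρ a⁻¹).det ^ 2 - 1 = -(((d.ρ a).det ^ 2 - 1) * (d.ρ a⁻¹).det ^ 2) := by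
      rw [sub_mul, ← mul_pow, h1]; ring
    rw [e]; exact (ha.2.mul_right _).neg_right⟩

theorem mem_ZZ {d : Rep} {n : ℕ} {g : GQ} :
    g ∈ ZZ d n ↔ g ∈ gam d.ρ ∧ (5 : ℤ_[5]) ^ n ∣ (d.ρ g).det ^ 2 - 1 := Iff.rfl

theorem ZZ_le (d : Rep) (n : ℕ) : ZZ d n ≤ gam d.ρ := fun _ h => h.1

theorem ZZ_anti (d : Rep) {n m : ℕ} (h : m ≤ n) : ZZ d n ≤ ZZ d m := fun _ hg =>
  ⟨hg.1, (pow_dvd_pow _ h).trans hg.2⟩

theorem zlev_le (d : Rep) {n : ℕ} (hn : 1 ≤ n) : zlev d.ρ n ≤ ZZ d n := fun g hg => by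
  refine ⟨zlev_le_gam d.ρ hn hg, ?_⟩
  obtain ⟨c, hc, h⟩ := hg
  have h1 := MC.det h
  have e : (c • (1 : M2)).det = c ^ 2 := by simp [sq]
  rw [e] at h1
  have e2 : (d.ρ g).det ^ 2 - 1 = ((d.ρ g).det - c ^ 2) * ((d.ρ g).det + c ^ 2) := by
    linear_combination hc
  rw [e2]
  exact h1.mul_right _

theorem not_dvd_two : ¬ (5 : ℤ_[5]) ∣ 2 := fun h => by
  have := tz_eq (n := 1) le_rfl (x := 2) (y := 0) (by simpa using h)
  rw [map_zero, map_ofNat] at this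
  revert this
  decide

theorem slev_eq (d : Rep) (n : ℕ) : slev d.ρ n = lev d.ρ 1 ⊓ ZZ d n := by
  ext g
  constructor
  · rintro ⟨h1, h2⟩
    refine ⟨h1, lev_le_gam d.ρ le_rfl h1, ?_⟩
    rw [show (d.ρ g).det ^ 2 - 1 = ((d.ρ g).det - 1) * ((d.ρ g).det + 1) by ring]
    exact h2.mul_right _
  · rintro ⟨h1, -, h2⟩
    refine ⟨h1, ?_⟩
    rw [show (d.ρ g).det ^ 2 - 1 = ((d.ρ g).det - 1) * ((d.ρ g).det + 1) by ring] at h2
    have hp : Prime (5 : ℤ_[5]) := by simpa using PadicInt.prime_p (p := 5)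
    refine hp.pow_dvd_of_dvd_mul_right n (fun h => not_dvd_two ?_) h2
    have h3 := MC.det h1
    rw [pow_one, Matrix.det_one] at h3
    have := h.sub h3
    rwa [show (d.ρ g).det + 1 - ((d.ρ g).det - 1) = 2 by ring] at this

theorem rel_le (hG : GrpS) (hD : DensS) (d : Rep) {n : ℕ} (hn : 1 ≤ n) :
    (lev d.ρ 1).relIndex (ZZ d n) ≤ 8 := by
  obtain ⟨i1, -, -, ⟨-, c, hc, -⟩, -⟩ := hG GQ d.ρ (hD d) 1 le_rfl
  have hle : lev d.ρ 1 ≤ ZZ d 1 := (lev_le_zlev d.ρ 1).trans (zlev_le d le_rfl)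
  have e := Subgroup.relIndex_mul_relIndex _ _ _ hle (ZZ_le d 1)
  rw [i1] at e
  norm_num at e
  have e1 : (ZZ d 1).relIndex (gam d.ρ) ≠ 1 := fun h => by
    obtain ⟨g, hg⟩ := hD d !![c, 0; 0, 1] (by simp) (by simp)
      (by simpa using IsUnit.of_mul_eq_one (-c) (by linear_combination -hc)) (by simp) 1
    have hgg : g ∈ gam d.ρ := ⟨by simpa using hg 0 1, by simpa using hg 1 0⟩
    have h2 := (Subgroup.relIndex_eq_one.1 h hgg).2
    have h3 := MC.det hg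
    have e3 : (!![c, 0; 0, 1] : M2).det = c := by simp [Matrix.det_fin_two]
    rw [e3] at h3
    have h4 := (h3.mul_right ((d.ρ g).det + c)).sub h2
    rw [pow_one, show ((d.ρ g).det - c) * ((d.ρ g).det + c) - ((d.ρ g).det ^ 2 - 1) = 2 by
      linear_combination -hc] at h4
    exact not_dvd_two h4
  have e0 : (ZZ d 1).relIndex (gam d.ρ) ≠ 0 := fun h => by rw [h] at e; omega
  have e2 : (lev d.ρ 1).relIndex (ZZ d 1) ≠ 0 := fun h => by rw [h] at e; omega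
  have e4 : (lev d.ρ 1).relIndex (ZZ d 1) * 2 ≤ 16 := by
    rw [← e]
    exact Nat.mul_le_mul_left _ (by omega)
  have := Subgroup.relIndex_le_of_le_right (H := lev d.ρ 1) (ZZ_anti d hn) e2
  omega

theorem cc_fix {φ : Qb →+* ℂ} {c : GQ} (h : ∀ x, φ (c x) = (starRingEnd ℂ) (φ x)) {a : Qb}
    (ha : a ^ 2 = 29) : c a = a := by
  apply φ.injective
  rw [h]
  have h1 : φ a ^ 2 = 29 := by rw [← map_pow, ha, map_ofNat]
  have h2 := congrArg Complex.re h1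
  have h3 := congrArg Complex.im h1
  simp only [sq, Complex.mul_re, Complex.mul_im, Complex.re_ofNat, Complex.im_ofNat] at h2 h3
  rw [Complex.conj_eq_iff_im]
  have h4 : (φ a).re * (φ a).im = 0 := by linarith
  rcases mul_eq_zero.1 h4 with h5 | h5
  · rw [h5] at h2
    nlinarith [mul_self_nonneg (φ a).im]
  · exact h5

end TUl

open TUc TUl in
theorem ulS (hCh : ChS) (hF : FgS) (hG : GrpS) (hI : IdxS) (hD : DensS) : UlS := by
  intro d n hn
  have := galois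
  obtain ⟨z0, h0, h1⟩ := exists_z0 hG hD d hn
  have hZ := ZZ_le d n
  have hzZ := zlev_le d hn
  obtain ⟨hle, hop⟩ := open_HH hCh hF d hn hzZ
  have i3 := (hG GQ d.ρ (hD d) n hn).2.2.1
  have hs := slev_eq d n
  have hs1 : slev d.ρ n ≤ lev d.ρ 1 := hs ▸ inf_le_left
  have hsZ : slev d.ρ n ≤ ZZ d n := hs ▸ inf_le_right
  have e1 := Subgroup.relIndex_mul_index (hsZ.trans hZ)
  rw [i3, (hI d).2.1, ← Subgroup.relIndex_mul_index hsZ] at e1
  have e2 : (slev d.ρ n).relIndex (ZZ d n) ≤ 8 := by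
    rw [hs, Subgroup.inf_relIndex_right]
    exact rel_le hG hD d hn
  have e3 := Nat.mul_le_mul_right (ZZ d n).index e2
  have e5 := HH_index d (hzZ h0) h1 (index_HH hG hI hD d hn hle)
  obtain ⟨u, hu, hind⟩ := H42.UC_real (G := slev d.ρ n) (r := 4 * 5 ^ (n - 1)) hop inf_le_left
    (fun h => by
      have e : slev d.ρ n ⊓ HH d (ZZ d n) = lev d.ρ 1 ⊓ HH d (ZZ d n) := by
        rw [hs, inf_assoc, inf_eq_right.2 (show HH d (ZZ d n) ≤ ZZ d n from inf_le_left)]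
      rw [← Subgroup.inf_relIndex_right, e, Subgroup.inf_relIndex_right] at h
      exact (hI d).1 (h.trans (Subgroup.relIndex_dvd_index_of_normal _ _)))
    z0 (HH_hz d hZ (hzZ h0) h1) (HH_h2 d (hzZ h0) h1) (HH_hn d (hzZ h0) h1)
    (fun φ c h => by
      have hc : c ∈ gam d.ρ := (d.mem_gam c).2 (cc_fix h d.ha)
      have hcc := cc_sq h
      refine mem_HH.2 ⟨⟨hc, ?_⟩, by rw [d.act_r1 c hc, if_pos (ph1_sq hCh d hc hcc)]⟩
      rw [sq, ← Matrix.det_mul, ← map_mul, hcc, map_one, Matrix.det_one, sub_self]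
      exact dvd_zero _) (by omega)
  obtain ⟨κ, k1, -, k3, k4, k5⟩ := family hCh d hn hZ hzZ (hzZ h0) h1 (slev d.ρ n) hs1 hsZ u hu hind
  refine ⟨κ, k1, k3, fun i a ha => ?_, k5⟩
  have hag : a ∈ gam d.ρ := by
    have h := MC.mono ha hn
    exact ⟨by simpa using h 0 1, by simpa using h 1 0⟩
  have p1 : ph1 d.ρ a = 1 := by simpa [ph1] using tz_eq hn (ha 0 0)
  have p2 : ph2 d.ρ a = -1 := by simpa [ph2] using tz_eq hn (ha 1 1)
  refine k4 i a (mem_HH.2 ⟨⟨hag, ?_⟩, by rw [d.act_r1 a hag, p1, one_pow, if_pos rfl]⟩)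
    (by rw [om, p1, p2, one_mul])
  have h3 := MC.det ha
  have e : (!![1, 0; 0, -1] : M2).det = -1 := by simp [Matrix.det_fin_two]
  rw [e] at h3
  rw [show (d.ρ a).det ^ 2 - 1 = ((d.ρ a).det - -1) * ((d.ρ a).det - 1) by ring]
  exact h3.mul_right _

end Pool.Agent.Lib.MP_54db3e_nt
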