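import Pool.Agent.Lib.MP_54db3e_nt.TRad

/-!
Formal properties of the Kummer characters of units.
-/

open scoped Classical

noncomputable section

namespace Pool.Agent.Lib.MP_54db3e_nt

open TRad in
theorem utS (hC : ChS) : UtS := by
  intro d B hB hle
  have hz := d.hz
  have hzB : ∀ g ∈ B, g d.z = d.z := by
    intro g hg
    obtain ⟨h1, h2, h3⟩ := ((hC GQ d.ρ).2.2.1 g).1 (hle hg)
    rw [d.act_z g h1, om, h2, h3, mul_one, ZMod.val_one, pow_one]
  refine ⟨?_, ?_, ?_, ?_⟩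
  · rintro κ ⟨y, hy, hκ⟩ g hg h hh
    refine val_inj hz (mul_right_cancel₀ hy.1 ?_)
    rw [← hκ _ (mul_mem hg hh), AlgEquiv.mul_apply, hκ h hh, map_mul, map_pow, hzB g hg, hκ g hg,
      pow_val_add hz.pow_eq_one]
    ring
  · rintro κ ⟨y, hy, hκ⟩ κ' hκ'
    exact ⟨y, hy, fun h hh => by rw [hκ' h hh, hκ h hh]⟩
  · rintro κ ⟨y, hy, hκ⟩ a
    have ha : IsPrimitiveRoot (a d.z) 5 := hz.map_of_injective a.injective
    obtain ⟨m, -, hm⟩ := ha.eq_pow_of_pow_eq_one hz.pow_eq_one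
    refine ⟨(a y) ^ m, aunit_pow (aunit_map hy a) m, fun h hh => ?_⟩
    have h1 : a⁻¹ * h * a ∈ B := by simpa using hB.conj_mem h hh a⁻¹
    have h2 : h (a y) = a ((a⁻¹ * h * a) y) := by
      rw [← AlgEquiv.mul_apply, ← AlgEquiv.mul_apply]; congr 1; group
    rw [map_pow, h2, hκ _ h1, map_mul, map_pow, mul_pow, ← pow_mul, mul_comm _ m, pow_mul, hm]
  · rintro κ ⟨y, hy, hκ⟩
    refine ⟨MulAction.stabilizer GQ y, ⟨{y}, fun g hg => hg y (Finset.mem_singleton_self y)⟩,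
      fun g hg hU => ?_⟩
    have h1 : g y = y := hU
    exact eq_zero hz hy.1 (h1.symm.trans (hκ g hg))

end Pool.Agent.Lib.MP_54db3e_nt
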