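import Pool.Agent.Lib.MP_54db3e_nt.Stmt

open scoped Classical

namespace Pool.Agent.Lib.MP_54db3e_nt

theorem vS (hRam : RamS) (hIdx : IdxS) (hI : InertS) : VS := by
  intro d l _ h5 h13 h659 ι n y hy hf
  obtain ⟨U, hN, hO, hU, h⟩ := hI d l h5 h13 h659 ι n
  exact hRam l ι U (lev d.ρ 1) hN hO inferInstance (hIdx d).1 y hy (fun g hg => hf g (hU hg))
    fun g h1 h2 => hf g (h g h1 h2)

end Pool.Agent.Lib.MP_54db3e_nt
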