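import Pool.Agent.Lib.MP_54db3e_nt.TGood
import Pool.Agent.Lib.MP_54db3e_nt.TEc5
import Pool.Agent.Lib.MP_54db3e_nt.TDiv
import Pool.Agent.Lib.MP_54db3e_nt.TTor5
import Pool.Agent.Lib.MP_54db3e_nt.TRep
import Pool.Agent.Lib.MP_54db3e_nt.TCh
import Pool.Agent.Lib.MP_54db3e_nt.TFg
import Pool.Agent.Lib.MP_54db3e_nt.TEmb
import Pool.Agent.Lib.MP_54db3e_nt.TRad
import Pool.Agent.Lib.MP_54db3e_nt.TGrp
import Pool.Agent.Lib.MP_54db3e_nt.TLower
import Pool.Agent.Lib.MP_54db3e_nt.TE1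
import Pool.Agent.Lib.MP_54db3e_nt.TIdx
import Pool.Agent.Lib.MP_54db3e_nt.TC5
import Pool.Agent.Lib.MP_54db3e_nt.TOff
import Pool.Agent.Lib.MP_54db3e_nt.TBig
import Pool.Agent.Lib.MP_54db3e_nt.TCycl
import Pool.Agent.Lib.MP_54db3e_nt.TTame
import Pool.Agent.Lib.MP_54db3e_nt.TRam
import Pool.Agent.Lib.MP_54db3e_nt.TNp
import Pool.Agent.Lib.MP_54db3e_nt.TNq
import Pool.Agent.Lib.MP_54db3e_nt.TRed
import Pool.Agent.Lib.MP_54db3e_nt.TE15
import Pool.Agent.Lib.MP_54db3e_nt.TI5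
import Pool.Agent.Lib.MP_54db3e_nt.TDens
import Pool.Agent.Lib.MP_54db3e_nt.TUt
import Pool.Agent.Lib.MP_54db3e_nt.TCob
import Pool.Agent.Lib.MP_54db3e_nt.TH90
import Pool.Agent.Lib.MP_54db3e_nt.TKd
import Pool.Agent.Lib.MP_54db3e_nt.TU5
import Pool.Agent.Lib.MP_54db3e_nt.TLocZ
import Pool.Agent.Lib.MP_54db3e_nt.TLocR
import Pool.Agent.Lib.MP_54db3e_nt.TLs
import Pool.Agent.Lib.MP_54db3e_nt.TUl
import Pool.Agent.Lib.MP_54db3e_nt.TLowQ
import Pool.Agent.Lib.MP_54db3e_nt.TVal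
import Pool.Agent.Lib.MP_54db3e_nt.TSfz
import Pool.Agent.Lib.MP_54db3e_nt.TInt
import Pool.Agent.Lib.MP_54db3e_nt.TInert
import Pool.Agent.Lib.MP_54db3e_nt.TV
import Pool.Agent.Lib.MP_54db3e_nt.THq
import Pool.Agent.Lib.MP_54db3e_nt.TCyc
import Pool.Agent.Lib.MP_54db3e_nt.TTt
import Pool.Agent.Lib.MP_54db3e_nt.TStar
import Pool.Agent.Lib.MP_54db3e_nt.TLce
import Pool.Agent.Lib.MP_54db3e_nt.TSfk
import Pool.Agent.Lib.MP_54db3e_nt.TGe
import Pool.Agent.Lib.MP_54db3e_nt.TTd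
import Pool.Agent.Lib.MP_54db3e_nt.TGo
import Pool.Agent.Lib.MP_54db3e_nt.TUc
import Pool.Agent.Lib.MP_54db3e_nt.TStarQ
import Pool.Agent.Lib.MP_54db3e_nt.TDivQ
import Pool.Agent.Lib.MP_54db3e_nt.TFinf
import Pool.Agent.Lib.MP_54db3e_nt.TCg
import Pool.Agent.Lib.MP_54db3e_nt.TLoc5
import Pool.Agent.Lib.MP_54db3e_nt.TLocBad
import Pool.Agent.Lib.MP_54db3e_nt.TLocGood
import Pool.Agent.Lib.MP_54db3e_nt.TLocAll
import Pool.Agent.Lib.MP_54db3e_nt.TSel
import Pool.Agent.Lib.MP_54db3e_nt.TNfg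
import Pool.Agent.Lib.MP_54db3e_nt.TMain

/-!
Assembly of all the steps.
-/

namespace Pool.Agent.Lib.MP_54db3e_nt

theorem goodS' : GoodS := goodS
theorem ec5S' : Ec5S := ec5S
theorem divS' : DivS := divS ec5S'
theorem tor5S' : Tor5S := tor5S divS'
theorem repS' : RepS := repS divS' tor5S'
theorem chS' : ChS := chS
theorem fgS' : FgS := fgS
theorem embS' : EmbS := embS fgS'
theorem radS' : RadS := radS fgS'
theorem grpS' : GrpS := grpS chS'
theorem lowerS' : LowerS := lowerS chS' grpS'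
theorem e1S' : E1S := e1S
theorem idxS' : IdxS := idxS chS'
theorem c5S' : C5S := c5S chS' embS' e1S' divS' repS' idxS'
theorem offS' : OffS := offS
theorem bigS' : BigS := bigS
theorem cyclS' : CyclS := cyclS fgS' embS'
theorem tameS' : TameS := tameS fgS' embS' cyclS'
theorem ramS' : RamS := ramS fgS'
theorem npS' : NpS := npS ec5S'
theorem nqS' : NqS := nqS ramS' npS' idxS'
theorem redS' : RedS := redS
theorem e15S' : E15S := e15S ec5S' divS'
theorem i5S' : I5S := i5S e1S' redS' cyclS' ramS' divS' e15S' idxS' c5S'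
theorem densS' : DensS := densS chS' offS' bigS' tameS' idxS' c5S' nqS' i5S' embS'
theorem utS' : UtS := utS chS'
theorem cobS' : CobS := cobS
theorem h90S' : H90S := h90S
theorem kdS' : KdS := kdS h90S'
theorem u5S' : U5S := u5S embS'
theorem locZS' : LocZS := locZS fgS' embS' u5S'
theorem locRS' : LocRS := locRS embS' u5S'
theorem lsS' : LsS := lsS chS' cobS' embS' kdS' locZS' locRS' idxS' c5S'
theorem ulS' : UlS := ulS chS' fgS' grpS' idxS' densS'
theorem lowQS' : LowQS := lowQS chS' fgS' embS' radS' lowerS' c5S' densS' utS' lsS' ulS'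
theorem valS' : ValS := valS embS'
theorem sfzS' : SfzS := sfzS embS' valS'
theorem intS' : IntS := intS ec5S'
theorem inertS' : InertS := inertS chS' redS' cyclS' intS'
theorem vS' : VS := vS ramS' idxS' inertS'
theorem hqS' : HqS := hqS fgS' kdS' valS' sfzS' vS'
theorem cycS' : CycS := cycS chS' densS' hqS'
theorem ttS' : TtS := ttS divS' cycS'
theorem starS' : StarS := starS chS' grpS'
theorem lceS' : LceS := lceS fgS' embS' u5S'
theorem sfkS' : SfkS := sfkS
theorem geS' : GeS := geS chS' fgS' embS' kdS' valS' lceS' sfzS' sfkS' idxS' c5S' vS'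
theorem tdS' : TdS := tdS embS' ramS' tameS' idxS' nqS' cycS'
theorem goS' : GoS := goS chS' cobS' embS' kdS' valS' idxS' c5S' vS'
theorem ucS' : UcS := ucS chS' fgS' grpS' idxS' densS'
theorem starQS' : StarQS := starQS chS' radS' starS' c5S' densS' utS' lsS' geS' tdS' goS' ucS'
theorem divQS' : DivQS := divQS fgS' embS' grpS' divS' e15S' idxS' c5S' densS' ttS' starQS'
theorem finfS' : FinfS := finfS fgS' cycS'
theorem cgS' : CgS := cgS e15S' c5S'
theorem loc5S' : Loc5S := loc5S embS' divS' cycS' cgS' ttS'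
theorem locBadS' : LocBadS := locBadS embS' cycS'
theorem locGoodS' : LocGoodS := locGoodS fgS' embS' redS' cyclS' divS' intS' inertS' ttS'
theorem locAllS' : LocAllS := locAllS fgS' embS' ttS' loc5S' locBadS' locGoodS'
theorem selS' : SelS := selS fgS' cycS' ttS' locAllS' finfS'
theorem nfgS' : NfgS := nfgS
theorem mainS' : MainS := mainS repS' lowQS' divQS' ttS' finfS' selS' nfgS'

end Pool.Agent.Lib.MP_54db3e_nt
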