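import Mathlib

/-!
Points of a Weierstrass curve over `ℚ` in a field extension, and the maps between them.
-/

open scoped Classical

noncomputable section

namespace Pool.Agent.Lib.MP_54db3e_nt

/-- The group of points of `W` over a field `k` of characteristic zero. -/
abbrev Pt (W : WeierstrassCurve ℚ) (k : Type) [Field k] [Algebra ℚ k] :=
  (W.toAffine.baseChange k).Point

/-- The map on points induced by a field homomorphism. -/
def pmap (W : WeierstrassCurve ℚ) {k k' : Type} [Field k] [Algebra ℚ k] [Field k'] [Algebra ℚ k']
    (f : k →+* k') : Pt W k →+ Pt W k' :=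
  WeierstrassCurve.Affine.Point.map (W' := W.toAffine) f.toRatAlgHom

end Pool.Agent.Lib.MP_54db3e_nt
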