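import Pool.Agent.Lib.MP_54db3e_nt.PtDefs

/-!
Working abbreviations for the proof: the algebraic closure of `ℚ` and its Galois group.
-/

open scoped Classical

noncomputable section

namespace Pool.Agent.Lib.MP_54db3e_nt

/-- An algebraic closure of `ℚ`. -/
abbrev Qb := AlgebraicClosure ℚ

/-- The absolute Galois group of `ℚ`. -/
abbrev GQ := Qb ≃ₐ[ℚ] Qb

/-- The Galois action on points over the algebraic closure. -/
def act (W : WeierstrassCurve ℚ) (g : GQ) : Pt W Qb →+ Pt W Qb := pmap W (g : Qb →+* Qb)

end Pool.Agent.Lib.MP_54db3e_nt
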