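import Pool.Agent.Lib.MP_54db3e_nt.IwMod
import Pool.Agent.Lib.MP_54db3e_nt.PtDefs

/-!
Definitions used by the statement, part 3: the Galois action on points, division fields, cocycles
and the Selmer conditions. Throughout, `K` is a field of characteristic zero; the final statement
takes an algebraic closure of `ℚ` for `K`.
-/

open scoped Classical

noncomputable section

namespace Pool.Agent.Lib.MP_54db3e_nt

variable (W : WeierstrassCurve ℚ) (p : ℕ) (K : Type) [Field K] [CharZero K]

/-- The Galois group acts on points through their coordinates. -/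
instance galSMul : SMul (K ≃ₐ[ℚ] K) (Pt W K) := ⟨fun g P => pmap W (g : K →+* K) P⟩

theorem gal_one_smul (P : Pt W K) : (1 : K ≃ₐ[ℚ] K) • P = P := by cases P <;> rfl

theorem gal_mul_smul (g h : K ≃ₐ[ℚ] K) (P : Pt W K) : (g * h) • P = g • h • P := by
  cases P <;> rfl

theorem gal_smul_zero (g : K ≃ₐ[ℚ] K) : g • (0 : Pt W K) = 0 := rfl

theorem gal_smul_add (g : K ≃ₐ[ℚ] K) (P Q : Pt W K) : g • (P + Q) = g • P + g • Q :=
  map_add (pmap W (g : K →+* K)) P Q

instance galAction : DistribMulAction (K ≃ₐ[ℚ] K) (Pt W K) where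
  toSMul := galSMul W K
  one_smul := gal_one_smul W K
  mul_smul := gal_mul_smul W K
  smul_zero := gal_smul_zero W K
  smul_add := gal_smul_add W K

/-- The group `E[p^∞]` of `p`-power torsion points. -/
def Tors : AddSubgroup (Pt W K) := AddCommGroup.primaryComponent (Pt W K) p

/-- The field `F_∞` generated by the coordinates of all `p`-power torsion points. -/
def Finf : IntermediateField ℚ K :=
  IntermediateField.adjoin ℚ
    {c | ∃ (x y : K) (h : (W.toAffine.baseChange K).Nonsingular x y),
      WeierstrassCurve.Affine.Point.some x y h ∈ Tors W p K ∧ (c = x ∨ c = y)}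

/-- Continuous 1-cocycles of a subgroup `U` with values in the discrete module `T`. -/
def IsCocycle {Γ M : Type} [Group Γ] [TopologicalSpace Γ] [AddCommGroup M] [DistribMulAction Γ M]
    (T : AddSubgroup M) (U : Subgroup Γ) (c : U → M) : Prop :=
  (∀ g, c g ∈ T) ∧ IsLocallyConstant c ∧ ∀ g h, c (g * h) = c g + g.1 • c h

variable {K}

/-- The cocycle `c` is a coboundary in `E(Ω)` on the decomposition group of every place of `F`
given by an embedding into `Ω`, an algebraic closure of the completion `k` of `ℚ`. -/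
def LocTriv (k Ω : Type) [Field k] [Field Ω] [Algebra k Ω] [Algebra ℚ Ω]
    (F : IntermediateField ℚ K) (c : F.fixingSubgroup → Pt W K) : Prop :=
  ∀ ι : K →+* Ω, ∃ P : Pt W Ω, ∀ (γ : Ω ≃ₐ[k] Ω) (g : F.fixingSubgroup),
    (∀ x, ι (g.1 x) = γ (ι x)) → pmap W ι (c g) = pmap W (γ : Ω →+* Ω) P - P

/-- Cocycles representing classes of the `p^∞`-Selmer group of `E` over `F`. -/
def IsSelmer (F : IntermediateField ℚ K) (c : F.fixingSubgroup → Pt W K) : Prop :=
  IsCocycle (Tors W p K) F.fixingSubgroup c ∧
    (∀ (l : ℕ) [Fact l.Prime], LocTriv W ℚ_[l] (PadicAlgCl l) F c) ∧ LocTriv W ℝ ℂ F c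

/-- `f` is the restriction to `Gal(K/L)` of a Selmer cocycle over a finite subextension of `L`. -/
def IsSelmerRes (L : IntermediateField ℚ K) (f : Fn L.fixingSubgroup (Pt W K)) : Prop :=
  ∃ (F : IntermediateField ℚ K) (hF : F ≤ L), FiniteDimensional ℚ F ∧
    ∃ c : F.fixingSubgroup → Pt W K, IsSelmer W p F c ∧
      ∀ g, f g = c ⟨g.1, IntermediateField.fixingSubgroup_antitone hF g.2⟩

end Pool.Agent.Lib.MP_54db3e_nt
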