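import Pool.Agent.Lib.MP_54db3e_nt.SelLem

/-!
Definitions used by the statement, part 4: the Selmer group over the field of `p`-power division
points, the group `Gal(K/ℚ_cyc)`, and the finite generation property.
-/

open scoped Classical

noncomputable section

namespace Pool.Agent.Lib.MP_54db3e_nt

variable (W : WeierstrassCurve ℚ) (p : ℕ) {K : Type} [Field K] [CharZero K]

theorem sel_add (L : IntermediateField ℚ K) {f f' : Fn L.fixingSubgroup (Pt W K)}
    (h : IsSelmerRes W p L f) (h' : IsSelmerRes W p L f') : IsSelmerRes W p L (f + f') := h.add h'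

theorem sel_zero (L : IntermediateField ℚ K) : IsSelmerRes W p L 0 := IsSelmerRes.zero L

theorem sel_neg (L : IntermediateField ℚ K) {f : Fn L.fixingSubgroup (Pt W K)}
    (h : IsSelmerRes W p L f) : IsSelmerRes W p L (-f) := h.neg

/-- For `L ⊇ ℚ(E[p^∞])`, the Selmer group `S(E/L)`: the direct limit of the Selmer groups over the
finite subextensions of `L`, realised as the union of their images under restriction in
`H¹(L, E[p^∞]) = Hom(Gal(K/L), E[p^∞])`. -/
def Sel (L : IntermediateField ℚ K) : AddSubgroup (Fn L.fixingSubgroup (Pt W K)) where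
  carrier := {f | IsSelmerRes W p L f}
  add_mem' := sel_add W p L
  zero_mem' := sel_zero W p L
  neg_mem' := sel_neg W p L

variable (K)

instance normalFix : (Finf W p K).fixingSubgroup.Normal :=
  normal_of_stable fun g _ hx => map_mem_Finf W p g hx

instance selStable : IsStable (Finf W p K).fixingSubgroup (Sel W p (Finf W p K)) :=
  ⟨fun g f => IsSelmerRes.conj f.2 g, fun _ hg f => IsSelmerRes.triv f.2 hg,
    fun f => IsSelmerRes.disc f.2⟩

variable [Fact p.Prime]

/-- `Gal(K/ℚ_cyc)`: the elements on which the `p`-adic cyclotomic character has finite order. -/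
def Hcyc : Subgroup (K ≃ₐ[ℚ] K) :=
  (CommGroup.torsion ℤ_[p]ˣ).comap
    ((cyclotomicCharacter K p).comp (MulSemiringAction.toRingAut (K ≃ₐ[ℚ] K) K))

/-- `X/X(p)` is finitely generated over `Λ(H)`, for `X` the Pontryagin dual of `S(E/F_∞)` and
`H = Gal(F_∞/ℚ_cyc)` the quotient of `Gal(K/ℚ_cyc)` by `Gal(K/F_∞)`, with the quotient of the
Krull topology. -/
def FinGenModP : Prop :=
  DualFinGen p (Hcyc p K ⧸ (Finf W p K).fixingSubgroup.subgroupOf (Hcyc p K))
    (Sel W p (Finf W p K))

/-- The integral model `W` has good ordinary reduction at `p`: `p` divides neither the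
discriminant nor `a_p = p + 1 - |W(𝔽_p)|`. -/
def GoodOrdinary (W : WeierstrassCurve ℤ) (p : ℕ) : Prop :=
  ¬ (p : ℤ) ∣ W.Δ ∧
    ¬ (p : ℤ) ∣ (p : ℤ) + 1 - Nat.card (W.map (Int.castRingHom (ZMod p))).toAffine.Point

end Pool.Agent.Lib.MP_54db3e_nt
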