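import Pool.Agent.Lib.MP_54db3e_nt.SelDefs

/-!
Lemmas on the Selmer conditions.
-/

open scoped Classical

noncomputable section

namespace Pool.Agent.Lib.MP_54db3e_nt

variable (W : WeierstrassCurve ℚ) (p : ℕ) {K : Type} [Field K] [CharZero K]

theorem pmap_smul {Ω : Type} [Field Ω] [Algebra ℚ Ω] (ι : K →+* Ω) (g : K ≃ₐ[ℚ] K) (P : Pt W K) :
    pmap W ι (g • P) = pmap W (ι.comp (g : K →+* K)) P := by
  cases P <;> rfl

theorem smul_mem_tors (g : K ≃ₐ[ℚ] K) {P : Pt W K} (hP : P ∈ Tors W p K) : g • P ∈ Tors W p K := by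
  obtain ⟨k, hk⟩ := AddCommMonoid.mem_primaryComponent.1 hP
  exact AddCommMonoid.mem_primaryComponent.2 ⟨k, by rw [smul_comm, hk, smul_zero]⟩

theorem map_mem_Finf (g : K ≃ₐ[ℚ] K) {x : K} (hx : x ∈ Finf W p K) : g x ∈ Finf W p K := by
  refine IntermediateField.adjoin_induction ℚ (p := fun x _ => g x ∈ Finf W p K) ?_ ?_ ?_ ?_ ?_ hx
  · rintro c ⟨x, y, h, hT, hc⟩
    refine IntermediateField.subset_adjoin _ _ ⟨g x, g y, _, smul_mem_tors W p g hT, ?_⟩
    rcases hc with rfl | rfl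
    exacts [Or.inl rfl, Or.inr rfl]
  · intro x
    rw [AlgEquiv.commutes]
    exact IntermediateField.algebraMap_mem _ _
  · intro x y _ _ hx hy
    rw [map_add]
    exact add_mem hx hy
  · intro x _ hx
    rw [map_inv₀]
    exact inv_mem hx
  · intro x y _ _ hx hy
    rw [map_mul]
    exact mul_mem hx hy

theorem smul_eq_of_fix {g : K ≃ₐ[ℚ] K} (hg : g ∈ (Finf W p K).fixingSubgroup) {P : Pt W K}
    (hP : P ∈ Tors W p K) : g • P = P := by
  rw [IntermediateField.mem_fixingSubgroup_iff] at hg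
  cases P with
  | zero => rfl
  | some x y h =>
    have hx : g x = x := hg x (IntermediateField.subset_adjoin _ _ ⟨x, y, h, hP, Or.inl rfl⟩)
    have hy : g y = y := hg y (IntermediateField.subset_adjoin _ _ ⟨x, y, h, hP, Or.inr rfl⟩)
    change WeierstrassCurve.Affine.Point.some (g x) (g y) _ = _
    simp only [hx, hy]

/-- The fixing subgroup of a subfield stable under all automorphisms is normal. -/
theorem normal_of_stable {L : IntermediateField ℚ K} (hL : ∀ (g : K ≃ₐ[ℚ] K), ∀ x ∈ L, g x ∈ L) :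
    L.fixingSubgroup.Normal := ⟨fun n hn g => by
  rw [IntermediateField.mem_fixingSubgroup_iff] at hn ⊢
  intro x hx
  rw [AlgEquiv.mul_apply, AlgEquiv.mul_apply, hn _ (hL g⁻¹ x hx),
    ← AlgEquiv.mul_apply, mul_inv_cancel, AlgEquiv.one_apply]⟩

/-- The fixing subgroup of a finite subextension contains an open normal subgroup. -/
theorem exists_open_normal (F : IntermediateField ℚ K) [FiniteDimensional ℚ F] :
    ∃ U : OpenNormalSubgroup (K ≃ₐ[ℚ] K), U.toSubgroup ≤ F.fixingSubgroup := by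
  have hn : (IntermediateField.normalClosure ℚ F K).fixingSubgroup.Normal := by
    refine normal_of_stable fun g x hx => ?_
    have h : IntermediateField.normalClosure ℚ F K ≤
        (IntermediateField.normalClosure ℚ F K).comap (g : K →ₐ[ℚ] K) := by
      rw [normalClosure_le_iff]
      rintro f _ ⟨y, rfl⟩
      exact ((g : K →ₐ[ℚ] K).comp f).fieldRange_le_normalClosure ⟨y, rfl⟩
    exact h hx
  exact ⟨⟨⟨(IntermediateField.normalClosure ℚ F K).fixingSubgroup,
    IntermediateField.fixingSubgroup_isOpen _⟩, hn⟩,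
    IntermediateField.fixingSubgroup_antitone (IntermediateField.le_normalClosure F)⟩

variable {W p}

theorem IsSelmer.res {F F' : IntermediateField ℚ K} (h : F ≤ F')
    {c : F.fixingSubgroup → Pt W K} (hc : IsSelmer W p F c) :
    IsSelmer W p F' fun g => c ⟨g.1, IntermediateField.fixingSubgroup_antitone h g.2⟩ := by
  obtain ⟨⟨h1, h2, h3⟩, h4, h5⟩ := hc
  refine ⟨⟨fun g => h1 _, h2.comp_continuous (continuous_subtype_val.subtype_mk _),
    fun g g' => h3 ⟨g.1, IntermediateField.fixingSubgroup_antitone h g.2⟩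
      ⟨g'.1, IntermediateField.fixingSubgroup_antitone h g'.2⟩⟩, fun l _ ι => ?_, fun ι => ?_⟩
  · obtain ⟨P, hP⟩ := h4 l ι
    exact ⟨P, fun γ g hg => hP γ _ hg⟩
  · obtain ⟨P, hP⟩ := h5 ι
    exact ⟨P, fun γ g hg => hP γ _ hg⟩

theorem LocTriv.add {k Ω : Type} [Field k] [Field Ω] [Algebra k Ω] [Algebra ℚ Ω]
    {F : IntermediateField ℚ K} {c c' : F.fixingSubgroup → Pt W K}
    (h : LocTriv W k Ω F c) (h' : LocTriv W k Ω F c') : LocTriv W k Ω F (c + c') := fun ι => by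
  obtain ⟨P, hP⟩ := h ι
  obtain ⟨P', hP'⟩ := h' ι
  refine ⟨P + P', fun γ g hg => ?_⟩
  rw [Pi.add_apply, map_add, map_add, hP γ g hg, hP' γ g hg]
  abel

theorem LocTriv.neg {k Ω : Type} [Field k] [Field Ω] [Algebra k Ω] [Algebra ℚ Ω]
    {F : IntermediateField ℚ K} {c : F.fixingSubgroup → Pt W K}
    (h : LocTriv W k Ω F c) : LocTriv W k Ω F (-c) := fun ι => by
  obtain ⟨P, hP⟩ := h ι
  refine ⟨-P, fun γ g hg => ?_⟩
  rw [Pi.neg_apply, map_neg, map_neg, hP γ g hg]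
  abel

theorem LocTriv.zero {k Ω : Type} [Field k] [Field Ω] [Algebra k Ω] [Algebra ℚ Ω]
    (F : IntermediateField ℚ K) : LocTriv W k Ω F 0 := fun ι =>
  ⟨0, fun γ g _ => by rw [Pi.zero_apply, map_zero, map_zero, sub_zero]⟩

theorem IsSelmer.add {F : IntermediateField ℚ K} {c c' : F.fixingSubgroup → Pt W K}
    (h : IsSelmer W p F c) (h' : IsSelmer W p F c') : IsSelmer W p F (c + c') := by
  refine ⟨⟨fun g => add_mem (h.1.1 g) (h'.1.1 g), h.1.2.1.add h'.1.2.1, fun g g' => ?_⟩,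
    fun l _ => (h.2.1 l).add (h'.2.1 l), h.2.2.add h'.2.2⟩
  simp only [Pi.add_apply, smul_add, h.1.2.2 g g', h'.1.2.2 g g']
  abel

theorem IsSelmer.neg {F : IntermediateField ℚ K} {c : F.fixingSubgroup → Pt W K}
    (h : IsSelmer W p F c) : IsSelmer W p F (-c) := by
  refine ⟨⟨fun g => neg_mem (h.1.1 g), h.1.2.1.neg, fun g g' => ?_⟩,
    fun l _ => (h.2.1 l).neg, h.2.2.neg⟩
  simp only [Pi.neg_apply, smul_neg, h.1.2.2 g g']
  abel

theorem IsSelmer.zero (F : IntermediateField ℚ K) : IsSelmer W p F 0 :=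
  ⟨⟨fun _ => zero_mem _, IsLocallyConstant.const _, fun g g' => by
    simp only [Pi.zero_apply, smul_zero, add_zero]⟩, fun _ _ => LocTriv.zero F, LocTriv.zero F⟩

theorem conj_mem_fix (g : K ≃ₐ[ℚ] K) (F : IntermediateField ℚ K) {n : K ≃ₐ[ℚ] K}
    (hn : n ∈ (F.map (g : K →ₐ[ℚ] K)).fixingSubgroup) : g⁻¹ * n * g ∈ F.fixingSubgroup := by
  rw [IntermediateField.mem_fixingSubgroup_iff] at hn ⊢
  intro x hx
  have h : n (g x) = g x := hn (g x) ⟨x, hx, rfl⟩
  rw [AlgEquiv.mul_apply, AlgEquiv.mul_apply, h, ← AlgEquiv.mul_apply, inv_mul_cancel,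
    AlgEquiv.one_apply]

theorem LocTriv.conj {k Ω : Type} [Field k] [Field Ω] [Algebra k Ω] [Algebra ℚ Ω]
    {F : IntermediateField ℚ K} {c : F.fixingSubgroup → Pt W K}
    (h : LocTriv W k Ω F c) (g : K ≃ₐ[ℚ] K) :
    LocTriv W k Ω (F.map (g : K →ₐ[ℚ] K))
      fun n => g • c ⟨g⁻¹ * n.1 * g, conj_mem_fix g F n.2⟩ := fun ι => by
  obtain ⟨P, hP⟩ := h (ι.comp (g : K →+* K))
  refine ⟨P, fun γ n hn => ?_⟩
  rw [pmap_smul]
  refine hP γ _ fun x => ?_
  have e : g ((g⁻¹ * n.1 * g) x) = n.1 (g x) := by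
    rw [← AlgEquiv.mul_apply, ← mul_assoc, ← mul_assoc, mul_inv_cancel, one_mul,
      AlgEquiv.mul_apply]
  change ι (g ((g⁻¹ * n.1 * g) x)) = γ (ι (g x))
  rw [e, hn]

theorem IsSelmer.conj {F : IntermediateField ℚ K} {c : F.fixingSubgroup → Pt W K}
    (h : IsSelmer W p F c) (g : K ≃ₐ[ℚ] K) :
    IsSelmer W p (F.map (g : K →ₐ[ℚ] K))
      fun n => g • c ⟨g⁻¹ * n.1 * g, conj_mem_fix g F n.2⟩ := by
  refine ⟨⟨fun n => smul_mem_tors W p g (h.1.1 _), ?_, fun n m => ?_⟩,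
    fun l _ => (h.2.1 l).conj g, h.2.2.conj g⟩
  · refine (h.1.2.1.comp_continuous (Continuous.subtype_mk ?_ _)).comp (fun P => g • P)
    exact (continuous_const.mul continuous_subtype_val).mul continuous_const
  · have e : (⟨g⁻¹ * (n * m).1 * g, conj_mem_fix g F (n * m).2⟩ : F.fixingSubgroup) =
        ⟨g⁻¹ * n.1 * g, conj_mem_fix g F n.2⟩ * ⟨g⁻¹ * m.1 * g, conj_mem_fix g F m.2⟩ := by
      apply Subtype.ext
      simp only [Subgroup.coe_mul, MulMemClass.mk_mul_mk]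
      group
    have e' : g * (g⁻¹ * n.1 * g) = n.1 * g := by group
    beta_reduce
    rw [e, h.1.2.2, smul_add, ← mul_smul, e', mul_smul]

/-- A cocycle is unchanged, on the subgroup fixing `F_∞`, by conjugation with its own group. -/
theorem IsCocycle.conj_eq {F : IntermediateField ℚ K} {c : F.fixingSubgroup → Pt W K}
    (h : IsCocycle (Tors W p K) F.fixingSubgroup c) (g n : F.fixingSubgroup)
    (hn : n.1 ∈ (Finf W p K).fixingSubgroup) : g.1 • c (g⁻¹ * n * g) = c n := by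
  have h1 : c (n * g) = c n + c g := by rw [h.2.2, smul_eq_of_fix W p hn (h.1 g)]
  have h2 : c (g * (g⁻¹ * n * g)) = c g + g.1 • c (g⁻¹ * n * g) := h.2.2 _ _
  have e : g * (g⁻¹ * n * g) = n * g := by group
  rw [e, h1, add_comm] at h2
  exact (add_left_cancel h2).symm

theorem IsSelmerRes.add {L : IntermediateField ℚ K} {f f' : Fn L.fixingSubgroup (Pt W K)}
    (h : IsSelmerRes W p L f) (h' : IsSelmerRes W p L f') : IsSelmerRes W p L (f + f') := by
  obtain ⟨F, hF, hd, c, hc, hf⟩ := h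
  obtain ⟨F', hF', hd', c', hc', hf'⟩ := h'
  exact ⟨F ⊔ F', sup_le hF hF', inferInstance, _,
    (hc.res le_sup_left).add (hc'.res le_sup_right), fun g => congrArg₂ (· + ·) (hf g) (hf' g)⟩

theorem IsSelmerRes.zero (L : IntermediateField ℚ K) : IsSelmerRes W p L 0 :=
  ⟨⊥, bot_le, inferInstance, 0, IsSelmer.zero _, fun _ => rfl⟩

theorem IsSelmerRes.neg {L : IntermediateField ℚ K} {f : Fn L.fixingSubgroup (Pt W K)}
    (h : IsSelmerRes W p L f) : IsSelmerRes W p L (-f) := by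
  obtain ⟨F, hF, hd, c, hc, hf⟩ := h
  exact ⟨F, hF, hd, _, hc.neg, fun g => congrArg Neg.neg (hf g)⟩

variable [(Finf W p K).fixingSubgroup.Normal] {f : Fn (Finf W p K).fixingSubgroup (Pt W K)}

theorem IsSelmerRes.conj (h : IsSelmerRes W p (Finf W p K) f) (g : K ≃ₐ[ℚ] K) :
    IsSelmerRes W p (Finf W p K) (g • f) := by
  obtain ⟨F, hF, hd, c, hc, hf⟩ := h
  refine ⟨F.map (g : K →ₐ[ℚ] K), ?_,
    (F.equivMap (g : K →ₐ[ℚ] K)).toLinearEquiv.finiteDimensional, _, hc.conj g, fun n => ?_⟩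
  · rintro _ ⟨x, hx, rfl⟩
    exact map_mem_Finf W p g (hF hx)
  · exact congrArg (fun P => g • P) (hf _)

/-- Every element of the Selmer group is fixed by the Galois group of a finite subextension. -/
theorem IsSelmerRes.exists_fix (h : IsSelmerRes W p (Finf W p K) f) :
    ∃ F : IntermediateField ℚ K, F ≤ Finf W p K ∧
      FiniteDimensional ℚ F ∧ ∀ g ∈ F.fixingSubgroup, g • f = f := by
  obtain ⟨F, hF, hd, c, hc, hf⟩ := h
  refine ⟨F, hF, hd, fun g hg => funext fun n => ?_⟩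
  exact ((congrArg (fun P => g • P) (hf _)).trans (hc.1.conj_eq ⟨g, hg⟩
    ⟨n.1, IntermediateField.fixingSubgroup_antitone hF n.2⟩ n.2)).trans (hf n).symm

theorem IsSelmerRes.triv (h : IsSelmerRes W p (Finf W p K) f) {g : K ≃ₐ[ℚ] K}
    (hg : g ∈ (Finf W p K).fixingSubgroup) : g • f = f := by
  obtain ⟨F, hF, -, h⟩ := h.exists_fix
  exact h g (IntermediateField.fixingSubgroup_antitone hF hg)

theorem IsSelmerRes.disc (h : IsSelmerRes W p (Finf W p K) f) :
    ∃ U : OpenNormalSubgroup (K ≃ₐ[ℚ] K), ∀ g ∈ U.toSubgroup, g • f = f := by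
  obtain ⟨F, -, hd, h⟩ := h.exists_fix
  obtain ⟨U, hU⟩ := exists_open_normal F
  exact ⟨U, fun g hg => h g (hU hg)⟩

end Pool.Agent.Lib.MP_54db3e_nt
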