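import Pool.Agent.Lib.MP_54db3e_nt.Base

/-!
Interface statements. Every module proves one of them from others taken as hypotheses.
-/

open scoped Classical
open IntermediateField

noncomputable section

namespace Pool.Agent.Lib.MP_54db3e_nt

/-! ### A. Abstract group theory -/

/-- STAR: surjectivity of unit-type characters onto local families. -/
def StarS : Prop := ∀ (G : Type) [Group G] (ρ : G →* M2) (O : Subgroup G → Prop) (D : Subgroup G)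
    (UT : ℕ → Submodule F5 (G → F5)), Dens ρ → D ≤ gam ρ → O ⊤ →
  (∀ U V, O U → O V → O (U ⊓ V)) → LSH ρ O D →
  (∀ n, 1 ≤ n → ∀ κ ∈ UT n, ∀ κ' : G → F5, (∀ h ∈ lev ρ n, κ' h = κ h) → κ' ∈ UT n) →
  (∀ n, 1 ≤ n → ∀ κ ∈ UT n, ∀ a ∈ gam ρ, (fun h => κ (a⁻¹ * h * a)) ∈ UT n) →
  (∀ n, 1 ≤ n → ∀ j : ℕ, j = 0 ∨ j = 2 → ∀ c ∈ UT n, Coc (fun g => rb ρ g ^ j) (gam ρ) c →
    (∀ g ∈ D, c g = 0) → ∀ g ∈ gam ρ, c g = 0) →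
  (∀ n, 3 ≤ n → ∃ U : Subgroup G, U.Normal ∧ O U ∧ U ≤ lev ρ n ∧ (∀ κ ∈ UT n, ∀ h ∈ U, κ h = 0) ∧
    ∃ τ φ : Fin 4 → G, TameData ρ U τ φ ∧ ∀ j : ℕ, j = 1 ∨ j = 3 → ∀ c ∈ UT n,
      Coc (fun g => rb ρ g ^ j) (gam ρ) c → (∀ g ∈ D, c g = 0) → (∀ i, c (τ i) = 0) →
      c (φ 0) = 0 → ∀ g ∈ gam ρ, c g = 0) →
  (∀ n, 1 ≤ n → ∃ κ : Fin (4 * 5 ^ (4 * (n - 1))) → G → F5,
    (∀ i, κ i ∈ UT n ∧ AddOn (lev ρ n) (κ i) ∧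
      ∀ z ∈ zlev ρ n, ∀ h ∈ lev ρ n, κ i (z⁻¹ * h * z) = κ i h) ∧
    ∀ s : Fin (4 * 5 ^ (4 * (n - 1))) → F5, (∀ h ∈ lev ρ n, ∑ i, s i * κ i h = 0) → s = 0) →
  StarC ρ O D UT

/-- LOWER: many independent characters of `S_n` vanish on all conjugates of `D`. -/
def LowerS : Prop := ∀ (G : Type) [Group G] (ρ : G →* M2) (O : Subgroup G → Prop) (D : Subgroup G),
  Dens ρ → D ≤ gam ρ → O ⊤ → (∀ U V, O U → O V → O (U ⊓ V)) → LSH ρ O D →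
  (∃ d ∈ D, rb ρ d = -1) → ∀ n, 1 ≤ n → ∀ κ : Fin (4 * 5 ^ (n - 1)) → G → F5,
  (∀ i, AddOn (slev ρ n) (κ i)) →
  (∀ i, ∀ z ∈ zlev ρ n, ∀ h ∈ slev ρ n, κ i (z⁻¹ * h * z) = κ i h) →
  (∀ i a, MC n (ρ a) !![1, 0; 0, -1] → ∀ h ∈ slev ρ n, κ i (a⁻¹ * h * a) = -κ i h) →
  (∃ U : Subgroup G, U.Normal ∧ O U ∧ U ≤ slev ρ n ∧ ∀ i, ∀ h ∈ U, κ i h = 0) →
  (∀ s : Fin (4 * 5 ^ (n - 1)) → F5, (∀ h ∈ slev ρ n, ∑ i, s i * κ i h = 0) → s = 0) →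
  ∀ n', n ≤ n' → ∃ W : Submodule F5 (Fin (4 * 5 ^ (n - 1)) → F5),
    2 * 5 ^ (n - 1) ≤ Module.finrank F5 W + 2 ∧ ∀ s ∈ W,
      (∀ h ∈ D ⊓ slev ρ n, ∀ a ∈ gam ρ, ∑ i, s i * κ i (a⁻¹ * h * a) = 0) ∧
      ((∀ h ∈ lev ρ n', ∑ i, s i * κ i h = 0) → s = 0)

/-- Indices and special elements. -/
def GrpS : Prop := ∀ (G : Type) [Group G] (ρ : G →* M2), Dens ρ → ∀ n, 1 ≤ n →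
  (lev ρ n).relIndex (gam ρ) = 16 * 5 ^ (4 * (n - 1)) ∧
  (zlev ρ n).relIndex (gam ρ) = 4 * 5 ^ (4 * (n - 1)) ∧
  (slev ρ n).relIndex (gam ρ) = 16 * 5 ^ (n - 1) ∧
  (∃ z₀, ∃ c : ℤ_[5], c ^ 2 = -1 ∧ MC n (ρ z₀) (c • (1 : M2)) ∧
    ∀ z ∈ zlev ρ n, ∃ i : ℕ, i < 4 ∧ z * (z₀ ^ i)⁻¹ ∈ lev ρ n) ∧
  ∀ g ∈ lev ρ 1, g ^ 5 ^ (n - 1) ∈ lev ρ n

/-- The characters are multiplicative and nonzero on `gam ρ`; powers land in `lev ρ 1`. -/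
def ChS : Prop := ∀ (G : Type) [Group G] (ρ : G →* M2),
  (∀ g ∈ gam ρ, ∀ h ∈ gam ρ, ph1 ρ (g * h) = ph1 ρ g * ph1 ρ h ∧ ph2 ρ (g * h) = ph2 ρ g * ph2 ρ h) ∧
  (∀ g ∈ gam ρ, ph1 ρ g ≠ 0 ∧ ph2 ρ g ≠ 0) ∧
  (∀ g, g ∈ lev ρ 1 ↔ g ∈ gam ρ ∧ ph1 ρ g = 1 ∧ ph2 ρ g = 1) ∧
  (∀ g ∈ gam ρ, g ^ 4 ∈ lev ρ 1) ∧
  (∀ n, 1 ≤ n → ∀ z ∈ zlev ρ n, ph1 ρ z = ph2 ρ z ∧ rb ρ z = 1) ∧
  ∀ n, ∀ g ∈ lev ρ 1, g ^ 5 ^ n ∈ lev ρ (n + 1)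

/-- A tame relation modulo 125 forces an off-diagonal entry of `M(τ)`. -/
def OffS : Prop := ∀ (G : Type) [Group G] (ρ : G →* M2) (τ φ : G) (Q : ℕ), τ ∈ lev ρ 1 →
  φ ∈ lev ρ 1 → Q % 25 = 21 → φ * τ * φ⁻¹ * (τ ^ Q)⁻¹ ∈ lev ρ 3 → τ ∉ lev ρ 2 →
  ¬ (25 : ℤ_[5]) ∣ ρ τ 0 1 ∨ ¬ (25 : ℤ_[5]) ∣ ρ τ 1 0

/-- Density from the generators. -/
def BigS : Prop := ∀ (G : Type) [Group G] (ρ : G →* M2),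
  (∀ u v : F5, u ≠ 0 → v ≠ 0 → ∃ g ∈ gam ρ, ph1 ρ g = u ∧ ph2 ρ g = v) →
  (∃ s, (5 : ℤ_[5]) ∣ ρ s 0 0 ∧ (5 : ℤ_[5]) ∣ ρ s 1 1) →
  (∃ τ ∈ lev ρ 1, ¬ (25 : ℤ_[5]) ∣ ρ τ 0 1 ∨ ¬ (25 : ℤ_[5]) ∣ ρ τ 1 0) →
  (∃ g ∈ lev ρ 1, (25 : ℤ_[5]) ∣ ρ g 0 0 - 1 ∧ (25 : ℤ_[5]) ∣ ρ g 0 1 ∧
    ¬ (25 : ℤ_[5]) ∣ ρ g 1 1 - 1) → Dens ρ

/-! ### B. Galois theory, embeddings, ramification -/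

/-- Open subgroups and their fixed fields. -/
def FgS : Prop := ∀ (k Ω : Type) [Field k] [Field Ω] [Algebra k Ω] [IsGalois k Ω],
  (∀ B : Subgroup (Ω ≃ₐ[k] Ω), OpnK B → FiniteDimensional k (fixedField B) ∧
    Module.finrank k (fixedField B) = B.index ∧ (fixedField B).fixingSubgroup = B ∧
    IsOpen (B : Set (Ω ≃ₐ[k] Ω)) ∧ (B.Normal → IsGalois k (fixedField B)) ∧ OpnK B.normalCore) ∧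
  (∀ (s : Set Ω) (x : Ω), (∀ g : Ω ≃ₐ[k] Ω, (∀ y ∈ s, g y = y) → g x = x) → x ∈ adjoin k s) ∧
  (∀ (F : IntermediateField k Ω), FiniteDimensional k F → OpnK F.fixingSubgroup) ∧
  ∀ (B : ℕ → Subgroup (Ω ≃ₐ[k] Ω)), (∀ n, OpnK (B n)) → Antitone B → ∀ U, OpnK U →
    (∀ g, (∀ n, g ∈ B n) → g ∈ U) → ∃ n, B n ≤ U

/-- Embeddings into the local algebraic closures and into `ℂ`. -/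
def EmbS : Prop :=
  (∀ (l : ℕ) [Fact l.Prime], Nonempty (Qb →+* Om l)) ∧
  (∀ (Ω : Type) [Field Ω] (ι ι' : Qb →+* Ω), ∃ g : GQ, ∀ x, ι' x = ι (g x)) ∧
  (∀ (l : ℕ) [Fact l.Prime] (ι : Qb →+* Om l), ∃ res : Gl l →* GQ, (∀ γ, Cmp ι (res γ) γ) ∧
    res.range = Dec ι ∧ ∀ U, Opn U → OpnK (U.comap res)) ∧
  (∀ (l : ℕ) [Fact l.Prime] (γ : Gl l) (x : Om l), ‖γ x‖ = ‖x‖) ∧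
  (∀ (l : ℕ) [Fact l.Prime] (x : Om l), x ≠ 0 → ∃ m : ℕ, 0 < m ∧ ∃ k : ℤ, ‖x‖ ^ m = (l : ℝ) ^ k) ∧
  (∀ (l : ℕ) [Fact l.Prime] (x : Om l), ‖x‖ = 1 → ∃ m : ℕ, ¬ l ∣ m ∧ ‖x ^ m - 1‖ < 1) ∧
  (∀ (l : ℕ) [Fact l.Prime] (ι : Qb →+* Om l) (x : Qb), IsIntegral ℤ x → ‖ι x‖ ≤ 1) ∧
  (∀ σ : Qb →+* ℂ, ∃ c : GQ, ∀ x, σ (c x) = (starRingEnd ℂ) (σ x)) ∧
  ∀ (B : Subgroup GQ), Opn B → ∀ [NumberField (fixedField B)],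
    ((∀ c, IsCC c → c ∈ B) → NumberField.IsTotallyReal (fixedField B)) ∧
    ((∀ c, IsCC c → c ∉ B) → NumberField.IsTotallyComplex (fixedField B))

/-- Hilbert 90 for a subgroup and a cocycle with open kernel. -/
def H90S : Prop := ∀ (k Ω : Type) [Field k] [Field Ω] [Algebra k Ω] [Algebra.IsAlgebraic k Ω]
  (B : Subgroup (Ω ≃ₐ[k] Ω)) (u : (Ω ≃ₐ[k] Ω) → Ω), (∀ g ∈ B, u g ≠ 0) →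
  (∀ g ∈ B, ∀ h ∈ B, u (g * h) = u g * g (u h)) →
  (∃ U, OpnK U ∧ ∀ g ∈ B, g ∈ U → u g = 1) → ∃ y, y ≠ 0 ∧ ∀ g ∈ B, g y = u g * y

/-- Kummer description of a cocycle of weight `χ`. -/
def KdS : Prop := ∀ (k Ω : Type) [Field k] [Field Ω] [Algebra k Ω] [Algebra.IsAlgebraic k Ω]
  (B : Subgroup (Ω ≃ₐ[k] Ω)) (ω χ c : (Ω ≃ₐ[k] Ω) → F5) (z : Ω), IsPrimitiveRoot z 5 →
  (∀ g ∈ B, g z = z ^ (ω g).val) → (∀ g ∈ B, χ g ≠ 0) →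
  (∀ g ∈ B, ∀ h ∈ B, χ (g * h) = χ g * χ h) → Coc χ B c → Cts OpnK B c →
  ∃ y, y ≠ 0 ∧ (∀ h ∈ B, ω h * χ h = 1 → h y = z ^ (ω h * c h).val * y) ∧
    ∀ g ∈ B, ∃ t, t ≠ 0 ∧ (∀ h ∈ B, ω h * χ h = 1 → h t = t) ∧
      g (y ^ 5) = (y ^ 5) ^ (ω g * χ g).val * t ^ 5

/-- A cocycle vanishing on a subgroup of index prime to 5 is a coboundary. -/
def CobS : Prop := ∀ (G : Type) [Group G] (B N : Subgroup G) (χ c : G → F5), N ≤ B →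
  ¬ 5 ∣ N.relIndex B → (∀ g ∈ B, ∀ h ∈ B, χ (g * h) = χ g * χ h) → (∀ g ∈ N, χ g = 1) →
  Coc χ B c → (∀ g ∈ N, c g = 0) → ∃ t : F5, ∀ g ∈ B, c g = t * (χ g - 1)

/-- Elements fixed by inertia have integral valuation. -/
def RamS : Prop := ∀ (l : ℕ) [Fact l.Prime] (ι : Qb →+* Om l) (U B : Subgroup GQ), U.Normal →
  Opn U → B.Normal → ¬ 5 ∣ B.index → ∀ y, y ≠ 0 → Fx U y →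
  (∀ g, Inert ι U g → g ∈ B → g y = y) → NVal ι y

/-- Tame inertia generator and Frobenius. -/
def TameS : Prop := ∀ (l : ℕ) [Fact l.Prime], l ≠ 5 → ∀ (ι : Qb →+* Om l) (U B : Subgroup GQ),
  U.Normal → Opn U → B.Normal → U ≤ B → (∀ g ∈ B, ∃ k : ℕ, g ^ 5 ^ k ∈ U) →
  ∃ τ φ₀ : GQ, τ ∈ B ∧ Inert ι U τ ∧
    (∀ g, Inert ι U g → g ∈ B → ∃ i : ℕ, g * (τ ^ i)⁻¹ ∈ U) ∧
    (∀ x, Fx U x → ‖ι x‖ ≤ 1 → ‖ι (φ₀ x - x ^ l)‖ < 1) ∧ φ₀ * τ * φ₀⁻¹ * (τ ^ l)⁻¹ ∈ U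

/-- The decomposition group is cyclic modulo inertia; inertia is a group preserving the norm. -/
def CyclS : Prop := ∀ (l : ℕ) [Fact l.Prime] (ι : Qb →+* Om l) (U : Subgroup GQ), U.Normal →
  Opn U → (∀ B : Subgroup GQ, B ≤ Dec ι → ∃ g₀ ∈ B, ∀ g ∈ B, ∃ k : ℕ, Inert ι U (g * (g₀ ^ k)⁻¹)) ∧
  (∀ g, Inert ι U g → ∀ x, Fx U x → ‖ι (g x)‖ = ‖ι x‖) ∧
  (∀ g h, Inert ι U g → Inert ι U h → Inert ι U (g * h))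

/-- Valuations of a number field through embeddings. -/
def ValS : Prop := ∀ (F : IntermediateField ℚ Qb) [FiniteDimensional ℚ F],
  (∀ (l : ℕ) [Fact l.Prime] (ι : Qb →+* Om l), ∃ π ∈ F, ∃ e : ℕ, 0 < e ∧
    e ≤ Module.finrank ℚ F ∧ ‖ι π‖ ^ e = (l : ℝ)⁻¹ ∧
    ∀ t ∈ F, t ≠ 0 → ∃ k : ℤ, ‖ι t‖ = ‖ι π‖ ^ k) ∧
  (∀ (l : ℕ) [Fact l.Prime] (ι : Qb →+* Om l), ∀ x ∈ F, ∀ y, y ≠ 0 → ‖ι x‖ = ‖ι y‖ ^ 5 →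
    NVal ι y → N5 F ι x) ∧
  (∀ (l : ℕ) [Fact l.Prime] (ι : Qb →+* Om l), ∀ x ∈ F, x ≠ 0 → ∀ g ∈ Dec ι, ∀ k : ℕ,
    k % 5 ≠ 1 → ∀ t ∈ F, g x = x ^ k * t ^ 5 → N5 F ι x) ∧
  ∀ k : ℕ, ¬ 5 ∣ k → (∀ c : ClassGroup (NumberField.RingOfIntegers F), c ^ k = 1) →
    ∀ x ∈ F, x ≠ 0 → (∀ (l : ℕ) [Fact l.Prime] (ι : Qb →+* Om l), N5 F ι x) →
    ∃ u ∈ F, ∃ t ∈ F, AUnit u ∧ x = u * t ^ 5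

/-- Radicals of units at an open normal level are killed by an open normal subgroup. -/
def RadS : Prop := ∀ (z : Qb) (hz : z ^ 5 = 1) (B : Subgroup GQ), IsPrimitiveRoot z 5 →
  B.Normal → Opn B → Fx B z → ∃ U : Subgroup GQ, U.Normal ∧ Opn U ∧ U ≤ B ∧
    (∀ y, AUnit y → Fx B (y ^ 5) → Fx U y) ∧ (∀ κ ∈ UTs z hz B, ∀ h ∈ U, κ h = 0) ∧
    ∀ g ∈ B, g ^ 5 ∈ U

/-! ### C. The small fields -/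

def SfzS : Prop := ∀ z : Qb, IsPrimitiveRoot z 5 → ∀ c : GQ, c z = z ^ 4 →
  ∀ x ∈ ℚ⟮z⟯, x ≠ 0 → (∃ t ∈ ℚ⟮z⟯, x * c x = t ^ 5) →
  (∀ (l : ℕ) [Fact l.Prime], l % 5 = 1 → ∀ ι : Qb →+* Om l, N5 ℚ⟮z⟯ ι x) →
  ∃ i : ℕ, ∃ t ∈ ℚ⟮z⟯, x = z ^ i * t ^ 5

/-- generators of the quartic field `K'` -/
def gK {k : Type} [Field k] (z : k) : k := z + z ^ 4
def bK {k : Type} [Field k] (a z : k) : k := (z + z ^ 4 + a * (z - z ^ 4)) / 2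
def pK {k : Type} [Field k] (a z : k) : k := -16 + 3 * gK z + 4 * bK a z

def SfkS : Prop := ∀ a z : Qb, a ^ 2 = 29 → IsPrimitiveRoot z 5 → ∀ c : GQ, c a = a → c z = z ^ 4 →
  ∀ x ∈ ℚ⟮bK a z⟯, x ≠ 0 → (∃ t ∈ ℚ⟮bK a z⟯, x * c x = t ^ 5) →
  (∀ (l : ℕ) [Fact l.Prime], l ≠ 5 → l ≠ 13 → l ≠ 659 → ∀ ι : Qb →+* Om l, N5 ℚ⟮bK a z⟯ ι x) →
  ∃ j k : ℕ, ∃ t ∈ ℚ⟮bK a z⟯,
    x = (pK a z / pK a (z ^ 4)) ^ j * (pK a (z ^ 2) / pK a (z ^ 3)) ^ k * t ^ 5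

/-- the units of the real quartic field -/
def uF {k : Type} [Field k] (r : k) (i j m : ℕ) : k :=
  (6 - r ^ 2) ^ i * (r - 1) ^ j * ((r + r ^ 2 - 1) / 2) ^ m

def Sf1S : Prop := ∀ r : Qb, r ^ 4 - 7 * r ^ 2 + 5 = 0 → ∀ x ∈ ℚ⟮r⟯, x ≠ 0 →
  (∀ (l : ℕ) [Fact l.Prime] (ι : Qb →+* Om l), N5 ℚ⟮r⟯ ι x) →
  ∃ i j m : ℕ, ∃ t ∈ ℚ⟮r⟯, x = uF r i j m * t ^ 5

/-- local check at 5, even weights -/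
def LceS : Prop := ∀ a z : Om 5, a ^ 2 = 29 → ‖a - 3‖ < 1 → IsPrimitiveRoot z 5 →
  ∀ (i j k : ℕ) (y : Om 5), (∀ γ : Gl 5, γ z = z → γ y = y) →
  y ^ 5 = z ^ i * (pK a z / pK a (z ^ 4)) ^ j * (pK a (z ^ 2) / pK a (z ^ 3)) ^ k →
  5 ∣ i ∧ 5 ∣ j ∧ 5 ∣ k

/-- local check at 5, odd weights -/
def Lco5S : Prop := ∀ r : Om 5, r ^ 4 - 7 * r ^ 2 + 5 = 0 → ∀ (i j m : ℕ) (y : Om 5),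
  (∀ γ : Gl 5, γ r = r → γ y = y) → y ^ 5 = uF r i j m →
  (‖r‖ = 1 ∧ (4 * j + 3 * m) % 5 = 0) ∨ (‖r‖ < 1 ∧ (j + m) % 5 = 0)

/-- residue check at 659 -/
def LcoqS : Prop := ∀ r : Om 659, r ^ 4 - 7 * r ^ 2 + 5 = 0 → ∀ (i j m : ℕ),
  ‖uF r i j m ^ ((659 ^ 8 - 1) / 5) - 1‖ < 1 → ‖uF (-r) i j m ^ ((659 ^ 8 - 1) / 5) - 1‖ < 1 →
  5 ∣ j ∧ (3 * i + m) % 5 = 0

/-- eigenspaces of `F^*/5` in the small 5-adic fields -/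
def LocZS : Prop := ∀ z : Om 5, IsPrimitiveRoot z 5 → ∀ γ₀ : Gl 5, γ₀ z = z ^ 2 → ∀ k : ℕ,
  k = 2 ∨ k = 3 → ∃ g₁ g₂ : Om 5, g₁ ≠ 0 ∧ g₂ ≠ 0 ∧ (k = 3 → g₂ = 1) ∧
    (∀ γ : Gl 5, γ z = z → γ g₁ = g₁ ∧ γ g₂ = g₂) ∧
    ∀ x : Om 5, x ≠ 0 → (∀ γ : Gl 5, γ z = z → γ x = x) →
      (∃ t, (∀ γ : Gl 5, γ z = z → γ t = t) ∧ γ₀ x = x ^ k * t ^ 5) →
      ∃ i j : ℕ, ∃ t, (∀ γ : Gl 5, γ z = z → γ t = t) ∧ x = g₁ ^ i * g₂ ^ j * t ^ 5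

def LocRS : Prop := ∀ r : Om 5, r ^ 4 - 7 * r ^ 2 + 5 = 0 → ∀ γ₀ : Gl 5, γ₀ r = -r →
  ∃ g₁ : Om 5, g₁ ≠ 0 ∧ (∀ γ : Gl 5, γ r = r → γ g₁ = g₁) ∧
    ∀ x : Om 5, x ≠ 0 → (∀ γ : Gl 5, γ r = r → γ x = x) →
      (∃ t, (∀ γ : Gl 5, γ r = r → γ t = t) ∧ γ₀ x = x ^ 4 * t ^ 5) →
      ∃ i : ℕ, ∃ t, (∀ γ : Gl 5, γ r = r → γ t = t) ∧ x = g₁ ^ i * t ^ 5

/-- fifth roots near 1 and norms of cyclotomic uniformisers -/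
def U5S : Prop :=
  (∀ t : Om 5, ‖t‖ ^ 4 < 5⁻¹ → ‖(1 + t) ^ 5 - 1‖ = 5⁻¹ * ‖t‖) ∧
  (∀ b : Om 5, ‖b‖ ^ 4 < 5⁻¹ ^ 5 → ∃ t : Om 5, ‖t‖ ^ 4 < 5⁻¹ ∧ (1 + t) ^ 5 = 1 + b ∧
    ∀ γ : Gl 5, γ b = b → γ t = t) ∧
  ∀ (r : ℕ) (ξ : Om 5), IsPrimitiveRoot ξ (5 ^ (r + 1)) → ‖ξ - 1‖ ^ (4 * 5 ^ r) = 5⁻¹

/-! ### D. The curve -/

/-- multiplication by 5 -/
def Ec5S : Prop := ∀ (k : Type) [Field k] [Algebra ℚ k] (P : Pt E0 k), P ≠ 0 →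
  (5 • P = 0 ↔ psi5 8175274 200970867709 (xc P) = 0) ∧
  (5 • P ≠ 0 → xc (5 • P) * psi5 8175274 200970867709 (xc P) ^ 2 =
    phi5 8175274 200970867709 (xc P)) ∧
  (5 • P = 0 → phi5 8175274 200970867709 (xc P) ≠ 0)

/-- divisibility by 5, at most 25 points of order dividing 5, torsion comes from `Qb` -/
def DivS : Prop :=
  (∀ (k : Type) [Field k] [Algebra ℚ k] [IsAlgClosed k] (Q : Pt E0 k), ∃ P, 5 • P = Q) ∧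
  (∀ (k : Type) [Field k] [Algebra ℚ k],
    {P : Pt E0 k | 5 • P = 0}.Finite ∧ {P : Pt E0 k | 5 • P = 0}.ncard ≤ 25) ∧
  (∀ (k : Type) [Field k] [Algebra ℚ k] (ι : Qb →+* k) (n : ℕ) (T : Pt E0 k), 5 ^ n • T = 0 →
    ∃ T₀ : Pt E0 Qb, 5 ^ n • T₀ = 0 ∧ pmap E0 ι T₀ = T) ∧
  ∀ (k : Type) [Field k] [Algebra ℚ k] [IsAlgClosed k] (x : k), ∃ P : Pt E0 k, P ≠ 0 ∧ xc P = x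

def Tor5S : Prop := Nonempty Tor5

def RepS : Prop := Nonempty Rep

/-- congruent integral points differ by a non-integral point (scaled coordinates) -/
def RedS : Prop := ∀ (l : ℕ) [Fact l.Prime] (u s : Om l), u ≠ 0 → ‖(2 * s + 1) / u ^ 3‖ ≤ 1 →
  ‖8175274 / u ^ 4‖ ≤ 1 → ‖(50242716927 - s ^ 2 - s) / u ^ 6‖ ≤ 1 →
  ‖(13 ^ 5 * 29 ^ 3 * 659 ^ 5 : Om l) / u ^ 12‖ = 1 → ∀ P Q : Pt E0 (Om l), P ≠ 0 → Q ≠ 0 →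
  ‖xc P / u ^ 2‖ ≤ 1 → ‖xc Q / u ^ 2‖ ≤ 1 → ‖(xc P - xc Q) / u ^ 2‖ < 1 →
  ‖(yc P - yc Q) / u ^ 3‖ < 1 → P = Q ∨ 1 < ‖xc (P - Q) / u ^ 2‖

/-- away from 5 the 5-power torsion is integral (scaled coordinates) -/
def IntS : Prop := ∀ (l : ℕ) [Fact l.Prime], l ≠ 5 → ∀ (u s : Om l), u ≠ 0 →
  ‖(2 * s + 1) / u ^ 3‖ ≤ 1 → ‖8175274 / u ^ 4‖ ≤ 1 → ‖(50242716927 - s ^ 2 - s) / u ^ 6‖ ≤ 1 →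
  ∀ (n : ℕ) (P : Pt E0 (Om l)), P ≠ 0 → 5 ^ n • P = 0 →
  ‖xc P / u ^ 2‖ ≤ 1 ∧ ‖(yc P - s) / u ^ 3‖ ≤ 1

/-- the kernel of reduction at 5 is a Galois stable subgroup -/
def E1S : Prop :=
  (∀ P Q : Pt E0 (Om 5), E1 P → E1 Q → E1 (P - Q)) ∧
  ∀ (γ : Gl 5) (P : Pt E0 (Om 5)), E1 P → E1 (pmap E0 (γ : Om 5 →+* Om 5) P)

/-- multiplication by 5 on the kernel of reduction at 5 -/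
def E15S : Prop :=
  (∀ P : Pt E0 (Om 5), 1 < ‖xc P‖ → ‖xc P‖ ^ 2 < 5 → 5 • P ≠ 0 ∧ ‖xc (5 • P)‖ = ‖xc P‖ ^ 5) ∧
  (∀ P : Pt E0 (Om 5), 5 < ‖xc P‖ ^ 2 → 5 • P ≠ 0 ∧ ‖xc (5 • P)‖ = 25 * ‖xc P‖) ∧
  (∀ P : Pt E0 (Om 5), ‖xc P‖ ^ 2 = 5 → 5 • P = 0 ∨ 5 ^ 5 ≤ ‖xc (5 • P)‖ ^ 2) ∧
  ∀ R : Pt E0 (Om 5), E1 R → ∃ P, E1 P ∧ 5 • P = R

/-- the points of order 5 at the primes above 5 -/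
def C5S : Prop :=
  (∀ d : Rep, ∃ ι : Qb →+* Om 5, ‖ι d.a - 3‖ < 1) ∧
  (∀ (d : Rep) (ι : Qb →+* Om 5), ‖ι d.a - 3‖ < 1 ∨ ‖ι (-d.a) - 3‖ < 1) ∧
  (∀ (d : Rep) (ι : Qb →+* Om 5), ‖ι d.a - 3‖ < 1 →
    ¬ E1 (pmap E0 ι (d.T 0)) ∧ E1 (pmap E0 ι (d.T 1)) ∧
    ∀ P : Pt E0 Qb, 5 • P = 0 → (E1 (pmap E0 ι P) ↔ ∃ j : ℕ, P = j • d.T 1)) ∧
  (∀ (d : Rep) (ι : Qb →+* Om 5), Dec ι ≤ gam d.ρ ∧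
    ∀ u v : F5, u ≠ 0 → v ≠ 0 → ∃ g ∈ Dec ι, ph1 d.ρ g = u ∧ ph2 d.ρ g = v) ∧
  ∃ T₀ : Pt E0 (Om 5), T₀ ≠ 0 ∧ E1 T₀ ∧ 5 • T₀ = 0 ∧
    ∀ T : Pt E0 (Om 5), E1 T → 5 • T = 0 → ∃ j : ℕ, T = j • T₀

/-- the index of `G_1` is prime to 5 and eighth powers lie in `G_1` -/
def IdxS : Prop := ∀ d : Rep, ¬ 5 ∣ (lev d.ρ 1).index ∧ (gam d.ρ).index = 2 ∧
  (∀ g : GQ, g ^ 8 ∈ lev d.ρ 1) ∧ (∃ s : GQ, s d.a = -d.a) ∧ ∀ g : GQ, g d.a = d.a ∨ g d.a = -d.a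

/-- inertia at the primes of potentially good reduction -/
def InertS : Prop := ∀ (d : Rep) (l : ℕ) [Fact l.Prime], l ≠ 5 → l ≠ 13 → l ≠ 659 →
  ∀ (ι : Qb →+* Om l) (n : ℕ), ∃ U : Subgroup GQ, U.Normal ∧ Opn U ∧ U ≤ lev d.ρ n ⊓ FixMu n ∧
    ∀ g, Inert ι U g → g ∈ lev d.ρ 1 → g ∈ lev d.ρ n ⊓ FixMu n

def VS : Prop := ∀ (d : Rep) (l : ℕ) [Fact l.Prime], l ≠ 5 → l ≠ 13 → l ≠ 659 →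
  ∀ (ι : Qb →+* Om l) (n : ℕ) (y : Qb), y ≠ 0 → Fx (lev d.ρ n ⊓ FixMu n) y → NVal ι y

/-- Newton polygon at 659 -/
def NpS : Prop := ∀ P : Pt E0 (Om 659), 5 • P ≠ 0 →
  (‖xc (5 • P) - 244917223‖ = 659⁻¹ ∨ ‖xc (5 • P) - 244917223‖ = 659⁻¹ ^ 2) →
  xc P - 244917223 ≠ 0 ∧
  ∀ m : ℕ, ¬ 5 ∣ m → ∀ k : ℤ, ‖xc P - 244917223‖ ^ m ≠ (659 : ℝ) ^ k

def NqS : Prop := ∀ (d : Rep) (ι : Qb →+* Om 659) (U : Subgroup GQ), U.Normal → Opn U →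
  U ≤ lev d.ρ 2 → ∃ g, Inert ι U g ∧ g ∈ lev d.ρ 1 ∧ g ∉ lev d.ρ 2

def I5S : Prop := ∀ d : Rep, ∃ g ∈ lev d.ρ 1, (25 : ℤ_[5]) ∣ d.ρ g 0 0 - 1 ∧
  (25 : ℤ_[5]) ∣ d.ρ g 0 1 ∧ ¬ (25 : ℤ_[5]) ∣ d.ρ g 1 1 - 1

def DensS : Prop := ∀ d : Rep, Dens d.ρ

/-- additive characters unramified outside 5 are proportional -/
def HqS : Prop := ∀ (d : Rep) (n : ℕ) (l₁ l₂ : GQ → F5), AddOn ⊤ l₁ → AddOn ⊤ l₂ →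
  (∀ g ∈ lev d.ρ n ⊓ FixMu n, l₁ g = 0 ∧ l₂ g = 0) → (∃ g, l₁ g ≠ 0) →
  ∃ s : F5, ∀ g, l₂ g = s * l₁ g

def CycS : Prop := ∀ (d : Rep) (n : ℕ), 1 ≤ n → slev d.ρ n = lev d.ρ 1 ⊓ FixMu n ∧
  lev d.ρ n ≤ FixMu n

/-! ### E. The arithmetic inputs of STAR and LOWER -/

def LsS : Prop := ∀ (d : Rep) (ι : Qb →+* Om 5), ‖ι d.a - 3‖ < 1 → LSH d.ρ Opn (Dec ι)

def UtS : Prop := ∀ (d : Rep) (B : Subgroup GQ), B.Normal → B ≤ lev d.ρ 1 →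
  (∀ κ ∈ UTs d.z d.hz.pow_eq_one B, AddOn B κ) ∧
  (∀ κ ∈ UTs d.z d.hz.pow_eq_one B, ∀ κ' : GQ → F5, (∀ h ∈ B, κ' h = κ h) →
    κ' ∈ UTs d.z d.hz.pow_eq_one B) ∧
  (∀ κ ∈ UTs d.z d.hz.pow_eq_one B, ∀ a : GQ,
    (fun h => κ (a⁻¹ * h * a)) ∈ UTs d.z d.hz.pow_eq_one B) ∧
  ∀ κ ∈ UTs d.z d.hz.pow_eq_one B, Cts Opn B κ

def GeS : Prop := ∀ (d : Rep) (ι : Qb →+* Om 5), ‖ι d.a - 3‖ < 1 → ∀ n, 1 ≤ n → ∀ j : ℕ,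
  j = 0 ∨ j = 2 → ∀ c ∈ d.UT n, Coc (fun g => rb d.ρ g ^ j) (gam d.ρ) c →
  (∀ g ∈ Dec ι, c g = 0) → ∀ g ∈ gam d.ρ, c g = 0

/-- what the tame elements detect -/
def TameDet (U : Subgroup GQ) (d : Rep) (τ φ : Fin 4 → GQ) : Prop :=
  (∀ y, y ≠ 0 → Fx U y → (∀ a ∈ gam d.ρ, ∀ i, τ i (a y) = a y) →
    (∀ ι : Qb →+* Om 13, NVal ι y) ∧ ∀ ι : Qb →+* Om 659, NVal ι y) ∧
  ∃ ι : Qb →+* Om 659, ∀ y, Fx U y → φ 0 y = y → ‖ι y‖ = 1 → ‖ι (y ^ (659 ^ 8 - 1) - 1)‖ < 1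

def TdS : Prop := ∀ (d : Rep) (U : Subgroup GQ), U.Normal → Opn U → U ≤ lev d.ρ 3 →
  (∀ g ∈ lev d.ρ 1, ∃ k : ℕ, g ^ 5 ^ k ∈ U) →
  ∃ τ φ : Fin 4 → GQ, TameData d.ρ U τ φ ∧ TameDet U d τ φ

def GoS : Prop := ∀ (d : Rep) (ι : Qb →+* Om 5), ‖ι d.a - 3‖ < 1 → ∀ n, 1 ≤ n →
  ∀ U : Subgroup GQ, U.Normal → U ≤ lev d.ρ n →
  (∀ y, AUnit y → Fx (lev d.ρ n) (y ^ 5) → Fx U y) → ∀ τ φ : Fin 4 → GQ,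
  (∀ i, τ i ∈ lev d.ρ 1 ∧ φ i ∈ lev d.ρ 1) → TameDet U d τ φ → ∀ j : ℕ, j = 1 ∨ j = 3 →
  ∀ c ∈ d.UT n, Coc (fun g => rb d.ρ g ^ j) (gam d.ρ) c → (∀ g ∈ Dec ι, c g = 0) →
  (∀ i, c (τ i) = 0) → c (φ 0) = 0 → ∀ g ∈ gam d.ρ, c g = 0

def UcS : Prop := ∀ (d : Rep) (n : ℕ), 1 ≤ n → ∃ κ : Fin (4 * 5 ^ (4 * (n - 1))) → GQ → F5,
  (∀ i, κ i ∈ d.UT n ∧ AddOn (lev d.ρ n) (κ i) ∧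
    ∀ z ∈ zlev d.ρ n, ∀ h ∈ lev d.ρ n, κ i (z⁻¹ * h * z) = κ i h) ∧
  ∀ s : Fin (4 * 5 ^ (4 * (n - 1))) → F5, (∀ h ∈ lev d.ρ n, ∑ i, s i * κ i h = 0) → s = 0

def UlS : Prop := ∀ (d : Rep) (n : ℕ), 1 ≤ n → ∃ κ : Fin (4 * 5 ^ (n - 1)) → GQ → F5,
  (∀ i, κ i ∈ UTs d.z d.hz.pow_eq_one (slev d.ρ n)) ∧
  (∀ i, ∀ z ∈ zlev d.ρ n, ∀ h ∈ slev d.ρ n, κ i (z⁻¹ * h * z) = κ i h) ∧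
  (∀ i a, MC n (d.ρ a) !![1, 0; 0, -1] → ∀ h ∈ slev d.ρ n, κ i (a⁻¹ * h * a) = -κ i h) ∧
  ∀ s : Fin (4 * 5 ^ (n - 1)) → F5, (∀ h ∈ slev d.ρ n, ∑ i, s i * κ i h = 0) → s = 0

def StarQS : Prop := ∀ (d : Rep) (ι : Qb →+* Om 5), ‖ι d.a - 3‖ < 1 →
  StarC d.ρ Opn (Dec ι) d.UT

/-- arbitrarily many good classes, invariant under `S_n`, distinct on the infinite level -/
def LowQS : Prop := ∀ (d : Rep) (N : ℕ), ∃ n, 1 ≤ n ∧ ∃ f : Fin N → GQ → Pt E0 Qb,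
  (∀ i, Good d n (f i) ∧ (∀ h ∈ lev d.ρ n, 5 • f i h = 0) ∧
    ∀ a ∈ slev d.ρ n, ∀ h ∈ lev d.ρ n, f i (a⁻¹ * h * a) = f i h) ∧
  ∀ i j, (∀ h, (∀ m, h ∈ lev d.ρ m) → f i h = f j h) → i = j

/-! ### F. Divisibility and the Selmer conditions -/

def TtS : Prop := ∀ (d : Rep) (m : ℕ), 1 ≤ m → ∀ f ∈ TT d m,
  AddOn (lev d.ρ m) f ∧ (∀ h ∈ lev d.ρ m, 5 ^ m • f h = 0) ∧
  (∃ U, Opn U ∧ ∀ h ∈ lev d.ρ m, h ∈ U → f h = 0) ∧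
  (∀ g : GQ, (fun h => f (g⁻¹ * h * g)) ∈ TT d m ∧
    (fun h => act E0 g (f (g⁻¹ * h * g))) ∈ TT d m) ∧
  (∀ n, m ≤ n → f ∈ TT d n) ∧
  (∀ f' : GQ → Pt E0 Qb, (∀ h ∈ lev d.ρ m, f' h = f h) → f' ∈ TT d m) ∧
  ∃ f' ∈ TT d (m + 1), ∀ h ∈ lev d.ρ (m + 1), 5 • f' h = f h

def DivQS : Prop := ∀ (d : Rep) (m : ℕ), 1 ≤ m → ∀ f, Good d m f →
  ∃ n, m ≤ n ∧ ∃ f', Good d n f' ∧ ∀ h ∈ lev d.ρ n, 5 • f' h = f h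

/-- Kummer classes of units are coboundaries in the kernel of reduction -/
def Cg1S : Prop := ∀ (Λ : Subgroup (Gl 5)), OpnK Λ → ∀ (z : Om 5) (T₀ : Pt E0 (Om 5)),
  IsPrimitiveRoot z 5 → Fx Λ z → T₀ ≠ 0 → E1 T₀ → 5 • T₀ = 0 →
  (∀ T : Pt E0 (Om 5), E1 T → 5 • T = 0 → ∃ j : ℕ, T = j • T₀) →
  (∀ γ ∈ Λ, pmap E0 (γ : Om 5 →+* Om 5) T₀ = T₀) →
  ∀ (y : Om 5) (κ : Gl 5 → F5), ‖y‖ = 1 → (∀ γ ∈ Λ, γ y = z ^ (κ γ).val * y) →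
  ∃ P : Pt E0 (Om 5), E1 P ∧ ∀ γ ∈ Λ, (κ γ).val • T₀ = pmap E0 (γ : Om 5 →+* Om 5) P - P

/-- Coates-Greenberg -/
def CgS : Prop := ∀ (Λ : ℕ → Subgroup (Gl 5)), Antitone Λ → (∀ m, OpnK (Λ m)) →
  (∀ m, ∀ γ ∈ Λ m, ∀ T : Pt E0 (Om 5), 5 ^ m • T = 0 → pmap E0 (γ : Om 5 →+* Om 5) T = T) →
  (∀ m, 1 ≤ m → ∀ γ ∈ Λ m, ∀ ξ : Om 5, ξ ^ 5 ^ m = 1 → γ ξ = ξ) →
  ∀ (k m : ℕ), 1 ≤ m → ∀ f : Gl 5 → Pt E0 (Om 5), AddOn (Λ m) f →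
  (∀ γ ∈ Λ m, E1 (f γ) ∧ 5 ^ k • f γ = 0) → (∃ U, OpnK U ∧ ∀ γ ∈ Λ m, γ ∈ U → f γ = 0) →
  ∃ m', m ≤ m' ∧ ∃ P : Pt E0 (Om 5), E1 P ∧
    ∀ γ ∈ Λ m', f γ = pmap E0 (γ : Om 5 →+* Om 5) P - P

/-- local triviality of `f` at `ι` on level `m` -/
def LocAt (d : Rep) (m : ℕ) (f : GQ → Pt E0 Qb) {l : ℕ} [Fact l.Prime] (ι : Qb →+* Om l) : Prop :=
  ∃ P : Pt E0 (Om l), ∀ (γ : Gl l) (g : GQ), g ∈ lev d.ρ m → Cmp ι g γ →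
    pmap E0 ι (f g) = pmap E0 (γ : Om l →+* Om l) P - P

def Loc5S : Prop := ∀ (d : Rep) (m : ℕ), 1 ≤ m → ∀ f, Good d m f → ∀ ι : Qb →+* Om 5,
  ∃ m', m ≤ m' ∧ LocAt d m' f ι

def LocBadS : Prop := ∀ (d : Rep) (m : ℕ), 1 ≤ m → ∀ f ∈ TT d m, ∀ (l : ℕ) [Fact l.Prime],
  l ≠ 5 → ∀ ι : Qb →+* Om l, ∃ m', m ≤ m' ∧ LocAt d m' f ι

def LocGoodS : Prop := ∀ (d : Rep) (m : ℕ), 1 ≤ m → ∀ f ∈ TT d m, ∀ (l : ℕ) [Fact l.Prime],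
  l ≠ 5 → l ≠ 13 → l ≠ 29 → l ≠ 659 → ∀ ι : Qb →+* Om l, LocAt d m f ι

/-- one level for all primes -/
def LocAllS : Prop := ∀ (d : Rep) (m : ℕ), 1 ≤ m → ∀ f, Good d m f →
  ∃ m', m ≤ m' ∧ ∀ (l : ℕ) [Fact l.Prime] (ι : Qb →+* Om l), LocAt d m' f ι

end Pool.Agent.Lib.MP_54db3e_nt
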