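import Pool.Agent.Lib.MP_54db3e_nt.Stmt
import Pool.Agent.Lib.MP_54db3e_nt.SelFin

/-!
Interface statements that mention the definitions of the final statement.
-/

open scoped Classical

noncomputable section

namespace Pool.Agent.Lib.MP_54db3e_nt

/-- the group `H` of the curve -/
abbrev HH : Type := Hcyc 5 Qb ⧸ (Finf E0 5 Qb).fixingSubgroup.subgroupOf (Hcyc 5 Qb)

/-- infinitely many invariant, infinitely divisible classes of order `p` prevent finite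
generation -/
def NfgS : Prop := ∀ (p : ℕ) [Fact p.Prime] (G : Type) [Group G] [TopologicalSpace G] (S : Type)
  [AddCommGroup S] [DistribMulAction G S] [IsDiscreteMod G S] (U : OpenNormalSubgroup G),
  Finite (G ⧸ U.toSubgroup) →
  {s : S | p • s = 0 ∧ (∀ g ∈ U.toSubgroup, g • s = s) ∧ ∀ k : ℕ, ∃ t, p ^ k • t = s}.Infinite →
  (∀ s : S, ∃ k : ℕ, p ^ k • s = 0) →
  ¬ DualFinGen p G S

def FinfS : Prop := ∀ d : Rep,
  (∀ g : GQ, g ∈ (Finf E0 5 Qb).fixingSubgroup ↔ ∀ m, g ∈ lev d.ρ m) ∧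
  (∀ m, IntermediateField.fixedField (lev d.ρ m) ≤ Finf E0 5 Qb) ∧
  (∀ g ∈ Hcyc 5 Qb, g ∈ lev d.ρ 1 → ∀ n, 1 ≤ n → g ∈ slev d.ρ n) ∧
  ∃ U : OpenNormalSubgroup HH, Finite (HH ⧸ U.toSubgroup) ∧
    ∀ g : Hcyc 5 Qb, (QuotientGroup.mk g : HH) ∈ U.toSubgroup → g.1 ∈ lev d.ρ 1

def SelS : Prop := ∀ (d : Rep) (m : ℕ), 1 ≤ m → ∀ f, Good d m f →
  ∃ s : Sel E0 5 (Finf E0 5 Qb), ∀ g, s.1 g = f g.1

def GoodS : Prop := GoodOrdinary E0Z 5

def MainS : Prop := ¬ FinGenModP E0 5 Qb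

end Pool.Agent.Lib.MP_54db3e_nt
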