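import Pool.Agent.Lib.MP_54db3e_nt.Stmt
import Pool.Agent.Lib.MP_54db3e_nt.H84Chart

/-!
The kernel of reduction at 5 is a Galois stable subgroup.
-/

open scoped Classical

namespace Pool.Agent.Lib.MP_54db3e_nt

namespace TE1

theorem norm_int_unit (n : ℤ) (h : ¬ (5 : ℤ) ∣ n) : ‖(n : Om 5)‖ = 1 := by
  have h1 : ‖((n : ℚ_[5]) : Om 5)‖ = ‖(n : ℚ_[5])‖ := PadicAlgCl.norm_extends 5 _
  have h2 : ((n : ℚ_[5]) : Om 5) = (n : Om 5) := map_intCast (algebraMap ℚ_[5] (Om 5)) n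
  rw [← h2, h1]
  refine le_antisymm (Padic.norm_int_le_one n) (not_lt.1 fun hlt => h ?_)
  exact_mod_cast Padic.norm_intCast_lt_one_iff.1 hlt

theorem good : H84.Good (E0.toAffine.baseChange (Om 5)) where
  h2 := by simpa using norm_int_unit 2 (by norm_num)
  a1 := by simp [E0, E0Z]
  a2 := by simp [E0, E0Z]
  hA := by
    have : (E0.toAffine.baseChange (Om 5)).a₄ = ((8175274 : ℤ) : Om 5) := by simp [E0, E0Z]
    rw [this]
    exact IsUltrametricDist.norm_intCast_le_one _ _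
  hB := by
    have : (E0.toAffine.baseChange (Om 5)).a₃ ^ 2 + 4 * (E0.toAffine.baseChange (Om 5)).a₆ =
        ((200970867709 : ℤ) : Om 5) := by
      simp [E0, E0Z]
      norm_num
    rw [this]
    exact IsUltrametricDist.norm_intCast_le_one _ _

theorem e1_iff (P : Pt E0 (Om 5)) : E1 P ↔ P ∈ H84.E1 good := by
  rcases P with _ | ⟨x, y, h⟩
  · exact iff_of_true (Or.inl rfl) trivial
  · exact ⟨fun hP => hP.resolve_left (WeierstrassCurve.Affine.Point.some_ne_zero h), Or.inr⟩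

end TE1

theorem e1S : E1S := by
  refine ⟨fun P Q hP hQ => ?_, fun γ P hP => ?_⟩
  · rw [TE1.e1_iff] at *
    exact sub_mem hP hQ
  · rcases P with _ | ⟨x, y, h⟩
    · exact Or.inl rfl
    · refine Or.inr ?_
      have h1 : 1 < ‖x‖ := hP.resolve_left (WeierstrassCurve.Affine.Point.some_ne_zero h)
      have h2 : ‖x‖ = ‖γ x‖ := spectralNorm_eq_of_equiv γ x
      exact h2 ▸ h1

end Pool.Agent.Lib.MP_54db3e_nt
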