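import Pool.Agent.Lib.MP_54db3e_nt.StmtF

/-!
Good ordinary reduction at 5.
-/

open scoped Classical

noncomputable section

namespace Pool.Agent.Lib.MP_54db3e_nt

namespace TGood

theorem delta : E0Z.Δ = -(13 ^ 5 * 29 ^ 3 * 659 ^ 5) := by
  simp only [E0Z, WeierstrassCurve.Δ, WeierstrassCurve.b₂, WeierstrassCurve.b₄, WeierstrassCurve.b₆,
    WeierstrassCurve.b₈]
  norm_num

theorem eqn (x y : ZMod 5) : (E0Z.map (Int.castRingHom (ZMod 5))).toAffine.Nonsingular x y ↔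
    y ^ 2 + y = x ^ 3 + 4 * x + 2 := by
  rw [← WeierstrassCurve.Affine.equation_iff_nonsingular_of_Δ_ne_zero,
    WeierstrassCurve.Affine.equation_iff]
  · have e4 : ((8175274 : ℤ) : ZMod 5) = 4 := by decide
    have e6 : ((50242716927 : ℤ) : ZMod 5) = 2 := by decide
    simp only [E0Z, WeierstrassCurve.map_a₁, WeierstrassCurve.map_a₂, WeierstrassCurve.map_a₃,
      WeierstrassCurve.map_a₄, WeierstrassCurve.map_a₆, eq_intCast, e4, e6]
    simp
  · rw [WeierstrassCurve.map_Δ, delta, eq_intCast, Ne, ZMod.intCast_zmod_eq_zero_iff_dvd]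
    norm_num

theorem card : Nat.card (E0Z.map (Int.castRingHom (ZMod 5))).toAffine.Point = 8 := by
  rw [Nat.card_congr (WeierstrassCurve.Affine.nonsingularPointEquiv _)]
  have e : {xy : ZMod 5 × ZMod 5 //
      (E0Z.map (Int.castRingHom (ZMod 5))).toAffine.Nonsingular xy.1 xy.2} ≃
      {xy : ZMod 5 × ZMod 5 // xy.2 ^ 2 + xy.2 = xy.1 ^ 3 + 4 * xy.1 + 2} :=
    Equiv.subtypeEquivRight fun xy => eqn xy.1 xy.2
  have h : Nat.card {xy : ZMod 5 × ZMod 5 // xy.2 ^ 2 + xy.2 = xy.1 ^ 3 + 4 * xy.1 + 2} = 7 := by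
    rw [Nat.card_eq_fintype_card, Fintype.card_subtype]
    decide
  have e' := Nat.card_congr (Equiv.optionCongr e)
  rw [Finite.card_option (α := {xy : ZMod 5 × ZMod 5 // xy.2 ^ 2 + xy.2 = xy.1 ^ 3 + 4 * xy.1 + 2}),
    h] at e'
  exact e'

end TGood

theorem goodS : GoodS := by
  refine ⟨?_, ?_⟩
  · rw [TGood.delta]; norm_num
  · rw [TGood.card]; norm_num

end Pool.Agent.Lib.MP_54db3e_nt
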