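import Pool.Agent.Lib.MP_54db3e_nt.TC5

open scoped Classical

noncomputable section

namespace Pool.Agent.Lib.MP_54db3e_nt

namespace TI5

open TC5

theorem curve {k : Type} [Field k] [Algebra ℚ k] (P : Pt E0 k) (h : P ≠ 0) :
    yc P ^ 2 + yc P = xc P ^ 3 + 8175274 * xc P + 50242716927 := by
  cases P with
  | zero => exact absurd rfl h
  | some x y hn =>
    have := (WeierstrassCurve.Affine.equation_iff _ _).1 hn.1
    simp only [xc, yc]
    simpa [E0, E0Z] using this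

theorem yc_le {P : Pt E0 (Om 5)} (h : P ≠ 0) (hx : ‖xc P‖ ≤ 1) : ‖yc P‖ ≤ 1 := by
  by_contra hy
  push Not at hy
  have h1 : ‖yc P ^ 2 + yc P‖ = ‖yc P‖ ^ 2 := by
    rw [add_lt, norm_pow]
    rw [norm_pow]; nlinarith
  have h2 : ‖xc P ^ 3 + 8175274 * xc P + 50242716927‖ ≤ 1 := by
    refine add_le (add_le ?_ ?_) (by exact_mod_cast nle 50242716927)
    · rw [norm_pow]; exact pow_le_one₀ (norm_nonneg _) hx
    · rw [norm_mul]
      exact mul_le_one₀ (by exact_mod_cast nle 8175274) (norm_nonneg _) hx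
  rw [← curve P h, h1] at h2
  nlinarith

theorem xc_act (g : GQ) (P : Pt E0 Qb) : xc (act E0 g P) = g (xc P) := xc_pmap _ P
theorem yc_act (g : GQ) (P : Pt E0 Qb) : yc (act E0 g P) = g (yc P) := yc_pmap _ P

theorem inert_E1 (hE1 : E1S) (hRed : RedS) (hCycl : CyclS) (d : Rep) (ι : Qb →+* Om 5) (g : GQ)
    (hg : Inert ι (lev d.ρ 2) g) (R : Pt E0 Qb) (hR : 5 ^ 2 • R = 0) :
    E1 (pmap E0 ι (act E0 g R - R)) := by
  by_cases h0 : R = 0
  · subst h0; left; simp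
  have fx : Fx (lev d.ρ 2) (xc R) := fun h hh => by
    rw [← xc_act, (d.mem_lev h 2).1 hh R hR]
  have fy : Fx (lev d.ρ 2) (yc R) := fun h hh => by
    rw [← yc_act, (d.mem_lev h 2).1 hh R hR]
  have hn := (hCycl 5 ι (lev d.ρ 2) inferInstance (d.opn_lev 2)).2.1 g hg _ fx
  have hP : xc (pmap E0 ι (act E0 g R)) = ι (g (xc R)) := by rw [xc_pmap, xc_act]
  have hP' : yc (pmap E0 ι (act E0 g R)) = ι (g (yc R)) := by rw [yc_pmap, yc_act]
  rw [map_sub]
  by_cases hx : ‖ι (xc R)‖ ≤ 1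
  · have hy : ‖ι (yc R)‖ ≤ 1 := by
      rw [← yc_pmap]; exact yc_le (pmap_ne ι h0) (by rwa [xc_pmap])
    have hΔ : ‖(13 ^ 5 * 29 ^ 3 * 659 ^ 5 : Om 5)‖ = 1 := by
      have a : ‖(13 : Om 5)‖ = 1 := by exact_mod_cast nunit 13 (by norm_num)
      have b : ‖(29 : Om 5)‖ = 1 := by exact_mod_cast nunit 29 (by norm_num)
      have c : ‖(659 : Om 5)‖ = 1 := by exact_mod_cast nunit 659 (by norm_num)
      rw [norm_mul, norm_mul, norm_pow, norm_pow, norm_pow, a, b, c]; norm_num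
    have := hRed 5 1 0 one_ne_zero (by simp) (by simpa using nle 8175274)
      (by simpa using nle 50242716927) (by rw [one_pow, div_one]; exact hΔ)
      (pmap E0 ι (act E0 g R)) (pmap E0 ι R) (pmap_ne ι (pmap_ne _ h0)) (pmap_ne ι h0)
      (by rw [one_pow, div_one, hP, hn]; exact hx) (by rw [one_pow, div_one, xc_pmap]; exact hx)
      (by rw [one_pow, div_one, hP, xc_pmap, ← map_sub]; exact hg _ fx hx)
      (by rw [one_pow, div_one, hP', yc_pmap, ← map_sub]; exact hg _ fy hy)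
    rcases this with h | h
    · left; rw [h, sub_self]
    · right; rwa [one_pow, div_one] at h
  · push Not at hx
    exact hE1.1 _ _ (Or.inr (by rw [hP, hn]; exact hx)) (Or.inr (by rw [xc_pmap]; exact hx))

theorem dvd_val (x : ℤ_[5]) (c : ℤ) (h : (5 : ℤ) ^ 2 ∣ ((PadicInt.toZModPow 2 x).val : ℤ) - c) :
    (25 : ℤ_[5]) ∣ x - c := by
  have h1 : PadicInt.toZModPow 2 (x - (c : ℤ_[5])) = 0 := by
    rw [map_sub, map_intCast, ← ZMod.natCast_zmod_val (PadicInt.toZModPow 2 x)]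
    have := (ZMod.intCast_zmod_eq_zero_iff_dvd _ (5 ^ 2)).2 (by exact_mod_cast h)
    exact_mod_cast this
  rw [← RingHom.mem_ker, PadicInt.ker_toZModPow, Ideal.mem_span_singleton] at h1
  exact_mod_cast h1

theorem val_of_dvd (x : ℤ_[5]) (c : ℕ) (h : (25 : ℤ_[5]) ∣ x - c) :
    PadicInt.toZModPow 2 x = c := by
  have h1 : x - c ∈ RingHom.ker (PadicInt.toZModPow (p := 5) 2) := by
    rw [PadicInt.ker_toZModPow, Ideal.mem_span_singleton]
    exact_mod_cast h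
  rwa [RingHom.mem_ker, map_sub, map_natCast, sub_eq_zero] at h1

end TI5

open TC5 TI5 in
theorem i5S (hE1 : E1S) (hRed : RedS) (hCycl : CyclS) (hRam : RamS) (hDiv : DivS) (hE15 : E15S)
    (hIdx : IdxS) (hC5 : C5S) : I5S := by
  intro d
  obtain ⟨ι, hι⟩ := hC5.1 d
  obtain ⟨-, B, C⟩ := hC5.2.2.1 d ι hι
  have t0 := pmap_ne ι (d.T_ne 1)
  have t5 : 5 • pmap E0 ι (d.T 1) = 0 := by rw [← map_nsmul, d.five, map_zero]
  have n1 : ‖xc (pmap E0 ι (d.T 1))‖ ^ 2 = 5 := by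
    rcases lt_trichotomy (‖xc (pmap E0 ι (d.T 1))‖ ^ 2) 5 with h | h | h
    · exact absurd t5 (hE15.1 _ (B.resolve_left t0) h).1
    · exact h
    · exact absurd t5 (hE15.2.1 _ h).1
  obtain ⟨P, hP, h5⟩ := hE15.2.2.2 _ B
  have p0 : P ≠ 0 := by rintro rfl; exact t0 (by rw [← h5, nsmul_zero])
  have n2 : ‖xc P‖ ^ 10 = 5 := by
    rcases lt_trichotomy (‖xc P‖ ^ 2) 5 with h | h | h
    · rw [← n1, ← h5, (hE15.1 _ (hP.resolve_left p0) h).2]; ring
    · rcases hE15.2.2.1 _ h with h' | h'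
      · exact absurd (h5.symm.trans h') t0
      · rw [h5, n1] at h'; norm_num at h'
    · have := (hE15.2.1 _ h).2
      rw [h5] at this
      rw [this] at n1
      nlinarith
  obtain ⟨R, hR, rfl⟩ := hDiv.2.2.1 (Om 5) ι 2 P (by
    rw [pow_two, mul_nsmul, h5, t5])
  rw [xc_pmap] at n2
  have hR5 : 5 • R = d.T 1 := pmap_inj ι (by rw [map_nsmul, h5])
  have fx : Fx (lev d.ρ 2) (xc R) := fun h hh => by
    rw [← xc_act, (d.mem_lev h 2).1 hh R hR]
  obtain ⟨g, hg, g1, gm⟩ : ∃ g, Inert ι (lev d.ρ 2) g ∧ g ∈ lev d.ρ 1 ∧ g (xc R) ≠ xc R := by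
    by_contra hc
    push Not at hc
    obtain ⟨m, hm, k, hk⟩ := hRam 5 ι (lev d.ρ 2) (lev d.ρ 1) inferInstance (d.opn_lev 2)
      inferInstance (hIdx d).1 (xc R) (by rintro e; rw [e] at n2; norm_num at n2) fx hc
    have e : (5 : ℝ) ^ (m : ℤ) = 5 ^ (k * 10) := by
      rw [zpow_natCast, ← n2, ← pow_mul, mul_comm, pow_mul, hk, n2, ← zpow_natCast, ← zpow_mul]
      norm_num
    have := zpow_right_injective₀ (a := (5 : ℝ)) (by norm_num) (by norm_num) e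
    omega
  have e5 : ∀ j, 5 • d.e 2 j = d.T j := fun j => by rw [d.e_succ 1 j, d.e_one]
  have e25 : ∀ j, 5 ^ 2 • d.e 2 j = 0 := fun j => by rw [pow_two, mul_nsmul, e5, d.five]
  have fixT : ∀ Q : Pt E0 Qb, 5 • Q = 0 → act E0 g Q = Q := fun Q hQ =>
    (d.mem_lev g 1).1 g1 Q (by rwa [pow_one])
  have mv : ∀ j, ∃ n : ℕ, act E0 g (d.e 2 j) - d.e 2 j = n • d.T 1 := fun j =>
    (C _ (by rw [smul_sub, ← map_nsmul, e5, fixT _ (d.five j), sub_self])).1
      (inert_E1 hE1 hRed hCycl d ι g hg _ (e25 j))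
  obtain ⟨a, ha⟩ := mv 0
  obtain ⟨b, hb⟩ := mv 1
  rw [d.hρ, ← e5] at ha hb
  have k0 := (d.e_indep 2 (((PadicInt.toZModPow 2 (d.ρ g 0 0)).val : ℤ) - 1)
    (((PadicInt.toZModPow 2 (d.ρ g 1 0)).val : ℤ) - 5 * a) (by
      rw [← sub_eq_zero] at ha
      rw [← ha]; module)).1
  have k1 := (d.e_indep 2 (((PadicInt.toZModPow 2 (d.ρ g 0 1)).val : ℤ) - 0)
    (((PadicInt.toZModPow 2 (d.ρ g 1 1)).val : ℤ) - 1 - 5 * b) (by
      rw [← sub_eq_zero] at hb
      rw [← hb]; module)).1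
  have k1' : (25 : ℤ_[5]) ∣ d.ρ g 0 1 := by simpa using dvd_val _ _ k1
  refine ⟨g, g1, by simpa using dvd_val _ _ k0, k1', fun h => gm ?_⟩
  have f1 : act E0 g (d.e 2 1) = d.e 2 1 := by
    rw [d.hρ, val_of_dvd _ 0 (by simpa using k1'), val_of_dvd _ 1 (by simpa using h)]
    have : Fact (1 < 5 ^ 2) := ⟨by norm_num⟩
    simp [ZMod.val_one]
  have f2 : act E0 g R = R := by
    have := fixT (R - d.e 2 1) (by rw [smul_sub, hR5, e5, sub_self])
    rwa [map_sub, f1, sub_left_inj] at this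
  rw [← xc_act, f2]

end Pool.Agent.Lib.MP_54db3e_nt
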