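import Pool.Agent.Lib.MP_54db3e_nt.Stmt

/-!
Approximation of 5-adic algebraic integers by vectors of natural numbers.
-/

open scoped Classical
open IntermediateField Polynomial

noncomputable section

namespace Pool.Agent.Lib.MP_54db3e_nt.TLce

abbrev am : ℚ_[5] →+* Om 5 := algebraMap ℚ_[5] (Om 5)

theorem nam (c : ℚ_[5]) : ‖am c‖ = ‖c‖ := PadicAlgCl.norm_extends 5 c

theorem nadd {a b : Om 5} {ρ : ℝ} (ha : ‖a‖ ≤ ρ) (hb : ‖b‖ ≤ ρ) : ‖a + b‖ ≤ ρ :=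
  (IsUltrametricDist.norm_add_le_max a b).trans (max_le ha hb)

theorem nsub {a b : Om 5} {ρ : ℝ} (ha : ‖a‖ ≤ ρ) (hb : ‖b‖ ≤ ρ) : ‖a - b‖ ≤ ρ := by
  rw [sub_eq_add_neg]; exact nadd ha (by rwa [norm_neg])

theorem ladd {a b : Om 5} {ρ : ℝ} (ha : ‖a‖ < ρ) (hb : ‖b‖ < ρ) : ‖a + b‖ < ρ :=
  (IsUltrametricDist.norm_add_le_max a b).trans_lt (max_lt ha hb)

theorem lsub {a b : Om 5} {ρ : ℝ} (ha : ‖a‖ < ρ) (hb : ‖b‖ < ρ) : ‖a - b‖ < ρ := by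
  rw [sub_eq_add_neg]; exact ladd ha (by rwa [norm_neg])

theorem nmul {a b : Om 5} {ρ σ : ℝ} (ha : ‖a‖ ≤ ρ) (hb : ‖b‖ ≤ σ) : ‖a * b‖ ≤ ρ * σ := by
  rw [norm_mul]
  exact mul_le_mul ha hb (norm_nonneg _) ((norm_nonneg _).trans ha)

theorem nmul1 {a b : Om 5} {ρ : ℝ} (ha : ‖a‖ ≤ ρ) (hb : ‖b‖ ≤ 1) : ‖a * b‖ ≤ ρ := by
  simpa using nmul ha hb

theorem npow1 {a : Om 5} (ha : ‖a‖ ≤ 1) (n : ℕ) : ‖a ^ n‖ ≤ 1 := by
  rw [norm_pow]; exact pow_le_one₀ (norm_nonneg _) ha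

theorem nnat (n : ℕ) : ‖(n : Om 5)‖ ≤ 1 := IsUltrametricDist.norm_natCast_le_one _ n

theorem n5 : ‖(5 : Om 5)‖ = 5⁻¹ := by
  have := nam ((5 : ℕ) : ℚ_[5])
  rw [Padic.norm_p, map_natCast] at this
  simpa using this

theorem n25 : ‖(25 : Om 5)‖ = 25⁻¹ := by
  rw [show (25 : Om 5) = 5 * 5 by norm_num, norm_mul, n5]; norm_num

theorem one_of_near {x : Om 5} (h : ‖x - 1‖ < 1) : ‖x‖ = 1 := by
  refine le_antisymm ?_ (not_lt.1 fun h' => ?_)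
  · have := nadd h.le (norm_one (α := Om 5)).le
    rwa [sub_add_cancel] at this
  · have := lsub h' h
    simp at this

theorem ncop {n : ℕ} (h : Nat.Coprime 5 n) : ‖(n : Om 5)‖ = 1 := by
  have := nam (n : ℚ_[5])
  rwa [Padic.norm_natCast_eq_one_iff.2 h, map_natCast] at this

/-- the integers of the algebraic closure -/
def OO : Subring (Om 5) where
  carrier := {x | ‖x‖ ≤ 1}
  mul_mem' := nmul1
  one_mem' := (norm_one (α := Om 5)).le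
  add_mem' := nadd
  zero_mem' := by simp
  neg_mem' := fun {x} h => by simpa using h

theorem qlt {c : ℚ_[5]} (h : ‖c‖ < 1) : ‖c‖ ≤ 5⁻¹ := by
  have := (Padic.norm_le_pow_iff_norm_lt_pow_add_one c (-1)).2 (by simpa using h)
  simpa using this

theorem digit {c : ℚ_[5]} (h : ‖c‖ ≤ 1) : ∃ n : ℕ, n < 5 ∧ ‖am c - n‖ ≤ 5⁻¹ := by
  refine ⟨PadicInt.zmodRepr (⟨c, h⟩ : ℤ_[5]), PadicInt.zmodRepr_lt_p _, ?_⟩
  rw [← map_natCast am, ← map_sub, nam]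
  exact qlt (PadicInt.norm_sub_zmodRepr_lt_one (⟨c, h⟩ : ℤ_[5]))

theorem int_coeff {n : ℕ} (θ : Fin n → Om 5)
    (H : ∀ c : Fin n → ℚ_[5], (∀ i, ‖c i‖ ≤ 1) → ‖∑ i, am (c i) * θ i‖ ≤ 5⁻¹ → ∀ i, ‖c i‖ < 1)
    (c : Fin n → ℚ_[5]) (h : ‖∑ i, am (c i) * θ i‖ ≤ 1) (i : Fin n) : ‖c i‖ ≤ 1 := by
  obtain ⟨m, -, hm⟩ := Finset.exists_max_image Finset.univ (fun i => ‖c i‖) ⟨i, Finset.mem_univ i⟩
  by_contra hc
  have h1 : 1 < ‖c m‖ := (not_le.1 hc).trans_le (hm i (Finset.mem_univ i))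
  have h0 : c m ≠ 0 := fun e => by rw [e, norm_zero] at h1; linarith
  have h2 : ‖(c m)⁻¹‖ ≤ 5⁻¹ := qlt (by rw [norm_inv]; exact inv_lt_one_of_one_lt₀ h1)
  have := H (fun i => (c m)⁻¹ * c i) (fun i => by
      rw [norm_mul, norm_inv, inv_mul_le_one₀ (by linarith)]
      exact hm i (Finset.mem_univ i)) (by
      simp only [map_mul, mul_assoc, ← Finset.mul_sum]
      exact nmul1 (by rwa [nam]) h) m
  simp [h0] at this

theorem dvd_coeff {n : ℕ} (θ : Fin n → Om 5)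
    (H : ∀ c : Fin n → ℚ_[5], ‖∑ i, am (c i) * θ i‖ ≤ 1 → ∀ i, ‖c i‖ ≤ 1) (e : ℕ)
    (c : Fin n → ℤ) (h : ‖∑ i, (c i : Om 5) * θ i‖ ≤ 5⁻¹ ^ e) (i : Fin n) : (5 : ℤ) ^ e ∣ c i := by
  have h5 : ‖((5 : ℚ_[5]) ^ e)⁻¹‖ = 5 ^ e := by
    have := Padic.norm_p (p := 5)
    rw [norm_inv, norm_pow, show (5 : ℚ_[5]) = ((5 : ℕ) : ℚ_[5]) by simp, this]
    simp
  have := H (fun i => ((5 : ℚ_[5]) ^ e)⁻¹ * c i) (by
    simp only [map_mul, mul_assoc, ← Finset.mul_sum, map_intCast]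
    refine (nmul (by rw [nam, h5]) h).trans (le_of_eq ?_)
    rw [← mul_pow]; simp) i
  rw [norm_mul, h5] at this
  have h2 := (Padic.norm_int_le_pow_iff_dvd (p := 5) (c i) e).1 (by
    rw [zpow_neg, zpow_natCast, ← mul_one (_⁻¹), le_inv_mul_iff₀ (by positivity)]
    simpa using this)
  simpa using h2

theorem span_of_fixed (hF : FgS) (θ : Om 5) (g : ℚ_[5][X]) (hg : g.Monic) {n : ℕ} (hn : 0 < n)
    (hd : g.natDegree = n) (h0 : aeval θ g = 0) (y : Om 5) (hy : ∀ γ : Gl 5, γ θ = θ → γ y = y) :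
    ∃ c : Fin n → ℚ_[5], y = ∑ i, am (c i) * θ ^ (i : ℕ) := by
  have h1 : y ∈ adjoin ℚ_[5] {θ} := (hF ℚ_[5] (Om 5)).2.1 {θ} y fun γ h => hy γ (h θ rfl)
  rw [← mem_toSubalgebra, adjoin_simple_toSubalgebra_of_isAlgebraic (Algebra.IsAlgebraic.isAlgebraic θ),
    Algebra.adjoin_singleton_eq_range_aeval] at h1
  obtain ⟨f, rfl⟩ := h1
  have h2 : (f %ₘ g).natDegree < n :=
    hd ▸ natDegree_modByMonic_lt f hg (fun e => by rw [e, natDegree_one] at hd; omega)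
  refine ⟨fun i => (f %ₘ g).coeff i, ?_⟩
  have h3 : aeval θ (f %ₘ g) = aeval θ f := aeval_modByMonic_eq_self_of_root h0
  rw [AlgHom.toRingHom_eq_coe, RingHom.coe_coe, ← h3, aeval_eq_sum_range' h2, Finset.sum_range]
  simp only [Algebra.smul_def]

theorem five_pow {y Y : Om 5} {s ρ : ℝ} (hY : ‖Y‖ ≤ 1) (hs : s ≤ 1) (h : ‖y - Y‖ ≤ s)
    (h1 : 5⁻¹ * s ≤ ρ) (h2 : s ^ 5 ≤ ρ) : ‖y ^ 5 - Y ^ 5‖ ≤ ρ := by
  obtain ⟨t, rfl⟩ : ∃ t, y = Y + t := ⟨y - Y, by ring⟩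
  rw [add_sub_cancel_left] at h
  have e : (Y + t) ^ 5 - Y ^ 5 =
      5 * t * (Y ^ 4 + (Y ^ 3 * t + Y ^ 3 * t) + (Y ^ 2 * t ^ 2 + Y ^ 2 * t ^ 2) + Y * t ^ 3) +
        t ^ 5 := by ring
  have ht := h.trans hs
  have a1 := nmul1 (npow1 hY 3) ht
  have a2 := nmul1 (npow1 hY 2) (npow1 ht 2)
  rw [e]
  refine nadd ((nmul1 (nmul n5.le h) ?_).trans h1) ?_
  · exact nadd (nadd (nadd (npow1 hY 4) (nadd a1 a1)) (nadd a2 a2)) (nmul1 hY (npow1 ht 3))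
  · rw [norm_pow]
    exact (pow_le_pow_left₀ (norm_nonneg _) h 5).trans h2

/-- iterated product -/
def pw {V : Type} (mul : V → V → V) (one v : V) : ℕ → V
  | 0 => one
  | n + 1 => mul (pw mul one v n) v

/-- a model of the integers modulo the ball of radius `ρ` -/
structure Mdl {V : Type} (ev : V → Om 5) (mul : V → V → V) (one : V) (ρ : ℝ) : Prop where
  nn : 0 ≤ ρ
  lt : ρ < 1
  ev_le : ∀ v, ‖ev v‖ ≤ 1
  ev_mul : ∀ v w, ‖ev v * ev w - ev (mul v w)‖ ≤ ρ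
  ev_one : ev one = 1

section

variable {V : Type} {ev : V → Om 5} {mul : V → V → V} {one : V} {ρ : ℝ} (M : Mdl ev mul one ρ)
include M

theorem Mdl.self (v : V) : ‖ev v - ev v‖ ≤ ρ := by simpa using M.nn

theorem Mdl.le_one {x : Om 5} {v : V} (h : ‖x - ev v‖ ≤ ρ) : ‖x‖ ≤ 1 := by
  have := nadd (h.trans M.lt.le) (M.ev_le v)
  rwa [sub_add_cancel] at this

theorem Mdl.prod {x y : Om 5} {v w : V} (hx : ‖x - ev v‖ ≤ ρ) (hy : ‖y - ev w‖ ≤ ρ) :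
    ‖x * y - ev (mul v w)‖ ≤ ρ := by
  rw [show x * y - ev (mul v w) =
    (x - ev v) * y + (y - ev w) * ev v + (ev v * ev w - ev (mul v w)) by ring]
  exact nadd (nadd (nmul1 hx (M.le_one hy)) (nmul1 hy (M.ev_le v))) (M.ev_mul v w)

theorem Mdl.pow {x : Om 5} {v : V} (hx : ‖x - ev v‖ ≤ ρ) (n : ℕ) :
    ‖x ^ n - ev (pw mul one v n)‖ ≤ ρ := by
  induction n with
  | zero => simpa [pw, M.ev_one] using M.nn
  | succ n ih => rw [pow_succ]; exact M.prod ih hx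

theorem Mdl.unit {x : Om 5} {v : V} (hx : ‖x - ev v‖ ≤ ρ) (w : V) (h : mul v w = one) :
    ‖x‖ = 1 := by
  have h1 := M.prod hx (M.self w)
  rw [h, M.ev_one] at h1
  have h2 := one_of_near (h1.trans_lt M.lt)
  rw [norm_mul] at h2
  have h3 := M.le_one hx
  have h4 := M.ev_le w
  nlinarith [norm_nonneg x, norm_nonneg (ev w)]

omit M in
theorem cmp {x : Om 5} {v w : V} (hv : ‖x - ev v‖ ≤ ρ) (hw : ‖x - ev w‖ ≤ ρ) :
    ‖ev v - ev w‖ ≤ ρ := by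
  rw [show ev v - ev w = (x - ev w) - (x - ev v) by ring]
  exact nsub hw hv

end

theorem cast_md {R : Type} [CommRing R] (n N : ℕ) : ((n % N : ℕ) : R) = n - N * (n / N : ℕ) := by
  rw [eq_sub_iff_add_eq]
  exact_mod_cast congrArg (Nat.cast : ℕ → R) (Nat.mod_add_div n N)

end Pool.Agent.Lib.MP_54db3e_nt.TLce
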