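import Pool.Agent.Lib.MP_54db3e_nt.Stmt
import Pool.Agent.Lib.MP_54db3e_nt.H42S1

/-!
Linear algebra and the triangular decomposition for the step LOWER.
-/

open scoped Classical

noncomputable section

namespace Pool.Agent.Lib.MP_54db3e_nt.TLower

open Module

theorem emb {Q W A : Type} [Group Q] [Finite Q] (hQ : IsPGroup 5 Q) [AddCommGroup W]
    [Module F5 W] [AddCommGroup A] [Module F5 A] [FiniteDimensional F5 A]
    (σ : Representation F5 Q W) (lam : W →ₗ[F5] A)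
    (hlam : ∀ w, (∀ g, σ g w = w) → lam w = 0 → w = 0) :
    FiniteDimensional F5 W ∧ finrank F5 W ≤ Nat.card Q * finrank F5 A := by
  have := Fintype.ofFinite Q
  let ι : W →ₗ[F5] (Q → A) := LinearMap.pi fun g => lam ∘ₗ σ g
  have hι : ∀ h v, ι (σ h v) = H42.rt (k := F5) h (ι v) := fun h v => by
    funext g; simp [ι]
  have hinj : Function.Injective ι := by
    rw [← LinearMap.ker_eq_bot, Submodule.eq_bot_iff]
    intro v hv
    by_contra h0
    obtain ⟨u, hu, hu0, huf⟩ := H42.exists_fixed_mem hQ σ (LinearMap.ker ι) (fun g u hu => by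
      rw [LinearMap.mem_ker] at hu ⊢
      rw [hι, hu, map_zero]) hv h0
    refine hu0 (hlam u huf ?_)
    simpa [ι] using congrFun (LinearMap.mem_ker.1 hu) 1
  refine ⟨FiniteDimensional.of_injective ι hinj, ?_⟩
  have := LinearMap.finrank_le_finrank_of_injective hinj
  rw [Module.finrank_pi_fintype] at this
  simpa [Nat.card_eq_fintype_card] using this

theorem count {A B X Y : Type} [AddCommGroup A] [Module F5 A] [AddCommGroup B] [Module F5 B]
    [AddCommGroup X] [Module F5 X] [AddCommGroup Y] [Module F5 Y] [FiniteDimensional F5 X]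
    (V : Submodule F5 A) [FiniteDimensional F5 V] (res : A →ₗ[F5] B) (Φ : X →ₗ[F5] B)
    (δ : Y →ₗ[F5] A) (hδ : Function.Injective δ) (h1 : ∀ y, δ y ∈ V ∧ res (δ y) = 0)
    (h2 : ∀ x, ∃ c ∈ V, res c = Φ x) :
    finrank F5 X + finrank F5 Y ≤ finrank F5 (LinearMap.ker Φ) + finrank F5 V := by
  have e1 := LinearMap.finrank_range_add_finrank_ker (res.domRestrict V)
  have e2 := LinearMap.finrank_range_add_finrank_ker Φ
  have e3 : finrank F5 (LinearMap.range Φ) ≤ finrank F5 (LinearMap.range (res.domRestrict V)) :=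
    Submodule.finrank_mono (by
      rintro _ ⟨x, rfl⟩
      obtain ⟨c, hc, e⟩ := h2 x
      exact ⟨⟨c, hc⟩, e⟩)
  have e4 : finrank F5 Y ≤ finrank F5 (LinearMap.ker (res.domRestrict V)) :=
    LinearMap.finrank_le_finrank_of_injective
      (f := (δ.codRestrict V fun y => (h1 y).1).codRestrict _ fun y => (h1 y).2)
      fun y y' e => hδ (congrArg (fun v => (v.1 : A)) (congrArg Subtype.val e))
  omega

theorem cut {X : Type} [AddCommGroup X] [Module F5 X] [FiniteDimensional F5 X]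
    (W : Submodule F5 X) (e : X →ₗ[F5] F5 × F5) :
    finrank F5 W ≤ finrank F5 (W ⊓ LinearMap.ker e : Submodule F5 X) + 2 := by
  have e1 := Submodule.finrank_sup_add_finrank_inf_eq W (LinearMap.ker e)
  have e2 := LinearMap.finrank_range_add_finrank_ker e
  have e3 := Submodule.finrank_le (W ⊔ LinearMap.ker e)
  have e4 := Submodule.finrank_le (LinearMap.range e)
  rw [finrank_prod, finrank_self] at e4
  omega

theorem mc_pow {n : ℕ} {A B : M2} (h : MC n A B) : ∀ k : ℕ, MC n (A ^ k) (B ^ k)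
  | 0 => by simpa using MC.refl n 1
  | k + 1 => by rw [pow_succ, pow_succ]; exact (mc_pow h k).mul h

theorem unit_of {x : ℤ_[5]} (h : (5 : ℤ_[5]) ∣ x - 1) : IsUnit x := by
  refine (IsLocalRing.isUnit_or_isUnit_one_sub_self x).resolve_right fun hu => ?_
  have h5 : ¬ IsUnit (5 : ℤ_[5]) := by simpa using (PadicInt.prime_p (p := 5)).not_isUnit
  exact h5 (isUnit_of_dvd_unit (by simpa using h.neg_right) hu)

theorem toZMod_congr {x y : ℤ_[5]} (h : (5 : ℤ_[5]) ∣ x - y) :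
    PadicInt.toZMod x = PadicInt.toZMod y := by
  obtain ⟨w, hw⟩ := h
  rw [← sub_eq_zero, ← map_sub, hw, map_mul, map_ofNat]
  exact mul_eq_zero_of_left rfl _

theorem exists_nat (n : ℕ) {b : ℤ_[5]} (h : (5 : ℤ_[5]) ∣ b) :
    ∃ k : ℕ, (5 : ℤ_[5]) ^ n ∣ 5 * (k : ℤ_[5]) - b := by
  obtain ⟨w, rfl⟩ := h
  have := Ideal.mem_span_singleton.1 (PadicInt.appr_spec n w)
  refine ⟨w.appr n, ?_⟩
  rw [← mul_sub]
  exact Dvd.dvd.mul_left (by simpa using this.neg_right) _

theorem up_pow : ∀ k : ℕ, (!![1, 5; 0, 1] : M2) ^ k = !![1, 5 * (k : ℤ_[5]); 0, 1]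
  | 0 => by simp [Matrix.one_fin_two]
  | k + 1 => by
    rw [pow_succ, up_pow k]
    ext i j
    fin_cases i <;> fin_cases j <;> simp [mul_add, add_comm]

theorem lo_pow : ∀ k : ℕ, (!![1, 0; 5, 1] : M2) ^ k = !![1, 0; 5 * (k : ℤ_[5]), 1]
  | 0 => by simp [Matrix.one_fin_two]
  | k + 1 => by
    rw [pow_succ, lo_pow k]
    ext i j
    fin_cases i <;> fin_cases j <;> simp [mul_add]

variable {G : Type} [Group G] {ρ : G →* M2}

theorem lev_le_slev {n : ℕ} (hn : 1 ≤ n) : lev ρ n ≤ slev ρ n := fun _ hg =>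
  ⟨lev_anti ρ hn hg, by simpa using MC.det hg⟩

theorem mem_lev_of {n : ℕ} {x y : G} (h : MC n (ρ x) (ρ y)) : x * y⁻¹ ∈ lev ρ n := by
  have := h.mul (MC.refl n (ρ y⁻¹))
  rwa [rho_mul_inv, ← map_mul] at this

theorem slev_of {n n' : ℕ} (hn : 1 ≤ n) (hn' : n ≤ n') {x : G} {A : M2} (h : MC n' (ρ x) A)
    (h1 : MC 1 A 1) (h2 : A.det = 1) : x ∈ slev ρ n :=
  ⟨(h.mono (hn.trans hn')).trans h1, h2 ▸ (h.mono hn').det⟩

theorem add_one {B : Subgroup G} {κ : G → F5} (h : AddOn B κ) : κ 1 = 0 := by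
  have := h 1 B.one_mem 1 B.one_mem
  rw [mul_one] at this
  exact left_eq_add.1 this

theorem add_pow {B : Subgroup G} {κ : G → F5} (h : AddOn B κ) {x : G} (hx : x ∈ B)
    (h0 : κ x = 0) : ∀ k : ℕ, κ (x ^ k) = 0
  | 0 => by rw [pow_zero, add_one h]
  | k + 1 => by rw [pow_succ, h _ (B.pow_mem hx k) _ hx, add_pow h hx h0 k, h0, add_zero]

theorem add_conj {B : Subgroup G} {κ : G → F5} (h : AddOn B κ) {x y : G} (hx : x ∈ B)
    (hy : y ∈ B) : κ (y⁻¹ * x * y) = κ x := by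
  have := h _ (B.inv_mem hy) _ hy
  rw [inv_mul_cancel, add_one h] at this
  rw [h _ (B.mul_mem (B.inv_mem hy) hx) _ hy, h _ (B.inv_mem hy) _ hx]
  linear_combination -this

/-- An odd character of `S_n` that is trivial on a deeper level is determined by two values. -/
theorem ldu (hD : Dens ρ) {n n' : ℕ} (hn : 1 ≤ n) (hn' : n ≤ n') : ∃ u l : G, ∀ κ : G → F5,
    AddOn (slev ρ n) κ →
    (∀ a, MC n (ρ a) !![1, 0; 0, -1] → ∀ h ∈ slev ρ n, κ (a⁻¹ * h * a) = -κ h) →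
    (∀ h ∈ lev ρ n', κ h = 0) → κ u = 0 → κ l = 0 → ∀ h ∈ slev ρ n, κ h = 0 := by
  obtain ⟨u, hu⟩ := hD !![1, 5; 0, 1] (by simp) (by simp) (by simp) (by simp) n'
  obtain ⟨l, hl⟩ := hD !![1, 0; 5, 1] (by simp) (by simp) (by simp) (by simp) n'
  obtain ⟨a, ha⟩ := hD !![1, 0; 0, -1] (by simp) (by simp) (by simp) (by simp) n'
  have huS : u ∈ slev ρ n := slev_of hn hn' hu
    (fun i j => by fin_cases i <;> fin_cases j <;> simp) (by simp)
  have hlS : l ∈ slev ρ n := slev_of hn hn' hl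
    (fun i j => by fin_cases i <;> fin_cases j <;> simp) (by simp)
  have hS : lev ρ n' ≤ slev ρ n := (lev_anti ρ hn').trans (lev_le_slev hn)
  refine ⟨u, l, fun κ h1 h2 h3 h4 h5 g hg => ?_⟩
  have g00 : (5 : ℤ_[5]) ∣ ρ g 0 0 - 1 := by simpa using hg.1 0 0
  have g01 : (5 : ℤ_[5]) ∣ ρ g 0 1 := by simpa using hg.1 0 1
  have g10 : (5 : ℤ_[5]) ∣ ρ g 1 0 := by simpa using hg.1 1 0
  obtain ⟨β, hβ⟩ := (unit_of g00).exists_right_inv
  obtain ⟨k, hk⟩ := exists_nat n' (g01.mul_left β)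
  obtain ⟨m, hm⟩ := exists_nat n' (g10.mul_right β)
  have hdet := isUnit_det_rho ρ g
  rw [show (ρ g).det = ρ g 0 0 * (ρ g 1 1 - ρ g 1 0 * β * ρ g 0 1) by
    rw [Matrix.det_fin_two]; linear_combination (ρ g 1 0 * ρ g 0 1) * hβ] at hdet
  obtain ⟨d, hd⟩ := hD !![ρ g 0 0, 0; 0, ρ g 1 1 - ρ g 1 0 * β * ρ g 0 1] (by simp) (by simp)
    (by simpa using unit_of g00) (by simpa using isUnit_of_mul_isUnit_right hdet) n'
  have e1 : MC n' (ρ (u ^ k)) !![1, β * ρ g 0 1; 0, 1] := by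
    rw [map_pow]
    refine (up_pow k ▸ mc_pow hu k).trans fun i j => ?_
    fin_cases i <;> fin_cases j <;> simp [hk]
  have e2 : MC n' (ρ (l ^ m)) !![1, 0; ρ g 1 0 * β, 1] := by
    rw [map_pow]
    refine (lo_pow m ▸ mc_pow hl m).trans fun i j => ?_
    fin_cases i <;> fin_cases j <;> simp [hm]
  have e3 := (e2.mul hd).mul e1
  have e4 : (!![1, 0; ρ g 1 0 * β, 1] : M2) * !![ρ g 0 0, 0; 0, ρ g 1 1 - ρ g 1 0 * β * ρ g 0 1] *
      !![1, β * ρ g 0 1; 0, 1] = ρ g := by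
    ext i j
    fin_cases i <;> fin_cases j <;> simp
    · linear_combination ρ g 0 1 * hβ
    · linear_combination ρ g 1 0 * hβ
    · linear_combination ρ g 1 0 * β * ρ g 0 1 * hβ
  rw [e4, ← map_mul, ← map_mul] at e3
  have hw := mem_lev_of e3.symm
  have hlm := pow_mem hlS m
  have huk := pow_mem huS k
  have hdS : d ∈ slev ρ n := by
    have := mul_mem (mul_mem (mul_mem (inv_mem hlm) (inv_mem (hS hw))) hg) (inv_mem huk)
    convert this using 1
    group
  have hd0 : κ d = 0 := by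
    have e5 : MC n' (ρ (d * a)) (ρ (a * d)) := by
      rw [map_mul, map_mul]
      refine (hd.mul ha).trans (MC.trans ?_ (ha.mul hd).symm)
      intro i j
      fin_cases i <;> fin_cases j <;> simp
    have e6 := (lev_normal ρ n').conj_mem' _ (mem_lev_of e5) a
    have e7 := h1 _ (hS e6) _ hdS
    rw [h3 _ e6, show a⁻¹ * (d * a * (a * d)⁻¹) * a * d = a⁻¹ * d * a by group,
      h2 a (ha.mono hn') d hdS] at e7
    have h5' : (5 : F5) = 0 := rfl
    linear_combination (-3 : F5) * e7 - κ d * h5'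
  have e8 := h1 _ (hS hw) _ (mul_mem (mul_mem hlm hdS) huk)
  rw [inv_mul_cancel_right, h3 _ hw, h1 _ (mul_mem hlm hdS) _ huk, h1 _ hlm _ hdS, hd0,
    add_pow h1 huS h4, add_pow h1 hlS h5] at e8
  simpa using e8

end Pool.Agent.Lib.MP_54db3e_nt.TLower
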