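import Pool.Agent.Lib.MP_54db3e_nt.TLower1

/-!
The bound for the local odd cocycles in the step LOWER.
-/

open scoped Classical

noncomputable section

namespace Pool.Agent.Lib.MP_54db3e_nt.TLower

open Module

variable {G : Type} [Group G] {ρ : G →* M2}

theorem rb_mul (hC : ChS) {g h : G} (hg : g ∈ gam ρ) (hh : h ∈ gam ρ) :
    rb ρ (g * h) = rb ρ g * rb ρ h := by
  obtain ⟨h1, h2⟩ := (hC G ρ).1 g hg h hh
  simp only [rb, h1, h2]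
  ring

theorem rb_ne (hC : ChS) {g : G} (hg : g ∈ gam ρ) : rb ρ g ≠ 0 :=
  mul_ne_zero ((hC G ρ).2.1 g hg).1 (pow_ne_zero _ ((hC G ρ).2.1 g hg).2)

theorem rb_lev (hC : ChS) {g : G} (hg : g ∈ lev ρ 1) : rb ρ g = 1 := by
  obtain ⟨-, h1, h2⟩ := ((hC G ρ).2.2.1 g).1 hg
  simp [rb, h1, h2]

theorem four : ∀ i u : F5, i * i = -1 → u ≠ 0 → u = 1 ∨ u = i ∨ u = -1 ∨ u = -i := by decide

theorem four2 : ∀ i x y : F5, i * i = -1 →
    x = 1 * (3 * (x - i * y)) + 1 ^ 3 * (3 * (x + i * y)) ∧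
    y = i * (3 * (x - i * y)) + i ^ 3 * (3 * (x + i * y)) ∧
    -x = -1 * (3 * (x - i * y)) + (-1) ^ 3 * (3 * (x + i * y)) ∧
    -y = -i * (3 * (x - i * y)) + (-i) ^ 3 * (3 * (x + i * y)) := by decide

theorem four3 : ∀ x y : F5, x * y ^ 3 = 1 → y = x := by decide

theorem dec (hC : ChS) {n : ℕ} (hn : 1 ≤ n) {z₀ : G} {c : ℤ_[5]} (hc : c ^ 2 = -1)
    (hz : MC n (ρ z₀) (c • (1 : M2))) {w : G} (hw : w ∈ gam ρ) (h1 : rb ρ w = 1) :
    ∃ z ∈ zlev ρ n, z⁻¹ * w ∈ lev ρ 1 := by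
  obtain ⟨c1, c2, c3, -, c5, -⟩ := hC G ρ
  have hz0 : z₀ ∈ zlev ρ n := ⟨c, by linear_combination (c ^ 2 - 1) * hc, hz⟩
  have hg := zlev_le_gam ρ hn
  have hi : ph1 ρ z₀ * ph1 ρ z₀ = -1 := by
    have : ph1 ρ z₀ = PadicInt.toZMod c := toZMod_congr (by simpa using (hz.mono hn) 0 0)
    rw [this, ← map_mul, ← sq, hc, map_neg, map_one]
  obtain ⟨z, hz1, hz2⟩ : ∃ z ∈ zlev ρ n, ph1 ρ z = ph1 ρ w := by
    have e2 := (c1 _ (hg hz0) _ (hg hz0)).1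
    have e3 := (c1 _ (hg (mul_mem hz0 hz0)) _ (hg hz0)).1
    rcases four _ _ hi (c2 w hw).1 with h | h | h | h <;> rw [h]
    · exact ⟨1, one_mem _, ((c3 1).1 (one_mem _)).2.1⟩
    · exact ⟨z₀, hz0, rfl⟩
    · exact ⟨_, mul_mem hz0 hz0, e2.trans hi⟩
    · exact ⟨_, mul_mem (mul_mem hz0 hz0) hz0, by rw [e3, e2, hi, neg_one_mul]⟩
  have hp := mul_mem (inv_mem (hg hz1)) hw
  obtain ⟨e1, e2⟩ := c1 _ (hg hz1) _ hp
  rw [mul_inv_cancel_left] at e1 e2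
  rw [← (c5 n hn z hz1).1, four3 _ _ h1] at e2
  rw [hz2] at e1 e2
  exact ⟨z, hz1, (c3 _).2 ⟨hp, (mul_eq_left₀ (c2 w hw).1).1 e1.symm,
    (mul_eq_left₀ (c2 w hw).1).1 e2.symm⟩⟩

/-- odd cocycles that vanish on `U` -/
def VV (ρ : G →* M2) (D R U : Subgroup G) (a₁ : G) : Submodule F5 (G → G → F5) :=
  ZC ρ D R ⊓
    { carrier := {c | (∀ g a, c g (a * a₁) = -c g a) ∧ ∀ g ∈ U, ∀ a, c g a = 0}
      add_mem' := fun {c c'} h h' => ⟨fun g a => by simp only [Pi.add_apply, h.1, h'.1]; ring,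
        fun g hg a => by simp [h.2 g hg, h'.2 g hg]⟩
      zero_mem' := ⟨fun _ _ => by simp, fun _ _ _ => rfl⟩
      smul_mem' := fun s c h => ⟨fun g a => by simp [h.1], fun g hg a => by simp [h.2 g hg]⟩ }

theorem mem_VV {D R U : Subgroup G} {a₁ : G} {c : G → G → F5} : c ∈ VV ρ D R U a₁ ↔
    ((∀ g a, g ∉ D ∨ a ∉ gam ρ → c g a = 0) ∧
      (∀ g ∈ D, ∀ g' ∈ D, ∀ a ∈ gam ρ, c (g * g') a = c g (g' * a) + c g' a) ∧
      ∀ g a, ∀ z ∈ R, c g (a * z) = c g a) ∧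
    (∀ g a, c g (a * a₁) = -c g a) ∧ ∀ g ∈ U, ∀ a, c g a = 0 := Iff.rfl

/-- extension by zero -/
def cutL (ρ : G →* M2) (D : Subgroup G) : (G → G → F5) →ₗ[F5] (G → G → F5) where
  toFun c g a := if g ∈ D ∧ a ∈ gam ρ then c g a else 0
  map_add' c c' := by funext g a; simp only [Pi.add_apply]; split_ifs <;> simp
  map_smul' s c := by funext g a; simp

theorem cut_pos {D : Subgroup G} (c : G → G → F5) {g a : G} (hg : g ∈ D) (ha : a ∈ gam ρ) :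
    cutL ρ D c g a = c g a := if_pos ⟨hg, ha⟩

theorem cut_neg {D : Subgroup G} (c : G → G → F5) {g a : G} (h : ¬ (g ∈ D ∧ a ∈ gam ρ)) :
    cutL ρ D c g a = 0 := if_neg h

theorem cut_mem {D R U : Subgroup G} {a₁ : G} (hD : D ≤ gam ρ) (hR : R ≤ gam ρ)
    (ha₁ : a₁ ∈ gam ρ) (c : G → G → F5)
    (h1 : ∀ g ∈ D, ∀ g' ∈ D, ∀ a ∈ gam ρ, c (g * g') a = c g (g' * a) + c g' a)
    (h2 : ∀ g ∈ D, ∀ a ∈ gam ρ, ∀ z ∈ R, c g (a * z) = c g a)
    (h3 : ∀ g ∈ D, ∀ a ∈ gam ρ, c g (a * a₁) = -c g a)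
    (h4 : ∀ g ∈ D, g ∈ U → ∀ a ∈ gam ρ, c g a = 0) : cutL ρ D c ∈ VV ρ D R U a₁ := by
  refine mem_VV.2 ⟨⟨fun g a h => cut_neg c (not_and_or.2 h), fun g hg g' hg' a ha => ?_,
    fun g a z hz => ?_⟩, fun g a => ?_, fun g hg a => ?_⟩
  · rw [cut_pos c (mul_mem hg hg') ha, cut_pos c hg (mul_mem (hD hg') ha), cut_pos c hg' ha]
    exact h1 g hg g' hg' a ha
  · by_cases h : g ∈ D ∧ a ∈ gam ρ
    · rw [cut_pos c h.1 h.2, cut_pos c h.1 (mul_mem h.2 (hR hz)), h2 g h.1 a h.2 z hz]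
    · rw [cut_neg c h, cut_neg c (by rwa [mul_mem_cancel_right (hR hz)])]
  · by_cases h : g ∈ D ∧ a ∈ gam ρ
    · rw [cut_pos c h.1 h.2, cut_pos c h.1 (mul_mem h.2 ha₁), h3 g h.1 a h.2]
    · rw [cut_neg c h, cut_neg c (by rwa [mul_mem_cancel_right ha₁]), neg_zero]
  · by_cases h : g ∈ D ∧ a ∈ gam ρ
    · rw [cut_pos c h.1 h.2, h4 g h.1 hg a h.2]
    · exact cut_neg c h

theorem det_inv (g : G) : (ρ g⁻¹).det * (ρ g).det = 1 := by
  rw [← Matrix.det_mul, rho_inv_mul, Matrix.det_one]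

theorem rt_mem {n : ℕ} {D U : Subgroup G} {a₁ b : G} (hb : b ∈ lev ρ 1) {c : G → G → F5}
    (hc : c ∈ VV ρ D (slev ρ n ⊔ zlev ρ n) U a₁) :
    rt b c ∈ VV ρ D (slev ρ n ⊔ zlev ρ n) U a₁ := by
  obtain ⟨⟨h1, h2, h3⟩, h4, h5⟩ := mem_VV.1 hc
  have hb' := lev_le_gam ρ le_rfl hb
  refine mem_VV.2 ⟨⟨fun g a h => h1 g (a * b) (by rwa [mul_mem_cancel_right hb']),
    fun g hg g' hg' a ha => ?_, fun g a z hz => ?_⟩, fun g a => ?_, fun g hg a => h5 g hg _⟩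
  · exact (h2 g hg g' hg' (a * b) (mul_mem ha hb')).trans (by rw [← mul_assoc]; rfl)
  · have := h3 g (a * b) _ ((inferInstance : (slev ρ n ⊔ zlev ρ n).Normal).conj_mem' z hz b)
    rw [show a * b * (b⁻¹ * z * b) = a * z * b by group] at this
    exact this
  · have e : a₁⁻¹ * b⁻¹ * a₁ * b ∈ slev ρ n :=
      ⟨mul_mem ((lev_normal ρ 1).conj_mem' _ (inv_mem hb) a₁) hb, by
        simp only [map_mul, Matrix.det_mul]
        rw [mul_right_comm (ρ a₁⁻¹).det, det_inv, one_mul, det_inv, sub_self]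
        exact dvd_zero _⟩
    have := h3 g (a * b * a₁) _ (Subgroup.mem_sup_left e)
    rw [show a * b * a₁ * (a₁⁻¹ * b⁻¹ * a₁ * b) = a * a₁ * b by group, h4] at this
    exact this

theorem inv_span (hC : ChS) {O : Subgroup G → Prop} {D U : Subgroup G} (hD : D ≤ gam ρ)
    (hL : LSH ρ O D) (hU : O U) {n : ℕ}
    (hdec : ∀ w ∈ gam ρ, rb ρ w = 1 → ∃ z ∈ zlev ρ n, z⁻¹ * w ∈ lev ρ 1) {t : G} (ht : t ∈ gam ρ)
    (ht2 : rb ρ (t * t) = -1) : ∃ E : Fin 4 → G → G → F5,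
      ∀ c ∈ VV ρ D (slev ρ n ⊔ zlev ρ n) U (t * t), (∀ b ∈ lev ρ 1, rt b c = c) →
        c ∈ Submodule.span F5 (Set.range E) := by
  obtain ⟨A1, A2, hA⟩ := hL 1 (by norm_num)
  obtain ⟨B1, B2, hB⟩ := hL 3 (by norm_num)
  let E : Fin 4 → G → G → F5 := ![cutL ρ D fun g a => rb ρ a * A1 g,
    cutL ρ D fun g a => rb ρ a * A2 g, cutL ρ D fun g a => rb ρ a ^ 3 * B1 g,
    cutL ρ D fun g a => rb ρ a ^ 3 * B2 g]
  refine ⟨E, fun c hc hi => ?_⟩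
  obtain ⟨⟨h1, h2, h3⟩, h4, h5⟩ := mem_VV.1 hc
  have hii : rb ρ t * rb ρ t = -1 := (rb_mul hC ht ht).symm.trans ht2
  have r1 : rb ρ 1 = 1 := rb_lev hC (one_mem _)
  have K0 : ∀ g, ∀ a ∈ gam ρ, ∀ b ∈ gam ρ, rb ρ b = rb ρ a → c g b = c g a := by
    intro g a ha b hb e
    have hw := mul_mem (inv_mem ha) hb
    have e1 := rb_mul hC ha hw
    rw [mul_inv_cancel_left, e] at e1
    obtain ⟨z, hz, hp⟩ := hdec _ hw ((mul_eq_left₀ (rb_ne hC ha)).1 e1.symm)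
    have e2 : c g (a * z * (z⁻¹ * (a⁻¹ * b))) = c g (a * z) := congrFun (congrFun (hi _ hp) g) _
    rw [h3 g a z (Subgroup.mem_sup_right hz)] at e2
    rw [← e2]
    congr 1
    group
  obtain ⟨α, hα⟩ : ∃ α : G → F5, ∀ g, α g = 3 * (c g 1 - rb ρ t * c g t) := ⟨_, fun _ => rfl⟩
  obtain ⟨β, hβ⟩ : ∃ β : G → F5, ∀ g, β g = 3 * (c g 1 + rb ρ t * c g t) := ⟨_, fun _ => rfl⟩
  have K : ∀ g, ∀ a ∈ gam ρ, c g a = rb ρ a * α g + rb ρ a ^ 3 * β g := by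
    intro g a ha
    obtain ⟨f1, f2, f3, f4⟩ := four2 _ (c g 1) (c g t) hii
    have htt := mul_mem ht ht
    rw [hα, hβ]
    rcases four _ _ hii (rb_ne hC ha) with h | h | h | h <;> rw [h]
    · rw [K0 g 1 (one_mem _) a ha (h.trans r1.symm)]; exact f1
    · rw [K0 g t ht a ha h]; exact f2
    · rw [K0 g (1 * (t * t)) (mul_mem (one_mem _) htt) a ha (by rw [one_mul, h, ht2]), h4]
      exact f3
    · rw [K0 g (t * (t * t)) (mul_mem ht htt) a ha (by rw [rb_mul hC ht htt, h, ht2, mul_neg_one]),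
        h4]
      exact f4
  have h5' : (5 : F5) = 0 := rfl
  have C : ∀ g ∈ D, ∀ h ∈ D, α (g * h) = α g * rb ρ h ^ 1 + α h ∧
      β (g * h) = β g * rb ρ h ^ 3 + β h := by
    intro g hg h hh
    rw [hα (g * h), hβ (g * h), hα h, hβ h, h2 g hg h hh 1 (one_mem _), h2 g hg h hh t ht, mul_one,
      K g h (hD hh), K g (h * t) (mul_mem (hD hh) ht), rb_mul hC (hD hh) ht]
    constructor
    · linear_combination (-3 * rb ρ h * α g - 3 * rb ρ h ^ 3 * β g * (rb ρ t ^ 2 - 1)) * hii +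
        rb ρ h * α g * h5'
    · linear_combination (3 * rb ρ h * α g + 3 * rb ρ h ^ 3 * β g * (rb ρ t ^ 2 - 1)) * hii +
        rb ρ h ^ 3 * β g * h5'
  obtain ⟨s1, t1, e1⟩ := hA α (fun g hg h hh => (C g hg h hh).1)
    ⟨U, hU, fun g _ hg => by simp [hα, h5 g hg]⟩
  obtain ⟨s3, t3, e3⟩ := hB β (fun g hg h hh => (C g hg h hh).2)
    ⟨U, hU, fun g _ hg => by simp [hβ, h5 g hg]⟩
  have hE : ∀ k, E k ∈ Submodule.span F5 (Set.range E) := fun k => Submodule.subset_span ⟨k, rfl⟩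
  have e : c = s1 • E 0 + t1 • E 1 + s3 • E 2 + t3 • E 3 := by
    funext g a
    by_cases h : g ∈ D ∧ a ∈ gam ρ
    · simp [E, cut_pos _ h.1 h.2, K g a h.2, e1 g h.1, e3 g h.1]
      ring
    · simp [E, cut_neg _ h, h1 g a (not_and_or.1 h)]
  rw [e]
  exact add_mem (add_mem (add_mem (Submodule.smul_mem _ _ (hE 0)) (Submodule.smul_mem _ _ (hE 1)))
    (Submodule.smul_mem _ _ (hE 2))) (Submodule.smul_mem _ _ (hE 3))

theorem loc {n : ℕ} {D U : Subgroup G} {a₁ : G}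
    (hq : (slev ρ n).relIndex (lev ρ 1) = 5 ^ (n - 1)) {E : Fin 4 → G → G → F5}
    (hE : ∀ c ∈ VV ρ D (slev ρ n ⊔ zlev ρ n) U a₁, (∀ b ∈ lev ρ 1, rt b c = c) →
      c ∈ Submodule.span F5 (Set.range E)) :
    FiniteDimensional F5 (VV ρ D (slev ρ n ⊔ zlev ρ n) U a₁) ∧
      finrank F5 (VV ρ D (slev ρ n ⊔ zlev ρ n) U a₁) ≤ 5 ^ (n - 1) * 4 := by
  set V := VV ρ D (slev ρ n ⊔ zlev ρ n) U a₁
  set Sp := Submodule.span F5 (Set.range E)
  have : FiniteDimensional F5 Sp := FiniteDimensional.span_of_finite _ (Set.finite_range _)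
  have h4 : finrank F5 Sp ≤ 4 := le_trans (finrank_range_le_card (R := F5) E) (by simp)
  obtain ⟨lam, hlam⟩ := Sp.subtype.exists_leftInverse_of_injective Sp.ker_subtype
  let σ₀ : lev ρ 1 →* Module.End F5 V :=
    { toFun := fun b => (rt (b : G)).restrict fun _ hc => rt_mem b.2 hc
      map_one' := by ext c g a; simp [rt]
      map_mul' := fun b b' => by ext c g a; simp [rt, mul_assoc] }
  have hk : (slev ρ n).subgroupOf (lev ρ 1) ≤ σ₀.ker := fun b hb => by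
    ext c g a
    exact (mem_VV.1 c.2).1.2.2 g a b (Subgroup.mem_sup_left hb)
  have hc : Nat.card (lev ρ 1 ⧸ (slev ρ n).subgroupOf (lev ρ 1)) = 5 ^ (n - 1) := hq
  have : Finite (lev ρ 1 ⧸ (slev ρ n).subgroupOf (lev ρ 1)) :=
    Nat.finite_of_card_ne_zero (by rw [hc]; positivity)
  obtain ⟨h1, h2⟩ := emb (IsPGroup.of_card hc) (QuotientGroup.lift _ σ₀ hk) (lam ∘ₗ V.subtype)
    fun w hw h0 => by
      have hm := hE w w.2 fun b hb => congrArg Subtype.val (hw (QuotientGroup.mk ⟨b, hb⟩))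
      have := LinearMap.congr_fun hlam ⟨w, hm⟩
      rw [LinearMap.comp_apply, LinearMap.id_apply] at this
      have e : (⟨w, hm⟩ : Sp) = 0 := this.symm.trans h0
      have e' := congrArg Subtype.val e
      exact Subtype.ext e'
  rw [hc] at h2
  exact ⟨h1, h2.trans (Nat.mul_le_mul_left _ h4)⟩

end Pool.Agent.Lib.MP_54db3e_nt.TLower
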