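import Pool.Agent.Lib.MP_54db3e_nt.StmtF
import Pool.Agent.Lib.MP_54db3e_nt.H84NFG

open scoped Classical

noncomputable section

namespace Pool.Agent.Lib.MP_54db3e_nt

namespace TNfg

variable (p : ℕ) [hp : Fact p.Prime]

/-- `ℚ_p / ℤ_p` -/
abbrev QpZp := ℚ_[p] ⧸ (1 : Submodule ℤ_[p] ℚ_[p])

/-- `ℚ_p / ℤ_p` is divisible. -/
@[reducible] def divQ : DivisibleBy (QpZp p) ℤ :=
  divisibleByOfSMulRightSurj (QpZp p) ℤ fun {n} hn b => by
    obtain ⟨q, rfl⟩ := Submodule.Quotient.mk_surjective _ b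
    have hn' : (n : ℚ_[p]) ≠ 0 := by exact_mod_cast hn
    refine ⟨Submodule.Quotient.mk (q / n), ?_⟩
    change n • (1 : Submodule ℤ_[p] ℚ_[p]).mkQ (q / n) = (1 : Submodule ℤ_[p] ℚ_[p]).mkQ q
    rw [← map_zsmul, zsmul_eq_mul, mul_div_cancel₀ _ hn']

theorem p_ne : (p : ℚ_[p]) ≠ 0 := by exact_mod_cast hp.out.ne_zero

theorem inv_ne : (1 : Submodule ℤ_[p] ℚ_[p]).mkQ (p : ℚ_[p])⁻¹ ≠ 0 := by
  intro h
  rw [Submodule.mkQ_apply, Submodule.Quotient.mk_eq_zero, Submodule.mem_one] at h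
  obtain ⟨z, hz⟩ := h
  have h1 : ‖(z : ℚ_[p])‖ ≤ 1 := z.2
  have h2 : (z : ℚ_[p]) = (p : ℚ_[p])⁻¹ := hz
  rw [h2, norm_inv, Padic.norm_p, inv_inv] at h1
  have h3 : (1 : ℝ) < p := by exact_mod_cast hp.out.one_lt
  linarith

theorem p_smul_inv : (p : ℤ) • (1 : Submodule ℤ_[p] ℚ_[p]).mkQ (p : ℚ_[p])⁻¹ = 0 := by
  rw [← map_zsmul, zsmul_eq_mul, Int.cast_natCast, mul_inv_cancel₀ (p_ne p), Submodule.mkQ_apply,
    Submodule.Quotient.mk_eq_zero, Submodule.mem_one]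
  exact ⟨1, map_one _⟩

theorem tors_finite : {b : QpZp p | (p : ℤ) • b = 0}.Finite := by
  refine ((Set.finite_lt_nat p).image
    fun k : ℕ => (1 : Submodule ℤ_[p] ℚ_[p]).mkQ ((k : ℚ_[p]) / p)).subset ?_
  intro b hb
  obtain ⟨q, rfl⟩ := Submodule.mkQ_surjective _ b
  have hb' : (p : ℤ) • (1 : Submodule ℤ_[p] ℚ_[p]).mkQ q = 0 := hb
  rw [← map_zsmul, zsmul_eq_mul, Int.cast_natCast, Submodule.mkQ_apply,
    Submodule.Quotient.mk_eq_zero, Submodule.mem_one] at hb'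
  obtain ⟨z, hz⟩ := hb'
  have hz' : (z : ℚ_[p]) = p * q := hz
  have h1 := PadicInt.sub_zmodRepr_mem z
  rw [PadicInt.maximalIdeal_eq_span_p, Ideal.mem_span_singleton] at h1
  obtain ⟨w, hw⟩ := h1
  refine ⟨z.zmodRepr, PadicInt.zmodRepr_lt_p z, ?_⟩
  have h2 : (z : ℚ_[p]) - (z.zmodRepr : ℚ_[p]) = p * (w : ℚ_[p]) := by
    have := congrArg (fun t : ℤ_[p] => (t : ℚ_[p])) hw
    simpa using this
  refine ((Submodule.Quotient.eq _).2 ?_).symm
  rw [Submodule.mem_one]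
  refine ⟨w, ?_⟩
  change (w : ℚ_[p]) = _
  have h3 := p_ne p
  field_simp
  linear_combination hz' - h2

end TNfg

open TNfg in
theorem nfgS : NfgS := by
  intro p hp G _ _ S _ _ hS U hfin hinf _ hM
  have hM : Module.Finite (Lam p G) ((S →+ QpZp p) ⧸ pPrimary p (Lam p G) (S →+ QpZp p)) := hM
  let _ := TNfg.divQ p
  obtain ⟨r, v, hv⟩ := Module.Finite.exists_fin (R := Lam p G)
    (M := (S →+ QpZp p) ⧸ pPrimary p (Lam p G) (S →+ QpZp p))
  choose x hx using fun i => Submodule.mkQ_surjective (pPrimary p (Lam p G) (S →+ QpZp p)) (v i)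
  let T : AddSubgroup S :=
    { carrier := {s : S | p • s = 0 ∧ (∀ g ∈ U.toSubgroup, g • s = s) ∧
        ∀ k : ℕ, ∃ t, p ^ k • t = s}
      add_mem' := fun {a b} ha hb => ⟨by rw [smul_add, ha.1, hb.1, add_zero],
        fun g hg => by rw [smul_add, ha.2.1 g hg, hb.2.1 g hg], fun k => by
          obtain ⟨t, ht⟩ := ha.2.2 k
          obtain ⟨u, hu⟩ := hb.2.2 k
          exact ⟨t + u, by rw [smul_add, ht, hu]⟩⟩
      zero_mem' := ⟨smul_zero _, fun g _ => smul_zero g, fun k => ⟨0, smul_zero _⟩⟩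
      neg_mem' := fun {a} ha => ⟨by rw [smul_neg, ha.1, neg_zero],
        fun g hg => by rw [smul_neg, ha.2.1 g hg], fun k => by
          obtain ⟨t, ht⟩ := ha.2.2 k
          exact ⟨-t, by rw [smul_neg, ht]⟩⟩ }
  refine hinf (H84.nfg (J := Fin r × (G ⧸ U.toSubgroup)) hp.out (TNfg.inv_ne p)
    (TNfg.p_smul_inv p) (TNfg.tors_finite p) T ?_ ?_
    (fun j => (x j.1).comp (DistribSMul.toAddMonoidHom S (Quotient.out j.2 : G)⁻¹)) ?_)
  · intro s hs
    rw [natCast_zsmul]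
    exact hs.1
  · intro s hs k
    obtain ⟨t, ht⟩ := hs.2.2 k
    exact ⟨t, by rw [← Nat.cast_pow, natCast_zsmul, ht]⟩
  · intro z
    let z' : S →+ QpZp p := z
    have hz : (pPrimary p (Lam p G) (S →+ QpZp p)).mkQ z' ∈ Submodule.span (Lam p G) (Set.range v) := by
      rw [hv]; trivial
    obtain ⟨c, hc⟩ := (Submodule.mem_span_range_iff_exists_fun _).1 hz
    have hy : z' - ∑ i, c i • x i ∈ pPrimary p (Lam p G) (S →+ QpZp p) := by
      rw [← Submodule.Quotient.eq, ← Submodule.mkQ_apply, ← Submodule.mkQ_apply, map_sum, ← hc]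
      simp only [map_smul, hx]
    obtain ⟨k, hk⟩ := hy
    refine ⟨(∑ i, c i • x i : S →+ QpZp p), k, ?_, fun s hs hg => ?_⟩
    · rw [← Nat.cast_pow, natCast_zsmul]
      exact hk
    · have h1 : (∑ i, c i • x i : S →+ QpZp p) s = ∑ i, (c i • x i : S →+ QpZp p) s :=
        AddMonoidHom.finsetSum_apply (fun i => (c i • x i : S →+ QpZp p)) Finset.univ s
      rw [h1]
      refine Finset.sum_eq_zero fun i _ => (evalDual_eq (c i) (x i) U hs.2.1).trans ?_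
      refine Finset.sum_eq_zero fun h _ => ?_
      have h2 : x i ((Quotient.out h : G)⁻¹ • s) = 0 := hg (i, h)
      simp only [h2, smul_zero]

end Pool.Agent.Lib.MP_54db3e_nt
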