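import Pool.Agent.Lib.MP_54db3e_nt.Stmt

/-! Points of the curve in coordinates, the valuation ring of a normed field, homogeneity. -/

open scoped Classical

noncomputable section

namespace Pool.Agent.Lib.MP_54db3e_nt.TRed

open WeierstrassCurve

section Points

variable {k : Type} [Field k] [Algebra ℚ k]

theorem a1 : (E0.toAffine.baseChange k).a₁ = 0 := by simp [E0, E0Z]
theorem a2 : (E0.toAffine.baseChange k).a₂ = 0 := by simp [E0, E0Z]
theorem a3 : (E0.toAffine.baseChange k).a₃ = 1 := by simp [E0, E0Z]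
theorem a4 : (E0.toAffine.baseChange k).a₄ = 8175274 := by simp [E0, E0Z]
theorem a6 : (E0.toAffine.baseChange k).a₆ = 50242716927 := by simp [E0, E0Z]

theorem eqn_iff (x y : k) : (E0.toAffine.baseChange k).Equation x y ↔
    y ^ 2 + y = x ^ 3 + 8175274 * x + 50242716927 := by
  rw [Affine.equation_iff, a1, a2, a3, a4, a6]
  constructor <;> intro h <;> linear_combination h

theorem eqn {P : Pt E0 k} (hP : P ≠ 0) :
    yc P ^ 2 + yc P = xc P ^ 3 + 8175274 * xc P + 50242716927 := by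
  rcases P with _ | ⟨x, y, h⟩
  · exact absurd rfl hP
  · exact (eqn_iff x y).1 h.1

theorem disc_ne : (E0.toAffine.baseChange k).Δ ≠ 0 := by
  have : CharZero k := algebraRat.charZero k
  simp only [WeierstrassCurve.Δ, WeierstrassCurve.b₂, WeierstrassCurve.b₄, WeierstrassCurve.b₆,
    WeierstrassCurve.b₈, a1, a2, a3, a4, a6]
  norm_num

theorem exists_pt {x y : k} (h : y ^ 2 + y = x ^ 3 + 8175274 * x + 50242716927) :
    ∃ P : Pt E0 k, P ≠ 0 ∧ xc P = x :=
  ⟨.some x y ((Affine.equation_iff_nonsingular_of_Δ_ne_zero disc_ne).1 ((eqn_iff x y).2 h)),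
    Affine.Point.some_ne_zero _, rfl⟩

theorem eq_or_neg {P Q : Pt E0 k} (hP : P ≠ 0) (hQ : Q ≠ 0) (h : xc P = xc Q) :
    P = Q ∨ P = -Q := by
  rcases P with _ | ⟨x, y, h₁⟩
  · exact absurd rfl hP
  rcases Q with _ | ⟨x', y', h₂⟩
  · exact absurd rfl hQ
  exact Affine.Point.X_eq_iff.1 h

theorem xc_pmap {k' : Type} [Field k'] [Algebra ℚ k'] (f : k →+* k') (P : Pt E0 k) :
    xc (pmap E0 f P) = f (xc P) := by
  rcases P with _ | ⟨x, y, h⟩
  · exact (map_zero f).symm
  · rfl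

theorem pmap_inj {k' : Type} [Field k'] [Algebra ℚ k'] (f : k →+* k') :
    Function.Injective (pmap E0 f) := Affine.Point.map_injective _

/-- The difference of two distinct points through a slope. -/
theorem sub_slope {P Q : Pt E0 k} (hP : P ≠ 0) (hQ : Q ≠ 0) (h : P ≠ Q) :
    ∃ L : k, xc (P - Q) = L ^ 2 - xc P - xc Q ∧ L * (xc P - xc Q) = yc P + yc Q + 1 ∧
      L * (yc P - yc Q) = xc P ^ 2 + xc P * xc Q + xc Q ^ 2 + 8175274 := by
  have e1 := eqn hP
  have e2 := eqn hQ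
  rcases P with _ | ⟨x₁, y₁, h₁⟩
  · exact absurd rfl hP
  rcases Q with _ | ⟨x₂, y₂, h₂⟩
  · exact absurd rfl hQ
  simp only [xc, yc] at e1 e2
  have hxy : ¬(x₁ = x₂ ∧ y₁ = (E0.toAffine.baseChange k).negY x₂
      ((E0.toAffine.baseChange k).negY x₂ y₂)) := by
    rw [Affine.negY_negY]
    rintro ⟨rfl, rfl⟩
    exact h rfl
  have hn : ∀ x y : k, (E0.toAffine.baseChange k).negY x y = -y - 1 := fun x y => by
    rw [Affine.negY, a1, a3]; ring
  rw [sub_eq_add_neg, Affine.Point.neg_some, Affine.Point.add_some hxy]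
  refine ⟨(E0.toAffine.baseChange k).slope x₁ x₂ y₁ ((E0.toAffine.baseChange k).negY x₂ y₂),
    ?_, ?_⟩
  · simp only [xc, Affine.addX, a1, a2]
    ring
  simp only [xc, yc]
  by_cases hx : x₁ = x₂
  · have hy : y₁ ≠ (E0.toAffine.baseChange k).negY x₂ ((E0.toAffine.baseChange k).negY x₂ y₂) :=
      fun hy => hxy ⟨hx, hy⟩
    rw [Affine.slope_of_Y_ne hx hy, a1, a2, a4, hn]
    rw [Affine.negY_negY] at hy
    subst hx
    have h3 : y₁ + y₂ + 1 = 0 := by
      refine (mul_eq_zero.1 (?_ : (y₁ - y₂) * (y₁ + y₂ + 1) = 0)).resolve_left (sub_ne_zero.2 hy)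
      linear_combination e1 - e2
    have h4 : y₁ - (-y₁ - 1) = y₁ - y₂ := by linear_combination h3
    rw [h4, div_mul_cancel₀ _ (sub_ne_zero.2 hy), sub_self, mul_zero, h3]
    exact ⟨rfl, by ring⟩
  · rw [Affine.slope_of_X_ne hx, hn]
    have h3 := sub_ne_zero.2 hx
    constructor
    · rw [div_mul_cancel₀ _ h3]; ring
    · rw [div_mul_eq_mul_div, div_eq_iff h3]
      linear_combination e1 - e2

end Points

section Hom

variable {R S : Type} [CommRing R] [CommRing S]

theorem map_psi5 (f : R →+* S) (A b x : R) : f (psi5 A b x) = psi5 (f A) (f b) (f x) := by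
  simp only [psi5, dS, dF, dT, map_sub, map_add, map_mul, map_pow, map_ofNat]

theorem map_phi5 (f : R →+* S) (A b x : R) : f (phi5 A b x) = phi5 (f A) (f b) (f x) := by
  simp only [phi5, psi5, dS, dF, dT, map_sub, map_add, map_mul, map_pow, map_ofNat]

theorem dF_hom (A b x c : R) : dF (c ^ 2 * A) (c ^ 3 * b) (c * x) = c ^ 3 * dF A b x := by
  simp only [dF]; ring

theorem dT_hom (A b x c : R) : dT (c ^ 2 * A) (c ^ 3 * b) (c * x) = c ^ 4 * dT A b x := by
  simp only [dT]; ring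

theorem dS_hom (A b x c : R) : dS (c ^ 2 * A) (c ^ 3 * b) (c * x) = c ^ 6 * dS A b x := by
  simp only [dS]; ring

theorem psi5_hom (A b x c : R) : psi5 (c ^ 2 * A) (c ^ 3 * b) (c * x) = c ^ 12 * psi5 A b x := by
  simp only [psi5, dF_hom, dT_hom, dS_hom]; ring

theorem phi5_hom (A b x c : R) : phi5 (c ^ 2 * A) (c ^ 3 * b) (c * x) = c ^ 25 * phi5 A b x := by
  simp only [phi5, psi5_hom, dF_hom, dT_hom, dS_hom]; ring

theorem psi5_top : psi5 (0 : R) 0 1 = 5 := by
  simp only [psi5, dS, dF, dT]; ring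

theorem phi5_top : phi5 (0 : R) 0 1 = 1 := by
  simp only [phi5, psi5, dS, dF, dT]; ring

end Hom

section Norm

variable {K : Type} [NormedField K] [IsUltrametricDist K]

/-- The valuation ring. -/
def OK (K : Type) [NormedField K] [IsUltrametricDist K] : Subring K where
  carrier := {x | ‖x‖ ≤ 1}
  mul_mem' ha hb := by
    rw [Set.mem_ofPred_eq, norm_mul]
    exact mul_le_one₀ ha (norm_nonneg _) hb
  one_mem' := norm_one.le
  add_mem' ha hb := (IsUltrametricDist.norm_add_le_max _ _).trans (max_le ha hb)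
  zero_mem' := norm_zero.le.trans zero_le_one
  neg_mem' ha := (norm_neg _).le.trans ha

/-- Its maximal ideal. -/
def MK (K : Type) [NormedField K] [IsUltrametricDist K] : Ideal (OK K) where
  carrier := {x | ‖(x : K)‖ < 1}
  add_mem' ha hb := (IsUltrametricDist.norm_add_le_max _ _).trans_lt (max_lt ha hb)
  zero_mem' := norm_zero.le.trans_lt zero_lt_one
  smul_mem' c x hx := by
    show ‖(c : K) * x‖ < 1
    rw [norm_mul]
    exact mul_lt_one_of_nonneg_of_lt_one_right c.2 (norm_nonneg _) hx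

theorem nadd {a b : K} (h : ‖b‖ < ‖a‖) : ‖a + b‖ = ‖a‖ := by
  rw [IsUltrametricDist.norm_add_eq_max_of_norm_ne_norm h.ne', max_eq_left h.le]

/-- The second coordinate is integral when the first one is. -/
theorem y_int {X Y a A B : K} (ha : ‖a‖ ≤ 1) (hA : ‖A‖ ≤ 1) (hB : ‖B‖ ≤ 1) (hX : ‖X‖ ≤ 1)
    (h : Y ^ 2 + a * Y = X ^ 3 + A * X + B) : ‖Y‖ ≤ 1 := by
  by_contra hY
  rw [not_le] at hY
  have h1 : X ^ 3 + A * X + B ∈ OK K :=
    add_mem (add_mem (pow_mem (show X ∈ OK K from hX) 3) (mul_mem hA hX)) hB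
  have h2 : ‖Y ^ 2 + a * Y‖ = ‖Y‖ * ‖Y‖ := by
    rw [show Y ^ 2 + a * Y = Y * (Y + a) by ring, norm_mul, nadd (ha.trans_lt hY)]
  have h3 : ‖Y ^ 2 + a * Y‖ ≤ 1 := h ▸ h1
  nlinarith

omit [IsUltrametricDist K] in
/-- The scaled equation. -/
theorem scaled {x y u s : K} (hu : u ≠ 0)
    (h : y ^ 2 + y = x ^ 3 + 8175274 * x + 50242716927) :
    ((y - s) / u ^ 3) ^ 2 + (2 * s + 1) / u ^ 3 * ((y - s) / u ^ 3) =
      (x / u ^ 2) ^ 3 + 8175274 / u ^ 4 * (x / u ^ 2) + (50242716927 - s ^ 2 - s) / u ^ 6 := by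
  field_simp
  linear_combination h

end Norm

end Pool.Agent.Lib.MP_54db3e_nt.TRed
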