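import Pool.Agent.Lib.MP_54db3e_nt.Stmt
import Pool.Agent.Lib.MP_54db3e_nt.H42S1
import Pool.Agent.Lib.MP_54db3e_nt.H42Ext

/-!
Weight decomposition of invariant cocycles and the assembly of step STAR over an abstract
group with a distinguished family of subgroups.
-/

open scoped Classical

namespace Pool.Agent.Lib.MP_54db3e_nt.TStar

open Module H42

section Weights

variable {Γ : Type*} [Group Γ] (rb : Γ →* (ZMod 5)ˣ) (s : (ZMod 5)ˣ → Γ)

/-- The component of weight `j` of a function of `a` that depends only on `rb a`;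
`s` is a section of `rb`. -/
noncomputable def wt (j : ℕ) (f : Γ → ZMod 5) : ZMod 5 :=
  -∑ t : (ZMod 5)ˣ, ((t⁻¹ : (ZMod 5)ˣ) : ZMod 5) ^ j * f (s t)

theorem orth (t u : (ZMod 5)ˣ) :
    ∑ j : Fin 4, ((t⁻¹ : (ZMod 5)ˣ) : ZMod 5) ^ (j : ℕ) * (u : ZMod 5) ^ (j : ℕ) =
      if t = u then -1 else 0 := by
  revert t u
  decide

theorem sum_inv_pow (j : ℕ) (hj : j < 4) :
    ∑ t : (ZMod 5)ˣ, ((t⁻¹ : (ZMod 5)ˣ) : ZMod 5) ^ j = if j = 0 then -1 else 0 := by
  interval_cases j <;> decide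

variable {rb s}

/-- Fourier inversion. -/
theorem sum_wt (hs : ∀ t, rb (s t) = t) {f : Γ → ZMod 5} (hf : ∀ a b, rb a = rb b → f a = f b)
    (a : Γ) : f a = ∑ j : Fin 4, wt s j f * (rb a : ZMod 5) ^ (j : ℕ) := by
  simp only [wt, neg_mul, Finset.sum_mul, Finset.sum_neg_distrib]
  rw [Finset.sum_comm]
  have : ∀ t : (ZMod 5)ˣ, ∑ j : Fin 4, ((t⁻¹ : (ZMod 5)ˣ) : ZMod 5) ^ (j : ℕ) * f (s t) *
      (rb a : ZMod 5) ^ (j : ℕ) = if t = rb a then -f (s t) else 0 := fun t => by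
    have h := orth t (rb a)
    calc _ = (∑ j : Fin 4, ((t⁻¹ : (ZMod 5)ˣ) : ZMod 5) ^ (j : ℕ) *
          (rb a : ZMod 5) ^ (j : ℕ)) * f (s t) := by
          rw [Finset.sum_mul]; exact Finset.sum_congr rfl fun j _ => by ring
      _ = _ := by rw [h]; split_ifs <;> simp
  simp only [this, Finset.sum_ite_eq', Finset.mem_univ, if_true, neg_neg]
  exact hf _ _ (hs _).symm

theorem wt_translate (hs : ∀ t, rb (s t) = t) {f : Γ → ZMod 5}
    (hf : ∀ a b, rb a = rb b → f a = f b) (j : ℕ) (g : Γ) :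
    wt s j (fun a => f (g * a)) = wt s j f * (rb g : ZMod 5) ^ j := by
  simp only [wt, neg_mul, Finset.sum_mul]
  congr 1
  refine Fintype.sum_equiv (Equiv.mulLeft (rb g)) _ _ fun t => ?_
  rw [Equiv.coe_mulLeft, hf (s (rb g * t)) (g * s t) (by rw [map_mul, hs, hs]), mul_inv_rev,
    Units.val_mul, mul_pow]
  have : (((rb g)⁻¹ : (ZMod 5)ˣ) : ZMod 5) ^ j * (rb g : ZMod 5) ^ j = 1 := by
    rw [← mul_pow, Units.inv_mul, one_pow]
  linear_combination (-(((t⁻¹ : (ZMod 5)ˣ) : ZMod 5) ^ j * f (g * s t))) * this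

/-- The weight components of a cocycle are twisted cocycles. -/
theorem wt_cocycle (hs : ∀ t, rb (s t) = t) {c : Γ → Γ → ZMod 5} {g g' : Γ}
    (hf : ∀ a b, rb a = rb b → c g a = c g b)
    (hc : ∀ a, c (g * g') a = c g (g' * a) + c g' a) (j : ℕ) :
    wt s j (c (g * g')) = wt s j (c g) * (rb g' : ZMod 5) ^ j + wt s j (c g') := by
  rw [← wt_translate hs hf]
  simp only [wt, hc, mul_add, Finset.sum_add_distrib, neg_add]

/-- If the even components vanish the function is odd. -/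
theorem odd_of_wt (hs : ∀ t, rb (s t) = t) {f : Γ → ZMod 5}
    (hf : ∀ a b, rb a = rb b → f a = f b) (h0 : wt s 0 f = 0) (h2 : wt s 2 f = 0) {a1 : Γ}
    (h1 : rb a1 = -1) (a : Γ) : f (a * a1) = -f a := by
  rw [sum_wt hs hf (a * a1), sum_wt hs hf a, map_mul, h1]
  simp only [Fin.sum_univ_four, Fin.val_zero, Fin.val_one, Fin.val_two,
    show ((3 : Fin 4) : ℕ) = 3 from rfl, h0, h2, mul_neg, mul_one, Units.val_neg]
  ring

end Weights

/-- A family of subgroups containing the whole group and closed under intersection. -/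
class Fam (Γ : Type*) [Group Γ] where
  O : Subgroup Γ → Prop
  top : O ⊤
  inf : ∀ U V, O U → O V → O (U ⊓ V)

variable {Γ : Type*} [Group Γ] [Fam Γ]

/-- Continuous cocycles on `B` with values in functions on `Γ` invariant under `Z`. -/
def coc (B Z : Subgroup Γ) : Submodule (ZMod 5) (B → Γ → ZMod 5) where
  carrier := {c | (∀ g g' a, c (g * g') a = c g (g' * a) + c g' a) ∧
    (∀ g a, ∀ z ∈ Z, c g (a * z) = c g a) ∧
    ∃ U : Subgroup Γ, Fam.O U ∧ ∀ u : B, (u : Γ) ∈ U → ∀ a, c u a = 0}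
  zero_mem' := ⟨fun _ _ _ => (add_zero _).symm, fun _ _ _ _ => rfl, ⊤, Fam.top, fun _ _ _ => rfl⟩
  add_mem' := by
    rintro c c' ⟨h1, h2, U, hU, h3⟩ ⟨h1', h2', U', hU', h3'⟩
    refine ⟨fun g g' a => ?_, fun g a z hz => ?_, U ⊓ U', Fam.inf _ _ hU hU', fun u hu a => ?_⟩
    · simp only [Pi.add_apply, h1, h1']; ring
    · simp only [Pi.add_apply, h2 g a z hz, h2' g a z hz]
    · simp only [Pi.add_apply, h3 u hu.1 a, h3' u hu.2 a, add_zero]
  smul_mem' := by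
    rintro r c ⟨h1, h2, U, hU, h3⟩
    refine ⟨fun g g' a => ?_, fun g a z hz => ?_, U, hU, fun u hu a => ?_⟩
    · simp only [Pi.smul_apply, h1, smul_add]
    · simp only [Pi.smul_apply, h2 g a z hz]
    · simp only [Pi.smul_apply, h3 u hu a, smul_zero]

/-- Continuous twisted cocycles of weight `j` on `B`. -/
def wcoc (B : Subgroup Γ) (rb : Γ →* (ZMod 5)ˣ) (j : ℕ) : Submodule (ZMod 5) (B → ZMod 5) where
  carrier := {c | (∀ g g', c (g * g') = c g * (rb g' : ZMod 5) ^ j + c g') ∧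
    ∃ U : Subgroup Γ, Fam.O U ∧ ∀ u : B, (u : Γ) ∈ U → c u = 0}
  zero_mem' := ⟨fun _ _ => by simp, ⊤, Fam.top, fun _ _ => rfl⟩
  add_mem' := by
    rintro c c' ⟨h1, U, hU, h3⟩ ⟨h1', U', hU', h3'⟩
    refine ⟨fun g g' => ?_, U ⊓ U', Fam.inf _ _ hU hU', fun u hu => ?_⟩
    · simp only [Pi.add_apply, h1, h1']; ring
    · simp only [Pi.add_apply, h3 u hu.1, h3' u hu.2, add_zero]
  smul_mem' := by
    rintro r c ⟨h1, U, hU, h3⟩
    refine ⟨fun g g' => ?_, U, hU, fun u hu => ?_⟩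
    · simp only [Pi.smul_apply, h1, smul_eq_mul]; ring
    · simp only [Pi.smul_apply, h3 u hu, smul_zero]

/-- Right translation on cocycles. -/
def cocRep (B Z : Subgroup Γ) [Z.Normal] : Representation (ZMod 5) Γ (coc B Z) where
  toFun p :=
    { toFun := fun c => ⟨fun g a => c.1 g (a * p), by
        obtain ⟨h1, h2, U, hU, h3⟩ := c.2
        refine ⟨fun g g' a => by simp only [h1, mul_assoc], fun g a z hz => ?_, U, hU,
          fun u hu a => h3 u hu _⟩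
        refine Eq.trans (congrArg (c.1 g) ?_)
          (h2 g (a * p) (p⁻¹ * z * p) (Subgroup.Normal.conj_mem' inferInstance z hz p))
        group⟩
      map_add' := fun _ _ => rfl
      map_smul' := fun _ _ => rfl }
  map_one' := by ext c g a; simp
  map_mul' p p' := by ext c g a; simp [mul_assoc]

@[simp] theorem cocRep_apply (B Z : Subgroup Γ) [Z.Normal] (p : Γ) (c : coc B Z) (g : B) (a : Γ) :
    (cocRep B Z p c).1 g a = c.1 g (a * p) := rfl

/-- The weight components of a `P`-invariant cocycle. -/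
noncomputable def wtMap (B : Subgroup Γ) (s : (ZMod 5)ˣ → Γ) (j : ℕ) :
    (B → Γ → ZMod 5) →ₗ[ZMod 5] (B → ZMod 5) where
  toFun c g := wt s j (c g)
  map_add' c c' := by
    funext g
    simp only [wt, Pi.add_apply, mul_add, Finset.sum_add_distrib, neg_add]
  map_smul' r c := by
    funext g
    simp only [wt, Pi.smul_apply, smul_eq_mul, RingHom.id_apply, mul_neg, Finset.mul_sum]
    exact congrArg Neg.neg (Finset.sum_congr rfl fun t _ => by ring)

theorem wtMap_mem {B Z : Subgroup Γ} {rb : Γ →* (ZMod 5)ˣ} {s : (ZMod 5)ˣ → Γ}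
    (hs : ∀ t, rb (s t) = t) {c : B → Γ → ZMod 5} (hc : c ∈ coc B Z)
    (hf : ∀ g a b, rb a = rb b → c g a = c g b) (j : ℕ) : wtMap B s j c ∈ wcoc B rb j := by
  obtain ⟨h1, -, U, hU, h3⟩ := hc
  refine ⟨fun g g' => ?_, U, hU, fun u hu => ?_⟩
  · change wt s j (c (g * g')) = wt s j (c g) * _ + wt s j (c g')
    rw [← wt_translate hs (hf g)]
    simp only [wt, h1, mul_add, Finset.sum_add_distrib, neg_add]
  · change wt s j (c u) = 0
    simp only [wt, h3 u hu, mul_zero, Finset.sum_const_zero, neg_zero]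

theorem dep_rb {B P Z : Subgroup Γ} {rb : Γ →* (ZMod 5)ˣ}
    (hker : ∀ g, rb g = 1 → ∃ p ∈ P, ∃ z ∈ Z, g = p * z) {c : B → Γ → ZMod 5} (hc : c ∈ coc B Z)
    (hP : ∀ p ∈ P, ∀ g a, c g (a * p) = c g a) (g : B) (a b : Γ) (h : rb a = rb b) :
    c g a = c g b := by
  obtain ⟨p, hp, z, hz, e⟩ := hker (a⁻¹ * b) (by rw [map_mul, map_inv, h, inv_mul_cancel])
  have : b = a * p * z := by rw [mul_assoc, ← e, mul_inv_cancel_left]
  rw [this, hc.2.1 g _ z hz, hP p hp]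

/-- Step STAR. `U` is a finite-dimensional space of global cocycles, stable under `P`, whose
members vanishing on `D` form a space of dimension at most `κ`. -/
theorem STAR {D P Gm Zm Gn Zn : Subgroup Γ} [Gm.Normal] [Gn.Normal] [Zn.Normal]
    (hmP : Gm ≤ P) (hn : Gn ≤ Zn) (hZ : Zn ≤ Zm) (hm : Gm ≤ Zm)
    (hix : (Gm.relIndex Zm : ZMod 5) ≠ 0) {U0 : Subgroup Γ} (hO : Fam.O U0) (hU0 : U0 ≤ Gm)
    (hfin : Gn.relIndex P ≠ 0) (hp : ∀ g ∈ P, ∃ k, g ^ 5 ^ k ∈ Gn)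
    (rb : Γ →* (ZMod 5)ˣ) (hrb : Function.Surjective rb)
    (hker : ∀ g, rb g = 1 → ∃ p ∈ P, ∃ z ∈ Zn, g = p * z)
    (hLS : ∀ j < 4, Module.rank (ZMod 5) (wcoc D rb j) ≤ 2)
    (U : Submodule (ZMod 5) (coc ⊤ Zn)) [Module.Finite (ZMod 5) U]
    (hU : ∀ p ∈ P, ∀ c ∈ U, cocRep ⊤ Zn p c ∈ U) (κ : ℕ)
    (hK : ∀ K : Submodule (ZMod 5) (coc ⊤ Zn),
      (∀ c, c ∈ K ↔ c ∈ U ∧ ∀ g ∈ D, ∀ a, c.1 ⟨g, trivial⟩ a = 0) → finrank (ZMod 5) K ≤ κ)
    (hcount : Gn.relIndex P * 8 + κ < finrank (ZMod 5) U + Gn.relIndex Gm)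
    (o : Γ → Γ → ZMod 5)
    (hadd : ∀ h ∈ D, h ∈ Gm → ∀ h' ∈ D, h' ∈ Gm → ∀ a, o (h * h') a = o h a + o h' a)
    (hD : ∀ d ∈ D, ∀ h ∈ D, h ∈ Gm → ∀ a, o h (d * a) = o (d⁻¹ * h * d) a)
    (hoZ : ∀ h ∈ D, h ∈ Gm → ∀ a, ∀ z ∈ Zm, o h (a * z) = o h a)
    (hcts : ∃ V : Subgroup Γ, Fam.O V ∧ ∀ h ∈ D, h ∈ Gm → h ∈ V → ∀ a, o h a = 0) :
    ∃ c ∈ U, ∀ h ∈ D, h ∈ Gm → ∀ a, c.1 ⟨h, trivial⟩ a = o h a := by
  classical
  obtain ⟨c0, h1, h2, h3⟩ := EXT D Gm Zm hm hix o hadd hD hoZ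
  obtain ⟨V, hVO, hV⟩ := hcts
  let w : coc D Zn := ⟨fun g a => c0 g a, fun g g' a => h1 g g.2 g' g'.2 a,
    fun g a z hz => h2 g a z (hZ hz), V ⊓ U0, Fam.inf _ _ hVO hO, fun u hu a =>
      (h3 u u.2 (hU0 hu.2) a).trans (hV u u.2 (hU0 hu.2) hu.1 a)⟩
  let N : Subgroup P := Gn.subgroupOf P
  let σ0 : Representation (ZMod 5) P (coc D Zn) := (cocRep D Zn).comp P.subtype
  have hN : N ≤ σ0.ker := fun g hg => by
    rw [MonoidHom.mem_ker]
    ext c d a
    exact c.2.2.1 d a g (hn hg)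
  let σ : Representation (ZMod 5) (P ⧸ N) (coc D Zn) := QuotientGroup.lift N σ0 hN
  have hσ : ∀ p : P, σ (p : P ⧸ N) = cocRep D Zn p := fun p => rfl
  have : Finite (P ⧸ N) := Nat.finite_of_card_ne_zero hfin
  have hQ : IsPGroup 5 (P ⧸ N) := fun q => by
    obtain ⟨g, rfl⟩ := QuotientGroup.mk_surjective q
    obtain ⟨k, hk⟩ := hp g g.2
    exact ⟨k, by rw [← QuotientGroup.mk_pow, QuotientGroup.eq_one_iff]; exact hk⟩
  choose s hs using hrb
  have hfd : ∀ j : Fin 4, Module.Finite (ZMod 5) (wcoc D rb j) := fun j =>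
    Module.rank_lt_aleph0_iff.1 ((hLS j j.2).trans_lt (Cardinal.natCast_lt_aleph0 (n := 2)))
  have hinv : ∀ c : σ.invariants, ∀ p ∈ P, ∀ g a, c.1.1 g (a * p) = c.1.1 g a :=
    fun c p hp g a => congrFun (congrFun (congrArg Subtype.val (c.2 ((⟨p, hp⟩ : P) : P ⧸ N))) g) a
  let lam : σ.invariants →ₗ[ZMod 5] ((j : Fin 4) → wcoc D rb j) :=
    LinearMap.pi fun j => ((wtMap D s j) ∘ₗ (coc D Zn).subtype ∘ₗ σ.invariants.subtype).codRestrict
      _ fun c => wtMap_mem hs c.1.2 (dep_rb hker c.1.2 (hinv c)) j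
  have hlam : Function.Injective lam := by
    rw [← LinearMap.ker_eq_bot, Submodule.eq_bot_iff]
    intro c hc
    ext g a
    rw [sum_wt hs (dep_rb hker c.1.2 (hinv c) g) a]
    refine Finset.sum_eq_zero fun j _ => ?_
    have : wt s j (c.1.1 g) = 0 :=
      congrFun (congrArg Subtype.val (congrFun (LinearMap.mem_ker.1 hc) j)) g
    rw [this, zero_mul]
  have : Module.Finite (ZMod 5) σ.invariants := Module.Finite.of_injective lam hlam
  have hd : finrank (ZMod 5) σ.invariants ≤ 8 := by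
    refine (LinearMap.finrank_le_finrank_of_injective hlam).trans ?_
    rw [Module.finrank_pi_fintype]
    refine (Finset.sum_le_card_nsmul _ _ 2 fun j _ => ?_).trans (by simp)
    exact finrank_le_of_rank_le (hLS j j.2)
  let res : coc ⊤ Zn →ₗ[ZMod 5] coc D Zn :=
    { toFun := fun c => ⟨fun g a => c.1 ⟨g, trivial⟩ a,
        fun g g' a => c.2.1 ⟨g, trivial⟩ ⟨g', trivial⟩ a, fun g a z hz => c.2.2.1 _ a z hz, by
          obtain ⟨V, hVO, hV⟩ := c.2.2.2
          exact ⟨V, hVO, fun u hu a => hV ⟨u, trivial⟩ hu a⟩⟩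
      map_add' := fun _ _ => rfl
      map_smul' := fun _ _ => rfl }
  have hrk : finrank (ZMod 5) U ≤ finrank (ZMod 5) (U.map res) + κ := by
    have e1 := (res.domRestrict U).finrank_range_add_finrank_ker
    rw [LinearMap.range_domRestrict] at e1
    have e2 := hK ((LinearMap.ker (res.domRestrict U)).map U.subtype) (fun c => by
      constructor
      · rintro ⟨c, hc, rfl⟩
        exact ⟨c.2, fun g hg a =>
          congrFun (congrFun (congrArg Subtype.val (LinearMap.mem_ker.1 hc)) ⟨g, hg⟩) a⟩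
      · rintro ⟨hc, h0⟩
        exact ⟨⟨c, hc⟩, LinearMap.mem_ker.2 (Subtype.ext (funext fun g => funext fun a =>
          h0 g g.2 a)), rfl⟩)
    rw [Submodule.finrank_map_subtype_eq] at e2
    omega
  have hcard : Nat.card ((Gm.subgroupOf P).map (QuotientGroup.mk' N)) = Gn.relIndex Gm := by
    rw [← Subgroup.relIndex_ker, QuotientGroup.ker_mk', Subgroup.relIndex_subgroupOf hmP]
  have hw : w ∈ U.map res := by
    refine S1' hQ σ 8 hd (U.map res) ?_ ((Gm.subgroupOf P).map (QuotientGroup.mk' N)) ?_ ?_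
    · rintro q _ ⟨c, hc, rfl⟩
      obtain ⟨p, rfl⟩ := QuotientGroup.mk_surjective q
      exact ⟨_, hU p p.2 c hc, rfl⟩
    · rw [hcard]
      change Gn.relIndex P * 8 < _
      omega
    · rintro _ ⟨p, hp, rfl⟩
      ext g a
      exact h2 g a p (hm hp)
  obtain ⟨c, hc, e⟩ := hw
  exact ⟨c, hc, fun h hd hg a =>
    (congrFun (congrFun (congrArg Subtype.val e) ⟨h, hd⟩) a).trans (h3 h hd hg a)⟩

end Pool.Agent.Lib.MP_54db3e_nt.TStar
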