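import Pool.Agent.Lib.MP_54db3e_nt.H42S2b
import Pool.Agent.Lib.MP_54db3e_nt.TStar1

/-!
Step S2 for spaces of global cocycles, and a large finite-dimensional stable space of cocycles
built from independent additive maps and the coboundaries.
-/

open scoped Classical

namespace Pool.Agent.Lib.MP_54db3e_nt.TStar

open Module H42

variable {Γ : Type*} [Group Γ] [Fam Γ]

/-- The value of a global cocycle. -/
def ev {Z : Subgroup Γ} (g a : Γ) : coc ⊤ Z →ₗ[ZMod 5] ZMod 5 where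
  toFun c := c.1 ⟨g, trivial⟩ a
  map_add' _ _ := rfl
  map_smul' _ _ := rfl

theorem ev_mul {Z : Subgroup Γ} (g g' a : Γ) (c : coc ⊤ Z) :
    ev (g * g') a c = ev g (g' * a) c + ev g' a c := c.2.1 ⟨g, trivial⟩ ⟨g', trivial⟩ a

theorem ev_Z {Z : Subgroup Γ} (g a : Γ) {z : Γ} (hz : z ∈ Z) (c : coc ⊤ Z) :
    ev g (a * z) c = ev g a c := c.2.2.1 _ a z hz

theorem ev_left {Z : Subgroup Γ} [Z.Normal] (g a : Γ) {z : Γ} (hz : z ∈ Z) (c : coc ⊤ Z) :
    ev g (z * a) c = ev g a c := by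
  rw [← ev_Z g a (Subgroup.Normal.conj_mem' inferInstance z hz a) c]
  congr 2
  group

theorem ev_one {Z : Subgroup Γ} (a : Γ) (c : coc ⊤ Z) : ev 1 a c = 0 := by
  simpa using ev_mul 1 1 a c

theorem ev_conj {Z : Subgroup Γ} [Z.Normal] {h : Γ} (hh : h ∈ Z) (g a : Γ) (c : coc ⊤ Z) :
    ev (g⁻¹ * h * g) a c = ev h (g * a) c := by
  have e1 := ev_mul h g a c
  have e2 := ev_mul g (g⁻¹ * h * g) a c
  rw [ev_left g a (Subgroup.Normal.conj_mem' inferInstance h hh g),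
    show g * (g⁻¹ * h * g) = h * g by group] at e2
  linear_combination e1 - e2

theorem ev_rep {Z : Subgroup Γ} [Z.Normal] (g a p : Γ) (c : coc ⊤ Z) :
    ev g a (cocRep ⊤ Z p c) = ev g (a * p) c := rfl

theorem coc_ext {Z : Subgroup Γ} {c c' : coc ⊤ Z} (h : ∀ g a, ev g a c = ev g a c') : c = c' :=
  Subtype.ext (funext fun g => funext fun a => h g a)

omit [Fam Γ] in
/-- The tame data relative to a subgroup `U0`, together with the vanishing
statement for odd weights. `UT` is the space of functions of unit type. -/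
structure Tame (D P : Subgroup Γ) (M : Γ → Matrix (Fin 2) (Fin 2) (ZMod 5))
    (rb : Γ →* (ZMod 5)ˣ) (UT : Submodule (ZMod 5) (Γ → ZMod 5)) (U0 : Subgroup Γ) {ι : Type}
    (τ φ : ι → Γ) (Q : ι → ℕ) (c : ι → ZMod 5) (i0 : ι) : Prop where
  hτ : ∀ i, τ i ∈ P
  hφ : ∀ i, φ i ∈ P
  hQ : ∀ i, (Q i : ZMod 5) = 1
  rel : ∀ i, (τ i ^ Q i * φ i)⁻¹ * (φ i * τ i) ∈ U0
  hc : ∀ i, c i ≠ 0
  comm : ∀ i, M (φ i) * M (τ i) - M (τ i) * M (φ i) = c i • M (τ i)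
  tr : ∀ i, (M (φ i)).trace ≠ 0
  hN : M (τ i0) ≠ 0
  GO : ∀ j, j = 1 ∨ j = 3 → ∀ f ∈ UT, (∀ g g', f (g * g') = f g * (rb g' : ZMod 5) ^ j + f g') →
    (∀ g ∈ D, f g = 0) → (∀ i, f (τ i) = 0) → f (φ i0) = 0 → f = 0

/-- Step S2 for a stable finite-dimensional space of unit-type cocycles vanishing on `D`. -/
theorem K_bound {D P G Z : Subgroup Γ} [P.Normal] [Z.Normal]
    (hGZ : G ≤ Z) {M : Γ → Matrix (Fin 2) (Fin 2) (ZMod 5)} {e : ℕ}
    (hadd : ∀ g ∈ P, ∀ h ∈ P, M (g * h) = M g + M h) (hsurj : ∀ A, ∃ g ∈ P, M g = A)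
    (hker5 : ∀ g ∈ P, M g = 0 →
      ∃ g' ∈ Submonoid.closure {f | ∃ p ∈ P, f = p ^ 5}, g'⁻¹ * g ∈ G)
    (hpow : ∀ g ∈ P, g ^ 5 ^ e ∈ G)
    (hconj : ∀ a, ∃ A B : Matrix (Fin 2) (Fin 2) (ZMod 5), A * B = 1 ∧
      ∀ g ∈ P, M (a⁻¹ * g * a) = B * M g * A)
    (rb : Γ →* (ZMod 5)ˣ) (hrb : Function.Surjective rb)
    (hker : ∀ g, rb g = 1 → ∃ p ∈ P, ∃ z ∈ Z, g = p * z)
    (a1 : Γ) (ha1 : rb a1 = -1)
    (hflip : ∀ g ∈ P, ∀ i j, M (a1⁻¹ * g * a1) i j = if i = j then M g i j else -M g i j)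
    (UT : Submodule (ZMod 5) (Γ → ZMod 5))
    (GE : ∀ j, j = 0 ∨ j = 2 → ∀ f ∈ UT,
      (∀ g g', f (g * g') = f g * (rb g' : ZMod 5) ^ j + f g') →
      (∀ g ∈ D, f g = 0) → f = 0)
    {ι : Type} [Fintype ι] {U0 : Subgroup Γ} (hU0 : U0 ≤ G) (hkill : ∀ f ∈ UT, ∀ u ∈ U0, f u = 0)
    {τ φ : ι → Γ} {Q : ι → ℕ} {c : ι → ZMod 5} {i0 : ι} (T : Tame D P M rb UT U0 τ φ Q c i0)
    (K : Submodule (ZMod 5) (coc ⊤ Z)) [Module.Finite (ZMod 5) K]
    (hK : ∀ g, ∀ c ∈ K, cocRep ⊤ Z g c ∈ K) (hUT : ∀ c ∈ K, ∀ a, (fun g => ev g a c) ∈ UT)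
    (hD : ∀ c ∈ K, ∀ g ∈ D, ∀ a, ev g a c = 0) :
    finrank (ZMod 5) K ≤ (Fintype.card ι + 1) * 4 * (2 * (5 ^ e) ^ 3) := by
  classical
  let ρ : Representation (ZMod 5) Γ K := (cocRep ⊤ Z).subrepresentation K hK
  have hρG : ∀ g ∈ G, ρ g = 1 := fun g hg => by
    ext v : 2
    exact coc_ext fun h a => ev_Z h a (hGZ hg) v.1
  have F : Fil ρ P M e := ⟨hadd, hsurj, fun g hg h0 => by
    obtain ⟨g', hg', h1⟩ := hker5 g hg h0
    have e1 : ρ g = ρ g' := by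
      rw [← mul_inv_cancel_left g' g, map_mul, hρG _ h1, mul_one]
    rw [e1]
    refine (Submonoid.map_le_iff_le_comap.2 (Submonoid.closure_le.2 ?_) :
      Submonoid.map ρ _ ≤ _) ⟨g', hg', rfl⟩
    rintro _ ⟨p, hp, rfl⟩
    exact Submonoid.subset_closure ⟨p, hp, map_pow ρ p 5⟩,
    fun g hg => by rw [← map_pow, hρG _ (hpow g hg)]⟩
  choose s hs using hrb
  have hdep : ∀ v : K, (∀ p ∈ P, ρ p v = v) → ∀ g a b, rb a = rb b → ev g a v.1 = ev g b v.1 :=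
    fun v hv g => dep_rb hker v.1.2 (fun p hp g a =>
      congrFun (congrFun (congrArg (fun x : K => x.1.1) (hv p hp)) g) a) ⟨g, trivial⟩
  have hwUT : ∀ (v : K) (j : ℕ), (fun g => wt s j fun a => ev g a v.1) ∈ UT := fun v j => by
    have : (fun g => wt s j fun a => ev g a v.1) = -∑ t : (ZMod 5)ˣ,
        ((t⁻¹ : (ZMod 5)ˣ) : ZMod 5) ^ j • fun g => ev g (s t) v.1 := by
      funext g
      simp only [wt, Pi.neg_apply, Finset.sum_apply, Pi.smul_apply, smul_eq_mul]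
    rw [this]
    exact UT.neg_mem (UT.sum_mem fun t _ => UT.smul_mem _ (hUT v v.2 _))
  have hw0 : ∀ (v : K) (j : ℕ) (g : Γ), (∀ t, ev g (s t) v.1 = 0) →
      (wt s j fun a => ev g a v.1) = 0 := fun v j g h => by
    simp only [wt, h, mul_zero, Finset.sum_const_zero, neg_zero]
  have hwc : ∀ v : K, (∀ p ∈ P, ρ p v = v) → ∀ (j : ℕ) (g g' : Γ),
      (wt s j fun a => ev (g * g') a v.1) =
        (wt s j fun a => ev g a v.1) * (rb g' : ZMod 5) ^ j + wt s j fun a => ev g' a v.1 :=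
    fun v hv j g g' => wt_cocycle hs (c := fun g a => ev g a v.1) (hdep v hv g)
      (fun a => ev_mul g g' a v.1) j
  have heven : ∀ v : K, (∀ p ∈ P, ρ p v = v) → ∀ j, j = 0 ∨ j = 2 → ∀ g,
      (wt s j fun a => ev g a v.1) = 0 := fun v hv j hj g =>
    congrFun (GE j hj _ (hwUT v j) (hwc v hv j)
      (fun g hg => hw0 v j g fun t => hD v v.2 g hg _)) g
  have := S2 F (fun g a => ev g a ∘ₗ K.subtype) (fun g a p _ v => rfl)
    (fun g g' a v => ev_mul g g' a v.1) hconj a1 hflip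
    (fun v hv g a => odd_of_wt hs (f := fun a => ev g a v.1) (hdep v hv g)
      (heven v hv 0 (Or.inl rfl) g) (heven v hv 2 (Or.inr rfl) g) ha1 a)
    τ φ Q c T.hτ T.hφ T.hQ
    (fun i a v => by
      have h1 := T.rel i
      have h2 := ev_mul (τ i ^ Q i * φ i) ((τ i ^ Q i * φ i)⁻¹ * (φ i * τ i)) a v.1
      rw [mul_inv_cancel_left, ev_left _ _ (hGZ (hU0 h1)), hkill _ (hUT v v.2 a) _ h1,
        add_zero] at h2
      exact h2)
    T.hc T.comm T.tr i0 T.hN (Finset.univ.image s)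
    (fun v hv h1 h2 => by
      have hodd : ∀ j, j = 1 ∨ j = 3 → ∀ g, (wt s j fun a => ev g a v.1) = 0 := fun j hj g =>
        congrFun (T.GO j hj _ (hwUT v j) (hwc v hv j)
          (fun g hg => hw0 v j g fun t => hD v v.2 g hg _)
          (fun i => hw0 v j _ fun t => h1 i _ (Finset.mem_image_of_mem s (Finset.mem_univ t)))
          (hw0 v j _ fun t => h2 _ (Finset.mem_image_of_mem s (Finset.mem_univ t)))) g
      refine Subtype.ext (coc_ext fun g a => ?_)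
      rw [sum_wt hs (f := fun a => ev g a v.1) (hdep v hv g) a]
      simp only [Fin.sum_univ_four, Fin.val_zero, Fin.val_one, Fin.val_two,
        show ((3 : Fin 4) : ℕ) = 3 from rfl, heven v hv 0 (Or.inl rfl), heven v hv 2 (Or.inr rfl),
        hodd 1 (Or.inl rfl), hodd 3 (Or.inr rfl), zero_mul, add_zero]
      rfl)
  refine this.trans (Nat.mul_le_mul_right _ (Nat.mul_le_mul_left _ ?_))
  exact Finset.card_image_le.trans (by decide)

end Pool.Agent.Lib.MP_54db3e_nt.TStar
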