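import Pool.Agent.Lib.MP_54db3e_nt.TStar2

/-!
A large finite-dimensional stable space of unit-type cocycles, and step STAR from the abstract
inputs.
-/

open scoped Classical

namespace Pool.Agent.Lib.MP_54db3e_nt.TStar

open Module H42

variable {Γ : Type*} [Group Γ] [Fam Γ]

omit [Fam Γ] in
/-- An additive map on `G`, invariant under conjugation by `Z`. -/
structure InvHom (G Z : Subgroup Γ) (κ : Γ → ZMod 5) : Prop where
  add : ∀ h ∈ G, ∀ h' ∈ G, κ (h * h') = κ h + κ h'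
  conj : ∀ h ∈ G, ∀ z ∈ Z, κ (z⁻¹ * h * z) = κ h

theorem exists_coc {G Z : Subgroup Γ} [G.Normal] (hGZ : G ≤ Z)
    (hix : (G.relIndex Z : ZMod 5) ≠ 0) {U0 : Subgroup Γ} [U0.Normal] (hO : Fam.O U0)
    (hU0 : U0 ≤ G) {κ : Γ → ZMod 5} (hκ : InvHom G Z κ) (hκ0 : ∀ u ∈ U0, κ u = 0) :
    ∃ c : coc ⊤ Z, ∀ h ∈ G, ∀ a, ev h a c = κ (a⁻¹ * h * a) := by
  have hc : ∀ h ∈ G, ∀ a, a⁻¹ * h * a ∈ G := fun h hh a =>
    Subgroup.Normal.conj_mem' inferInstance h hh a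
  obtain ⟨c, h1, h2, h3⟩ := EXT ⊤ G Z hGZ hix (fun h a => κ (a⁻¹ * h * a))
    (fun h _ hh h' _ hh' a => by
      rw [← hκ.add _ (hc h hh a) _ (hc h' hh' a)]
      congr 1
      group)
    (fun d _ h _ _ a => by
      congr 1
      group)
    (fun h _ hh a z hz => by
      rw [← hκ.conj _ (hc h hh a) z hz]
      congr 1
      group)
  exact ⟨⟨fun g a => c g a, fun g g' a => h1 g trivial g' trivial a, fun g a z hz => h2 g a z hz,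
    U0, hO, fun u hu a => (h3 u trivial (hU0 hu) a).trans
      (hκ0 _ (Subgroup.Normal.conj_mem' inferInstance _ hu a))⟩, fun h hh a => h3 h trivial hh a⟩

/-- The coboundary of a function on the coset space. -/
def cob (Z : Subgroup Γ) [Z.Normal] {U0 : Subgroup Γ} (hO : Fam.O U0) (hZ : U0 ≤ Z) :
    (Γ ⧸ Z → ZMod 5) →ₗ[ZMod 5] coc ⊤ Z where
  toFun φ := ⟨fun g a => φ ((g : Γ) * a : Γ) - φ (a : Γ), fun g g' a => by
      simp only [Subgroup.coe_mul, mul_assoc]; ring,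
    fun g a z hz => by
      simp only [QuotientGroup.mk_mul, (QuotientGroup.eq_one_iff z).2 hz, mul_one],
    U0, hO, fun u hu a => by
      simp only [QuotientGroup.mk_mul, (QuotientGroup.eq_one_iff (u : Γ)).2 (hZ hu), one_mul,
        sub_self]⟩
  map_add' φ ψ := by
    ext g a
    simp only [Pi.add_apply, Submodule.coe_add]
    ring
  map_smul' r φ := by
    ext g a
    simp only [Pi.smul_apply, smul_eq_mul, RingHom.id_apply, Submodule.coe_smul]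
    ring

theorem ev_cob (Z : Subgroup Γ) [Z.Normal] {U0 : Subgroup Γ} (hO : Fam.O U0) (hZ : U0 ≤ Z)
    (φ : Γ ⧸ Z → ZMod 5) (g a : Γ) : ev g a (cob Z hO hZ φ) = φ (g * a : Γ) - φ (a : Γ) := rfl

theorem exists_U {G Z : Subgroup Γ} [G.Normal] [Z.Normal] (hGZ : G ≤ Z)
    (hix : (G.relIndex Z : ZMod 5) ≠ 0) {U0 : Subgroup Γ} [U0.Normal] (hO : Fam.O U0)
    (hU0 : U0 ≤ G) (hfin : Z.index ≠ 0)
    (UT : Submodule (ZMod 5) (Γ → ZMod 5)) (hkill : ∀ f ∈ UT, ∀ u ∈ U0, f u = 0) (hUT0 : ∀ f, (∀ h ∈ G, f h = 0) → f ∈ UT)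
    (hUTc : ∀ f ∈ UT, ∀ a, (fun h => f (a⁻¹ * h * a)) ∈ UT) {r : ℕ} (κ : Fin r → Γ → ZMod 5)
    (hκU : ∀ i, κ i ∈ UT) (hκ : ∀ i, InvHom G Z (κ i))
    (hind : ∀ e : Fin r → ZMod 5, (∀ h ∈ G, ∑ i, e i * κ i h = 0) → e = 0) :
    ∃ U : Submodule (ZMod 5) (coc ⊤ Z), Module.Finite (ZMod 5) U ∧
      (∀ g, ∀ c ∈ U, cocRep ⊤ Z g c ∈ U) ∧ (∀ c ∈ U, ∀ a, (fun g => ev g a c) ∈ UT) ∧
      r + Z.index ≤ finrank (ZMod 5) U + 1 := by
  classical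
  have hZ : U0 ≤ Z := hU0.trans hGZ
  have : Finite (Γ ⧸ Z) := Nat.finite_of_card_ne_zero hfin
  have := Fintype.ofFinite (Γ ⧸ Z)
  choose c hc using fun i => exists_coc hGZ hix hO hU0 (hκ i) (hkill _ (hκU i))
  let Φ : ((Fin r → ZMod 5) × (Γ ⧸ Z → ZMod 5)) →ₗ[ZMod 5] coc ⊤ Z :=
    (Fintype.linearCombination (ZMod 5) c).coprod (cob Z hO hZ)
  have hΦ : ∀ x g a, ev g a (Φ x) =
      ∑ i, x.1 i * ev g a (c i) + (x.2 (g * a : Γ) - x.2 (a : Γ)) := fun x g a => by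
    simp only [Φ, LinearMap.coprod_apply, map_add, Fintype.linearCombination_apply, map_sum,
      map_smul, smul_eq_mul, ev_cob]
  have hG1 : ∀ h ∈ G, (h : Γ ⧸ Z) = 1 := fun h hh => (QuotientGroup.eq_one_iff h).2 (hGZ hh)
  have hker : finrank (ZMod 5) (LinearMap.ker Φ) ≤ 1 := by
    let l : LinearMap.ker Φ →ₗ[ZMod 5] ZMod 5 :=
      LinearMap.proj (1 : Γ ⧸ Z) ∘ₗ LinearMap.snd _ _ _ ∘ₗ (LinearMap.ker Φ).subtype
    refine (LinearMap.finrank_le_finrank_of_injective (f := l) ?_).trans (by simp)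
    rw [← LinearMap.ker_eq_bot, Submodule.eq_bot_iff]
    rintro ⟨⟨e, φ⟩, hx⟩ hl
    have h0 : φ 1 = 0 := hl
    have h1 : ∀ g a, ∑ i, e i * ev g a (c i) + (φ (g * a : Γ) - φ (a : Γ)) = 0 := fun g a => by
      rw [← hΦ (e, φ), LinearMap.mem_ker.1 hx, map_zero]
    have he : e = 0 := hind e fun h hh => by
      have := h1 h 1
      simpa [hc _ h hh, hG1 h hh] using this
    refine Subtype.ext (Prod.ext he (funext fun q => ?_))
    obtain ⟨g, rfl⟩ := QuotientGroup.mk_surjective q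
    have := h1 g 1
    simpa [he, h0] using this
  have hZ1 : Z ≤ (cocRep ⊤ Z).ker := fun z hz => by
    rw [MonoidHom.mem_ker]
    ext v : 1
    exact coc_ext fun h a => ev_Z h a hz v
  let σ : Representation (ZMod 5) (Γ ⧸ Z) (coc ⊤ Z) := QuotientGroup.lift Z (cocRep ⊤ Z) hZ1
  let U : Submodule (ZMod 5) (coc ⊤ Z) := ⨆ q, (LinearMap.range Φ).map (σ q)
  have hfinU : Module.Finite (ZMod 5) U := inferInstance
  refine ⟨U, hfinU, fun g => ?_, ?_, ?_⟩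
  · change U ≤ U.comap (σ (g : Γ ⧸ Z))
    refine iSup_le fun q => ?_
    rintro _ ⟨v, hv, rfl⟩
    exact Submodule.mem_iSup_of_mem ((g : Γ ⧸ Z) * q) ⟨v, hv, by rw [map_mul]; rfl⟩
  · let F : Submodule (ZMod 5) (coc ⊤ Z) := ⨅ a, UT.comap (LinearMap.pi fun g => ev g a)
    have hF : ∀ v, v ∈ F ↔ ∀ a, (fun g => ev g a v) ∈ UT := fun v => Submodule.mem_iInf _
    suffices U ≤ F from fun v hv => (hF v).1 (this hv)
    refine iSup_le fun q => ?_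
    rintro _ ⟨_, ⟨x, rfl⟩, rfl⟩
    obtain ⟨p, rfl⟩ := QuotientGroup.mk_surjective q
    refine (hF _).2 fun a => ?_
    change (fun g => ev g (a * p) (Φ x)) ∈ UT
    have h1 : (∑ i, x.1 i • fun h => κ i ((a * p)⁻¹ * h * (a * p))) ∈ UT :=
      UT.sum_mem fun i _ => UT.smul_mem _ (hUTc _ (hκU i) _)
    have h2 := hUT0 ((fun g => ev g (a * p) (Φ x)) -
        ∑ i, x.1 i • fun h => κ i ((a * p)⁻¹ * h * (a * p))) fun h hh => by
      simp only [Pi.sub_apply, hΦ, hc _ h hh, Finset.sum_apply, Pi.smul_apply, smul_eq_mul,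
        QuotientGroup.mk_mul Z h, hG1 h hh, one_mul, sub_self, add_zero]
    simpa using UT.add_mem h2 h1
  · have h1 := Φ.finrank_range_add_finrank_ker
    have h2 : LinearMap.range Φ ≤ U := fun v hv =>
      Submodule.mem_iSup_of_mem (1 : Γ ⧸ Z) ⟨v, hv, by rw [map_one]; rfl⟩
    have h3 := Submodule.finrank_mono h2
    rw [Module.finrank_prod, Module.finrank_fintype_fun_eq_card, Module.finrank_fintype_fun_eq_card,
      Fintype.card_fin, ← Nat.card_eq_fintype_card] at h1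
    change r + Nat.card (Γ ⧸ Z) ≤ _
    omega

/-- Step STAR from the abstract inputs. -/
theorem STAR_full {D P Gm Zm Gn Zn : Subgroup Γ} [P.Normal] [Gm.Normal] [Gn.Normal] [Zn.Normal]
    (hmP : Gm ≤ P) (hn : Gn ≤ Zn) (hZ : Zn ≤ Zm) (hm : Gm ≤ Zm) (hnm : Gn ≤ Gm)
    (hixm : (Gm.relIndex Zm : ZMod 5) ≠ 0) (hixn : (Gn.relIndex Zn : ZMod 5) ≠ 0)
    {U0 : Subgroup Γ} [U0.Normal] (hO : Fam.O U0) (hU0 : U0 ≤ Gn) (hfin : Gn.relIndex P ≠ 0) (hfinZ : Zn.index ≠ 0)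
    {M : Γ → Matrix (Fin 2) (Fin 2) (ZMod 5)} {e : ℕ}
    (hadd : ∀ g ∈ P, ∀ h ∈ P, M (g * h) = M g + M h) (hsurj : ∀ A, ∃ g ∈ P, M g = A)
    (hker5 : ∀ g ∈ P, M g = 0 →
      ∃ g' ∈ Submonoid.closure {f | ∃ p ∈ P, f = p ^ 5}, g'⁻¹ * g ∈ Gn)
    (hpow : ∀ g ∈ P, g ^ 5 ^ e ∈ Gn)
    (hconj : ∀ a, ∃ A B : Matrix (Fin 2) (Fin 2) (ZMod 5), A * B = 1 ∧
      ∀ g ∈ P, M (a⁻¹ * g * a) = B * M g * A)
    (rb : Γ →* (ZMod 5)ˣ) (hrb : Function.Surjective rb)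
    (hker : ∀ g, rb g = 1 → ∃ p ∈ P, ∃ z ∈ Zn, g = p * z)
    (a1 : Γ) (ha1 : rb a1 = -1)
    (hflip : ∀ g ∈ P, ∀ i j, M (a1⁻¹ * g * a1) i j = if i = j then M g i j else -M g i j)
    (UT : Submodule (ZMod 5) (Γ → ZMod 5)) (hkill : ∀ f ∈ UT, ∀ u ∈ U0, f u = 0)
    (hUT0 : ∀ f, (∀ h ∈ Gn, f h = 0) → f ∈ UT)
    (hUTc : ∀ f ∈ UT, ∀ a, (fun h => f (a⁻¹ * h * a)) ∈ UT)
    (LS : ∀ j < 4, Module.rank (ZMod 5) (wcoc D rb j) ≤ 2)
    (GE : ∀ j, j = 0 ∨ j = 2 → ∀ f ∈ UT,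
      (∀ g g', f (g * g') = f g * (rb g' : ZMod 5) ^ j + f g') →
      (∀ g ∈ D, f g = 0) → f = 0)
    {ι : Type} [Fintype ι]
    {τ φ : ι → Γ} {Q : ι → ℕ} {c : ι → ZMod 5} {i0 : ι} (T : Tame D P M rb UT U0 τ φ Q c i0)
    {r : ℕ} (κ : Fin r → Γ → ZMod 5) (hκU : ∀ i, κ i ∈ UT) (hκ : ∀ i, InvHom Gn Zn (κ i))
    (hind : ∀ e : Fin r → ZMod 5, (∀ h ∈ Gn, ∑ i, e i * κ i h = 0) → e = 0)
    (hcount : Gn.relIndex P * 8 + (Fintype.card ι + 1) * 4 * (2 * (5 ^ e) ^ 3) + 1 <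
      r + Zn.index + Gn.relIndex Gm)
    (o : Γ → Γ → ZMod 5)
    (hoadd : ∀ h ∈ D, h ∈ Gm → ∀ h' ∈ D, h' ∈ Gm → ∀ a, o (h * h') a = o h a + o h' a)
    (hoD : ∀ d ∈ D, ∀ h ∈ D, h ∈ Gm → ∀ a, o h (d * a) = o (d⁻¹ * h * d) a)
    (hoZ : ∀ h ∈ D, h ∈ Gm → ∀ a, ∀ z ∈ Zm, o h (a * z) = o h a)
    (hcts : ∃ V : Subgroup Γ, Fam.O V ∧ ∀ h ∈ D, h ∈ Gm → h ∈ V → ∀ a, o h a = 0) :
    ∃ k ∈ UT, InvHom Gn Zn k ∧ ∀ h ∈ D, h ∈ Gn → ∀ a, k (a⁻¹ * h * a) = o h a := by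
  obtain ⟨U, hfinU, hU, hUT, hdim⟩ := exists_U hn hixn hO hU0 hfinZ UT hkill hUT0 hUTc κ hκU hκ hind
  obtain ⟨c', hc, hco⟩ := STAR hmP hn hZ hm hixm hO (hU0.trans hnm) hfin
    (fun g hg => ⟨e, hpow g hg⟩) rb hrb hker LS U (fun p _ => hU p)
    ((Fintype.card ι + 1) * 4 * (2 * (5 ^ e) ^ 3))
    (fun K hK => by
      have hle : K ≤ U := fun c hc => ((hK c).1 hc).1
      have : Module.Finite (ZMod 5) K := Submodule.finiteDimensional_of_le hle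
      exact K_bound hn hadd hsurj hker5 hpow hconj rb hrb hker a1 ha1 hflip UT GE hU0 hkill T K
        (fun g c hc => (hK _).2 ⟨hU g c (hle hc), fun d hd a => ((hK c).1 hc).2 d hd _⟩)
        (fun c hc => hUT c (hle hc)) (fun c hc => ((hK c).1 hc).2))
    (by omega) o hoadd hoD hoZ hcts
  refine ⟨fun g => ev g 1 c', hUT c' hc 1, ⟨fun h hh h' hh' => ?_, fun h hh z hz => ?_⟩,
    fun h hd hh a => ?_⟩
  · rw [ev_mul, ev_left _ _ (hn hh')]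
  · rw [ev_conj (hn hh), ev_left _ _ hz]
  · change ev _ 1 c' = _
    rw [ev_conj (hn hh), mul_one]
    exact hco h hd (hnm hh) a

end Pool.Agent.Lib.MP_54db3e_nt.TStar
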