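import Pool.Agent.Lib.MP_54db3e_nt.Stmt

/-!
The four tame data.
-/

open scoped Classical

noncomputable section

namespace Pool.Agent.Lib.MP_54db3e_nt

namespace TTd

theorem norm_pow_sub {Ω : Type} [NormedField Ω] [IsUltrametricDist Ω] {a b : Ω} (ha : ‖a‖ ≤ 1)
    (hb : ‖b‖ ≤ 1) (h : ‖a - b‖ < 1) (n : ℕ) : ‖a ^ n - b ^ n‖ < 1 := by
  induction n with
  | zero => simp
  | succ n ih =>
    rw [show a ^ (n + 1) - b ^ (n + 1) = a * (a ^ n - b ^ n) + b ^ n * (a - b) by ring]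
    refine (IsUltrametricDist.norm_add_le_max _ _).trans_lt (max_lt ?_ ?_) <;> rw [norm_mul]
    · exact mul_lt_one_of_nonneg_of_lt_one_right ha (norm_nonneg _) ih
    · exact mul_lt_one_of_nonneg_of_lt_one_right (norm_pow b n ▸ pow_le_one₀ (norm_nonneg _) hb)
        (norm_nonneg _) h

theorem fx_conj {U : Subgroup GQ} (hU : U.Normal) {y : Qb} (hy : Fx U y) (a : GQ) : Fx U (a y) :=
  fun g hg => by
    have h := congrArg a (hy _ (hU.conj_mem' g hg a))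
    rwa [← AlgEquiv.mul_apply, ← mul_assoc, ← mul_assoc, mul_inv_cancel, one_mul] at h

theorem frob {l : ℕ} [Fact l.Prime] {ι : Qb →+* Om l} {U : Subgroup GQ} (hU : U.Normal) {φ : GQ}
    (h : ∀ x, Fx U x → ‖ι x‖ ≤ 1 → ‖ι (φ x - x ^ l)‖ < 1) {x : Qb} (hx : Fx U x) (h1 : ‖ι x‖ ≤ 1)
    (k : ℕ) : ‖ι ((φ ^ k) x) - ι x ^ l ^ k‖ < 1 := by
  induction k with
  | zero => simp
  | succ k ih =>
    have h2 : ‖ι x ^ l ^ k‖ ≤ 1 := norm_pow (ι x) _ ▸ pow_le_one₀ (norm_nonneg _) h1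
    have h3 : ‖ι ((φ ^ k) x)‖ ≤ 1 := by
      rw [← sub_add_cancel (ι ((φ ^ k) x)) (ι x ^ l ^ k)]
      exact (IsUltrametricDist.norm_add_le_max _ _).trans (max_le ih.le h2)
    have h4 := h _ (fx_conj hU hx (φ ^ k)) h3
    rw [map_sub, map_pow] at h4
    rw [pow_succ', AlgEquiv.mul_apply, pow_succ, pow_mul,
      ← sub_add_sub_cancel _ (ι ((φ ^ k) x) ^ l)]
    exact (IsUltrametricDist.norm_add_le_max _ _).trans_lt (max_lt h4 (norm_pow_sub h3 h2 ih l))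

theorem conj_iter {G : Type} [Group G] {a b : G} {l : ℕ} (h : a * b * a⁻¹ = b ^ l) (k : ℕ) :
    a ^ k * b * (a ^ k)⁻¹ = b ^ l ^ k := by
  induction k with
  | zero => simp
  | succ k ih =>
    rw [pow_succ' l, pow_mul, ← h, conj_pow, ← ih]
    group

theorem datum (hT : TameS) (hR : RamS) (hI : IdxS) (hC : CycS) (d : Rep) {U : Subgroup GQ}
    (hU : U.Normal) (hO : Opn U) (h3 : U ≤ lev d.ρ 3) (h5 : ∀ g ∈ lev d.ρ 1, ∃ k : ℕ, g ^ 5 ^ k ∈ U)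
    (l : ℕ) [hl : Fact l.Prime] (l5 : l ≠ 5) (l8 : l ^ 8 % 25 = 21) (ι : Qb →+* Om l) :
    ∃ τ φ : GQ, (τ ∈ lev d.ρ 1 ∧ φ ∈ lev d.ρ 1 ∧ ¬ (25 : ℤ_[5]) ∣ (d.ρ φ).det - 1 ∧
      ∃ Q : ℕ, Q % 25 = 21 ∧ φ * τ * φ⁻¹ * (τ ^ Q)⁻¹ ∈ U) ∧
      (∀ g, Inert ι U g → g ∈ lev d.ρ 1 → ∃ i : ℕ, g * (τ ^ i)⁻¹ ∈ U) ∧
      (∀ y, y ≠ 0 → Fx U y → τ y = y → NVal ι y) ∧
      ∀ y, Fx U y → φ y = y → ‖ι y‖ = 1 → ‖ι (y ^ (l ^ 8 - 1) - 1)‖ < 1 := by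
  obtain ⟨τ, φ, t1, -, t3, t4, t5⟩ := hT l l5 ι U (lev d.ρ 1) hU hO inferInstance
    (h3.trans (lev_anti _ (by norm_num))) h5
  have key : ∀ y, Fx U y → (φ ^ 8) y = y → ‖ι y‖ = 1 → ‖ι (y ^ (l ^ 8 - 1) - 1)‖ < 1 :=
    fun y hy h1 h2 => by
      have h4 := frob hU t4 hy h2.le 8
      rw [h1, norm_sub_rev, ← Nat.sub_add_cancel (Nat.one_le_pow 8 l hl.out.pos), pow_succ,
        ← sub_one_mul, norm_mul, h2, mul_one] at h4
      rwa [map_sub, map_pow, map_one]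
  refine ⟨τ, φ ^ 8, ⟨t1, (hI d).2.2.1 φ, fun h => ?_, l ^ 8, l8, ?_⟩, t3, fun y hy0 hy h => ?_, key⟩
  · obtain ⟨ξ, hξ⟩ := HasEnoughRootsOfUnity.exists_primitiveRoot Qb 25
    have h1 : φ ^ 8 ∈ slev d.ρ 2 := ⟨(hI d).2.2.1 φ, by rwa [show (5 : ℤ_[5]) ^ 2 = 25 by norm_num]⟩
    rw [(hC d 2 (by norm_num)).1] at h1
    have h2 : ‖ι ξ‖ = 1 := (pow_eq_one_iff_of_nonneg (norm_nonneg _) (by norm_num : 25 ≠ 0)).1 (by
      rw [← norm_pow, ← map_pow, hξ.pow_eq_one, map_one, norm_one])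
    have h4 := key ξ (fun g hg => (hC d 2 (by norm_num)).2 (lev_anti _ (by norm_num) (h3 hg)) ξ
      hξ.pow_eq_one) (h1.2 ξ hξ.pow_eq_one) h2
    rw [pow_eq_pow_mod _ hξ.pow_eq_one, show (l ^ 8 - 1) % 25 = 20 by omega, map_sub, map_one] at h4
    have h6 : ι (ξ ^ 20) ^ 5 = 1 := by
      rw [← map_pow, ← pow_mul, show 20 * 5 = 25 * 4 from rfl, pow_mul, hξ.pow_eq_one, one_pow,
        map_one]
    have h7 : ι (ξ ^ 20) - 1 ≠ 0 := fun h0 => hξ.pow_ne_one_of_pos_of_lt (l := 20) (by norm_num)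
      (by norm_num) (ι.injective ((sub_eq_zero.1 h0).trans (map_one ι).symm))
    have h8 : ‖ι (ξ ^ 20)‖ ≤ 1 := by rw [map_pow, norm_pow, h2, one_pow]
    generalize ι (ξ ^ 20) = η at h4 h6 h7 h8
    have h9 : ((5 : ℕ) : Om l) = -((η ^ 1 - 1 ^ 1) + (η ^ 2 - 1 ^ 2) + ((η ^ 3 - 1 ^ 3) +
        (η ^ 4 - 1 ^ 4))) := mul_left_cancel₀ h7 (by push_cast; linear_combination h6)
    have h10 : ‖((5 : ℕ) : Om l)‖ = 1 := by
      rw [← map_natCast (algebraMap ℚ_[l] (Om l)), PadicAlgCl.norm_extends,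
        Padic.norm_natCast_eq_one_iff]
      exact (Nat.coprime_primes hl.out Nat.prime_five).2 l5
    have h11 := norm_pow_sub h8 norm_one.le h4
    rw [h9, norm_neg] at h10
    exact h10.not_lt ((IsUltrametricDist.norm_add_le_max _ _).trans_lt (max_lt
      ((IsUltrametricDist.norm_add_le_max _ _).trans_lt (max_lt (h11 _) (h11 _)))
      ((IsUltrametricDist.norm_add_le_max _ _).trans_lt (max_lt (h11 _) (h11 _)))))
  · rw [← QuotientGroup.eq_one_iff] at t5 ⊢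
    simp only [QuotientGroup.mk_mul, QuotientGroup.mk_inv, QuotientGroup.mk_pow,
      mul_inv_eq_one] at t5 ⊢
    exact conj_iter t5 8
  · refine hR l ι U (lev d.ρ 1) hU hO inferInstance (hI d).1 y hy0 hy fun g hg hg' => ?_
    obtain ⟨i, hi⟩ := t3 g hg hg'
    have h1 : τ ^ i ∈ MulAction.stabilizer GQ y := pow_mem h i
    have h2 : g * (τ ^ i)⁻¹ ∈ MulAction.stabilizer GQ y := hy _ hi
    simpa using mul_mem h2 h1

end TTd

theorem tdS (hE : EmbS) (hR : RamS) (hT : TameS) (hI : IdxS) (hN : NqS) (hC : CycS) : TdS := by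
  intro d U hU hO h3 h5
  obtain ⟨ι9⟩ := hE.1 659
  obtain ⟨ι3⟩ := hE.1 13
  obtain ⟨s, hs⟩ := (hI d).2.2.2.1
  have D := TTd.datum hT hR hI hC d hU hO h3 h5
  obtain ⟨τ0, φ0, a0, b0, c0, e0⟩ := D 659 (by norm_num) (by norm_num) ι9
  obtain ⟨τ1, φ1, a1, -, c1, -⟩ := D 659 (by norm_num) (by norm_num) (ι9.comp (s : Qb →+* Qb))
  obtain ⟨τ2, φ2, a2, -, c2, -⟩ := D 13 (by norm_num) (by norm_num) ι3
  obtain ⟨τ3, φ3, a3, -, c3, -⟩ := D 13 (by norm_num) (by norm_num) (ι3.comp (s : Qb →+* Qb))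
  have key : ∀ (l : ℕ) [Fact l.Prime] (ι ι' : Qb →+* Om l) (y : Qb),
      (∀ a ∈ gam d.ρ, NVal ι (a y) ∧ NVal (ι.comp (s : Qb →+* Qb)) (a y)) → NVal ι' y :=
    fun l _ ι ι' y h => by
      obtain ⟨g, hg⟩ := hE.2.1 _ ι ι'
      unfold NVal
      rw [hg]
      rcases (hI d).2.2.2.2 g with h1 | h1
      · exact (h g ((d.mem_gam g).2 h1)).1
      · have h2 := (h (s⁻¹ * g) ((d.mem_gam _).2 (s.injective (by
          rw [← AlgEquiv.mul_apply, mul_inv_cancel_left, h1, hs])))).2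
        unfold NVal at h2
        rwa [RingHom.comp_apply, RingHom.coe_coe, ← AlgEquiv.mul_apply, mul_inv_cancel_left] at h2
  refine ⟨![τ0, τ1, τ2, τ3], ![φ0, φ1, φ2, φ3], ⟨fun i => ?_, fun h => ?_⟩,
    fun y hy0 hy h => ⟨fun ι => key 13 ι3 ι y fun a ha => ?_,
      fun ι => key 659 ι9 ι y fun a ha => ?_⟩, ι9, e0⟩
  · fin_cases i
    exacts [a0, a1, a2, a3]
  · have h2 := h3.trans (lev_anti d.ρ (by norm_num : 2 ≤ 3))
    obtain ⟨g, g1, g2, g3⟩ := hN d ι9 U hU hO h2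
    obtain ⟨i, hi⟩ := b0 g g1 g2
    exact g3 (by simpa using mul_mem (h2 hi) (pow_mem (show τ0 ∈ _ from h) i))
  · have h0 := (map_ne_zero a).2 hy0
    exact ⟨c2 _ h0 (TTd.fx_conj hU hy a) (h a ha 2), c3 _ h0 (TTd.fx_conj hU hy a) (h a ha 3)⟩
  · have h0 := (map_ne_zero a).2 hy0
    exact ⟨c0 _ h0 (TTd.fx_conj hU hy a) (h a ha 0), c1 _ h0 (TTd.fx_conj hU hy a) (h a ha 1)⟩

end Pool.Agent.Lib.MP_54db3e_nt
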