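import Pool.Agent.Lib.MP_54db3e_nt.H79Fld

/-!
Valuations of a number field through embeddings.
-/

open scoped Classical
open NumberField

noncomputable section

namespace Pool.Agent.Lib.MP_54db3e_nt

namespace TVal

open H79

theorem norm_l (l : ℕ) [Fact l.Prime] : ‖(l : Om l)‖ = (l : ℝ)⁻¹ := by
  rw [← Padic.norm_p, ← PadicAlgCl.norm_extends]
  simp

theorem unif {K : Type} [Field K] [NumberField K] (l : ℕ) [hl : Fact l.Prime] (ι : K →+* Om l) :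
    ∃ π : K, ∃ e : ℕ, 0 < e ∧ e ≤ Module.finrank ℚ K ∧ ‖ι π‖ ^ e = (l : ℝ)⁻¹ ∧
      ∀ t : K, t ≠ 0 → ∃ k : ℤ, ‖ι t‖ = ‖ι π‖ ^ k := by
  have hl1 : (1 : ℝ) < l := by exact_mod_cast hl.out.one_lt
  have hl0 : (l : 𝓞 K) ≠ 0 := Nat.cast_ne_zero.2 hl.out.ne_zero
  have hι : ι ((l : 𝓞 K) : K) = l := (map_natCast (ι.comp (algebraMap (𝓞 K) K)) l :)
  have hlP : (l : 𝓞 K) ∈ prm ι := by
    rw [mem_prm, hι, norm_l]
    exact inv_lt_one_of_one_lt₀ hl1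
  have h0 : prm ι ≠ ⊥ := fun h => hl0 (by simpa [h] using hlP)
  obtain ⟨π, c0, c1, hc⟩ := exists_norm_eq_pow ι h0
  have h1 := hc _ hl0
  rw [hι, norm_l] at h1
  refine ⟨π, ord (prm ι) l, Nat.pos_of_ne_zero fun h => ?_, ?_, h1.symm, fun t ht => ?_⟩
  · rw [h, pow_zero] at h1
    exact (inv_lt_one_of_one_lt₀ hl1).ne h1
  · have := (prm_isPrime ι).isMaximal h0
    obtain ⟨Q, -, q4⟩ := Ideal.eq_prime_pow_mul_coprime (I := Ideal.span {(l : 𝓞 K)})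
      (by simpa using hl.out.ne_zero) (prm ι)
    have q5 : Ideal.span {(l : 𝓞 K)} = prm ι ^ ord (prm ι) l * Q := by convert q4; rw [ord]
    obtain ⟨p, n, hp, hn, hN, -⟩ := exists_char (prm ι) h0
    have h2 := congrArg Ideal.absNorm q5
    rw [Ideal.absNorm_span_natCast, RingOfIntegers.rank, map_mul, map_pow, hN, ← pow_mul] at h2
    have h3 : p ∣ l := by
      have h4 := Ideal.absNorm_dvd_absNorm_of_le ((Ideal.span_singleton_le_iff_mem _).2 hlP)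
      rw [Ideal.absNorm_span_natCast, hN] at h4
      exact hp.dvd_of_dvd_pow ((dvd_pow_self p hn.ne').trans h4)
    obtain rfl := (Nat.prime_dvd_prime_iff_eq hp hl.out).1 h3
    exact (Nat.le_mul_of_pos_left _ hn).trans
      ((Nat.pow_dvd_pow_iff_le_right hp.one_lt).1 ⟨_, h2⟩)
  · obtain ⟨a, b, hb, rfl⟩ := IsFractionRing.div_surjective (A := 𝓞 K) t
    refine ⟨(ord (prm ι) a : ℤ) - ord (prm ι) b, ?_⟩
    rw [map_div₀, norm_div, zpow_sub₀ c0.ne', zpow_natCast, zpow_natCast]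
    exact congrArg₂ (· / ·) (hc a fun h0 => ht (by simp [h0])) (hc b (nonZeroDivisors.ne_zero hb))

theorem bounds {l : ℕ} [hl : Fact l.Prime] {c : ℝ} {e : ℕ} (h0 : 0 ≤ c) (he : 0 < e)
    (h : c ^ e = (l : ℝ)⁻¹) : 0 < c ∧ c ≠ 1 := by
  have hl1 : (1 : ℝ) < l := by exact_mod_cast hl.out.one_lt
  refine ⟨h0.lt_of_ne fun h1 => ?_, fun h1 => ?_⟩
  · rw [← h1, zero_pow he.ne'] at h
    exact (inv_pos.2 (by linarith)).ne h
  · rw [h1, one_pow] at h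
    exact (inv_lt_one_of_one_lt₀ hl1).ne' h

end TVal

open TVal H79 in
theorem valS (hE : EmbS) : ValS := by
  intro F _
  have : NumberField F := {}
  have h1 : ∀ (l : ℕ) [Fact l.Prime] (ι : Qb →+* Om l), ∃ π ∈ F, ∃ e : ℕ, 0 < e ∧
      e ≤ Module.finrank ℚ F ∧ ‖ι π‖ ^ e = (l : ℝ)⁻¹ ∧
      ∀ t ∈ F, t ≠ 0 → ∃ k : ℤ, ‖ι t‖ = ‖ι π‖ ^ k := fun l _ ι => by
    obtain ⟨π, e, e0, e1, e2, e3⟩ := unif l (ι.comp (algebraMap F Qb))
    exact ⟨π, π.2, e, e0, e1, e2, fun t ht h0 => e3 ⟨t, ht⟩ fun h => h0 (congrArg Subtype.val h)⟩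
  have h2 : ∀ (l : ℕ) [Fact l.Prime] (ι : Qb →+* Om l), ∀ x π : Qb, π ∈ F → 0 < ‖ι π‖ →
      ∀ j : ℤ, 5 ∣ j → ‖ι x‖ = ‖ι π‖ ^ j → N5 F ι x := by
    rintro l _ ι x π hπ c0 _ ⟨j, rfl⟩ h
    refine ⟨π ^ j, zpow_mem hπ j, zpow_ne_zero _ fun h0 => by simp [h0] at c0, ?_⟩
    rw [h, map_zpow₀, norm_zpow, mul_comm, zpow_mul]
    rfl
  refine ⟨h1, fun l _ ι x hx y hy hxy ⟨m, hm, k, hk⟩ => ?_,
    fun l _ ι x hx hx0 g ⟨γ, hγ⟩ k hk t ht h => ?_, fun k hk hc x hx hx0 h => ?_⟩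
  · obtain ⟨π, hπ, e, e0, -, e2, e3⟩ := h1 l ι
    obtain ⟨c0, c1⟩ := bounds (norm_nonneg _) e0 e2
    obtain ⟨j, hj⟩ := e3 x hx fun h0 => hy (by simpa [h0] using hxy.symm)
    refine h2 l ι x π hπ c0 j ?_ hj
    have h3 : ‖ι π‖ ^ (j * m) = ‖ι π‖ ^ (-(e : ℤ) * k * 5) := by
      rw [zpow_mul, ← hj, hxy, zpow_natCast, ← pow_mul, mul_comm 5, pow_mul, hk, zpow_mul,
        zpow_mul, zpow_neg, zpow_natCast, e2, inv_inv]
      rfl
    have h4 : (5 : ℤ) ∣ j * m := ⟨_, (zpow_right_injective₀ c0 c1 h3).trans (mul_comm _ _)⟩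
    have := (Nat.prime_iff_prime_int.1 Nat.prime_five).dvd_or_dvd h4
    omega
  · obtain ⟨π, hπ, e, e0, -, e2, e3⟩ := h1 l ι
    obtain ⟨c0, c1⟩ := bounds (norm_nonneg _) e0 e2
    obtain ⟨j, hj⟩ := e3 x hx hx0
    obtain ⟨j', hj'⟩ := e3 t ht fun h0 => by simp [h0, hx0] at h
    refine h2 l ι x π hπ c0 j ?_ hj
    have h3 := hE.2.2.2.1 l γ (ι x)
    rw [← hγ, h, map_mul, map_pow, map_pow, norm_mul, norm_pow, norm_pow, hj, hj',
      ← zpow_natCast, ← zpow_natCast, ← zpow_mul, ← zpow_mul, ← zpow_add₀ c0.ne'] at h3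
    have h4 : (5 : ℤ) ∣ j * (1 - k) := ⟨j', by
      have := zpow_right_injective₀ c0 c1 h3
      push_cast at this
      linear_combination -this⟩
    have := (Nat.prime_iff_prime_int.1 Nat.prime_five).dvd_or_dvd h4
    omega
  · obtain ⟨u, t, -, hu⟩ := fifth (eq_one_of_pow hk hc) (x := ⟨x, hx⟩)
      (fun h0 => hx0 (congrArg Subtype.val h0)) fun l _ ι => by
        obtain ⟨ι', rfl⟩ := exists_ext F ι
        exact div5_of (h l ι')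
    let φ := (algebraMap F Qb).comp (algebraMap (𝓞 F) F)
    have hi : ∀ v : 𝓞 F, IsIntegral ℤ (φ v) := fun v =>
      v.isIntegral_coe.map (algebraMap F Qb).toIntAlgHom
    refine ⟨φ u, ((u : 𝓞 F) : F).2, t, t.2, ⟨(u.isUnit.map φ).ne_zero, hi _, ?_⟩,
      congrArg Subtype.val hu⟩
    rw [← map_units_inv]
    exact hi _

end Pool.Agent.Lib.MP_54db3e_nt
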